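import Pool.Agent.INJ.GTargets

set_option autoImplicit false

namespace INJ

open TopologicalSpace

noncomputable section

/-- final statement -/
def Main : Prop :=
  ∃ (M : Type) (_ : MetricSpace M) (B : Type) (_ : MetricSpace B) (n : ℕ)
    (e e' : B → Matrix (Fin n) (Fin n) ℂ),
    Nonempty (M ≃ₜ Circle × (ℕ → unitInterval)) ∧
    CompactSpace B ∧ ConnectedSpace B ∧ LocallyConnectedSpace B ∧
    Continuous e ∧ Continuous e' ∧ (∀ b, e b * e b = e b) ∧ (∀ b, e' b * e' b = e' b) ∧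
    ¬ K0Eq e e' ∧
    ∀ ε : ℝ, 0 < ε → ∃ (E : Type) (_ : MetricSpace E) (p : E → B) (f : E → M × B),
      CompactSpace E ∧ Continuous p ∧ IsHurewicz p ∧ Continuous f ∧ (∀ x, (f x).2 = p x) ∧
      (∀ b, ∃ i : M → E, Isometry i ∧ Set.range i = p ⁻¹' {b} ∧ ∀ m, dist (f (i m)).1 m < ε) ∧
      Function.Surjective f ∧ (∀ z, Metric.diam (f ⁻¹' {z}) < ε) ∧
      K0Eq (fun x => e (p x)) (fun x => e' (p x))

lemma card_CP : Fintype.card (CP 4 × Fin (N 0)) = Fintype.card (CM 4 × Fin (N 0)) := by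
  rw [Fintype.card_prod, Fintype.card_prod]
  rfl

theorem main (hACT : T_ACT) (hMH : T_MH) (hGHF : T_GHF) (hGSM : T_GSM) (hGSX : T_GSX)
    (hONT : T_ONT) (hEBC : T_EBC) (hKB : T_KB) (hBAS : T_BAS) (hRIX : T_RIX) (hASM : T_ASM) :
    Main := by
  obtain ⟨hB1, hB2, hB3⟩ := hBAS
  obtain ⟨c1, c2, -, -, i1, i2⟩ := hEBC
  obtain ⟨Φ⟩ := hGHF hMH
  have _ : CompactSpace MF := Φ.symm.compactSpace
  have h0 : Fintype.card (CM 4 × Fin (N 0)) = Fintype.card (CM 4 × Fin (N 0)) := rfl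
  let f := Fintype.equivFinOfCardEq card_CP
  let g := Fintype.equivFinOfCardEq h0
  refine ⟨MF, inferInstance, BX, inferInstance, Fintype.card (CM 4 × Fin (N 0)),
    fun b => Matrix.reindex f f (eBP b), fun b => Matrix.reindex g g (eBM b), ⟨Φ⟩, hB1, hB2, hB3,
    c1.matrix_submatrix _ _, c2.matrix_submatrix _ _, ?_, ?_, ?_, ?_⟩
  · intro b
    change (eBP b).submatrix _ _ * (eBP b).submatrix _ _ = (eBP b).submatrix _ _
    rw [Matrix.submatrix_mul_equiv, i1]
  · intro b
    change (eBM b).submatrix _ _ * (eBM b).submatrix _ _ = (eBM b).submatrix _ _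
    rw [Matrix.submatrix_mul_equiv, i2]
  · exact fun h => hKB ((hRIX BX _ _ _ _ f g eBP eBM).1 h)
  · intro ε hε
    obtain ⟨j, φ, hφ1, hφ2, hφ3, hφ4⟩ := hONT hACT (ε / 4) (by linarith)
    obtain ⟨S, hS1, hS2, hS3⟩ := hGSX hACT j
    obtain ⟨a1, a2, a3⟩ := hGSM hACT j
    let _ : MulAction GG MF := actF hACT j
    have hsm : ∀ (c : GG) (m : MF), c • m = (smX hACT j c m.1, m.2) := fun _ _ => rfl
    obtain ⟨E, hE, p, F, b1, b2, b3, b4, b5, b6, b7, b8, b9⟩ := hASM MF (by
        have h1 : Continuous fun z : GG × MF => smX hACT j z.1 z.2.1 :=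
          a1.comp (continuous_fst.prodMk (continuous_fst.comp continuous_snd))
        exact h1.prodMk (continuous_snd.comp continuous_snd))
      (by
        intro c
        refine Isometry.of_dist_eq fun x y => ?_
        rw [hsm, hsm, Prod.dist_eq, Prod.dist_eq]
        dsimp only
        rw [(a2 c).dist_eq])
      (by
        intro c m p
        rw [hsm, Prod.dist_eq]
        dsimp only
        rw [dist_self]
        exact max_le (a3 c m.1 p) dist_nonneg)
      (fun m => S m.1) (hS1.comp continuous_fst) (fun m => hS2 m.1) (fun c m i => hS3 c m.1 i)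
      φ hφ1 hφ2 (fun c m => hφ3 c m.1 m.2) (ε / 4) hφ4
    refine ⟨E, hE, p, F, b1, b2, b3, b4, b5, fun b => ?_, b7, fun z => ?_, ?_⟩
    · obtain ⟨i, q1, q2, q3⟩ := b6 b
      exact ⟨i, q1, q2, fun m => (q3 m).trans (by linarith)⟩
    · refine lt_of_le_of_lt (Metric.diam_le_of_forall_dist_le (C := 2 * (ε / 4)) (by linarith) ?_)
        (by linarith)
      intro x hx y hy
      have hx' : F x = z := hx
      have hy' : F y = z := hy
      exact (b8 x y (hx'.trans hy'.symm)).le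
    · exact (hRIX E _ _ _ _ f g _ _).2 b9

end

end INJ
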