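import Pool.Agent.INJ.K2Targets

set_option autoImplicit false

/-!
# INJ, item APX: approximation of invariant functions on `P` by invariant functions on `P_n`
-/

namespace INJ

open Matrix Filter Topology

noncomputable section

lemma APX_unif (f : PP → ℂ) (hf : Continuous f) {ε : ℝ} (hε : 0 < ε) :
    ∃ n0 : ℕ, ∀ p q : PP, (∀ i, i < n0 → p i = q i) → ‖f p - f q‖ < ε := by
  by_contra hcon
  push Not at hcon
  choose p q hpq hge using hcon
  have : ∀ i, CompactSpace (Sph (N i)) := fun i =>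
    isCompact_iff_compactSpace.1 (isCompact_sphere _ _)
  obtain ⟨a, φ, hφ, ha⟩ := CompactSpace.tendsto_subseq p
  have hq : Tendsto (q ∘ φ) atTop (𝓝 a) := by
    rw [tendsto_pi_nhds] at ha ⊢
    intro i
    refine (ha i).congr' ?_
    filter_upwards [eventually_gt_atTop i] with k hk
    exact hpq (φ k) i (lt_of_lt_of_le hk (hφ.id_le k))
  have h1 := ((hf.tendsto a).comp ha).sub ((hf.tendsto a).comp hq)
  rw [sub_self] at h1
  have h2 := h1.norm
  rw [norm_zero] at h2
  exact absurd (ge_of_tendsto' h2 (fun k => hge (φ k))) (not_le.2 hε)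

/-- extension of a finite sequence by a base point -/
def APX_ext (n : ℕ) (b : PP) (p : PT n) : PP := fun i => if h : i < n then p ⟨i, h⟩ else b i

lemma APX_ext_cont (n : ℕ) (b : PP) : Continuous (APX_ext n b) := by
  refine continuous_pi fun i => ?_
  by_cases h : i < n
  · simpa [APX_ext, h] using continuous_apply (A := fun j : Fin n => Sph (N j)) ⟨i, h⟩
  · simpa [APX_ext, h] using continuous_const

lemma APX_rot_rot {k : ℕ} (c d : Circle) (v : Sph k) : rot c (rot d v) = rot (c * d) v := by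
  apply Subtype.ext
  simp [rot, smul_smul]

lemma APX_rot_one {k : ℕ} (v : Sph k) : rot 1 v = v := by
  apply Subtype.ext
  simp [rot]

lemma APX_N_pos (i : ℕ) : 0 < N i := by unfold N; positivity

lemma APX_zeta_pow (i : ℕ) : zeta i ^ N i = 1 := by
  unfold zeta
  rw [← Circle.exp_natCast_mul]
  have h : (N i : ℝ) ≠ 0 := by exact_mod_cast (APX_N_pos i).ne'
  rw [mul_div_cancel₀ _ h]
  exact Circle.exp_two_pi

lemma APX_zeta_pow' {i n : ℕ} (h : i ≤ n) : zeta i ^ N n = 1 := by
  have h1 : N i ∣ N n := by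
    unfold N
    exact pow_dvd_pow _ (Nat.pow_le_pow_right (by norm_num) h)
  obtain ⟨c, hc⟩ := h1
  rw [hc, pow_mul, APX_zeta_pow, one_pow]

lemma APX_sgm_cont (n : ℕ) : Continuous (sgm n) := by
  refine continuous_pi fun i => ?_
  exact (continuous_rot (zeta i)).comp (continuous_apply i)

lemma APX_sgm_iter (n l : ℕ) (p : PT n) (i : Fin n) :
    (sgm n)^[l] p i = rot (zeta i ^ l) (p i) := by
  induction l generalizing p with
  | zero => simp [APX_rot_one]
  | succ l ih =>
    rw [Function.iterate_succ_apply, ih, pow_succ, ← APX_rot_rot]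
    rfl

lemma APX_sgm_per (n : ℕ) (p : PT (n + 1)) : (sgm (n + 1))^[N n] p = p := by
  funext i
  rw [APX_sgm_iter, APX_zeta_pow' (Nat.lt_succ_iff.1 i.2), APX_rot_one]

lemma APX_res_iter (n l : ℕ) (p : PP) : resP n (gam^[l] p) = (sgm n)^[l] (resP n p) := by
  induction l generalizing p with
  | zero => rfl
  | succ l ih =>
    rw [Function.iterate_succ_apply, Function.iterate_succ_apply, ih]
    rfl

lemma APX_inv_iter {α : Type} (x : PP → α) (hinv : ∀ p, x (gam p) = x p) (l : ℕ) (p : PP) :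
    x (gam^[l] p) = x p := by
  induction l generalizing p with
  | zero => rfl
  | succ l ih => rw [Function.iterate_succ_apply, ih, hinv]

theorem p_APX : T_APX := by
  intro ι κ _ _ x hx hinv ε hε
  have hu : ∀ ij : ι × κ, ∃ n0 : ℕ, ∀ p q : PP, (∀ i, i < n0 → p i = q i) →
      ‖x p ij.1 ij.2 - x q ij.1 ij.2‖ < ε / 2 := fun ij =>
    APX_unif (fun p => x p ij.1 ij.2) (hx.matrix_elem ij.1 ij.2) (half_pos hε)
  choose m hm using hu
  refine ⟨Finset.univ.sup m, fun n hn => ?_⟩
  rcases isEmpty_or_nonempty PP with hP | ⟨⟨b⟩⟩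
  · exact ⟨fun _ => 0, continuous_const, fun _ => rfl, fun p => (hP.false p).elim⟩
  have hN : (N n : ℂ) ≠ 0 := by exact_mod_cast (APX_N_pos n).ne'
  have hNr : (0 : ℝ) < N n := by exact_mod_cast APX_N_pos n
  refine ⟨fun p => (N n : ℂ)⁻¹ • ∑ l ∈ Finset.range (N n),
    x (APX_ext (n + 1) b ((sgm (n + 1))^[l] p)), ?_, ?_, ?_⟩
  · have hc : Continuous fun p : PT (n + 1) => ∑ l ∈ Finset.range (N n),
        x (APX_ext (n + 1) b ((sgm (n + 1))^[l] p)) :=
      continuous_finsetSum _ fun l _ =>
        hx.comp ((APX_ext_cont _ _).comp ((APX_sgm_cont _).iterate l))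
    exact hc.const_smul ((N n : ℂ)⁻¹)
  · intro p
    dsimp only
    set F : ℕ → Matrix ι κ ℂ := fun l => x (APX_ext (n + 1) b ((sgm (n + 1))^[l] p)) with hF
    have h1 : ∑ l ∈ Finset.range (N n), F (l + 1) = ∑ l ∈ Finset.range (N n), F l := by
      have h2 := Finset.sum_range_succ F (N n)
      have h3 := Finset.sum_range_succ' F (N n)
      have h4 : F (N n) = F 0 := by
        simp only [hF, APX_sgm_per, Function.iterate_zero, id]
      rw [h3, h4] at h2
      exact add_right_cancel h2
    rw [← h1]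
    rfl
  · intro p i j
    have key : ∀ l, ‖x (APX_ext (n + 1) b ((sgm (n + 1))^[l] (resP (n + 1) p))) i j
        - x p i j‖ < ε / 2 := by
      intro l
      rw [← APX_res_iter, ← APX_inv_iter x hinv l p]
      refine hm (i, j) _ _ fun k hk => ?_
      have hk' : k < n + 1 := by
        have : m (i, j) ≤ n := (Finset.le_sup (Finset.mem_univ _)).trans hn
        omega
      simp [APX_ext, hk', resP]
    have h5 : ((N n : ℂ)⁻¹ • ∑ l ∈ Finset.range (N n),
        x (APX_ext (n + 1) b ((sgm (n + 1))^[l] (resP (n + 1) p)))) i j - x p i j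
        = (N n : ℂ)⁻¹ * ∑ l ∈ Finset.range (N n),
          (x (APX_ext (n + 1) b ((sgm (n + 1))^[l] (resP (n + 1) p))) i j - x p i j) := by
      rw [Finset.sum_sub_distrib, Finset.sum_const, Finset.card_range, Matrix.smul_apply,
        Matrix.sum_apply, smul_eq_mul, mul_sub, nsmul_eq_mul, inv_mul_cancel_left₀ hN]
    dsimp only
    rw [h5, norm_mul, norm_inv, Complex.norm_natCast]
    have h6 : ‖∑ l ∈ Finset.range (N n),
        (x (APX_ext (n + 1) b ((sgm (n + 1))^[l] (resP (n + 1) p))) i j - x p i j)‖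
        ≤ N n * (ε / 2) := by
      refine (norm_sum_le_of_le _ fun l _ => (key l).le).trans ?_
      rw [Finset.sum_const, Finset.card_range, nsmul_eq_mul]
    calc (N n : ℝ)⁻¹ * _ ≤ (N n : ℝ)⁻¹ * (N n * (ε / 2)) :=
          mul_le_mul_of_nonneg_left h6 (inv_nonneg.2 hNr.le)
      _ = ε / 2 := inv_mul_cancel_left₀ hNr.ne' _
      _ < ε := half_lt_self hε

end

end INJ
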