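import Pool.Agent.INJ.GTargets

set_option autoImplicit false
set_option maxHeartbeats 4000000

/-!
# INJ: ASM (the abstract construction), by helper58
-/

namespace INJ

open TopologicalSpace

noncomputable section

theorem p_ASM (hFAB : T_FAB) (hEV : T_EV') (hFAC : T_FAC) : T_ASM := by
  intro M _ _ _ hcont hisom hdisp S hS hS0 hSg f hf hfs hfg ε hε
  have iC : ContinuousSMul GG M := ⟨hcont⟩
  have iI : IsIsometricSMul GG M := ⟨hisom⟩
  obtain ⟨h1, h2, h3, h4, h5, h6⟩ := hFAB M (fun g p m => hdisp g m p)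
  have hinv : ∀ (g : GG) (x : SumSp PX M), f (g • x).snd = f x.snd := fun g x => hfg g x.snd
  obtain ⟨h7, h8⟩ := hFAC GG (SumSp PX M) M (fun y => f y.snd) hinv
  have h8' := h8 (hf.comp SumSp.continuous_snd)
  have hp : ∀ b m, epi GG PX M (omk GG (SumSp PX M) ⟨repB b, m⟩) = b := by
    intro b m
    rw [h2]
    exact omk_repB b
  have hpt : ∀ (b : BX) (a : OrbSp GG (SumSp PX M)), epi GG PX M a = b →
      ∃ m, a = omk GG (SumSp PX M) ⟨repB b, m⟩ := by
    intro b a hab
    exact (h6 (repB b) a).1 (by rw [hab, omk_repB])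
  refine ⟨OrbSp GG (SumSp PX M), inferInstance, epi GG PX M,
    fun a => (fac GG (SumSp PX M) (fun y => f y.snd) a, epi GG PX M a), h4, h1, h3,
    h8'.prodMk h1, fun _ => rfl, ?_, ?_, ?_, ?_⟩
  · intro b
    refine ⟨fun m => omk GG (SumSp PX M) ⟨repB b, m⟩, ?_, ?_, ?_⟩
    · exact Isometry.of_dist_eq fun m m' => h5 (repB b) m m'
    · ext a
      constructor
      · rintro ⟨m, rfl⟩
        exact hp b m
      · intro ha
        obtain ⟨m, hm⟩ := hpt b a ha
        exact ⟨m, hm.symm⟩
    · intro m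
      have h9 := h7 ⟨repB b, m⟩
      change dist (fac GG (SumSp PX M) (fun y => f y.snd) (omk GG (SumSp PX M) ⟨repB b, m⟩)) m < ε
      rw [h9]
      exact hε m
  · rintro ⟨m, b⟩
    obtain ⟨m', rfl⟩ := hfs m
    exact ⟨omk GG (SumSp PX M) ⟨repB b, m'⟩, Prod.ext (h7 ⟨repB b, m'⟩) (hp b m')⟩
  · intro x y hxy
    have h9 := congrArg Prod.fst hxy
    have h10 := congrArg Prod.snd hxy
    dsimp only at h9 h10
    obtain ⟨m, hm⟩ := hpt _ x rfl
    obtain ⟨m', hm'⟩ := hpt _ y h10.symm
    have h11 : f m = f m' := by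
      have ha := h7 ⟨repB (epi GG PX M x), m⟩
      have hb := h7 ⟨repB (epi GG PX M x), m'⟩
      rw [← hm] at ha
      rw [← hm'] at hb
      dsimp only at ha hb
      rw [← ha, ← hb, h9]
    have h12 : dist x y = dist m m' := by
      conv_lhs => rw [hm, hm']
      exact h5 _ m m'
    have h13 := hε m
    have h14 := hε m'
    have h15 := dist_triangle m (f m) m'
    rw [dist_comm m (f m)] at h15
    have h16 : dist (f m) m' = dist (f m') m' := by rw [h11]
    linarith
  · exact hEV M S hS hS0 hSg (epi GG PX M) h1 h2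

end

end INJ
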