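import Pool.Agent.INJ.FTargets

set_option autoImplicit false

/-!
# INJ: proof of `T_BAS`
-/

namespace INJ

open TopologicalSpace

lemma BAS_pos (i : ℕ) : 0 < N i := by
  unfold N
  positivity

theorem p_BAS (hOC : T_OC) (hSCN : T_SCN) (hSLC : T_SLC) (hPLC : T_PLC) (hOLC : T_OLC) :
    T_BAS := by
  obtain ⟨hc, ho, hs⟩ := hOC GG PX
  have hcon : ∀ i : ℕ, ConnectedSpace (Sph (N i)) := fun i => hSCN (N i) (BAS_pos i)
  have hPP : ConnectedSpace PP := inferInstance
  have hPX : ConnectedSpace PX :=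
    homeoPX.symm.surjective.connectedSpace homeoPX.symm.continuous
  have hPL : LocallyConnectedSpace PP :=
    hPLC (fun i => Sph (N i)) hcon fun i => hSLC (N i) (BAS_pos i)
  have hXL : LocallyConnectedSpace PX :=
    hOLC PP PX homeoPX.symm homeoPX.symm.continuous homeoPX.symm.isOpenMap
      homeoPX.symm.surjective hPL
  refine ⟨⟨?_⟩, hs.connectedSpace hc, hOLC PX _ (omk GG PX) hc ho hs hXL⟩
  rw [← hs.range_eq]
  exact isCompact_range hc

end INJ
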