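import Pool.Agent.INJ.K2Targets

set_option autoImplicit false

/-!
# INJ: start of the induction
-/

namespace INJ

open Matrix

noncomputable section

/-- the pull back of `μ` depends on the Moore coordinate only -/
lemma BASE_mu {Z : Type} [TopologicalSpace Z] {r : Z → Z} {Y : Type} [TopologicalSpace Y]
    {s : Y → Y} {Y' : Type} [TopologicalSpace Y'] {s' : Y' → Y'} (ζ : Circle)
    (f : EMap Z r (Y × MM) (Prod.map s id)) (g : EMap Z r (Y' × MM) (Prod.map s' id))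
    (h : ∀ p, (f.f p).2 = (g.f p).2) : pull f (mu Y s ζ) = pull g (mu Y' s' ζ) := by
  unfold mu
  rw [map_sub, map_sub, tr1_pull, tr1_pull, pull_cls, pull_cls]
  congr 1
  refine cls_of_MvN (MvN.of_reindex (Equiv.refl _) (fun i => rfl) (fun y i j => ?_))
  change eH (g.f y).2 i j = eH (f.f y).2 i j
  rw [h]

lemma BASE_zero (h : T_DADD) {Y : Type} [TopologicalSpace Y] {s : Y → Y} {ζ : Circle} (c : ℤ)
    (k : ℕ) : D c k (0 : KG Y s ζ) = 0 := by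
  have h1 := (h Y s ζ c k).1 0 0
  rw [sub_self, sub_self] at h1
  exact h1

lemma BASE_D4 {Y : Type} [TopologicalSpace Y] {s : Y → Y} {ζ : Circle} (x : KG Y s ζ) :
    D 1 4 x = x - 4 • T 1 x + 6 • T 2 x - 4 • T 3 x + T 4 x := by
  have e2 : ∀ z : KG Y s ζ, T 2 z = T 1 (T 1 z) := fun z => by rw [← T_add]; rfl
  have e3 : ∀ z : KG Y s ζ, T 3 z = T 1 (T 1 (T 1 z)) := fun z => by
    rw [← T_add, ← T_add]; rfl
  have e4 : ∀ z : KG Y s ζ, T 4 z = T 1 (T 1 (T 1 (T 1 z))) := fun z => by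
    rw [← T_add, ← T_add, ← T_add]; rfl
  rw [e2, e3, e4]
  simp only [D, map_sub]
  abel

theorem p_BASE (hSN : T_SNOC) (hDA : T_DADD) (hLG : T_LGI) (hM0 : T_MU0) (hM5 : T_M5)
    (hFR : T_FROB) (hRE : T_RES) (hZE : T_ZET) (hSG : T_SGM) (hMN : T_MUN) : T_BASE := by
  intro hD
  have hN0 : N 0 = 5 := by norm_num [N]
  have hN5 : ((N 0 / 5 : ℕ) : ℤ) = 1 := by rw [hN0]; norm_num
  rw [hN5] at hD
  set s0 : PT 0 × MM → PT 0 × MM := Prod.map (sgm 0) id with hs0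
  set x0 : KG (PT 0 × MM) s0 (zeta 0) := mu (PT 0) (sgm 0) (zeta 0) with hx0
  -- pull back to the sphere
  obtain ⟨f, hf⟩ := hSN 0
  have h1 : pull f (D 1 4 (mu (PT 1) (sgm 1) (zeta 0))) = 0 := by
    rw [hD, map_zero]
  have h2 : pull f (D 1 4 (mu (PT 1) (sgm 1) (zeta 0))) =
      D 1 4 (pull f (mu (PT 1) (sgm 1) (zeta 0))) :=
    (hDA _ _ _ 1 4).2.2.2.2.2 _ _ f _
  have h3 : pull f (mu (PT 1) (sgm 1) (zeta 0)) =
      pull (prE (N 0) (zeta 0 ^ (1 : ℤ)) s0) x0 := BASE_mu (zeta 0) f _ hf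
  have h4 : pull (prE (N 0) (zeta 0 ^ (1 : ℤ)) s0) (D 1 4 x0) = 0 := by
    rw [(hDA _ _ _ 1 4).2.2.2.2.2 _ _ (prE (N 0) (zeta 0 ^ (1 : ℤ)) s0) x0, ← h3, ← h2, h1]
  obtain ⟨y, hy⟩ := hLG (PT 0 × MM) s0 (zeta 0) 1 (N 0) (D 1 4 x0) h4
  rw [hN0] at hy
  -- correction
  set y' := y - pull (baseE (sgm 0)) y with hy'
  have h5 : 5 • y' = 0 := by
    rw [hy', smul_sub, sub_eq_zero]
    exact hM5 (PT 0) (sgm 0) (zeta 0) y
  have h6 : D 1 5 y' = D 1 4 x0 := by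
    rw [hy', (hDA _ _ _ 1 5).1, ← (hDA _ _ _ 1 5).2.2.2.2.2 _ _ (baseE (sgm 0)) y, ← hy,
      (hDA _ _ _ 1 4).2.2.2.2.2 _ _ (baseE (sgm 0)) x0, hM0 (PT 0) (sgm 0) (zeta 0),
      BASE_zero hDA, sub_zero]
  have h7 : D 1 5 y' = 0 := by
    have h8 := hFR (PT 0 × MM) s0 (zeta 0) 1 1 1 y' h5
    have h9 : (5 : ℕ) ^ 1 * 1 = 5 := by norm_num
    have h10 : (1 : ℤ) * 5 ^ 1 = 5 := by norm_num
    rw [h9, h10] at h8
    rw [h8]
    change y' - T 5 y' = 0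
    have h11 : (zeta 0) ^ (5 : ℤ) = 1 := by
      rw [hZE.2.2.1 0 5, hN0]
      norm_num
    rw [T_eq_of_zpow 5 h11, sub_self]
  have h8 : D 1 4 x0 = 0 := h6.symm.trans h7
  -- residue
  obtain ⟨Res, hR1, hR2, hR3⟩ := hRE (PT 0 × MM) s0 (zeta 0) (zeta 0 ^ 5) 1 5
    (fun p => by
      rw [Function.iterate_one, hs0]
      ext1
      · exact hSG.2.2 p.1
      · rfl) (by norm_num) (fun d hd => by
      rw [Nat.cast_one, one_mul, hZE.2.2.1 0 d, hN0] at hd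
      exact hd) rfl
  have h9 : ∀ c : ℤ, ¬ (5 : ℤ) ∣ c → Res (T c x0) = 0 := by
    intro c hc
    rw [hx0]
    unfold mu
    rw [map_sub, map_sub]
    have e1 := hR2 _ (EH (PT 0) (sgm 0) (zeta 0)) c (fun _ => rfl) (by exact_mod_cast hc)
    have e2 := hR2 _ (tr1 (PT 0 × MM) (Prod.map (sgm 0) id) (zeta 0)) c (fun _ => rfl)
      (by exact_mod_cast hc)
    rw [e1, e2, sub_zero]
  have h10 : Res x0 = mu (PT 0) (sgm 0) (zeta 0 ^ 5) := by
    rw [hx0]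
    unfold mu
    rw [map_sub]
    have e1 := hR3 _ (EH (PT 0) (sgm 0) (zeta 0)) (EH (PT 0) (sgm 0) (zeta 0 ^ 5))
      (fun _ => rfl) (fun _ => rfl) rfl
    have e2 := hR3 _ (tr1 (PT 0 × MM) (Prod.map (sgm 0) id) (zeta 0))
      (tr1 (PT 0 × MM) (Prod.map (sgm 0) id) (zeta 0 ^ 5)) (fun _ => rfl) (fun _ => rfl) rfl
    rw [e1, e2]
  have h11 : Res (D 1 4 x0) = Res x0 := by
    rw [BASE_D4, map_add, map_sub, map_add, map_sub, map_nsmul, map_nsmul, map_nsmul,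
      h9 1 (by norm_num), h9 2 (by norm_num), h9 3 (by norm_num), h9 4 (by norm_num)]
    simp
  rw [h8, map_zero, h10] at h11
  exact hMN (zeta 0 ^ 5) h11.symm

end

end INJ
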