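import Pool.Agent.INJ.MTargets

set_option autoImplicit false

/-!
# INJ, part M: the target BQ
-/

namespace INJ

open Quaternion

noncomputable section

theorem BQ_pow_pos {q : ℕ} (hq : 2 ≤ q) : q ^ 2 - q ≠ 0 := by
  have h : q * 2 ≤ q * q := Nat.mul_le_mul_left q hq
  have h2 : q ^ 2 = q * q := by ring
  omega

theorem BQ_mul {q : ℕ} : (q - 1) * q = q ^ 2 - q := by
  rw [Nat.sub_mul, one_mul, sq]

/-- the common computation: if the first coordinate of `Bq` is `r ≥ 0` real and the second is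
zero, then the argument is zero -/
theorem BQ_zero {q : ℕ} (hq : 2 ≤ q) (a b : ℂ) (r : ℝ) (hr : 0 ≤ r)
    (h1 : a ^ (q - 1) * b = (r : ℂ)) (h2 : b ^ q + star a ^ (q ^ 2 - q) = 0) : a = 0 ∧ b = 0 := by
  have hq0 : q ≠ 0 := by omega
  have h3 : (r : ℂ) ^ q = -((‖a‖ ^ 2 : ℝ) : ℂ) ^ (q ^ 2 - q) := by
    rw [← h1, mul_pow, ← pow_mul, BQ_mul, eq_neg_of_add_eq_zero_left h2, mul_neg, ← mul_pow]
    congr 2
    rw [Complex.star_def, Complex.mul_conj, Complex.normSq_eq_norm_sq]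
  have h4 : r ^ q = -(‖a‖ ^ 2) ^ (q ^ 2 - q) := by
    exact_mod_cast h3
  have h5 : 0 ≤ r ^ q := pow_nonneg hr q
  have h6 : 0 ≤ (‖a‖ ^ 2) ^ (q ^ 2 - q) := by positivity
  have h7 : (‖a‖ ^ 2) ^ (q ^ 2 - q) = 0 := by linarith
  have h8 : ‖a‖ ^ 2 = 0 := by
    rcases pow_eq_zero_iff (BQ_pow_pos hq) |>.1 h7 with h
    exact h
  have ha : a = 0 := by
    rw [pow_eq_zero_iff two_ne_zero] at h8
    exact norm_eq_zero.1 h8
  refine ⟨ha, ?_⟩
  rw [ha, star_zero, zero_pow (BQ_pow_pos hq), add_zero] at h2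
  exact (pow_eq_zero_iff hq0).1 h2

theorem p_BQ (hZ : T_Z12) : T_BQ := by
  intro q hq
  obtain ⟨Z1, Z2, -, Z4, -, Z6, Z7, Z8, Z9, -, Z11, Z12, -, -⟩ := hZ
  have hq0 : q ≠ 0 := by omega
  have hq1 : q - 1 ≠ 0 := by omega
  have hx0 : ∀ x : ℍ[ℝ], z1 x = 0 → z2 x = 0 → x = 0 := by
    intro x h1 h2
    rw [← Z1 x, h1, h2]
    rfl
  have hco : ∀ x : ℍ[ℝ], z1 (Bq q x) = z1 x ^ (q - 1) * z2 x ∧
      z2 (Bq q x) = z2 x ^ q + star (z1 x) ^ (q ^ 2 - q) := fun x => Z2 _ _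
  have hreal : ∀ (r : ℝ) (x : ℍ[ℝ]), x ≠ 0 → 0 ≤ r → Bq q x ≠ (r : ℍ[ℝ]) := by
    intro r x hx hr h
    have h1 := (hco x).1
    have h2 := (hco x).2
    rw [h] at h1 h2
    have e1 : z1 ((r : ℝ) : ℍ[ℝ]) = (r : ℂ) := by
      apply Complex.ext
      · simp [z1]
      · simp [z1]
    have e2 : z2 ((r : ℝ) : ℍ[ℝ]) = 0 := by
      apply Complex.ext
      · simp [z2]
      · simp [z2]
    rw [e1] at h1
    rw [e2] at h2
    obtain ⟨ha, hb⟩ := BQ_zero hq (z1 x) (z2 x) r hr h1.symm h2.symm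
    exact hx (hx0 x ha hb)
  refine ⟨?_, ?_, ?_, ?_, hreal⟩
  · have h : Continuous fun x : ℍ[ℝ] => (z1 x ^ (q - 1) * z2 x,
        z2 x ^ q + star (z1 x) ^ (q ^ 2 - q)) := by fun_prop
    exact Z8.comp h
  · intro x hx h
    refine hreal 0 x hx le_rfl ?_
    rw [h]
    simp
  · intro ζ x hζ
    unfold Bq
    rw [(Z4 _ x).1, (Z4 _ x).2, Z9]
    have h1 : ((ζ : ℂ)) ^ (q - 1) * ζ = ((ζ ^ q : Circle) : ℂ) := by
      rw [← pow_succ, Nat.sub_add_cancel (by omega), Circle.coe_pow]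
    have h2 : star (ζ : ℂ) ^ (q ^ 2 - q) = ((ζ ^ q : Circle) : ℂ) := by
      have h3 : star (ζ : ℂ) = ((ζ⁻¹ : Circle) : ℂ) := by
        rw [Circle.coe_inv_eq_conj]
        rfl
      rw [h3, ← Circle.coe_pow]
      congr 1
      have h4 : ζ ^ q * ζ ^ (q ^ 2 - q) = 1 := by
        rw [← pow_add, ← hζ]
        congr 1
        have h5 : q * 1 ≤ q * q := Nat.mul_le_mul_left q (by omega)
        have h6 : q ^ 2 = q * q := by ring
        omega
      rw [inv_pow]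
      exact (eq_inv_of_mul_eq_one_left h4).symm
    congr 1
    · rw [mul_pow]
      calc (ζ : ℂ) ^ (q - 1) * z1 x ^ (q - 1) * (ζ * z2 x) =
          ((ζ : ℂ) ^ (q - 1) * ζ) * (z1 x ^ (q - 1) * z2 x) := by ring
        _ = _ := by rw [h1]
    · rw [star_mul', mul_pow, mul_pow, h2, mul_add, Circle.coe_pow]
  · unfold Bq
    rw [Z11, Z12, zero_pow hq1, zero_mul, one_pow, star_zero, zero_pow (BQ_pow_pos hq), add_zero]
    have h := Z1 eJ
    rw [Z11, Z12] at h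
    exact h

end

end INJ
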