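import Pool.Agent.INJ.MTargets

set_option autoImplicit false

/-!
# INJ, part M: the bonding map
-/

namespace INJ

open Quaternion

noncomputable section

lemma BT_nrm_norm {x : ℍ[ℝ]} (hx : x ≠ 0) : ‖nrm x‖ = 1 := by
  have h : ‖x‖ ≠ 0 := norm_ne_zero_iff.2 hx
  unfold nrm
  rw [norm_smul, norm_inv, norm_norm, inv_mul_cancel₀ h]

lemma BT_nrm_ne {x : ℍ[ℝ]} (hx : x ≠ 0) : nrm x ≠ 0 := by
  intro h
  have := BT_nrm_norm hx
  rw [h, norm_zero] at this
  exact zero_ne_one this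

lemma BT_nrm_mul {c x : ℍ[ℝ]} (hc : ‖c‖ = 1) : nrm (c * x) = c * nrm x := by
  unfold nrm
  rw [norm_mul, hc, one_mul, mul_smul_comm]

lemma BT_nrm_unit {x : ℍ[ℝ]} (hx : ‖x‖ = 1) : nrm x = x := by
  unfold nrm
  rw [hx, inv_one, one_smul]

lemma BT_nrm_smul {x : ℍ[ℝ]} {r : ℝ} (hr : 0 < r) (hx : ‖x‖ = 1) : nrm (r • x) = x := by
  unfold nrm
  rw [norm_smul, hx, mul_one, Real.norm_eq_abs, abs_of_pos hr, smul_smul,
    inv_mul_cancel₀ hr.ne', one_smul]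

lemma BT_nrm_cont : ContinuousOn nrm {x | x ≠ 0} := by
  unfold nrm
  refine ContinuousOn.smul (ContinuousOn.inv₀ continuous_norm.continuousOn ?_) continuousOn_id
  intro x hx
  exact norm_ne_zero_iff.2 hx

lemma BT_norm (hBQ : T_BQ) {q : ℕ} (hq : 2 ≤ q) (v : ℍ[ℝ]) : ‖bt q v‖ = min 1 (10 * ‖v‖) := by
  unfold bt
  have h0 : 0 ≤ min 1 (10 * ‖v‖) := le_min zero_le_one (by positivity)
  rw [norm_smul, Real.norm_eq_abs, abs_of_nonneg h0]
  by_cases hv : v = 0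
  · rw [hv, norm_zero, mul_zero, min_eq_right zero_le_one, zero_mul]
  · rw [BT_nrm_norm ((hBQ q hq).2.1 _ (BT_nrm_ne hv)), mul_one]

lemma BT_cont (hBQ : T_BQ) {q : ℕ} (hq : 2 ≤ q) : Continuous (bt q) := by
  rw [continuous_iff_continuousAt]
  intro v
  by_cases hv : v = 0
  · subst hv
    have h1 : bt q 0 = 0 := by
      rw [← norm_eq_zero, BT_norm hBQ hq, norm_zero, mul_zero, min_eq_right zero_le_one]
    unfold ContinuousAt
    rw [h1]
    refine squeeze_zero_norm (a := fun v : ℍ[ℝ] => 10 * ‖v‖) (fun w => ?_) ?_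
    · rw [BT_norm hBQ hq]
      exact min_le_right _ _
    · have h2 : Continuous fun v : ℍ[ℝ] => 10 * ‖v‖ := by fun_prop
      have h3 := h2.tendsto 0
      rwa [norm_zero, mul_zero] at h3
  · have hO : IsOpen {x : ℍ[ℝ] | x ≠ 0} := isOpen_ne
    have h1 : ContinuousAt nrm v := BT_nrm_cont.continuousAt (hO.mem_nhds hv)
    have h2 : ContinuousAt (fun w => Bq q (nrm w)) v := (hBQ q hq).1.continuousAt.comp h1
    have h3 : Bq q (nrm v) ≠ 0 := (hBQ q hq).2.1 _ (BT_nrm_ne hv)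
    have h4 : ContinuousAt nrm (Bq q (nrm v)) := BT_nrm_cont.continuousAt (hO.mem_nhds h3)
    have h5 : ContinuousAt (fun w => nrm (Bq q (nrm w))) v :=
      ContinuousAt.comp (g := nrm) (f := fun w => Bq q (nrm w)) h4 h2
    have h6 : Continuous fun w : ℍ[ℝ] => min 1 (10 * ‖w‖) := by fun_prop
    exact h6.continuousAt.smul h5

theorem p_BT (hZ : T_Z12) (hBQ : T_BQ) : T_BT := by
  obtain ⟨-, -, -, -, -, -, -, -, -, hnc, -, -, hJ, hrho⟩ := hZ
  intro q hq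
  have hcn : ∀ ζ : Circle, ‖((ζ : ℂ) : ℍ[ℝ])‖ = 1 := fun ζ => by
    rw [hnc, Circle.norm_coe]
  refine ⟨BT_cont hBQ hq, BT_norm hBQ hq, ?_, ?_, ?_⟩
  · intro ζ v hζ
    unfold bt
    rw [norm_mul, hcn, one_mul, BT_nrm_mul (hcn ζ), (hBQ q hq).2.2.1 ζ _ hζ,
      BT_nrm_mul (hcn (ζ ^ q)), mul_smul_comm]
  · have h1 : rho * eJ = (1 / 2 : ℝ) • eJ := by
      unfold rho
      rw [Quaternion.coe_mul_eq_smul]
    have h2 : ‖rho * eJ‖ = 1 / 2 := by rw [norm_mul, hrho, hJ, mul_one]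
    unfold bt
    rw [h2, h1, BT_nrm_smul (by norm_num) hJ, (hBQ q hq).2.2.2.1, BT_nrm_unit hJ]
    have h3 : min 1 (10 * (1 / 2 : ℝ)) = 1 := by norm_num
    rw [h3, one_smul]
  · intro l v h0 h1 h h2
    rcases eq_or_lt_of_le h1 with rfl | hl
    · rw [sub_self, zero_smul, zero_sub, Quaternion.coe_one] at h2
      exact one_ne_zero (neg_eq_zero.1 h2)
    · have hv : 1 / 10 ≤ ‖v‖ := by
        rcases h with h | h
        · exact h
        · exact absurd h hl.ne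
      have hv0 : v ≠ 0 := by
        rintro rfl
        rw [norm_zero] at hv
        norm_num at hv
      have hB : Bq q (nrm v) ≠ 0 := (hBQ q hq).2.1 _ (BT_nrm_ne hv0)
      have hBn : 0 < ‖Bq q (nrm v)‖ := norm_pos_iff.2 hB
      have hm : min 1 (10 * ‖v‖) = 1 := min_eq_left (by linarith)
      have hl' : 0 < 1 - l := sub_pos.2 hl
      have h3 : (1 - l) • (‖Bq q (nrm v)‖⁻¹ • Bq q (nrm v)) = ((l : ℝ) : ℍ[ℝ]) := by
        have h4 := sub_eq_zero.1 h2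
        unfold bt at h4
        rw [hm, one_smul] at h4
        exact h4
      refine (hBQ q hq).2.2.2.2 (l * ‖Bq q (nrm v)‖ / (1 - l)) (nrm v) (BT_nrm_ne hv0)
        (by positivity) ?_
      have h5 : Bq q (nrm v) = (‖Bq q (nrm v)‖ / (1 - l)) • ((l : ℝ) : ℍ[ℝ]) := by
        rw [← h3, smul_smul, smul_smul]
        have h6 : ‖Bq q (nrm v)‖ / (1 - l) * (1 - l) * ‖Bq q (nrm v)‖⁻¹ = 1 := by
          field_simp
        rw [h6, one_smul]
      have h7 : (‖Bq q (nrm v)‖ / (1 - l)) • ((l : ℝ) : ℍ[ℝ]) =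
          ((l * ‖Bq q (nrm v)‖ / (1 - l) : ℝ) : ℍ[ℝ]) := by
        rw [← Quaternion.coe_mul_eq_smul, ← Quaternion.coe_mul]
        congr 1
        ring
      exact h5.trans h7

end

end INJ
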