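import Pool.Agent.INJ.FTargets

set_option autoImplicit false
set_option maxHeartbeats 4000000

namespace INJ

theorem p_CFI : T_CFI := by
  intro n hn
  have hfin : {z : ℂ | z ^ n = 1}.Finite := by
    have h := (Polynomial.nthRoots n (1 : ℂ)).toFinset.finite_toSet
    refine h.subset fun z hz => ?_
    have hz' : z ^ n = 1 := hz
    simp only [Finset.mem_coe, Multiset.mem_toFinset]
    exact (Polynomial.mem_nthRoots hn).2 hz'
  have hf : Finite {z : ℂ | z ^ n = 1} := hfin.to_subtype
  refine Finite.of_injective (fun c : CC n => (⟨((c.1 : Circle) : ℂ), ?_⟩ :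
    {z : ℂ | z ^ n = 1})) ?_
  · have h := c.2
    have h' : (c.1 : Circle) ^ n = 1 := h
    have : (((c.1 : Circle) ^ n : Circle) : ℂ) = ((1 : Circle) : ℂ) := by rw [h']
    rw [Circle.coe_pow, Circle.coe_one] at this
    exact this
  · intro a b hab
    have h1 : ((a.1 : Circle) : ℂ) = ((b.1 : Circle) : ℂ) := by
      simpa only [Subtype.mk.injEq] using hab
    exact Subtype.ext (Circle.coe_injective h1)

end INJ
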