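import Pool.Agent.INJ.FTargets

set_option autoImplicit false

/-!
# INJ, target CG: continuity from a compact relation
-/

namespace INJ

open TopologicalSpace

theorem p_CG : T_CG := by
  intro Y K Z _ _ _ _ R v d hR hv h1 h2
  rw [continuous_iff_isClosed]
  intro F hF
  have h : d ⁻¹' F = Prod.fst '' (R ∩ v ⁻¹' F) := by
    ext y
    constructor
    · intro hy
      obtain ⟨k, hk⟩ := h1 y
      refine ⟨(y, k), ⟨hk, ?_⟩, rfl⟩
      change v (y, k) ∈ F
      rw [h2 y k hk]
      exact hy
    · rintro ⟨⟨y', k⟩, ⟨hk, hF'⟩, rfl⟩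
      change d y' ∈ F
      rw [← h2 y' k hk]
      exact hF'
  rw [h]
  exact isClosedMap_fst_of_compactSpace _ (hR.inter (hF.preimage hv))

end INJ
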