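import Pool.Agent.INJ.KTargets

set_option autoImplicit false

/-!
# INJ, target CLF: Clifford relations (helper13)
-/

namespace INJ

open Matrix

noncomputable section

lemma CLF_mul1 {ι κ : Type} [Fintype ι] [Fintype κ] [DecidableEq ι] [DecidableEq κ]
    (D : Matrix ι κ ℂ) (D' : Matrix κ ι ℂ) (z : ℂ) (r : ℝ) (h1 : D * D' = (r : ℂ) • 1)
    (h2 : D' * D = (r : ℂ) • 1) :
    (Matrix.fromBlocks D (-(star z) • 1) (z • 1) D' : Matrix (ι ⊕ κ) (κ ⊕ ι) ℂ) *
      Matrix.fromBlocks D' (star z • 1) (-z • 1) D = ((r + ‖z‖ ^ 2 : ℝ) : ℂ) • 1 := by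
  have hz : z * star z = ((‖z‖ ^ 2 : ℝ) : ℂ) := by
    rw [Complex.star_def, Complex.mul_conj, Complex.normSq_eq_norm_sq]
  have hz' : star z * z = ((‖z‖ ^ 2 : ℝ) : ℂ) := by rw [mul_comm, hz]
  rw [Matrix.fromBlocks_multiply, h1, h2, ← Matrix.fromBlocks_one, Matrix.fromBlocks_smul]
  congr 1
  · rw [Matrix.smul_mul, Matrix.one_mul, smul_smul, neg_mul_neg, hz', ← add_smul]
    push_cast; rfl
  · simp
  · simp
  · rw [Matrix.smul_mul, Matrix.one_mul, smul_smul, hz, ← add_smul]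
    push_cast; rw [add_comm]

lemma CLF_mul2 {ι κ : Type} [Fintype ι] [Fintype κ] [DecidableEq ι] [DecidableEq κ]
    (D : Matrix ι κ ℂ) (D' : Matrix κ ι ℂ) (z : ℂ) (r : ℝ) (h1 : D * D' = (r : ℂ) • 1)
    (h2 : D' * D = (r : ℂ) • 1) :
    (Matrix.fromBlocks D' (star z • 1) (-z • 1) D : Matrix (κ ⊕ ι) (ι ⊕ κ) ℂ) *
      Matrix.fromBlocks D (-(star z) • 1) (z • 1) D' = ((r + ‖z‖ ^ 2 : ℝ) : ℂ) • 1 := by
  have hz : z * star z = ((‖z‖ ^ 2 : ℝ) : ℂ) := by
    rw [Complex.star_def, Complex.mul_conj, Complex.normSq_eq_norm_sq]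
  have hz' : star z * z = ((‖z‖ ^ 2 : ℝ) : ℂ) := by rw [mul_comm, hz]
  rw [Matrix.fromBlocks_multiply, h1, h2, ← Matrix.fromBlocks_one, Matrix.fromBlocks_smul]
  congr 1
  · rw [Matrix.smul_mul, Matrix.one_mul, smul_smul, hz', ← add_smul]
    push_cast; rfl
  · simp
  · simp
  · rw [Matrix.smul_mul, Matrix.one_mul, smul_smul, neg_mul_neg, hz, ← add_smul]
    push_cast; rw [add_comm]

lemma CLF_sum (k : ℕ) (v : Fin (k + 1) → ℂ) :
    ∑ i, ‖v i‖ ^ 2 = (∑ i : Fin k, ‖v i.castSucc‖ ^ 2) + ‖v (Fin.last k)‖ ^ 2 :=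
  Fin.sum_univ_castSucc _

lemma CLF_pow (u : Circle) (a b : ℤ) (h : a = b) :
    ((u ^ a : Circle) : ℂ) = ((u ^ b : Circle) : ℂ) := by rw [h]

lemma CLF_star (u : Circle) : ((u ^ (-1 : ℤ) : Circle) : ℂ) = star (u : ℂ) := by
  rw [_root_.zpow_neg_one, Circle.coe_inv_eq_conj]; rfl

/-- off-diagonal blocks -/
lemma CLF_off {ι : Type} [DecidableEq ι] (u : Circle) (x y : ℂ) (c : ℤ)
    (h : x = ((u ^ c : Circle) : ℂ) * y) (e : ι → ι → ℤ)
    (he : ∀ a, e a a = c) (a b : ι) :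
    (x • (1 : Matrix ι ι ℂ)) a b = ((u ^ (e a b) : Circle) : ℂ) * (y • (1 : Matrix ι ι ℂ)) a b := by
  by_cases hab : a = b
  · subst hab
    rw [he, h]
    simp
  · simp [Matrix.one_apply_ne hab]

theorem p_CLF : T_CLF := by
  intro k
  induction k with
  | zero =>
    refine ⟨continuous_const, fun v => ⟨?_, ?_⟩, fun v u => ⟨?_, ?_⟩⟩
    · ext i; exact Empty.elim i
    · have h : (clf 0 v).2 * (clf 0 v).1 = 0 := by
        change (0 : Matrix (CP 0) (CM 0) ℂ) * (0 : Matrix (CM 0) (CP 0) ℂ) = 0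
        rw [Matrix.mul_zero]
      rw [h]
      simp
    · intro i; exact Empty.elim i
    · intro i j; exact Empty.elim j
  | succ k ih =>
    obtain ⟨hc, hm, hr⟩ := ih
    have hc' : Continuous fun v : Fin (k + 1) → ℂ => clf k (fun i => v i.castSucc) :=
      hc.comp (by fun_prop)
    have hz : Continuous fun v : Fin (k + 1) → ℂ => v (Fin.last k) := by fun_prop
    refine ⟨?_, fun v => ⟨?_, ?_⟩, fun v u => ?_⟩
    · refine Continuous.prodMk ?_ ?_
      · exact Continuous.matrix_fromBlocks hc'.fst (hz.star.neg.smul continuous_const)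
          (hz.smul continuous_const) hc'.snd
      · exact Continuous.matrix_fromBlocks hc'.snd (hz.star.smul continuous_const)
          (hz.neg.smul continuous_const) hc'.fst
    · have h := hm (fun i => v i.castSucc)
      rw [CLF_sum]
      exact CLF_mul1 _ _ (v (Fin.last k)) _ h.1 h.2
    · have h := hm (fun i => v i.castSucc)
      rw [CLF_sum]
      exact CLF_mul2 _ _ (v (Fin.last k)) _ h.1 h.2
    · have h := hr (fun i => v i.castSucc) u
      have s1 : -(star ((u : ℂ) * v (Fin.last k))) =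
          ((u ^ (-1 : ℤ) : Circle) : ℂ) * -(star (v (Fin.last k))) := by
        rw [CLF_star, star_mul']; ring
      have s2 : (u : ℂ) * v (Fin.last k) = ((u ^ (1 : ℤ) : Circle) : ℂ) * v (Fin.last k) := by
        rw [_root_.zpow_one]
      have s3 : star ((u : ℂ) * v (Fin.last k)) =
          ((u ^ (-1 : ℤ) : Circle) : ℂ) * star (v (Fin.last k)) := by
        rw [CLF_star, star_mul']
      have s4 : -((u : ℂ) * v (Fin.last k)) =
          ((u ^ (1 : ℤ) : Circle) : ℂ) * -v (Fin.last k) := by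
        rw [_root_.zpow_one]; ring
      refine ⟨?_, ?_⟩
      · rintro (a | a) (b | b)
        · exact h.1 a b
        · exact CLF_off u _ _ _ s1 (fun a b => (cwM k a : ℤ) - ((cwM k b + 1 : ℕ) : ℤ))
            (fun a => by push_cast; ring) a b
        · exact CLF_off u _ _ _ s2 (fun a b => ((cwP k a + 1 : ℕ) : ℤ) - (cwP k b : ℤ))
            (fun a => by push_cast; ring) a b
        · exact (h.2 a b).trans (congrArg (fun c : ℂ => c * (clf k fun i => v i.castSucc).2 a b)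
            (CLF_pow u _ (((cwP k a + 1 : ℕ) : ℤ) - ((cwM k b + 1 : ℕ) : ℤ))
              (by push_cast; ring)))
      · rintro (a | a) (b | b)
        · exact h.2 a b
        · exact CLF_off u _ _ _ s3 (fun a b => (cwP k a : ℤ) - ((cwP k b + 1 : ℕ) : ℤ))
            (fun a => by push_cast; ring) a b
        · exact CLF_off u _ _ _ s4 (fun a b => ((cwM k a + 1 : ℕ) : ℤ) - (cwM k b : ℤ))
            (fun a => by push_cast; ring) a b
        · exact (h.1 a b).trans (congrArg (fun c : ℂ => c * (clf k fun i => v i.castSucc).1 a b)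
            (CLF_pow u _ (((cwM k a + 1 : ℕ) : ℤ) - ((cwP k b + 1 : ℕ) : ℤ))
              (by push_cast; ring)))

end

end INJ
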