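import Pool.Agent.INJ.FTargets
import Mathlib.Topology.Homotopy.Lifting

/-!
# INJ, part F: target CLI (lifting along covering orbit maps)
-/

set_option autoImplicit false

namespace INJ

open TopologicalSpace unitInterval

theorem p_CLI : T_CLI := by
  intro C S _ _ _ _ _ _ cov
  refine ⟨?_, ?_⟩
  · intro Z _ H h h0
    let H' : C(unitInterval × Z, OrbSp C S) := H.comp (ContinuousMap.mk Prod.swap continuous_swap)
    have h1 : ∀ a, H' (0, a) = omk C S (h a) := fun a => (h0 a).symm
    refine ⟨(cov.liftHomotopy H' h h1).comp (ContinuousMap.mk Prod.swap continuous_swap), ?_, ?_⟩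
    · intro z
      exact cov.liftHomotopy_zero H' h h1 z
    · rintro ⟨z, t⟩
      exact congrFun (cov.liftHomotopy_lifts H' h h1) (t, z)
  · intro a b hab h0
    have h1 : (a : unitInterval → S) = b :=
      cov.eq_of_comp_eq a.continuous b.continuous (funext hab) 0 h0
    exact DFunLike.coe_injective h1

end INJ
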