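import Pool.Agent.INJ.FTargets

set_option autoImplicit false

/-!
# INJ-COV: orbit maps of free isometric actions of finite groups are covering maps
-/

namespace INJ

open TopologicalSpace

/-- a lower bound for the displacement of a free action of a finite group -/
lemma COV_disp (C S : Type) [Group C] [Finite C] [MetricSpace S] [MulAction C S]
    (hfree : ∀ (c : C) (v : S), c • v = v → c = 1) (e : S) :
    ∃ r : ℝ, 0 < r ∧ ∀ c : C, c ≠ 1 → r ≤ dist (c • e) e := by
  have h1 : ∀ᶠ r in nhdsWithin (0 : ℝ) (Set.Ioi 0), ∀ c : C, c ≠ 1 → r ≤ dist (c • e) e := by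
    rw [Filter.eventually_all]
    intro c
    by_cases hc1 : c = 1
    · exact Filter.Eventually.of_forall fun r h => absurd hc1 h
    · have h2 : 0 < dist (c • e) e := dist_pos.2 fun h => hc1 (hfree c e h)
      filter_upwards [mem_nhdsWithin_of_mem_nhds (Iio_mem_nhds h2)] with r hr _
      exact le_of_lt hr
  obtain ⟨r, h2, h3⟩ := (h1.and self_mem_nhdsWithin).exists
  exact ⟨r, h3, h2⟩

theorem p_COV (hOQ : T_OQ) (hOC : T_OC) : T_COV := by
  intro C S _ _ _ _ _ _ _ _ hfree
  obtain ⟨hc, ho, hs⟩ := hOC C S
  have h : IsQuotientCoveringMap (omk C S) C :=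
    { toIsQuotientMap := ho.isQuotientMap hc hs
      toContinuousConstSMul := inferInstance
      apply_eq_iff_mem_orbit := by
        intro e₁ e₂
        rw [hOQ]
        constructor
        · rintro ⟨g, rfl⟩
          exact ⟨g, rfl⟩
        · rintro ⟨g, h⟩
          exact ⟨g, h.symm⟩
      disjoint := by
        intro e
        obtain ⟨r, hr, hr'⟩ := COV_disp C S hfree e
        refine ⟨Metric.ball e (r / 2), Metric.ball_mem_nhds _ (half_pos hr), fun c hne => ?_⟩
        by_contra hc1
        obtain ⟨_, ⟨u, hu, rfl⟩, hu'⟩ := hne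
        have h1 : dist (c • e) e ≤ dist (c • e) (c • u) + dist (c • u) e :=
          dist_triangle _ _ _
        rw [dist_smul] at h1
        rw [Metric.mem_ball] at hu hu'
        have h2 := hr' c hc1
        rw [dist_comm e u] at h1
        dsimp only at hu'
        linarith }
  exact h.isCoveringMap

end INJ
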