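import Pool.Agent.INJ.MTargets

set_option autoImplicit false

/-!
# INJ, target CUB: the Hilbert cube as a product of balls (helper5)
-/

namespace INJ

open Quaternion Set

noncomputable section

/-- real coordinates of quaternions -/
def CUB_L : ℍ[ℝ] ≃L[ℝ] (Fin 4 → ℝ) :=
  (Quaternion.linearIsometryEquivTuple.toContinuousLinearEquiv).trans
    (EuclideanSpace.equiv (Fin 4) ℝ)

/-- the unit cube in the quaternions -/
def CUB_s : Set ℍ[ℝ] := CUB_L ⁻¹' (Icc 0 1)

theorem CUB_closed : IsClosed CUB_s := isClosed_Icc.preimage CUB_L.continuous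

theorem CUB_convex : Convex ℝ CUB_s :=
  (convex_Icc (0 : Fin 4 → ℝ) 1).is_linear_preimage
    (f := CUB_L) ⟨fun x y => map_add CUB_L x y, fun c x => map_smul CUB_L c x⟩

theorem CUB_bdd : Bornology.IsBounded CUB_s := by
  have h : CUB_s = CUB_L.symm '' (Icc 0 1) := by
    ext x
    constructor
    · intro hx
      exact ⟨CUB_L x, hx, CUB_L.symm_apply_apply x⟩
    · rintro ⟨y, hy, rfl⟩
      change CUB_L (CUB_L.symm y) ∈ Icc (0 : Fin 4 → ℝ) 1
      rw [CUB_L.apply_symm_apply]
      exact hy
  rw [h]
  exact ((isCompact_Icc (a := (0 : Fin 4 → ℝ)) (b := 1)).image CUB_L.symm.continuous).isBounded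

theorem CUB_int : (interior CUB_s).Nonempty := by
  refine ⟨CUB_L.symm (fun _ => 1 / 2), ?_⟩
  rw [mem_interior]
  refine ⟨CUB_L ⁻¹' (Set.univ.pi fun _ => Ioo (0 : ℝ) 1), ?_, ?_, ?_⟩
  · intro x hx
    rw [mem_preimage, mem_univ_pi] at hx
    exact ⟨fun i => (hx i).1.le, fun i => (hx i).2.le⟩
  · exact (isOpen_set_pi finite_univ fun _ _ => isOpen_Ioo).preimage CUB_L.continuous
  · rw [mem_preimage, CUB_L.apply_symm_apply, mem_univ_pi]
    intro i
    constructor <;> norm_num

/-- the cube in coordinates -/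
def CUB_c : CUB_s ≃ₜ (Fin 4 → unitInterval) where
  toFun q := fun i => ⟨CUB_L q.1 i, q.2.1 i, q.2.2 i⟩
  invFun f := ⟨CUB_L.symm fun i => (f i : ℝ), by
    change CUB_L (CUB_L.symm _) ∈ Icc (0 : Fin 4 → ℝ) 1
    rw [CUB_L.apply_symm_apply]
    exact ⟨fun i => (f i).2.1, fun i => (f i).2.2⟩⟩
  left_inv q := by
    apply Subtype.ext
    exact CUB_L.symm_apply_apply q.1
  right_inv f := by
    funext i
    apply Subtype.ext
    exact congrFun (CUB_L.apply_symm_apply fun i => (f i : ℝ)) i
  continuous_toFun := by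
    refine continuous_pi fun i => Continuous.subtype_mk ?_ _
    exact (continuous_apply i).comp (CUB_L.continuous.comp continuous_subtype_val)
  continuous_invFun := by
    refine Continuous.subtype_mk ?_ _
    exact CUB_L.symm.continuous.comp
      (continuous_pi fun i => continuous_subtype_val.comp (continuous_apply i))

theorem CUB_ball : Nonempty (HB ≃ₜ (Fin 4 → unitInterval)) := by
  obtain ⟨h, -, h2, -⟩ := exists_homeomorph_image_interior_closure_frontier_eq_unitBall
    CUB_convex CUB_int CUB_bdd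
  rw [CUB_closed.closure_eq] at h2
  exact ⟨((h.image CUB_s).trans (Homeomorph.setCongr h2)).symm.trans CUB_c⟩

/-- reindexing of the countable product -/
def CUB_seq (φ : HB ≃ₜ (Fin 4 → unitInterval)) : (ℕ → HB) ≃ₜ (ℕ → unitInterval) where
  toFun x := fun k => φ (x (Nat.divModEquiv 4 k).1) (Nat.divModEquiv 4 k).2
  invFun y := fun n => φ.symm fun i => y ((Nat.divModEquiv 4).symm (n, i))
  left_inv x := by
    funext n
    simp only [Equiv.apply_symm_apply]
    exact φ.symm_apply_apply (x n)
  right_inv y := by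
    funext k
    simp only [Homeomorph.apply_symm_apply, Prod.mk.eta, Equiv.symm_apply_apply]
  continuous_toFun := by
    refine continuous_pi fun k => ?_
    exact (continuous_apply _).comp (φ.continuous.comp (continuous_apply _))
  continuous_invFun := by
    refine continuous_pi fun n => ?_
    exact φ.symm.continuous.comp (continuous_pi fun i => continuous_apply _)

/-- CUB: the Hilbert cube -/
theorem p_CUB : T_CUB := by
  obtain ⟨φ⟩ := CUB_ball
  exact ⟨(AddCircle.homeomorphCircle one_ne_zero).prodCongr (CUB_seq φ)⟩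

end

end INJ
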