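import Pool.Agent.INJ.KTargets

set_option autoImplicit false

/-!
# INJ: DADD (algebra of the operators `D c k`)
-/

namespace INJ

open Matrix

noncomputable section

/-- the shift as an endomorphism -/
def DADD_E {Y : Type} [TopologicalSpace Y] {s : Y → Y} {ζ : Circle} (c : ℤ) :
    AddMonoid.End (KG Y s ζ) := T c

lemma DADD_E_apply {Y : Type} [TopologicalSpace Y] {s : Y → Y} {ζ : Circle} (c : ℤ)
    (x : KG Y s ζ) : DADD_E c x = T c x := rfl

lemma DADD_E_mul {Y : Type} [TopologicalSpace Y] {s : Y → Y} {ζ : Circle} (c d : ℤ) :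
    (DADD_E c : AddMonoid.End (KG Y s ζ)) * DADD_E d = DADD_E (c + d) := by
  refine AddMonoidHom.ext fun x => ?_
  exact (T_add c d x).symm

lemma DADD_E_comm {Y : Type} [TopologicalSpace Y] {s : Y → Y} {ζ : Circle} (c d : ℤ) :
    Commute (DADD_E c : AddMonoid.End (KG Y s ζ)) (DADD_E d) := by
  change _ * _ = _ * _
  rw [DADD_E_mul, DADD_E_mul, add_comm]

lemma DADD_D {Y : Type} [TopologicalSpace Y] {s : Y → Y} {ζ : Circle} (c : ℤ) (k : ℕ)
    (x : KG Y s ζ) : D c k x = ((1 - DADD_E c : AddMonoid.End (KG Y s ζ)) ^ k) x := by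
  induction k with
  | zero => rfl
  | succ k ih =>
    rw [pow_succ']
    change D c k x - T c (D c k x) = _
    rw [ih]
    rfl

lemma DADD_comm1 {Y : Type} [TopologicalSpace Y] {s : Y → Y} {ζ : Circle} (c d : ℤ) (k : ℕ) :
    Commute ((1 - DADD_E c : AddMonoid.End (KG Y s ζ)) ^ k) (DADD_E d) :=
  (((Commute.one_left _).sub_left (DADD_E_comm c d))).pow_left k

lemma DADD_comm2 {Y : Type} [TopologicalSpace Y] {s : Y → Y} {ζ : Circle} (c d : ℤ)
    (k l : ℕ) :
    Commute ((1 - DADD_E c : AddMonoid.End (KG Y s ζ)) ^ k) ((1 - DADD_E d) ^ l) :=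
  ((Commute.one_right _).sub_right (DADD_comm1 c d k)).pow_right l

theorem p_DADD : T_DADD := by
  intro Y _ s ζ c k
  refine ⟨fun x y => ?_, fun x y => ?_, fun d x => ?_, fun l x => ?_, fun d l x => ?_,
    fun Y' _ s' f x => ?_⟩
  · simp only [DADD_D, map_sub]
  · simp only [DADD_D, map_add]
  · rw [DADD_D, DADD_D, ← DADD_E_apply, ← DADD_E_apply]
    exact DFunLike.congr_fun (DADD_comm1 c d k) x
  · rw [DADD_D, DADD_D, DADD_D, pow_add]
    rfl
  · rw [DADD_D, DADD_D, DADD_D, DADD_D]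
    exact DFunLike.congr_fun (DADD_comm2 c d k l) x
  · induction k with
    | zero => rfl
    | succ k ih =>
      change pull f (D c k x - T c (D c k x)) = D c k (pull f x) - T c (D c k (pull f x))
      rw [map_sub, pull_T, ih]

end

end INJ
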