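import Pool.Agent.INJ.KTargets

set_option autoImplicit false

/-!
# INJ: Clifford decomposition of `(1 - T_c)^k`
-/

namespace INJ

open Matrix

noncomputable section

lemma DCL_P {Y : Type} [TopologicalSpace Y] {s : Y → Y} {ζ : Circle} (c : ℤ) (k : ℕ)
    (x : KG Y s ζ) : (∑ i : CP (k + 1), T (c * cwP (k + 1) i) x) =
      (∑ i : CP k, T (c * cwP k i) x) + ∑ i : CM k, T c (T (c * cwM k i) x) := by
  have h := Fintype.sum_sum_type (fun i : CP k ⊕ CM k => T (c * cwP (k + 1) i) x)
  refine h.trans ?_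
  congr 1
  refine Finset.sum_congr rfl fun i _ => ?_
  rw [← T_add]
  have e : c * ((cwP (k + 1) (Sum.inr i) : ℕ) : ℤ) = c + c * (cwM k i : ℤ) := by
    have e1 : cwP (k + 1) (Sum.inr i) = cwM k i + 1 := rfl
    rw [e1]
    push_cast
    ring
  exact congrArg (fun m : ℤ => T m x) e

lemma DCL_M {Y : Type} [TopologicalSpace Y] {s : Y → Y} {ζ : Circle} (c : ℤ) (k : ℕ)
    (x : KG Y s ζ) : (∑ i : CM (k + 1), T (c * cwM (k + 1) i) x) =
      (∑ i : CM k, T (c * cwM k i) x) + ∑ i : CP k, T c (T (c * cwP k i) x) := by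
  have h := Fintype.sum_sum_type (fun i : CM k ⊕ CP k => T (c * cwM (k + 1) i) x)
  refine h.trans ?_
  congr 1
  refine Finset.sum_congr rfl fun i _ => ?_
  rw [← T_add]
  have e : c * ((cwM (k + 1) (Sum.inr i) : ℕ) : ℤ) = c + c * (cwP k i : ℤ) := by
    have e1 : cwM (k + 1) (Sum.inr i) = cwP k i + 1 := rfl
    rw [e1]
    push_cast
    ring
  exact congrArg (fun m : ℤ => T m x) e

theorem p_DCL : T_DCL := by
  intro Y _ s ζ c k
  induction k with
  | zero =>
    intro x
    have h1 : (∑ i : CP 0, T (c * cwP 0 i) x) = x := by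
      have h2 := Fintype.sum_unique (fun i : Unit => T (c * cwP 0 i) x)
      refine h2.trans ?_
      have e : c * ((cwP 0 () : ℕ) : ℤ) = 0 := by
        have e1 : cwP 0 () = 0 := rfl
        rw [e1]; simp
      change T (c * ((cwP 0 () : ℕ) : ℤ)) x = x
      rw [e, T_zero]
    have h3 : (∑ i : CM 0, T (c * cwM 0 i) x) = 0 :=
      Fintype.sum_empty (fun i : Empty => T (c * cwM 0 i) x)
    rw [h1, h3, sub_zero]
    rfl
  | succ k ih =>
    intro x
    rw [DCL_P, DCL_M]
    change D c k x - T c (D c k x) = _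
    rw [ih x, map_sub, map_sum, map_sum]
    abel

end

end INJ
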