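import Pool.Agent.INJ.K2Targets

set_option autoImplicit false

/-!
# INJ: determinants near 1
-/

namespace INJ

open Matrix

noncomputable section

theorem p_DET : T_DET := by
  intro ι _ _
  let f : (ι → ι → ℂ) → ℂ := fun A => (1 - (Matrix.of A : Matrix ι ι ℂ)).det
  have hc : Continuous f := by
    have h1 : Continuous fun A : ι → ι → ℂ => (1 - (Matrix.of A : Matrix ι ι ℂ)) := by
      refine continuous_const.sub ?_
      refine continuous_matrix fun i j => ?_
      exact (continuous_apply j).comp (continuous_apply i)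
    exact h1.matrix_det
  have h0 : f 0 = 1 := by
    change (1 - (0 : Matrix ι ι ℂ)).det = 1
    rw [sub_zero, Matrix.det_one]
  obtain ⟨ε, hε, h⟩ := Metric.continuous_iff.1 hc 0 1 one_pos
  refine ⟨ε, hε, fun A hA hdet => ?_⟩
  have h2 : dist (Matrix.of.symm A : ι → ι → ℂ) 0 < ε := by
    refine (dist_pi_lt_iff hε).2 fun i => (dist_pi_lt_iff hε).2 fun j => ?_
    rw [Pi.zero_apply, Pi.zero_apply, dist_zero_right]
    exact hA i j
  have h3 := h _ h2
  have h4 : f (Matrix.of.symm A) = 0 := hdet
  rw [h4, h0, dist_comm, dist_zero_right] at h3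
  simp at h3

end

end INJ
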