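import Pool.Agent.INJ.GTargets

set_option autoImplicit false

/-!
# INJ, item EBC: the bundles on the base
-/

namespace INJ

open TopologicalSpace

noncomputable section

/-- functions on the base which come from invariant functions on the first sphere -/
lemma EBC_desc (hOQ : T_OQ) {Y : Type} (e : Sph (N 0) → Y)
    (he : ∀ (c : Circle) (p : Sph (N 0)), e (rot c p) = e p) (p : PX) :
    e ((repB (omk GG PX p)).val 0) = e (p.val 0) := by
  have h : omk GG PX (repB (omk GG PX p)) = omk GG PX p := omk_repB _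
  obtain ⟨g, hg⟩ := (hOQ GG PX _ _).1 h
  rw [hg, smul_val]
  exact he _ _

/-- continuity of such functions -/
lemma EBC_cont (hOQ : T_OQ) (hOC : T_OC) {Y : Type} [TopologicalSpace Y] (e : Sph (N 0) → Y)
    (he : ∀ (c : Circle) (p : Sph (N 0)), e (rot c p) = e p) (hc : Continuous e) :
    Continuous fun b : BX => e ((repB b).val 0) := by
  obtain ⟨h1, h2, h3⟩ := hOC GG PX
  rw [(h2.isQuotientMap h1 h3).continuous_iff]
  have h : (fun b : BX => e ((repB b).val 0)) ∘ omk GG PX = fun p : PX => e (p.val 0) := by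
    funext p
    exact EBC_desc hOQ e he p
  rw [h]
  exact hc.comp ((continuous_apply 0).comp PX_continuous_val)

theorem p_EBC (hOQ : T_OQ) (hOC : T_OC) (hEPM : T_EPM) : T_EBC := by
  obtain ⟨h1, h2, h3, h4, h5, h6⟩ := hEPM
  refine ⟨EBC_cont hOQ hOC eP h5 h1, EBC_cont hOQ hOC eM h6 h2, EBC_desc hOQ eP h5,
    EBC_desc hOQ eM h6, fun b => h3 _, fun b => h4 _⟩

end

end INJ
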