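import Pool.Agent.INJ.K2Targets

set_option autoImplicit false

/-!
# INJ, part K: the target EPC
-/

namespace INJ

open Matrix

noncomputable section

theorem EPC_triv (hT : T_TENS) {Y : Type} [TopologicalSpace Y] {s : Y → Y} {ζ : Circle}
    {K : Type} [Fintype K] [DecidableEq K] (u : K → ℤ) :
    (Idf.triv u : Idf Y s ζ K).cls = ∑ k, T (u k) (tr1 Y s ζ).cls := by
  rw [← hT Y s ζ (Fin 1) K (tr1 Y s ζ) u]
  refine (cls_of_MvN ?_).symm
  refine MvN.of_reindex (Equiv.prodUnique K (Fin 1)).symm ?_ ?_
  · intro k
    simp [Idf.triv, Idf.tens, tr1]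
  · intro y i j
    simp [Idf.triv, Idf.tens, tr1, Matrix.one_apply]

theorem EPC_main (hX : T_XIV) {Y : Type} [TopologicalSpace Y] {s : Y → Y} {ζ : Circle}
    {K : Type} [Fintype K] [DecidableEq K] (w : K → ℕ) (c : ℤ) (f : Y → Sph (N 0))
    (hf : Continuous f) (hfs : ∀ y, f (s y) = rot (ζ ^ c) (f y))
    (E : Idf Y s ζ (K × Fin (N 0))) (hw : ∀ i, E.w i = 0)
    (he : ∀ y, E.e y = Matrix.of fun a b : K × Fin (N 0) => if a.1 = b.1 then
      xiv (w a.1) (f y) a.2 * star (xiv (w a.1) (f y) b.2) else 0) :
    MvN E (Idf.triv fun k => c * w k) := by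
  have hN : 0 < N 0 := by unfold N; positivity
  have hs : ∀ (k : ℕ) (y : Y) (i : Fin (N 0)), xiv k (f (s y)) i =
      ((ζ ^ (-(c * (k : ℤ))) : Circle) : ℂ) * xiv k (f y) i := by
    intro k y i
    rw [hfs, (hX (N 0) k hN).2.2 (ζ ^ c) (f y) i, ← _root_.zpow_mul, mul_neg]
  refine ⟨fun y => Matrix.of fun a k => if a.1 = k then xiv (w k) (f y) a.2 else 0,
    fun y => Matrix.of fun k a => if k = a.1 then star (xiv (w k) (f y) a.2) else 0,
    ?_, ?_, ?_, ?_, fun b => ⟨?_, ?_⟩⟩
  · refine continuous_matrix fun a k => ?_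
    simp only [Matrix.of_apply]
    by_cases h : a.1 = k
    · simp only [h, if_true]
      exact ((hX (N 0) (w k) hN).1 a.2).comp hf
    · simp only [h, if_false]
      exact continuous_const
  · refine continuous_matrix fun k a => ?_
    simp only [Matrix.of_apply]
    by_cases h : k = a.1
    · simp only [h, if_true]
      exact continuous_star.comp (((hX (N 0) (w a.1) hN).1 a.2).comp hf)
    · simp only [h, if_false]
      exact continuous_const
  · intro y a k
    simp only [Matrix.of_apply]
    by_cases h : a.1 = k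
    · simp only [h, if_true]
      rw [hs, hw a]
      simp only [Idf.triv, zero_sub]
    · simp only [h, if_false, mul_zero]
  · intro y k a
    simp only [Matrix.of_apply]
    by_cases h : k = a.1
    · simp only [h, if_true]
      rw [hs, hw a, star_mul']
      simp only [Idf.triv, sub_zero]
      congr 1
      rw [_root_.zpow_neg, Circle.coe_inv_eq_conj]
      exact star_star _
    · simp only [h, if_false, mul_zero]
  · rw [he b]
    ext a a'
    simp only [Matrix.mul_apply, Matrix.of_apply]
    rw [Finset.sum_eq_single a.1]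
    · by_cases h : a.1 = a'.1
      · simp only [h, if_true]
      · simp only [h, if_true, if_false, mul_zero]
    · intro k _ hk
      rw [if_neg (Ne.symm hk), zero_mul]
    · intro h
      exact absurd (Finset.mem_univ _) h
  · ext k k'
    simp only [Matrix.mul_apply, Matrix.of_apply, Idf.triv]
    rw [Fintype.sum_prod_type, Finset.sum_eq_single k]
    · by_cases h : k = k'
      · subst h
        simp only [if_true, Matrix.one_apply_eq]
        exact (hX (N 0) (w k) hN).2.1 (f b)
      · simp only [if_true, h, if_false, mul_zero, Finset.sum_const_zero,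
          Matrix.one_apply_ne h]
    · intro a _ ha
      refine Finset.sum_eq_zero fun i _ => ?_
      simp only [Ne.symm ha, if_false, zero_mul]
    · intro h
      exact absurd (Finset.mem_univ _) h

theorem p_EPC (hX : T_XIV) (hT : T_TENS) (hD : T_DCL) : T_EPC := by
  intro Y _ s ζ c f hf hfs E F hEw hFw hE hF
  rw [hD Y s ζ c 4 (tr1 Y s ζ).cls, ← EPC_triv hT, ← EPC_triv hT]
  congr 1
  · exact cls_of_MvN (EPC_main hX (cwP 4) c f hf hfs E hEw hE)
  · exact cls_of_MvN (EPC_main hX (cwM 4) c f hf hfs F hFw hF)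

end

end INJ
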