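import Pool.Agent.INJ.FTargets

set_option autoImplicit false

/-!
# INJ, part F: EPI, the projection of the associated bundle
-/

namespace INJ

/-- **EPI** -/
theorem p_EPI (hOQ : T_OQ) (hOC : T_OC) (hFAC : T_FAC) : T_EPI := by
  intro G P M _ _ _ _ _ _ _ _ _ _ _
  have h := hFAC G (SumSp P M) (OrbSp G P) (fun y => omk G P y.fst)
    (fun g x => (hOQ G P _ _).2 ⟨g, rfl⟩)
  exact ⟨h.2 ((hOC G P).1.comp SumSp.continuous_fst), h.1⟩

end INJ
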