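import Pool.Agent.INJ.K2Targets

set_option autoImplicit false
set_option maxHeartbeats 4000000

/-!
# INJ: target `EPM`
-/

namespace INJ

open Matrix

noncomputable section

/-- block diagonal rank one matrices -/
def EPM_gen {k : ℕ} {I : Type} [DecidableEq I] (wt : I → ℕ) (p : Sph k) :
    Matrix (I × Fin k) (I × Fin k) ℂ :=
  Matrix.of fun a b => if a.1 = b.1 then xiv (wt a.1) p a.2 * star (xiv (wt a.1) p b.2) else 0

lemma EPM_cont (h : T_XIV) {k : ℕ} (hk : 0 < k) {I : Type} [DecidableEq I] (wt : I → ℕ) :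
    Continuous (EPM_gen (k := k) wt) := by
  refine continuous_matrix fun a b => ?_
  unfold EPM_gen
  simp only [Matrix.of_apply]
  by_cases hab : a.1 = b.1
  · simp only [if_pos hab]
    exact ((h k (wt a.1) hk).1 a.2).mul (continuous_star.comp ((h k (wt a.1) hk).1 b.2))
  · simp only [if_neg hab]
    exact continuous_const

lemma EPM_idem (h : T_XIV) {k : ℕ} (hk : 0 < k) {I : Type} [Fintype I] [DecidableEq I]
    (wt : I → ℕ) (p : Sph k) : EPM_gen wt p * EPM_gen wt p = EPM_gen wt p := by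
  ext a b
  rw [Matrix.mul_apply, Fintype.sum_prod_type]
  unfold EPM_gen
  simp only [Matrix.of_apply]
  by_cases hab : a.1 = b.1
  · rw [if_pos hab, Finset.sum_eq_single a.1]
    · simp only [hab, if_true]
      have h1 := (h k (wt b.1) hk).2.1 p
      calc ∑ x, xiv (wt b.1) p a.2 * star (xiv (wt b.1) p x) *
            (xiv (wt b.1) p x * star (xiv (wt b.1) p b.2))
          = ∑ x, (xiv (wt b.1) p a.2 * star (xiv (wt b.1) p b.2)) *
              (star (xiv (wt b.1) p x) * xiv (wt b.1) p x) :=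
            Finset.sum_congr rfl fun x _ => by ring
        _ = xiv (wt b.1) p a.2 * star (xiv (wt b.1) p b.2) := by
            rw [← Finset.mul_sum, h1, mul_one]
    · intro c _ hc
      exact Finset.sum_eq_zero fun i _ => by rw [if_neg (Ne.symm hc), zero_mul]
    · intro h'; exact absurd (Finset.mem_univ _) h'
  · rw [if_neg hab]
    refine Finset.sum_eq_zero fun c _ => Finset.sum_eq_zero fun i _ => ?_
    by_cases h1 : a.1 = c
    · rw [if_neg (fun h2 => hab (h1.trans h2)), mul_zero]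
    · rw [if_neg h1, zero_mul]

lemma EPM_circ (c : Circle) : (c : ℂ) * star (c : ℂ) = 1 := by
  rw [Complex.star_def, Complex.mul_conj, Circle.normSq_coe]
  simp

lemma EPM_inv (h : T_XIV) {k : ℕ} (hk : 0 < k) {I : Type} [DecidableEq I]
    (wt : I → ℕ) (c : Circle) (p : Sph k) : EPM_gen wt (rot c p) = EPM_gen wt p := by
  ext a b
  unfold EPM_gen
  simp only [Matrix.of_apply]
  by_cases hab : a.1 = b.1
  · rw [if_pos hab, if_pos hab, (h k (wt a.1) hk).2.2, (h k (wt a.1) hk).2.2, star_mul']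
    have h1 := EPM_circ (c ^ (-(wt a.1 : ℤ)))
    calc _ = xiv (wt a.1) p a.2 * star (xiv (wt a.1) p b.2) *
          (((c ^ (-(wt a.1 : ℤ)) : Circle) : ℂ) * star ((c ^ (-(wt a.1 : ℤ)) : Circle) : ℂ)) := by
          ring
      _ = _ := by rw [h1, mul_one]
  · rw [if_neg hab, if_neg hab]

lemma EPM_eP : eP = EPM_gen (k := N 0) (cwP 4) := rfl

lemma EPM_eM : eM = EPM_gen (k := N 0) (cwM 4) := rfl

lemma EPM_N0 : 0 < N 0 := by
  unfold N
  norm_num

/-- the target `EPM` -/
theorem p_EPM (h : T_XIV) : T_EPM := by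
  refine ⟨?_, ?_, fun p => ?_, fun p => ?_, fun c p => ?_, fun c p => ?_⟩
  · rw [EPM_eP]; exact EPM_cont h EPM_N0 _
  · rw [EPM_eM]; exact EPM_cont h EPM_N0 _
  · rw [EPM_eP]; exact EPM_idem h EPM_N0 _ p
  · rw [EPM_eM]; exact EPM_idem h EPM_N0 _ p
  · rw [EPM_eP]; exact EPM_inv h EPM_N0 _ c p
  · rw [EPM_eM]; exact EPM_inv h EPM_N0 _ c p

end

end INJ
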