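import Pool.Agent.INJ.KTargets

set_option autoImplicit false

/-!
# INJ: Euler classes act as zero on spheres
-/

namespace INJ

open Matrix Kronecker

noncomputable section

/-- the family `tens` as a Kronecker product -/
lemma EUL_tens {Y : Type} [TopologicalSpace Y] {s : Y → Y} {ζ : Circle} {ι κ : Type} [Fintype ι]
    [Fintype κ] [DecidableEq κ] (E : Idf Y s ζ ι) (u : κ → ℤ) (y : Y) :
    (E.tens u).e y = (1 : Matrix κ κ ℂ) ⊗ₖ E.e y := by
  ext p q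
  simp only [Idf.tens, Matrix.of_apply, Matrix.kroneckerMap_apply, Matrix.one_apply]
  split_ifs <;> simp

/-- the sum of squares is not zero -/
lemma EUL_ne {k : ℕ} (v : Fin k → ℂ) (h : v ≠ 0) : ((∑ i, ‖v i‖ ^ 2 : ℝ) : ℂ) ≠ 0 := by
  obtain ⟨i, hi⟩ := Function.ne_iff.1 h
  have h1 : 0 < ∑ i, ‖v i‖ ^ 2 :=
    Finset.sum_pos' (fun j _ => by positivity) ⟨i, Finset.mem_univ _, by
      have : v i ≠ 0 := hi
      positivity⟩
  exact_mod_cast h1.ne'

/-- weights of powers -/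
lemma EUL_zpow (ζ : Circle) (c a b p q : ℤ) :
    (ζ ^ c) ^ (p - q) * ζ ^ (a - b) = ζ ^ (a + c * p - (b + c * q)) := by
  rw [← _root_.zpow_mul, ← _root_.zpow_add]
  congr 1
  ring

theorem EUL_mvn (h1 : T_CLF) {Y : Type} [TopologicalSpace Y] {s : Y → Y} {ζ : Circle} {c : ℤ}
    {k : ℕ} {v : Y → Fin k → ℂ} (hv : Continuous v) (h0 : ∀ y, v y ≠ 0)
    (hs : ∀ y i, v (s y) i = ((ζ ^ c : Circle) : ℂ) * v y i) {ι : Type} [Fintype ι]
    (E : Idf Y s ζ ι) :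
    MvN (E.tens fun i : CP k => c * (cwP k i : ℤ)) (E.tens fun i : CM k => c * (cwM k i : ℤ)) := by
  obtain ⟨hc, hr, he⟩ := h1 k
  have hvs : ∀ y, v (s y) = fun t => ((ζ ^ c : Circle) : ℂ) * v y t := fun y => funext (hs y)
  have hn : ∀ y, ((∑ i, ‖v (s y) i‖ ^ 2 : ℝ) : ℂ) = ((∑ i, ‖v y i‖ ^ 2 : ℝ) : ℂ) := by
    intro y
    congr 1
    refine Finset.sum_congr rfl fun i _ => ?_
    rw [hs, norm_mul, Circle.norm_coe, one_mul]
  refine ⟨fun y => (clf k (v y)).2 ⊗ₖ E.e y,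
    fun y => (((∑ i, ‖v y i‖ ^ 2 : ℝ) : ℂ)⁻¹ • (clf k (v y)).1) ⊗ₖ E.e y, ?_, ?_, ?_, ?_,
    fun y => ⟨?_, ?_⟩⟩
  · refine continuous_matrix fun p q => ?_
    have a1 : Continuous fun y => (clf k (v y)).2 p.1 q.1 :=
      ((hc.comp hv).snd).matrix_elem p.1 q.1
    exact a1.mul (E.cont.matrix_elem p.2 q.2)
  · refine continuous_matrix fun p q => ?_
    have a1 : Continuous fun y => (clf k (v y)).1 p.1 q.1 :=
      ((hc.comp hv).fst).matrix_elem p.1 q.1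
    have a2 : Continuous fun y => ((∑ i, ‖v y i‖ ^ 2 : ℝ) : ℂ)⁻¹ := by
      refine Continuous.inv₀ ?_ fun y => EUL_ne _ (h0 y)
      fun_prop
    exact (a2.mul a1).mul (E.cont.matrix_elem p.2 q.2)
  · intro y p q
    simp only [Matrix.kroneckerMap_apply]
    rw [hvs, ((he (v y) (ζ ^ c)).2 p.1 q.1), E.eqv y p.2 q.2]
    simp only [Idf.tens]
    rw [← EUL_zpow ζ c (E.w p.2) (E.w q.2) (cwP k p.1) (cwM k q.1), Circle.coe_mul]
    ring
  · intro y p q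
    simp only [Matrix.kroneckerMap_apply, Matrix.smul_apply, smul_eq_mul]
    rw [hn, hvs, ((he (v y) (ζ ^ c)).1 p.1 q.1), E.eqv y p.2 q.2]
    simp only [Idf.tens]
    rw [← EUL_zpow ζ c (E.w p.2) (E.w q.2) (cwM k p.1) (cwP k q.1), Circle.coe_mul]
    ring
  · rw [← Matrix.mul_kronecker_mul, E.idem y, EUL_tens, Matrix.mul_smul, (hr (v y)).2, smul_smul,
      inv_mul_cancel₀ (EUL_ne _ (h0 y)), one_smul]
  · rw [← Matrix.mul_kronecker_mul, E.idem y, EUL_tens, Matrix.smul_mul, (hr (v y)).1, smul_smul,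
      inv_mul_cancel₀ (EUL_ne _ (h0 y)), one_smul]

/-- Euler classes act as zero on spheres -/
theorem p_EUL (h1 : T_CLF) (h2 : T_DCL) (h3 : T_TENS) : T_EUL := by
  intro Y _ s ζ c k v hv h0 hs x
  have key : ∀ {n : ℕ} (E : Idf Y s ζ (Fin n)),
      (∑ i : CP k, T (c * cwP k i) E.cls) = ∑ i : CM k, T (c * cwM k i) E.cls := by
    intro n E
    rw [← h3 Y s ζ (Fin n) (CP k) E, ← h3 Y s ζ (Fin n) (CM k) E]
    exact cls_of_MvN (EUL_mvn h1 hv h0 hs E)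
  obtain ⟨n, m, E, F, rfl⟩ := exists_sub x
  rw [h2]
  simp only [map_sub, Finset.sum_sub_distrib]
  rw [key E, key F, sub_self]

end

end INJ
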