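import Pool.Agent.INJ.GTargets

set_option autoImplicit false

/-!
# INJ, part G: the bundles become equal over the total space
-/

namespace INJ

open TopologicalSpace Matrix

noncomputable section

/-- the isometry onto the line bundles -/
def EV_V {α : Type} [DecidableEq α] {k : ℕ} (w : α → ℕ) (p : Sph k) :
    Matrix (α × Fin k) α ℂ :=
  Matrix.of fun a b => if a.1 = b then xiv (w b) p a.2 else 0

lemma EV_one {α : Type} [Fintype α] [DecidableEq α] {k : ℕ} (w : α → ℕ) (p : Sph k)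
    (h : ∀ b, ∑ i, star (xiv (w b) p i) * xiv (w b) p i = 1) :
    (EV_V w p)ᴴ * EV_V w p = 1 := by
  ext b b'
  rw [Matrix.mul_apply, Fintype.sum_prod_type]
  simp only [Matrix.conjTranspose_apply, EV_V, Matrix.of_apply]
  rw [Finset.sum_eq_single b]
  · by_cases hb : b = b'
    · subst hb
      simp only [if_true, Matrix.one_apply_eq]
      exact h b
    · simp [hb, Matrix.one_apply_ne hb]
  · intro a _ ha
    simp [ha]
  · intro hb
    exact absurd (Finset.mem_univ _) hb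

lemma EV_idem {α : Type} [Fintype α] [DecidableEq α] {k : ℕ} (w : α → ℕ) (p : Sph k) :
    EV_V w p * (EV_V w p)ᴴ = Matrix.of fun a b : α × Fin k =>
      if a.1 = b.1 then xiv (w a.1) p a.2 * star (xiv (w a.1) p b.2) else 0 := by
  ext a b
  rw [Matrix.mul_apply]
  simp only [Matrix.conjTranspose_apply, EV_V, Matrix.of_apply]
  rw [Finset.sum_eq_single a.1]
  · by_cases hb : a.1 = b.1
    · rw [if_pos rfl, if_pos hb.symm, if_pos hb]
    · rw [if_pos rfl, if_neg (Ne.symm hb), if_neg hb, star_zero, mul_zero]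
  · intro c _ hc
    rw [if_neg (Ne.symm hc), zero_mul]
  · intro hb
    exact absurd (Finset.mem_univ _) hb

lemma EV_cont {α : Type} [DecidableEq α] {k : ℕ} (w : α → ℕ)
    (h : ∀ w i, Continuous fun p : Sph k => xiv w p i) :
    Continuous fun p : Sph k => EV_V w p := by
  refine continuous_matrix fun a b => ?_
  simp only [EV_V, Matrix.of_apply]
  by_cases hb : a.1 = b
  · simp only [if_pos hb]
    exact h _ _
  · simp only [if_neg hb]
    exact continuous_const

lemma EV_rot {α : Type} [DecidableEq α] {k : ℕ} (w : α → ℕ) (c : Circle) (p : Sph k)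
    (h : ∀ w i, xiv w (rot c p) i = ((c ^ (-(w : ℤ)) : Circle) : ℂ) * xiv w p i)
    (x : α × Fin k) (b : α) :
    EV_V w (rot c p) x b = ((c ^ (-(w b : ℤ)) : Circle) : ℂ) * EV_V w p x b := by
  simp only [EV_V, Matrix.of_apply]
  by_cases hb : x.1 = b
  · rw [if_pos hb, if_pos hb, h]
  · rw [if_neg hb, if_neg hb, mul_zero]

/-- products of three matrices -/
def EV_W {α β : Type} [Fintype α] [Fintype β] [DecidableEq α] [DecidableEq β] {k : ℕ}
    (w : α → ℕ) (w' : β → ℕ) (r : ℂ) (B : Matrix α β ℂ) (p : Sph k) :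
    Matrix (α × Fin k) (β × Fin k) ℂ :=
  EV_V w p * (r • B) * (EV_V w' p)ᴴ

lemma EV_W_inv {α β : Type} [Fintype α] [Fintype β] [DecidableEq α] [DecidableEq β] {k : ℕ}
    (w : α → ℕ) (w' : β → ℕ) (r : ℂ) (B B' : Matrix α β ℂ) (c : Circle) (p : Sph k)
    (h : ∀ w i, xiv w (rot c p) i = ((c ^ (-(w : ℤ)) : Circle) : ℂ) * xiv w p i)
    (hB : ∀ i j, B' i j = ((c ^ ((w i : ℤ) - w' j) : Circle) : ℂ) * B i j) :
    EV_W w w' r B' (rot c p) = EV_W w w' r B p := by
  ext x y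
  unfold EV_W
  rw [Matrix.mul_apply, Matrix.mul_apply]
  refine Finset.sum_congr rfl fun b _ => ?_
  rw [Matrix.mul_apply, Matrix.mul_apply, Matrix.conjTranspose_apply,
    Matrix.conjTranspose_apply, Finset.sum_mul, Finset.sum_mul]
  refine Finset.sum_congr rfl fun a _ => ?_
  rw [EV_rot w c p h, EV_rot w' c p h, Matrix.smul_apply, Matrix.smul_apply, hB, star_mul']
  have h1 : star (((c ^ (-(w' b : ℤ)) : Circle) : ℂ)) = ((c ^ (w' b : ℤ) : Circle) : ℂ) := by
    rw [Complex.star_def, ← Circle.coe_inv_eq_conj, ← _root_.zpow_neg, neg_neg]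
  have h2 : ((c ^ (-(w a : ℤ)) : Circle) : ℂ) * ((c ^ ((w a : ℤ) - w' b) : Circle) : ℂ) *
      ((c ^ (w' b : ℤ) : Circle) : ℂ) = 1 := by
    rw [← Circle.coe_mul, ← Circle.coe_mul, ← _root_.zpow_add, ← _root_.zpow_add]
    have h3 : -(w a : ℤ) + ((w a : ℤ) - w' b) + w' b = 0 := by ring
    rw [h3, zpow_zero, Circle.coe_one]
  rw [h1, smul_eq_mul, smul_eq_mul]
  calc _ = (((c ^ (-(w a : ℤ)) : Circle) : ℂ) * ((c ^ ((w a : ℤ) - w' b) : Circle) : ℂ) *
        ((c ^ (w' b : ℤ) : Circle) : ℂ)) *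
        (EV_V w p x a * (r * B a b) * star (EV_V w' p y b)) := by ring
    _ = _ := by rw [h2, one_mul]

lemma EV_W_mul {α β : Type} [Fintype α] [Fintype β] [DecidableEq α] [DecidableEq β] {k : ℕ}
    (w : α → ℕ) (w' : β → ℕ) (r s q : ℂ) (hq : r * s * q = 1) (B : Matrix α β ℂ)
    (A : Matrix β α ℂ) (hBA : B * A = q • 1) (p : Sph k)
    (h : ∀ w, ∑ i, star (xiv w p i) * xiv w p i = 1) :
    EV_W w w' r B p * EV_W w' w s A p = EV_V w p * (EV_V w p)ᴴ := by
  have h1 := EV_one w' p fun b => h _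
  unfold EV_W
  calc EV_V w p * (r • B) * (EV_V w' p)ᴴ * (EV_V w' p * (s • A) * (EV_V w p)ᴴ)
      = EV_V w p * ((r • B) * ((EV_V w' p)ᴴ * EV_V w' p) * (s • A)) * (EV_V w p)ᴴ := by
        simp only [Matrix.mul_assoc]
    _ = EV_V w p * (EV_V w p)ᴴ := by
        have h2 : (r • B) * ((EV_V w' p)ᴴ * EV_V w' p) * (s • A) = 1 := by
          rw [h1, Matrix.mul_one, Matrix.smul_mul, Matrix.mul_smul, hBA, smul_smul, smul_smul,
            hq, one_smul]
        rw [h2, Matrix.mul_one]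

theorem p_EV (hC : T_CLF) (hX : T_XIV) (hE : T_EBC) (hF : T_FAC) : T_EV' := by
  intro M _ _ _ _ _ S hS hS0 hSc p hp hpo
  obtain ⟨hC1, hC2, hC3⟩ := hC 4
  have hN : 0 < N 0 := by
    unfold N
    positivity
  have hxc : ∀ w i, Continuous fun p : Sph (N 0) => xiv w p i := fun w i => (hX _ w hN).1 i
  have hx1 : ∀ (p : Sph (N 0)) (w : ℕ), ∑ i, star (xiv w p i) * xiv w p i = 1 :=
    fun p w => (hX _ w hN).2.1 p
  have hxr : ∀ (c : Circle) (p : Sph (N 0)) (w : ℕ) (i : Fin (N 0)),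
      xiv w (rot c p) i = ((c ^ (-(w : ℤ)) : Circle) : ℂ) * xiv w p i :=
    fun c p w i => (hX _ w hN).2.2 c p i
  obtain ⟨-, -, hE1, hE2, -, -⟩ := hE
  set q : M → ℂ := fun m => ((∑ i, ‖S m i‖ ^ 2 : ℝ) : ℂ) with hqdef
  have hq0 : ∀ m, q m ≠ 0 := by
    intro m h0
    apply hS0 m
    have h1 : (∑ i, ‖S m i‖ ^ 2 : ℝ) = 0 := by
      have : ((∑ i, ‖S m i‖ ^ 2 : ℝ) : ℂ) = 0 := h0
      exact_mod_cast this
    rw [Finset.sum_eq_zero_iff_of_nonneg fun i _ => by positivity] at h1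
    funext i
    have h2 := h1 i (Finset.mem_univ _)
    simpa using h2
  have hqc : Continuous q := by
    refine Complex.continuous_ofReal.comp ?_
    refine continuous_finsetSum _ fun i _ => ?_
    exact ((continuous_pi_iff.1 hS i).norm).pow 2
  have hqi : ∀ (c : GG) (m : M), q (c • m) = q m := by
    intro c m
    simp only [hqdef]
    congr 1
    refine Finset.sum_congr rfl fun i _ => ?_
    rw [hSc, norm_mul, Circle.norm_coe, one_mul]
  have hSf : ∀ (c : GG) (m : M), S (c • m) = fun t => (c.1 0 : ℂ) * S m t :=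
    fun c m => funext fun i => hSc c m i
  set X : SumSp PX M → Matrix (CP 4 × Fin (N 0)) (CM 4 × Fin (N 0)) ℂ := fun y =>
    EV_W (cwP 4) (cwM 4) (q y.snd)⁻¹ (clf 4 (S y.snd)).2 (y.fst.val 0) with hXd
  set Y : SumSp PX M → Matrix (CM 4 × Fin (N 0)) (CP 4 × Fin (N 0)) ℂ := fun y =>
    EV_W (cwM 4) (cwP 4) 1 (clf 4 (S y.snd)).1 (y.fst.val 0) with hYd
  have hp0 : Continuous fun y : SumSp PX M => y.fst.val 0 :=
    (continuous_apply 0).comp (PX_continuous_val.comp SumSp.continuous_fst)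
  have hVp : Continuous fun y : SumSp PX M => EV_V (cwP 4) (y.fst.val 0) :=
    (EV_cont (cwP 4) hxc).comp hp0
  have hVm : Continuous fun y : SumSp PX M => EV_V (cwM 4) (y.fst.val 0) :=
    (EV_cont (cwM 4) hxc).comp hp0
  have hcl : Continuous fun y : SumSp PX M => clf 4 (S y.snd) :=
    hC1.comp (hS.comp SumSp.continuous_snd)
  have hXc : Continuous X := by
    refine (hVp.matrix_mul ?_).matrix_mul hVm.matrix_conjTranspose
    exact ((hqc.comp SumSp.continuous_snd).inv₀ fun y => hq0 _).smul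
      (continuous_snd.comp hcl)
  have hYc : Continuous Y := by
    refine (hVm.matrix_mul ?_).matrix_mul hVp.matrix_conjTranspose
    exact (continuous_const (y := (1 : ℂ))).smul (continuous_fst.comp hcl)
  have hXi : ∀ (c : GG) (y : SumSp PX M), X (c • y) = X y := by
    intro c y
    simp only [hXd]
    rw [SumSp.smul_snd, SumSp.smul_fst, hqi, hSf]
    exact EV_W_inv (cwP 4) (cwM 4) _ _ _ (c.1 0) (y.fst.val 0) (hxr _ _)
      (hC3 (S y.snd) (c.1 0)).2
  have hYi : ∀ (c : GG) (y : SumSp PX M), Y (c • y) = Y y := by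
    intro c y
    simp only [hYd]
    rw [SumSp.smul_snd, SumSp.smul_fst, hSf]
    exact EV_W_inv (cwM 4) (cwP 4) _ _ _ (c.1 0) (y.fst.val 0) (hxr _ _)
      (hC3 (S y.snd) (c.1 0)).1
  obtain ⟨hX1, hX2⟩ := hF GG (SumSp PX M) _ X hXi
  obtain ⟨hY1, hY2⟩ := hF GG (SumSp PX M) _ Y hYi
  have hX3 := hX2 hXc
  have hY3 := hY2 hYc
  refine ⟨0, fun b => Matrix.fromBlocks (fac GG (SumSp PX M) X b) 0 0 1,
    fun b => Matrix.fromBlocks (fac GG (SumSp PX M) Y b) 0 0 1,
    Continuous.matrix_fromBlocks hX3 continuous_const continuous_const continuous_const,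
    Continuous.matrix_fromBlocks hY3 continuous_const continuous_const continuous_const, ?_⟩
  rintro ⟨_, y, rfl⟩
  change Matrix.fromBlocks (fac GG (SumSp PX M) X (omk GG (SumSp PX M) y)) 0 0 1 *
      Matrix.fromBlocks (fac GG (SumSp PX M) Y (omk GG (SumSp PX M) y)) 0 0 1 =
      Matrix.fromBlocks (eBP (p (omk GG (SumSp PX M) y))) 0 0 1 ∧
    Matrix.fromBlocks (fac GG (SumSp PX M) Y (omk GG (SumSp PX M) y)) 0 0 1 *
      Matrix.fromBlocks (fac GG (SumSp PX M) X (omk GG (SumSp PX M) y)) 0 0 1 =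
      Matrix.fromBlocks (eBM (p (omk GG (SumSp PX M) y))) 0 0 1
  rw [hX1, hY1, hpo, hE1, hE2, Matrix.fromBlocks_multiply, Matrix.fromBlocks_multiply]
  simp only [Matrix.mul_zero, Matrix.zero_mul, add_zero, zero_add, Matrix.mul_one]
  have h1 : X y * Y y = eP (y.fst.val 0) := by
    have := EV_W_mul (cwP 4) (cwM 4) (q y.snd)⁻¹ 1 (q y.snd)
      (by rw [mul_one, inv_mul_cancel₀ (hq0 _)]) (clf 4 (S y.snd)).2 (clf 4 (S y.snd)).1
      (hC2 (S y.snd)).2 (y.fst.val 0) (hx1 _)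
    exact this.trans (EV_idem _ _)
  have h2 : Y y * X y = eM (y.fst.val 0) := by
    have := EV_W_mul (cwM 4) (cwP 4) 1 (q y.snd)⁻¹ (q y.snd)
      (by rw [one_mul, inv_mul_cancel₀ (hq0 _)]) (clf 4 (S y.snd)).1 (clf 4 (S y.snd)).2
      (hC2 (S y.snd)).1 (y.fst.val 0) (hx1 _)
    exact this.trans (EV_idem _ _)
  rw [h1, h2]
  exact ⟨rfl, rfl⟩

end

end INJ
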