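import Pool.Agent.INJ.FTargets

set_option autoImplicit false

/-!
# INJ: proof of `T_FAB`
-/

namespace INJ

open TopologicalSpace

theorem p_FAB (hOC : T_OC) (hEPI : T_EPI) (hFIB : T_FIB) (hHUR : T_HUR) (hLFP : T_LFP) :
    T_FAB := by
  intro M _ _ _ _ _ hd
  obtain ⟨hc, -, hs⟩ := hOC GG (SumSp PX M)
  obtain ⟨e1, e2⟩ := hEPI GG PX M
  obtain ⟨f1, f2⟩ := hFIB GG PX M hd
  refine ⟨e1, e2, hHUR GG PX M hd hLFP, ⟨?_⟩, f1, f2⟩
  rw [← hs.range_eq]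
  exact isCompact_range hc

end INJ
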