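import Pool.Agent.INJ.FTargets

set_option autoImplicit false

/-!
# INJ, part F: FAC, descent of invariant maps
-/

namespace INJ

/-- **FAC** -/
theorem p_FAC (hOQ : T_OQ) (hOC : T_OC) : T_FAC := by
  intro G X _ _ _ _ _ _ _ Y f hf
  have h1 : ∀ x, fac G X f (omk G X x) = f x := by
    intro x
    have hc : orb G X (Classical.choose (omk G X x).2) = orb G X x :=
      Classical.choose_spec (omk G X x).2
    have h2 : omk G X (Classical.choose (omk G X x).2) = omk G X x := Subtype.ext hc
    obtain ⟨g, hg⟩ := (hOQ G X _ _).1 h2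
    change f (Classical.choose (omk G X x).2) = f x
    rw [hg, hf]
  refine ⟨h1, ?_⟩
  intro _ hcont
  obtain ⟨ho1, ho2, ho3⟩ := hOC G X
  have hq : Topology.IsQuotientMap (omk G X) := ho2.isQuotientMap ho1 ho3
  rw [hq.continuous_iff]
  have h3 : fac G X f ∘ omk G X = f := funext h1
  rw [h3]
  exact hcont

end INJ
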