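import Pool.Agent.INJ.KTargets

set_option autoImplicit false

/-!
# INJ, part K: the target FCA
-/

namespace INJ

noncomputable section

open MeasureTheory AddCircle

theorem FCA_surj (u : Circle) : ∃ t : AddCircle (1 : ℝ), t.toCircle = u := by
  refine ⟨(AddCircle.homeomorphCircle one_ne_zero).symm u, ?_⟩
  rw [← AddCircle.homeomorphCircle_apply one_ne_zero, Homeomorph.apply_symm_apply]

theorem FCA_integrable (f : Circle → ℂ) (hf : Continuous f) :
    Integrable (fun t : AddCircle (1 : ℝ) => f t.toCircle) haarAddCircle :=
  (hf.comp AddCircle.continuous_toCircle).integrable_of_hasCompactSupport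
    (HasCompactSupport.of_compactSpace _)

theorem p_FCA : T_FCA := by
  refine ⟨?_, ?_, ?_, ?_, ?_⟩
  · intro a j
    unfold fc
    have h1 : (fun _ : AddCircle (1 : ℝ) => a) =
        a • ((fourier 0 : C(AddCircle (1 : ℝ), ℂ)) : AddCircle (1 : ℝ) → ℂ) := by
      funext t
      simp
    rw [h1, fourierCoeff.const_smul, fourierCoeff_fourier, Pi.single_apply]
    split_ifs <;> simp
  · intro f m j
    unfold fc fourierCoeff
    congr 1
    funext t
    have h1 : (fourier (-(j - m)) t : ℂ) = fourier (-j) t * ((t.toCircle ^ m : Circle) : ℂ) := by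
      rw [show -(j - m) = -j + m by ring, fourier_add, fourier_apply (n := m),
        AddCircle.toCircle_zsmul]
    rw [h1, smul_eq_mul, smul_eq_mul]
    ring
  · intro f u j
    obtain ⟨s, rfl⟩ := FCA_surj u
    unfold fc fourierCoeff
    have h1 : ∀ t : AddCircle (1 : ℝ), (fourier (-j) t : ℂ) • f (s.toCircle * t.toCircle) =
        ((s.toCircle ^ j : Circle) : ℂ) *
          ((fourier (-j) (s + t) : ℂ) • f ((s + t).toCircle)) := by
      intro t
      have h2 : (fourier (-j) (s + t) : ℂ) =
          ((s.toCircle ^ (-j) : Circle) : ℂ) * fourier (-j) t := by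
        rw [fourier_apply, fourier_apply, smul_add, AddCircle.toCircle_add,
          AddCircle.toCircle_zsmul, Circle.coe_mul]
      have h3 : ((s.toCircle ^ j : Circle) : ℂ) * ((s.toCircle ^ (-j) : Circle) : ℂ) = 1 := by
        rw [← Circle.coe_mul, ← zpow_add, add_neg_cancel, zpow_zero, Circle.coe_one]
      rw [h2, AddCircle.toCircle_add, smul_eq_mul, smul_eq_mul]
      calc fourier (-j) t * f (s.toCircle * t.toCircle) =
          (((s.toCircle ^ j : Circle) : ℂ) * ((s.toCircle ^ (-j) : Circle) : ℂ)) *
            (fourier (-j) t * f (s.toCircle * t.toCircle)) := by rw [h3, one_mul]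
        _ = _ := by ring
    simp_rw [h1]
    rw [integral_const_mul]
    congr 1
    exact integral_add_left_eq_self
      (fun t : AddCircle (1 : ℝ) => (fourier (-j) t : ℂ) • f (t.toCircle)) s
  · intro f g j hf hg
    unfold fc
    have h := congrFun (fourierCoeff.add (FCA_integrable f hf) (FCA_integrable g hg)) j
    exact h
  · intro f a j
    unfold fc
    exact fourierCoeff.const_mul _ a j

end

end INJ
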