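import Pool.Agent.INJ.KTargets

set_option autoImplicit false

/-!
# INJ: Fourier coefficients of matrix valued functions (target FCM)
-/

namespace INJ

open Matrix MeasureTheory

noncomputable section

/-- the integral over the circle is continuous on continuous functions -/
lemma FCM_int : Continuous fun F : C(AddCircle (1 : ℝ), ℂ) =>
    ∫ t, F t ∂(AddCircle.haarAddCircle (T := (1 : ℝ))) := by
  have h : LipschitzWith 1 fun F : C(AddCircle (1 : ℝ), ℂ) =>
      ∫ t, F t ∂(AddCircle.haarAddCircle (T := (1 : ℝ))) := by
    refine LipschitzWith.of_dist_le_mul fun F G => ?_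
    have iF : Integrable (fun t => F t) (AddCircle.haarAddCircle (T := (1 : ℝ))) :=
      F.continuous.integrable_of_hasCompactSupport (HasCompactSupport.of_compactSpace _)
    have iG : Integrable (fun t => G t) (AddCircle.haarAddCircle (T := (1 : ℝ))) :=
      G.continuous.integrable_of_hasCompactSupport (HasCompactSupport.of_compactSpace _)
    rw [dist_eq_norm, ← integral_sub iF iG]
    refine (norm_integral_le_of_norm_le_const (C := dist F G)
      (Filter.Eventually.of_forall fun t => ?_)).trans ?_
    · rw [← dist_eq_norm]
      exact ContinuousMap.dist_apply_le_dist t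
    · simp
  exact h.continuous

lemma FCM_cont_circle : Continuous fun t : AddCircle (1 : ℝ) => t.toCircle :=
  AddCircle.continuous_toCircle

/-- integrability of the integrand -/
lemma FCM_integrable {f : Circle → ℂ} (hf : Continuous f) (j : ℤ) :
    Integrable (fun t : AddCircle (1 : ℝ) => fourier (-j) t • f t.toCircle)
      (AddCircle.haarAddCircle (T := (1 : ℝ))) := by
  have : Continuous (fun t : AddCircle (1 : ℝ) => fourier (-j) t • f t.toCircle) :=
    (fourier (-j)).continuous.smul (hf.comp FCM_cont_circle)
  exact this.integrable_of_hasCompactSupport (HasCompactSupport.of_compactSpace _)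

/-- Fourier coefficients of a finite sum with constant factors -/
lemma FCM_sum {κ : Type} [Fintype κ] (f : κ → Circle → ℂ) (hf : ∀ k, Continuous (f k))
    (b : κ → ℂ) (j : ℤ) : fc (fun z => ∑ k, b k * f k z) j = ∑ k, b k * fc (f k) j := by
  unfold fc fourierCoeff
  have e : ∀ t : AddCircle (1 : ℝ), fourier (-j) t • (∑ k, b k * f k t.toCircle) =
      ∑ k, b k * (fourier (-j) t • f k t.toCircle) := by
    intro t
    simp only [smul_eq_mul, Finset.mul_sum]
    refine Finset.sum_congr rfl fun k _ => ?_
    ring
  simp only [e]
  rw [integral_finset_sum _ fun k _ => (FCM_integrable (hf k) j).const_mul (b k)]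
  refine Finset.sum_congr rfl fun k _ => ?_
  rw [integral_const_mul]

/-- continuity of one entry -/
lemma FCM_cont {X : Type} [TopologicalSpace X] (f : Circle → X → ℂ)
    (hf : Continuous fun p : Circle × X => f p.1 p.2) (j : ℤ) :
    Continuous fun x => fc (fun z => f z x) j := by
  have h1 : Continuous fun p : X × AddCircle (1 : ℝ) =>
      (fourier (-j) p.2 : ℂ) • f p.2.toCircle p.1 := by
    have h2 : Continuous fun p : X × AddCircle (1 : ℝ) => (fourier (-j) p.2 : ℂ) :=
      (fourier (-j)).continuous.comp continuous_snd
    have h3 : Continuous fun p : X × AddCircle (1 : ℝ) => f p.2.toCircle p.1 :=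
      hf.comp ((FCM_cont_circle.comp continuous_snd).prodMk continuous_fst)
    exact h2.smul h3
  let G : C(X × AddCircle (1 : ℝ), ℂ) := ⟨_, h1⟩
  exact FCM_int.comp G.curry.continuous

/-- target FCM -/
theorem p_FCM : T_FCM := by
  refine ⟨?_, ?_, ?_⟩
  · intro X ι κ _ R hR j
    refine continuous_matrix fun a b => ?_
    exact FCM_cont (fun z x => R z x a b) (hR.matrix_elem a b) j
  · intro X ι κ μ _ _ R B hR j x
    ext a b
    have hx : ∀ k, Continuous fun z => R z x a k := fun k =>
      (hR.matrix_elem a k).comp (Continuous.prodMk_left x)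
    have := FCM_sum (fun k z => R z x a k) hx (fun k => B x k b) j
    simp only [FC, Matrix.mul_apply, Matrix.of_apply]
    calc _ = fc (fun z => ∑ k, B x k b * R z x a k) j := by
          congr 1
          funext z
          exact Finset.sum_congr rfl fun k _ => mul_comm _ _
      _ = _ := this
      _ = _ := Finset.sum_congr rfl fun k _ => mul_comm _ _
  · intro X ι κ μ _ _ R A hR j x
    ext a b
    have hx : ∀ k, Continuous fun z => R z x k b := fun k =>
      (hR.matrix_elem k b).comp (Continuous.prodMk_left x)
    have := FCM_sum (fun k z => R z x k b) hx (fun k => A x a k) j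
    simp only [FC, Matrix.mul_apply, Matrix.of_apply]
    exact this

end

end INJ
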