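import Pool.Agent.INJ.KTargets

set_option autoImplicit false

/-!
# INJ, FCR: the Riemann-Lebesgue lemma for Fourier coefficients on the circle
-/

namespace INJ

lemma FCR_tendsto_cofinite (f : Circle → ℂ) (hf : Continuous f) :
    Filter.Tendsto (fun j : ℤ => fc f j) Filter.cofinite (nhds 0) := by
  let F : C(AddCircle (1 : ℝ), ℂ) :=
    ⟨fun t => f t.toCircle, hf.comp AddCircle.continuous_toCircle⟩
  have h1 := (hasSum_sq_fourierCoeff
    (ContinuousMap.toLp (E := ℂ) 2 AddCircle.haarAddCircle ℂ F)).summable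
  have h2 := h1.tendsto_cofinite_zero
  simp_rw [fourierCoeff_toLp] at h2
  have h3 : Filter.Tendsto (fun j : ℤ => ‖fc f j‖ ^ 2) Filter.cofinite (nhds 0) := h2
  have h4 := (Real.continuous_sqrt.tendsto 0).comp h3
  rw [Real.sqrt_zero] at h4
  rw [tendsto_zero_iff_norm_tendsto_zero]
  refine h4.congr fun j => ?_
  simp only [Function.comp]
  exact Real.sqrt_sq (norm_nonneg _)

/-- Riemann-Lebesgue -/
theorem p_FCR : T_FCR := by
  intro f hf
  have h := FCR_tendsto_cofinite f hf
  have e1 : Function.Injective (fun m : ℕ => (m : ℤ)) := fun a b h => by simpa using h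
  have e2 : Function.Injective (fun m : ℕ => (-(m : ℤ))) := fun a b h => by simpa using h
  refine ⟨?_, ?_⟩
  · rw [← Nat.cofinite_eq_atTop]
    exact h.comp e1.tendsto_cofinite
  · rw [← Nat.cofinite_eq_atTop]
    exact h.comp e2.tendsto_cofinite

end INJ
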