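import Pool.Agent.INJ.FTargets

set_option autoImplicit false

/-!
# INJ, target FIB: the fibres of the projection
-/

namespace INJ

open TopologicalSpace

theorem p_FIB (hOD : T_OD) (hOQ : T_OQ) (hEPI : T_EPI) : T_FIB := by
  intro G P M _ _ _ _ _ _ _ _ _ _ _ hdis
  refine ⟨fun p m m' => ?_, fun p a => ?_⟩
  · apply le_antisymm
    · have h := (hOD G (SumSp P M) ⟨p, m⟩ ⟨p, m'⟩).2 1
      rw [one_smul, SumSp.dist_eq, dist_self, zero_add] at h
      exact h
    · obtain ⟨g, hg⟩ := (hOD G (SumSp P M) ⟨p, m⟩ ⟨p, m'⟩).1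
      rw [hg, SumSp.dist_eq, SumSp.smul_fst, SumSp.smul_snd]
      change dist m m' ≤ dist p (g • p) + dist m (g • m')
      have h1 := dist_triangle m (g • m') m'
      have h2 := hdis g p m'
      rw [dist_comm m' (g • m')] at h2
      linarith
  · have hE := (hEPI G P M).2
    constructor
    · intro h
      obtain ⟨b, y, hy⟩ := a
      have ha : (⟨b, ⟨y, hy⟩⟩ : OrbSp G (SumSp P M)) = omk G (SumSp P M) y :=
        Subtype.ext hy.symm
      rw [ha, hE y] at h
      obtain ⟨g, hg⟩ := (hOQ G P p y.fst).1 h.symm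
      refine ⟨g • y.snd, ?_⟩
      rw [ha]
      refine ((hOQ G (SumSp P M) _ _).2 ⟨g, ?_⟩).symm
      exact SumSp.ext' hg rfl
    · rintro ⟨m, rfl⟩
      exact hE ⟨p, m⟩

end INJ
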