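import Pool.Agent.INJ.P_DADD

set_option autoImplicit false

/-!
# INJ: FROB (Frobenius on elements killed by 5)
-/

namespace INJ

open Matrix

noncomputable section

/-- additive maps which agree on elements killed by 5 have powers which agree there -/
lemma FROB_pow {A : Type} [AddCommGroup A] (F G : AddMonoid.End A)
    (h : ∀ y : A, 5 • y = 0 → F y = G y) (k : ℕ) (x : A) (hx : 5 • x = 0) :
    (F ^ k) x = (G ^ k) x := by
  induction k with
  | zero => rfl
  | succ k ih =>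
    rw [pow_succ', pow_succ']
    change F ((F ^ k) x) = G ((G ^ k) x)
    rw [ih]
    apply h
    rw [← map_nsmul, hx, map_zero]

lemma FROB_five {A : Type} [AddCommGroup A] (t : AddMonoid.End A) (x : A) (hx : 5 • x = 0) :
    ((1 - t : AddMonoid.End A) ^ 5) x = (1 - t ^ 5 : AddMonoid.End A) x := by
  have h : (1 - t : AddMonoid.End A) ^ 5 = (1 - t ^ 5) +
      (t ^ 4 - 2 • t ^ 3 + 2 • t ^ 2 - t) * (5 • 1) := by
    noncomm_ring
  rw [h]
  have h2 : ((5 • 1 : AddMonoid.End A)) x = 0 := hx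
  change (1 - t ^ 5 : AddMonoid.End A) x + (t ^ 4 - 2 • t ^ 3 + 2 • t ^ 2 - t : AddMonoid.End A)
    ((5 • 1 : AddMonoid.End A) x) = _
  rw [h2, map_zero, add_zero]

lemma FROB_Epow {Y : Type} [TopologicalSpace Y] {s : Y → Y} {ζ : Circle} (c : ℤ) (n : ℕ) :
    (DADD_E c : AddMonoid.End (KG Y s ζ)) ^ (n + 1) = DADD_E (c * ((n : ℤ) + 1)) := by
  induction n with
  | zero => simp
  | succ n ih =>
    rw [pow_succ, ih, DADD_E_mul]
    congr 1
    push_cast
    ring

lemma FROB_one {Y : Type} [TopologicalSpace Y] {s : Y → Y} {ζ : Circle} (j : ℕ) :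
    ∀ (c : ℤ) (x : KG Y s ζ), 5 • x = 0 →
      ((1 - DADD_E c : AddMonoid.End (KG Y s ζ)) ^ (5 ^ j)) x =
        (1 - DADD_E (c * 5 ^ j) : AddMonoid.End (KG Y s ζ)) x := by
  induction j with
  | zero => intro c x hx; simp
  | succ j ih =>
    intro c x hx
    rw [pow_succ, pow_mul, FROB_pow _ (1 - DADD_E (c * 5 ^ j)) (fun y hy => ih c y hy) 5 x hx,
      FROB_five _ _ hx, FROB_Epow _ 4]
    have e : c * 5 ^ j * (((4 : ℕ) : ℤ) + 1) = c * 5 ^ (j + 1) := by
      rw [_root_.pow_succ]; push_cast; ring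
    rw [e]

theorem p_FROB : T_FROB := by
  intro Y _ s ζ c j k x hx
  rw [DADD_D, DADD_D, pow_mul,
    FROB_pow _ (1 - DADD_E (c * 5 ^ j)) (fun y hy => FROB_one j c y hy) k x hx]

end

end INJ
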