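import Pool.Agent.INJ.MTargets

set_option autoImplicit false

/-!
# INJ, part M: continuity of the decoupling map (GAC)
-/

namespace INJ

open Quaternion

noncomputable section

theorem p_GAC (hGG : T_GG) (hLAM : T_LAM) (hINY : T_INY) (hKAP : T_KAP) : T_GAC := by
  unfold T_GAC
  refine continuousOn_pi.2 fun a => ?_
  have hmap : Set.MapsTo (fun p : ℝ × (ℕ × ℕ → ℍ[ℝ]) => ((p.1, -p.2 (suc a)) : ℝ × ℍ[ℝ]))
      {p | MD p.1 p.2} {p | lam a p.1 < 1 → 1 / 10 ≤ ‖p.2‖} := by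
    rintro ⟨t, f⟩ hf hl
    have hf' : MD t f := hf
    have h1 : dZ (ss (suc a) t - 1 / 2) ≤ 1 / 8 := (hLAM a).2.2.2.2.2.2 t hl
    have hk := hKAP.1 (suc a)
    have h2 := hINY (kap (suc a)) hk.1 (hk.2.trans (by norm_num))
    have h3 := h2.2.2.2.2.2.2.2 (ss (suc a) t) (f (suc a)) h1 (hf' (suc a))
    show 1 / 10 ≤ ‖-f (suc a)‖
    rw [norm_neg]
    exact h3
  have hc1 : Continuous (fun p : ℝ × (ℕ × ℕ → ℍ[ℝ]) => ((p.1, -p.2 (suc a)) : ℝ × ℍ[ℝ])) := by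
    fun_prop
  have hc2 : Continuous (fun p : ℝ × (ℕ × ℕ → ℍ[ℝ]) => p.2 a) := by fun_prop
  have hg := (hGG.2.2.2.2 a).comp hc1.continuousOn hmap
  exact hg.mul hc2.continuousOn

end

end INJ
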