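import Pool.Agent.INJ.GTargets

set_option autoImplicit false

/-!
# INJ, part G: target `GFX` (the retraction of chain `j`)
-/

namespace INJ

open TopologicalSpace Quaternion

noncomputable section

lemma GFX_cont (h : T_REP) (j : ℕ) : Continuous (fX h j) := by
  refine MX_continuous_mk.comp (Continuous.subtype_mk (Continuous.prodMk ?_ ?_) _)
  · exact continuous_fst.comp (continuous_subtype_val.comp MX_continuous_val)
  · refine continuous_pi fun a => ?_
    by_cases ha : a.1 = j
    · have : (fun m : MX => repM j m.val.1.2 a) = fun _ => rho * eJ := by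
        funext m
        simp [repM, ha]
      rw [this]
      exact continuous_const
    · have : (fun m : MX => repM j m.val.1.2 a) = fun m => m.val.1.2 a := by
        funext m
        simp [repM, ha]
      rw [this]
      exact (continuous_apply a).comp
        (continuous_snd.comp (continuous_subtype_val.comp MX_continuous_val))

lemma GFX_inv (h : T_REP) (ha : T_ACT) (j : ℕ) (c : GG) (m : MX) :
    fX h j (smX ha j c m) = fX h j m := by
  unfold fX smX
  congr 2
  refine Prod.ext rfl ?_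
  funext a
  simp only [repM, actM]
  split_ifs <;> rfl

lemma GFX_tail (j : ℕ) : (Summable fun n : ℕ => if j ≤ n then (2⁻¹ : ℝ) ^ n else 0) ∧
    ∑' n : ℕ, (if j ≤ n then (2⁻¹ : ℝ) ^ n else 0) = 2 * 2⁻¹ ^ j := by
  have hs : Summable fun n : ℕ => if j ≤ n then (2⁻¹ : ℝ) ^ n else 0 := by
    refine Summable.of_nonneg_of_le (fun n => ?_) (fun n => ?_)
      (summable_geometric_of_lt_one (r := (2⁻¹ : ℝ)) (by norm_num) (by norm_num))
    · split_ifs <;> positivity
    · split_ifs
      · exact le_rfl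
      · positivity
  refine ⟨hs, ?_⟩
  rw [← hs.sum_add_tsum_nat_add j, Finset.sum_eq_zero, zero_add]
  · have : ∀ n : ℕ, (if j ≤ n + j then (2⁻¹ : ℝ) ^ (n + j) else 0) = 2⁻¹ ^ n * 2⁻¹ ^ j := by
      intro n
      rw [if_pos (Nat.le_add_left j n), pow_add]
    rw [tsum_congr this, tsum_mul_right, tsum_geometric_of_lt_one (by norm_num) (by norm_num)]
    norm_num
  · intro n hn
    rw [if_neg (not_le.2 (Finset.mem_range.1 hn))]

lemma GFX_dist (h : T_REP) (j : ℕ) (m : MX) : dist (fX h j m) m ≤ 2 * 2⁻¹ ^ j := by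
  rw [MX_dist]
  have h0 : (fX h j m).val.1.1 = m.val.1.1 := rfl
  rw [h0, dist_self]
  refine max_le (by positivity) ?_
  obtain ⟨hs, he⟩ := GFX_tail j
  have hs' : Summable fun a : ℕ × ℕ => if j ≤ Nat.pairEquiv a then (2⁻¹ : ℝ) ^ Nat.pairEquiv a
      else 0 := (Nat.pairEquiv.summable_iff
        (f := fun n : ℕ => if j ≤ n then (2⁻¹ : ℝ) ^ n else 0)).2 hs
  have hle : ∀ a : ℕ × ℕ, min (2⁻¹ ^ Encodable.encode a)
      (dist ((fX h j m).val.1.2 a) (m.val.1.2 a)) ≤
      if j ≤ Nat.pairEquiv a then (2⁻¹ : ℝ) ^ Nat.pairEquiv a else 0 := by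
    intro a
    have hen : Encodable.encode a = Nat.pairEquiv a := rfl
    by_cases ha : a.1 = j
    · have hj : j ≤ Nat.pairEquiv a := by
        rw [← ha]
        exact Nat.left_le_pair a.1 a.2
      rw [if_pos hj, hen]
      exact min_le_left _ _
    · have : (fX h j m).val.1.2 a = m.val.1.2 a := by
        simp [fX, repM, ha]
      rw [this, dist_self]
      refine (min_le_right _ _).trans ?_
      split_ifs <;> positivity
  have hnn : ∀ a : ℕ × ℕ, 0 ≤ min ((2⁻¹ : ℝ) ^ Encodable.encode a)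
      (dist ((fX h j m).val.1.2 a) (m.val.1.2 a)) := fun a => le_min (by positivity) dist_nonneg
  calc (∑' a : ℕ × ℕ, min ((2⁻¹ : ℝ) ^ Encodable.encode a)
      (dist ((fX h j m).val.1.2 a) (m.val.1.2 a)))
      ≤ ∑' a : ℕ × ℕ, if j ≤ Nat.pairEquiv a then (2⁻¹ : ℝ) ^ Nat.pairEquiv a else 0 :=
        Summable.tsum_le_tsum hle (Summable.of_nonneg_of_le hnn hle hs') hs'
    _ = ∑' n : ℕ, if j ≤ n then (2⁻¹ : ℝ) ^ n else 0 :=
        Nat.pairEquiv.tsum_eq (fun n : ℕ => if j ≤ n then (2⁻¹ : ℝ) ^ n else 0)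
    _ = 2 * 2⁻¹ ^ j := he

/-- the retraction of chain `j` -/
theorem p_GFX : T_GFX := by
  intro h ha
  refine ⟨GFX_cont h, GFX_inv h ha, fun ε hε => ?_⟩
  obtain ⟨j, hj⟩ := exists_pow_lt_of_lt_one (half_pos hε) (show (2⁻¹ : ℝ) < 1 by norm_num)
  refine ⟨j, fun m => (GFX_dist h j m).trans_lt ?_⟩
  linarith

end

end INJ
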