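import Pool.Agent.INJ.MTargets

set_option autoImplicit false

/-!
# INJ, target GG: the gluing elements (helper13)
-/

namespace INJ

open Quaternion

noncomputable section

lemma GG_nrm {x : ℍ[ℝ]} (h : x ≠ 0) : ‖nrm x‖ = 1 := by
  unfold nrm
  rw [norm_smul, norm_inv, norm_norm]
  exact inv_mul_cancel₀ (norm_ne_zero_iff.2 h)

lemma GG_nrm_of {x : ℍ[ℝ]} (h : ‖x‖ = 1) : nrm x = x := by
  unfold nrm
  rw [h, inv_one, one_smul]

theorem p_GG (h1 : T_KAP) (h2 : T_LAM) (h3 : T_BT) : T_GG := by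
  have hq : ∀ a : ℕ × ℕ, 2 ≤ N a.2 := h1.2.2.2.2
  have hnum : ∀ a t v, (1 / 10 ≤ ‖v‖ ∨ lam a t = 1) → num a t v ≠ 0 := by
    intro a t v h
    exact (h3 (N a.2) (hq a)).2.2.2.2 (lam a t) v ((h2 a).1 t).1 ((h2 a).1 t).2 h
  refine ⟨fun a t v h => GG_nrm (hnum a t v h), ?_, ?_, ?_, ?_⟩
  · intro a t v h
    have h' : num a t v = -1 := by
      unfold num
      rw [h, sub_self, zero_smul, zero_sub]
      rfl
    unfold gg
    rw [h']
    exact GG_nrm_of (by rw [norm_neg, norm_one])
  · intro a t v h hv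
    have h' : num a t v = bt (N a.2) v := by
      unfold num
      rw [h, sub_zero, one_smul]
      exact sub_zero _
    unfold gg
    rw [h']
    refine GG_nrm_of ?_
    rw [(h3 (N a.2) (hq a)).2.1 v]
    exact min_eq_left (by linarith)
  · intro a t v
    by_cases h : num a t v = 0
    · left
      unfold gg nrm
      rw [h, smul_zero]
    · right
      exact GG_nrm h
  · intro a
    have hc : Continuous fun p : ℝ × ℍ[ℝ] => num a p.1 p.2 := by
      have hl : Continuous fun p : ℝ × ℍ[ℝ] => lam a p.1 := (h2 a).2.1.comp continuous_fst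
      have hb : Continuous fun p : ℝ × ℍ[ℝ] => bt (N a.2) p.2 :=
        (h3 (N a.2) (hq a)).1.comp continuous_snd
      have hco : Continuous fun p : ℝ × ℍ[ℝ] => ((lam a p.1 : ℝ) : ℍ[ℝ]) :=
        Quaternion.continuous_coe.comp hl
      exact ((continuous_const.sub hl).smul hb).sub hco
    intro p hp
    have hne : num a p.1 p.2 ≠ 0 := by
      refine hnum a p.1 p.2 ?_
      rcases lt_or_eq_of_le ((h2 a).1 p.1).2 with h | h
      · exact Or.inl (hp h)
      · exact Or.inr h
    have hcp := hc.continuousAt (x := p)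
    exact ((hcp.norm.inv₀ (norm_ne_zero_iff.2 hne)).smul hcp).continuousWithinAt

end

end INJ
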