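import Pool.Agent.INJ.GTargets

set_option autoImplicit false
set_option maxHeartbeats 4000000

/-!
# INJ, part G: proof of the target GHF
-/

namespace INJ

open TopologicalSpace

noncomputable section

/-- the product of two Hilbert cubes is a Hilbert cube -/
def GHF_QQ : (ℕ → unitInterval) × (ℕ → unitInterval) ≃ₜ (ℕ → unitInterval) :=
  (Homeomorph.sumArrowHomeomorphProdArrow (ι := ℕ) (ι' := ℕ) (X := unitInterval)).symm.trans
    (Homeomorph.piCongrLeft (Y := fun _ : ℕ => unitInterval) Equiv.natSumNatEquivNat)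

theorem p_GHF : T_GHF := by
  rintro ⟨Φ⟩
  refine ⟨((homeoMX.trans Φ).prodCongr homeoQX).trans
    ((Homeomorph.prodAssoc Circle (ℕ → unitInterval) (ℕ → unitInterval)).trans
      ((Homeomorph.refl Circle).prodCongr GHF_QQ))⟩

end

end INJ
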