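import Pool.Agent.INJ.FTargets

set_option autoImplicit false
set_option maxHeartbeats 4000000

namespace INJ

theorem p_GI (hCFI : T_CFI) : T_GI := by
  intro n hn f hf h t
  have hfin : Finite (CC n) := hCFI n hn
  let g : unitInterval → CC n := fun t => ⟨f t, h t⟩
  have hg : Continuous g := hf.subtype_mk _
  have hd : DiscreteTopology (CC n) := inferInstance
  have := PreconnectedSpace.constant (Y := CC n) inferInstance hg (x := t) (y := 0)
  exact congrArg Subtype.val this

end INJ
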