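import Pool.Agent.INJ.GTargets

set_option autoImplicit false

/-!
# INJ: the action on the fibre is continuous and isometric, with small displacement (target GSM)
-/

namespace INJ

open TopologicalSpace Quaternion

noncomputable section

/-- norm of a complex number as a quaternion -/
lemma GSM_norm (c : ℂ) : ‖(c : ℍ[ℝ])‖ = ‖c‖ := by
  have h : ‖(c : ℍ[ℝ])‖ * ‖(c : ℍ[ℝ])‖ = ‖c‖ * ‖c‖ := by
    rw [← Quaternion.normSq_eq_norm_mul_self, Quaternion.normSq_def', ← sq ‖c‖,
      ← Complex.normSq_eq_norm_sq, Complex.normSq_apply]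
    simp only [Quaternion.re_coeComplex, Quaternion.imI_coeComplex, Quaternion.imJ_coeComplex,
      Quaternion.imK_coeComplex]
    ring
  exact (mul_self_inj_of_nonneg (norm_nonneg _) (norm_nonneg _)).1 h

/-- the inclusion of the complex numbers is continuous -/
lemma GSM_cont : Continuous fun c : ℂ => (c : ℍ[ℝ]) := by
  have h : Isometry fun c : ℂ => (c : ℍ[ℝ]) := by
    refine Isometry.of_dist_eq fun a b => ?_
    rw [dist_eq_norm, dist_eq_norm, ← GSM_norm (a - b)]
    congr 1
    have h1 : ((a - b : ℂ) : ℍ[ℝ]) + (b : ℍ[ℝ]) = (a : ℍ[ℝ]) := by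
      rw [← Quaternion.coeComplex_add, sub_add_cancel]
    rw [← h1, add_sub_cancel_right]
  exact h.continuous

lemma GSM_val (h : T_ACT) (j : ℕ) (c : GG) (m : MX) :
    (smX h j c m).val.1 = (m.val.1.1, actM j c m.val.1.2) := rfl

/-- distances in one coordinate -/
lemma GSM_coord (j : ℕ) (c : GG) (v w : ℕ × ℕ → ℍ[ℝ]) (a : ℕ × ℕ) :
    dist (actM j c v a) (actM j c w a) = dist (v a) (w a) := by
  unfold actM
  split_ifs with ha
  · rw [dist_eq_norm, ← mul_sub, norm_mul, GSM_norm, Circle.norm_coe, one_mul, dist_eq_norm]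
  · rfl

/-- continuity of the action -/
lemma GSM_continuous (h : T_ACT) (j : ℕ) : Continuous (fun z : GG × MX => smX h j z.1 z.2) := by
  refine MX_continuous_mk.comp (Continuous.subtype_mk ?_ _)
  have hv : Continuous fun z : GG × MX => z.2.val.1 :=
    continuous_subtype_val.comp (MX_continuous_val.comp continuous_snd)
  refine (continuous_fst.comp hv).prodMk (continuous_pi fun a => ?_)
  have ha : Continuous fun z : GG × MX => z.2.val.1.2 a :=
    (continuous_apply a).comp (continuous_snd.comp hv)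
  unfold actM
  by_cases hj : a.1 = j
  · simp only [hj, if_true]
    have hc : Continuous fun z : GG × MX => ((z.1.1 a.2 : Circle) : ℂ) :=
      continuous_subtype_val.comp
        ((continuous_apply a.2).comp (continuous_subtype_val.comp continuous_fst))
    exact (GSM_cont.comp hc).mul ha
  · simp only [hj, if_false]
    exact ha

/-- the action is isometric -/
lemma GSM_isometry (h : T_ACT) (j : ℕ) (c : GG) : Isometry (smX h j c) := by
  refine Isometry.of_dist_eq fun m m' => ?_
  rw [MX_dist, MX_dist, GSM_val, GSM_val]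
  dsimp only
  congr 1
  refine tsum_congr fun a => ?_
  rw [GSM_coord]

lemma GSM_encode (j i : ℕ) : i ≤ Encodable.encode ((j, i) : ℕ × ℕ) := by
  rw [Encodable.encode_prod_val]
  exact Nat.right_le_pair _ _

lemma GSM_pow {i k : ℕ} (h : i ≤ k) : (2⁻¹ : ℝ) ^ k ≤ 2⁻¹ ^ i :=
  pow_le_pow_of_le_one (by norm_num) (by norm_num) h

lemma GSM_summable (f : ℕ → ℝ) (hf : ∀ i, 0 ≤ f i) : Summable fun i : ℕ => min (2⁻¹ ^ i) (f i) := by
  refine Summable.of_nonneg_of_le (fun i => le_min (by positivity) (hf i))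
    (fun i => min_le_left _ _) ?_
  exact summable_geometric_of_lt_one (by norm_num) (by norm_num)

/-- displacement -/
lemma GSM_disp (hm : T_MRP) (h : T_ACT) (j : ℕ) (c : GG) (m : MX) (p : PX) :
    dist m (smX h j c m) ≤ dist p (c • p) := by
  rw [MX_dist, PX_disp, GSM_val]
  dsimp only
  rw [dist_self]
  obtain ⟨t, ht, hmr⟩ := m.val.2
  have hv := (hm t _ hmr).1
  have hR : Summable fun i : ℕ => min ((2⁻¹ : ℝ) ^ i) ‖1 - (c.1 i : ℂ)‖ :=
    GSM_summable _ fun i => norm_nonneg _
  refine max_le (tsum_nonneg fun i => le_min (by positivity) (norm_nonneg _)) ?_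
  have hinj : Function.Injective fun i : ℕ => ((j, i) : ℕ × ℕ) := fun i k hik =>
    (Prod.mk.inj hik).2
  have key : ∀ i : ℕ, min ((2⁻¹ : ℝ) ^ Encodable.encode ((j, i) : ℕ × ℕ))
      (dist (m.val.1.2 (j, i)) (actM j c m.val.1.2 (j, i))) ≤
      min (2⁻¹ ^ i) ‖1 - (c.1 i : ℂ)‖ := by
    intro i
    refine min_le_min (GSM_pow (GSM_encode j i)) ?_
    unfold actM
    simp only [if_true]
    have h1 : (1 : ℍ[ℝ]) - ((c.1 i : ℂ) : ℍ[ℝ]) = ((1 - (c.1 i : ℂ) : ℂ) : ℍ[ℝ]) := by
      have h2 : ((1 - (c.1 i : ℂ) : ℂ) : ℍ[ℝ]) + ((c.1 i : ℂ) : ℍ[ℝ]) = 1 := by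
        rw [← Quaternion.coeComplex_add, sub_add_cancel, Quaternion.coeComplex_one]
      rw [← h2, add_sub_cancel_right]
    have h3 : m.val.1.2 (j, i) - ((c.1 i : ℂ) : ℍ[ℝ]) * m.val.1.2 (j, i) =
        (((1 - (c.1 i : ℂ) : ℂ)) : ℍ[ℝ]) * m.val.1.2 (j, i) := by
      rw [← h1, sub_mul, one_mul]
    rw [dist_eq_norm, h3, norm_mul, GSM_norm]
    exact mul_le_of_le_one_right (norm_nonneg _) (hv _)
  have hz : (Function.support fun a : ℕ × ℕ => min ((2⁻¹ : ℝ) ^ Encodable.encode a)
      (dist (m.val.1.2 a) (actM j c m.val.1.2 a))) ⊆ Set.range fun i : ℕ => ((j, i) : ℕ × ℕ) := by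
    intro a ha
    by_contra hn
    apply ha
    have hj : a.1 ≠ j := by
      rintro rfl
      exact hn ⟨a.2, rfl⟩
    have : actM j c m.val.1.2 a = m.val.1.2 a := by
      unfold actM
      rw [if_neg hj]
    dsimp only
    rw [this, dist_self]
    exact min_eq_right (by positivity)
  rw [← hinj.tsum_eq hz]
  refine Summable.tsum_le_tsum key ?_ hR
  exact Summable.of_nonneg_of_le (fun i => le_min (by positivity) dist_nonneg) key hR

/-- target GSM -/
theorem p_GSM (hm : T_MRP) : T_GSM := fun h j =>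
  ⟨GSM_continuous h j, GSM_isometry h j, fun c m p => GSM_disp hm h j c m p⟩

end

end INJ
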