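import Pool.Agent.INJ.GTargets

set_option autoImplicit false

namespace INJ

/-- The separating map of a fixed system of generators, restricted to the core space. -/
theorem p_GSX (hSJ : T_SJ) : T_GSX := by
  intro h j
  obtain ⟨S, hc, hn, he⟩ := hSJ j
  refine ⟨fun x => S x.val, hc.comp MX_continuous_val, fun x => hn x.val, ?_⟩
  intro c x i
  exact he c x.val (smX h j c x).val rfl i

end INJ
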