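import Pool.Agent.INJ.FTargets

set_option autoImplicit false
set_option maxHeartbeats 4000000

namespace INJ

open TopologicalSpace

theorem p_HM (hOD : T_OD) (hFIB : T_FIB) : T_HM := by
  intro G P M _ _ _ _ _ _ _ _ _ _ _ hd Z _ p h hp hh he
  obtain ⟨hA, hB⟩ := hFIB G P M hd
  choose m hm using fun z => (hB (p z) (h z)).1 (he z)
  refine ⟨m, ?_, hm⟩
  have key : ∀ z z', dist (m z) (m z') ≤ dist (h z) (h z') + dist (p z) (p z') := by
    intro z z'
    have h1 := hA (p z) (m z) (m z')
    have h2 := dist_triangle (omk G (SumSp P M) ⟨p z, m z⟩) (omk G (SumSp P M) ⟨p z', m z'⟩)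
      (omk G (SumSp P M) ⟨p z, m z'⟩)
    rw [← hm z, ← hm z'] at h2
    have h3 := (hOD G (SumSp P M) ⟨p z', m z'⟩ ⟨p z, m z'⟩).2 1
    rw [one_smul, SumSp.dist_eq, dist_self, add_zero, dist_comm (p z'), ← hm z'] at h3
    rw [← hm z] at h1
    linarith
  rw [continuous_iff_continuousAt]
  intro z0
  rw [ContinuousAt, tendsto_iff_dist_tendsto_zero]
  have t1 : Filter.Tendsto (fun z => dist (h z) (h z0) + dist (p z) (p z0)) (nhds z0)
      (nhds 0) := by
    have c : Continuous fun z => dist (h z) (h z0) + dist (p z) (p z0) :=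
      (hh.dist continuous_const).add (hp.dist continuous_const)
    have := c.tendsto z0
    simpa using this
  exact squeeze_zero (fun z => dist_nonneg) (fun z => key z z0) t1

end INJ
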