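import Pool.Agent.INJ.KTargets

set_option autoImplicit false

/-!
# INJ: homotopy invariance (helper43)
-/

namespace INJ

open Matrix Topology

noncomputable section

lemma HOM_one {n : ℕ} (e : Matrix (Fin n) (Fin n) ℂ) (h : e * e = e) :
    (e * e + (1 - e) * (1 - e)).det = 1 := by
  have h1 : e * e + (1 - e) * (1 - e) = 1 := by
    rw [sub_mul, one_mul, mul_sub, mul_one, h]
    simp
  rw [h1, Matrix.det_one]

lemma HOM_ext {Y' : Type} [TopologicalSpace Y'] {s' : Y' → Y'} {Y : Type} [TopologicalSpace Y]
    {s : Y → Y} {f g : EMap Y' s' Y s} (h : ∀ y, f.f y = g.f y) : f = g := by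
  obtain ⟨f, hf1, hf2⟩ := f
  obtain ⟨g, hg1, hg2⟩ := g
  have : f = g := funext h
  subst this
  rfl

/-- homotopy invariance -/
theorem p_HOM (hN : T_NEAR) : T_HOM := by
  intro Y' _ _ s' Y _ s ζ h hc heq f g hf hg x
  let F : unitInterval → EMap Y' s' Y s := fun r =>
    { f := fun y => h (y, r)
      cont := hc.comp (Continuous.prodMk_left r)
      eqv := fun y => heq y r }
  have hf' : f = F 0 := HOM_ext hf
  have hg' : g = F 1 := HOM_ext hg
  rw [hf', hg']
  suffices hh : (pull (F 0) : KG Y s ζ →+ KG Y' s' ζ) = pull (F 1) by rw [hh]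
  refine hom_ext fun n E => ?_
  rw [pull_cls, pull_cls]
  have hloc : IsLocallyConstant (fun r : unitInterval => (E.pull (F r)).cls) := by
    rw [IsLocallyConstant.iff_eventually_eq]
    intro r0
    have hP : ∀ᶠ r in 𝓝 r0, ∀ y ∈ (Set.univ : Set Y'),
        (E.e (h (y, r)) * E.e (h (y, r0)) +
          (1 - E.e (h (y, r))) * (1 - E.e (h (y, r0)))).det ≠ 0 := by
      refine isCompact_univ.eventually_forall_of_forall_eventually ?_
      intro y _
      have c1 : Continuous fun z : unitInterval × Y' => E.e (h (z.2, z.1)) :=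
        E.cont.comp (hc.comp (continuous_snd.prodMk continuous_fst))
      have c2 : Continuous fun z : unitInterval × Y' => E.e (h (z.2, r0)) :=
        E.cont.comp (hc.comp (continuous_snd.prodMk continuous_const))
      have hcont : Continuous fun z : unitInterval × Y' =>
          (E.e (h (z.2, z.1)) * E.e (h (z.2, r0)) +
            (1 - E.e (h (z.2, z.1))) * (1 - E.e (h (z.2, r0)))).det :=
        ((c1.matrix_mul c2).add
          ((continuous_const.sub c1).matrix_mul (continuous_const.sub c2))).matrix_det
      refine hcont.continuousAt.eventually_ne ?_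
      dsimp only
      rw [HOM_one _ (E.idem _)]
      exact one_ne_zero
    filter_upwards [hP] with r hr
    exact cls_of_MvN (hN Y' s' ζ n (E.pull (F r)) (E.pull (F r0)) rfl
      (fun y => hr y (Set.mem_univ y)))
  exact hloc.apply_eq_of_preconnectedSpace 0 1

end

end INJ
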