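import Pool.Agent.INJ.FTargets

set_option autoImplicit false

/-!
# INJ, part F: the projection of the associated bundle is a Hurewicz fibration
-/

namespace INJ

open TopologicalSpace

noncomputable section

section HUR

variable (G P M : Type) [Group G] [TopologicalSpace G] [CompactSpace G] [MetricSpace P]
    [MetricSpace M] [MulAction G P] [MulAction G M] [ContinuousSMul G P] [ContinuousSMul G M]
    [IsIsometricSMul G P] [IsIsometricSMul G M]

/-- the lifted map is constant on fibres -/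
lemma HUR_const (h_OQ : T_OQ) (h_FIB : T_FIB)
    (hd : ∀ (g : G) (p : P) (m : M), dist m (g • m) ≤ dist p (g • p))
    (hl2 : ∀ a b : C(unitInterval, P), (∀ t, omk G P (a t) = omk G P (b t)) → a 0 = b 0 → a = b)
    (a a' : C(unitInterval, P)) (m m' : M) (h1 : ∀ t, omk G P (a t) = omk G P (a' t))
    (h2 : omk G (SumSp P M) ⟨a 0, m⟩ = omk G (SumSp P M) ⟨a' 0, m'⟩) (t : unitInterval) :
    omk G (SumSp P M) ⟨a t, m⟩ = omk G (SumSp P M) ⟨a' t, m'⟩ := by
  obtain ⟨g, hg⟩ := (h_OQ G P (a' 0) (a 0)).1 (h1 0).symm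
  have hc : Continuous fun s => g • a s := a.continuous.const_smul g
  have e1 : a' = ⟨fun s => g • a s, hc⟩ := by
    refine hl2 _ _ (fun s => ?_) ?_
    · rw [← h1 s]
      exact ((h_OQ G P _ _).2 ⟨g, rfl⟩).symm
    · exact hg
  have e2 : ∀ s, a' s = g • a s := fun s => by rw [e1]; rfl
  have e3 : m' = g • m := by
    have h3 : omk G (SumSp P M) ⟨a' 0, g • m⟩ = omk G (SumSp P M) ⟨a 0, m⟩ := by
      refine (h_OQ G (SumSp P M) _ _).2 ⟨g, ?_⟩
      rw [hg]
      rfl
    have h4 := (h_FIB G P M hd).1 (a' 0) m' (g • m)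
    rw [h3, h2, dist_self] at h4
    exact dist_eq_zero.1 h4.symm
  refine ((h_OQ G (SumSp P M) _ _).2 ⟨g, ?_⟩).symm
  rw [e2 t, e3]
  rfl

/-- the pull back -/
abbrev HUR_X {X : Type} (f : X → OrbSp G P) : Type := {z : X × P // omk G P z.2 = f z.1}

end HUR

/-- HUR: the projection is a Hurewicz fibration -/
theorem p_HUR (h_OQ : T_OQ) (h_OC : T_OC) (h_EPI : T_EPI) (h_FIB : T_FIB) (h_HM : T_HM)
    (h_XQ : T_XQ) : T_HUR := by
  intro G P M _ _ _ _ _ _ _ _ _ _ _ hd hl X _ H h hh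
  obtain ⟨hl1, hl2⟩ := hl
  have hf : Continuous fun x : X => H (x, 0) := by fun_prop
  let Hx : C((HUR_X G P fun x : X => H (x, 0)) × unitInterval, OrbSp G P) :=
    ⟨fun y => H (y.1.1.1, y.2), by fun_prop⟩
  let hx : C((HUR_X G P fun x : X => H (x, 0)), P) := ⟨fun z => z.1.2, by fun_prop⟩
  obtain ⟨K', hK0, hK1⟩ := hl1 (HUR_X G P fun x : X => H (x, 0)) Hx hx (fun z => z.2)
  obtain ⟨m, hm, hm'⟩ := h_HM G P M hd (HUR_X G P fun x : X => H (x, 0)) (fun z => z.1.2)
    (fun z => h z.1.1) (by fun_prop) (by fun_prop) (fun z => by rw [hh z.1.1]; exact z.2.symm)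
  have hq := h_XQ G P X (fun x => H (x, 0)) hf
  let L : (HUR_X G P fun x : X => H (x, 0)) × unitInterval → OrbSp G (SumSp P M) :=
    fun y => omk G (SumSp P M) ⟨K' y, m y.1⟩
  have hL : Continuous L := by
    refine (h_OC G (SumSp P M)).1.comp ?_
    exact SumSp.continuous_mk.comp (K'.continuous.prodMk (hm.comp continuous_fst))
  let q : (HUR_X G P fun x : X => H (x, 0)) × unitInterval → X × unitInterval :=
    fun z => (z.1.1.1, z.2)
  have hfib : ∀ y y' : (HUR_X G P fun x : X => H (x, 0)) × unitInterval,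
      q y = q y' → L y = L y' := by
    rintro ⟨z, t⟩ ⟨z', t'⟩ h1
    have h2 : z.1.1 = z'.1.1 := (Prod.mk.inj h1).1
    have h3 : t = t' := (Prod.mk.inj h1).2
    subst h3
    let a : C(unitInterval, P) := ⟨fun s => K' (z, s), by fun_prop⟩
    let a' : C(unitInterval, P) := ⟨fun s => K' (z', s), by fun_prop⟩
    refine HUR_const G P M h_OQ h_FIB hd hl2 a a' (m z) (m z') (fun s => ?_) ?_ t
    · change omk G P (K' (z, s)) = omk G P (K' (z', s))
      rw [hK1, hK1]
      change H (z.1.1, s) = H (z'.1.1, s)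
      rw [h2]
    · change omk G (SumSp P M) ⟨K' (z, 0), m z⟩ = omk G (SumSp P M) ⟨K' (z', 0), m z'⟩
      rw [hK0, hK0]
      change omk G (SumSp P M) ⟨z.1.2, m z⟩ = omk G (SumSp P M) ⟨z'.1.2, m z'⟩
      rw [← hm' z, ← hm' z', h2]
  let K : X × unitInterval → OrbSp G (SumSp P M) := fun y => L (Classical.choose (hq.surjective y))
  have hKq : ∀ y, K (q y) = L y := fun y =>
    hfib _ _ (Classical.choose_spec (hq.surjective (q y)))
  have hKc : Continuous K := by
    refine hq.continuous_iff.2 ?_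
    have : K ∘ q = L := funext hKq
    change Continuous (K ∘ q)
    rw [this]
    exact hL
  refine ⟨⟨K, hKc⟩, fun x => ?_, fun y => ?_⟩
  · obtain ⟨y, hy⟩ := hq.surjective (x, 0)
    obtain ⟨z, t⟩ := y
    have h2 : z.1.1 = x := (Prod.mk.inj hy).1
    have h3 : t = 0 := (Prod.mk.inj hy).2
    subst h3
    change K (x, 0) = h x
    rw [← h2]
    have h4 := hKq (z, 0)
    change K (z.1.1, 0) = omk G (SumSp P M) ⟨K' (z, 0), m z⟩ at h4
    rw [h4, hK0, hm' z]
    rfl
  · obtain ⟨y', hy⟩ := hq.surjective y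
    change epi G P M (K y) = H y
    rw [← hy]
    have h4 := hKq y'
    change K (y'.1.1.1, y'.2) = omk G (SumSp P M) ⟨K' y', m y'.1⟩ at h4
    change epi G P M (K (y'.1.1.1, y'.2)) = H (y'.1.1.1, y'.2)
    rw [h4, (h_EPI G P M).2]
    exact hK1 y'

end

end INJ
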