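import Pool.Agent.INJ.K2Targets

set_option autoImplicit false
set_option maxHeartbeats 4000000

/-!
# INJ: the index lemma
-/

namespace INJ

open Matrix

noncomputable section

/-- smoothing coefficient -/
def IND_cf (n l : ℕ) : ℂ := (Nat.choose (2 * n) l : ℂ) / (Nat.choose (2 * n) n : ℂ)

lemma IND_cf_self (n : ℕ) : IND_cf n n = 1 := by
  unfold IND_cf
  apply div_self
  exact_mod_cast (Nat.choose_pos (by omega)).ne'

/-- coefficients of the polynomial -/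
def IND_a {X ι κ : Type} (Φ : Circle → X → Matrix ι κ ℂ) (n l : ℕ) (x : X) : Matrix ι κ ℂ :=
  IND_cf n l • FC Φ ((l : ℤ) - n) x

/-- smoothing of a matrix valued function -/
def IND_S {X ι κ : Type} (Φ : Circle → X → Matrix ι κ ℂ) (n : ℕ) (z : Circle) (x : X) :
    Matrix ι κ ℂ :=
  Matrix.of fun i j => smo n (fun z x => Φ z x i j) z x

lemma IND_coe : Continuous (fun z : Circle => (z : ℂ)) := by
  fun_prop

lemma IND_zpow (z : Circle) (n l : ℕ) :
    (z : ℂ) ^ n * ((z ^ ((l : ℤ) - n) : Circle) : ℂ) = (z : ℂ) ^ l := by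
  rw [Circle.coe_zpow, zpow_sub₀ (Circle.coe_ne_zero z), zpow_natCast, zpow_natCast,
    mul_div_cancel₀]
  exact pow_ne_zero _ (Circle.coe_ne_zero z)

lemma IND_sum {X ι κ : Type} (Φ : Circle → X → Matrix ι κ ℂ) (n : ℕ) (z : Circle) (x : X) :
    ∑ l ∈ Finset.range (2 * n + 1), (z : ℂ) ^ l • IND_a Φ n l x = (z : ℂ) ^ n • IND_S Φ n z x := by
  ext i j
  rw [Matrix.sum_apply, Matrix.smul_apply, IND_S, Matrix.of_apply, smo, smul_eq_mul,
    Finset.mul_sum]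
  refine Finset.sum_congr rfl fun l _ => ?_
  rw [Matrix.smul_apply, IND_a, Matrix.smul_apply, FC, Matrix.of_apply, smul_eq_mul, smul_eq_mul,
    ← IND_zpow z n l, IND_cf]
  ring

lemma IND_cont {X ι κ : Type} [TopologicalSpace X] (hFCM : T_FCM)
    (Φ : Circle → X → Matrix ι κ ℂ) (hΦ : Continuous (fun p : Circle × X => Φ p.1 p.2))
    (n : ℕ) : (∀ l, Continuous (IND_a Φ n l)) ∧
    Continuous (fun p : Circle × X => IND_S Φ n p.1 p.2) := by
  have h1 : ∀ j, Continuous (FC Φ j) := hFCM.1 X ι κ Φ hΦ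
  refine ⟨fun l => ?_, ?_⟩
  · have h2 : Continuous fun x : X => IND_cf n l • FC Φ ((l : ℤ) - n) x :=
      (continuous_const (y := IND_cf n l)).smul (h1 ((l : ℤ) - n))
    exact h2
  refine continuous_matrix fun i j => ?_
  simp only [IND_S, Matrix.of_apply, smo]
  refine continuous_finsetSum _ fun l _ => ?_
  refine Continuous.mul (Continuous.mul continuous_const ?_) ?_
  · have h2 : Continuous fun p : Circle × X => (p.1 ^ ((l : ℤ) - n) : Circle) :=
      (continuous_zpow _).comp continuous_fst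
    exact IND_coe.comp h2
  · exact ((h1 _).matrix_elem i j).comp continuous_snd

lemma IND_left {X ι κ : Type} [TopologicalSpace X] [Fintype ι] (hFCM : T_FCM)
    (Φ : Circle → X → Matrix ι κ ℂ) (hΦ : Continuous (fun p : Circle × X => Φ p.1 p.2))
    (A : X → Matrix ι ι ℂ) (h : ∀ z x, A x * Φ z x = Φ z x) (j : ℤ) (x : X) :
    A x * FC Φ j x = FC Φ j x := by
  rw [← hFCM.2.2 X ι ι κ Φ A hΦ j x]
  congr 1
  funext z y
  exact h z y

lemma IND_right {X ι κ : Type} [TopologicalSpace X] [Fintype κ] (hFCM : T_FCM)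
    (Φ : Circle → X → Matrix ι κ ℂ) (hΦ : Continuous (fun p : Circle × X => Φ p.1 p.2))
    (A : X → Matrix κ κ ℂ) (h : ∀ z x, Φ z x * A x = Φ z x) (j : ℤ) (x : X) :
    FC Φ j x * A x = FC Φ j x := by
  rw [← hFCM.2.1 X ι κ κ Φ A hΦ j x]
  congr 1
  funext z y
  exact h z y

lemma IND_aleft {X ι κ : Type} [TopologicalSpace X] [Fintype ι] (hFCM : T_FCM)
    (Φ : Circle → X → Matrix ι κ ℂ) (hΦ : Continuous (fun p : Circle × X => Φ p.1 p.2))
    (A : X → Matrix ι ι ℂ) (h : ∀ z x, A x * Φ z x = Φ z x) (n l : ℕ) (x : X) :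
    A x * IND_a Φ n l x = IND_a Φ n l x := by
  rw [IND_a, Matrix.mul_smul, IND_left hFCM Φ hΦ A h]

lemma IND_aright {X ι κ : Type} [TopologicalSpace X] [Fintype κ] (hFCM : T_FCM)
    (Φ : Circle → X → Matrix ι κ ℂ) (hΦ : Continuous (fun p : Circle × X => Φ p.1 p.2))
    (A : X → Matrix κ κ ℂ) (h : ∀ z x, Φ z x * A x = Φ z x) (n l : ℕ) (x : X) :
    IND_a Φ n l x * A x = IND_a Φ n l x := by
  rw [IND_a, Matrix.smul_mul, IND_right hFCM Φ hΦ A h]

lemma IND_S_eq {X ι κ : Type} (Φ : Circle → X → Matrix ι κ ℂ) (n : ℕ) (z : Circle) (x : X) :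
    IND_S Φ n z x = ((z : ℂ) ^ n)⁻¹ •
      ∑ l ∈ Finset.range (2 * n + 1), (z : ℂ) ^ l • IND_a Φ n l x := by
  rw [IND_sum, smul_smul, inv_mul_cancel₀ (pow_ne_zero _ (Circle.coe_ne_zero z)), one_smul]

lemma IND_Sleft {X ι κ : Type} [TopologicalSpace X] [Fintype ι] (hFCM : T_FCM)
    (Φ : Circle → X → Matrix ι κ ℂ) (hΦ : Continuous (fun p : Circle × X => Φ p.1 p.2))
    (A : X → Matrix ι ι ℂ) (h : ∀ z x, A x * Φ z x = Φ z x) (n : ℕ) (z : Circle) (x : X) :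
    A x * IND_S Φ n z x = IND_S Φ n z x := by
  rw [IND_S_eq, Matrix.mul_smul, Matrix.mul_sum]
  congr 1
  refine Finset.sum_congr rfl fun l _ => ?_
  rw [Matrix.mul_smul, IND_aleft hFCM Φ hΦ A h]

lemma IND_Sright {X ι κ : Type} [TopologicalSpace X] [Fintype κ] (hFCM : T_FCM)
    (Φ : Circle → X → Matrix ι κ ℂ) (hΦ : Continuous (fun p : Circle × X => Φ p.1 p.2))
    (A : X → Matrix κ κ ℂ) (h : ∀ z x, Φ z x * A x = Φ z x) (n : ℕ) (z : Circle) (x : X) :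
    IND_S Φ n z x * A x = IND_S Φ n z x := by
  rw [IND_S_eq, Matrix.smul_mul, Matrix.sum_mul]
  congr 1
  refine Finset.sum_congr rfl fun l _ => ?_
  rw [Matrix.smul_mul, IND_aright hFCM Φ hΦ A h]

/-- equivariance of the Fourier coefficients -/
lemma IND_eqv {X : Type} {s : X → X} {ζ : Circle} {ι κ : Type} (hFCA : T_FCA)
    (w : ι → ℤ) (w' : κ → ℤ) (c : ℤ) (Φ : Circle → X → Matrix ι κ ℂ)
    (h : ∀ z x i j, Φ (ζ ^ c * z) (s x) i j = ((ζ ^ (w i - w' j) : Circle) : ℂ) * Φ z x i j)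
    (n l : ℕ) : Eqv s ζ (fun i => w i + c * n) (fun j => w' j + c * (l : ℤ)) (IND_a Φ n l) := by
  intro x i j
  have h1 := hFCA.2.2.1 (fun z => Φ z (s x) i j) (ζ ^ c) ((l : ℤ) - n)
  have h2 : (fun z => Φ (ζ ^ c * z) (s x) i j) =
      fun z => ((ζ ^ (w i - w' j) : Circle) : ℂ) * Φ z x i j := funext fun z => h z x i j
  rw [h2, hFCA.2.2.2.2] at h1
  have h3 : ((((ζ ^ c) ^ ((l : ℤ) - n) : Circle)) : ℂ) ≠ 0 := Circle.coe_ne_zero _
  have h4 : (((ζ ^ c) ^ ((l : ℤ) - n) : Circle) : ℂ) *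
      ((ζ ^ ((w i + c * n) - (w' j + c * (l : ℤ))) : Circle) : ℂ) =
      ((ζ ^ (w i - w' j) : Circle) : ℂ) := by
    rw [← Circle.coe_mul, ← _root_.zpow_mul, ← _root_.zpow_add]
    congr 2
    ring
  simp only [IND_a, Matrix.smul_apply, FC, Matrix.of_apply, smul_eq_mul]
  apply mul_left_cancel₀ h3
  calc (((ζ ^ c) ^ ((l : ℤ) - n) : Circle) : ℂ) *
        (IND_cf n l * fc (fun z => Φ z (s x) i j) ((l : ℤ) - n))
      = IND_cf n l * ((((ζ ^ c) ^ ((l : ℤ) - n) : Circle) : ℂ) *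
        fc (fun z => Φ z (s x) i j) ((l : ℤ) - n)) := by ring
    _ = IND_cf n l * (((ζ ^ (w i - w' j) : Circle) : ℂ) *
        fc (fun z => Φ z x i j) ((l : ℤ) - n)) := by rw [← h1]
    _ = _ := by rw [← h4]; ring

/-- bound for a continuous matrix valued function -/
lemma IND_bound {X ι κ : Type} [TopologicalSpace X] [CompactSpace X] [Fintype ι] [Fintype κ]
    (Ψ : Circle → X → Matrix ι κ ℂ) (hΨ : Continuous (fun p : Circle × X => Ψ p.1 p.2)) :
    ∃ C : ℝ, 0 ≤ C ∧ ∀ z x i, ∑ k, ‖Ψ z x i k‖ ≤ C := by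
  have h1 : Continuous fun p : Circle × X => ∑ i, ∑ k, ‖Ψ p.1 p.2 i k‖ := by
    refine continuous_finsetSum _ fun i _ => continuous_finsetSum _ fun k _ => ?_
    exact (hΨ.matrix_elem i k).norm
  obtain ⟨C, hC⟩ := (isCompact_univ (X := Circle × X)).exists_bound_of_continuousOn
    h1.continuousOn
  refine ⟨|C|, abs_nonneg _, fun z x i => ?_⟩
  have h2 := hC (z, x) (Set.mem_univ _)
  rw [Real.norm_eq_abs] at h2
  have h3 : ∑ k, ‖Ψ z x i k‖ ≤ ∑ i, ∑ k, ‖Ψ z x i k‖ :=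
    Finset.single_le_sum (f := fun i => ∑ k, ‖Ψ z x i k‖)
      (fun i _ => Finset.sum_nonneg fun k _ => norm_nonneg _) (Finset.mem_univ i)
  exact h3.trans ((le_abs_self _).trans (h2.trans (le_abs_self _)))

/-- the choice of `n` -/
lemma IND_choice {X ι κ : Type} [TopologicalSpace X] [CompactSpace X] [Fintype ι] [Fintype κ]
    [DecidableEq κ] (hSMO : T_SMO) (hDET : T_DET)
    (Φ : Circle → X → Matrix ι κ ℂ) (Ψ : Circle → X → Matrix κ ι ℂ)
    (hΦ : Continuous (fun p : Circle × X => Φ p.1 p.2))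
    (hΨ : Continuous (fun p : Circle × X => Ψ p.1 p.2)) :
    ∃ n : ℕ, ∀ z x, (1 - Ψ z x * (Φ z x - IND_S Φ n z x)).det ≠ 0 := by
  obtain ⟨ε, hε, hdet⟩ := hDET κ
  obtain ⟨C, hC0, hC⟩ := IND_bound Ψ hΨ
  have hδ : 0 < ε / (C + 1) := by positivity
  have h1 : ∀ᶠ n : ℕ in Filter.atTop, ∀ i j, ∀ z x,
      ‖smo n (fun z x => Φ z x i j) z x - Φ z x i j‖ < ε / (C + 1) := by
    refine Filter.eventually_all.2 fun i => Filter.eventually_all.2 fun j => ?_
    obtain ⟨n0, h⟩ := hSMO X (fun z x => Φ z x i j) (hΦ.matrix_elem i j) _ hδ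
    exact Filter.eventually_atTop.2 ⟨n0, h⟩
  obtain ⟨n, hn⟩ := h1.exists
  refine ⟨n, fun z x => hdet _ fun i j => ?_⟩
  rw [Matrix.mul_apply]
  calc ‖∑ k, Ψ z x i k * (Φ z x - IND_S Φ n z x) k j‖
      ≤ ∑ k, ‖Ψ z x i k * (Φ z x - IND_S Φ n z x) k j‖ := norm_sum_le _ _
    _ ≤ ∑ k, ‖Ψ z x i k‖ * (ε / (C + 1)) := by
        refine Finset.sum_le_sum fun k _ => ?_
        rw [norm_mul]
        refine mul_le_mul_of_nonneg_left ?_ (norm_nonneg _)
        rw [Matrix.sub_apply, norm_sub_rev]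
        exact (hn k j z x).le
    _ = (∑ k, ‖Ψ z x i k‖) * (ε / (C + 1)) := by rw [Finset.sum_mul]
    _ ≤ C * (ε / (C + 1)) := mul_le_mul_of_nonneg_right (hC z x i) hδ.le
    _ < ε := by
        rw [mul_div_assoc', div_lt_iff₀ (by positivity)]
        nlinarith

/-- algebra -/
lemma IND_alg {ι κ : Type} [Fintype ι] [Fintype κ] [DecidableEq ι] (e0 : Matrix ι ι ℂ)
    (e1 : Matrix κ κ ℂ) (Φ S : Matrix κ ι ℂ) (Ψ : Matrix ι κ ℂ)
    (h1 : Ψ * Φ = e0) (h2 : Φ * Ψ = e1) (h3 : e1 * Φ = Φ) (h4 : Φ * e0 = Φ) (h5 : e0 * Ψ = Ψ)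
    (h6 : Ψ * e1 = Ψ) (h7 : e1 * S = S) (h8 : S * e0 = S)
    (hd : (1 - Ψ * (Φ - S)).det ≠ 0) (V : Matrix ι ι ℂ)
    (hV : V = (1 - Ψ * (Φ - S)).det⁻¹ • (1 - Ψ * (Φ - S)).adjugate) :
    (V * Ψ) * S = e0 ∧ S * (V * Ψ) = e1 ∧ (V * Ψ) * e1 = V * Ψ := by
  set U := 1 - Ψ * (Φ - S) with hU
  have hVU : V * U = 1 := by
    rw [hV, Matrix.smul_mul, Matrix.adjugate_mul, smul_smul, inv_mul_cancel₀ hd, one_smul]
  have hUV : U * V = 1 := by
    rw [hV, Matrix.mul_smul, Matrix.mul_adjugate, smul_smul, inv_mul_cancel₀ hd, one_smul]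
  have hS : Φ * U = S := by
    rw [hU, Matrix.mul_sub, Matrix.mul_one, ← Matrix.mul_assoc, h2, Matrix.mul_sub, h3, h7,
      sub_sub_cancel]
  have hc : e0 * U = U * e0 := by
    rw [hU, Matrix.mul_sub, Matrix.mul_one, Matrix.sub_mul, Matrix.one_mul, ← Matrix.mul_assoc,
      h5, Matrix.mul_assoc Ψ, Matrix.sub_mul, h4, h8]
  refine ⟨?_, ?_, ?_⟩
  · rw [← hS, Matrix.mul_assoc, ← Matrix.mul_assoc Ψ, h1, hc, ← Matrix.mul_assoc, hVU,
      Matrix.one_mul]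
  · rw [← hS, Matrix.mul_assoc, ← Matrix.mul_assoc U, hUV, Matrix.one_mul, h2]
  · rw [Matrix.mul_assoc, h6]

theorem p_IND (hPOL : T_POL) (hSMO : T_SMO) (hDET : T_DET) (hFCA : T_FCA) (hFCM : T_FCM) :
    T_IND := by
  intro X _ _ s ζ n0 n1 E0 E1 c Φ Ψ X0 hΦ hΨ hinv hmul heqv hX0
  obtain ⟨n, hn⟩ := IND_choice hSMO hDET Φ Ψ hΦ hΨ
  have hcont := IND_cont hFCM Φ hΦ n
  -- the inverse
  set P : Circle → X → Matrix (Fin n0) (Fin n1) ℂ := fun z x =>
    ((z : ℂ) ^ n)⁻¹ • (((1 - Ψ z x * (Φ z x - IND_S Φ n z x)).det⁻¹ •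
      (1 - Ψ z x * (Φ z x - IND_S Φ n z x)).adjugate) * Ψ z x) with hP
  have hPc : Continuous (fun p : Circle × X => P p.1 p.2) := by
    have hU : Continuous fun p : Circle × X =>
        1 - Ψ p.1 p.2 * (Φ p.1 p.2 - IND_S Φ n p.1 p.2) :=
      continuous_const.sub (hΨ.matrix_mul (hΦ.sub hcont.2))
    have hz : Continuous fun p : Circle × X => ((p.1 : ℂ) ^ n)⁻¹ := by
      refine Continuous.inv₀ ?_ fun p => pow_ne_zero _ (Circle.coe_ne_zero _)
      exact (IND_coe.comp continuous_fst).pow n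
    have hV : Continuous fun p : Circle × X =>
        (1 - Ψ p.1 p.2 * (Φ p.1 p.2 - IND_S Φ n p.1 p.2)).det⁻¹ :=
      Continuous.inv₀ hU.matrix_det fun p => hn p.1 p.2
    exact hz.smul (Continuous.matrix_mul (hV.smul hU.matrix_adjugate) hΨ)
  have hPs : ∀ z x, P z x * (∑ l ∈ Finset.range (2 * n + 1), (z : ℂ) ^ l • IND_a Φ n l x) =
      E0.e x ∧ (∑ l ∈ Finset.range (2 * n + 1), (z : ℂ) ^ l • IND_a Φ n l x) * P z x = E1.e x ∧
      P z x * E1.e x = P z x := by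
    intro z x
    obtain ⟨h1, h2⟩ := hinv z x
    obtain ⟨h3, h4, h5, h6⟩ := hmul z x
    have h7 := IND_Sleft hFCM Φ hΦ E1.e (fun z x => (hmul z x).1) n z x
    have h8 := IND_Sright hFCM Φ hΦ E0.e (fun z x => (hmul z x).2.1) n z x
    obtain ⟨g1, g2, g3⟩ := IND_alg (E0.e x) (E1.e x) (Φ z x) (IND_S Φ n z x) (Ψ z x)
      h1 h2 h3 h4 h5 h6 h7 h8 (hn z x) _ rfl
    have hz : (z : ℂ) ^ n ≠ 0 := pow_ne_zero _ (Circle.coe_ne_zero z)
    rw [IND_sum]
    refine ⟨?_, ?_, ?_⟩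
    · rw [hP]
      dsimp only
      rw [Matrix.smul_mul, Matrix.mul_smul, smul_smul, inv_mul_cancel₀ hz, one_smul, g1]
    · rw [hP]
      dsimp only
      rw [Matrix.smul_mul, Matrix.mul_smul, smul_smul, mul_inv_cancel₀ hz, one_smul, g2]
    · rw [hP]
      dsimp only
      rw [Matrix.smul_mul, g3]
  obtain ⟨Q, hQw, hQe, hQc⟩ := hPOL X s ζ (Fin n0) (Fin n1) E0 (E1.shift (c * n)) c (2 * n)
    (IND_a Φ n) P hcont.1 hPc
    (fun l => IND_eqv hFCA E1.w E0.w c Φ heqv n l)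
    (fun l x => ⟨IND_aleft hFCM Φ hΦ E1.e (fun z x => (hmul z x).1) n l x,
      IND_aright hFCM Φ hΦ E0.e (fun z x => (hmul z x).2.1) n l x⟩) hPs
  refine ⟨n, Q, hQw, ?_, ?_⟩
  · rw [T_cls]; exact hQc
  · intro x hx p q
    have hΦ1 : ∀ z, Φ z x = Φ 1 x := hX0 x hx
    have hΨ1 : ∀ z, Ψ z x = Ψ 1 x := by
      intro z
      obtain ⟨h1, h2⟩ := hinv z x
      obtain ⟨h3, h4, h5, h6⟩ := hmul z x
      obtain ⟨g1, g2⟩ := hinv 1 x
      obtain ⟨g3, g4, g5, g6⟩ := hmul 1 x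
      calc Ψ z x = Ψ z x * E1.e x := h6.symm
        _ = Ψ z x * (Φ 1 x * Ψ 1 x) := by rw [g2]
        _ = (Ψ z x * Φ z x) * Ψ 1 x := by rw [Matrix.mul_assoc, hΦ1 z]
        _ = Ψ 1 x := by rw [h1, g5]
    have hFC : ∀ j : ℤ, FC Φ j x = if j = 0 then Φ 1 x else 0 := by
      intro j
      ext a b
      have h := hFCA.1 (Φ 1 x a b) j
      have h' : (fun z => Φ z x a b) = fun _ => Φ 1 x a b := funext fun z => by rw [hΦ1 z]
      rw [FC, Matrix.of_apply, h', h]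
      split_ifs <;> simp
    have ha : ∀ l : ℕ, IND_a Φ n l x = if l = n then Φ 1 x else 0 := by
      intro l
      rw [IND_a, hFC]
      by_cases hl : l = n
      · rw [if_pos (by rw [hl, sub_self]), if_pos hl, hl, IND_cf_self, one_smul]
      · rw [if_neg (by omega), if_neg hl, smul_zero]
    have hS : ∀ z, IND_S Φ n z x = Φ 1 x := by
      intro z
      rw [IND_S_eq, Finset.sum_eq_single n]
      · rw [ha, if_pos rfl, smul_smul,
          inv_mul_cancel₀ (pow_ne_zero _ (Circle.coe_ne_zero z)), one_smul]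
      · intro l _ hl
        rw [ha, if_neg hl, smul_zero]
      · intro h
        exact absurd (Finset.mem_range.2 (by omega)) h
    have hPx : ∀ z, P z x = ((z : ℂ) ^ n)⁻¹ • Ψ 1 x := by
      intro z
      rw [hP]
      dsimp only
      rw [hS z, hΦ1 z, sub_self, Matrix.mul_zero, sub_zero, Matrix.det_one, inv_one, one_smul,
        Matrix.adjugate_one, Matrix.one_mul, hΨ1 z]
    have hFP : ∀ j : ℤ, FC P j x = if j = -(n : ℤ) then Ψ 1 x else 0 := by
      intro j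
      ext a b
      have h := hFCA.2.1 (fun _ => Ψ 1 x a b) (-(n : ℤ)) j
      have h' : (fun z => P z x a b) =
          fun z => ((z ^ (-(n : ℤ)) : Circle) : ℂ) * Ψ 1 x a b := by
        funext z
        rw [hPx z, Matrix.smul_apply, smul_eq_mul, Circle.coe_zpow, _root_.zpow_neg, zpow_natCast]
      rw [FC, Matrix.of_apply, h', h, hFCA.1]
      by_cases hj : j = -(n : ℤ)
      · rw [if_pos (by omega), if_pos hj]
      · rw [if_neg (by omega), if_neg hj, Matrix.zero_apply]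
    rw [hQe, Finset.sum_eq_single n]
    · rw [ha, if_pos rfl, hFP]
      by_cases h1 : (q.1 : ℕ) < n
      · rw [if_pos h1]
        by_cases h2 : p.1 = q.1
        · rw [if_pos (by rw [h2]; omega), if_pos ⟨h2, by rw [h2]; exact h1⟩, (hinv 1 x).1]
        · rw [if_neg (fun h => h2 (Fin.ext (by omega))), if_neg (fun h => h2 h.1),
            Matrix.zero_mul, Matrix.zero_apply]
      · rw [if_neg h1, if_neg]
        rintro ⟨h2, h3⟩
        rw [h2] at h3
        exact h1 h3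
    · intro l _ hl
      rw [ha, if_neg hl, Matrix.mul_zero, Matrix.zero_apply, ite_self]
    · intro h
      exact absurd (Finset.mem_range.2 (by omega)) h

end

end INJ
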