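import Pool.Agent.INJ.MTargets

set_option autoImplicit false

/-!
# INJ: the sets `Y(s)`
-/

namespace INJ

open Quaternion

noncomputable section

lemma INY_U (hTHK : T_THK) (hTT1 : T_TT1) (κ : ℝ) (h0 : 0 < κ) (h1 : κ ≤ 1 / 8) (s : ℝ)
    (F : ℍ[ℝ]) : InU κ (s + 1) F ↔ InU κ s (th 1 F) := by
  have hr : th 1 F = rho ↔ F = rho := hTHK.2.2.2.2.2.2.1 1 F
  unfold InU
  rw [hr]
  by_cases hF : F = rho
  · simp [hF]
  · rw [hTT1 κ h0 h1 F hF, sub_le_iff_le_add]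

lemma INY_th (hLA : T_LA) (κ : ℝ) (h0 : 0 < κ) (h1 : κ ≤ 1 / 8) (s : ℝ) (f : ℍ[ℝ]) :
    th 1 (Thi κ (s + 1) f) = Thi κ s f := by
  obtain ⟨-, h2, -, -⟩ := hLA κ h0 h1
  unfold th Thi
  rw [h2, Real.rpow_add (by norm_num : (0 : ℝ) < 10), Real.rpow_one, add_sub_cancel_left,
    smul_smul]
  congr 2
  norm_num
  ring

lemma INY_Y (hTHK : T_THK) (hTT1 : T_TT1) (hLA : T_LA) (κ : ℝ) (h0 : 0 < κ) (h1 : κ ≤ 1 / 8)
    (s : ℝ) (f : ℍ[ℝ]) : InY κ (s + 1) f ↔ InY κ s f := by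
  unfold InY
  rw [INY_U hTHK hTT1 κ h0 h1, INY_th hLA κ h0 h1]

lemma INY_int (hTHK : T_THK) (hTT1 : T_TT1) (hLA : T_LA) (κ : ℝ) (h0 : 0 < κ) (h1 : κ ≤ 1 / 8)
    (s : ℝ) (m : ℤ) (f : ℍ[ℝ]) : InY κ (s + m) f ↔ InY κ s f := by
  induction m using Int.induction_on with
  | zero => simp
  | succ n ih =>
    rw [← ih, ← INY_Y hTHK hTT1 hLA κ h0 h1 (s + ((n : ℤ) : ℝ))]
    push_cast
    rw [add_assoc]
  | pred n ih =>
    rw [← ih, ← INY_Y hTHK hTT1 hLA κ h0 h1 (s + ((-(n : ℤ) - 1 : ℤ) : ℝ))]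
    push_cast
    rw [show s + (-(n : ℝ) - 1) + 1 = s + -(n : ℝ) by ring]

lemma INY_fract (hTHK : T_THK) (hTT1 : T_TT1) (hLA : T_LA) (κ : ℝ) (h0 : 0 < κ) (h1 : κ ≤ 1 / 8)
    (s : ℝ) (f : ℍ[ℝ]) : InY κ s f ↔ InY κ (Int.fract s) f := by
  have h := INY_int hTHK hTT1 hLA κ h0 h1 (Int.fract s) ⌊s⌋ f
  rwa [Int.fract_add_floor] at h

lemma INY_dZ (s : ℝ) : dZ s = min (Int.fract s) (1 - Int.fract s) := abs_sub_round_eq_min s

lemma INY_mid (hTHK : T_THK) (hTT1 : T_TT1) (hLA : T_LA) (hTS : T_TS) (hTT2 : T_TT2)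
    (κ : ℝ) (h0 : 0 < κ) (h1 : κ ≤ 1 / 8) (s : ℝ) (f : ℍ[ℝ]) (hs : κ ≤ dZ s) :
    InY κ s f ↔ Rk κ ‖f‖ ≤ Int.fract s := by
  rw [INY_fract hTHK hTT1 hLA κ h0 h1]
  rw [INY_dZ, le_min_iff] at hs
  obtain ⟨h2, h3⟩ := hs
  have hf0 := Int.fract_nonneg s
  have hf1 := Int.fract_lt_one s
  have hla : la κ (Int.fract s) = 0 := (hLA κ h0 h1).2.2.1 _ hf0 (by linarith)
  have hT : Thi κ (Int.fract s) f = f := by
    unfold Thi
    rw [hla, Real.rpow_zero, one_smul, add_sub_cancel]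
  unfold InY
  rw [hT, (hTT2 κ h0 h1).2.2.2 _ f hf0 hf1]
  exact (hTS κ h0 h1).2.2.2.2.1 _ f h2 hf1

lemma INY_ball (hTHK : T_THK) (hTT1 : T_TT1) (hLA : T_LA) (hTS : T_TS) (hTT2 : T_TT2)
    (hTHT : T_THT) (κ : ℝ) (h0 : 0 < κ) (h1 : κ ≤ 1 / 8) (s : ℝ) (f : ℍ[ℝ])
    (h : InY κ s f) : ‖f‖ ≤ 1 := by
  rw [INY_fract hTHK hTT1 hLA κ h0 h1] at h
  have hf0 := Int.fract_nonneg s
  have hf1 := Int.fract_lt_one s
  set r := Int.fract s with hr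
  unfold InY at h
  rw [(hTT2 κ h0 h1).2.2.2 _ _ hf0 hf1] at h
  have h2 : ‖Thi κ r f‖ < 1 := ((hTS κ h0 h1).2.2.2.1 _).1 (lt_of_le_of_lt h hf1)
  have h3 : Th κ r (Thi κ r f) = f := hTHT.2.1 κ r f
  have hla : 0 ≤ la κ r := (hLA κ h0 h1).2.2.2 r hf0
  have ht0 : 0 < (10 : ℝ) ^ (-(la κ r)) := Real.rpow_pos_of_pos (by norm_num) _
  have ht1 : (10 : ℝ) ^ (-(la κ r)) ≤ 1 :=
    Real.rpow_le_one_of_one_le_of_nonpos (by norm_num) (by linarith)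
  have hrho : ‖rho‖ ≤ 1 := by
    unfold rho
    rw [Quaternion.norm_coe]
    norm_num
  rw [← h3]
  unfold Th
  set t := (10 : ℝ) ^ (-(la κ r)) with ht
  have h4 : rho + t • (Thi κ r f - rho) = (1 - t) • rho + t • Thi κ r f := by
    rw [smul_sub, sub_smul, one_smul]
    abel
  rw [h4]
  calc ‖(1 - t) • rho + t • Thi κ r f‖ ≤ ‖(1 - t) • rho‖ + ‖t • Thi κ r f‖ := norm_add_le _ _
    _ = (1 - t) * ‖rho‖ + t * ‖Thi κ r f‖ := by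
        rw [norm_smul, norm_smul, Real.norm_of_nonneg (by linarith), Real.norm_of_nonneg ht0.le]
    _ ≤ (1 - t) * 1 + t * 1 := by
        have := mul_le_mul_of_nonneg_left hrho (by linarith : (0 : ℝ) ≤ 1 - t)
        have := mul_le_mul_of_nonneg_left h2.le ht0.le
        linarith
    _ = 1 := by ring

lemma INY_half (s : ℝ) (h : dZ (s - 1 / 2) ≤ 1 / 8) :
    3 / 8 ≤ Int.fract s ∧ Int.fract s ≤ 5 / 8 := by
  unfold dZ at h
  rw [abs_le] at h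
  have hfl : ⌊s⌋ = round (s - 1 / 2) := by
    rw [Int.floor_eq_iff]
    constructor
    · linarith [h.1]
    · linarith [h.2]
  have h2 : Int.fract s = s - round (s - 1 / 2) := by
    rw [← hfl]; rfl
  rw [h2]
  constructor
  · linarith [h.1]
  · linarith [h.2]

theorem p_INY (hTHK : T_THK) (hTT1 : T_TT1) (hLA : T_LA) (hTS : T_TS) (hTT2 : T_TT2)
    (hTHT : T_THT) : T_INY := by
  intro κ h0 h1
  have hmid := INY_mid hTHK hTT1 hLA hTS hTT2 κ h0 h1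
  refine ⟨INY_U hTHK hTT1 κ h0 h1, INY_Y hTHK hTT1 hLA κ h0 h1, fun s n f => ?_,
    INY_ball hTHK hTT1 hLA hTS hTT2 hTHT κ h0 h1, fun s => ?_, hmid, fun s hs h => ?_,
    fun s f hs h => ?_⟩
  · have := INY_int hTHK hTT1 hLA κ h0 h1 s (n : ℤ) f
    rwa [Int.cast_natCast] at this
  · left
    exact (hTHT.2.2.2 κ s).2
  · have h2 := (hmid s 0 hs.le).1 h
    rw [norm_zero, (hTS κ h0 h1).2.2.2.2.2.1] at h2
    rw [INY_dZ, lt_min_iff] at hs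
    linarith [hs.2]
  · obtain ⟨h2, h3⟩ := INY_half s hs
    have h4 : κ ≤ dZ s := by
      rw [INY_dZ, le_min_iff]
      constructor <;> linarith
    have h5 := (hmid s f h4).1 h
    exact (hTS κ h0 h1).2.2.2.2.2.2.2.1 _ (norm_nonneg _) (h5.trans h3)

end

end INJ
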