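import Pool.Agent.INJ.MTargets

set_option autoImplicit false
set_option maxHeartbeats 4000000

namespace INJ

lemma KAP_exp (a : ℕ × ℕ) : ∃ d : ℕ,
    Nat.pair (suc a).1 (suc a).2 = Nat.pair a.1 a.2 + (d + 1) := by
  have h : Nat.pair a.1 a.2 < Nat.pair a.1 (a.2 + 1) :=
    Nat.pair_lt_pair_right _ (Nat.lt_succ_self _)
  refine ⟨Nat.pair a.1 (a.2 + 1) - Nat.pair a.1 a.2 - 1, ?_⟩
  simp only [suc]
  omega

lemma KAP_nn (a : ℕ × ℕ) : ∃ m : ℕ, nn (suc a) = nn a * (2 * m) ∧ 8 ≤ m := by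
  obtain ⟨d, hd⟩ := KAP_exp a
  refine ⟨8 * 16 ^ d, ?_, ?_⟩
  · unfold nn
    rw [hd]
    ring
  · have : 1 ≤ 16 ^ d := Nat.one_le_pow _ _ (by norm_num)
    omega

lemma KAP_pos (a : ℕ × ℕ) : 0 < nn a := by
  unfold nn
  positivity

theorem p_KAP : T_KAP := by
  refine ⟨fun a => ?_, fun a => ?_, fun k => ?_, fun a => ?_, fun a => ?_⟩
  · obtain ⟨m, hm, h8⟩ := KAP_nn a
    have h1 : (0 : ℝ) < nn a := by exact_mod_cast KAP_pos a
    have h2 : (0 : ℝ) < nn (suc a) := by exact_mod_cast KAP_pos (suc a)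
    have h3 : (nn (suc a) : ℝ) = nn a * (2 * m) := by exact_mod_cast hm
    have h4 : (8 : ℝ) ≤ m := by exact_mod_cast h8
    unfold kap
    constructor
    · positivity
    · rw [div_le_div_iff₀ (by positivity) (by norm_num), h3]
      nlinarith
  · obtain ⟨m, hm, h8⟩ := KAP_nn a
    exact ⟨m, hm, by omega⟩
  · unfold nn ak
    rw [Nat.pair_unpair]
  · unfold ak
    rw [Nat.unpair_pair]
  · unfold N
    have h : 1 ≤ 2 ^ a.2 := Nat.one_le_two_pow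
    calc 2 ≤ 5 ^ 1 := by norm_num
      _ ≤ 5 ^ 2 ^ a.2 := Nat.pow_le_pow_right (by norm_num) h

end INJ
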