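import Pool.Agent.INJ.GTargets

set_option autoImplicit false
set_option maxHeartbeats 4000000

/-!
# INJ: the two bundles on the base are not equal in `K⁰(B)`
-/

namespace INJ

open TopologicalSpace

noncomputable section

lemma KB_pow (hZ : T_ZET) (i : ℕ) : zeta i ^ N i = 1 := by
  have h := (hZ.2.2.1 i (N i : ℤ)).2 (dvd_refl _)
  rwa [zpow_natCast] at h

/-- the generator of the group -/
def KB_gen (hZ : T_ZET) : GG := ⟨zeta, fun i => KB_pow hZ i, fun i => hZ.1 i⟩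

lemma KB_smul (hZ : T_ZET) (p : PP) : (KB_gen hZ) • (⟨p⟩ : PX) = ⟨gam p⟩ := rfl

lemma KB_inv (hZ : T_ZET) (hQ : T_OQ) (p : PP) :
    omk GG PX ⟨gam p⟩ = omk GG PX ⟨p⟩ :=
  (hQ GG PX _ _).2 ⟨KB_gen hZ, (KB_smul hZ p).symm⟩

theorem p_KB (hK : T_KFIN) (hE : T_EBC) (hZ : T_ZET) (hC : T_OC) (hQ : T_OQ) : T_KB := by
  rintro ⟨k, x, y, hx, hy, h⟩
  obtain ⟨-, -, hP, hM, -, -⟩ := hE
  have hc : Continuous fun p : PP => omk GG PX ⟨p⟩ :=
    (hC GG PX).1.comp PX_continuous_mk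
  refine hK k (fun p => x (omk GG PX ⟨p⟩)) (fun p => y (omk GG PX ⟨p⟩)) (hx.comp hc) (hy.comp hc)
    (fun p => ?_) (fun p => ?_) (fun p => ?_)
  · rw [KB_inv hZ hQ]
  · rw [KB_inv hZ hQ]
  · have h1 := h (omk GG PX ⟨p⟩)
    rw [hP ⟨p⟩, hM ⟨p⟩] at h1
    exact h1

end

end INJ
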