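import Pool.Agent.INJ.MTargets

set_option autoImplicit false

/-!
# INJ: the time change of the isotopy
-/

namespace INJ

/-- local formula for `la` -/
theorem LA_local (κ : ℝ) (hκ : 0 < κ) (m : ℤ) (s : ℝ) (h1 : (m : ℝ) ≤ s)
    (h2 : s ≤ m + 2 - κ) :
    la κ s = m + max 0 (min 1 (1 - (m + 1 - s) / κ)) := by
  rcases lt_or_ge s (m + 1) with h | h
  · have hf : ⌊s⌋ = m := Int.floor_eq_iff.2 ⟨h1, h⟩
    have hfr : Int.fract s = s - m := by rw [Int.fract, hf]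
    have h3 : 0 < (m + 1 - s) / κ := div_pos (by linarith) hκ
    unfold la
    rw [hf, hfr, min_eq_right (by linarith)]
    congr 3
    ring
  · have hf : ⌊s⌋ = m + 1 := by
      apply Int.floor_eq_iff.2
      push_cast
      exact ⟨h, by linarith⟩
    have hfr : Int.fract s = s - (m + 1) := by rw [Int.fract, hf]; push_cast; ring
    have h3 : (m + 1 - s) / κ ≤ 0 := div_nonpos_of_nonpos_of_nonneg (by linarith) hκ.le
    have h4 : 1 ≤ (1 - (s - (m + 1))) / κ := by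
      rw [le_div_iff₀ hκ]
      linarith
    unfold la
    rw [hf, hfr, min_eq_left (by linarith), max_eq_left (by linarith),
      max_eq_right (by norm_num)]
    push_cast
    ring

theorem LA_cont (κ : ℝ) (hκ : 0 < κ) (hκ' : κ ≤ 1 / 8) : Continuous (la κ) := by
  rw [continuous_iff_continuousAt]
  intro s
  have hc1 : s ≤ (⌈s⌉ : ℝ) := Int.le_ceil s
  have hc2 : (⌈s⌉ : ℝ) < s + 1 := Int.ceil_lt_add_one s
  have hg : Continuous (fun x : ℝ => ((⌈s⌉ - 1 : ℤ) : ℝ) +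
      max 0 (min 1 (1 - (((⌈s⌉ - 1 : ℤ) : ℝ) + 1 - x) / κ))) := by
    fun_prop
  refine hg.continuousAt.congr ?_
  have hm : Set.Ioo (((⌈s⌉ - 1 : ℤ) : ℝ)) (((⌈s⌉ - 1 : ℤ) : ℝ) + 2 - κ) ∈ nhds s := by
    apply Ioo_mem_nhds
    · push_cast
      linarith
    · push_cast
      linarith
  filter_upwards [hm] with x hx
  exact (LA_local κ hκ _ x hx.1.le hx.2.le).symm

theorem LA_shift (κ s : ℝ) : la κ (s + 1) = la κ s + 1 := by
  unfold la
  rw [Int.floor_add_one, Int.fract_add_one]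
  push_cast
  ring

theorem LA_zero (κ : ℝ) (hκ : 0 < κ) (s : ℝ) (h0 : 0 ≤ s) (h1 : s ≤ 1 - κ) :
    la κ s = 0 := by
  have h := LA_local κ hκ 0 s (by simpa using h0) (by push_cast; linarith)
  rw [h]
  have h2 : 1 ≤ ((0 : ℤ) + 1 - s) / κ := by
    rw [le_div_iff₀ hκ]
    push_cast
    linarith
  have h3 : min 1 (1 - (((0 : ℤ) : ℝ) + 1 - s) / κ) ≤ 0 :=
    (min_le_right _ _).trans (by linarith)
  rw [max_eq_left h3]
  simp

theorem LA_nonneg (κ s : ℝ) (h0 : 0 ≤ s) : 0 ≤ la κ s := by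
  unfold la
  have h1 : (0 : ℝ) ≤ (⌊s⌋ : ℝ) := by exact_mod_cast Int.floor_nonneg.2 h0
  have h2 := le_max_left 0 (1 - (1 - Int.fract s) / κ)
  linarith

theorem p_LA : T_LA := by
  intro κ hκ hκ'
  exact ⟨LA_cont κ hκ hκ', LA_shift κ, fun s h0 h1 => LA_zero κ hκ s h0 h1,
    fun s h0 => LA_nonneg κ s h0⟩

end INJ
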