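import Pool.Agent.INJ.MTargets

set_option autoImplicit false

/-!
# INJ: window parameters
-/

namespace INJ

noncomputable section

lemma LAM_dZ_eq (s : ℝ) : dZ s = ‖(s : UnitAddCircle)‖ := (UnitAddCircle.norm_eq).symm

lemma LAM_cont : Continuous dZ := by
  have h : dZ = fun s : ℝ => ‖(s : UnitAddCircle)‖ := funext LAM_dZ_eq
  rw [h]
  exact continuous_norm.comp (AddCircle.continuous_mk' 1)

lemma LAM_half (s : ℝ) (h : dZ (s - 1 / 2) ≤ 1 / 8) : 3 / 8 ≤ dZ s := by
  unfold dZ at h ⊢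
  rw [abs_le] at h
  obtain ⟨h1, h2⟩ := h
  rcases le_or_gt (round s) (round (s - 1 / 2)) with h3 | h3
  · have h4 : ((round s : ℤ) : ℝ) ≤ ((round (s - 1 / 2) : ℤ) : ℝ) := by exact_mod_cast h3
    refine le_trans ?_ (le_abs_self _)
    linarith
  · have h4 : ((round (s - 1 / 2) : ℤ) : ℝ) + 1 ≤ ((round s : ℤ) : ℝ) := by exact_mod_cast h3
    refine le_trans ?_ (neg_le_abs _)
    linarith

lemma LAM_lt (d k : ℝ) (hk : 0 < k) : min 1 (max 0 (d / k - 1)) < 1 ↔ d < 2 * k := by
  rw [min_lt_iff]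
  simp only [lt_irrefl, false_or, max_lt_iff, zero_lt_one, true_and]
  rw [sub_lt_iff_lt_add, div_lt_iff₀ hk]
  norm_num

lemma LAM_zero (d k : ℝ) (hk : 0 < k) : min 1 (max 0 (d / k - 1)) = 0 ↔ d ≤ k := by
  constructor
  · intro h
    by_contra h1
    push Not at h1
    have h2 : 0 < d / k - 1 := by
      rw [sub_pos, lt_div_iff₀ hk]; linarith
    have h3 : 0 < min 1 (max 0 (d / k - 1)) := lt_min one_pos (lt_max_of_lt_right h2)
    linarith
  · intro h
    have h2 : d / k - 1 ≤ 0 := by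
      rw [sub_nonpos, div_le_iff₀ hk]; linarith
    rw [max_eq_left h2]
    norm_num

theorem p_LAM (hK : T_KAP) (hW : T_WIN) : T_LAM := by
  intro a
  have hk := (hK.1 a).1
  have hlt : ∀ t, lam a t < 1 ↔ dZ (ss a t) < 2 * kap a := fun t => LAM_lt _ _ hk
  have hwin : ∀ t, lam a t < 1 → dZ (ss (suc a) t - 1 / 2) ≤ 1 / 8 :=
    fun t ht => hW a t ((hlt t).1 ht).le
  refine ⟨fun t => ⟨le_min zero_le_one (le_max_left _ _), min_le_left _ _⟩, ?_, ?_, hlt,
    fun t => LAM_zero _ _ hk, ?_, hwin⟩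
  · have h1 : Continuous (ss a) := by unfold ss; fun_prop
    have h2 : Continuous fun t => dZ (ss a t) := LAM_cont.comp h1
    exact continuous_const.min (continuous_const.max ((h2.div_const _).sub continuous_const))
  · intro t
    have h1 : ss a (t + 1) = ss a t + (nn a : ℕ) := by unfold ss; ring
    have h2 : dZ (ss a (t + 1)) = dZ (ss a t) := by
      rw [h1]
      unfold dZ
      rw [round_add_natCast]
      push_cast
      congr 1
      ring
    unfold lam
    rw [h2]
  · intro t ht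
    have h1 := LAM_half _ (hwin t ht)
    have hk' := hK.1 (suc a)
    unfold lam
    refine min_eq_left (le_max_of_le_right ?_)
    rw [le_sub_iff_add_le, le_div_iff₀ hk'.1]
    linarith [hk'.2]

end

end INJ
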