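import Pool.Agent.INJ.FTargets

set_option autoImplicit false

/-!
# INJ: LF1, uniqueness of lifts of paths to `P`
-/

namespace INJ

open TopologicalSpace

noncomputable section

lemma LF1_rot_inj {k : ℕ} (c d : Circle) (v : Sph k) (h : rot c v = rot d v) : c = d := by
  have h1 : rot (d⁻¹ * c) v = v := by
    rw [← rot_rot, h, rot_rot, inv_mul_cancel, rot_one]
  have h2 := dist_self_rot (d⁻¹ * c) v
  rw [h1, dist_self] at h2
  have h3 : (1 : ℂ) - ((d⁻¹ * c : Circle) : ℂ) = 0 := norm_eq_zero.1 h2.symm
  have h4 : ((d⁻¹ * c : Circle) : ℂ) = ((1 : Circle) : ℂ) := by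
    rw [Circle.coe_one]
    exact (sub_eq_zero.1 h3).symm
  have h5 : d⁻¹ * c = 1 := Circle.coe_injective h4
  rw [inv_mul_eq_one] at h5
  exact h5.symm

/-- uniqueness of lifts of paths to `P` -/
theorem p_LF1 (hOQ : T_OQ) (hCG : T_CG) (hGI : T_GI) : T_LF1 := by
  intro a b hab h0
  have h1 : ∀ t, ∃ g : GG, a t = g • b t := fun t => (hOQ GG PX _ _).1 (hab t)
  choose g hg using h1
  have hv : ∀ i t, (a t).val i = rot ((g t).1 i) ((b t).val i) := by
    intro i t
    conv_lhs => rw [hg t]
    rfl
  have hg0 : g 0 = 1 := PX_free (g 0) (b 0) (by rw [← hg 0, h0])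
  have hN : ∀ i, 0 < N i := fun i => by
    unfold N
    positivity
  have hc : ∀ i, Continuous fun t => (g t).1 i := by
    intro i
    have ha : Continuous fun z : unitInterval × Circle => (a z.1).val i :=
      (continuous_apply i).comp (PX_continuous_val.comp (a.continuous.comp continuous_fst))
    have hb : Continuous fun z : unitInterval × Circle => (b z.1).val i :=
      (continuous_apply i).comp (PX_continuous_val.comp (b.continuous.comp continuous_fst))
    refine hCG unitInterval Circle Circle
      {z | (a z.1).val i = rot z.2 ((b z.1).val i)} Prod.snd _ ?_ continuous_snd ?_ ?_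
    · exact isClosed_eq ha (continuous_rot2.comp (continuous_snd.prodMk hb))
    · intro t
      exact ⟨(g t).1 i, hv i t⟩
    · intro t k hk
      have hk' : (a t).val i = rot k ((b t).val i) := hk
      exact LF1_rot_inj _ _ _ (hk'.symm.trans (hv i t))
  have h1 : ∀ i t, (g t).1 i = 1 := by
    intro i t
    have := hGI (N i) (hN i) (fun t => (g t).1 i) (hc i) (fun t => (g t).2.1 i) t
    rw [this]
    rw [hg0]
    rfl
  ext t
  have h2 : (a t).val = (b t).val := by
    funext i
    rw [hv i t, h1 i t, rot_one]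
  have h3 : ∀ p q : PX, p.val = q.val → p = q := by
    rintro ⟨p⟩ ⟨q⟩ h
    congr
  exact h3 _ _ h2

end

end INJ
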