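import Pool.Agent.INJ.FTargets

set_option autoImplicit false

/-!
# INJ: LFP, lifting along `P → P/G`
-/

namespace INJ

open TopologicalSpace

noncomputable section

/-- coordinate map on the orbit spaces -/
def LFP_A (i : ℕ) : OrbSp GG PX → OrbSp (CC (N i)) (Sph (N i)) :=
  fac GG PX fun p => omk (CC (N i)) (Sph (N i)) (p.val i)

lemma LFP_A_spec (hOQ : T_OQ) (hOC : T_OC) (hFAC : T_FAC) (i : ℕ) :
    (∀ p : PX, LFP_A i (omk GG PX p) = omk (CC (N i)) (Sph (N i)) (p.val i)) ∧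
      Continuous (LFP_A i) := by
  obtain ⟨h1, h2⟩ := hFAC GG PX _ (fun p : PX => omk (CC (N i)) (Sph (N i)) (p.val i)) (by
    intro g p
    refine (hOQ (CC (N i)) (Sph (N i)) _ _).2 ⟨⟨g.1 i, g.2.1 i⟩, ?_⟩
    rfl)
  refine ⟨h1, h2 ?_⟩
  exact (hOC (CC (N i)) (Sph (N i))).1.comp ((continuous_apply i).comp PX_continuous_val)

/-- lifting along `P → P/G` -/
theorem p_LFP (hOQ : T_OQ) (hOC : T_OC) (hFAC : T_FAC) (hCOV : T_COV) (hCLI : T_CLI)
    (hCFI : T_CFI) (hLF1 : T_LF1) (hLF2 : T_LF2) : T_LFP := by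
  refine ⟨?_, hLF1⟩
  intro Z _ H h hh
  have hN : ∀ i, 0 < N i := fun i => by
    unfold N
    positivity
  have hlift : ∀ i, HasLift (CC (N i)) (Sph (N i)) := fun i => by
    have : Finite (CC (N i)) := hCFI (N i) (hN i)
    exact hCLI _ _ (hCOV _ _ fun c v => CC_free c v)
  have hK : ∀ i, ∃ K : C(Z × unitInterval, Sph (N i)), (∀ z, K (z, 0) = (h z).val i) ∧
      ∀ y, omk (CC (N i)) (Sph (N i)) (K y) = LFP_A i (H y) := by
    intro i
    obtain ⟨hA1, hA2⟩ := LFP_A_spec hOQ hOC hFAC i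
    exact (hlift i).1 Z ⟨fun y => LFP_A i (H y), hA2.comp H.continuous⟩
      ⟨fun z => (h z).val i, (continuous_apply i).comp (PX_continuous_val.comp h.continuous)⟩
      (fun z => by
        change omk (CC (N i)) (Sph (N i)) ((h z).val i) = LFP_A i (H (z, 0))
        rw [← hh z, hA1])
  choose K hK0 hK1 using hK
  refine ⟨⟨fun y => ⟨fun i => K i y⟩, PX_continuous_mk.comp
    (continuous_pi fun i => (K i).continuous)⟩, ?_, ?_⟩
  · intro z
    change (⟨fun i => K i (z, 0)⟩ : PX) = h z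
    simp only [hK0]
  · rintro ⟨z, t⟩
    refine hLF2 (fun t => H (z, t)) (fun i t => K i (z, t)) (h z) (by fun_prop)
      (fun i => by fun_prop) (hh z) (fun i => hK0 i z) ?_ t
    intro i t q hq
    obtain ⟨hA1, _⟩ := LFP_A_spec hOQ hOC hFAC i
    have h1 := hK1 i (z, t)
    rw [← hq, hA1] at h1
    obtain ⟨c, hc⟩ := (hOQ (CC (N i)) (Sph (N i)) _ _).1 h1
    exact ⟨c.1, c.2, hc⟩

end

end INJ
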