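import Pool.Agent.INJ.KTargets

set_option autoImplicit false
set_option maxHeartbeats 4000000

/-!
# INJ: Lemma G
-/

namespace INJ

open Matrix

noncomputable section

/-- the closed unit ball -/
abbrev LG_Bl (k : ℕ) : Type := Metric.closedBall (0 : EuclideanSpace ℂ (Fin k)) 1

lemma LG_compact (k : ℕ) : CompactSpace (LG_Bl k) :=
  isCompact_iff_compactSpace.1 (isCompact_closedBall _ _)

/-- rotation of the ball -/
def LG_rotB {k : ℕ} (c : Circle) (u : LG_Bl k) : LG_Bl k :=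
  ⟨(c : ℂ) • u.1, by
    have := u.2
    rw [mem_closedBall_zero_iff] at this ⊢
    rw [norm_smul, Circle.norm_coe, one_mul]; exact this⟩

/-- the self map of the ball times `Y` -/
def LG_sX {Y : Type} (k : ℕ) (c : Circle) (s : Y → Y) : LG_Bl k × Y → LG_Bl k × Y :=
  fun p => (LG_rotB c p.1, s p.2)

/-- projection -/
def LG_prX {Y : Type} [TopologicalSpace Y] (k : ℕ) (c : Circle) (s : Y → Y) :
    EMap (LG_Bl k × Y) (LG_sX k c s) Y s where
  f := Prod.snd
  cont := continuous_snd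
  eqv := fun _ => rfl

/-- the zero section -/
def LG_io {Y : Type} [TopologicalSpace Y] (k : ℕ) (c : Circle) (s : Y → Y) :
    EMap Y s (LG_Bl k × Y) (LG_sX k c s) where
  f := fun y => (⟨0, by simp⟩, y)
  cont := by fun_prop
  eqv := fun y => by
    refine Prod.ext (Subtype.ext ?_) rfl
    simp [LG_sX, LG_rotB]

/-- the inclusion of the sphere times `Y` -/
def LG_in {Y : Type} [TopologicalSpace Y] (k : ℕ) (c : Circle) (s : Y → Y) :
    EMap (Sph k × Y) (srot k c s) (LG_Bl k × Y) (LG_sX k c s) where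
  f := fun p => (⟨p.1.1, Metric.sphere_subset_closedBall p.1.2⟩, p.2)
  cont := by
    refine Continuous.prodMk (Continuous.subtype_mk ?_ _) continuous_snd
    exact continuous_subtype_val.comp continuous_fst
  eqv := fun _ => rfl

/-- contraction of the sphere inside the ball -/
def LG_h {Y : Type} (k : ℕ) (q : (Sph k × Y) × unitInterval) : LG_Bl k × Y :=
  (⟨(((q.2 : ℝ) : ℂ)) • q.1.1.1, by
    have h1 := q.1.1.2
    rw [mem_sphere_zero_iff_norm] at h1
    rw [mem_closedBall_zero_iff, norm_smul, h1, mul_one, Complex.norm_real,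
      Real.norm_of_nonneg q.2.2.1]
    exact q.2.2.2⟩, q.1.2)

lemma LG_h_cont {Y : Type} [TopologicalSpace Y] (k : ℕ) : Continuous (LG_h (Y := Y) k) := by
  have h1 : Continuous fun q : (Sph k × Y) × unitInterval => ((q.2 : ℝ) : ℂ) :=
    Complex.continuous_ofReal.comp (continuous_subtype_val.comp continuous_snd)
  have h2 : Continuous fun q : (Sph k × Y) × unitInterval => q.1.1.1 :=
    continuous_subtype_val.comp (continuous_fst.comp continuous_fst)
  exact Continuous.prodMk (Continuous.subtype_mk (h1.smul h2) _)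
    (continuous_snd.comp continuous_fst)

lemma LG_h_eqv {Y : Type} (k : ℕ) (c : Circle) (s : Y → Y) (p : Sph k × Y) (r : unitInterval) :
    LG_h k (srot k c s p, r) = LG_sX k c s (LG_h k (p, r)) := by
  refine Prod.ext (Subtype.ext ?_) rfl
  simp only [LG_h, LG_sX, LG_rotB, srot, rot]
  rw [smul_comm]

section general

variable {Y : Type} [TopologicalSpace Y] {s : Y → Y} {ζ : Circle} {Y' : Type}
  [TopologicalSpace Y'] {s' : Y' → Y'}

/-- normal form of the elements which vanish after a pull back -/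
lemma LG_norm (f : EMap Y' s' Y s) (x : KG Y s ζ) (hx : pull f x = 0) :
    ∃ (n0 n1 : ℕ) (E : Idf Y s ζ (Fin n0)) (F : Idf Y s ζ (Fin n1)),
      x = E.cls - F.cls ∧ MvN (E.pull f) (F.pull f) := by
  obtain ⟨n, m, E0, F0, rfl⟩ := exists_sub x
  rw [map_sub, sub_eq_zero, pull_cls, pull_cls, cls_eq_iff] at hx
  obtain ⟨l, w, h⟩ := hx
  refine ⟨n + l, m + l, (E0.sum (Idf.triv w)).reindex finSumFinEquiv.symm,
    (F0.sum (Idf.triv w)).reindex finSumFinEquiv.symm, ?_, ?_⟩
  · rw [cls_of_MvN (MvN.reindex (E0.sum (Idf.triv w)) finSumFinEquiv.symm),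
      cls_of_MvN (MvN.reindex (F0.sum (Idf.triv w)) finSumFinEquiv.symm), cls_sum, cls_sum]
    abel
  · have h1 : MvN (((E0.sum (Idf.triv w)).reindex finSumFinEquiv.symm).pull f)
        ((E0.pull f).sum (Idf.triv w)) :=
      MvN.reindex ((E0.pull f).sum (Idf.triv w)) finSumFinEquiv.symm
    have h2 : MvN (((F0.sum (Idf.triv w)).reindex finSumFinEquiv.symm).pull f)
        ((F0.pull f).sum (Idf.triv w)) :=
      MvN.reindex ((F0.pull f).sum (Idf.triv w)) finSumFinEquiv.symm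
    exact (h1.trans h).trans h2.symm

/-- reduced equivalences -/
lemma LG_phi {ι κ : Type} [Fintype ι] [Fintype κ] {A : Idf Y s ζ ι} {B : Idf Y s ζ κ}
    (h : MvN A B) : ∃ (Φ : Y → Matrix κ ι ℂ) (Ψ : Y → Matrix ι κ ℂ),
      Continuous Φ ∧ Continuous Ψ ∧ Eqv s ζ B.w A.w Φ ∧
      (∀ b, Ψ b * Φ b = A.e b ∧ Φ b * Ψ b = B.e b) ∧
      (∀ b, B.e b * Φ b = Φ b ∧ Φ b * A.e b = Φ b ∧ A.e b * Ψ b = Ψ b ∧ Ψ b * B.e b = Ψ b) := by
  obtain ⟨x, y, hx, hy, ex, ey, h⟩ := h
  refine ⟨fun b => B.e b * y b * A.e b, fun b => A.e b * x b * B.e b,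
    (B.cont.matrix_mul hy).matrix_mul A.cont, (A.cont.matrix_mul hx).matrix_mul B.cont,
    (B.eqv.mul ey).mul A.eqv, fun b => ⟨?_, ?_⟩, fun b => ⟨?_, ?_, ?_, ?_⟩⟩
  · have h1 := (h b).1
    have h2 := (h b).2
    have h3 := A.idem b
    have h4 := B.idem b
    calc A.e b * x b * B.e b * (B.e b * y b * A.e b)
        = A.e b * x b * (B.e b * B.e b) * y b * A.e b := by simp only [Matrix.mul_assoc]
      _ = A.e b * x b * (y b * x b) * y b * A.e b := by rw [h4, ← h2]
      _ = A.e b * (x b * y b) * (x b * y b) * A.e b := by simp only [Matrix.mul_assoc]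
      _ = A.e b := by rw [h1, h3, h3, h3]
  · have h1 := (h b).1
    have h2 := (h b).2
    have h3 := A.idem b
    have h4 := B.idem b
    calc B.e b * y b * A.e b * (A.e b * x b * B.e b)
        = B.e b * y b * (A.e b * A.e b) * x b * B.e b := by simp only [Matrix.mul_assoc]
      _ = B.e b * y b * (x b * y b) * x b * B.e b := by rw [h3, ← h1]
      _ = B.e b * (y b * x b) * (y b * x b) * B.e b := by simp only [Matrix.mul_assoc]
      _ = B.e b := by rw [h2, h4, h4, h4]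
  · rw [← Matrix.mul_assoc, ← Matrix.mul_assoc, B.idem]
  · rw [Matrix.mul_assoc, A.idem]
  · rw [← Matrix.mul_assoc, ← Matrix.mul_assoc, A.idem]
  · rw [Matrix.mul_assoc, B.idem]

/-- a family which is the sum of `n` shifted copies and a zero summand -/
lemma LG_tens {n M : ℕ} (hn : n ≤ M) {ι : Type} [Fintype ι] (E : Idf Y s ζ ι) (c : ℤ)
    (Q : Idf Y s ζ (Fin M × ι)) (hw : ∀ q, Q.w q = E.w q.2 + c * (q.1 : ℕ))
    (he : ∀ y p q, Q.e y p q = if p.1 = q.1 ∧ (p.1 : ℕ) < n then E.e y p.2 q.2 else 0) :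
    MvN Q (E.tens (fun i : Fin n => c * (i : ℕ))) := by
  classical
  have hx : Eqv s ζ Q.w (E.tens (fun i : Fin n => c * (i : ℕ))).w
      (fun y => (Matrix.of fun p q => if (p.1 : ℕ) = (q.1 : ℕ) then E.e y p.2 q.2 else 0 :
        Matrix (Fin M × ι) (Fin n × ι) ℂ)) := by
    intro y p q
    simp only [Matrix.of_apply, Idf.tens]
    by_cases h : (p.1 : ℕ) = (q.1 : ℕ)
    · rw [if_pos h, if_pos h, E.eqv y, hw, h]
      congr 3; ring
    · rw [if_neg h, if_neg h, mul_zero]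
  have hy : Eqv s ζ (E.tens (fun i : Fin n => c * (i : ℕ))).w Q.w
      (fun y => (Matrix.of fun q p => if (q.1 : ℕ) = (p.1 : ℕ) then E.e y q.2 p.2 else 0 :
        Matrix (Fin n × ι) (Fin M × ι) ℂ)) := by
    intro y q p
    simp only [Matrix.of_apply, Idf.tens]
    by_cases h : (q.1 : ℕ) = (p.1 : ℕ)
    · rw [if_pos h, if_pos h, E.eqv y, hw, ← h]
      congr 3; ring
    · rw [if_neg h, if_neg h, mul_zero]
  refine ⟨_, _, ?_, ?_, hx, hy, fun b => ⟨?_, ?_⟩⟩
  · refine continuous_matrix fun p q => ?_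
    by_cases h : (p.1 : ℕ) = (q.1 : ℕ)
    · simpa [h] using E.cont.matrix_elem p.2 q.2
    · simpa [h] using continuous_const
  · refine continuous_matrix fun q p => ?_
    by_cases h : (q.1 : ℕ) = (p.1 : ℕ)
    · simpa [h] using E.cont.matrix_elem q.2 p.2
    · simpa [h] using continuous_const
  · ext p q
    rw [Matrix.mul_apply, Fintype.sum_prod_type, he]
    simp only [Matrix.of_apply]
    by_cases h : p.1 = q.1 ∧ (p.1 : ℕ) < n
    · rw [if_pos h, Finset.sum_eq_single (⟨(p.1 : ℕ), h.2⟩ : Fin n)]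
      · have h1 : (p.1 : ℕ) = (q.1 : ℕ) := by rw [h.1]
        simp only [h1, if_true]
        rw [← Matrix.mul_apply, E.idem]
      · intro k _ hk
        refine Finset.sum_eq_zero fun i _ => ?_
        rw [if_neg (fun h2 => hk (Fin.ext h2.symm)), zero_mul]
      · intro h'; exact absurd (Finset.mem_univ _) h'
    · rw [if_neg h]
      refine Finset.sum_eq_zero fun k _ => Finset.sum_eq_zero fun i _ => ?_
      by_cases h1 : (p.1 : ℕ) = (k : ℕ)
      · by_cases h2 : (k : ℕ) = (q.1 : ℕ)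
        · exact absurd ⟨Fin.ext (h1.trans h2), h1 ▸ k.2⟩ h
        · rw [if_neg h2, mul_zero]
      · rw [if_neg h1, zero_mul]
  · ext p q
    rw [Matrix.mul_apply, Fintype.sum_prod_type]
    simp only [Matrix.of_apply, Idf.tens]
    by_cases h : p.1 = q.1
    · rw [if_pos h, Finset.sum_eq_single (⟨(p.1 : ℕ), lt_of_lt_of_le p.1.2 hn⟩ : Fin M)]
      · simp only [h, if_true]
        rw [← Matrix.mul_apply, E.idem]
      · intro k _ hk
        refine Finset.sum_eq_zero fun i _ => ?_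
        rw [if_neg (fun h2 => hk (Fin.ext h2.symm)), zero_mul]
      · intro h'; exact absurd (Finset.mem_univ _) h'
    · rw [if_neg h]
      refine Finset.sum_eq_zero fun k _ => Finset.sum_eq_zero fun i _ => ?_
      by_cases h1 : (p.1 : ℕ) = (k : ℕ)
      · by_cases h2 : (k : ℕ) = (q.1 : ℕ)
        · exact absurd (Fin.ext (h1.trans h2)) h
        · rw [if_neg h2, mul_zero]
      · rw [if_neg h1, zero_mul]

/-- the algebra of Lemma G -/
lemma LG_alg (c : ℤ) (n : ℕ) (e f q : KG Y s ζ) (h : e - T (c * n) f = q - T c q) :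
    e - f = T (-(c * n)) (q - ∑ i ∈ Finset.range n, T (c * (i : ℕ)) e) -
      T c (T (-(c * n)) (q - ∑ i ∈ Finset.range n, T (c * (i : ℕ)) e)) := by
  have h1 : T c (T (-(c * n)) (q - ∑ i ∈ Finset.range n, T (c * (i : ℕ)) e)) =
      T (-(c * n)) (T c q - ∑ i ∈ Finset.range n, T (c * ((i + 1 : ℕ) : ℤ)) e) := by
    rw [← T_add, add_comm, T_add]
    congr 1
    rw [map_sub, map_sum]
    congr 1
    refine Finset.sum_congr rfl fun i _ => ?_
    rw [← T_add]
    congr 2
    push_cast; ring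
  rw [h1, ← map_sub]
  have h2 : q - ∑ i ∈ Finset.range n, T (c * (i : ℕ)) e -
      (T c q - ∑ i ∈ Finset.range n, T (c * ((i + 1 : ℕ) : ℤ)) e) =
      T (c * n) (e - f) := by
    have h3 : ∑ i ∈ Finset.range n, T (c * (i : ℕ)) e -
        ∑ i ∈ Finset.range n, T (c * ((i + 1 : ℕ) : ℤ)) e = e - T (c * n) e := by
      rw [← Finset.sum_sub_distrib, Finset.sum_range_sub' (fun i : ℕ => T (c * (i : ℤ)) e)]
      simp [T_zero]
    rw [map_sub]
    calc _ = (q - T c q) - (∑ i ∈ Finset.range n, T (c * (i : ℕ)) e -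
        ∑ i ∈ Finset.range n, T (c * ((i + 1 : ℕ) : ℤ)) e) := by abel
      _ = _ := by rw [h3, ← h]; abel
  rw [h2, ← T_add, neg_add_cancel, T_zero]

end general

/-- Lemma G -/
theorem p_LG (hSPH : T_SPH) (hIND : T_IND) (hHOM : T_HOM) (hTENS : T_TENS) : T_LG := by
  intro Y _ _ s ζ c k x hx
  obtain ⟨n0, n1, E, F, rfl, hM⟩ := LG_norm (prE (k + 1) (ζ ^ c) s) x hx
  obtain ⟨Φ, Ψ, hΦc, hΨc, hΦe, h1, h2⟩ := LG_phi hM
  obtain ⟨j, hj, hjr, hj1⟩ := hSPH k
  have hcomp : CompactSpace (LG_Bl k) := LG_compact k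
  have hcj : Continuous (fun p : Circle × (LG_Bl k × Y) => (j (p.2.1, p.1), p.2.2)) := by
    refine Continuous.prodMk (hj.comp ?_) (continuous_snd.comp continuous_snd)
    exact (continuous_fst.comp continuous_snd).prodMk continuous_fst
  obtain ⟨n, Q, hQw, hQcls, hQe⟩ := hIND (LG_Bl k × Y) (LG_sX k (ζ ^ c) s) ζ n0 n1
    (E.pull (LG_prX k (ζ ^ c) s)) (F.pull (LG_prX k (ζ ^ c) s)) c
    (fun z p => Φ (j (p.1, z), p.2)) (fun z p => Ψ (j (p.1, z), p.2))
    {p | ‖(p.1.1 : EuclideanSpace ℂ (Fin k))‖ = 1}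
    (hΦc.comp hcj) (hΨc.comp hcj) (fun z p => h1 (j (p.1, z), p.2))
    (fun z p => h2 (j (p.1, z), p.2))
    (by
      intro z p i i'
      have e1 : (j ((LG_sX k (ζ ^ c) s p).1, ζ ^ c * z), (LG_sX k (ζ ^ c) s p).2) =
          srot (k + 1) (ζ ^ c) s (j (p.1, z), p.2) := by
        refine Prod.ext ?_ rfl
        exact hjr p.1 (LG_rotB (ζ ^ c) p.1) z (ζ ^ c) rfl
      change Φ (j ((LG_sX k (ζ ^ c) s p).1, ζ ^ c * z), (LG_sX k (ζ ^ c) s p).2) i i' = _
      rw [e1]
      exact hΦe _ i i')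
    (by
      intro p hp z
      rw [hj1 p.1 hp z])
  set io := LG_io k (ζ ^ c) s with hio
  have hq : E.cls - T (c * n) F.cls = pull io Q.cls - T c (pull io Q.cls) := by
    have h3 := congrArg (pull io) hQcls
    rw [map_sub, map_sub, pull_T, pull_T, pull_cls io (E.pull _), pull_cls io (F.pull _)] at h3
    exact h3
  refine ⟨_, LG_alg c n E.cls F.cls _ hq, ?_⟩
  rw [pull_T, map_sub, map_sum]
  have h4 : pull (prE k (ζ ^ c) s) (pull io Q.cls) = (Q.pull (LG_in k (ζ ^ c) s)).cls := by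
    rw [pull_pull, ← pull_cls]
    refine hHOM (Sph k × Y) (srot k (ζ ^ c) s) (LG_Bl k × Y) (LG_sX k (ζ ^ c) s) ζ (LG_h k)
      (LG_h_cont k) (LG_h_eqv k (ζ ^ c) s) _ _ ?_ ?_ _
    · intro p
      refine Prod.ext (Subtype.ext ?_) rfl
      simp [LG_h, EMap.comp, io, LG_io, prE]
    · intro p
      refine Prod.ext (Subtype.ext ?_) rfl
      simp [LG_h, LG_in]
  have h5 : (Q.pull (LG_in k (ζ ^ c) s)).cls =
      ∑ i : Fin n, T (c * (i : ℕ)) (E.pull (prE k (ζ ^ c) s)).cls := by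
    rw [← hTENS]
    refine cls_of_MvN (LG_tens (by omega) _ c _ (fun q => hQw q) (fun y p q => ?_))
    refine hQe _ ?_ p q
    have := y.1.2
    rw [mem_sphere_zero_iff_norm] at this
    exact this
  rw [h4, h5, Fin.sum_univ_eq_sum_range
    (fun i : ℕ => T (c * (i : ℤ)) (E.pull (prE k (ζ ^ c) s)).cls) n]
  have h6 : ∑ i ∈ Finset.range n, pull (prE k (ζ ^ c) s) (T (c * (i : ℕ)) E.cls) =
      ∑ i ∈ Finset.range n, T (c * (i : ℤ)) (E.pull (prE k (ζ ^ c) s)).cls :=
    Finset.sum_congr rfl fun i _ => by rw [pull_T, pull_cls]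
  rw [h6, sub_self, map_zero]

end

end INJ
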