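import Pool.Agent.INJ.KTargets

set_option autoImplicit false

/-!
# INJ: target LGI, Lemma G iterated
-/

namespace INJ

theorem p_LGI (h : T_LG) : T_LGI := by
  intro Y _ _ s ζ c k
  induction k with
  | zero =>
    intro x _
    exact ⟨x, rfl⟩
  | succ k ih =>
    intro x hx
    obtain ⟨y, hy, hy0⟩ := h Y s ζ c k x hx
    obtain ⟨y', rfl⟩ := ih y hy0
    exact ⟨y', hy⟩

end INJ
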