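import Pool.Agent.INJ.MTargets

set_option autoImplicit false

/-!
# INJ, target LIM: limits of the time change
-/

namespace INJ

open Quaternion Filter Topology

noncomputable section

lemma LIM_nn (hK : T_KAP) (k : ℕ) : (nn (ak k) : ℝ) = 16 ^ (k + 1) := by
  rw [hK.2.2.1 k]; push_cast; ring

lemma LIM_Fnew (k : ℕ) : Continuous (fun p : ℝ × ℍ[ℝ] => Fnew k p.1 p.2) := by
  unfold Fnew ss
  have h : Continuous (fun p : ℝ × ℍ[ℝ] => (10 : ℝ) ^ ((nn (ak k) : ℝ) * p.1 + 1 / 2)) :=
    Continuous.rpow continuous_const (by fun_prop) fun p => Or.inl (by norm_num)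
  exact continuous_const.add (h.smul continuous_snd)

lemma LIM_st (hS : T_STC) (k : ℕ) :
    Continuous (fun p : ℝ × (ℕ → ℍ[ℝ]) => (st p.1 p.2 k).1) ∧
    Continuous (fun p : ℝ × (ℕ → ℍ[ℝ]) => (st p.1 p.2 k).2) := by
  induction k with
  | zero => exact ⟨continuous_fst, continuous_const⟩
  | succ k ih =>
    have h1 : Continuous (fun p : ℝ × (ℕ → ℍ[ℝ]) =>
        Function.update (st p.1 p.2 k).2 k (Fnew k (st p.1 p.2 k).1 (p.2 k))) := by
      refine ih.2.update k ?_
      have h2 : Continuous (fun p : ℝ × (ℕ → ℍ[ℝ]) => ((st p.1 p.2 k).1, p.2 k)) :=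
        ih.1.prodMk ((continuous_apply k).comp continuous_snd)
      exact (LIM_Fnew k).comp h2
    refine ⟨?_, h1⟩
    exact (hS.1 k).comp (ih.1.prodMk h1)

lemma LIM_Finf (hS : T_STC) (k : ℕ) :
    Continuous (fun p : ℝ × (ℕ → ℍ[ℝ]) => Finf p.1 p.2 k) :=
  (continuous_apply k).comp (LIM_st hS (k + 1)).2

/-- a sequence with geometric increments -/
lemma LIM_seq (u : ℕ → ℝ) (h : ∀ k, |u (k + 1) - u k| ≤ 3 / 16 ^ (k + 1)) :
    ∃ l, Tendsto u atTop (nhds l) ∧ ∀ k, |l - u k| ≤ 4 / 16 ^ (k + 1) := by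
  have h1 : ∀ k m, |u (k + m) - u k| ≤ 16 / 5 / 16 ^ (k + 1) * (1 - (1 / 16) ^ m) := by
    intro k m
    induction m with
    | zero => simp
    | succ m ih =>
      have h2 := h (k + m)
      have h3 : u (k + (m + 1)) - u k = (u (k + m + 1) - u (k + m)) + (u (k + m) - u k) := by
        rw [← add_assoc]; ring
      rw [h3]
      refine (abs_add_le _ _).trans ((add_le_add h2 ih).trans (le_of_eq ?_))
      rw [pow_succ (1 / 16 : ℝ) m, show k + m + 1 = (k + 1) + m by ring, pow_add, one_div, inv_pow]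
      field_simp
      ring
  have h4 : ∀ k m, |u (k + m) - u k| ≤ 16 / 5 / 16 ^ (k + 1) := by
    intro k m
    refine (h1 k m).trans ?_
    have h5 : (0 : ℝ) < 16 / 5 / 16 ^ (k + 1) := by positivity
    have h6 : (0 : ℝ) ≤ (1 / 16) ^ m := by positivity
    nlinarith
  have hc : CauchySeq u := by
    refine cauchySeq_of_le_tendsto_0 (fun k => 2 * (16 / 5 / 16 ^ (k + 1))) ?_ ?_
    · intro n m k hn hm
      obtain ⟨a, rfl⟩ := Nat.exists_eq_add_of_le hn
      obtain ⟨b, rfl⟩ := Nat.exists_eq_add_of_le hm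
      have ha := h4 k a
      have hb := h4 k b
      rw [Real.dist_eq]
      have h7 : u (k + a) - u (k + b) = (u (k + a) - u k) - (u (k + b) - u k) := by ring
      rw [h7]
      refine (abs_sub _ _).trans ?_
      linarith
    · have h8 : Tendsto (fun k : ℕ => (1 / 16 : ℝ) ^ (k + 1)) atTop (nhds 0) :=
        (tendsto_add_atTop_iff_nat 1).2
          (tendsto_pow_atTop_nhds_zero_of_lt_one (by norm_num) (by norm_num))
      have h9 := h8.const_mul (2 * (16 / 5 : ℝ))
      rw [mul_zero] at h9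
      refine h9.congr fun k => ?_
      rw [one_div, inv_pow]
      field_simp
  obtain ⟨l, hl⟩ := cauchySeq_tendsto_of_complete hc
  refine ⟨l, hl, fun k => ?_⟩
  have h10 : Tendsto (fun m => |u (k + m) - u k|) atTop (nhds |l - u k|) := by
    have h11 : Tendsto (fun m => u (k + m)) atTop (nhds l) :=
      hl.comp (tendsto_atTop_mono (fun m => Nat.le_add_left m k) tendsto_id)
    exact (h11.sub_const _).abs
  refine (le_of_tendsto' h10 (h4 k)).trans ?_
  gcongr
  norm_num

lemma LIM_ss_cont (a : ℕ × ℕ) : Continuous (ss a) := by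
  unfold ss; fun_prop

/-- limits: convergence, continuity, membership -/
theorem p_LIM (hK : T_KAP) (hS : T_STC) (hQ : T_SEQ) : T_LIM := by
  have key : ∀ (t : ℝ) (w : ℕ → ℍ[ℝ]), (∀ k, ‖w k‖ ≤ 1) →
      Tendsto (fun k => (st t w k).1) atTop (nhds (tinf t w)) ∧
      (∀ k, |tinf t w - (st t w k).1| ≤ 4 / nn (ak k)) := by
    intro t w hw
    obtain ⟨l, hl, hl2⟩ := LIM_seq (fun k => (st t w k).1) (by
      intro k
      have := (hQ t w hw).2.2.2 k
      rw [LIM_nn hK] at this
      exact this)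
    have h1 : tinf t w = l := hl.limUnder_eq
    rw [h1]
    refine ⟨hl, fun k => ?_⟩
    rw [LIM_nn hK]
    exact hl2 k
  refine ⟨?_, ?_, LIM_Finf hS⟩
  · intro t w hw
    refine ⟨(key t w hw).1, (key t w hw).2, fun k => ?_⟩
    by_cases h : Finf t w k = rho
    · exact Or.inl h
    · right
      have h1 : Tendsto (fun m => ss (ak k) (st t w m).1) atTop
          (nhds (ss (ak k) (tinf t w))) :=
        ((LIM_ss_cont (ak k)).tendsto _).comp (key t w hw).1
      refine ge_of_tendsto h1 ?_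
      filter_upwards [eventually_gt_atTop k] with m hm
      rcases ((hQ t w hw).1 m).1 k hm with h2 | h2
      · exact absurd h2 h
      · exact h2
  · have hu : TendstoUniformlyOn (fun (k : ℕ) (p : ℝ × (ℕ → ℍ[ℝ])) => (st p.1 p.2 k).1)
        (fun p => tinf p.1 p.2) atTop {p | ∀ k, ‖p.2 k‖ ≤ 1} := by
      rw [Metric.tendstoUniformlyOn_iff]
      intro ε hε
      have h8 : Tendsto (fun k : ℕ => 4 * (1 / 16 : ℝ) ^ (k + 1)) atTop (nhds (4 * 0)) :=
        ((tendsto_add_atTop_iff_nat 1).2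
          (tendsto_pow_atTop_nhds_zero_of_lt_one (by norm_num) (by norm_num))).const_mul 4
      rw [mul_zero] at h8
      filter_upwards [h8.eventually_lt_const hε] with k hk p hp
      rw [Real.dist_eq]
      refine ((key p.1 p.2 hp).2 k).trans_lt ?_
      rw [LIM_nn hK]
      refine lt_of_le_of_lt (le_of_eq ?_) hk
      rw [one_div, inv_pow]
      field_simp
    exact hu.continuousOn (Frequently.of_forall fun k => (LIM_st hS k).1.continuousOn)

end

end INJ
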