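import Pool.Agent.INJ.KTargets

set_option autoImplicit false
set_option linter.unusedSectionVars false

/-!
# INJ: the linearised pencil (target `T_LIN`)
-/

namespace INJ

open Matrix

noncomputable section

variable {ι κ : Type} [Fintype ι] [Fintype κ]

/-- the blocks of the inverse -/
def LIN_V (m : ℕ) (e0 : Matrix ι ι ℂ) (a : ℕ → Matrix κ ι ℂ) (P : Matrix ι κ ℂ) (z : ℂ)
    (p q : ℕ) : Matrix ι ι ℂ :=
  (if q ≤ p then z ^ (p - q) • e0 else 0) -
    z ^ p • ∑ l ∈ Finset.range (m + 1), if q ≤ l then z ^ (l - q) • (P * a l) else 0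

/-- the tails of the polynomial -/
def LIN_W (m : ℕ) (a : ℕ → Matrix κ ι ℂ) (z : ℂ) (q : ℕ) : Matrix κ ι ℂ :=
  ∑ l ∈ Finset.range (m + 1), if q ≤ l then z ^ (l - q) • a l else 0

lemma LIN_V_eq (m : ℕ) (e0 : Matrix ι ι ℂ) (a : ℕ → Matrix κ ι ℂ) (P : Matrix ι κ ℂ) (z : ℂ)
    (p q : ℕ) : LIN_V m e0 a P z p q =
      (if q ≤ p then z ^ (p - q) • e0 else 0) - z ^ p • (P * LIN_W m a z q) := by
  unfold LIN_V LIN_W
  rw [Matrix.mul_sum]
  congr 2
  refine Finset.sum_congr rfl fun l _ => ?_
  split_ifs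
  · rw [Matrix.mul_smul]
  · rw [Matrix.mul_zero]

lemma LIN_W_step (m : ℕ) (a : ℕ → Matrix κ ι ℂ) (z : ℂ) (q : ℕ) (hq : q ≤ m) :
    LIN_W m a z q = a q + z • LIN_W m a z (q + 1) := by
  unfold LIN_W
  have h1 : ∀ l ∈ Finset.range (m + 1), (if q ≤ l then z ^ (l - q) • a l else 0) =
      (if l = q then a q else 0) + z • (if q + 1 ≤ l then z ^ (l - (q + 1)) • a l else 0) := by
    intro l _
    rcases lt_trichotomy l q with h | h | h
    · rw [if_neg (by omega), if_neg (by omega), if_neg (by omega), smul_zero, add_zero]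
    · subst h
      rw [if_pos le_rfl, if_pos rfl, if_neg (by omega), Nat.sub_self, pow_zero, one_smul,
        smul_zero, add_zero]
    · rw [if_pos h.le, if_neg (by omega), if_pos (by omega), zero_add, smul_smul,
        ← pow_succ', show l - (q + 1) + 1 = l - q by omega]
  rw [Finset.sum_congr rfl h1, Finset.sum_add_distrib, Finset.sum_ite_eq' (Finset.range (m + 1)) q,
    if_pos (Finset.mem_range.2 (by omega)), Finset.smul_sum]

lemma LIN_V_step (m : ℕ) (e0 : Matrix ι ι ℂ) (a : ℕ → Matrix κ ι ℂ) (P : Matrix ι κ ℂ) (z : ℂ)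
    (p q : ℕ) (hq : q ≤ m) : z ^ p • (P * a q) + LIN_V m e0 a P z p q
      - z • LIN_V m e0 a P z p (q + 1) = if p = q then e0 else 0 := by
  rw [LIN_V_eq, LIN_V_eq, LIN_W_step m a z q hq, Matrix.mul_add, Matrix.mul_smul, smul_add,
    smul_sub]
  have h2 : z • z ^ p • (P * LIN_W m a z (q + 1)) = z ^ p • z • (P * LIN_W m a z (q + 1)) := by
    rw [smul_smul, smul_smul, mul_comm]
  rw [h2]
  rcases lt_trichotomy p q with h | h | h
  · rw [if_neg (by omega), if_neg (by omega), if_neg (by omega), smul_zero]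
    abel
  · subst h
    rw [if_pos le_rfl, if_neg (by omega), if_pos rfl, Nat.sub_self, pow_zero, one_smul, smul_zero]
    abel
  · rw [if_pos h.le, if_pos (by omega), if_neg (by omega), smul_smul z (z ^ (p - (q + 1))),
      ← pow_succ', show p - (q + 1) + 1 = p - q by omega]
    abel

lemma LIN_W_last (m : ℕ) (a : ℕ → Matrix κ ι ℂ) (z : ℂ) : LIN_W m a z (m + 1) = 0 := by
  unfold LIN_W
  refine Finset.sum_eq_zero fun l hl => ?_
  rw [Finset.mem_range] at hl
  rw [if_neg (by omega)]

lemma LIN_V_last (m : ℕ) (e0 : Matrix ι ι ℂ) (a : ℕ → Matrix κ ι ℂ) (P : Matrix ι κ ℂ) (z : ℂ)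
    (p : ℕ) (hp : p ≤ m) : LIN_V m e0 a P z p (m + 1) = 0 := by
  rw [LIN_V_eq, LIN_W_last, if_neg (by omega), Matrix.mul_zero, smul_zero, sub_zero]

lemma LIN_W_zero (m : ℕ) (a : ℕ → Matrix κ ι ℂ) (z : ℂ) :
    LIN_W m a z 0 = ∑ l ∈ Finset.range (m + 1), z ^ l • a l := by
  unfold LIN_W
  refine Finset.sum_congr rfl fun l _ => ?_
  rw [if_pos (Nat.zero_le _), Nat.sub_zero]

lemma LIN_V_zero (m : ℕ) (e0 : Matrix ι ι ℂ) (a : ℕ → Matrix κ ι ℂ) (P : Matrix ι κ ℂ) (z : ℂ)
    (h : P * (∑ l ∈ Finset.range (m + 1), z ^ l • a l) = e0) (p : ℕ) :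
    LIN_V m e0 a P z p 0 = 0 := by
  rw [LIN_V_eq, LIN_W_zero, h, if_pos (Nat.zero_le _), Nat.sub_zero, sub_self]

lemma LIN_sum_cast (m : ℕ) (q : Fin (m + 1)) (f : ℕ → ℂ) :
    (∑ t : Fin m, if q = t.castSucc then f t else 0) = if (q : ℕ) < m then f q else 0 := by
  by_cases h : (q : ℕ) < m
  · rw [if_pos h, Finset.sum_eq_single (⟨q, h⟩ : Fin m)]
    · rw [if_pos (Fin.ext rfl : q = (⟨q, h⟩ : Fin m).castSucc)]
    · intro t _ ht
      rw [if_neg]
      intro h1
      have h2 := congrArg Fin.val h1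
      simp only [Fin.val_castSucc] at h2
      exact ht (Fin.ext (by simp only; omega))
    · intro h1
      exact absurd (Finset.mem_univ _) h1
  · rw [if_neg h]
    refine Finset.sum_eq_zero fun t _ => ?_
    rw [if_neg]
    intro h1
    apply h
    rw [h1]
    exact t.2

lemma LIN_sum_succ (m : ℕ) (q : Fin (m + 1)) (f : ℕ → ℂ) :
    (∑ t : Fin m, if q = t.succ then f ((t : ℕ) + 1) else 0) = if 0 < (q : ℕ) then f q else 0 := by
  by_cases h : 0 < (q : ℕ)
  · have hq := q.2
    rw [if_pos h, Finset.sum_eq_single (⟨(q : ℕ) - 1, by omega⟩ : Fin m)]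
    · rw [if_pos (Fin.ext (by simp only [Fin.val_succ]; omega) :
        q = (⟨(q : ℕ) - 1, by omega⟩ : Fin m).succ)]
      congr 1
      simp only
      omega
    · intro t _ ht
      rw [if_neg]
      intro h1
      have h2 := congrArg Fin.val h1
      simp only [Fin.val_succ] at h2
      exact ht (Fin.ext (by simp only; omega))
    · intro h1
      exact absurd (Finset.mem_univ _) h1
  · rw [if_neg h]
    refine Finset.sum_eq_zero fun t _ => ?_
    rw [if_neg]
    intro h1
    apply h
    rw [h1]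
    simp

set_option maxHeartbeats 4000000 in
/-- LIN -/
theorem p_LIN : T_LIN := by
  intro ι κ _ _ _ m e0 e1 a P z _ h00 h11 ha hPS hSP hPe A B R F0 F1
  have he0P : e0 * P = P := by
    rw [← hPS, Matrix.mul_assoc, hSP, hPe]
  have hVe : ∀ p q, LIN_V m e0 a P z p q * e0 = LIN_V m e0 a P z p q := by
    intro p q
    unfold LIN_V
    rw [Matrix.sub_mul, Matrix.smul_mul, Matrix.sum_mul]
    congr 2
    · split_ifs
      · rw [Matrix.smul_mul, h00]
      · rw [Matrix.zero_mul]
    · refine Finset.sum_congr rfl fun l _ => ?_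
      split_ifs
      · rw [Matrix.smul_mul, Matrix.mul_assoc, (ha l).2]
      · rw [Matrix.zero_mul]
  have heV : ∀ p q, e0 * LIN_V m e0 a P z p q = LIN_V m e0 a P z p q := by
    intro p q
    rw [LIN_V_eq, Matrix.mul_sub, Matrix.mul_smul, ← Matrix.mul_assoc, he0P]
    congr 1
    split_ifs
    · rw [Matrix.mul_smul, h00]
    · rw [Matrix.mul_zero]
  have heW : ∀ q, e1 * LIN_W m a z q = LIN_W m a z q := by
    intro q
    unfold LIN_W
    rw [Matrix.mul_sum]
    refine Finset.sum_congr rfl fun l _ => ?_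
    split_ifs
    · rw [Matrix.mul_smul, (ha l).1]
    · rw [Matrix.mul_zero]
  have hAB1 : ∀ g q, (z • A + B) (Sum.inl g) q = a q.1 g q.2 := by
    intro g q
    simp [A, B]
  have hAB2 : ∀ (t : Fin m × ι) q, (z • A + B) (Sum.inr t) q =
      (if q.1 = t.1.castSucc then -(z * e0 t.2 q.2) else 0) +
        (if q.1 = t.1.succ then e0 t.2 q.2 else 0) := by
    intro t q
    rw [Matrix.add_apply, Matrix.smul_apply]
    simp only [A, B, Matrix.of_apply, Sum.elim_inr, smul_eq_mul]
    congr 1
    split_ifs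
    · ring
    · ring
  have hR1 : ∀ q g, R q (Sum.inl g) = z ^ (q.1 : ℕ) * P q.2 g := fun q g => rfl
  have hR2 : ∀ q (t : Fin m × ι), R q (Sum.inr t) =
      LIN_V m e0 a P z (q.1 : ℕ) ((t.1 : ℕ) + 1) q.2 t.2 := by
    intro q t
    simp only [R, Matrix.of_apply, Sum.elim_inr]
    unfold LIN_V
    rw [Matrix.sub_apply, Matrix.smul_apply, Matrix.sum_apply, smul_eq_mul]
    congr 1
    · by_cases h : (t.1 : ℕ) < q.1
      · rw [if_pos h, if_pos (by omega), Matrix.smul_apply, smul_eq_mul]
      · rw [if_neg h, if_neg (by omega), Matrix.zero_apply]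
    · congr 1
      refine Finset.sum_congr rfl fun l _ => ?_
      by_cases h : (t.1 : ℕ) < l
      · rw [if_pos h, if_pos (by omega), Matrix.smul_apply, smul_eq_mul]
      · rw [if_neg h, if_neg (by omega), Matrix.zero_apply]
  refine ⟨?_, ?_, ?_⟩
  · ext p q
    rw [Matrix.mul_apply, Fintype.sum_sum_type]
    have s1 : ∑ g : κ, R p (Sum.inl g) * (z • A + B) (Sum.inl g) q =
        (z ^ (p.1 : ℕ) • (P * a q.1)) p.2 q.2 := by
      rw [Matrix.smul_apply, Matrix.mul_apply, smul_eq_mul, Finset.mul_sum]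
      refine Finset.sum_congr rfl fun g _ => ?_
      rw [hR1, hAB1, mul_assoc]
    have s2 : ∑ t : Fin m × ι, R p (Sum.inr t) * (z • A + B) (Sum.inr t) q =
        (∑ t : Fin m, if q.1 = t.castSucc then
          (fun i : ℕ => -(z * LIN_V m e0 a P z (p.1 : ℕ) (i + 1) p.2 q.2)) t else 0) +
        ∑ t : Fin m, if q.1 = t.succ then
          (fun i : ℕ => LIN_V m e0 a P z (p.1 : ℕ) i p.2 q.2) ((t : ℕ) + 1) else 0 := by
      rw [Fintype.sum_prod_type, ← Finset.sum_add_distrib]
      refine Finset.sum_congr rfl fun t _ => ?_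
      have h3 : LIN_V m e0 a P z (p.1 : ℕ) ((t : ℕ) + 1) p.2 q.2 =
          ∑ j, LIN_V m e0 a P z (p.1 : ℕ) ((t : ℕ) + 1) p.2 j * e0 j q.2 := by
        conv_lhs => rw [← hVe]
        rw [Matrix.mul_apply]
      have h4 : ∀ j : ι, R p (Sum.inr (t, j)) * (z • A + B) (Sum.inr (t, j)) q =
          (if q.1 = t.castSucc then -(z *
            (LIN_V m e0 a P z (p.1 : ℕ) ((t : ℕ) + 1) p.2 j * e0 j q.2)) else 0) +
          (if q.1 = t.succ then
            LIN_V m e0 a P z (p.1 : ℕ) ((t : ℕ) + 1) p.2 j * e0 j q.2 else 0) := by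
        intro j
        rw [hR2, hAB2]
        simp only
        split_ifs
        · ring
        · ring
        · ring
        · ring
      rw [Finset.sum_congr rfl fun j _ => h4 j, Finset.sum_add_distrib]
      simp only
      rw [h3]
      congr 1
      · split_ifs
        · rw [Finset.sum_neg_distrib, Finset.mul_sum]
        · rw [Finset.sum_const_zero]
      · split_ifs
        · rfl
        · rw [Finset.sum_const_zero]
    rw [s1, s2, LIN_sum_cast m q.1 (fun i : ℕ => -(z * LIN_V m e0 a P z (p.1 : ℕ) (i + 1) p.2 q.2)),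
      LIN_sum_succ m q.1 (fun i : ℕ => LIN_V m e0 a P z (p.1 : ℕ) i p.2 q.2)]
    have hp : (p.1 : ℕ) ≤ m := Nat.lt_succ_iff.1 p.1.2
    have hq : (q.1 : ℕ) ≤ m := Nat.lt_succ_iff.1 q.1.2
    have h5 := congrFun (congrFun (LIN_V_step m e0 a P z (p.1 : ℕ) (q.1 : ℕ) hq) p.2) q.2
    rw [Matrix.sub_apply, Matrix.add_apply, Matrix.smul_apply (z)] at h5
    have h6 : (if (q.1 : ℕ) < m then (fun i : ℕ =>
        -(z * LIN_V m e0 a P z (p.1 : ℕ) (i + 1) p.2 q.2)) (q.1 : ℕ) else 0) =
        -(z * LIN_V m e0 a P z (p.1 : ℕ) ((q.1 : ℕ) + 1) p.2 q.2) := by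
      split_ifs with h
      · rfl
      · have h7 : (q.1 : ℕ) = m := by omega
        rw [h7, LIN_V_last m e0 a P z _ hp, Matrix.zero_apply, mul_zero, neg_zero]
    have h8 : (if 0 < (q.1 : ℕ) then (fun i : ℕ =>
        LIN_V m e0 a P z (p.1 : ℕ) i p.2 q.2) (q.1 : ℕ) else 0) =
        LIN_V m e0 a P z (p.1 : ℕ) (q.1 : ℕ) p.2 q.2 := by
      split_ifs with h
      · rfl
      · have h7 : (q.1 : ℕ) = 0 := by omega
        rw [h7, LIN_V_zero m e0 a P z hPS, Matrix.zero_apply]
    rw [h6, h8]
    have h9 : F0 p q = (if (p.1 : ℕ) = (q.1 : ℕ) then e0 else 0) p.2 q.2 := by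
      simp only [F0, Matrix.of_apply]
      by_cases h : p.1 = q.1
      · rw [if_pos h, if_pos (by rw [h])]
      · rw [if_neg h, if_neg (fun h' => h (Fin.ext h')), Matrix.zero_apply]
    rw [h9, ← h5, smul_eq_mul]
    ring
  · ext r c
    rw [Matrix.mul_apply, Fintype.sum_prod_type]
    rcases r with g | s
    · rcases c with g' | t
      · have h1 : F1 (Sum.inl g) (Sum.inl g') = e1 g g' := rfl
        rw [h1, ← hSP, Matrix.sum_mul, Matrix.sum_apply, Finset.sum_range]
        refine Finset.sum_congr rfl fun l _ => ?_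
        rw [Matrix.smul_mul, Matrix.smul_apply, Matrix.mul_apply, smul_eq_mul, Finset.mul_sum]
        refine Finset.sum_congr rfl fun j _ => ?_
        rw [hAB1, hR1]
        simp only
        ring
      · have h1 : F1 (Sum.inl g) (Sum.inr t) = 0 := rfl
        rw [h1]
        have h2 : ∑ x : Fin (m + 1), ∑ y : ι, (z • A + B) (Sum.inl g) (x, y) *
            R (x, y) (Sum.inr t) =
            (∑ l ∈ Finset.range (m + 1), a l * LIN_V m e0 a P z l ((t.1 : ℕ) + 1)) g t.2 := by
          rw [Matrix.sum_apply, Finset.sum_range]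
          refine Finset.sum_congr rfl fun l _ => ?_
          rw [Matrix.mul_apply]
          refine Finset.sum_congr rfl fun j _ => ?_
          rw [hAB1, hR2]
        rw [h2]
        have h3 : ∑ l ∈ Finset.range (m + 1), a l * LIN_V m e0 a P z l ((t.1 : ℕ) + 1) = 0 := by
          have h4 : ∀ l ∈ Finset.range (m + 1), a l * LIN_V m e0 a P z l ((t.1 : ℕ) + 1) =
              (if (t.1 : ℕ) + 1 ≤ l then z ^ (l - ((t.1 : ℕ) + 1)) • a l else 0) -
                (z ^ l • a l) * (P * LIN_W m a z ((t.1 : ℕ) + 1)) := by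
            intro l _
            rw [LIN_V_eq, Matrix.mul_sub, Matrix.mul_smul, Matrix.smul_mul]
            congr 1
            split_ifs
            · rw [Matrix.mul_smul, (ha l).2]
            · rw [Matrix.mul_zero]
          rw [Finset.sum_congr rfl h4, Finset.sum_sub_distrib, ← Matrix.sum_mul,
            ← Matrix.mul_assoc, hSP, heW]
          exact sub_self _
        rw [h3, Matrix.zero_apply]
    · have key : ∀ f : ℕ → Matrix ι ι ℂ, ∀ j : ι,
          (∑ x : Fin (m + 1), ∑ y : ι, (z • A + B) (Sum.inr s) (x, y) * f x y j) =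
          (e0 * f ((s.1 : ℕ) + 1) - z • (e0 * f (s.1 : ℕ))) s.2 j := by
        intro f j
        rw [Matrix.sub_apply, Matrix.smul_apply, Matrix.mul_apply, Matrix.mul_apply, smul_eq_mul]
        have h1 : ∀ x : Fin (m + 1), ∑ y : ι, (z • A + B) (Sum.inr s) (x, y) * f x y j =
            (if x = s.1.castSucc then -(z * ∑ y, e0 s.2 y * f x y j) else 0) +
            (if x = s.1.succ then ∑ y, e0 s.2 y * f x y j else 0) := by
          intro x
          have h2 : ∀ y : ι, (z • A + B) (Sum.inr s) (x, y) * f x y j =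
              (if x = s.1.castSucc then -(z * (e0 s.2 y * f x y j)) else 0) +
              (if x = s.1.succ then e0 s.2 y * f x y j else 0) := by
            intro y
            rw [hAB2]
            simp only
            split_ifs
            · ring
            · ring
            · ring
            · ring
          rw [Finset.sum_congr rfl fun y _ => h2 y, Finset.sum_add_distrib]
          congr 1
          · split_ifs
            · rw [Finset.sum_neg_distrib, Finset.mul_sum]
            · rw [Finset.sum_const_zero]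
          · split_ifs
            · rfl
            · rw [Finset.sum_const_zero]
        rw [Finset.sum_congr rfl fun x _ => h1 x, Finset.sum_add_distrib,
          Finset.sum_ite_eq' Finset.univ s.1.castSucc, Finset.sum_ite_eq' Finset.univ s.1.succ,
          if_pos (Finset.mem_univ _), if_pos (Finset.mem_univ _)]
        simp only [Fin.val_castSucc, Fin.val_succ]
        ring
      have key2 : ∀ f : ℕ → Matrix ι κ ℂ, ∀ j : κ,
          (∑ x : Fin (m + 1), ∑ y : ι, (z • A + B) (Sum.inr s) (x, y) * f x y j) =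
          (e0 * f ((s.1 : ℕ) + 1) - z • (e0 * f (s.1 : ℕ))) s.2 j := by
        intro f j
        rw [Matrix.sub_apply, Matrix.smul_apply, Matrix.mul_apply, Matrix.mul_apply, smul_eq_mul]
        have h1 : ∀ x : Fin (m + 1), ∑ y : ι, (z • A + B) (Sum.inr s) (x, y) * f x y j =
            (if x = s.1.castSucc then -(z * ∑ y, e0 s.2 y * f x y j) else 0) +
            (if x = s.1.succ then ∑ y, e0 s.2 y * f x y j else 0) := by
          intro x
          have h2 : ∀ y : ι, (z • A + B) (Sum.inr s) (x, y) * f x y j =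
              (if x = s.1.castSucc then -(z * (e0 s.2 y * f x y j)) else 0) +
              (if x = s.1.succ then e0 s.2 y * f x y j else 0) := by
            intro y
            rw [hAB2]
            simp only
            split_ifs
            · ring
            · ring
            · ring
            · ring
          rw [Finset.sum_congr rfl fun y _ => h2 y, Finset.sum_add_distrib]
          congr 1
          · split_ifs
            · rw [Finset.sum_neg_distrib, Finset.mul_sum]
            · rw [Finset.sum_const_zero]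
          · split_ifs
            · rfl
            · rw [Finset.sum_const_zero]
        rw [Finset.sum_congr rfl fun x _ => h1 x, Finset.sum_add_distrib,
          Finset.sum_ite_eq' Finset.univ s.1.castSucc, Finset.sum_ite_eq' Finset.univ s.1.succ,
          if_pos (Finset.mem_univ _), if_pos (Finset.mem_univ _)]
        simp only [Fin.val_castSucc, Fin.val_succ]
        ring
      rcases c with g' | t
      · have h1 : F1 (Sum.inr s) (Sum.inl g') = 0 := rfl
        rw [h1]
        have h2 := key2 (fun l => z ^ l • P) g'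
        have h3 : ∀ x : Fin (m + 1), ∀ y : ι, (z • A + B) (Sum.inr s) (x, y) *
            R (x, y) (Sum.inl g') = (z • A + B) (Sum.inr s) (x, y) *
            (fun l : ℕ => z ^ l • P) x y g' := by
          intro x y
          rw [hR1]
          simp only [Matrix.smul_apply, smul_eq_mul]
        rw [Finset.sum_congr rfl fun x _ => Finset.sum_congr rfl fun y _ => h3 x y, h2]
        rw [Matrix.mul_smul, Matrix.mul_smul, smul_smul, ← pow_succ', sub_self,
          Matrix.zero_apply]
      · have h1 : F1 (Sum.inr s) (Sum.inr t) = if s.1 = t.1 then e0 s.2 t.2 else 0 := rfl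
        rw [h1]
        have h2 := key (fun l => LIN_V m e0 a P z l ((t.1 : ℕ) + 1)) t.2
        have h3 : ∀ x : Fin (m + 1), ∀ y : ι, (z • A + B) (Sum.inr s) (x, y) *
            R (x, y) (Sum.inr t) = (z • A + B) (Sum.inr s) (x, y) *
            (fun l : ℕ => LIN_V m e0 a P z l ((t.1 : ℕ) + 1)) x y t.2 := by
          intro x y
          rw [hR2]
        rw [Finset.sum_congr rfl fun x _ => Finset.sum_congr rfl fun y _ => h3 x y, h2]
        rw [heV, heV]
        have h4 : LIN_V m e0 a P z ((s.1 : ℕ) + 1) ((t.1 : ℕ) + 1) -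
            z • LIN_V m e0 a P z (s.1 : ℕ) ((t.1 : ℕ) + 1) =
            if (s.1 : ℕ) = (t.1 : ℕ) then e0 else 0 := by
          rw [LIN_V_eq, LIN_V_eq, smul_sub, smul_smul z (z ^ (s.1 : ℕ)), ← pow_succ']
          rcases lt_trichotomy (s.1 : ℕ) (t.1 : ℕ) with h | h | h
          · rw [if_neg (by omega), if_neg (by omega), if_neg (by omega), smul_zero]
            abel
          · rw [if_pos (by omega), if_neg (by omega), if_pos h, h, Nat.sub_self, pow_zero,
              one_smul, smul_zero]
            abel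
          · rw [if_pos (by omega), if_pos (by omega), if_neg (by omega), smul_smul, ← pow_succ',
              show (s.1 : ℕ) - ((t.1 : ℕ) + 1) + 1 = (s.1 : ℕ) + 1 - ((t.1 : ℕ) + 1) by omega]
            abel
        rw [h4]
        by_cases h : s.1 = t.1
        · rw [if_pos h, if_pos (by rw [h])]
        · rw [if_neg h, if_neg (fun h' => h (Fin.ext h')), Matrix.zero_apply]
  · ext q c
    rw [Matrix.mul_apply, Fintype.sum_sum_type]
    rcases c with g' | t
    · have h1 : ∀ g, F1 (Sum.inl g) (Sum.inl g') = e1 g g' := fun g => rfl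
      have h2 : ∀ s : Fin m × ι, F1 (Sum.inr s) (Sum.inl g') = 0 := fun s => rfl
      have h4 : ∑ s : Fin m × ι, R q (Sum.inr s) * F1 (Sum.inr s) (Sum.inl g') = 0 :=
        Finset.sum_eq_zero fun s _ => by rw [h2 s, mul_zero]
      rw [h4, add_zero, hR1]
      have h3 : P q.2 g' = ∑ g, P q.2 g * e1 g g' := by
        conv_lhs => rw [← hPe]
        rw [Matrix.mul_apply]
      rw [h3, Finset.mul_sum]
      refine Finset.sum_congr rfl fun g _ => ?_
      rw [hR1, h1, mul_assoc]
    · have h1 : ∀ g, F1 (Sum.inl g) (Sum.inr t) = 0 := fun g => rfl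
      have h2 : ∀ s : Fin m × ι, F1 (Sum.inr s) (Sum.inr t) =
          if s.1 = t.1 then e0 s.2 t.2 else 0 := fun s => rfl
      have h4 : ∑ g : κ, R q (Sum.inl g) * F1 (Sum.inl g) (Sum.inr t) = 0 :=
        Finset.sum_eq_zero fun g _ => by rw [h1 g, mul_zero]
      rw [h4, zero_add, Fintype.sum_prod_type, Finset.sum_eq_single t.1]
      · have h3 : R q (Sum.inr t) = ∑ j, LIN_V m e0 a P z (q.1 : ℕ) ((t.1 : ℕ) + 1) q.2 j *
            e0 j t.2 := by
          rw [hR2]
          conv_lhs => rw [← hVe]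
          rw [Matrix.mul_apply]
        rw [h3]
        refine Finset.sum_congr rfl fun j _ => ?_
        rw [hR2, h2, if_pos rfl]
      · intro x _ hx
        refine Finset.sum_eq_zero fun j _ => ?_
        rw [h2, if_neg hx, mul_zero]
      · intro h3
        exact absurd (Finset.mem_univ _) h3

end

end INJ
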