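import Pool.Agent.INJ.K2Targets

set_option autoImplicit false

/-!
# INJ: proof of `T_LVL`
-/

namespace INJ

open Matrix

noncomputable section

/-- uniform stability of invertibility along a compact family -/
lemma LVL_near {X : Type} [TopologicalSpace X] [CompactSpace X] {ι κ : Type} [Fintype ι]
    [Fintype κ] [DecidableEq ι] (x : X → Matrix ι κ ℂ) (y : X → Matrix κ ι ℂ)
    (e : X → Matrix ι ι ℂ) (f : X → Matrix κ κ ℂ) (hx : Continuous x) (hy : Continuous y)
    (he : Continuous e) (hf : Continuous f)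
    (h0 : ∀ p, e p * x p * f p * y p * e p = e p) :
    ∃ δ > 0, ∀ (p : X) (a : Matrix ι κ ℂ) (b : Matrix κ ι ℂ), (∀ i j, ‖a i j - x p i j‖ < δ) →
      (∀ i j, ‖b i j - y p i j‖ < δ) → (1 - (e p - e p * a * f p * b * e p)).det ≠ 0 := by
  let Ψ : X × ((ι → κ → ℂ) × (κ → ι → ℂ)) → ℂ := fun z =>
    (1 - (e z.1 - e z.1 * (x z.1 + Matrix.of z.2.1) * f z.1 * (y z.1 + Matrix.of z.2.2) *
      e z.1)).det
  have hu : Continuous fun z : X × ((ι → κ → ℂ) × (κ → ι → ℂ)) => Matrix.of z.2.1 :=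
    continuous_fst.comp continuous_snd
  have hv : Continuous fun z : X × ((ι → κ → ℂ) × (κ → ι → ℂ)) => Matrix.of z.2.2 :=
    continuous_snd.comp continuous_snd
  have hX := hx.comp (continuous_fst : Continuous
    (Prod.fst : X × ((ι → κ → ℂ) × (κ → ι → ℂ)) → X))
  have hY := hy.comp (continuous_fst : Continuous
    (Prod.fst : X × ((ι → κ → ℂ) × (κ → ι → ℂ)) → X))
  have hE := he.comp (continuous_fst : Continuous
    (Prod.fst : X × ((ι → κ → ℂ) × (κ → ι → ℂ)) → X))
  have hF := hf.comp (continuous_fst : Continuous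
    (Prod.fst : X × ((ι → κ → ℂ) × (κ → ι → ℂ)) → X))
  have hΨ : Continuous Ψ := by
    refine Continuous.matrix_det ?_
    refine continuous_const.sub (hE.sub ?_)
    exact (((hE.matrix_mul (hX.add hu)).matrix_mul hF).matrix_mul (hY.add hv)).matrix_mul hE
  have hO : IsOpen {z | Ψ z ≠ 0} := isOpen_ne_fun hΨ continuous_const
  have hsub : (Set.univ : Set X) ×ˢ ({(0, 0)} : Set ((ι → κ → ℂ) × (κ → ι → ℂ))) ⊆
      {z | Ψ z ≠ 0} := by
    rintro ⟨p, u⟩ ⟨-, hz⟩
    have hu0 : u = (0, 0) := hz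
    subst hu0
    change (1 - (e p - e p * (x p + 0) * f p * (y p + 0) * e p)).det ≠ 0
    rw [add_zero, add_zero, h0, sub_self, sub_zero, Matrix.det_one]
    exact one_ne_zero
  obtain ⟨u, v, -, hvo, hu1, hv1, huv⟩ :=
    generalized_tube_lemma isCompact_univ isCompact_singleton hO hsub
  obtain ⟨δ, hδ, hball⟩ := Metric.isOpen_iff.1 hvo (0, 0) (hv1 rfl)
  refine ⟨δ, hδ, fun p a b ha hb => ?_⟩
  have hmem : ((fun i j => a i j - x p i j, fun i j => b i j - y p i j) :
      (ι → κ → ℂ) × (κ → ι → ℂ)) ∈ v := by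
    apply hball
    rw [Metric.mem_ball, Prod.dist_eq, max_lt_iff]
    constructor
    · rw [dist_pi_lt_iff hδ]
      intro i
      rw [dist_pi_lt_iff hδ]
      intro j
      simpa using ha i j
    · rw [dist_pi_lt_iff hδ]
      intro i
      rw [dist_pi_lt_iff hδ]
      intro j
      simpa using hb i j
  have h1 := huv (Set.mk_mem_prod (hu1 (Set.mem_univ p)) hmem)
  have e1 : x p + Matrix.of (fun i j => a i j - x p i j) = a := by
    ext i j; simp
  have e2 : y p + Matrix.of (fun i j => b i j - y p i j) = b := by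
    ext i j; simp
  have h2 : (1 - (e p - e p * (x p + Matrix.of (fun i j => a i j - x p i j)) * f p *
      (y p + Matrix.of (fun i j => b i j - y p i j)) * e p)).det ≠ 0 := h1
  rwa [e1, e2] at h2

/-- spheres are nonempty -/
lemma LVL_ne (i : ℕ) : Nonempty (Sph (N i)) := by
  have hN : 0 < N i := by unfold N; positivity
  refine ⟨⟨EuclideanSpace.single ⟨0, hN⟩ 1, ?_⟩⟩
  rw [mem_sphere_zero_iff_norm]
  simp

/-- the restriction is onto -/
lemma LVL_surj (n : ℕ) (b : PT n) : ∃ p : PP, resP n p = b := by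
  classical
  refine ⟨fun i => if h : i < n then b ⟨i, h⟩ else (LVL_ne i).some, ?_⟩
  funext i
  change (if h : (i : ℕ) < n then b ⟨i, h⟩ else (LVL_ne i).some) = b i
  rw [dif_pos i.2]

/-- a family pulled back from the zeroth sphere, weights 0 -/
def LVL_idf {ι : Type} [Fintype ι] (e : Sph (N 0) → Matrix ι ι ℂ) (hc : Continuous e)
    (hi : ∀ p, e p * e p = e p) (hr : ∀ (c : Circle) (p : Sph (N 0)), e (rot c p) = e p) (n : ℕ) :
    Idf (PT (n + 1)) (sgm (n + 1)) (zeta n) ι where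
  w := fun _ => 0
  e := fun q => e (q ⟨0, Nat.succ_pos n⟩)
  cont := hc.comp (continuous_apply _)
  idem := fun q => hi _
  eqv := by
    intro q i j
    have h1 : sgm (n + 1) q ⟨0, Nat.succ_pos n⟩ = rot (zeta 0) (q ⟨0, Nat.succ_pos n⟩) := rfl
    simp only [h1, hr, sub_self, zpow_zero, Circle.coe_one, one_mul]

/-- stabilised matrix -/
def LVL_bl {ι : Type} (k : ℕ) (e : Matrix ι ι ℂ) : Matrix (ι ⊕ Fin k) (ι ⊕ Fin k) ℂ :=
  Matrix.fromBlocks e 0 0 1

lemma LVL_bl_idem {ι : Type} [Fintype ι] (k : ℕ) {e : Matrix ι ι ℂ} (h : e * e = e) :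
    LVL_bl k e * LVL_bl k e = LVL_bl k e := by
  simp [LVL_bl, Matrix.fromBlocks_multiply, h]

lemma LVL_bl_cont {X ι : Type} [TopologicalSpace X] (k : ℕ) {e : X → Matrix ι ι ℂ}
    (h : Continuous e) : Continuous fun p => LVL_bl k (e p) :=
  Continuous.matrix_fromBlocks h continuous_const continuous_const continuous_const

lemma LVL_five {ι κ : Type} [Fintype ι] [Fintype κ] (x : Matrix ι κ ℂ) (y : Matrix κ ι ℂ)
    (e : Matrix ι ι ℂ) (f : Matrix κ κ ℂ) (h1 : x * y = e) (h2 : y * x = f) (h3 : e * e = e) :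
    e * x * f * y * e = e := by
  subst h2
  subst h1
  calc x * y * x * (y * x) * y * (x * y)
      = x * y * (x * y) * (x * y) * (x * y) := by simp only [Matrix.mul_assoc]
    _ = x * y := by rw [h3, h3, h3]

theorem p_LVL (hAPX : T_APX) (hPERT : T_PERT) (hEPC : T_EPC) (hZET : T_ZET) (hEPM : T_EPM) :
    T_LVL := by
  intro k x y hx hy gx gy h
  obtain ⟨cP, cM, iP, iM, rP, rM⟩ := hEPM
  have k1 : ∀ p : PP, LVL_bl k (eP (p 0)) * x p * LVL_bl k (eM (p 0)) * y p *
      LVL_bl k (eP (p 0)) = LVL_bl k (eP (p 0)) := fun p =>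
    LVL_five _ _ _ _ (h p).1 (h p).2 (LVL_bl_idem k (iP _))
  have k2 : ∀ p : PP, LVL_bl k (eM (p 0)) * y p * LVL_bl k (eP (p 0)) * x p *
      LVL_bl k (eM (p 0)) = LVL_bl k (eM (p 0)) := fun p =>
    LVL_five _ _ _ _ (h p).2 (h p).1 (LVL_bl_idem k (iM _))
  have ce : Continuous fun p : PP => LVL_bl k (eP (p 0)) :=
    LVL_bl_cont k (cP.comp (continuous_apply _))
  have cf : Continuous fun p : PP => LVL_bl k (eM (p 0)) :=
    LVL_bl_cont k (cM.comp (continuous_apply _))
  obtain ⟨δ1, hδ1, H1⟩ := LVL_near x y _ _ hx hy ce cf k1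
  obtain ⟨δ2, hδ2, H2⟩ := LVL_near y x _ _ hy hx cf ce k2
  obtain ⟨n1, hn1⟩ := hAPX _ _ x hx gx (min δ1 δ2) (lt_min hδ1 hδ2)
  obtain ⟨n2, hn2⟩ := hAPX _ _ y hy gy (min δ1 δ2) (lt_min hδ1 hδ2)
  obtain ⟨xn, cx, ix, ax⟩ := hn1 (max n1 n2) (le_max_left _ _)
  obtain ⟨yn, cy, iy, ay⟩ := hn2 (max n1 n2) (le_max_right _ _)
  generalize max n1 n2 = n at xn cx ix ax yn cy iy ay
  refine ⟨n, ?_⟩
  set EE := LVL_idf eP cP iP rP n with hEE
  set FF := LVL_idf eM cM iM rM n with hFF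
  have hM : MvN (EE.sum (Idf.triv (fun _ : Fin k => (0 : ℤ))))
      (FF.sum (Idf.triv (fun _ : Fin k => (0 : ℤ)))) := by
    refine hPERT _ _ _ _ _ _ _ xn yn cx cy ?_ ?_ ?_ ?_
    · intro q i j
      rw [ix q]
      have e1 : (EE.sum (Idf.triv (fun _ : Fin k => (0 : ℤ)))).w i = 0 := by
        rcases i with i | i <;> rfl
      have e2 : (FF.sum (Idf.triv (fun _ : Fin k => (0 : ℤ)))).w j = 0 := by
        rcases j with j | j <;> rfl
      rw [e1, e2, sub_self, zpow_zero, Circle.coe_one, one_mul]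
    · intro q i j
      rw [iy q]
      have e1 : (FF.sum (Idf.triv (fun _ : Fin k => (0 : ℤ)))).w i = 0 := by
        rcases i with i | i <;> rfl
      have e2 : (EE.sum (Idf.triv (fun _ : Fin k => (0 : ℤ)))).w j = 0 := by
        rcases j with j | j <;> rfl
      rw [e1, e2, sub_self, zpow_zero, Circle.coe_one, one_mul]
    · intro b
      obtain ⟨p, rfl⟩ := LVL_surj (n + 1) b
      exact H1 p (xn (resP (n + 1) p)) (yn (resP (n + 1) p))
        (fun i j => (ax p i j).trans_le (min_le_left _ _))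
        (fun i j => (ay p i j).trans_le (min_le_left _ _))
    · intro b
      obtain ⟨p, rfl⟩ := LVL_surj (n + 1) b
      exact H2 p (yn (resP (n + 1) p)) (xn (resP (n + 1) p))
        (fun i j => (ay p i j).trans_le (min_le_right _ _))
        (fun i j => (ax p i j).trans_le (min_le_right _ _))
  have hcls := cls_of_MvN hM
  rw [cls_sum, cls_sum] at hcls
  have hEF : EE.cls = FF.cls := add_right_cancel hcls
  have hD := hEPC (PT (n + 1)) (sgm (n + 1)) (zeta n) ((N n / 5 : ℕ) : ℤ)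
    (fun q => q ⟨0, Nat.succ_pos n⟩) (continuous_apply _) (fun q => by
      rw [zpow_natCast, hZET.2.1 n]
      rfl) EE FF (fun i => rfl) (fun i => rfl) (fun q => rfl) (fun q => rfl)
  rw [← hD, hEF, sub_self]

end

end INJ
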