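import Pool.Agent.INJ.KTargets

set_option autoImplicit false

/-!
# INJ: multiplication by 5 on the Moore space (target `T_M5`)
-/

namespace INJ

open Matrix

noncomputable section

/-- conjugated block diagonal matrices -/
def M5_cj {n : ℕ} (A B : Matrix (Fin 5) (Fin 5) ℂ) (D : Fin 5 → Matrix (Fin n) (Fin n) ℂ) :
    Matrix (Fin 5 × Fin n) (Fin 5 × Fin n) ℂ :=
  Matrix.of fun p q => ∑ k, A p.1 k * D k p.2 q.2 * B k q.1

lemma M5_mul {n : ℕ} (A B A' B' : Matrix (Fin 5) (Fin 5) ℂ)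
    (D D' : Fin 5 → Matrix (Fin n) (Fin n) ℂ) (h : B * A' = 1) :
    M5_cj A B D * M5_cj A' B' D' = M5_cj A B' (fun k => D k * D' k) := by
  ext p q
  rw [Matrix.mul_apply, Fintype.sum_prod_type]
  simp only [M5_cj, Matrix.of_apply]
  have h1 : ∀ (r : Fin 5) (i : Fin n), (∑ k, A p.1 k * D k p.2 i * B k r) *
      (∑ l, A' r l * D' l i q.2 * B' l q.1) =
      ∑ k, ∑ l, (B k r * A' r l) * (A p.1 k * (D k p.2 i * D' l i q.2) * B' l q.1) := by
    intro r i
    rw [Finset.sum_mul_sum]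
    refine Finset.sum_congr rfl fun k _ => Finset.sum_congr rfl fun l _ => ?_
    ring
  simp only [h1]
  have h2 : ∀ k l : Fin 5, (∑ r, B k r * A' r l) = if k = l then 1 else 0 := by
    intro k l
    rw [← Matrix.mul_apply, h, Matrix.one_apply]
  calc ∑ r, ∑ i, ∑ k, ∑ l, (B k r * A' r l) * (A p.1 k * (D k p.2 i * D' l i q.2) * B' l q.1)
      = ∑ k, ∑ l, (∑ r, B k r * A' r l) *
          (A p.1 k * (∑ i, D k p.2 i * D' l i q.2) * B' l q.1) := by
        have e1 : ∀ r, ∑ i, ∑ k, ∑ l, (B k r * A' r l) *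
            (A p.1 k * (D k p.2 i * D' l i q.2) * B' l q.1) =
            ∑ k, ∑ l, (B k r * A' r l) *
              (A p.1 k * (∑ i, D k p.2 i * D' l i q.2) * B' l q.1) := by
          intro r
          rw [Finset.sum_comm]
          refine Finset.sum_congr rfl fun k _ => ?_
          rw [Finset.sum_comm]
          refine Finset.sum_congr rfl fun l _ => ?_
          rw [Finset.mul_sum, Finset.sum_mul, Finset.mul_sum]
        simp only [e1]
        rw [Finset.sum_comm]
        refine Finset.sum_congr rfl fun k _ => ?_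
        rw [Finset.sum_comm]
        refine Finset.sum_congr rfl fun l _ => ?_
        rw [Finset.sum_mul]
    _ = ∑ k, A p.1 k * (D k * D' k) p.2 q.2 * B' k q.1 := by
        refine Finset.sum_congr rfl fun k _ => ?_
        rw [Finset.sum_eq_single k]
        · rw [h2, if_pos rfl, one_mul, Matrix.mul_apply]
        · intro l _ hl
          rw [h2, if_neg (Ne.symm hl), zero_mul]
        · intro h'; exact absurd (Finset.mem_univ _) h'

lemma M5_const {n : ℕ} (A B : Matrix (Fin 5) (Fin 5) ℂ) (D : Fin 5 → Matrix (Fin n) (Fin n) ℂ)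
    (D0 : Matrix (Fin n) (Fin n) ℂ) (h : A * B = 1) (hD : ∀ k, D k = D0) :
    M5_cj A B D = Matrix.of fun p q => if p.1 = q.1 then D0 p.2 q.2 else 0 := by
  ext p q
  simp only [M5_cj, Matrix.of_apply, hD]
  have : ∀ k, A p.1 k * D0 p.2 q.2 * B k q.1 = (A p.1 k * B k q.1) * D0 p.2 q.2 := by
    intro k; ring
  simp only [this]
  rw [← Finset.sum_mul, ← Matrix.mul_apply, h, Matrix.one_apply]
  split_ifs <;> simp

lemma M5_shift {n : ℕ} (A B A' B' : Matrix (Fin 5) (Fin 5) ℂ)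
    (D D' : Fin 5 → Matrix (Fin n) (Fin n) ℂ) (hA : ∀ i k, A' i k = A i (k + 1))
    (hB : ∀ k j, B' k j = B (k + 1) j) (hD : ∀ k, D' k = D (k + 1)) :
    M5_cj A' B' D' = M5_cj A B D := by
  ext p q
  simp only [M5_cj, Matrix.of_apply, hA, hB, hD]
  exact Equiv.sum_comp (Equiv.addRight (1 : Fin 5)) fun k => A p.1 k * D k p.2 q.2 * B k q.1

lemma M5_cont {X : Type} [TopologicalSpace X] {n : ℕ} {A B : X → Matrix (Fin 5) (Fin 5) ℂ}
    {D : X → Fin 5 → Matrix (Fin n) (Fin n) ℂ} (hA : Continuous A) (hB : Continuous B)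
    (hD : ∀ k, Continuous fun x => D x k) : Continuous fun x => M5_cj (A x) (B x) (D x) := by
  refine continuous_matrix fun p q => ?_
  simp only [M5_cj, Matrix.of_apply]
  refine continuous_finsetSum _ fun k _ => ?_
  exact ((hA.matrix_elem _ _).mul ((hD k).matrix_elem _ _)).mul (hB.matrix_elem _ _)

/-- existence of families on `Y × MM` -/
lemma M5_ex (hQ : T_MQ) {Y : Type} [TopologicalSpace Y] (s : Y → Y) (ζ : Circle) {ι : Type}
    [Fintype ι] (w : ι → ℤ) (g : Y × DD → Matrix ι ι ℂ) (hg : Continuous g)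
    (hi : ∀ p, g p * g p = g p)
    (he : ∀ y z i j, g (s y, z) i j = ((ζ ^ (w i - w j) : Circle) : ℂ) * g (y, z) i j)
    (hb : ∀ y (z : DD), ‖(z : ℂ)‖ = 1 → g (y, rotD (zeta 0) z) = g (y, z)) :
    ∃ F : Idf (Y × MM) (Prod.map s id) ζ ι, F.w = w ∧ ∀ y z, F.e (y, qq z) = g (y, z) := by
  obtain ⟨g', hg', h'⟩ := hQ Y (Matrix ι ι ℂ) g hg hb
  refine ⟨⟨w, g', hg', ?_, ?_⟩, rfl, h'⟩
  · rintro ⟨y, m⟩
    obtain ⟨z, rfl⟩ := qq_surj m
    rw [h']; exact hi _
  · rintro ⟨y, m⟩ i j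
    obtain ⟨z, rfl⟩ := qq_surj m
    simp only [Prod.map, id]
    rw [h', h']; exact he _ _ _ _

/-- homotopies of families on `Y × MM` -/
lemma M5_hom (hH : T_HOM) (hQ : T_MQ) {Y : Type} [TopologicalSpace Y] [CompactSpace Y] (s : Y → Y)
    (ζ : Circle) {ι : Type} [Fintype ι] (w : ι → ℤ) (g : (Y × unitInterval) × DD → Matrix ι ι ℂ)
    (hg : Continuous g) (hi : ∀ p, g p * g p = g p)
    (he : ∀ y t z i j, g ((s y, t), z) i j =
      ((ζ ^ (w i - w j) : Circle) : ℂ) * g ((y, t), z) i j)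
    (hb : ∀ y t (z : DD), ‖(z : ℂ)‖ = 1 → g ((y, t), rotD (zeta 0) z) = g ((y, t), z))
    (F0 F1 : Idf (Y × MM) (Prod.map s id) ζ ι) (w0 : F0.w = w) (w1 : F1.w = w)
    (e0 : ∀ y z, F0.e (y, qq z) = g ((y, 0), z)) (e1 : ∀ y z, F1.e (y, qq z) = g ((y, 1), z)) :
    F0.cls = F1.cls := by
  obtain ⟨g', hg', h'⟩ := hQ (Y × unitInterval) (Matrix ι ι ℂ) g hg
    (by rintro ⟨y, t⟩ z hz; exact hb y t z hz)
  let G : Idf ((Y × MM) × unitInterval) (Prod.map (Prod.map s id) id) ζ ι :=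
    { w := w
      e := fun p => g' ((p.1.1, p.2), p.1.2)
      cont := hg'.comp (by fun_prop)
      idem := by
        rintro ⟨⟨y, m⟩, t⟩
        obtain ⟨z, rfl⟩ := qq_surj m
        dsimp only
        rw [h']; exact hi _
      eqv := by
        rintro ⟨⟨y, m⟩, t⟩ i j
        obtain ⟨z, rfl⟩ := qq_surj m
        simp only [Prod.map, id]
        rw [h', h']; exact he _ _ _ _ _ }
  let i0 : EMap (Y × MM) (Prod.map s id) ((Y × MM) × unitInterval)
      (Prod.map (Prod.map s id) id) := ⟨fun p => (p, 0), by fun_prop, fun _ => rfl⟩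
  let i1 : EMap (Y × MM) (Prod.map s id) ((Y × MM) × unitInterval)
      (Prod.map (Prod.map s id) id) := ⟨fun p => (p, 1), by fun_prop, fun _ => rfl⟩
  have key := hH (Y × MM) (Prod.map s id) ((Y × MM) × unitInterval) (Prod.map (Prod.map s id) id)
    ζ (fun q => q) continuous_id (fun _ _ => rfl) i0 i1 (fun _ => rfl) (fun _ => rfl) G.cls
  rw [pull_cls, pull_cls] at key
  have k0 : (G.pull i0).cls = F0.cls := by
    refine cls_of_MvN (MvN.of_reindex (Equiv.refl _) (fun i => ?_) ?_)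
    · rw [w0]; rfl
    · rintro ⟨y, m⟩ i j
      obtain ⟨z, rfl⟩ := qq_surj m
      rw [e0, ← h']; rfl
  have k1 : (G.pull i1).cls = F1.cls := by
    refine cls_of_MvN (MvN.of_reindex (Equiv.refl _) (fun i => ?_) ?_)
    · rw [w1]; rfl
    · rintro ⟨y, m⟩ i j
      obtain ⟨z, rfl⟩ := qq_surj m
      rw [e1, ← h']; rfl
  rw [← k0, ← k1, key]

/-! ### The disc -/

/-- scaling -/
def M5_sc (t : unitInterval) (z : DD) : DD :=
  ⟨((t : ℝ) : ℂ) * z, by
    have h1 := z.2
    have h2 := t.2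
    rw [mem_closedBall_zero_iff] at h1 ⊢
    rw [norm_mul, Complex.norm_real, Real.norm_eq_abs, abs_of_nonneg h2.1]
    exact mul_le_one₀ h2.2 (norm_nonneg _) h1⟩

lemma M5_sc_cont : Continuous fun p : unitInterval × DD => M5_sc p.1 p.2 := by
  have h : Continuous fun p : unitInterval × DD => ((p.1 : ℝ) : ℂ) * (p.2 : ℂ) := by fun_prop
  exact h.subtype_mk _

lemma M5_sc_zero (z : DD) : M5_sc 0 z = ⟨0, by simp⟩ := by
  apply Subtype.ext
  simp [M5_sc]

lemma M5_sc_one (z : DD) : M5_sc 1 z = z := by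
  apply Subtype.ext
  simp [M5_sc]

lemma M5_sc_rot (t : unitInterval) (u : Circle) (z : DD) :
    M5_sc t (rotD u z) = rotD u (M5_sc t z) := by
  apply Subtype.ext
  simp only [M5_sc, rotD]; ring

lemma M5_rot_cont : Continuous fun p : Circle × DD => rotD p.1 p.2 := by
  have h : Continuous fun p : Circle × DD => (p.1 : ℂ) * (p.2 : ℂ) := by fun_prop
  exact h.subtype_mk _

lemma M5_rot_norm (u : Circle) (z : DD) : ‖((rotD u z : DD) : ℂ)‖ = ‖(z : ℂ)‖ := by
  change ‖(u : ℂ) * (z : ℂ)‖ = _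
  rw [norm_mul, Circle.norm_coe, one_mul]

lemma M5_rot_mul (u v : Circle) (z : DD) : rotD u (rotD v z) = rotD (u * v) z := by
  apply Subtype.ext
  simp only [rotD, Circle.coe_mul]; ring

lemma M5_rot_one (z : DD) : rotD 1 z = z := by
  apply Subtype.ext
  simp [rotD]

lemma M5_zeta5 : (zeta 0) ^ 5 = 1 := by
  unfold zeta N
  rw [← Circle.exp_natCast_mul]
  have : ((5 : ℕ) : ℝ) * (2 * Real.pi / ((5 ^ 2 ^ 0 : ℕ) : ℝ)) = 2 * Real.pi := by
    push_cast; ring
  rw [this, Circle.exp_two_pi]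

lemma M5_qq_rot (z : DD) (hz : ‖(z : ℂ)‖ = 1) : qq (rotD (zeta 0) z) = qq z := by
  have h5 : ((zeta 0 : Circle) : ℂ) ^ 5 = 1 := by
    rw [← Circle.coe_pow, M5_zeta5, Circle.coe_one]
  apply Subtype.ext
  change qM _ = qM _
  unfold qM
  rw [M5_rot_norm, hz]
  simp [rotD, mul_pow, h5]

lemma M5_qq_rotk (u : Circle) (z : DD) (hz : ‖(z : ℂ)‖ = 1) :
    qq (rotD u (rotD (zeta 0) z)) = qq (rotD u z) := by
  rw [M5_rot_mul, mul_comm, ← M5_rot_mul]
  exact M5_qq_rot _ (by rw [M5_rot_norm, hz])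

lemma M5_qq_pow (k : ℕ) (z : DD) (hz : ‖(z : ℂ)‖ = 1) :
    qq (rotD ((zeta 0) ^ k) z) = qq z := by
  induction k with
  | zero => rw [pow_zero, M5_rot_one]
  | succ k ih =>
    rw [pow_succ, ← M5_rot_mul, M5_qq_rotk _ _ hz, ih]

lemma M5_pow_succ (k : Fin 5) : (zeta 0) ^ (k : ℕ) * zeta 0 = (zeta 0) ^ ((k + 1 : Fin 5) : ℕ) := by
  rw [← pow_succ]
  fin_cases k
  · rfl
  · rfl
  · rfl
  · rfl
  · change (zeta 0) ^ 5 = (zeta 0) ^ 0
    rw [M5_zeta5, pow_zero]

/-- the case of a family which is constant near the centre -/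
lemma M5_core (hH : T_HOM) (hQ : T_MQ) (hW : T_WW) (hT : T_TENS) {Y : Type} [TopologicalSpace Y]
    [CompactSpace Y] (s : Y → Y) (ζ : Circle) {n : ℕ}
    (E : Idf (Y × MM) (Prod.map s id) ζ (Fin n))
    (hE : ∀ (y : Y) (z : DD), ‖(z : ℂ)‖ ≤ 1 / 2 → E.e (y, qq z) = E.e (y, m0)) :
    5 • E.cls = 5 • pull (baseE s) E.cls := by
  obtain ⟨W, V, hWc, hVc, hWV, hWr⟩ := hW
  have hone : (1 : Matrix (Fin 5) (Fin 5) ℂ) * 1 = 1 := one_mul 1
  -- weights
  set w : Fin 5 × Fin n → ℤ := fun p => E.w p.2 with hw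
  have hEe : ∀ y z i j, E.e (s y, qq z) i j =
      ((ζ ^ (E.w i - E.w j) : Circle) : ℂ) * E.e (y, qq z) i j :=
    fun y z i j => E.eqv (y, qq z) i j
  -- equivariance in general
  have heq : ∀ (A B : Matrix (Fin 5) (Fin 5) ℂ) (y : Y) (m : Fin 5 → DD) (i j : Fin 5 × Fin n),
      M5_cj A B (fun k => E.e (s y, qq (m k))) i j =
      ((ζ ^ (w i - w j) : Circle) : ℂ) * M5_cj A B (fun k => E.e (y, qq (m k))) i j := by
    intro A B y m i j
    simp only [M5_cj, Matrix.of_apply, Finset.mul_sum, hw]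
    refine Finset.sum_congr rfl fun k _ => ?_
    rw [hEe]; ring
  have hid : ∀ (A B : Matrix (Fin 5) (Fin 5) ℂ) (y : Y) (m : Fin 5 → DD), B * A = 1 →
      M5_cj A B (fun k => E.e (y, qq (m k))) * M5_cj A B (fun k => E.e (y, qq (m k))) =
      M5_cj A B (fun k => E.e (y, qq (m k))) := by
    intro A B y m h
    rw [M5_mul _ _ _ _ _ _ h]
    congr 1
    funext k
    exact E.idem _
  -- the families
  set Dd : Y → DD → Fin 5 → Matrix (Fin n) (Fin n) ℂ :=
    fun y z k => E.e (y, qq (rotD ((zeta 0) ^ (k : ℕ)) z)) with hDd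
  have hDb : ∀ y (z : DD), ‖(z : ℂ)‖ = 1 → ∀ k, Dd y z k = E.e (y, qq z) := by
    intro y z hz k
    simp only [hDd]; rw [M5_qq_pow _ _ hz]
  have hDc : ∀ y (z : DD), ‖(z : ℂ)‖ ≤ 1 / 2 → ∀ k, Dd y z k = E.e (y, m0) := by
    intro y z hz k
    exact hE _ _ (by rw [M5_rot_norm]; exact hz)
  have hDs : ∀ y (z : DD) k, Dd y (rotD (zeta 0) z) k = Dd y z (k + 1) := by
    intro y z k
    simp only [hDd]; rw [M5_rot_mul, M5_pow_succ]
  have hDcont : ∀ k : Fin 5, Continuous fun p : Y × DD => Dd p.1 p.2 k := by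
    intro k
    refine E.cont.comp (continuous_fst.prodMk (continuous_qq.comp ?_))
    exact M5_rot_cont.comp (continuous_const.prodMk continuous_snd)
  -- E'
  obtain ⟨E1, hE1w, hE1⟩ := M5_ex hQ s ζ w (fun p => M5_cj 1 1 (Dd p.1 p.2))
    (M5_cont continuous_const continuous_const hDcont)
    (fun p => hid 1 1 p.1 (fun k => rotD ((zeta 0) ^ (k : ℕ)) p.2) hone)
    (fun y z i j => heq 1 1 y (fun k => rotD ((zeta 0) ^ (k : ℕ)) z) i j)
    (by
      intro y z hz
      dsimp only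
      rw [M5_const 1 1 _ _ hone (hDb y z hz), M5_const 1 1 _ _ hone
        (hDb y (rotD (zeta 0) z) (by rw [M5_rot_norm, hz])), M5_qq_rot _ hz])
  -- conjugated by a constant
  obtain ⟨E2, hE2w, hE2⟩ := M5_ex hQ s ζ w
    (fun p => M5_cj (V ⟨0, by simp⟩) (W ⟨0, by simp⟩) (Dd p.1 p.2))
    (M5_cont continuous_const continuous_const hDcont)
    (fun p => hid _ _ p.1 (fun k => rotD ((zeta 0) ^ (k : ℕ)) p.2) (hWV _).1)
    (fun y z i j => heq _ _ y (fun k => rotD ((zeta 0) ^ (k : ℕ)) z) i j)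
    (by
      intro y z hz
      dsimp only
      rw [M5_const _ _ _ _ (hWV _).2 (hDb y z hz), M5_const _ _ _ _ (hWV _).2
        (hDb y (rotD (zeta 0) z) (by rw [M5_rot_norm, hz])), M5_qq_rot _ hz])
  -- E''
  have hinv : ∀ y (z : DD), M5_cj (V (rotD (zeta 0) z)) (W (rotD (zeta 0) z))
      (Dd y (rotD (zeta 0) z)) = M5_cj (V z) (W z) (Dd y z) := by
    intro y z
    rcases le_total (1 / 2) ‖(z : ℂ)‖ with h | h
    · have hB : ∀ k j, W (rotD (zeta 0) z) k j = W z (k + 1) j := by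
        intro k j
        rw [hWr z h, Matrix.mul_apply]
        simp only [Matrix.of_apply]
        rw [Finset.sum_eq_single (k + 1)]
        · rw [if_pos rfl, one_mul]
        · intro b _ hb; rw [if_neg hb, zero_mul]
        · intro h'; exact absurd (Finset.mem_univ _) h'
      have hS : V z = V (rotD (zeta 0) z) *
          (Matrix.of fun i j : Fin 5 => if j = i + 1 then (1 : ℂ) else 0) := by
        have e1 := (hWV (rotD (zeta 0) z)).2
        rw [hWr z h, ← Matrix.mul_assoc] at e1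
        calc V z = (V (rotD (zeta 0) z) * (Matrix.of fun i j : Fin 5 =>
              if j = i + 1 then (1 : ℂ) else 0) * W z) * V z := by rw [e1, one_mul]
          _ = _ := by rw [Matrix.mul_assoc, (hWV z).1, mul_one]
      have hA : ∀ i k, V (rotD (zeta 0) z) i k = V z i (k + 1) := by
        intro i k
        rw [hS, Matrix.mul_apply]
        simp only [Matrix.of_apply]
        rw [Finset.sum_eq_single k]
        · rw [if_pos rfl, mul_one]
        · intro b _ hb
          rw [if_neg, mul_zero]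
          intro h'; exact hb (add_right_cancel h').symm
        · intro h'; exact absurd (Finset.mem_univ _) h'
      exact M5_shift _ _ _ _ _ _ hA hB (hDs y z)
    · rw [M5_const _ _ _ _ (hWV _).2 (hDc y z h), M5_const _ _ _ _ (hWV _).2
        (hDc y (rotD (zeta 0) z) (by rw [M5_rot_norm]; exact h))]
  obtain ⟨E3, hE3w, hE3⟩ := M5_ex hQ s ζ w (fun p => M5_cj (V p.2) (W p.2) (Dd p.1 p.2))
    (M5_cont (hVc.comp continuous_snd) (hWc.comp continuous_snd) hDcont)
    (fun p => hid _ _ p.1 (fun k => rotD ((zeta 0) ^ (k : ℕ)) p.2) (hWV _).1)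
    (fun y z i j => heq _ _ y (fun k => rotD ((zeta 0) ^ (k : ℕ)) z) i j)
    (fun y z _ => hinv y z)
  -- step 1
  have s1 : (E.tens (fun _ : Fin 5 => (0 : ℤ))).cls = E1.cls := by
    refine M5_hom hH hQ s ζ w (fun p => M5_cj 1 1 (fun k : Fin 5 => E.e (p.1.1,
      qq (rotD (Circle.exp (2 * Real.pi / 5 * (k : ℕ) * (p.1.2 : ℝ))) p.2)))) ?_ ?_ ?_ ?_ _ _ ?_
      hE1w ?_ ?_
    · refine M5_cont continuous_const continuous_const fun k => ?_
      refine E.cont.comp ((continuous_fst.comp continuous_fst).prodMk (continuous_qq.comp ?_))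
      refine M5_rot_cont.comp (Continuous.prodMk ?_ continuous_snd)
      exact Circle.exp.continuous.comp (by fun_prop)
    · intro p
      exact hid 1 1 p.1.1 (fun k => rotD (Circle.exp (2 * Real.pi / 5 * (k : ℕ) * (p.1.2 : ℝ)))
        p.2) hone
    · intro y t z i j
      exact heq 1 1 y (fun k => rotD (Circle.exp (2 * Real.pi / 5 * (k : ℕ) * (t : ℝ))) z) i j
    · intro y t z hz
      dsimp only
      congr 1
      funext k
      rw [M5_qq_rotk _ _ hz]
    · funext p; simp [Idf.tens, hw]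
    · intro y z
      dsimp only
      rw [M5_const 1 1 _ (E.e (y, qq z)) hone (fun k => by simp [M5_rot_one])]
      rfl
    · intro y z
      rw [hE1]
      dsimp only
      congr 1
      funext k
      simp only [hDd]
      congr 3
      unfold zeta N
      rw [← Circle.exp_natCast_mul]
      congr 2
      simp
      ring
  -- step 2
  have s2 : E1.cls = E2.cls := by
    have hx0 : ∀ A B : Matrix (Fin 5) (Fin 5) ℂ, ∃ x : Y × MM →
        Matrix (Fin 5 × Fin n) (Fin 5 × Fin n) ℂ, Continuous x ∧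
        Eqv (Prod.map s id) ζ w w x ∧ ∀ y z, x (y, qq z) = M5_cj A B (Dd y z) := by
      intro A B
      obtain ⟨x, hx, hx'⟩ := hQ Y _ (fun p => fun k : Fin 5 => Dd p.1 p.2 k)
        (continuous_pi hDcont) (by
          intro y z hz
          funext k
          dsimp only
          rw [hDb y z hz, hDb y (rotD (zeta 0) z) (by rw [M5_rot_norm, hz]), M5_qq_rot _ hz])
      refine ⟨fun p => M5_cj A B (x p), M5_cont continuous_const continuous_const
        (fun k => (continuous_apply k).comp hx), ?_, fun y z => ?_⟩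
      swap
      · change M5_cj A B (x (y, qq z)) = _
        rw [hx']
      rintro ⟨y, m⟩ i j
      obtain ⟨z, rfl⟩ := qq_surj m
      simp only [Prod.map, id]
      rw [hx', hx']
      exact heq _ _ y (fun k => rotD ((zeta 0) ^ (k : ℕ)) z) i j
    obtain ⟨x, hx, ex, hx'⟩ := hx0 1 (W ⟨0, by simp⟩)
    obtain ⟨v, hv, ev, hv'⟩ := hx0 (V ⟨0, by simp⟩) 1
    have hDD : ∀ y z, (fun k => Dd y z k * Dd y z k) = Dd y z := by
      intro y z
      funext k
      exact E.idem _
    refine cls_of_MvN ⟨x, v, hx, hv, ?_, ?_, ?_⟩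
    · rw [hE1w, hE2w]; exact ex
    · rw [hE1w, hE2w]; exact ev
    · rintro ⟨y, m⟩
      obtain ⟨z, rfl⟩ := qq_surj m
      rw [hx', hv', hE1, hE2, M5_mul _ _ _ _ _ _ (hWV _).1, M5_mul _ _ _ _ _ _ hone, hDD]
      exact ⟨rfl, rfl⟩
  -- step 3
  have s3 : E2.cls = E3.cls := by
    refine M5_hom hH hQ s ζ w (fun p => M5_cj (V (M5_sc p.1.2 p.2)) (W (M5_sc p.1.2 p.2))
      (Dd p.1.1 p.2)) ?_ ?_ ?_ ?_ _ _ hE2w hE3w ?_ ?_
    · refine M5_cont (hVc.comp ?_) (hWc.comp ?_) fun k => ?_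
      · exact M5_sc_cont.comp ((continuous_snd.comp continuous_fst).prodMk continuous_snd)
      · exact M5_sc_cont.comp ((continuous_snd.comp continuous_fst).prodMk continuous_snd)
      · exact (hDcont k).comp ((continuous_fst.comp continuous_fst).prodMk continuous_snd)
    · intro p
      exact hid _ _ p.1.1 (fun k => rotD ((zeta 0) ^ (k : ℕ)) p.2) (hWV _).1
    · intro y t z i j
      exact heq _ _ y (fun k => rotD ((zeta 0) ^ (k : ℕ)) z) i j
    · intro y t z hz
      dsimp only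
      rw [M5_const _ _ _ _ (hWV _).2 (hDb y z hz), M5_const _ _ _ _ (hWV _).2
        (hDb y (rotD (zeta 0) z) (by rw [M5_rot_norm, hz])), M5_qq_rot _ hz]
    · intro y z
      rw [hE2]
      dsimp only
      rw [M5_sc_zero]
    · intro y z
      rw [hE3]
      dsimp only
      rw [M5_sc_one]
  -- step 4
  have s4 : ((E.pull (baseE s)).tens (fun _ : Fin 5 => (0 : ℤ))).cls = E3.cls := by
    refine M5_hom hH hQ s ζ w (fun p => M5_cj (V (M5_sc p.1.2 p.2)) (W (M5_sc p.1.2 p.2))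
      (Dd p.1.1 (M5_sc p.1.2 p.2))) ?_ ?_ ?_ ?_ _ _ ?_ hE3w ?_ ?_
    · have hsc : Continuous fun p : (Y × unitInterval) × DD => M5_sc p.1.2 p.2 :=
        M5_sc_cont.comp ((continuous_snd.comp continuous_fst).prodMk continuous_snd)
      refine M5_cont (hVc.comp hsc) (hWc.comp hsc) fun k => ?_
      exact (hDcont k).comp ((continuous_fst.comp continuous_fst).prodMk hsc)
    · intro p
      exact hid _ _ p.1.1 (fun k => rotD ((zeta 0) ^ (k : ℕ)) (M5_sc p.1.2 p.2)) (hWV _).1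
    · intro y t z i j
      exact heq _ _ y (fun k => rotD ((zeta 0) ^ (k : ℕ)) (M5_sc t z)) i j
    · intro y t z hz
      dsimp only
      rw [M5_sc_rot]
      exact hinv y _
    · funext p; simp [Idf.tens, hw, Idf.pull]
    · intro y z
      dsimp only
      rw [M5_sc_zero, M5_const _ _ _ _ (hWV _).2 (hDc y _ (by simp))]
      rfl
    · intro y z
      rw [hE3]
      dsimp only
      rw [M5_sc_one]
  have t1 := hT (Y × MM) (Prod.map s id) ζ (Fin n) (Fin 5) E (fun _ => 0)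
  have t2 := hT (Y × MM) (Prod.map s id) ζ (Fin n) (Fin 5) (E.pull (baseE s)) (fun _ => 0)
  simp only [T_zero, Finset.sum_const, Finset.card_univ, Fintype.card_fin] at t1 t2
  rw [pull_cls, ← t1, ← t2, s1, s2, s3, s4]

/-- multiplication by 5 -/
theorem p_M5 (hH : T_HOM) (hQ : T_MQ) (hW : T_WW) (hT : T_TENS) (hR : T_ROT) : T_M5 := by
  intro Y _ _ s ζ x
  obtain ⟨f, hf, hf'⟩ := (hR Y s ζ).2.2
  have key : ((nsmulAddMonoidHom 5 : KG (Y × MM) (Prod.map s id) ζ →+ _)) =
      (nsmulAddMonoidHom 5 : KG (Y × MM) (Prod.map s id) ζ →+ _).comp (pull (baseE s)) := by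
    refine hom_ext fun n E => ?_
    change 5 • E.cls = 5 • pull (baseE s) E.cls
    rw [← hf' E.cls, pull_cls]
    refine M5_core hH hQ hW hT s ζ (E.pull f) ?_
    intro y z hz
    change E.e (f.f (y, qq z)) = E.e (f.f (y, m0))
    rw [hf y z hz]
    have h0 : f.f (y, m0) = (y, m0) := hf y _ (by simp)
    rw [h0]
  exact DFunLike.congr_fun key x

end

end INJ
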