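import Pool.Agent.INJ.MTargets

set_option autoImplicit false

/-!
# INJ, target MH: `M` is homeomorphic to `S^1 × Q`
-/

namespace INJ

open Quaternion

noncomputable section

theorem p_MH (hTOP : T_TOP) (hDEC : T_DEC) (hCUB : T_CUB) : T_MH := by
  obtain ⟨Ψ, hc, hi, hr⟩ := hTOP
  obtain ⟨Ψ', hc', hi', hr'⟩ := hDEC (ℕ → HB) Ψ hc hi hr
  obtain ⟨e⟩ := hCUB
  have : CompactSpace (AddCircle (1 : ℝ) × (ℕ → HB)) := e.symm.compactSpace
  have hemb : Topology.IsEmbedding Ψ' := (hc'.isClosedEmbedding hi').isEmbedding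
  have h1 : AddCircle (1 : ℝ) × (ℕ → HB) ≃ₜ Set.range Ψ' := hemb.toHomeomorph
  have h2 : Set.range Ψ' ≃ₜ MS := Homeomorph.setCongr hr'
  exact ⟨(h2.symm.trans h1.symm).trans e⟩

end

end INJ
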