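import Pool.Agent.INJ.KTargets

set_option autoImplicit false

/-!
# INJ: maps out of the product with the Moore space
-/

namespace INJ

noncomputable section

theorem MQ_prim : IsPrimitiveRoot ((zeta 0 : Circle) : ℂ) 5 := by
  have h := Complex.isPrimitiveRoot_exp 5 (by norm_num)
  have e : ((zeta 0 : Circle) : ℂ) = Complex.exp (2 * Real.pi * Complex.I / (5 : ℕ)) := by
    unfold zeta N
    rw [Circle.coe_exp]
    congr 1
    push_cast
    ring
  rw [e]
  exact h

theorem MQ_iter {Y Z : Type} {g : Y × DD → Z}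
    (h : ∀ (y : Y) (z : DD), ‖(z : ℂ)‖ = 1 → g (y, rotD (zeta 0) z) = g (y, z)) (y : Y) (z : DD)
    (hz : ‖(z : ℂ)‖ = 1) (k : ℕ) : ∀ w : DD, (w : ℂ) = ((zeta 0 : Circle) : ℂ) ^ k * z →
      g (y, w) = g (y, z) := by
  induction k with
  | zero =>
    intro w hw
    have : w = z := by
      apply Subtype.ext
      rw [hw, pow_zero, one_mul]
    rw [this]
  | succ k ih =>
    intro w hw
    let u : DD := ⟨((zeta 0 : Circle) : ℂ) ^ k * z, by
      rw [mem_closedBall_zero_iff, norm_mul, norm_pow, Circle.norm_coe, one_pow, one_mul, hz]⟩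
    have hu : ‖(u : ℂ)‖ = 1 := by
      change ‖((zeta 0 : Circle) : ℂ) ^ k * z‖ = 1
      rw [norm_mul, norm_pow, Circle.norm_coe, one_pow, one_mul, hz]
    have h1 : w = rotD (zeta 0) u := by
      apply Subtype.ext
      change (w : ℂ) = ((zeta 0 : Circle) : ℂ) * (((zeta 0 : Circle) : ℂ) ^ k * z)
      rw [hw, pow_succ]
      ring
    rw [h1, h y u hu]
    exact ih u rfl

theorem MQ_fib {Y Z : Type} {g : Y × DD → Z}
    (h : ∀ (y : Y) (z : DD), ‖(z : ℂ)‖ = 1 → g (y, rotD (zeta 0) z) = g (y, z)) (y : Y) (w z : DD)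
    (hq : qq w = qq z) : g (y, w) = g (y, z) := by
  have h0 : qM w = qM z := congrArg Subtype.val hq
  have h5 : (w : ℂ) ^ 5 = (z : ℂ) ^ 5 := congrArg Prod.fst h0
  have h1 : ((1 - ‖(w : ℂ)‖ : ℝ) : ℂ) * w = ((1 - ‖(z : ℂ)‖ : ℝ) : ℂ) * z := congrArg Prod.snd h0
  have hn : ‖(w : ℂ)‖ = ‖(z : ℂ)‖ := by
    have h2 : ‖(w : ℂ)‖ ^ 5 = ‖(z : ℂ)‖ ^ 5 := by rw [← norm_pow, ← norm_pow, h5]
    exact (pow_left_inj₀ (norm_nonneg _) (norm_nonneg _) (by norm_num)).1 h2
  by_cases hz : ‖(z : ℂ)‖ = 1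
  · have hz0 : (z : ℂ) ≠ 0 := by
      intro h3
      rw [h3, norm_zero] at hz
      exact zero_ne_one hz
    have h4 : ((w : ℂ) / z) ^ 5 = 1 := by
      rw [div_pow, h5, div_self (pow_ne_zero _ hz0)]
    obtain ⟨k, -, hk⟩ := MQ_prim.eq_pow_of_pow_eq_one h4
    refine MQ_iter h y z hz k w ?_
    rw [hk, div_mul_cancel₀ _ hz0]
  · have h3 : ((1 - ‖(z : ℂ)‖ : ℝ) : ℂ) ≠ 0 := by
      rw [Complex.ofReal_ne_zero]
      intro h4
      apply hz
      linarith
    rw [hn] at h1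
    have h4 : w = z := Subtype.ext (mul_left_cancel₀ h3 h1)
    rw [h4]

/-- Target MQ. -/
theorem p_MQ : T_MQ := by
  intro Y Z _ _ g hg h
  have hprop : IsProperMap qq := continuous_qq.isProperMap
  have hprod : IsProperMap (Prod.map (id : Y → Y) qq) := isProperMap_id.prodMap hprop
  have hquot : Topology.IsQuotientMap (Prod.map (id : Y → Y) qq) :=
    hprod.isClosedMap.isQuotientMap hprod.continuous (Function.surjective_id.prodMap qq_surj)
  refine ⟨fun p => g (p.1, (qq_surj p.2).choose), ?_, ?_⟩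
  · rw [hquot.continuous_iff]
    have e : (fun p : Y × MM => g (p.1, (qq_surj p.2).choose)) ∘ Prod.map (id : Y → Y) qq = g := by
      funext ⟨y, z⟩
      exact MQ_fib h y _ z (qq_surj (qq z)).choose_spec
    rw [e]
    exact hg
  · intro y z
    exact MQ_fib h y _ z (qq_surj (qq z)).choose_spec

end

end INJ
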