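import Pool.Agent.INJ.MTargets

set_option autoImplicit false

/-!
# INJ: properties of the points of `M`
-/

namespace INJ

open Quaternion

noncomputable section

lemma MRP_norm {g v : ℍ[ℝ]} (hg : ‖g‖ = 1) : ‖g⁻¹ * v‖ = ‖v‖ := by
  rw [norm_mul, norm_inv, hg, inv_one, one_mul]

theorem p_MRP (hK : T_KAP) (hY : T_INY) (hL : T_LAM) (hG : T_GG) : T_MRP := by
  intro t v hv
  have hY' : ∀ a, _ := fun a => hY (kap a) (hK.1 a).1 (le_trans (hK.1 a).2 (by norm_num))
  -- the next coordinate is bounded below inside the window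
  have h2 : ∀ a, lam a t < 1 → 1 / 10 ≤ ‖v (suc a)‖ := by
    intro a ha
    obtain ⟨-, -, -, -, -, -, hwin⟩ := hL a
    obtain ⟨-, -, -, -, -, -, -, hlow⟩ := hY' (suc a)
    have h3 := hlow _ _ (hwin t ha) (hv (suc a))
    have h4 : gg (suc a) t (v (suc (suc a))) ≠ 0 := by
      intro h0
      rw [h0, inv_zero, zero_mul, norm_zero] at h3
      norm_num at h3
    have h5 : ‖gg (suc a) t (v (suc (suc a)))‖ = 1 :=
      (hG.2.2.2.1 (suc a) t (v (suc (suc a)))).resolve_left h4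
    rwa [MRP_norm h5] at h3
  have h1 : ∀ a, ‖gg a t (v (suc a))‖ = 1 := by
    intro a
    refine hG.1 a t _ ?_
    rcases lt_or_eq_of_le ((hL a).1 t).2 with h | h
    · exact Or.inl (h2 a h)
    · exact Or.inr h
  refine ⟨fun a => ?_, h2, fun a ha => ?_, h1⟩
  · obtain ⟨-, -, -, hle, -⟩ := hY' a
    have h3 := hle _ _ (hv a)
    rwa [MRP_norm (h1 a)] at h3
  · obtain ⟨-, -, -, -, -, -, hz, -⟩ := hY' a
    obtain ⟨-, -, -, -, h0, -, -⟩ := hL a
    have h3 := hv a
    rw [ha, mul_zero] at h3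
    rw [h0]
    by_contra h4
    exact hz _ (lt_of_not_ge h4) h3

end

end INJ
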