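import Pool.Agent.INJ.K2Targets

set_option autoImplicit false

/-!
# INJ, target MU0: `μ` vanishes at the base point
-/

namespace INJ

open Matrix

noncomputable section

lemma MU0_radM : radM m0 = 0 := by
  unfold m0
  rw [radM_qq]
  simp

lemma MU0_b : m0.1.2 = 0 := by
  change ((1 - ‖(0 : ℂ)‖ : ℝ) : ℂ) * (0 : ℂ) = 0
  simp

lemma MU0_eH : eH m0 = !![0, 0; 0, 1] := by
  unfold eH
  rw [MU0_radM, MU0_b]
  ext i j
  fin_cases i <;> fin_cases j <;> simp

/-- `μ` vanishes at the base point -/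
theorem p_MU0 : T_MU0 := by
  intro Y _ s ζ
  unfold mu
  rw [map_sub, tr1_pull, pull_cls, sub_eq_zero]
  refine cls_of_MvN ⟨fun _ => !![0; 1], fun _ => !![0, 1], continuous_const, continuous_const,
    ?_, ?_, fun b => ⟨?_, ?_⟩⟩
  · intro y i j
    have : ((ζ ^ (((EH Y s ζ).pull (baseE s)).w i - (tr1 (Y × MM) (Prod.map s id) ζ).w j) :
        Circle) : ℂ) = 1 := by
      change ((ζ ^ ((0 : ℤ) - 0) : Circle) : ℂ) = 1
      simp
    rw [this, one_mul]
  · intro y i j
    have : ((ζ ^ ((tr1 (Y × MM) (Prod.map s id) ζ).w i - ((EH Y s ζ).pull (baseE s)).w j) :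
        Circle) : ℂ) = 1 := by
      change ((ζ ^ ((0 : ℤ) - 0) : Circle) : ℂ) = 1
      simp
    rw [this, one_mul]
  · change _ = eH m0
    rw [MU0_eH]
    ext i j
    fin_cases i <;> fin_cases j <;> simp [Matrix.mul_apply]
  · change _ = (1 : Matrix (Fin 1) (Fin 1) ℂ)
    ext i j
    fin_cases i; fin_cases j
    simp [Matrix.mul_apply]

end

end INJ
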