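import Pool.Agent.INJ.K2Targets

set_option autoImplicit false
set_option maxHeartbeats 4000000

/-!
# INJ: the class `μ` on the Moore space is not zero
-/

namespace INJ

open Matrix

noncomputable section

/-- squared norm of the vector `(z, 1 - |z|)` -/
def MUN_c (z : DD) : ℂ := ((‖(z : ℂ)‖ ^ 2 + (1 - ‖(z : ℂ)‖) ^ 2 : ℝ) : ℂ)

/-- the column `(z, 1 - |z|)` -/
def MUN_C (z : DD) : Matrix (Fin 2) (Fin 1) ℂ := !![(z : ℂ); ((1 - ‖(z : ℂ)‖ : ℝ) : ℂ)]

/-- the row dual to the column -/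
def MUN_R (z : DD) : Matrix (Fin 1) (Fin 2) ℂ :=
  !![(MUN_c z)⁻¹ * star (z : ℂ), (MUN_c z)⁻¹ * ((1 - ‖(z : ℂ)‖ : ℝ) : ℂ)]

theorem MUN_c_ne (z : DD) : MUN_c z ≠ 0 := by
  have h := radM_pos (qq z)
  rw [radM_qq] at h
  exact h

theorem MUN_zz (z : DD) : (z : ℂ) * star (z : ℂ) = ((‖(z : ℂ)‖ ^ 2 : ℝ) : ℂ) := by
  rw [Complex.star_def, Complex.mul_conj, Complex.normSq_eq_norm_sq]

theorem MUN_RC (z : DD) : MUN_R z * MUN_C z = 1 := by
  have h0 := MUN_c_ne z
  ext i j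
  fin_cases i; fin_cases j
  simp only [MUN_R, MUN_C, Matrix.mul_apply, Fin.sum_univ_two, Fin.zero_eta,
    Matrix.of_apply, Matrix.cons_val', Matrix.cons_val_zero, Matrix.cons_val_one,
    Matrix.cons_val_fin_one, Matrix.one_apply_eq]
  calc _ = (MUN_c z)⁻¹ * ((z : ℂ) * star (z : ℂ) + ((1 - ‖(z : ℂ)‖ : ℝ) : ℂ) ^ 2) := by ring
    _ = (MUN_c z)⁻¹ * MUN_c z := by
        rw [MUN_zz]; unfold MUN_c; push_cast; ring
    _ = 1 := inv_mul_cancel₀ h0

theorem MUN_CR (z : DD) : MUN_C z * MUN_R z = eH (qq z) := by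
  have h0 := MUN_c_ne z
  have hb : (qq z).1.2 = ((1 - ‖(z : ℂ)‖ : ℝ) : ℂ) * z := rfl
  unfold eH
  rw [radM_qq, hb]
  have e1 : star (((1 - ‖(z : ℂ)‖ : ℝ) : ℂ) * (z : ℂ)) =
      ((1 - ‖(z : ℂ)‖ : ℝ) : ℂ) * star (z : ℂ) := by
    rw [star_mul', Complex.star_def, Complex.conj_ofReal]
  rw [e1]
  change _ = (MUN_c z)⁻¹ • _
  ext i j
  fin_cases i <;> fin_cases j <;>
    simp only [MUN_R, MUN_C, Matrix.mul_apply, Fin.sum_univ_one, Matrix.smul_apply,
      Fin.zero_eta, Fin.mk_one, Fin.isValue, Matrix.of_apply, Matrix.cons_val',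
      Matrix.cons_val_zero, Matrix.cons_val_one, Matrix.cons_val_fin_one, smul_eq_mul]
  · calc _ = (MUN_c z)⁻¹ * ((z : ℂ) * star (z : ℂ)) := by ring
      _ = _ := by rw [MUN_zz]
  · ring
  · ring
  · push_cast; ring

theorem MUN_R_rot (z : DD) (hz : ‖(z : ℂ)‖ = 1) :
    MUN_R (rotD (zeta 0) z) = star ((zeta 0 : Circle) : ℂ) • MUN_R z := by
  have h1 : ((rotD (zeta 0) z : DD) : ℂ) = ((zeta 0 : Circle) : ℂ) * z := rfl
  have h2 : ‖((rotD (zeta 0) z : DD) : ℂ)‖ = 1 := by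
    rw [h1, norm_mul, Circle.norm_coe, one_mul, hz]
  ext i j
  fin_cases i
  fin_cases j <;>
    simp only [MUN_R, MUN_c, Matrix.smul_apply,
      Fin.zero_eta, Fin.mk_one, Fin.isValue, Matrix.of_apply, Matrix.cons_val',
      Matrix.cons_val_zero, Matrix.cons_val_one, Matrix.cons_val_fin_one, smul_eq_mul]
  · rw [h2, hz, h1, star_mul']
    ring
  · rw [h2, hz]
    simp

theorem MUN_qq_rot (z : DD) (hz : ‖(z : ℂ)‖ = 1) : qq (rotD (zeta 0) z) = qq z := by
  have h1 : ((rotD (zeta 0) z : DD) : ℂ) = ((zeta 0 : Circle) : ℂ) * z := rfl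
  have h2 : ‖((rotD (zeta 0) z : DD) : ℂ)‖ = 1 := by
    rw [h1, norm_mul, Circle.norm_coe, one_mul, hz]
  have h5 : ((zeta 0 : Circle) : ℂ) ^ 5 = 1 := by
    unfold zeta N
    rw [Circle.coe_exp, ← Complex.exp_nat_mul]
    have e : ((5 : ℕ) : ℂ) * (((2 * Real.pi / ((5 ^ 2 ^ 0 : ℕ) : ℝ) : ℝ) : ℂ) * Complex.I) =
        2 * Real.pi * Complex.I := by
      push_cast
      ring
    rw [e, Complex.exp_two_pi_mul_I]
  apply Subtype.ext
  change qM (rotD (zeta 0) z) = qM z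
  unfold qM
  rw [h2, hz, h1, mul_pow, h5, one_mul]
  simp

theorem MUN_cont_c : Continuous MUN_c := by
  unfold MUN_c
  fun_prop

theorem MUN_cont_R : Continuous MUN_R := by
  have h1 : Continuous fun z : DD => (MUN_c z)⁻¹ := MUN_cont_c.inv₀ MUN_c_ne
  have h2 : Continuous fun z : DD => (z : ℂ) := continuous_subtype_val
  refine continuous_matrix fun i j => ?_
  fin_cases i
  fin_cases j
  · exact h1.mul (continuous_star.comp h2)
  · exact h1.mul (Complex.continuous_ofReal.comp (continuous_const.sub h2.norm))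

/-- Target MUN. -/
theorem p_MUN (h : T_NOS) : T_MUN := by
  intro ζ h0
  have h1 : (EH (PT 0) (sgm 0) ζ).cls = (tr1 (PT 0 × MM) (Prod.map (sgm 0) id) ζ).cls :=
    sub_eq_zero.1 h0
  obtain ⟨n, w, x, y, hx, hy, -, -, hxy⟩ := (cls_eq_iff _ _).1 h1
  let p0 : PT 0 := fun i => i.elim0
  have hX : Continuous fun z : DD => x (p0, qq z) :=
    hx.comp (continuous_const.prodMk continuous_qq)
  let L : DD → Matrix (Fin 1 ⊕ Fin n) (Fin 2 ⊕ Fin n) ℂ := fun z =>
    Matrix.fromBlocks (MUN_R z) 0 0 1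
  let M : DD → Matrix (Fin 2 ⊕ Fin n) (Fin 1 ⊕ Fin n) ℂ := fun z =>
    Matrix.fromBlocks (MUN_C z) 0 0 1
  have hL : Continuous L :=
    Continuous.matrix_fromBlocks MUN_cont_R continuous_const continuous_const continuous_const
  refine h (fun z => (L z * x (p0, qq z)).det) ?_ ?_ ?_
  · exact (hL.matrix_mul hX).matrix_det
  · intro z
    have h2 : x (p0, qq z) * y (p0, qq z) = Matrix.fromBlocks (eH (qq z)) 0 0 1 :=
      (hxy (p0, qq z)).1
    have h3 : (L z * x (p0, qq z)) * (y (p0, qq z) * M z) = 1 := by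
      calc (L z * x (p0, qq z)) * (y (p0, qq z) * M z)
          = L z * (x (p0, qq z) * y (p0, qq z)) * M z := by simp only [Matrix.mul_assoc]
        _ = L z * (Matrix.fromBlocks (MUN_C z * MUN_R z) 0 0 1 :
              Matrix (Fin 2 ⊕ Fin n) (Fin 2 ⊕ Fin n) ℂ) * M z := by rw [h2, MUN_CR]
        _ = 1 := by
          simp only [L, M, Matrix.fromBlocks_multiply]
          have h4 : MUN_R z * (MUN_C z * MUN_R z) * MUN_C z = 1 := by
            rw [← Matrix.mul_assoc, MUN_RC, Matrix.one_mul, MUN_RC]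
          simp only [Matrix.mul_zero, Matrix.zero_mul, add_zero, zero_add, Matrix.mul_one]
          rw [h4, Matrix.fromBlocks_one]
    intro h5
    have h6 := congrArg Matrix.det h3
    rw [Matrix.det_mul, h5, zero_mul, Matrix.det_one] at h6
    exact zero_ne_one h6
  · intro z hz
    have h2 : L (rotD (zeta 0) z) =
        Matrix.fromBlocks (star ((zeta 0 : Circle) : ℂ) • (1 : Matrix (Fin 1) (Fin 1) ℂ)) 0 0
          (1 : Matrix (Fin n) (Fin n) ℂ) * L z := by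
      simp only [L, Matrix.fromBlocks_multiply]
      rw [MUN_R_rot z hz]
      simp
    change (L (rotD (zeta 0) z) * x (p0, qq (rotD (zeta 0) z))).det = _
    rw [MUN_qq_rot z hz, h2, Matrix.mul_assoc, Matrix.det_mul, Matrix.det_fromBlocks_zero₂₁]
    simp

end

end INJ
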