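import Pool.Agent.INJ.K2Targets

set_option autoImplicit false

/-!
# INJ, target MUZ: external product with the line bundle on the Moore space
-/

namespace INJ

open Matrix

noncomputable section

variable {Y : Type} [TopologicalSpace Y] {s : Y → Y} {ζ : Circle} {ι κ : Type} [Fintype ι]
  [Fintype κ]

/-- the external product with the line bundle on the Moore space -/
def MUZ_ext (E : Idf Y s ζ ι) : Idf (Y × MM) (Prod.map s id) ζ (ι × Fin 2) where
  w := fun p => E.w p.1
  e := fun p => Matrix.kroneckerMap (fun a b => a * b) (E.e p.1) (eH p.2)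
  cont := continuous_matrix fun i j =>
    ((E.cont.matrix_elem i.1 j.1).comp continuous_fst).mul
      ((continuous_eH.matrix_elem i.2 j.2).comp continuous_snd)
  idem := fun p => by
    rw [← Matrix.mul_kronecker_mul, E.idem, eH_idem]
  eqv := fun p i j => by
    simp only [Matrix.kroneckerMap_apply, Prod.map, id]
    rw [E.eqv p.1 i.1 j.1]
    ring

lemma MUZ_mvn {E : Idf Y s ζ ι} {F : Idf Y s ζ κ} (h : MvN E F) :
    MvN (MUZ_ext E) (MUZ_ext F) := by
  obtain ⟨x, y, hx, hy, ex, ey, h⟩ := h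
  refine ⟨fun p => Matrix.kroneckerMap (fun a b => a * b) (x p.1) (eH p.2),
    fun p => Matrix.kroneckerMap (fun a b => a * b) (y p.1) (eH p.2), ?_, ?_, ?_, ?_, ?_⟩
  · exact continuous_matrix fun i j =>
      ((hx.matrix_elem i.1 j.1).comp continuous_fst).mul
        ((continuous_eH.matrix_elem i.2 j.2).comp continuous_snd)
  · exact continuous_matrix fun i j =>
      ((hy.matrix_elem i.1 j.1).comp continuous_fst).mul
        ((continuous_eH.matrix_elem i.2 j.2).comp continuous_snd)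
  · intro p i j
    simp only [Matrix.kroneckerMap_apply, Prod.map, id, MUZ_ext]
    rw [ex p.1 i.1 j.1]
    ring
  · intro p i j
    simp only [Matrix.kroneckerMap_apply, Prod.map, id, MUZ_ext]
    rw [ey p.1 i.1 j.1]
    ring
  · intro p
    simp only [MUZ_ext]
    rw [← Matrix.mul_kronecker_mul, ← Matrix.mul_kronecker_mul, (h p.1).1, (h p.1).2, eH_idem]
    exact ⟨rfl, rfl⟩

lemma MUZ_sum (E : Idf Y s ζ ι) (F : Idf Y s ζ κ) :
    MvN (MUZ_ext (E.sum F)) ((MUZ_ext E).sum (MUZ_ext F)) := by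
  refine MvN.of_reindex (Equiv.sumProdDistrib ι κ (Fin 2)).symm ?_ ?_
  · rintro (i | i) <;> rfl
  · rintro p (i | i) (j | j)
    · rfl
    · simp [MUZ_ext, Idf.sum]
    · simp [MUZ_ext, Idf.sum]
    · rfl

/-- the homomorphism -/
def MUZ_E : KG Y s ζ →+ KG (Y × MM) (Prod.map s id) ζ :=
  liftHom (fun _ E => (MUZ_ext E).cls) (fun _ _ _ _ h => cls_of_MvN (MUZ_mvn h))
    (by
      intro n m k E F H h
      rw [← cls_sum]
      exact (cls_of_MvN ((MUZ_sum E F).symm.trans (MUZ_mvn h))).symm)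

lemma MUZ_E_cls (E : Idf Y s ζ ι) : MUZ_E E.cls = (MUZ_ext E).cls := by
  rw [MUZ_E, liftHom_cls]
  exact cls_of_MvN (MUZ_mvn (MvN.reindex E (Fintype.equivFin ι).symm))

lemma MUZ_E_T (c : ℤ) (x : KG Y s ζ) : MUZ_E (T c x) = T c (MUZ_E x) := by
  suffices h : (MUZ_E : KG Y s ζ →+ _).comp (T c) = (T c).comp MUZ_E from
    DFunLike.congr_fun h x
  refine hom_ext fun n E => ?_
  rw [AddMonoidHom.comp_apply, AddMonoidHom.comp_apply, T_cls, MUZ_E_cls, MUZ_E_cls, T_cls]
  rfl

/-- homomorphisms commuting with the shifts commute with `D` -/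
lemma MUZ_hom {Y' : Type} [TopologicalSpace Y'] {s' : Y' → Y'}
    (φ : KG Y s ζ →+ KG Y' s' ζ) (c : ℤ) (h : ∀ x, φ (T c x) = T c (φ x)) (k : ℕ)
    (x : KG Y s ζ) : φ (D c k x) = D c k (φ x) := by
  induction k with
  | zero => rfl
  | succ k ih =>
    simp only [D]
    rw [map_sub, h, ih]

lemma MUZ_sub (c : ℤ) (k : ℕ) (x y : KG Y s ζ) : D c k (x - y) = D c k x - D c k y := by
  induction k with
  | zero => rfl
  | succ k ih =>
    simp only [D]
    rw [ih, map_sub]
    abel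

/-- the projection `Y × MM → Y` -/
def MUZ_pr (s : Y → Y) : EMap (Y × MM) (Prod.map s id) Y s where
  f := Prod.fst
  cont := continuous_fst
  eqv := fun _ => rfl

lemma MUZ_tr : MUZ_E (tr1 Y s ζ).cls = (EH Y s ζ).cls := by
  rw [MUZ_E_cls]
  refine cls_of_MvN (MvN.of_reindex (Equiv.uniqueProd (Fin 2) (Fin 1)).symm (fun i => rfl)
    fun p i j => ?_)
  simp [MUZ_ext, tr1, Idf.triv, EH]

theorem p_MUZ : T_MUZ := by
  intro Y _ s ζ c k h
  unfold mu
  rw [MUZ_sub, ← MUZ_tr, ← MUZ_hom MUZ_E c (MUZ_E_T c), h, map_zero, ← tr1_pull ζ (MUZ_pr s),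
    ← MUZ_hom (pull (MUZ_pr s)) c (pull_T _ c), h, map_zero, sub_zero]

end

end INJ
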