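import Pool.Agent.INJ.KTargets

set_option autoImplicit false

/-!
# INJ: idempotent families with invertible comparison matrix are equivalent (helper76)
-/

namespace INJ

open Matrix

noncomputable section

/-- the inverse of an equivariant family is equivariant -/
lemma NEAR_inv {Y ι : Type} [Fintype ι] [DecidableEq ι] {s : Y → Y} {ζ : Circle} {w : ι → ℤ}
    {A : Y → Matrix ι ι ℂ} (hA : Eqv s ζ w w A) (hd : ∀ y, (A y).det ≠ 0) :
    Eqv s ζ w w (fun y => (A y)⁻¹) := by
  intro y i j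
  have h1 : A (s y) *
      (Matrix.of fun i j => ((ζ ^ (w i - w j) : Circle) : ℂ) * (A y)⁻¹ i j) = 1 := by
    ext i j
    have h2 : (A y * (A y)⁻¹) i j = (1 : Matrix ι ι ℂ) i j := by
      rw [Matrix.mul_nonsing_inv _ (isUnit_iff_ne_zero.2 (hd y))]
    rw [Matrix.mul_apply] at h2 ⊢
    have h3 : ∑ k, A (s y) i k *
        (Matrix.of fun i j => ((ζ ^ (w i - w j) : Circle) : ℂ) * (A y)⁻¹ i j) k j =
        ((ζ ^ (w i - w j) : Circle) : ℂ) * ∑ k, A y i k * (A y)⁻¹ k j := by
      rw [Finset.mul_sum]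
      refine Finset.sum_congr rfl fun k _ => ?_
      rw [hA y i k, Matrix.of_apply]
      have : (ζ ^ (w i - w j) : Circle) = ζ ^ (w i - w k) * ζ ^ (w k - w j) := by
        rw [← _root_.zpow_add]; congr 1; ring
      rw [this, Circle.coe_mul]
      ring
    rw [h3, h2]
    by_cases hij : i = j
    · subst hij
      simp
    · rw [Matrix.one_apply_ne hij, mul_zero]
  have h4 := Matrix.inv_eq_right_inv h1
  dsimp only
  rw [h4, Matrix.of_apply]

lemma NEAR_add {Y ι κ : Type} {s : Y → Y} {ζ : Circle} {w : ι → ℤ} {w' : κ → ℤ}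
    {A B : Y → Matrix ι κ ℂ} (hA : Eqv s ζ w w' A) (hB : Eqv s ζ w w' B) :
    Eqv s ζ w w' (fun y => A y + B y) := by
  intro y i j
  have h1 := hA y i j
  have h2 := hB y i j
  show A (s y) i j + B (s y) i j = _ * (A y i j + B y i j)
  rw [h1, h2]
  ring

lemma NEAR_cinv {Y ι : Type} [TopologicalSpace Y] [Fintype ι] [DecidableEq ι]
    {A : Y → Matrix ι ι ℂ} (hA : Continuous A) (hd : ∀ y, (A y).det ≠ 0) :
    Continuous (fun y => (A y)⁻¹) := by
  have h1 : (fun y => (A y)⁻¹) = fun y => ((A y).det)⁻¹ • (A y).adjugate := by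
    funext y
    rw [Matrix.inv_def, Ring.inverse_eq_inv']
  rw [h1]
  exact (hA.matrix_det.inv₀ hd).smul hA.matrix_adjugate

theorem p_NEAR : T_NEAR := by
  intro Y _ s ζ n E F hw hd
  obtain ⟨z, hz⟩ : ∃ z : Y → Matrix (Fin n) (Fin n) ℂ,
      z = fun y => E.e y * F.e y + (1 - E.e y) * (1 - F.e y) := ⟨_, rfl⟩
  have hzd : ∀ y, (z y).det ≠ 0 := fun y => by rw [hz]; exact hd y
  have hF : Eqv s ζ E.w E.w F.e := by rw [hw]; exact F.eqv
  have hFc : Eqv s ζ E.w E.w (fun y => 1 - F.e y) := by rw [hw]; exact F.compl.eqv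
  have hEc : Eqv s ζ E.w E.w (fun y => 1 - E.e y) := E.compl.eqv
  have hze : Eqv s ζ E.w E.w z := by
    rw [hz]
    exact NEAR_add (E.eqv.mul hF) (hEc.mul hFc)
  have hzc : Continuous z := by
    rw [hz]
    exact (E.cont.matrix_mul F.cont).add
      ((continuous_const.sub E.cont).matrix_mul (continuous_const.sub F.cont))
  have hez : ∀ y, E.e y * z y = z y * F.e y := by
    intro y
    have h1 := E.idem y
    have h2 := F.idem y
    rw [hz]
    dsimp only
    have e1 : E.e y * (E.e y * F.e y + (1 - E.e y) * (1 - F.e y)) = E.e y * F.e y := by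
      have h3 : E.e y * (1 - E.e y) = 0 := by rw [mul_sub, mul_one, h1, sub_self]
      rw [mul_add, ← mul_assoc, ← mul_assoc, h1, h3, zero_mul, add_zero]
    have e2 : (E.e y * F.e y + (1 - E.e y) * (1 - F.e y)) * F.e y = E.e y * F.e y := by
      have h3 : (1 - F.e y) * F.e y = 0 := by rw [sub_mul, one_mul, h2, sub_self]
      rw [add_mul, mul_assoc, h2, mul_assoc, h3, mul_zero, add_zero]
    rw [e1, e2]
  have hzi := NEAR_inv hze hzd
  refine ⟨fun y => E.e y * z y, fun y => (z y)⁻¹ * E.e y, E.cont.matrix_mul hzc,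
    (NEAR_cinv hzc hzd).matrix_mul E.cont, ?_, ?_, fun b => ⟨?_, ?_⟩⟩
  · rw [← hw]
    exact E.eqv.mul hze
  · rw [← hw]
    exact hzi.mul E.eqv
  · have h1 : z b * (z b)⁻¹ = 1 := Matrix.mul_nonsing_inv _ (isUnit_iff_ne_zero.2 (hzd b))
    calc E.e b * z b * ((z b)⁻¹ * E.e b) = E.e b * (z b * (z b)⁻¹) * E.e b := by
          simp only [Matrix.mul_assoc]
      _ = E.e b := by rw [h1, mul_one, E.idem b]
  · have h1 : (z b)⁻¹ * z b = 1 := Matrix.nonsing_inv_mul _ (isUnit_iff_ne_zero.2 (hzd b))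
    calc (z b)⁻¹ * E.e b * (E.e b * z b) = (z b)⁻¹ * ((E.e b * E.e b) * z b) := by
          simp only [Matrix.mul_assoc]
      _ = ((z b)⁻¹ * z b) * F.e b := by rw [E.idem b, hez, Matrix.mul_assoc]
      _ = F.e b := by rw [h1, one_mul]

end

end INJ
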