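import Pool.Agent.INJ.KTargets

set_option autoImplicit false

/-!
# INJ, part K: item NOS (no nowhere zero function with the given boundary behaviour)
-/

namespace INJ

noncomputable section

/-- the retraction of the plane onto the closed unit disc -/
def NOS_proj (w : ℂ) : DD := ⟨((max 1 ‖w‖ : ℝ) : ℂ)⁻¹ * w, by
  have h1 : (1 : ℝ) ≤ max 1 ‖w‖ := le_max_left _ _
  have h0 : (0 : ℝ) < max 1 ‖w‖ := lt_of_lt_of_le one_pos h1
  rw [mem_closedBall_zero_iff, norm_mul, norm_inv, Complex.norm_real, Real.norm_eq_abs,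
    abs_of_pos h0, inv_mul_le_iff₀ h0, mul_one]
  exact le_max_right _ _⟩

lemma NOS_proj_cont : Continuous NOS_proj := by
  refine Continuous.subtype_mk ?_ _
  refine Continuous.mul (Continuous.inv₀ (by fun_prop) ?_) continuous_id
  intro w
  have h1 : (1 : ℝ) ≤ max 1 ‖w‖ := le_max_left _ _
  have h0 : (0 : ℝ) < max 1 ‖w‖ := lt_of_lt_of_le one_pos h1
  exact_mod_cast h0.ne'

lemma NOS_proj_eq (z : DD) : NOS_proj (z : ℂ) = z := by
  have h := z.2
  rw [mem_closedBall_zero_iff] at h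
  apply Subtype.ext
  show ((max 1 ‖(z : ℂ)‖ : ℝ) : ℂ)⁻¹ * z = z
  rw [max_eq_left h]
  simp

/-- a continuous logarithm -/
lemma NOS_log (f : DD → ℂ) (hf : Continuous f) (h0 : ∀ z, f z ≠ 0) :
    ∃ l : ℂ → ℂ, Continuous l ∧ ∀ w, Complex.exp (l w) = f (NOS_proj w) := by
  have hx : f (NOS_proj 0) ≠ 0 := h0 _
  rcases Complex.isCoveringMapOn_exp.existsUnique_continuousMap_lifts (A := ℂ)
    ⟨fun w => f (NOS_proj w), hf.comp NOS_proj_cont⟩ (a₀ := 0) (e₀ := Complex.log (f (NOS_proj 0)))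
    (Complex.exp_log hx) (fun w => h0 _) with ⟨l, ⟨-, hl⟩, -⟩
  refine ⟨l, l.continuous, fun w => ?_⟩
  exact congrFun hl w

lemma NOS_zeta : ((zeta 0 : Circle) : ℂ) = Complex.exp ((2 * Real.pi / 5 : ℝ) * Complex.I) := by
  unfold zeta N
  rw [Circle.coe_exp]
  norm_num

theorem p_NOS : T_NOS := by
  intro f hf h0 hb
  obtain ⟨l, hl, hexp⟩ := NOS_log f hf h0
  -- the logarithm along the circle
  set L : ℝ → ℂ := fun t => l (Complex.exp (t * Complex.I)) with hL
  have hLc : Continuous L := by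
    rw [hL]
    fun_prop
  have hpn : ∀ t : ℝ, ‖Complex.exp (t * Complex.I)‖ = 1 := Complex.norm_exp_ofReal_mul_I
  have hmem : ∀ t : ℝ, Complex.exp (t * Complex.I) ∈ Metric.closedBall (0 : ℂ) 1 := by
    intro t
    rw [mem_closedBall_zero_iff, hpn]
  have hval : ∀ t : ℝ, Complex.exp (L t) = f ⟨Complex.exp (t * Complex.I), hmem t⟩ := by
    intro t
    show Complex.exp (l (Complex.exp (t * Complex.I))) = _
    rw [hexp]
    congr 1
    exact NOS_proj_eq ⟨Complex.exp (t * Complex.I), hmem t⟩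
  have hrot : ∀ t : ℝ, rotD (zeta 0) ⟨Complex.exp (t * Complex.I), hmem t⟩ =
      ⟨Complex.exp ((t + 2 * Real.pi / 5 : ℝ) * Complex.I), hmem _⟩ := by
    intro t
    apply Subtype.ext
    show ((zeta 0 : Circle) : ℂ) * Complex.exp (t * Complex.I) = _
    rw [NOS_zeta, ← Complex.exp_add]
    congr 1
    push_cast
    ring
  have hstar : star ((zeta 0 : Circle) : ℂ) =
      Complex.exp (-((2 * Real.pi / 5 : ℝ) * Complex.I)) := by
    rw [NOS_zeta]
    show (starRingEnd ℂ) _ = _
    rw [← Complex.exp_conj]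
    congr 1
    rw [map_mul, Complex.conj_ofReal, Complex.conj_I]
    ring
  have key : ∀ t : ℝ, ∃ n : ℤ, L (t + 2 * Real.pi / 5) - L t + (2 * Real.pi / 5 : ℝ) * Complex.I =
      n * (2 * Real.pi * Complex.I) := by
    intro t
    have h1 := hb ⟨Complex.exp (t * Complex.I), hmem t⟩ (hpn t)
    rw [hrot, ← hval, ← hval, hstar] at h1
    rw [← Complex.exp_eq_one_iff, Complex.exp_add, Complex.exp_sub, h1]
    have e1 := Complex.exp_ne_zero (L t)
    rw [mul_div_assoc, div_self e1, mul_one, ← Complex.exp_add]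
    simp
  choose n hn using key
  have hnr : ∀ t : ℝ, ((n t : ℤ) : ℝ) =
      ((L (t + 2 * Real.pi / 5) - L t + (2 * Real.pi / 5 : ℝ) * Complex.I).im) / (2 * Real.pi) := by
    intro t
    rw [hn t]
    have hpi := Real.pi_ne_zero
    simp
  have hnc : Continuous n := by
    rw [Int.isClosedEmbedding_coe_real.isEmbedding.continuous_iff]
    have : ((fun m : ℤ => (m : ℝ)) ∘ n) = fun t : ℝ =>
      ((L (t + 2 * Real.pi / 5) - L t + (2 * Real.pi / 5 : ℝ) * Complex.I).im) / (2 * Real.pi) := by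
      funext t
      exact hnr t
    rw [this]
    have hc1 : Continuous fun t : ℝ => L (t + 2 * Real.pi / 5) := hLc.comp (by fun_prop)
    exact (Complex.continuous_im.comp ((hc1.sub hLc).add continuous_const)).div_const _
  have hconst : ∀ t : ℝ, n t = n 0 := fun t =>
    PreconnectedSpace.constant inferInstance hnc
  have hstep : ∀ t : ℝ, L (t + 2 * Real.pi / 5) =
      L t + (n 0 * (2 * Real.pi * Complex.I) - (2 * Real.pi / 5 : ℝ) * Complex.I) := by
    intro t
    have h2 := hn t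
    rw [hconst t] at h2
    linear_combination h2
  have hper : L (2 * Real.pi) = L 0 := by
    show l (Complex.exp ((2 * Real.pi : ℝ) * Complex.I)) = l (Complex.exp ((0 : ℝ) * Complex.I))
    congr 1
    push_cast
    rw [Complex.exp_two_pi_mul_I]
    simp
  have s1 := hstep 0
  have s2 := hstep (0 + 2 * Real.pi / 5)
  have s3 := hstep (0 + 2 * Real.pi / 5 + 2 * Real.pi / 5)
  have s4 := hstep (0 + 2 * Real.pi / 5 + 2 * Real.pi / 5 + 2 * Real.pi / 5)
  have s5 := hstep (0 + 2 * Real.pi / 5 + 2 * Real.pi / 5 + 2 * Real.pi / 5 + 2 * Real.pi / 5)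
  have e : (0 + 2 * Real.pi / 5 + 2 * Real.pi / 5 + 2 * Real.pi / 5 + 2 * Real.pi / 5 +
      2 * Real.pi / 5) = 2 * Real.pi := by ring
  rw [e, hper, s4, s3, s2, s1] at s5
  have h3 : (2 * Real.pi * Complex.I) * (5 * (n 0 : ℂ) - 1) = 0 := by
    push_cast at s5
    linear_combination -s5
  have hpi : (2 * Real.pi * Complex.I : ℂ) ≠ 0 := Complex.two_pi_I_ne_zero
  rcases mul_eq_zero.mp h3 with h | h
  · exact hpi h
  · have h4 : (5 * (n 0 : ℂ)) = 1 := by linear_combination h
    have h5 : (5 : ℤ) * n 0 = 1 := by exact_mod_cast h4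
    omega

end

end INJ
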