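import Pool.Agent.INJ.FTargets

set_option autoImplicit false

/-!
# INJ: the distance of two orbits (target OD)
-/

namespace INJ

open TopologicalSpace

noncomputable section

section

variable (G X : Type) [Group G] [TopologicalSpace G] [CompactSpace G] [MetricSpace X]
  [MulAction G X] [ContinuousSMul G X]

lemma OD_dist (x y : X) : dist (omk G X x) (omk G X y) =
    Metric.hausdorffDist (Set.range fun g : G => g • x) (Set.range fun g : G => g • y) := rfl

lemma OD_compact (x : X) : IsCompact (Set.range fun g : G => g • x) :=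
  isCompact_range (by fun_prop)

/-- the smallest distance is attained -/
lemma OD_min (x y : X) : ∃ g : G, ∀ k : G, dist x (g • y) ≤ dist x (k • y) := by
  have hc : Continuous fun g : G => dist x (g • y) := by fun_prop
  obtain ⟨g, -, hg⟩ := (isCompact_univ : IsCompact (Set.univ : Set G)).exists_isMinOn
    Set.univ_nonempty hc.continuousOn
  exact ⟨g, fun k => hg (Set.mem_univ k)⟩

end

/-- target OD -/
theorem p_OD : T_OD := by
  intro G X _ _ _ _ _ _ _ x y
  obtain ⟨g, hg⟩ := OD_min G X x y
  have hle : dist (omk G X x) (omk G X y) ≤ dist x (g • y) := by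
    rw [OD_dist]
    refine Metric.hausdorffDist_le_of_mem_dist dist_nonneg ?_ ?_
    · rintro _ ⟨k, rfl⟩
      refine ⟨(k * g) • y, ⟨k * g, rfl⟩, ?_⟩
      dsimp only
      rw [mul_smul, dist_smul]
    · rintro _ ⟨k, rfl⟩
      refine ⟨(k * g⁻¹) • x, ⟨k * g⁻¹, rfl⟩, ?_⟩
      dsimp only
      have h1 : k • y = (k * g⁻¹) • (g • y) := by
        rw [← mul_smul, inv_mul_cancel_right]
      rw [h1, dist_smul, dist_comm]
  have hge : dist x (g • y) ≤ dist (omk G X x) (omk G X y) := by
    rw [OD_dist]
    have hx : x ∈ Set.range fun g : G => g • x := ⟨1, one_smul G x⟩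
    have hfin : Metric.hausdorffEDist (Set.range fun g : G => g • x)
        (Set.range fun g : G => g • y) ≠ ⊤ :=
      Metric.hausdorffEDist_ne_top_of_nonempty_of_bounded (Set.range_nonempty _)
        (Set.range_nonempty _) (OD_compact G X x).isBounded (OD_compact G X y).isBounded
    refine le_trans ?_ (Metric.infDist_le_hausdorffDist_of_mem hx hfin)
    refine (Metric.le_infDist (Set.range_nonempty _)).2 ?_
    rintro _ ⟨k, rfl⟩
    exact hg k
  have heq : dist (omk G X x) (omk G X y) = dist x (g • y) := le_antisymm hle hge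
  refine ⟨⟨g, heq⟩, fun k => ?_⟩
  rw [heq]
  exact hg k

end

end INJ
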