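import Pool.Agent.INJ.FTargets

set_option autoImplicit false

/-!
# INJ, part F: open images of locally connected spaces
-/

namespace INJ

open TopologicalSpace

/-- OLC: open images of locally connected spaces -/
theorem p_OLC : T_OLC := by
  intro X Y _ _ f hf ho hs hX
  rw [locallyConnectedSpace_iff_subsets_isOpen_isConnected] at hX ⊢
  intro y U hU
  obtain ⟨x, rfl⟩ := hs y
  obtain ⟨V, hV, hVo, hx, hVc⟩ := hX x (f ⁻¹' U) (hf.continuousAt.preimage_mem_nhds hU)
  exact ⟨f '' V, Set.image_subset_iff.2 hV, ho V hVo, ⟨x, hx, rfl⟩, hVc.image f hf.continuousOn⟩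

end INJ
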