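import Pool.Agent.INJ.GTargets

set_option autoImplicit false

/-!
# INJ, part G: surjective invariant maps close to the identity
-/

namespace INJ

open TopologicalSpace Quaternion

noncomputable section

theorem p_ONT (hMH : T_MH) (hREP : T_REP) (hGFX : T_GFX) (hSRJ : T_SRJ) (hQSH : T_QSH) :
    T_ONT := by
  intro h ε hε
  obtain ⟨hfc, hfi, hfs⟩ := hGFX hREP h
  have hX : Nonempty (MX ≃ₜ Circle × (ℕ → unitInterval)) := by
    obtain ⟨e⟩ := hMH
    exact ⟨homeoMX.trans e⟩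
  obtain ⟨δ, hδ, F, hFc, hFd, hFs⟩ := hSRJ MX hX (ε / 2) (by linarith)
  obtain ⟨j, hj⟩ := hfs (min δ (ε / 2)) (lt_min hδ (by linarith))
  obtain ⟨a, b, hac, hbc, had, hab⟩ := hQSH ε hε
  refine ⟨j, fun m => (F (fX hREP j m.1, b m.2), a m.2), ?_, ?_, ?_, ?_⟩
  · exact (hFc.comp (((hfc j).comp continuous_fst).prodMk (hbc.comp continuous_snd))).prodMk
      (hac.comp continuous_snd)
  · rintro ⟨m', q'⟩
    obtain ⟨u, hu⟩ := hFs (fX hREP j m') m' (lt_of_lt_of_le (hj m') (min_le_left _ _))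
    obtain ⟨q, hq1, hq2⟩ := hab q' u
    refine ⟨(m', q), ?_⟩
    dsimp only
    rw [hq1, hq2, hu]
  · intro c m q
    dsimp only
    rw [hfi j c m]
  · rintro ⟨m, q⟩
    rw [Prod.dist_eq]
    dsimp only
    refine max_lt ?_ (had q)
    have h1 := hFd (fX hREP j m) (b q)
    have h2 := lt_of_lt_of_le (hj m) (min_le_right δ (ε / 2))
    have h3 := dist_triangle (F (fX hREP j m, b q)) (fX hREP j m) m
    linarith

end

end INJ
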