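import Pool.Agent.INJ.FTargets

set_option autoImplicit false

/-!
# INJ, target OQ: equality in the orbit space
-/

namespace INJ

open TopologicalSpace

theorem p_OQ : T_OQ := by
  intro G X _ _ _ _ _ _ x y
  constructor
  · intro h
    have h1 : orb G X x = orb G X y := congrArg Subtype.val h
    have h2 : (orb G X x : Set X) = (orb G X y : Set X) :=
      congrArg (fun K : NonemptyCompacts X => (K : Set X)) h1
    have h3 : x ∈ (orb G X x : Set X) := ⟨1, one_smul G x⟩
    rw [h2] at h3
    obtain ⟨g, hg⟩ := h3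
    exact ⟨g, hg.symm⟩
  · rintro ⟨g, rfl⟩
    apply Subtype.ext
    apply NonemptyCompacts.ext
    ext z
    constructor
    · rintro ⟨k, rfl⟩
      exact ⟨k * g, mul_smul k g y⟩
    · rintro ⟨k, rfl⟩
      refine ⟨k * g⁻¹, ?_⟩
      change (k * g⁻¹) • g • y = k • y
      rw [mul_smul, inv_smul_smul]

end INJ
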