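import Pool.Agent.INJ.FBase

set_option autoImplicit false

/-!
# INJ, part F: targets for the abstract part (see FBlueprint.md)
-/

namespace INJ

open TopologicalSpace

/-! ### Orbit spaces -/

/-- OD: the distance of two orbits is the smallest distance of points -/
def T_OD : Prop :=
  ∀ (G X : Type) [Group G] [TopologicalSpace G] [CompactSpace G] [MetricSpace X]
    [MulAction G X] [ContinuousSMul G X] [IsIsometricSMul G X] (x y : X),
    (∃ g : G, dist (omk G X x) (omk G X y) = dist x (g • y)) ∧
      ∀ g : G, dist (omk G X x) (omk G X y) ≤ dist x (g • y)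

/-- OQ: equality in the orbit space -/
def T_OQ : Prop :=
  ∀ (G X : Type) [Group G] [TopologicalSpace G] [CompactSpace G] [MetricSpace X]
    [MulAction G X] [ContinuousSMul G X] (x y : X),
    omk G X x = omk G X y ↔ ∃ g : G, x = g • y

/-- OC: the orbit map is a continuous open surjection -/
def T_OC : Prop :=
  ∀ (G X : Type) [Group G] [TopologicalSpace G] [CompactSpace G] [MetricSpace X]
    [MulAction G X] [ContinuousSMul G X] [IsIsometricSMul G X],
    Continuous (omk G X) ∧ IsOpenMap (omk G X) ∧ Function.Surjective (omk G X)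

/-- FAC: descent of invariant maps -/
def T_FAC : Prop :=
  ∀ (G X : Type) [Group G] [TopologicalSpace G] [CompactSpace G] [MetricSpace X]
    [MulAction G X] [ContinuousSMul G X] [IsIsometricSMul G X] (Y : Type) (f : X → Y),
    (∀ (g : G) (x : X), f (g • x) = f x) →
    (∀ x, fac G X f (omk G X x) = f x) ∧
      ∀ [TopologicalSpace Y], Continuous f → Continuous (fac G X f)

/-- EPI: the projection of the associated bundle -/
def T_EPI : Prop :=
  ∀ (G P M : Type) [Group G] [TopologicalSpace G] [CompactSpace G] [MetricSpace P]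
    [MetricSpace M] [MulAction G P] [MulAction G M] [ContinuousSMul G P] [ContinuousSMul G M]
    [IsIsometricSMul G P] [IsIsometricSMul G M],
    Continuous (epi G P M) ∧
      ∀ y, epi G P M (omk G (SumSp P M) y) = omk G P y.fst

/-- FIB: the fibres of the projection -/
def T_FIB : Prop :=
  ∀ (G P M : Type) [Group G] [TopologicalSpace G] [CompactSpace G] [MetricSpace P]
    [MetricSpace M] [MulAction G P] [MulAction G M] [ContinuousSMul G P] [ContinuousSMul G M]
    [IsIsometricSMul G P] [IsIsometricSMul G M],
    (∀ (g : G) (p : P) (m : M), dist m (g • m) ≤ dist p (g • p)) →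
    (∀ (p : P) (m m' : M), dist (omk G (SumSp P M) ⟨p, m⟩) (omk G (SumSp P M) ⟨p, m'⟩) =
      dist m m') ∧
    ∀ (p : P) (a : OrbSp G (SumSp P M)),
      epi G P M a = omk G P p ↔ ∃ m, a = omk G (SumSp P M) ⟨p, m⟩

/-- HM: maps into the total space over a given map into `P` -/
def T_HM : Prop :=
  ∀ (G P M : Type) [Group G] [TopologicalSpace G] [CompactSpace G] [MetricSpace P]
    [MetricSpace M] [MulAction G P] [MulAction G M] [ContinuousSMul G P] [ContinuousSMul G M]
    [IsIsometricSMul G P] [IsIsometricSMul G M],
    (∀ (g : G) (p : P) (m : M), dist m (g • m) ≤ dist p (g • p)) →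
    ∀ (Z : Type) [TopologicalSpace Z] (p : Z → P) (h : Z → OrbSp G (SumSp P M)),
      Continuous p → Continuous h → (∀ z, epi G P M (h z) = omk G P (p z)) →
      ∃ m : Z → M, Continuous m ∧ ∀ z, h z = omk G (SumSp P M) ⟨p z, m z⟩

/-- XQ: the pull back of the orbit map is an open surjection -/
def T_XQ : Prop :=
  ∀ (G P : Type) [Group G] [TopologicalSpace G] [CompactSpace G] [MetricSpace P]
    [MulAction G P] [ContinuousSMul G P] [IsIsometricSMul G P]
    (X : Type) [TopologicalSpace X] (f : X → OrbSp G P), Continuous f →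
    Topology.IsQuotientMap fun z : {z : X × P // omk G P z.2 = f z.1} × unitInterval =>
      (z.1.1.1, z.2)

/-- HUR: the projection is a Hurewicz fibration -/
def T_HUR : Prop :=
  ∀ (G P M : Type) [Group G] [TopologicalSpace G] [CompactSpace G] [MetricSpace P]
    [MetricSpace M] [MulAction G P] [MulAction G M] [ContinuousSMul G P] [ContinuousSMul G M]
    [IsIsometricSMul G P] [IsIsometricSMul G M],
    (∀ (g : G) (p : P) (m : M), dist m (g • m) ≤ dist p (g • p)) →
    HasLift G P → IsHurewicz (epi G P M)

/-! ### Lifting of homotopies to the infinite product of spheres -/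

/-- COV: orbit maps of free isometric actions of finite groups are covering maps -/
def T_COV : Prop :=
  ∀ (C S : Type) [Group C] [Finite C] [TopologicalSpace C] [CompactSpace C] [MetricSpace S]
    [MulAction C S] [ContinuousSMul C S] [IsIsometricSMul C S],
    (∀ (c : C) (v : S), c • v = v → c = 1) → IsCoveringMap (omk C S)

/-- CLI: lifting along covering orbit maps -/
def T_CLI : Prop :=
  ∀ (C S : Type) [Group C] [TopologicalSpace C] [CompactSpace C] [MetricSpace S]
    [MulAction C S] [ContinuousSMul C S], IsCoveringMap (omk C S) → HasLift C S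

/-- CFI: the group of roots of unity is finite -/
def T_CFI : Prop := ∀ n : ℕ, 0 < n → Finite (CC n)

/-- GI: a continuous function from the unit interval to the circle with values in the roots of
unity of order `n` is constant -/
def T_GI : Prop :=
  ∀ (n : ℕ), 0 < n → ∀ f : unitInterval → Circle, Continuous f → (∀ t, f t ^ n = 1) →
    ∀ t, f t = f 0

/-- CG: continuity from a compact relation -/
def T_CG : Prop :=
  ∀ (Y K Z : Type) [TopologicalSpace Y] [TopologicalSpace K] [CompactSpace K]
    [TopologicalSpace Z] (R : Set (Y × K)) (v : Y × K → Z) (d : Y → Z), IsClosed R →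
    Continuous v → (∀ y, ∃ k, (y, k) ∈ R) →
    (∀ y k, (y, k) ∈ R → v (y, k) = d y) → Continuous d

/-- LF1: uniqueness of lifts of paths to `P` -/
def T_LF1 : Prop :=
  ∀ a b : C(unitInterval, PX), (∀ t, omk GG PX (a t) = omk GG PX (b t)) → a 0 = b 0 → a = b

/-- LF2: the coordinates of the lift of a path (compatibility) -/
def T_LF2 : Prop :=
  ∀ (b : unitInterval → OrbSp GG PX) (k : (i : ℕ) → unitInterval → Sph (N i)) (p0 : PX),
    Continuous b → (∀ i, Continuous (k i)) → omk GG PX p0 = b 0 → (∀ i, k i 0 = p0.val i) →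
    (∀ (i : ℕ) (t : unitInterval) (q : PX), omk GG PX q = b t →
      ∃ c : Circle, c ^ N i = 1 ∧ k i t = rot c (q.val i)) →
    ∀ t, omk GG PX ⟨fun i => k i t⟩ = b t

/-- LFP: lifting along `P → P/G` -/
def T_LFP : Prop := HasLift GG PX

/-! ### Connectedness -/

/-- SCN: the spheres are connected -/
def T_SCN : Prop := ∀ k : ℕ, 0 < k → ConnectedSpace (Sph k)

/-- SLC: the spheres are locally connected -/
def T_SLC : Prop := ∀ k : ℕ, 0 < k → LocallyConnectedSpace (Sph k)

/-- PLC: countable products of connected locally connected spaces -/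
def T_PLC : Prop :=
  ∀ (X : ℕ → Type) [∀ i, TopologicalSpace (X i)], (∀ i, ConnectedSpace (X i)) →
    (∀ i, LocallyConnectedSpace (X i)) → LocallyConnectedSpace ((i : ℕ) → X i)

/-- OLC: open images of locally connected spaces -/
def T_OLC : Prop :=
  ∀ (X Y : Type) [TopologicalSpace X] [TopologicalSpace Y] (f : X → Y), Continuous f →
    IsOpenMap f → Function.Surjective f → LocallyConnectedSpace X → LocallyConnectedSpace Y

/-- BAS: the base space is compact, connected and locally connected -/
def T_BAS : Prop :=
  CompactSpace (OrbSp GG PX) ∧ ConnectedSpace (OrbSp GG PX) ∧ LocallyConnectedSpace (OrbSp GG PX)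

/-- FAB: part F for the group `GG` and a compact metric space `M` -/
def T_FAB : Prop :=
  ∀ (M : Type) [MetricSpace M] [CompactSpace M] [MulAction GG M] [ContinuousSMul GG M]
    [IsIsometricSMul GG M],
    (∀ (g : GG) (p : PX) (m : M), dist m (g • m) ≤ dist p (g • p)) →
    Continuous (epi GG PX M) ∧
    (∀ y, epi GG PX M (omk GG (SumSp PX M) y) = omk GG PX y.fst) ∧
    IsHurewicz (epi GG PX M) ∧
    CompactSpace (OrbSp GG (SumSp PX M)) ∧
    (∀ (p : PX) (m m' : M), dist (omk GG (SumSp PX M) ⟨p, m⟩) (omk GG (SumSp PX M) ⟨p, m'⟩) =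
      dist m m') ∧
    ∀ (p : PX) (a : OrbSp GG (SumSp PX M)),
      epi GG PX M a = omk GG PX p ↔ ∃ m, a = omk GG (SumSp PX M) ⟨p, m⟩

end INJ
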