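import Pool.Agent.INJ.KTargets

set_option autoImplicit false

/-!
# INJ, part K, second half: targets (statements only; proofs in `Blueprint.md`)
-/

namespace INJ

open Matrix

noncomputable section

/-- `μ` vanishes at the base point -/
def T_MU0 : Prop := ∀ (Y : Type) [TopologicalSpace Y] (s : Y → Y) (ζ : Circle),
  pull (baseE s) (mu Y s ζ) = 0

/-- `μ` is not zero in `K(MM)` -/
def T_MUN : Prop := ∀ ζ : Circle, mu (PT 0) (sgm 0) ζ ≠ 0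

/-- external product with the line bundle on the Moore space -/
def T_MUZ : Prop := ∀ (Y : Type) [TopologicalSpace Y] (s : Y → Y) (ζ : Circle) (c : ℤ) (k : ℕ),
  D c k (tr1 Y s ζ).cls = 0 → D c k (mu Y s ζ) = 0

/-- the circle elements `ζ_i` -/
def T_ZET : Prop := (∀ i, zeta (i + 1) ^ N i = zeta i) ∧ (∀ n, zeta n ^ (N n / 5) = zeta 0) ∧
  (∀ (n : ℕ) (d : ℤ), zeta n ^ d = 1 ↔ (N n : ℤ) ∣ d) ∧ (∀ i, N (i + 1) = N i * N i) ∧
  (∀ i, 5 ∣ N i) ∧ (∀ i n, i ≤ n → zeta n ^ (N n / N i) = zeta i)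

/-- the self map of `P_n` has order `N_(n-1)` -/
def T_SGM : Prop := (∀ n, Continuous (sgm n)) ∧ (∀ n p, (sgm (n + 1))^[N n] p = p) ∧
  (∀ p, sgm 0 p = p)

/-- adding a sphere -/
def T_SNOC : Prop := ∀ n : ℕ, ∃ f : EMap (Sph (N n) × (PT n × MM))
  (srot (N n) (zeta n ^ (1 : ℤ)) (Prod.map (sgm n) id)) (PT (n + 1) × MM)
  (Prod.map (sgm (n + 1)) id), ∀ p, (f.f p).2 = p.2.2

/-- start of the induction -/
def T_BASE : Prop := D ((N 0 / 5 : ℕ) : ℤ) 4 (mu (PT 1) (sgm 1) (zeta 0)) ≠ 0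

/-- induction step -/
def T_STEP : Prop := ∀ n, D ((N n / 5 : ℕ) : ℤ) 4 (mu (PT (n + 1)) (sgm (n + 1)) (zeta n)) ≠ 0 →
  D ((N (n + 1) / 5 : ℕ) : ℤ) 4 (mu (PT (n + 2)) (sgm (n + 2)) (zeta (n + 1))) ≠ 0

/-- the vectors `ξ_w` -/
def T_XIV : Prop := ∀ k w : ℕ, 0 < k → (∀ i, Continuous fun p : Sph k => xiv w p i) ∧
  (∀ p : Sph k, ∑ i, star (xiv w p i) * xiv w p i = 1) ∧
  (∀ (c : Circle) (p : Sph k) (i : Fin k),
    xiv w (rot c p) i = ((c ^ (-(w : ℤ)) : Circle) : ℂ) * xiv w p i)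

/-- `e^±` are continuous idempotents invariant under rotation by fifth roots of unity -/
def T_EPM : Prop := Continuous eP ∧ Continuous eM ∧ (∀ p, eP p * eP p = eP p) ∧
  (∀ p, eM p * eM p = eM p) ∧ (∀ (c : Circle) (p : Sph (N 0)), eP (rot c p) = eP p) ∧
  (∀ (c : Circle) (p : Sph (N 0)), eM (rot c p) = eM p)

/-- the difference of the classes of `e^±` -/
def T_EPC : Prop := ∀ (Y : Type) [TopologicalSpace Y] (s : Y → Y) (ζ : Circle) (c : ℤ)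
  (f : Y → Sph (N 0)), Continuous f → (∀ y, f (s y) = rot (ζ ^ c) (f y)) →
  ∀ (E : Idf Y s ζ (CP 4 × Fin (N 0))) (F : Idf Y s ζ (CM 4 × Fin (N 0))),
  (∀ i, E.w i = 0) → (∀ i, F.w i = 0) → (∀ y, E.e y = eP (f y)) → (∀ y, F.e y = eM (f y)) →
  E.cls - F.cls = D c 4 (tr1 Y s ζ).cls

/-- approximate equivalence implies equivalence -/
def T_PERT : Prop := ∀ (Y : Type) [TopologicalSpace Y] (s : Y → Y) (ζ : Circle) (ι κ : Type)
  [Fintype ι] [Fintype κ] [DecidableEq ι] [DecidableEq κ] (E : Idf Y s ζ ι) (F : Idf Y s ζ κ)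
  (x : Y → Matrix ι κ ℂ) (y : Y → Matrix κ ι ℂ), Continuous x → Continuous y →
  Eqv s ζ E.w F.w x → Eqv s ζ F.w E.w y →
  (∀ b, (1 - (E.e b - E.e b * x b * F.e b * y b * E.e b)).det ≠ 0) →
  (∀ b, (1 - (F.e b - F.e b * y b * E.e b * x b * F.e b)).det ≠ 0) → MvN E F

/-- approximation of invariant functions on `P` by invariant functions on `P_n` -/
def T_APX : Prop := ∀ (ι κ : Type) [Fintype ι] [Fintype κ] (x : PP → Matrix ι κ ℂ),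
  Continuous x → (∀ p, x (gam p) = x p) → ∀ ε > 0, ∃ n0 : ℕ, ∀ n ≥ n0,
  ∃ xn : PT (n + 1) → Matrix ι κ ℂ, Continuous xn ∧ (∀ p, xn (sgm (n + 1) p) = xn p) ∧
  ∀ p i j, ‖xn (resP (n + 1) p) i j - x p i j‖ < ε

/-- determinants near 1, uniformly -/
def T_DET : Prop := ∀ (ι : Type) [Fintype ι] [DecidableEq ι], ∃ ε > 0, ∀ A : Matrix ι ι ℂ,
  (∀ i j, ‖A i j‖ < ε) → (1 - A).det ≠ 0

/-- from invariant data on `P` to an equation in `K(P_n)` -/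
def T_LVL : Prop := ∀ (k : ℕ)
  (x : PP → Matrix ((CP 4 × Fin (N 0)) ⊕ Fin k) ((CM 4 × Fin (N 0)) ⊕ Fin k) ℂ)
  (y : PP → Matrix ((CM 4 × Fin (N 0)) ⊕ Fin k) ((CP 4 × Fin (N 0)) ⊕ Fin k) ℂ),
  Continuous x → Continuous y → (∀ p, x (gam p) = x p) → (∀ p, y (gam p) = y p) →
  (∀ p, x p * y p = Matrix.fromBlocks (eP (p 0)) 0 0 1 ∧
    y p * x p = Matrix.fromBlocks (eM (p 0)) 0 0 1) →
  ∃ n : ℕ, D ((N n / 5 : ℕ) : ℤ) 4 (tr1 (PT (n + 1)) (sgm (n + 1)) (zeta n)).cls = 0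

/-- final statement of part K -/
def T_KFIN : Prop := ∀ (k : ℕ)
  (x : PP → Matrix ((CP 4 × Fin (N 0)) ⊕ Fin k) ((CM 4 × Fin (N 0)) ⊕ Fin k) ℂ)
  (y : PP → Matrix ((CM 4 × Fin (N 0)) ⊕ Fin k) ((CP 4 × Fin (N 0)) ⊕ Fin k) ℂ),
  Continuous x → Continuous y → (∀ p, x (gam p) = x p) → (∀ p, y (gam p) = y p) →
  ¬ ∀ p, x p * y p = Matrix.fromBlocks (eP (p 0)) 0 0 1 ∧
    y p * x p = Matrix.fromBlocks (eM (p 0)) 0 0 1

theorem kfin (h1 : T_BASE) (h2 : T_STEP) (h3 : T_MUZ) (h4 : T_LVL) : T_KFIN := by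
  intro k x y hx hy gx gy h
  obtain ⟨n, hn⟩ := h4 k x y hx hy gx gy h
  have h5 : ∀ n, D ((N n / 5 : ℕ) : ℤ) 4 (mu (PT (n + 1)) (sgm (n + 1)) (zeta n)) ≠ 0 := by
    intro n
    induction n with
    | zero => exact h1
    | succ n ih => exact h2 n ih
  exact h5 n (h3 _ _ _ _ _ hn)

end

end INJ
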