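import Pool.Agent.INJ.GDefs
import Pool.Agent.INJ.K2Targets
import Pool.Agent.INJ.FTargets

set_option autoImplicit false

/-!
# INJ, part G: targets (statements only; proofs in `GBlueprint.md`)
-/

namespace INJ

open TopologicalSpace Quaternion

noncomputable section

/-- the final fibre is homeomorphic to `S^1 × Q` -/
def T_GHF : Prop := T_MH → Nonempty (MF ≃ₜ Circle × (ℕ → unitInterval))

/-- the action on the fibre: continuous, isometric, small displacement -/
def T_GSM : Prop := ∀ (h : T_ACT) (j : ℕ), Continuous (fun z : GG × MX => smX h j z.1 z.2) ∧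
  (∀ c, Isometry (smX h j c)) ∧ ∀ (c : GG) (m : MX) (p : PX), dist m (smX h j c m) ≤ dist p (c • p)

/-- the retraction of chain `j` -/
def T_GFX : Prop := ∀ (h : T_REP) (ha : T_ACT), (∀ j, Continuous (fX h j)) ∧
  (∀ j c m, fX h j (smX ha j c m) = fX h j m) ∧ ∀ ε > 0, ∃ j, ∀ m, dist (fX h j m) m < ε

/-- the equivariant map without zeros -/
def T_GSX : Prop := ∀ (h : T_ACT) (j : ℕ), ∃ S : MX → Fin 4 → ℂ, Continuous S ∧ (∀ x, S x ≠ 0) ∧
  ∀ (c : GG) (x : MX) (i : Fin 4), S (smX h j c x) i = (c.1 0 : ℂ) * S x i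

/-- a Peano curve filling the Hilbert cube -/
def T_PEA : Prop := ∃ φ : unitInterval → (ℕ → unitInterval), Continuous φ ∧ Function.Surjective φ

/-- small moves which reach all nearby points -/
def T_SRJ : Prop := ∀ (X : Type) [MetricSpace X], Nonempty (X ≃ₜ Circle × (ℕ → unitInterval)) →
  ∀ ε > 0, ∃ δ > 0, ∃ F : X × unitInterval → X, Continuous F ∧ (∀ x u, dist (F (x, u)) x < ε) ∧
  ∀ x x', dist x x' < δ → ∃ u, F (x, u) = x'

/-- shifting the coordinates of the Hilbert cube -/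
def T_QSH : Prop := ∀ ε > 0, ∃ (a : QX → QX) (b : QX → unitInterval), Continuous a ∧
  Continuous b ∧ (∀ q, dist (a q) q < ε) ∧ ∀ q u, ∃ q', a q' = q ∧ b q' = u

/-- surjective invariant maps close to the identity -/
def T_ONT : Prop := ∀ (h : T_ACT), ∀ ε > 0, ∃ (j : ℕ) (f : MF → MF), Continuous f ∧
  Function.Surjective f ∧ (∀ c m q, f (smX h j c m, q) = f (m, q)) ∧ ∀ m, dist (f m) m < ε

/-- the bundles on the base -/
def T_EBC : Prop := Continuous eBP ∧ Continuous eBM ∧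
  (∀ p : PX, eBP (omk GG PX p) = eP (p.val 0)) ∧ (∀ p : PX, eBM (omk GG PX p) = eM (p.val 0)) ∧
  (∀ b, eBP b * eBP b = eBP b) ∧ ∀ b, eBM b * eBM b = eBM b

/-- the bundles are not equal in `K⁰(B)` -/
def T_KB : Prop := ¬ K0Eq eBP eBM

/-- the bundles become equal over the total space -/
def T_EV : Prop := ∀ (M : Type) [MetricSpace M] [CompactSpace M] [MulAction GG M]
  [ContinuousSMul GG (SumSp PX M)] (S : M → Fin 4 → ℂ), Continuous S → (∀ m, S m ≠ 0) →
  (∀ (c : GG) (m : M) (i : Fin 4), S (c • m) i = (c.1 0 : ℂ) * S m i) →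
  ∀ p : OrbSp GG (SumSp PX M) → BX, Continuous p →
  (∀ x, p (omk GG (SumSp PX M) x) = omk GG PX x.fst) →
  K0Eq (fun e => eBP (p e)) (fun e => eBM (p e))

/-- the bundles become equal over the total space (version with an isometric action) -/
def T_EV' : Prop := ∀ (M : Type) [MetricSpace M] [CompactSpace M] [MulAction GG M]
  [ContinuousSMul GG (SumSp PX M)] [IsIsometricSMul GG (SumSp PX M)] (S : M → Fin 4 → ℂ),
  Continuous S → (∀ m, S m ≠ 0) →
  (∀ (c : GG) (m : M) (i : Fin 4), S (c • m) i = (c.1 0 : ℂ) * S m i) →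
  ∀ p : OrbSp GG (SumSp PX M) → BX, Continuous p →
  (∀ x, p (omk GG (SumSp PX M) x) = omk GG PX x.fst) →
  K0Eq (fun e => eBP (p e)) (fun e => eBM (p e))

/-- change of index types -/
def T_RIX : Prop := ∀ (X ι κ ι' κ' : Type) [TopologicalSpace X] [Fintype ι] [Fintype κ]
  [Fintype ι'] [Fintype κ'] (f : ι ≃ ι') (g : κ ≃ κ') (e : X → Matrix ι ι ℂ)
  (e' : X → Matrix κ κ ℂ),
  K0Eq (fun b => Matrix.reindex f f (e b)) (fun b => Matrix.reindex g g (e' b)) ↔ K0Eq e e'

/-- the abstract construction -/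
def T_ASM : Prop := ∀ (M : Type) [MetricSpace M] [CompactSpace M] [MulAction GG M],
  Continuous (fun z : GG × M => z.1 • z.2) → (∀ c : GG, Isometry fun m : M => c • m) →
  (∀ (c : GG) (m : M) (p : PX), dist m (c • m) ≤ dist p (c • p)) →
  ∀ S : M → Fin 4 → ℂ, Continuous S → (∀ m, S m ≠ 0) →
  (∀ (c : GG) (m : M) (i : Fin 4), S (c • m) i = (c.1 0 : ℂ) * S m i) →
  ∀ f : M → M, Continuous f → Function.Surjective f → (∀ (c : GG) (m : M), f (c • m) = f m) →
  ∀ ε : ℝ, (∀ m, dist (f m) m < ε) →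
  ∃ (E : Type) (_ : MetricSpace E) (p : E → BX) (F : E → M × BX), CompactSpace E ∧
    Continuous p ∧ IsHurewicz p ∧ Continuous F ∧ (∀ x, (F x).2 = p x) ∧
    (∀ b, ∃ i : M → E, Isometry i ∧ Set.range i = p ⁻¹' {b} ∧ ∀ m, dist (F (i m)).1 m < ε) ∧
    Function.Surjective F ∧ (∀ x y, F x = F y → dist x y < 2 * ε) ∧
    K0Eq (fun x => eBP (p x)) (fun x => eBM (p x))

end

end INJ
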