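import Mathlib.Analysis.Complex.Tietze
import Mathlib.Topology.Instances.CantorSet
import Mathlib.Topology.MetricSpace.HausdorffAlexandroff
import Pool.Agent.INJ.GTargets

set_option autoImplicit false

/-!
# INJ, item PEA: a Peano curve filling the Hilbert cube
-/

namespace INJ

/-- a continuous surjection from the Cantor space onto the Hilbert cube -/
lemma PEA_cantor : ∃ g : (ℕ → Bool) → (ℕ → unitInterval), Continuous g ∧
    Function.Surjective g := by
  have : CompactSpace QX := homeoQX.symm.compactSpace
  have : Nonempty QX := ⟨⟨fun _ => 0⟩⟩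
  obtain ⟨g, hg, hs⟩ := exists_nat_bool_continuous_surjective_of_compact QX
  exact ⟨fun x => homeoQX (g x), homeoQX.continuous.comp hg, homeoQX.surjective.comp hs⟩

/-- the Cantor set as a closed subset of the unit interval -/
lemma PEA_embed : ∃ e : cantorSet → unitInterval, Topology.IsClosedEmbedding e := by
  have : CompactSpace cantorSet := isCompact_iff_compactSpace.1 isCompact_cantorSet
  refine ⟨fun x => ⟨x.1, cantorSet_subset_unitInterval x.2⟩, ?_⟩
  refine Continuous.isClosedEmbedding (by fun_prop) ?_
  intro x y h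
  exact Subtype.ext (Subtype.mk.inj h)

/-- **Peano curve filling the Hilbert cube.** -/
theorem p_PEA : T_PEA := by
  obtain ⟨g, hg, hs⟩ := PEA_cantor
  obtain ⟨e, he⟩ := PEA_embed
  let f : C(cantorSet, ℕ → unitInterval) :=
    ⟨fun x => g (cantorSetHomeomorphNatToBool x),
      hg.comp cantorSetHomeomorphNatToBool.continuous⟩
  obtain ⟨φ, hφ⟩ := f.exists_extension he
  refine ⟨φ, φ.continuous, ?_⟩
  intro q
  obtain ⟨b, hb⟩ := hs q
  obtain ⟨x, hx⟩ := cantorSetHomeomorphNatToBool.surjective b
  refine ⟨e x, ?_⟩
  have h1 : φ (e x) = f x := by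
    have := DFunLike.congr_fun hφ x
    simpa using this
  rw [h1]
  change g (cantorSetHomeomorphNatToBool x) = q
  rw [hx, hb]

end INJ
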