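import Pool.Agent.INJ.KTargets

set_option autoImplicit false

/-!
# INJ, target PEN: the pencil theorem
-/

namespace INJ

open Matrix

noncomputable section

section split

variable {Y : Type} [TopologicalSpace Y] {s : Y → Y} {ζ : Circle} {ι κ : Type} [Fintype ι]
  [Fintype κ]

/-- a family which is the sum of two orthogonal ones -/
lemma PEN_split (E F G : Idf Y s ζ ι) (hF : ∀ i, F.w i = E.w i) (hG : ∀ i, G.w i = E.w i)
    (h : ∀ y, F.e y + G.e y = E.e y) (h1 : ∀ y, F.e y * G.e y = 0)
    (h2 : ∀ y, G.e y * F.e y = 0) : E.cls = F.cls + G.cls := by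
  rw [← cls_sum]
  refine cls_of_MvN ⟨fun y => Matrix.fromCols (F.e y) (G.e y),
    fun y => Matrix.fromRows (F.e y) (G.e y), ?_, ?_, ?_, ?_, fun b => ⟨?_, ?_⟩⟩
  · refine continuous_matrix ?_
    rintro i (j | j)
    · exact F.cont.matrix_elem i j
    · exact G.cont.matrix_elem i j
  · refine continuous_matrix ?_
    rintro (i | i) j
    · exact F.cont.matrix_elem i j
    · exact G.cont.matrix_elem i j
  · rintro y i (j | j)
    · have := F.eqv y i j
      rw [hF i] at this
      exact this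
    · have := G.eqv y i j
      rw [hG i] at this
      exact this
  · rintro y (i | i) j
    · have := F.eqv y i j
      rw [hF j] at this
      exact this
    · have := G.eqv y i j
      rw [hG j] at this
      exact this
  · rw [Matrix.fromCols_mul_fromRows, F.idem b, G.idem b, h b]
  · rw [Matrix.fromRows_mul_fromCols, F.idem b, G.idem b, h1 b, h2 b]
    rfl

end split

/-- the Fourier coefficients of an equivariant function -/
lemma PEN_fc (hFCA : T_FCA) {X ι κ : Type} (s : X → X) (ζ : Circle) (w : ι → ℤ) (w' : κ → ℤ)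
    (c : ℤ) (R : Circle → X → Matrix ι κ ℂ)
    (h : ∀ z x i j, R (ζ ^ c * z) (s x) i j = ((ζ ^ (w i - w' j) : Circle) : ℂ) * R z x i j)
    (m : ℤ) : Eqv s ζ w (fun k => w' k + c * m) (FC R m) := by
  intro x i j
  obtain ⟨-, -, h3, -, h5⟩ := hFCA
  have e1 : fc (fun z : Circle => R (ζ ^ c * z) (s x) i j) m =
      (((ζ ^ c) ^ m : Circle) : ℂ) * fc (fun z => R z (s x) i j) m :=
    h3 (fun z => R z (s x) i j) (ζ ^ c) m
  have e2 : (fun z : Circle => R (ζ ^ c * z) (s x) i j) =
      fun z => ((ζ ^ (w i - w' j) : Circle) : ℂ) * R z x i j := by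
    funext z
    exact h z x i j
  rw [e2, h5] at e1
  show fc (fun z => R z (s x) i j) m =
    ((ζ ^ (w i - (w' j + c * m)) : Circle) : ℂ) * fc (fun z => R z x i j) m
  have e3 : (((ζ ^ c) ^ m : Circle) : ℂ) ≠ 0 := Circle.coe_ne_zero _
  apply mul_left_cancel₀ e3
  rw [← e1, ← mul_assoc, ← Circle.coe_mul, ← _root_.zpow_mul, ← _root_.zpow_add]
  congr 3
  ring

theorem p_PEN (hFCA : T_FCA) (hFCM : T_FCM) (hPM : T_PM) (hPEQ : T_PEQ) : T_PEN := by
  intro X _ s ζ ι κ _ _ E0 E1 c A B R hA hB hR eA eB hAB hinv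
  obtain ⟨M1, M2, M3⟩ := hFCM
  -- the three relations
  have hpm : ∀ x, FC R (-1) x * A x + FC R 0 x * B x = E0.e x ∧
      A x * FC R (-1) x + B x * FC R 0 x = E1.e x ∧
      FC R (-1) x * A x * FC R (-1) x = FC R (-1) x := by
    intro x
    refine hPM ι κ (E0.e x) (E1.e x) (A x) (B x) (fun z _ => R z x) ?_
      (fun z => (hinv z x).1) (fun z => (hinv z x).2.1) (fun z => (hinv z x).2.2)
    exact hR.comp (continuous_fst.prodMk continuous_const)
  have hRe1 : ∀ (j : ℤ) x, FC R j x * E1.e x = FC R j x := by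
    intro j x
    rw [← M2 X ι κ κ R E1.e hR j x]
    congr 1
    funext z x'
    exact (hinv z x').2.2
  have heR : ∀ z x, E0.e x * R z x = R z x := by
    intro z x
    obtain ⟨h1, h2, h3⟩ := hinv z x
    rw [← h1, Matrix.mul_assoc, h2, h3]
  have hRe0 : ∀ (j : ℤ) x, E0.e x * FC R j x = FC R j x := by
    intro j x
    rw [← M3 X ι ι κ R E0.e hR j x]
    congr 1
    funext z x'
    exact heR z x'
  have c1 : Continuous (FC R (-1)) := M1 X ι κ R hR (-1)
  have c0 : Continuous (FC R 0) := M1 X ι κ R hR 0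
  have hpeq := hPEQ X s ζ ι κ E0 E1 c A B R eA eB hinv
  have q1 : Eqv s ζ E0.w (fun k => E1.w k - c) (FC R (-1)) := by
    have := PEN_fc hFCA s ζ E0.w E1.w c R hpeq (-1)
    have e : (fun k => E1.w k + c * (-1)) = fun k => E1.w k - c := by
      funext k
      ring
    rwa [e] at this
  have q0 : Eqv s ζ E0.w E1.w (FC R 0) := by
    have := PEN_fc hFCA s ζ E0.w E1.w c R hpeq 0
    have e : (fun k => E1.w k + c * 0) = E1.w := by
      funext k
      ring
    rwa [e] at this
  set r := FC R (-1) with hr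
  set r0 := FC R 0 with hr0
  have hp0 : ∀ x, r0 x * B x = E0.e x - r x * A x := fun x => by
    rw [← (hpm x).1]
    abel
  have hp1 : ∀ x, B x * r0 x = E1.e x - A x * r x := fun x => by
    rw [← (hpm x).2.1]
    abel
  have k1 : ∀ x, r x * A x * (r x * A x) = r x * A x := fun x => by
    rw [← Matrix.mul_assoc, (hpm x).2.2]
  have k2 : ∀ x, A x * r x * (A x * r x) = A x * r x := fun x => by
    rw [Matrix.mul_assoc, ← Matrix.mul_assoc (r x), (hpm x).2.2]
  have k3 : ∀ x, E0.e x * (r x * A x) = r x * A x := fun x => by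
    rw [← Matrix.mul_assoc, hRe0]
  have k4 : ∀ x, r x * A x * E0.e x = r x * A x := fun x => by
    rw [Matrix.mul_assoc, (hAB x).2.1]
  have k5 : ∀ x, E1.e x * (A x * r x) = A x * r x := fun x => by
    rw [← Matrix.mul_assoc, (hAB x).1]
  have k6 : ∀ x, A x * r x * E1.e x = A x * r x := fun x => by
    rw [Matrix.mul_assoc, hRe1]
  let Q : Idf X s ζ ι :=
    { w := E0.w
      e := fun x => r x * A x
      cont := c1.matrix_mul hA
      idem := k1
      eqv := q1.mul eA }
  let P0 : Idf X s ζ ι :=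
    { w := E0.w
      e := fun x => r0 x * B x
      cont := c0.matrix_mul hB
      idem := fun x => by
        rw [hp0 x, sub_mul, mul_sub, mul_sub, E0.idem x, k3 x, k4 x, k1 x]
        abel
      eqv := q0.mul eB }
  let Q1 : Idf X s ζ κ :=
    { w := fun k => E1.w k - c
      e := fun x => A x * r x
      cont := hA.matrix_mul c1
      idem := k2
      eqv := eA.mul q1 }
  let P1 : Idf X s ζ κ :=
    { w := E1.w
      e := fun x => B x * r0 x
      cont := hB.matrix_mul c0
      idem := fun x => by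
        rw [hp1 x, sub_mul, mul_sub, mul_sub, E1.idem x, k5 x, k6 x, k2 x]
        abel
      eqv := eB.mul q0 }
  have hQ : Q.cls = Q1.cls :=
    cls_of_MvN ⟨r, A, c1, hA, q1, eA, fun x => ⟨rfl, rfl⟩⟩
  have hP : P0.cls = P1.cls :=
    cls_of_MvN ⟨r0, B, c0, hB, q0, eB, fun x => ⟨rfl, rfl⟩⟩
  have hE0 : E0.cls = Q.cls + P0.cls := by
    refine PEN_split E0 Q P0 (fun i => rfl) (fun i => rfl) (fun x => (hpm x).1) ?_ ?_
    · intro x
      show r x * A x * (r0 x * B x) = 0
      rw [hp0 x, mul_sub, k4 x, k1 x, sub_self]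
    · intro x
      show r0 x * B x * (r x * A x) = 0
      rw [hp0 x, sub_mul, k3 x, k1 x, sub_self]
  have hE1 : E1.cls = T c Q1.cls + P1.cls := by
    rw [T_cls]
    refine PEN_split E1 (Q1.shift c) P1 (fun i => ?_) (fun i => rfl)
      (fun x => (hpm x).2.1) ?_ ?_
    · show E1.w i - c + c = E1.w i
      ring
    · intro x
      show A x * r x * (B x * r0 x) = 0
      rw [hp1 x, mul_sub, k6 x, k2 x, sub_self]
    · intro x
      show B x * r0 x * (A x * r x) = 0
      rw [hp1 x, sub_mul, k5 x, k2 x, sub_self]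
  refine ⟨Q, rfl, fun x => rfl, ?_⟩
  rw [hE0, hE1, hP, hQ]
  abel

end

end INJ
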