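import Pool.Agent.INJ.KTargets

set_option autoImplicit false

namespace INJ

open Matrix

noncomputable section

/-- scaled products -/
lemma PEQ_mul {ι κ μ : Type} [Fintype κ] (ζ : Circle) (a : ι → ℤ) (b : κ → ℤ) (c : μ → ℤ)
    (M M' : Matrix ι κ ℂ) (L L' : Matrix κ μ ℂ)
    (hM : ∀ i j, M' i j = ((ζ ^ (a i - b j) : Circle) : ℂ) * M i j)
    (hL : ∀ i j, L' i j = ((ζ ^ (b i - c j) : Circle) : ℂ) * L i j) :
    ∀ i j, (M' * L') i j = ((ζ ^ (a i - c j) : Circle) : ℂ) * (M * L) i j := by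
  intro i j
  simp only [Matrix.mul_apply, Finset.mul_sum]
  refine Finset.sum_congr rfl fun k _ => ?_
  rw [hM i k, hL k j]
  have : (ζ ^ (a i - c j) : Circle) = ζ ^ (a i - b k) * ζ ^ (b k - c j) := by
    rw [← _root_.zpow_add]; congr 1; ring
  rw [this, Circle.coe_mul]; ring

theorem p_PEQ : T_PEQ := by
  intro X _ s ζ ι κ _ _ E0 E1 c A B R hA hB h z x i j
  obtain ⟨h1, h2, h3⟩ := h z x
  obtain ⟨g1, g2, g3⟩ := h (ζ ^ c * z) (s x)
  set P : Matrix κ ι ℂ := (z : ℂ) • A x + B x with hP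
  set P' : Matrix κ ι ℂ := ((ζ ^ c * z : Circle) : ℂ) • A (s x) + B (s x) with hP'
  have hPP : ∀ i j, P' i j = ((ζ ^ (E1.w i - E0.w j) : Circle) : ℂ) * P i j := by
    intro i j
    rw [hP, hP', Matrix.add_apply, Matrix.add_apply, Matrix.smul_apply, Matrix.smul_apply,
      hA x i j, hB x i j, smul_eq_mul, smul_eq_mul, mul_add]
    have : (ζ ^ (E1.w i - E0.w j) : Circle) = ζ ^ c * ζ ^ (E1.w i - c - E0.w j) := by
      rw [← _root_.zpow_add]; congr 1; ring
    rw [this, Circle.coe_mul, Circle.coe_mul]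
    ring
  set R' : Matrix ι κ ℂ := Matrix.of fun i j => ((ζ ^ (E0.w i - E1.w j) : Circle) : ℂ) * R z x i j
    with hR'
  have hRR : ∀ i j, R' i j = ((ζ ^ (E0.w i - E1.w j) : Circle) : ℂ) * R z x i j :=
    fun i j => rfl
  have k1 : R' * P' = E0.e (s x) := by
    ext i j
    rw [PEQ_mul ζ E0.w E1.w E0.w (R z x) R' P P' hRR hPP i j, h1, E0.eqv x i j]
  have k2 : P' * R' = E1.e (s x) := by
    ext i j
    rw [PEQ_mul ζ E1.w E0.w E1.w P P' (R z x) R' hPP hRR i j, h2, E1.eqv x i j]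
  have k3 : R' * E1.e (s x) = R' := by
    ext i j
    rw [PEQ_mul ζ E0.w E1.w E1.w (R z x) R' (E1.e x) (E1.e (s x)) hRR (fun i j => E1.eqv x i j)
      i j, h3, hRR i j]
  have key : R (ζ ^ c * z) (s x) = R' := by
    calc R (ζ ^ c * z) (s x) = R (ζ ^ c * z) (s x) * E1.e (s x) := g3.symm
      _ = R (ζ ^ c * z) (s x) * (P' * R') := by rw [k2]
      _ = (R (ζ ^ c * z) (s x) * P') * R' := by rw [Matrix.mul_assoc]
      _ = E0.e (s x) * R' := by rw [g1]
      _ = (R' * P') * R' := by rw [k1]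
      _ = R' * (P' * R') := by rw [Matrix.mul_assoc]
      _ = R' := by rw [k2, k3]
  rw [key]
  rfl

end

end INJ
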