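import Pool.Agent.INJ.MTargets

set_option autoImplicit false

namespace INJ

open Quaternion

lemma PER_ss (a : ℕ × ℕ) (t : ℝ) : ss a (t + 1) = ss a t + (nn a : ℕ) := by
  unfold ss
  ring

lemma PER_dZ (s : ℝ) (n : ℕ) : dZ (s + n) = dZ s := by
  unfold dZ
  rw [round_add_natCast]
  push_cast
  congr 1
  ring

lemma PER_lam (a : ℕ × ℕ) (t : ℝ) : lam a (t + 1) = lam a t := by
  unfold lam
  rw [PER_ss, PER_dZ]

lemma PER_gg (a : ℕ × ℕ) (t : ℝ) (v : ℍ[ℝ]) : gg a (t + 1) v = gg a t v := by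
  unfold gg num
  rw [PER_lam]

theorem p_PER (hI : T_INY) (hK : T_KAP) : T_PER := by
  have key : ∀ (a : ℕ × ℕ) (t : ℝ) (f : ℍ[ℝ]),
      InY (kap a) (ss a (t + 1)) f ↔ InY (kap a) (ss a t) f := by
    intro a t f
    obtain ⟨h0, h1⟩ := hK.1 a
    rw [PER_ss]
    exact (hI (kap a) h0 (by linarith)).2.2.1 (ss a t) (nn a) f
  refine ⟨fun t v => ?_, fun t f => ?_, PER_gg⟩
  · unfold MR
    refine forall_congr' fun a => ?_
    rw [PER_gg]
    exact key a t _
  · unfold MD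
    exact forall_congr' fun a => key a t _

end INJ
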