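import Pool.Agent.INJ.K2Targets
import Pool.Agent.INJ.P_NEAR

set_option autoImplicit false
set_option maxHeartbeats 4000000

/-!
# INJ: approximate equivalence implies equivalence (helper97)
-/

namespace INJ

open Matrix

noncomputable section

lemma PERT_sub {Y ι κ : Type} {s : Y → Y} {ζ : Circle} {w : ι → ℤ} {w' : κ → ℤ}
    {A B : Y → Matrix ι κ ℂ} (hA : Eqv s ζ w w' A) (hB : Eqv s ζ w w' B) :
    Eqv s ζ w w' (fun y => A y - B y) := by
  intro y i j
  have h1 := hA y i j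
  have h2 := hB y i j
  show A (s y) i j - B (s y) i j = _ * (A y i j - B y i j)
  rw [h1, h2]
  ring

lemma PERT_one {Y ι : Type} [DecidableEq ι] {s : Y → Y} {ζ : Circle} (w : ι → ℤ) :
    Eqv s ζ w w (fun _ => (1 : Matrix ι ι ℂ)) := by
  intro y i j
  by_cases h : i = j
  · subst h; simp
  · simp [Matrix.one_apply_ne h]

/-- the algebra: `a = e x f`, `b = f y e`, `u = 1 - e + a b`, `v = 1 - f + b a` -/
lemma PERT_alg {ι κ : Type} [Fintype ι] [Fintype κ] [DecidableEq ι] [DecidableEq κ]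
    (e : Matrix ι ι ℂ) (f : Matrix κ κ ℂ) (x : Matrix ι κ ℂ) (y : Matrix κ ι ℂ)
    (he : e * e = e) (hf : f * f = f)
    (hu : (1 - (e - e * x * f * y * e)).det ≠ 0) (hv : (1 - (f - f * y * e * x * f)).det ≠ 0) :
    (e * x * f) * ((f * y * e) * (1 - (e - e * x * f * y * e))⁻¹) = e ∧
      ((f * y * e) * (1 - (e - e * x * f * y * e))⁻¹) * (e * x * f) = f := by
  obtain ⟨a, ha⟩ : ∃ a, a = e * x * f := ⟨_, rfl⟩
  obtain ⟨b, hb⟩ : ∃ b, b = f * y * e := ⟨_, rfl⟩
  have hab : e * x * f * y * e = a * b := by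
    rw [ha, hb]
    calc e * x * f * y * e = e * x * (f * f) * y * e := by rw [hf]
      _ = e * x * f * (f * y * e) := by simp only [Matrix.mul_assoc]
  have hba : f * y * e * x * f = b * a := by
    rw [ha, hb]
    calc f * y * e * x * f = f * y * (e * e) * x * f := by rw [he]
      _ = f * y * e * (e * x * f) := by simp only [Matrix.mul_assoc]
  rw [hab] at hu ⊢
  rw [hba] at hv
  rw [← ha, ← hb]
  have hea : e * a = a := by
    rw [ha, ← Matrix.mul_assoc, ← Matrix.mul_assoc, he]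
  have hbe : b * e = b := by
    rw [hb, Matrix.mul_assoc, he]
  have hfb : f * b = b := by
    rw [hb, ← Matrix.mul_assoc, ← Matrix.mul_assoc, hf]
  obtain ⟨u, hu'⟩ : ∃ u, u = 1 - (e - a * b) := ⟨_, rfl⟩
  obtain ⟨v, hv'⟩ : ∃ v, v = 1 - (f - b * a) := ⟨_, rfl⟩
  rw [← hu'] at hu ⊢
  rw [← hv'] at hv
  have huu : u * u⁻¹ = 1 := Matrix.mul_nonsing_inv _ (isUnit_iff_ne_zero.2 hu)
  have hvv : v⁻¹ * v = 1 := Matrix.nonsing_inv_mul _ (isUnit_iff_ne_zero.2 hv)
  have heu : e * u = a * b := by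
    rw [hu', mul_sub, mul_sub, mul_one, he, ← Matrix.mul_assoc, hea]
    abel
  have hfv : v * f = b * a * f := by
    rw [hv', sub_mul, sub_mul, one_mul, hf]
    abel
  have haf : a * f = a := by
    rw [ha, Matrix.mul_assoc, hf]
  have hvf : v * f = b * a := by
    rw [hfv, Matrix.mul_assoc, haf]
  have hvb : v * b = b * u := by
    have h1 : v * b = b * a * b := by
      rw [hv', Matrix.sub_mul, Matrix.sub_mul, Matrix.one_mul, hfb]
      abel
    have h2 : b * u = b * a * b := by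
      rw [hu', Matrix.mul_sub, Matrix.mul_sub, Matrix.mul_one, hbe, ← Matrix.mul_assoc]
      abel
    rw [h1, h2]
  have hbu : b * u⁻¹ = v⁻¹ * b := by
    calc b * u⁻¹ = (v⁻¹ * v) * b * u⁻¹ := by rw [hvv, Matrix.one_mul]
      _ = v⁻¹ * (v * b) * u⁻¹ := by simp only [Matrix.mul_assoc]
      _ = v⁻¹ * b * (u * u⁻¹) := by rw [hvb]; simp only [Matrix.mul_assoc]
      _ = v⁻¹ * b := by rw [huu, Matrix.mul_one]
  constructor
  · calc a * (b * u⁻¹) = (a * b) * u⁻¹ := by simp only [Matrix.mul_assoc]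
      _ = e * (u * u⁻¹) := by rw [← heu]; simp only [Matrix.mul_assoc]
      _ = e := by rw [huu, Matrix.mul_one]
  · calc b * u⁻¹ * a = v⁻¹ * (b * a) := by rw [hbu, Matrix.mul_assoc]
      _ = (v⁻¹ * v) * f := by rw [← hvf, Matrix.mul_assoc]
      _ = f := by rw [hvv, Matrix.one_mul]

theorem p_PERT : T_PERT := by
  intro Y _ s ζ ι κ _ _ _ _ E F x y hx hy ex ey hu hv
  have hA : Eqv s ζ E.w F.w (fun b => E.e b * x b * F.e b) := (E.eqv.mul ex).mul F.eqv
  have hB : Eqv s ζ F.w E.w (fun b => F.e b * y b * E.e b) := (F.eqv.mul ey).mul E.eqv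
  have hU : Eqv s ζ E.w E.w (fun b => 1 - (E.e b - E.e b * x b * F.e b * y b * E.e b)) :=
    PERT_sub (PERT_one E.w) (PERT_sub E.eqv ((hA.mul ey).mul E.eqv))
  have hUc : Continuous (fun b => 1 - (E.e b - E.e b * x b * F.e b * y b * E.e b)) :=
    continuous_const.sub (E.cont.sub
      ((((E.cont.matrix_mul hx).matrix_mul F.cont).matrix_mul hy).matrix_mul E.cont))
  refine ⟨fun b => E.e b * x b * F.e b,
    fun b => F.e b * y b * E.e b * (1 - (E.e b - E.e b * x b * F.e b * y b * E.e b))⁻¹,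
    (E.cont.matrix_mul hx).matrix_mul F.cont,
    ((F.cont.matrix_mul hy).matrix_mul E.cont).matrix_mul (NEAR_cinv hUc hu), hA,
    hB.mul (NEAR_inv hU hu), fun b => ?_⟩
  exact PERT_alg (E.e b) (F.e b) (x b) (y b) (E.idem b) (F.idem b) (hu b) (hv b)

end

end INJ
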