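import Pool.Agent.INJ.FTargets

set_option autoImplicit false

/-!
# INJ-PLC: countable products of connected locally connected spaces
-/

namespace INJ

open TopologicalSpace

theorem p_PLC : T_PLC := by
  intro X _ hC hL
  classical
  rw [locallyConnectedSpace_iff_subsets_isOpen_isConnected]
  intro x U hU
  rw [nhds_pi, Filter.mem_pi] at hU
  obtain ⟨F, hF, V, hV, hVU⟩ := hU
  have h : ∀ i, ∃ W ⊆ V i, IsOpen W ∧ x i ∈ W ∧ IsConnected W := fun i =>
    locallyConnectedSpace_iff_subsets_isOpen_isConnected.1 (hL i) (x i) (V i) (hV i)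
  choose W h1 h2 h3 h4 using h
  have e : (Set.pi Set.univ fun i => if i ∈ F then W i else Set.univ) = F.pi W := by
    ext y
    simp only [Set.mem_pi, Set.mem_univ, true_imp_iff]
    refine forall_congr' fun i => ?_
    by_cases hi : i ∈ F
    · simp [hi]
    · simp [hi]
  refine ⟨F.pi W, ?_, isOpen_set_pi hF fun i _ => h2 i, fun i _ => h3 i, ?_⟩
  · exact (Set.pi_mono fun i _ => h1 i).trans hVU
  · rw [← e, isConnected_univ_pi]
    intro i
    by_cases hi : i ∈ F
    · rw [if_pos hi]
      exact h4 i
    · rw [if_neg hi]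
      exact isConnected_univ

end INJ
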