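import Pool.Agent.INJ.KTargets

set_option autoImplicit false

/-!
# INJ, target PM: Fourier coefficients of the inverse of a linear pencil (helper5)
-/

namespace INJ

open Matrix Filter Topology

noncomputable section

theorem PM_cont {ι κ : Type} {R : Circle → Unit → Matrix ι κ ℂ}
    (h : Continuous (fun p : Circle × Unit => R p.1 p.2)) : Continuous (fun z => R z ()) :=
  h.comp (continuous_id.prodMk continuous_const)

theorem PM_right (hA : T_FCA) (hM : T_FCM) {ι κ μ : Type} [Fintype κ]
    (R : Circle → Unit → Matrix ι κ ℂ) (A B : Matrix κ μ ℂ) (C : Matrix ι μ ℂ)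
    (hR : Continuous (fun p : Circle × Unit => R p.1 p.2))
    (h : ∀ z : Circle, R z () * ((z : ℂ) • A + B) = C) (j : ℤ) :
    FC R (j - 1) () * A + FC R j () * B = if j = 0 then C else 0 := by
  have h1 := hM.2.1 Unit ι κ μ R (fun _ => A) hR (j - 1) ()
  have h2 := hM.2.1 Unit ι κ μ R (fun _ => B) hR j ()
  rw [← h1, ← h2]
  ext a b
  have hc : ∀ X : Matrix κ μ ℂ, Continuous fun z => (R z () * X) a b := fun X =>
    ((PM_cont hR).matrix_mul continuous_const).matrix_elem a b
  have hz : Continuous fun z : Circle => ((z ^ (1 : ℤ) : Circle) : ℂ) := by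
    simp only [zpow_one]
    exact continuous_subtype_val
  rw [Matrix.add_apply]
  change fc (fun z => (R z () * A) a b) (j - 1) + fc (fun z => (R z () * B) a b) j = _
  rw [← hA.2.1 (fun z => (R z () * A) a b) 1 j,
    ← hA.2.2.2.1 (fun z : Circle => ((z ^ (1 : ℤ) : Circle) : ℂ) * (R z () * A) a b)
      (fun z => (R z () * B) a b) j (hz.mul (hc A)) (hc B)]
  have h3 : (fun z : Circle => ((z ^ (1 : ℤ) : Circle) : ℂ) * (R z () * A) a b +
      (R z () * B) a b) = fun _ => C a b := by
    funext z
    rw [← h z, Matrix.mul_add, Matrix.mul_smul, Matrix.add_apply, Matrix.smul_apply, zpow_one,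
      smul_eq_mul]
  rw [h3, hA.1]
  by_cases hj : j = 0
  · rw [if_pos hj, if_pos hj]
  · rw [if_neg hj, if_neg hj, Matrix.zero_apply]

theorem PM_left (hA : T_FCA) (hM : T_FCM) {ι κ μ : Type} [Fintype κ]
    (R : Circle → Unit → Matrix κ μ ℂ) (A B : Matrix ι κ ℂ) (C : Matrix ι μ ℂ)
    (hR : Continuous (fun p : Circle × Unit => R p.1 p.2))
    (h : ∀ z : Circle, ((z : ℂ) • A + B) * R z () = C) (j : ℤ) :
    A * FC R (j - 1) () + B * FC R j () = if j = 0 then C else 0 := by
  have h1 := hM.2.2 Unit ι κ μ R (fun _ => A) hR (j - 1) ()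
  have h2 := hM.2.2 Unit ι κ μ R (fun _ => B) hR j ()
  rw [← h1, ← h2]
  ext a b
  have hc : ∀ X : Matrix ι κ ℂ, Continuous fun z => (X * R z ()) a b := fun X =>
    (continuous_const.matrix_mul (PM_cont hR)).matrix_elem a b
  have hz : Continuous fun z : Circle => ((z ^ (1 : ℤ) : Circle) : ℂ) := by
    simp only [zpow_one]
    exact continuous_subtype_val
  rw [Matrix.add_apply]
  change fc (fun z => (A * R z ()) a b) (j - 1) + fc (fun z => (B * R z ()) a b) j = _
  rw [← hA.2.1 (fun z => (A * R z ()) a b) 1 j,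
    ← hA.2.2.2.1 (fun z : Circle => ((z ^ (1 : ℤ) : Circle) : ℂ) * (A * R z ()) a b)
      (fun z => (B * R z ()) a b) j (hz.mul (hc A)) (hc B)]
  have h3 : (fun z : Circle => ((z ^ (1 : ℤ) : Circle) : ℂ) * (A * R z ()) a b +
      (B * R z ()) a b) = fun _ => C a b := by
    funext z
    rw [← h z, Matrix.add_mul, Matrix.smul_mul, Matrix.add_apply, Matrix.smul_apply, zpow_one,
      smul_eq_mul]
  rw [h3, hA.1]
  by_cases hj : j = 0
  · rw [if_pos hj, if_pos hj]
  · rw [if_neg hj, if_neg hj, Matrix.zero_apply]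

theorem PM_lim {ι κ : Type} (hF : T_FCR) (R : Circle → Unit → Matrix ι κ ℂ)
    (hR : Continuous (fun p : Circle × Unit => R p.1 p.2)) :
    Tendsto (fun m : ℕ => FC R m ()) atTop (𝓝 0) ∧
      Tendsto (fun m : ℕ => FC R (-2 - (m : ℤ)) ()) atTop (𝓝 0) := by
  have hc : ∀ a b, Continuous fun z => R z () a b := fun a b => (PM_cont hR).matrix_elem a b
  constructor
  · refine tendsto_pi_nhds.2 fun a => tendsto_pi_nhds.2 fun b => ?_
    exact (hF _ (hc a b)).1
  · refine tendsto_pi_nhds.2 fun a => tendsto_pi_nhds.2 fun b => ?_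
    have h1 := ((hF _ (hc a b)).2).comp (tendsto_add_atTop_nat 2)
    refine h1.congr fun m => ?_
    change fc (fun z => R z () a b) (-((m + 2 : ℕ) : ℤ)) = fc (fun z => R z () a b) (-2 - (m : ℤ))
    congr 1
    push_cast
    ring

/-- PM: Fourier coefficients of the inverse of a linear pencil -/
theorem p_PM (hA : T_FCA) (hF : T_FCR) (hM : T_FCM) : T_PM := by
  intro ι κ _ _ e0 e1 A B R hR h1 h2 h3
  have r1 := PM_right hA hM R A B e0 hR h1
  have r2 := PM_left hA hM R A B e1 hR h2
  have e0R : ∀ z, e0 * R z () = R z () := by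
    intro z
    rw [← h1 z, Matrix.mul_assoc, h2 z, h3 z]
  have r3 : ∀ j, FC R j () * e1 = FC R j () := by
    intro j
    have h := hM.2.1 Unit ι κ κ R (fun _ => e1) hR j ()
    rw [← h]
    have h' : (fun z x => R z x * e1) = R := by
      funext z x
      exact h3 z
    rw [h']
  have r4 : ∀ j, e0 * FC R j () = FC R j () := by
    intro j
    have h := hM.2.2 Unit ι ι κ R (fun _ => e0) hR j ()
    rw [← h]
    have h' : (fun z x => e0 * R z x) = R := by
      funext z x
      exact e0R z
    rw [h']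
  have r10 := r1 0
  have r20 := r2 0
  rw [if_pos rfl, zero_sub] at r10 r20
  refine ⟨r10, r20, ?_⟩
  -- the telescoping identity
  have key : ∀ m : ℕ, FC R (-1) () * A * FC R (-1) () =
      FC R (-1) () + FC R (-2 - (m : ℤ)) () * A * FC R m () := by
    intro m
    induction m with
    | zero =>
      have q1 := r1 (-1)
      rw [if_neg (by norm_num)] at q1
      have q2 : FC R (-1) () * B * FC R 0 () = -(FC R (-2) () * A * FC R 0 ()) := by
        have := congrArg (fun X => X * FC R 0 ()) q1
        simp only [Matrix.add_mul, Matrix.zero_mul] at this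
        rw [show (-1 - 1 : ℤ) = -2 by norm_num] at this
        exact eq_neg_of_add_eq_zero_right this
      have q3 : FC R (-1) () * A * FC R (-1) () + FC R (-1) () * B * FC R 0 () =
          FC R (-1) () := by
        rw [Matrix.mul_assoc, Matrix.mul_assoc, ← Matrix.mul_add, r20, r3]
      rw [q2] at q3
      rw [Nat.cast_zero, sub_zero]
      rw [← sub_eq_add_neg, sub_eq_iff_eq_add] at q3
      exact q3
    | succ m ih =>
      rw [ih]
      congr 1
      have q1 := r1 (-2 - (m : ℤ))
      rw [if_neg (by omega)] at q1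
      have q2 := r2 ((m : ℤ) + 1)
      rw [if_neg (by omega), add_sub_cancel_right] at q2
      have q3 : FC R (-2 - (m : ℤ)) () * B = -(FC R (-2 - (m : ℤ) - 1) () * A) :=
        eq_neg_of_add_eq_zero_right q1
      have q4 : A * FC R m () = -(B * FC R ((m : ℤ) + 1) ()) :=
        eq_neg_of_add_eq_zero_left q2
      have e2 : (-2 - ((m + 1 : ℕ) : ℤ)) = -2 - (m : ℤ) - 1 := by push_cast; ring
      have e3 : (((m + 1 : ℕ) : ℤ)) = (m : ℤ) + 1 := by push_cast; ring
      rw [e2, e3, Matrix.mul_assoc, q4, Matrix.mul_neg, ← Matrix.mul_assoc, q3, Matrix.neg_mul,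
        neg_neg]
  have hcont : Continuous fun p : Matrix ι κ ℂ × Matrix ι κ ℂ => p.1 * A * p.2 :=
    (continuous_fst.matrix_mul continuous_const).matrix_mul continuous_snd
  obtain ⟨l1, l2⟩ := PM_lim hF R hR
  have l3 : Tendsto (fun m : ℕ => FC R (-2 - (m : ℤ)) () * A * FC R m ()) atTop (𝓝 0) := by
    have h := (hcont.tendsto (0, 0)).comp (l2.prodMk_nhds l1)
    simp only [Matrix.mul_zero] at h
    exact h
  have l4 : Tendsto (fun _ : ℕ => FC R (-1) () * A * FC R (-1) ()) atTop
      (𝓝 (FC R (-1) () + 0)) := by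
    refine (tendsto_const_nhds.add l3).congr fun m => ?_
    exact (key m).symm
  rw [add_zero] at l4
  exact tendsto_nhds_unique tendsto_const_nhds l4

end

end INJ
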