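import Pool.Agent.INJ.KTargets

set_option autoImplicit false

/-!
# INJ: POL, the polynomial theorem
-/

namespace INJ

open Matrix

noncomputable section

section POL

variable {X ι κ : Type}

/-- coefficient of `z` in the linearised pencil -/
def POL_A (m : ℕ) (e0 : X → Matrix ι ι ℂ) (x : X) :
    Matrix (κ ⊕ Fin m × ι) (Fin (m + 1) × ι) ℂ := Matrix.of fun r q =>
  Sum.elim (fun _ => 0) (fun t : Fin m × ι => if q.1 = t.1.castSucc then -e0 x t.2 q.2 else 0) r

/-- constant coefficient of the linearised pencil -/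
def POL_B (m : ℕ) (e0 : X → Matrix ι ι ℂ) (a : ℕ → X → Matrix κ ι ℂ) (x : X) :
    Matrix (κ ⊕ Fin m × ι) (Fin (m + 1) × ι) ℂ := Matrix.of fun r q =>
  Sum.elim (fun g => a q.1 x g q.2)
    (fun t : Fin m × ι => if q.1 = t.1.succ then e0 x t.2 q.2 else 0) r

/-- inverse of the linearised pencil -/
def POL_R [Fintype ι] [Fintype κ] (m : ℕ) (e0 : X → Matrix ι ι ℂ) (a : ℕ → X → Matrix κ ι ℂ)
    (P : Circle → X → Matrix ι κ ℂ) (z : Circle) (x : X) :
    Matrix (Fin (m + 1) × ι) (κ ⊕ Fin m × ι) ℂ := Matrix.of fun q r =>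
  Sum.elim (fun g => (z : ℂ) ^ (q.1 : ℕ) * P z x q.2 g)
    (fun t : Fin m × ι =>
      (if (t.1 : ℕ) < q.1 then (z : ℂ) ^ ((q.1 : ℕ) - (t.1 + 1)) * e0 x q.2 t.2 else 0) -
      (z : ℂ) ^ (q.1 : ℕ) * ∑ l ∈ Finset.range (m + 1), if (t.1 : ℕ) < l then
        (z : ℂ) ^ (l - (t.1 + 1)) * (P z x * a l x) q.2 t.2 else 0) r

lemma POL_A_cont [TopologicalSpace X] (m : ℕ) (e0 : X → Matrix ι ι ℂ) (h : Continuous e0) :
    Continuous (POL_A (κ := κ) m e0) := by
  refine continuous_matrix ?_
  rintro (g | t) q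
  · exact continuous_const
  · simp only [POL_A, Matrix.of_apply, Sum.elim_inr]
    split_ifs
    · exact (h.matrix_elem t.2 q.2).neg
    · exact continuous_const

lemma POL_B_cont [TopologicalSpace X] (m : ℕ) (e0 : X → Matrix ι ι ℂ) (h : Continuous e0)
    (a : ℕ → X → Matrix κ ι ℂ) (ha : ∀ l, Continuous (a l)) :
    Continuous (POL_B m e0 a) := by
  refine continuous_matrix ?_
  rintro (g | t) q
  · exact (ha q.1).matrix_elem g q.2
  · simp only [POL_B, Matrix.of_apply, Sum.elim_inr]
    split_ifs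
    · exact h.matrix_elem t.2 q.2
    · exact continuous_const

lemma POL_R_cont [TopologicalSpace X] [Fintype ι] [Fintype κ] (m : ℕ) (e0 : X → Matrix ι ι ℂ)
    (h : Continuous e0) (a : ℕ → X → Matrix κ ι ℂ) (ha : ∀ l, Continuous (a l))
    (P : Circle → X → Matrix ι κ ℂ) (hP : Continuous (fun p : Circle × X => P p.1 p.2)) :
    Continuous (fun p : Circle × X => POL_R m e0 a P p.1 p.2) := by
  have hz : Continuous fun p : Circle × X => (p.1 : ℂ) := by fun_prop
  refine continuous_matrix ?_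
  rintro q (g | t)
  · exact (hz.pow _).mul (hP.matrix_elem q.2 g)
  · simp only [POL_R, Matrix.of_apply, Sum.elim_inr]
    refine Continuous.sub ?_ ((hz.pow _).mul (continuous_finsetSum _ fun l _ => ?_))
    · split_ifs
      · exact (hz.pow _).mul ((h.comp continuous_snd).matrix_elem q.2 t.2)
      · exact continuous_const
    · split_ifs
      · refine (hz.pow _).mul ?_
        have h1 : Continuous fun p : Circle × X => P p.1 p.2 * a l p.2 :=
          hP.matrix_mul ((ha l).comp continuous_snd)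
        exact h1.matrix_elem q.2 t.2
      · exact continuous_const

lemma POL_sumL [Fintype ι] [Fintype κ] (m : ℕ) (f : Matrix κ κ ℂ) (e : Matrix ι ι ℂ)
    (M : Matrix (κ ⊕ Fin m × ι) (Fin (m + 1) × ι) ℂ)
    (h1 : ∀ g q, ∑ g', f g g' * M (Sum.inl g') q = M (Sum.inl g) q)
    (h2 : ∀ (t : Fin m × ι) q, ∑ j, e t.2 j * M (Sum.inr (t.1, j)) q = M (Sum.inr t) q) :
    Matrix.fromBlocks f 0 0 (Matrix.of fun (p q : Fin m × ι) =>
      if p.1 = q.1 then e p.2 q.2 else 0) * M = M := by
  ext r q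
  rw [Matrix.mul_apply, Fintype.sum_sum_type]
  rcases r with g | t
  · simp only [Matrix.fromBlocks_apply₁₁, Matrix.fromBlocks_apply₁₂, Matrix.zero_apply, zero_mul,
      Finset.sum_const_zero, add_zero]
    exact h1 g q
  · simp only [Matrix.fromBlocks_apply₂₁, Matrix.fromBlocks_apply₂₂, Matrix.zero_apply, zero_mul,
      Finset.sum_const_zero, zero_add, Matrix.of_apply]
    rw [Fintype.sum_prod_type, Finset.sum_eq_single t.1]
    · simp only [if_true]
      exact h2 t q
    · intro b _ hb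
      refine Finset.sum_eq_zero fun j _ => ?_
      rw [if_neg (fun h => hb h.symm), zero_mul]
    · intro h
      exact absurd (Finset.mem_univ _) h

lemma POL_sumR [Fintype ι] (m : ℕ) (e : Matrix ι ι ℂ)
    (M : Matrix (κ ⊕ Fin m × ι) (Fin (m + 1) × ι) ℂ)
    (h : ∀ r (q : Fin (m + 1) × ι), ∑ j, M r (q.1, j) * e j q.2 = M r q) :
    M * (Matrix.of fun (p q : Fin (m + 1) × ι) => if p.1 = q.1 then e p.2 q.2 else 0) = M := by
  ext r q
  rw [Matrix.mul_apply, Fintype.sum_prod_type, Finset.sum_eq_single q.1]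
  · simp only [Matrix.of_apply, if_true]
    exact h r q
  · intro b _ hb
    refine Finset.sum_eq_zero fun j _ => ?_
    rw [Matrix.of_apply, if_neg hb, mul_zero]
  · intro h
    exact absurd (Finset.mem_univ _) h

end POL

lemma POL_fc_sum (hF : T_FCA) (s : Finset ℕ) (f : ℕ → Circle → ℂ) (hf : ∀ l, Continuous (f l))
    (j : ℤ) : fc (fun z => ∑ l ∈ s, f l z) j = ∑ l ∈ s, fc (f l) j := by
  classical
  induction s using Finset.induction with
  | empty =>
    simp only [Finset.sum_empty]
    rw [hF.1]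
    simp
  | insert b s hb ih =>
    simp only [Finset.sum_insert hb]
    rw [hF.2.2.2.1 _ _ j (hf b) (continuous_finsetSum _ fun l _ => hf l), ih]

lemma POL_fc_pow (hF : T_FCA) (f : Circle → ℂ) (k : ℕ) (j : ℤ) :
    fc (fun z => (z : ℂ) ^ k * f z) j = fc f (j - k) := by
  rw [← hF.2.1 f k j]
  simp only [zpow_natCast, Circle.coe_pow]

lemma POL_fc_neg (hF : T_FCA) (f : Circle → ℂ) (j : ℤ) :
    fc (fun z => -f z) j = -fc f j := by
  have := hF.2.2.2.2 f (-1) j
  simpa using this

/-- the Fourier coefficient of an entry of the inverse -/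
lemma POL_coef (hF : T_FCA) (hM : T_FCM) {X ι κ : Type} [TopologicalSpace X] [Fintype ι]
    [Fintype κ] (m : ℕ) (e0 : X → Matrix ι ι ℂ) (a : ℕ → X → Matrix κ ι ℂ)
    (P : Circle → X → Matrix ι κ ℂ) (hP : Continuous (fun p : Circle × X => P p.1 p.2)) (x : X)
    (p : Fin (m + 1) × ι) (t : Fin m × ι) :
    FC (POL_R m e0 a P) (-1) x p (Sum.inr t) =
      -∑ l ∈ Finset.range (m + 1), if (t.1 : ℕ) < l then
        (FC P ((t.1 : ℕ) - (p.1 : ℕ) - l : ℤ) x * a l x) p.2 t.2 else 0 := by
  have hz : Continuous fun z : Circle => (z : ℂ) := by fun_prop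
  have hPx : ∀ l, Continuous fun z : Circle => (P z x * a l x) p.2 t.2 := by
    intro l
    have h1 : Continuous fun z : Circle => P z x := hP.comp (by fun_prop : Continuous
      fun z : Circle => (z, x))
    exact (h1.matrix_mul continuous_const).matrix_elem p.2 t.2
  have e1 : FC (POL_R m e0 a P) (-1) x p (Sum.inr t) = fc (fun z : Circle =>
      (if (t.1 : ℕ) < p.1 then (z : ℂ) ^ ((p.1 : ℕ) - (t.1 + 1)) * e0 x p.2 t.2 else 0) +
      -((z : ℂ) ^ (p.1 : ℕ) * ∑ l ∈ Finset.range (m + 1), if (t.1 : ℕ) < l then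
        (z : ℂ) ^ (l - (t.1 + 1)) * (P z x * a l x) p.2 t.2 else 0)) (-1) := by
    simp only [FC, POL_R, Matrix.of_apply, Sum.elim_inr, sub_eq_add_neg]
  have hc1 : Continuous fun z : Circle => (if (t.1 : ℕ) < p.1 then
      (z : ℂ) ^ ((p.1 : ℕ) - (t.1 + 1)) * e0 x p.2 t.2 else 0) := by
    split_ifs
    · exact (hz.pow _).mul continuous_const
    · exact continuous_const
  have hc3 : ∀ l, Continuous fun z : Circle => (if (t.1 : ℕ) < l then
      (z : ℂ) ^ (l - (t.1 + 1)) * (P z x * a l x) p.2 t.2 else 0) := by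
    intro l
    split_ifs
    · exact (hz.pow _).mul (hPx l)
    · exact continuous_const
  have hc2 : Continuous fun z : Circle =>
      -((z : ℂ) ^ (p.1 : ℕ) * ∑ l ∈ Finset.range (m + 1), if (t.1 : ℕ) < l then
        (z : ℂ) ^ (l - (t.1 + 1)) * (P z x * a l x) p.2 t.2 else 0) :=
    ((hz.pow _).mul (continuous_finsetSum _ fun l _ => hc3 l)).neg
  rw [e1, hF.2.2.2.1 _ _ _ hc1 hc2, POL_fc_neg hF, POL_fc_pow hF, POL_fc_sum hF _ _ hc3]
  have h0 : fc (fun z : Circle => (if (t.1 : ℕ) < p.1 then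
      (z : ℂ) ^ ((p.1 : ℕ) - (t.1 + 1)) * e0 x p.2 t.2 else 0)) (-1) = 0 := by
    split_ifs
    · rw [POL_fc_pow hF, hF.1, if_neg (by omega)]
    · rw [hF.1]
      simp
  rw [h0, zero_add]
  congr 1
  refine Finset.sum_congr rfl fun l _ => ?_
  by_cases h : (t.1 : ℕ) < l
  · simp only [h, if_true]
    rw [POL_fc_pow hF, ← hM.2.1 X ι κ ι P (a l) hP]
    simp only [FC, Matrix.of_apply]
    congr 1
    omega
  · simp only [h, if_false]
    rw [hF.1]
    simp

/-- the polynomial theorem -/
theorem p_POL (hL : T_LIN) (hN : T_PEN) (hT : T_TENS) (hF : T_FCA) (hM : T_FCM) : T_POL := by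
  intro X _ s ζ ι κ _ _ _ E0 E1 c m a P hac hPc hae ha hP
  have hz0 : ∀ z : Circle, (z : ℂ) ≠ 0 := fun z => Circle.coe_ne_zero z
  have hlin : ∀ (z : Circle) (x : X), _ := fun z x => hL ι κ m (E0.e x) (E1.e x)
    (fun l => a l x) (P z x) z (hz0 z) (E0.idem x) (E1.idem x) (fun l => ha l x) (hP z x).1
    (hP z x).2.1 (hP z x).2.2
  have hEA : Eqv s ζ (fun k => (E1.sum (E0.tens (fun k : Fin m => c * ((k : ℕ) + 1)))).w k - c)
      (E0.tens (fun k : Fin (m + 1) => c * (k : ℕ))).w (POL_A m E0.e) := by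
    rintro x (g | t) q
    · simp [POL_A]
    · simp only [POL_A, Matrix.of_apply, Sum.elim_inr]
      split_ifs with h
      · rw [E0.eqv x t.2 q.2]
        have e4 : (E1.sum (E0.tens (fun k : Fin m => c * ((k : ℕ) + 1)))).w (Sum.inr t) - c -
            (E0.tens (fun k : Fin (m + 1) => c * (k : ℕ))).w q = E0.w t.2 - E0.w q.2 := by
          simp only [Idf.sum, Idf.tens, Sum.elim_inr, h, Fin.val_castSucc]
          ring
        rw [e4]
        ring
      · simp
  have hEB : Eqv s ζ (E1.sum (E0.tens (fun k : Fin m => c * ((k : ℕ) + 1)))).w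
      (E0.tens (fun k : Fin (m + 1) => c * (k : ℕ))).w (POL_B m E0.e a) := by
    rintro x (g | t) q
    · simp only [POL_B, Matrix.of_apply, Sum.elim_inl]
      exact hae q.1 x g q.2
    · simp only [POL_B, Matrix.of_apply, Sum.elim_inr]
      split_ifs with h
      · rw [E0.eqv x t.2 q.2]
        have e4 : (E1.sum (E0.tens (fun k : Fin m => c * ((k : ℕ) + 1)))).w (Sum.inr t) -
            (E0.tens (fun k : Fin (m + 1) => c * (k : ℕ))).w q = E0.w t.2 - E0.w q.2 := by
          simp only [Idf.sum, Idf.tens, Sum.elim_inr, h, Fin.val_succ]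
          push_cast
          ring
        rw [e4]
      · simp
  have hx4 : ∀ x, (E1.sum (E0.tens (fun k : Fin m => c * ((k : ℕ) + 1)))).e x *
      POL_A m E0.e x = POL_A m E0.e x ∧
      POL_A (κ := κ) m E0.e x * (E0.tens (fun k : Fin (m + 1) => c * (k : ℕ))).e x =
        POL_A m E0.e x ∧
      (E1.sum (E0.tens (fun k : Fin m => c * ((k : ℕ) + 1)))).e x * POL_B m E0.e a x =
        POL_B m E0.e a x ∧
      POL_B m E0.e a x * (E0.tens (fun k : Fin (m + 1) => c * (k : ℕ))).e x =
        POL_B m E0.e a x := by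
    intro x
    have h1 : ∀ i j, ∑ k, E0.e x i k * E0.e x k j = E0.e x i j := fun i j => by
      rw [← Matrix.mul_apply, E0.idem x]
    have h2 : ∀ l g j, ∑ k, E1.e x g k * a l x k j = a l x g j := fun l g j => by
      rw [← Matrix.mul_apply, (ha l x).1]
    have h3 : ∀ l g j, ∑ k, a l x g k * E0.e x k j = a l x g j := fun l g j => by
      rw [← Matrix.mul_apply, (ha l x).2]
    refine ⟨?_, ?_, ?_, ?_⟩
    · refine POL_sumL m (E1.e x) (E0.e x) _ ?_ ?_
      · intro g q
        simp [POL_A]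
      · intro t q
        simp only [POL_A, Matrix.of_apply, Sum.elim_inr]
        by_cases h : q.1 = t.1.castSucc
        · simp only [h, if_true, mul_neg, Finset.sum_neg_distrib, h1]
        · simp [h]
    · refine POL_sumR m (E0.e x) _ ?_
      rintro (g | t) q
      · simp [POL_A]
      · simp only [POL_A, Matrix.of_apply, Sum.elim_inr]
        by_cases h : q.1 = t.1.castSucc
        · simp only [h, if_true, neg_mul, Finset.sum_neg_distrib, h1]
        · simp [h]
    · refine POL_sumL m (E1.e x) (E0.e x) _ ?_ ?_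
      · intro g q
        simp only [POL_B, Matrix.of_apply, Sum.elim_inl, h2]
      · intro t q
        simp only [POL_B, Matrix.of_apply, Sum.elim_inr]
        by_cases h : q.1 = t.1.succ
        · simp only [h, if_true, h1]
        · simp [h]
    · refine POL_sumR m (E0.e x) _ ?_
      rintro (g | t) q
      · simp only [POL_B, Matrix.of_apply, Sum.elim_inl, h3]
      · simp only [POL_B, Matrix.of_apply, Sum.elim_inr]
        by_cases h : q.1 = t.1.succ
        · simp only [h, if_true, h1]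
        · simp [h]
  obtain ⟨Q, hQw, hQe, hQc⟩ := hN X s ζ (Fin (m + 1) × ι) (κ ⊕ Fin m × ι)
    (E0.tens (fun k : Fin (m + 1) => c * (k : ℕ)))
    (E1.sum (E0.tens (fun k : Fin m => c * ((k : ℕ) + 1)))) c (POL_A m E0.e)
    (POL_B m E0.e a) (POL_R m E0.e a P) (POL_A_cont m _ E0.cont) (POL_B_cont m _ E0.cont a hac)
    (POL_R_cont m _ E0.cont a hac P hPc) hEA hEB hx4 (fun z x => hlin z x)
  refine ⟨Q, ?_, ?_, ?_⟩
  · intro q
    rw [hQw]
    rfl
  · intro x p q
    rw [hQe, Matrix.mul_apply, Fintype.sum_sum_type]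
    have e1 : ∑ g : κ, FC (POL_R m E0.e a P) (-1) x p (Sum.inl g) *
        POL_A m E0.e x (Sum.inl g) q = 0 := by
      refine Finset.sum_eq_zero fun g _ => ?_
      simp [POL_A]
    rw [e1, zero_add]
    simp only [POL_coef hF hM m E0.e a P hPc, POL_A, Matrix.of_apply, Sum.elim_inr]
    obtain ⟨k, i⟩ := q
    induction k using Fin.lastCases with
    | last =>
      rw [Finset.sum_eq_zero, Finset.sum_eq_zero]
      · intro l hl
        rw [Finset.mem_range] at hl
        rw [if_neg]
        simp only [Fin.val_last]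
        omega
      · intro t _
        rw [if_neg, mul_zero]
        exact fun h => (Fin.castSucc_lt_last t.1).ne h.symm
    | cast k =>
      rw [Fintype.sum_prod_type, Finset.sum_eq_single k]
      · simp only [if_true, Fin.val_castSucc]
        simp only [neg_mul_neg, Finset.sum_mul]
        rw [Finset.sum_comm]
        refine Finset.sum_congr rfl fun l _ => ?_
        by_cases h : (k : ℕ) < l
        · simp only [h, if_true]
          rw [← Matrix.mul_apply, Matrix.mul_assoc, (ha l x).2]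
        · simp [h]
      · intro b _ hb
        refine Finset.sum_eq_zero fun j _ => ?_
        rw [if_neg, mul_zero]
        exact fun h => hb (Fin.castSucc_injective m h).symm
      · intro h
        exact absurd (Finset.mem_univ _) h
  · rw [← hQc, cls_sum, hT, hT, Fin.sum_univ_succ]
    have e2 : T (c * ((0 : Fin (m + 1)) : ℕ)) E0.cls = E0.cls := by
      simp [T_zero]
    rw [e2]
    have e3 : ∑ i : Fin m, T (c * ((i.succ : Fin (m + 1)) : ℕ)) E0.cls =
        ∑ k : Fin m, T (c * ((k : ℕ) + 1)) E0.cls := by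
      refine Finset.sum_congr rfl fun k _ => ?_
      simp
    rw [e3]
    abel

end

end INJ
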