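import Pool.Agent.INJ.GTargets

set_option autoImplicit false

/-!
# INJ, part G: shifting the coordinates of the Hilbert cube
-/

namespace INJ

open TopologicalSpace

noncomputable section

/-- insert the coordinate `K` -/
def QSH_a (K : ℕ) (q : QX) : QX := ⟨fun k => if k < K then q.val k else q.val (k + 1)⟩

/-- inverse of the shift -/
def QSH_inv (K : ℕ) (q : QX) (u : unitInterval) : QX :=
  ⟨fun k => if k < K then q.val k else if k = K then u else q.val (k - 1)⟩

lemma QSH_cont_a (K : ℕ) : Continuous (QSH_a K) := by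
  have h : Continuous (fun q : QX => (fun k => if k < K then q.val k else q.val (k + 1) :
      ℕ → unitInterval)) := by
    refine continuous_pi fun k => ?_
    by_cases hk : k < K
    · simp only [if_pos hk]
      exact (continuous_apply k).comp QX_continuous_val
    · simp only [if_neg hk]
      exact (continuous_apply (k + 1)).comp QX_continuous_val
  exact QX_continuous_mk.comp h

lemma QSH_dist (K : ℕ) (q : QX) : dist (QSH_a K q) q ≤ 2 * (2⁻¹ : ℝ) ^ K := by
  rw [QX_dist]
  have hs : Summable (fun i : ℕ => (2⁻¹ : ℝ) ^ i) := by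
    apply summable_geometric_of_lt_one <;> norm_num
  set f : ℕ → ℝ := fun i => min (2⁻¹ ^ Encodable.encode i)
    (dist ((QSH_a K q).val i) (q.val i)) with hf
  have h0 : ∀ i, 0 ≤ f i := fun i => le_min (by positivity) dist_nonneg
  have h1 : ∀ i, f i ≤ (2⁻¹ : ℝ) ^ i := fun i => min_le_left _ _
  have hsf : Summable f := Summable.of_nonneg_of_le h0 h1 hs
  have hz : ∀ i ∈ Finset.range K, f i = 0 := by
    intro i hi
    have hi' : i < K := Finset.mem_range.1 hi
    simp only [hf, QSH_a, if_pos hi', dist_self]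
    exact min_eq_right (by positivity)
  have h2 := hsf.sum_add_tsum_nat_add K
  rw [Finset.sum_eq_zero hz, zero_add] at h2
  rw [← h2]
  have h3 : ∑' i, f (i + K) ≤ ∑' i : ℕ, (2⁻¹ : ℝ) ^ K * (2⁻¹ : ℝ) ^ i := by
    refine Summable.tsum_le_tsum (fun i => ?_) ((summable_nat_add_iff K).2 hsf)
      (hs.mul_left _)
    have := h1 (i + K)
    rw [pow_add] at this
    linarith [mul_comm ((2⁻¹ : ℝ) ^ i) ((2⁻¹ : ℝ) ^ K)]
  refine h3.trans (le_of_eq ?_)
  rw [tsum_mul_left, tsum_geometric_of_lt_one (by norm_num) (by norm_num)]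
  norm_num
  ring

theorem p_QSH : T_QSH := by
  intro ε hε
  obtain ⟨K, hK⟩ := exists_pow_lt_of_lt_one (show (0 : ℝ) < ε / 2 by positivity)
    (show (2⁻¹ : ℝ) < 1 by norm_num)
  refine ⟨QSH_a K, fun q => q.val K, QSH_cont_a K, (continuous_apply K).comp QX_continuous_val,
    fun q => lt_of_le_of_lt (QSH_dist K q) (by linarith), fun q u => ⟨QSH_inv K q u, ?_, ?_⟩⟩
  · have : (QSH_a K (QSH_inv K q u)).val = q.val := by
      funext k
      by_cases hk : k < K
      · simp [QSH_a, QSH_inv, hk]
      · have h1 : ¬ (k + 1 < K) := by omega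
        have h2 : ¬ (k + 1 = K) := by omega
        simp [QSH_a, QSH_inv, hk, h1, h2]
    exact congrArg QX.mk this
  · simp [QSH_inv]

end

end INJ
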