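import Pool.Agent.INJ.MTargets

set_option autoImplicit false

/-!
# INJ: target REP
-/

namespace INJ

open Quaternion

/-- the norm of the constant section -/
lemma REP_norm (hZ : T_Z12) : ‖rho * eJ‖ = 1 / 2 := by
  obtain ⟨-, -, -, -, -, -, -, -, -, -, -, -, h1, h2⟩ := hZ
  rw [norm_mul, h1, h2, mul_one]

theorem p_REP (hTS : T_TS) (hINY : T_INY) (hZ : T_Z12) (hBT : T_BT) (hKAP : T_KAP)
    (hLAM : T_LAM) (hGG : T_GG) : T_REP := by
  intro j t v hM a
  have hMa := hM a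
  by_cases hj : a.1 = j
  swap
  · have hs : (suc a).1 ≠ j := hj
    simp only [repM, if_neg hj, if_neg hs]
    exact hMa
  have hs : (suc a).1 = j := hj
  simp only [repM, if_pos hj, if_pos hs]
  obtain ⟨hl01, -, -, -, hl0, -, -⟩ := hLAM a
  have hk1 := (hKAP.1 a).1
  have hk2 : kap a ≤ 1 / 8 := le_trans (hKAP.1 a).2 (by norm_num)
  have hv : 1 / 10 ≤ ‖rho * eJ‖ := by rw [REP_norm hZ]; norm_num
  obtain ⟨-, -, -, -, hrho, hn, -, -⟩ := hINY (kap a) hk1 hk2
  by_cases h0 : lam a t = 0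
  · obtain ⟨-, -, hg, -, -⟩ := hGG
    obtain ⟨-, -, -, hb, -⟩ := hBT (N a.2) (hKAP.2.2.2.2 a)
    rw [hg a t _ h0 hv, hb]
    have hne : eJ ≠ 0 := by
      intro h
      have h1 := REP_norm hZ
      rw [h, mul_zero, norm_zero] at h1
      norm_num at h1
    have hc : rho * eJ = eJ * rho := Quaternion.coe_commutes (1 / 2 : ℝ) eJ
    rw [hc, inv_mul_cancel_left₀ hne]
    exact hrho _
  · have hd : kap a ≤ dZ (ss a t) := by
      by_contra hlt
      exact h0 ((hl0 t).2 (le_of_lt (not_le.1 hlt)))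
    rw [hn _ _ hd, norm_mul, norm_inv, hGG.1 a t _ (Or.inl hv), inv_one, one_mul, REP_norm hZ]
    obtain ⟨-, -, -, -, -, -, hR, -⟩ := hTS (kap a) hk1 hk2
    rw [hR]
    exact Int.fract_nonneg _

end INJ
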