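import Pool.Agent.INJ.KTargets

set_option autoImplicit false

/-!
# INJ: restriction to the weights divisible by `q`
-/

namespace INJ

open Matrix

noncomputable section

/-- the hypotheses of the restriction -/
structure RES_Hyp {Y : Type} (s : Y → Y) (ζ ζ' : Circle) (m q : ℕ) : Prop where
  per : ∀ y, s^[m] y = y
  pos : 0 < q
  dvd : ∀ d : ℤ, ζ ^ ((m : ℤ) * d) = 1 → (q : ℤ) ∣ d
  pow : ζ ^ q = ζ'

section entries

variable {Y ι κ μ : Type} {s : Y → Y} {ζ ζ' : Circle} {m q : ℕ}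

lemma RES_iter {w : ι → ℤ} {w' : κ → ℤ} {A : Y → Matrix ι κ ℂ} (h : Eqv s ζ w w' A) (k : ℕ)
    (y : Y) (i : ι) (j : κ) :
    A (s^[k] y) i j = ((ζ ^ ((k : ℤ) * (w i - w' j)) : Circle) : ℂ) * A y i j := by
  induction k with
  | zero => simp
  | succ k ih =>
    rw [Function.iterate_succ_apply', h, ih, ← mul_assoc, ← Circle.coe_mul, ← _root_.zpow_add]
    have : w i - w' j + (k : ℤ) * (w i - w' j) = ((k + 1 : ℕ) : ℤ) * (w i - w' j) := by
      push_cast; ring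
    rw [this]

lemma RES_zero (H : RES_Hyp s ζ ζ' m q) {w : ι → ℤ} {w' : κ → ℤ} {A : Y → Matrix ι κ ℂ}
    (h : Eqv s ζ w w' A) (y : Y) (i : ι) (j : κ) (hn : ¬ (q : ℤ) ∣ w i - w' j) :
    A y i j = 0 := by
  by_contra h0
  apply hn
  apply H.dvd
  have h1 := RES_iter h m y i j
  rw [H.per] at h1
  have h2 : ((ζ ^ ((m : ℤ) * (w i - w' j)) : Circle) : ℂ) = 1 :=
    mul_right_cancel₀ h0 (by rw [← h1, one_mul])
  exact Circle.ext (by rw [h2, Circle.coe_one])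

lemma RES_sum [Fintype κ] (w' : κ → ℤ) (f : κ → ℂ) (hf : ∀ k, ¬ (q : ℤ) ∣ w' k → f k = 0) :
    ∑ k : {k // (q : ℤ) ∣ w' k}, f k = ∑ k, f k := by
  rw [← Finset.sum_subtype (Finset.univ.filter fun k => (q : ℤ) ∣ w' k) (by simp) f]
  refine Finset.sum_filter_of_ne fun k _ hk => ?_
  by_contra hn
  exact hk (hf k hn)

lemma RES_mul [Fintype κ] (H : RES_Hyp s ζ ζ' m q) {w : ι → ℤ} {w' : κ → ℤ} {w'' : μ → ℤ}
    {A : Y → Matrix ι κ ℂ} {B : Y → Matrix κ μ ℂ} (hA : Eqv s ζ w w' A) (y : Y) :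
    (A y).submatrix (fun i : {i // (q : ℤ) ∣ w i} => i.1)
        (fun k : {k // (q : ℤ) ∣ w' k} => k.1) *
      (B y).submatrix (fun k : {k // (q : ℤ) ∣ w' k} => k.1)
        (fun j : {j // (q : ℤ) ∣ w'' j} => j.1) =
      (A y * B y).submatrix (fun i : {i // (q : ℤ) ∣ w i} => i.1)
        (fun j : {j // (q : ℤ) ∣ w'' j} => j.1) := by
  ext i j
  simp only [Matrix.mul_apply, Matrix.submatrix_apply]
  refine RES_sum w' (fun k => A y i.1 k * B y k j.1) fun k hk => ?_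
  have h0 : A y i.1 k = 0 := RES_zero H hA y i.1 k fun hd => hk ((dvd_sub_right i.2).1 hd)
  rw [h0, zero_mul]

lemma RES_eqv (H : RES_Hyp s ζ ζ' m q) {w : ι → ℤ} {w' : κ → ℤ} {A : Y → Matrix ι κ ℂ}
    (h : Eqv s ζ w w' A) :
    Eqv s ζ' (fun i : {i // (q : ℤ) ∣ w i} => w i / (q : ℤ))
      (fun k : {k // (q : ℤ) ∣ w' k} => w' k / (q : ℤ))
      (fun y => (A y).submatrix (fun i : {i // (q : ℤ) ∣ w i} => i.1)
        (fun k : {k // (q : ℤ) ∣ w' k} => k.1)) := by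
  intro y i j
  simp only [Matrix.submatrix_apply]
  rw [h y i.1 j.1]
  have : ζ ^ (w i.1 - w' j.1) = ζ' ^ (w i.1 / (q : ℤ) - w' j.1 / (q : ℤ)) := by
    rw [← H.pow, ← zpow_natCast, ← _root_.zpow_mul, mul_sub, Int.mul_ediv_cancel' i.2,
      Int.mul_ediv_cancel' j.2]
  rw [this]

end entries

section families

variable {Y : Type} [TopologicalSpace Y] {s : Y → Y} {ζ ζ' : Circle} {m q : ℕ}
  {ι κ : Type} [Fintype ι] [Fintype κ]

/-- restriction of a family -/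
def RES_idf (H : RES_Hyp s ζ ζ' m q) (E : Idf Y s ζ ι) :
    Idf Y s ζ' {i // (q : ℤ) ∣ E.w i} where
  w := fun i => E.w i / (q : ℤ)
  e := fun y => (E.e y).submatrix (fun i => i.1) (fun i => i.1)
  cont := E.cont.matrix_submatrix _ _
  idem := fun y => by
    have h1 := RES_mul (w'' := E.w) (B := E.e) H E.eqv y
    rw [h1, E.idem y]
  eqv := RES_eqv H E.eqv

lemma RES_MvN (H : RES_Hyp s ζ ζ' m q) {E : Idf Y s ζ ι} {F : Idf Y s ζ κ} (h : MvN E F) :
    MvN (RES_idf H E) (RES_idf H F) := by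
  obtain ⟨x, y, hx, hy, ex, ey, h⟩ := h
  refine ⟨fun b => (x b).submatrix (fun i => i.1) (fun i => i.1),
    fun b => (y b).submatrix (fun i => i.1) (fun i => i.1), hx.matrix_submatrix _ _,
    hy.matrix_submatrix _ _, RES_eqv H ex, RES_eqv H ey, fun b => ⟨?_, ?_⟩⟩
  · have h1 := RES_mul (w'' := E.w) (B := y) H ex b
    rw [h1, (h b).1]
    rfl
  · have h1 := RES_mul (w'' := F.w) (B := x) H ey b
    rw [h1, (h b).2]
    rfl

lemma RES_idf_sum (H : RES_Hyp s ζ ζ' m q) (E : Idf Y s ζ ι) (F : Idf Y s ζ κ) :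
    MvN (RES_idf H (E.sum F)) ((RES_idf H E).sum (RES_idf H F)) := by
  refine MvN.of_reindex
    (Equiv.subtypeSum (p := fun i : ι ⊕ κ => (q : ℤ) ∣ (E.sum F).w i)).symm ?_ ?_
  · rintro (i | i) <;> rfl
  · rintro y (i | i) (j | j) <;> rfl

/-- the restriction homomorphism -/
def RES_hom (H : RES_Hyp s ζ ζ' m q) : KG Y s ζ →+ KG Y s ζ' :=
  liftHom (fun _ E => (RES_idf H E).cls) (fun _ _ _ _ h => cls_of_MvN (RES_MvN H h))
    (by
      intro n m' k E F G h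
      rw [← cls_sum]
      exact (cls_of_MvN ((RES_idf_sum H E F).symm.trans (RES_MvN H h))).symm)

lemma RES_cls (H : RES_Hyp s ζ ζ' m q) (E : Idf Y s ζ ι) :
    RES_hom H E.cls = (RES_idf H E).cls := by
  rw [RES_hom, liftHom_cls]
  exact cls_of_MvN (RES_MvN H (MvN.reindex E (Fintype.equivFin ι).symm))

lemma RES_T (H : RES_Hyp s ζ ζ' m q) (c : ℤ) (x : KG Y s ζ) :
    RES_hom H (T (q * c) x) = T c (RES_hom H x) := by
  suffices h : (RES_hom H).comp (T (q * c) : KG Y s ζ →+ KG Y s ζ) = (T c).comp (RES_hom H) from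
    DFunLike.congr_fun h x
  refine hom_ext fun n E => ?_
  rw [AddMonoidHom.comp_apply, AddMonoidHom.comp_apply, T_cls, RES_cls, RES_cls, T_cls]
  have hq : (q : ℤ) ≠ 0 := by exact_mod_cast H.pos.ne'
  have hd : ∀ i, (q : ℤ) ∣ E.w i ↔ (q : ℤ) ∣ (E.shift (q * c)).w i := fun i =>
    (dvd_add_left (dvd_mul_right (q : ℤ) c)).symm
  refine cls_of_MvN (MvN.of_reindex (Equiv.subtypeEquivRight hd) (fun i => ?_) fun y i j => rfl)
  exact (Int.add_mul_ediv_left (E.w i.1) c hq).symm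

lemma RES_cls_empty [IsEmpty ι] (E : Idf Y s ζ ι) : E.cls = 0 := by
  have h : E.mk' = 0 := by
    rw [zero_def, mk'_eq_iff]
    exact MvN.of_reindex (Equiv.equivOfIsEmpty _ _) (fun i => i.elim) (fun y i => i.elim)
  rw [Idf.cls, h, map_zero]

end families

theorem p_RES : T_RES := by
  intro Y _ s ζ ζ' m q hper hpos hdvd hpow
  have H : RES_Hyp s ζ ζ' m q := ⟨hper, hpos, hdvd, hpow⟩
  refine ⟨RES_hom H, RES_T H, ?_, ?_⟩
  · intro ι _ E c hw hc
    rw [T_cls, RES_cls]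
    have : IsEmpty {i // (q : ℤ) ∣ (E.shift c).w i} := by
      refine ⟨fun i => hc ?_⟩
      have h1 : (q : ℤ) ∣ E.w i.1 + c := i.2
      rwa [hw, zero_add] at h1
    exact RES_cls_empty _
  · intro ι _ E E' hw hw' he
    rw [RES_cls]
    have hd : ∀ i, (q : ℤ) ∣ E.w i := fun i => by rw [hw]; exact dvd_zero _
    refine cls_of_MvN (MvN.of_reindex (Equiv.subtypeUnivEquiv hd).symm (fun i => ?_)
      fun y i j => ?_)
    · rw [hw']
      change 0 = E.w i / (q : ℤ)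
      rw [hw, Int.zero_ediv]
    · rw [he]
      rfl

end

end INJ
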