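import Pool.Agent.INJ.KTargets

set_option autoImplicit false

/-!
# INJ, target ROT: rotations and the collapse of the centre act as the identity
-/

namespace INJ

noncomputable section

lemma ROT_zeta_pow : (zeta 0 : Circle) ^ 5 = 1 := by
  unfold zeta N
  rw [← Circle.exp_nsmul]
  have : (5 : ℕ) • (2 * Real.pi / ((5 ^ 2 ^ 0 : ℕ) : ℝ)) = 2 * Real.pi := by
    rw [nsmul_eq_mul]
    push_cast
    ring
  rw [this, Circle.exp_two_pi]

/-- on the boundary of the disc the rotation by `zeta 0` is not seen by `qq` -/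
lemma ROT_qq_om (z : DD) (hz : ‖(z : ℂ)‖ = 1) : qq (rotD (zeta 0) z) = qq z := by
  apply Subtype.ext
  show qM (rotD (zeta 0) z) = qM z
  unfold qM rotD
  have h1 : ((zeta 0 : Circle) : ℂ) ^ 5 = 1 := by
    rw [← Circle.coe_pow, ROT_zeta_pow, Circle.coe_one]
  ext1
  · simp only
    rw [mul_pow, h1, one_mul]
  · simp only
    rw [norm_mul, Circle.norm_coe, one_mul, hz]
    simp

lemma ROT_norm (u : Circle) (z : DD) : ‖((rotD u z : DD) : ℂ)‖ = ‖(z : ℂ)‖ := by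
  show ‖(u : ℂ) * (z : ℂ)‖ = _
  rw [norm_mul, Circle.norm_coe, one_mul]

lemma ROT_comm (u v : Circle) (z : DD) : rotD u (rotD v z) = rotD v (rotD u z) := by
  apply Subtype.ext
  show (u : ℂ) * ((v : ℂ) * (z : ℂ)) = (v : ℂ) * ((u : ℂ) * (z : ℂ))
  ring

lemma ROT_one (z : DD) : rotD 1 z = z := by
  apply Subtype.ext
  show ((1 : Circle) : ℂ) * (z : ℂ) = z
  rw [Circle.coe_one, one_mul]

/-- a homotopy of the disc compatible with the boundary identification gives a homotopy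
of `Y × MM` -/
lemma ROT_fam (hMQ : T_MQ) (Y : Type) [TopologicalSpace Y] (φ : unitInterval × DD → DD)
    (hφ : Continuous φ)
    (hφ1 : ∀ r (z : DD), ‖(z : ℂ)‖ = 1 → qq (φ (r, rotD (zeta 0) z)) = qq (φ (r, z))) :
    ∃ h : (Y × MM) × unitInterval → Y × MM, Continuous h ∧
      ∀ y z r, h ((y, qq z), r) = (y, qq (φ (r, z))) := by
  obtain ⟨g, hg, hg1⟩ := hMQ (Y × unitInterval) MM (fun p => qq (φ (p.1.2, p.2)))
    (continuous_qq.comp (hφ.comp
      ((continuous_snd.comp continuous_fst).prodMk continuous_snd)))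
    (fun y z hz => hφ1 y.2 z hz)
  refine ⟨fun p => (p.1.1, g ((p.1.1, p.2), p.1.2)), ?_, ?_⟩
  · refine (continuous_fst.comp continuous_fst).prodMk (hg.comp ?_)
    exact ((continuous_fst.comp continuous_fst).prodMk continuous_snd).prodMk
      (continuous_snd.comp continuous_fst)
  · intro y z r
    show (y, g ((y, r), qq z)) = _
    rw [hg1]

lemma ROT_eqv {Y : Type} (s : Y → Y) (φ : unitInterval × DD → DD)
    (h : (Y × MM) × unitInterval → Y × MM)
    (hh : ∀ y z r, h ((y, qq z), r) = (y, qq (φ (r, z)))) (p : Y × MM) (r : unitInterval) :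
    h (Prod.map s id p, r) = Prod.map s id (h (p, r)) := by
  obtain ⟨y, m⟩ := p
  obtain ⟨z, rfl⟩ := qq_surj m
  show h ((s y, qq z), r) = _
  rw [hh, hh]
  rfl

/-- the maps of the homotopy -/
def ROT_E {Y : Type} [TopologicalSpace Y] (s : Y → Y)
    (h : (Y × MM) × unitInterval → Y × MM) (hc : Continuous h)
    (he : ∀ p r, h (Prod.map s id p, r) = Prod.map s id (h (p, r))) (r : unitInterval) :
    EMap (Y × MM) (Prod.map s id) (Y × MM) (Prod.map s id) where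
  f := fun p => h (p, r)
  cont := hc.comp (continuous_id.prodMk continuous_const)
  eqv := fun p => he p r

lemma ROT_pull_id {Y : Type} [TopologicalSpace Y] {s : Y → Y} {ζ : Circle} (f : EMap Y s Y s)
    (hf : ∀ y, f.f y = y) (x : KG Y s ζ) : pull f x = x := by
  suffices h : (pull f : KG Y s ζ →+ KG Y s ζ) = AddMonoidHom.id _ by
    rw [h]; rfl
  refine hom_ext fun n E => ?_
  rw [pull_cls]
  refine cls_of_MvN (MvN.of_reindex (Equiv.refl _) (fun i => rfl) (fun y i j => ?_))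
  show E.e y i j = E.e (f.f y) i j
  rw [hf]

/-- if the homotopy starts with the identity, its end acts as the identity -/
lemma ROT_act (hHOM : T_HOM) (Y : Type) [TopologicalSpace Y] [CompactSpace Y] (s : Y → Y)
    (ζ : Circle) (φ : unitInterval × DD → DD) (hφ0 : ∀ z, φ (0, z) = z)
    (h : (Y × MM) × unitInterval → Y × MM) (hc : Continuous h)
    (hh : ∀ y z r, h ((y, qq z), r) = (y, qq (φ (r, z))))
    (f : EMap (Y × MM) (Prod.map s id) (Y × MM) (Prod.map s id))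
    (hf : ∀ y z, f.f (y, qq z) = (y, qq (φ (1, z))))
    (x : KG (Y × MM) (Prod.map s id) ζ) : pull f x = x := by
  have he := ROT_eqv s φ h hh
  have h0 : ∀ p, (ROT_E s h hc he 0).f p = p := by
    rintro ⟨y, m⟩
    obtain ⟨z, rfl⟩ := qq_surj m
    show h ((y, qq z), 0) = _
    rw [hh, hφ0]
  have h1 : pull (ROT_E s h hc he 0) x = pull f x := by
    refine hHOM (Y × MM) (Prod.map s id) (Y × MM) (Prod.map s id) ζ h hc he _ f
      (fun p => rfl) ?_ x
    rintro ⟨y, m⟩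
    obtain ⟨z, rfl⟩ := qq_surj m
    rw [hf, hh]
  rw [← h1]
  exact ROT_pull_id _ h0 x

/-- the rotation homotopy -/
def ROT_phi (t : ℝ) : unitInterval × DD → DD := fun p => rotD (Circle.exp ((p.1 : ℝ) * t)) p.2

lemma ROT_phi_cont (t : ℝ) : Continuous (ROT_phi t) := by
  have : Continuous fun p : unitInterval × DD =>
      ((Circle.exp ((p.1 : ℝ) * t) : Circle) : ℂ) * (p.2 : ℂ) := by
    fun_prop
  exact this.subtype_mk _

lemma ROT_phi_om (t : ℝ) (r : unitInterval) (z : DD) (hz : ‖(z : ℂ)‖ = 1) :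
    qq (ROT_phi t (r, rotD (zeta 0) z)) = qq (ROT_phi t (r, z)) := by
  show qq (rotD _ (rotD (zeta 0) z)) = qq (rotD _ z)
  rw [ROT_comm]
  exact ROT_qq_om _ (by rw [ROT_norm]; exact hz)

/-- the radial factor of the collapse -/
def ROT_fac (r t : ℝ) : ℝ := (1 - r) + r * max 0 (2 * t - 1)

lemma ROT_fac_nonneg {r t : ℝ} (h0 : 0 ≤ r) (h1 : r ≤ 1) : 0 ≤ ROT_fac r t := by
  unfold ROT_fac
  have := mul_nonneg h0 (le_max_left (0 : ℝ) (2 * t - 1))
  linarith

lemma ROT_fac_le {r t : ℝ} (h0 : 0 ≤ r) (ht : t ≤ 1) : ROT_fac r t ≤ 1 := by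
  unfold ROT_fac
  have h2 : max 0 (2 * t - 1) ≤ 1 := max_le (by norm_num) (by linarith)
  nlinarith

/-- the collapse homotopy -/
def ROT_psi (p : unitInterval × DD) : DD :=
  ⟨((ROT_fac p.1 ‖(p.2 : ℂ)‖ : ℝ) : ℂ) * (p.2 : ℂ), by
    have h2 := p.2.2
    rw [mem_closedBall_zero_iff] at h2 ⊢
    rw [norm_mul, Complex.norm_real, Real.norm_eq_abs,
      abs_of_nonneg (ROT_fac_nonneg p.1.2.1 p.1.2.2)]
    have h3 := ROT_fac_le (t := ‖(p.2 : ℂ)‖) p.1.2.1 h2
    have h4 := ROT_fac_nonneg (t := ‖(p.2 : ℂ)‖) p.1.2.1 p.1.2.2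
    nlinarith [norm_nonneg (p.2 : ℂ)]⟩

lemma ROT_psi_cont : Continuous ROT_psi := by
  have : Continuous fun p : unitInterval × DD =>
      ((ROT_fac p.1 ‖(p.2 : ℂ)‖ : ℝ) : ℂ) * (p.2 : ℂ) := by
    unfold ROT_fac
    fun_prop
  exact this.subtype_mk _

lemma ROT_psi_one (r : unitInterval) (z : DD) (hz : ‖(z : ℂ)‖ = 1) : ROT_psi (r, z) = z := by
  apply Subtype.ext
  show ((ROT_fac r ‖(z : ℂ)‖ : ℝ) : ℂ) * (z : ℂ) = z
  have : ROT_fac r ‖(z : ℂ)‖ = 1 := by
    unfold ROT_fac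
    rw [hz]
    norm_num
  rw [this, Complex.ofReal_one, one_mul]

lemma ROT_psi_om (r : unitInterval) (z : DD) (hz : ‖(z : ℂ)‖ = 1) :
    qq (ROT_psi (r, rotD (zeta 0) z)) = qq (ROT_psi (r, z)) := by
  rw [ROT_psi_one r z hz, ROT_psi_one r _ (by rw [ROT_norm]; exact hz)]
  exact ROT_qq_om z hz

lemma ROT_psi_zero (z : DD) : ROT_psi (0, z) = z := by
  apply Subtype.ext
  show ((ROT_fac ((0 : unitInterval) : ℝ) ‖(z : ℂ)‖ : ℝ) : ℂ) * (z : ℂ) = z
  have : ROT_fac ((0 : unitInterval) : ℝ) ‖(z : ℂ)‖ = 1 := by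
    unfold ROT_fac
    simp
  rw [this, Complex.ofReal_one, one_mul]

lemma ROT_psi_small (z : DD) (hz : ‖(z : ℂ)‖ ≤ 1 / 2) : qq (ROT_psi (1, z)) = m0 := by
  unfold m0
  congr 1
  apply Subtype.ext
  show ((ROT_fac ((1 : unitInterval) : ℝ) ‖(z : ℂ)‖ : ℝ) : ℂ) * (z : ℂ) = 0
  have : ROT_fac ((1 : unitInterval) : ℝ) ‖(z : ℂ)‖ = 0 := by
    unfold ROT_fac
    rw [max_eq_left (by linarith)]
    simp
  rw [this, Complex.ofReal_zero, zero_mul]

theorem p_ROT (hHOM : T_HOM) (hMQ : T_MQ) : T_ROT := by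
  intro Y _ _ s ζ
  have key : ∀ u : Circle, ∃ (t : ℝ) (h : (Y × MM) × unitInterval → Y × MM), Continuous h ∧
      (∀ y z r, h ((y, qq z), r) = (y, qq (ROT_phi t (r, z)))) ∧
      (∀ z, ROT_phi t (1, z) = rotD u z) ∧ (∀ z, ROT_phi t (0, z) = z) := by
    intro u
    obtain ⟨h, hc, hh⟩ := ROT_fam hMQ Y (ROT_phi (Complex.arg u)) (ROT_phi_cont _)
      (ROT_phi_om _)
    refine ⟨Complex.arg u, h, hc, hh, fun z => ?_, fun z => ?_⟩
    · show rotD (Circle.exp (((1 : unitInterval) : ℝ) * Complex.arg u)) z = rotD u z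
      simp
    · show rotD (Circle.exp (((0 : unitInterval) : ℝ) * Complex.arg u)) z = z
      simp [ROT_one]
  refine ⟨?_, ?_, ?_⟩
  · intro u f hf x
    obtain ⟨t, h, hc, hh, h1, h0⟩ := key u
    exact ROT_act hHOM Y s ζ (ROT_phi t) h0 h hc hh f (fun y z => by rw [hf, h1]) x
  · intro u
    obtain ⟨t, h, hc, hh, h1, h0⟩ := key u
    refine ⟨ROT_E s h hc (ROT_eqv s _ h hh) 1, fun y z => ?_⟩
    show h ((y, qq z), 1) = _
    rw [hh, h1]
  · obtain ⟨h, hc, hh⟩ := ROT_fam hMQ Y ROT_psi ROT_psi_cont ROT_psi_om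
    refine ⟨ROT_E s h hc (ROT_eqv s _ h hh) 1, fun y z hz => ?_, fun x => ?_⟩
    · show h ((y, qq z), 1) = _
      rw [hh, ROT_psi_small z hz]
    · exact ROT_act hHOM Y s ζ ROT_psi ROT_psi_zero h hc hh _ (fun y z => hh y z 1) x

end

end INJ
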