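import Pool.Agent.INJ.FTargets

set_option autoImplicit false

/-!
# INJ, part F: the spheres are connected
-/

namespace INJ

open TopologicalSpace

/-- SCN: the spheres are connected -/
theorem p_SCN : T_SCN := by
  intro k hk
  have hr : 1 < Module.rank ℝ (EuclideanSpace ℂ (Fin k)) := by
    have h1 : Module.finrank ℝ (EuclideanSpace ℂ (Fin k)) = 2 * k := by
      rw [← Module.finrank_mul_finrank ℝ ℂ (EuclideanSpace ℂ (Fin k)), Complex.finrank_real_complex,
        finrank_euclideanSpace_fin]
    rw [← Module.finrank_eq_rank, h1]
    exact_mod_cast (by omega : 1 < 2 * k)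
  have h := isConnected_sphere hr (0 : EuclideanSpace ℂ (Fin k)) (zero_le_one (α := ℝ))
  exact isConnected_iff_connectedSpace.1 h

end INJ
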