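import Pool.Agent.INJ.MTargets

set_option autoImplicit false

/-!
# INJ, item SEQ: invariants of the recursion
-/

namespace INJ

open Quaternion

noncomputable section

theorem SEQ_snd (t : ℝ) (w : ℕ → ℍ[ℝ]) (k : ℕ) :
    (st t w (k + 1)).2 = Function.update (st t w k).2 k (Fnew k (st t w k).1 (w k)) := rfl

theorem SEQ_fst (t : ℝ) (w : ℕ → ℍ[ℝ]) (k : ℕ) :
    (st t w (k + 1)).1 = stp k (st t w k).1 (st t w (k + 1)).2 := rfl

theorem SEQ_new (t : ℝ) (w : ℕ → ℍ[ℝ]) (k : ℕ) :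
    Finf t w k = Fnew k (st t w k).1 (w k) := by
  unfold Finf
  rw [SEQ_snd, Function.update_self]

theorem SEQ_stab (t : ℝ) (w : ℕ → ℍ[ℝ]) (l : ℕ) (d : ℕ) :
    (st t w (l + 1 + d)).2 l = Finf t w l := by
  induction d with
  | zero => rfl
  | succ d ih =>
    have h : l + 1 + (d + 1) = (l + 1 + d) + 1 := by ring
    rw [h, SEQ_snd, Function.update_of_ne (by omega), ih]

theorem SEQ_step (hS : T_STC) (t : ℝ) (w : ℕ → ℍ[ℝ]) (k : ℕ) :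
    (st t w (k + 1)).1 = stp k (st t w k).1 (Finf t w) := by
  rw [SEQ_fst]
  apply hS.2
  intro l hl
  obtain ⟨d, hd⟩ : ∃ d, k + 1 = l + 1 + d := ⟨k - l, by omega⟩
  rw [hd]
  exact SEQ_stab t w l d

theorem SEQ_GB (t : ℝ) (w : ℕ → ℍ[ℝ]) (hw : ∀ k, ‖w k‖ ≤ 1) (k : ℕ) :
    GB k (st t w k).1 (Finf t w) := by
  unfold GB
  rw [SEQ_new]
  unfold Fnew
  have h0 : (0 : ℝ) < (10 : ℝ) ^ (ss (ak k) (st t w k).1) := Real.rpow_pos_of_pos (by norm_num) _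
  rw [add_sub_cancel_left, norm_smul, Real.norm_eq_abs, abs_of_pos h0]
  exact mul_le_of_le_one_right h0.le (hw k)

theorem SEQ_GS (hS : T_STC) (h1 : T_ST1) (t : ℝ) (w : ℕ → ℍ[ℝ]) (hw : ∀ k, ‖w k‖ ≤ 1)
    (k : ℕ) : GS k (st t w k).1 (Finf t w) := by
  induction k with
  | zero => intro l hl; omega
  | succ k ih =>
    rw [SEQ_step hS]
    exact (h1 k (Finf t w)).2.2 _ ih (SEQ_GB t w hw k)

/-- item SEQ -/
theorem p_SEQ (hS : T_STC) (h1 : T_ST1) : T_SEQ := by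
  intro t w hw
  refine ⟨fun k => ⟨SEQ_GS hS h1 t w hw k, SEQ_GB t w hw k⟩, SEQ_step hS t w, SEQ_new t w, ?_⟩
  intro k
  rw [SEQ_step hS]
  exact (h1 k (Finf t w)).1 _ (SEQ_GS hS h1 t w hw k) (SEQ_GB t w hw k)

end

end INJ
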