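import Pool.Agent.INJ.K2Targets

set_option autoImplicit false

/-!
# INJ: the self map of `P_n` (target SGM)
-/

namespace INJ

noncomputable section

lemma SGM_rot_rot {k : ℕ} (c d : Circle) (v : Sph k) : rot c (rot d v) = rot (c * d) v := by
  apply Subtype.ext
  change (c : ℂ) • ((d : ℂ) • v.1) = ((c * d : Circle) : ℂ) • v.1
  rw [smul_smul, Circle.coe_mul]

lemma SGM_rot_one {k : ℕ} (v : Sph k) : rot 1 v = v := by
  apply Subtype.ext
  change ((1 : Circle) : ℂ) • v.1 = v.1
  rw [Circle.coe_one, one_smul]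

lemma SGM_iter (n m : ℕ) (p : PT n) (i : Fin n) :
    (sgm n)^[m] p i = rot (zeta i ^ m) (p i) := by
  induction m with
  | zero => simp [SGM_rot_one]
  | succ m ih =>
    rw [Function.iterate_succ_apply']
    change rot (zeta i) ((sgm n)^[m] p i) = _
    rw [ih, SGM_rot_rot, pow_succ']

lemma SGM_N_pos (i : ℕ) : 0 < N i := by unfold N; positivity

lemma SGM_N_dvd {i n : ℕ} (h : i ≤ n) : N i ∣ N n := by
  unfold N
  exact pow_dvd_pow 5 (Nat.pow_le_pow_right (by norm_num) h)

lemma SGM_zeta_pow {i n : ℕ} (h : i ≤ n) : zeta i ^ N n = 1 := by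
  obtain ⟨k, hk⟩ := SGM_N_dvd h
  have h0 : (N i : ℝ) ≠ 0 := by exact_mod_cast (SGM_N_pos i).ne'
  rw [hk, pow_mul]
  have h1 : zeta i ^ N i = 1 := by
    unfold zeta
    rw [← Circle.exp_nsmul, nsmul_eq_mul, mul_div_cancel₀ _ h0, Circle.exp_two_pi]
  rw [h1, one_pow]

theorem p_SGM : T_SGM := by
  refine ⟨fun n => ?_, fun n p => ?_, fun p => ?_⟩
  · refine continuous_pi fun i => ?_
    exact (continuous_rot (zeta i)).comp (continuous_apply i)
  · funext i
    rw [SGM_iter, SGM_zeta_pow (Nat.lt_succ_iff.1 i.2), SGM_rot_one]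
  · funext i
    exact i.elim0

end

end INJ
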