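import Pool.Agent.INJ.MTargets

set_option autoImplicit false
set_option maxHeartbeats 4000000

/-!
# INJ: the nowhere zero equivariant map on `M` (helper97)
-/

namespace INJ

open Quaternion

noncomputable section

/-- window parameter as a function on the circle -/
def SJ_lam (a : ℕ × ℕ) (h : ∀ t, lam a (t + 1) = lam a t) : AddCircle (1 : ℝ) → ℝ :=
  Function.Periodic.lift (f := lam a) (c := (1 : ℝ)) h

lemma SJ_lam_coe (a : ℕ × ℕ) (h : ∀ t, lam a (t + 1) = lam a t) (t : ℝ) :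
    SJ_lam a h (t : AddCircle (1 : ℝ)) = lam a t := rfl

lemma SJ_lam_cont (a : ℕ × ℕ) (h : ∀ t, lam a (t + 1) = lam a t) (hc : Continuous (lam a)) :
    Continuous (SJ_lam a h) := by
  have h1 : Continuous (SJ_lam a h ∘ fun t : ℝ => (t : AddCircle (1 : ℝ))) := hc
  exact (QuotientAddGroup.isQuotientMap_mk (N := AddSubgroup.zmultiples (1 : ℝ))).continuous_iff.2
    h1

/-- the map -/
def SJ_map (j : ℕ) (l : AddCircle (1 : ℝ) → ℝ) (x : AddCircle (1 : ℝ) × (ℕ × ℕ → ℍ[ℝ])) :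
    Fin 4 → ℂ :=
  ![z1 (x.2 (j, 0)), z2 (x.2 (j, 0)), ((1 - l x.1 : ℝ) : ℂ) * z1 (bt (N 0) (x.2 (j, 1))),
    ((1 - l x.1 : ℝ) : ℂ) * z2 (bt (N 0) (x.2 (j, 1)))]

lemma SJ_N0 : 2 ≤ N 0 := by simp [N]

lemma SJ_N1 : N 1 = N 0 ^ 2 := by simp [N]

lemma SJ_map_cont (j : ℕ) (l : AddCircle (1 : ℝ) → ℝ) (hl : Continuous l) (h1 : Continuous z1)
    (h2 : Continuous z2) (hb : Continuous (bt (N 0))) : Continuous (SJ_map j l) := by
  have e0 : Continuous fun x : AddCircle (1 : ℝ) × (ℕ × ℕ → ℍ[ℝ]) => x.2 (j, 0) :=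
    (continuous_apply (j, 0)).comp continuous_snd
  have e1 : Continuous fun x : AddCircle (1 : ℝ) × (ℕ × ℕ → ℍ[ℝ]) => x.2 (j, 1) :=
    (continuous_apply (j, 1)).comp continuous_snd
  have e2 : Continuous fun x : AddCircle (1 : ℝ) × (ℕ × ℕ → ℍ[ℝ]) =>
      ((1 - l x.1 : ℝ) : ℂ) :=
    Complex.continuous_ofReal.comp (continuous_const.sub (hl.comp continuous_fst))
  refine continuous_pi fun i => ?_
  fin_cases i
  · exact h1.comp e0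
  · exact h2.comp e0
  · exact e2.mul (h1.comp (hb.comp e1))
  · exact e2.mul (h2.comp (hb.comp e1))

lemma SJ_zero (hn : ∀ q, ‖q‖ ^ 2 = ‖z1 q‖ ^ 2 + ‖z2 q‖ ^ 2) (q : ℍ[ℝ]) (h1 : z1 q = 0)
    (h2 : z2 q = 0) : q = 0 := by
  have h := hn q
  rw [h1, h2] at h
  simp only [norm_zero] at h
  have h3 : ‖q‖ = 0 := by nlinarith [norm_nonneg q]
  exact norm_eq_zero.1 h3

theorem p_SJ (hZ : T_Z12) (hB : T_BT) (hL : T_LAM) (hM : T_MRP) : T_SJ := by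
  intro j
  obtain ⟨-, -, hzn, hzc, -, hzc1, hzc2, -⟩ := hZ
  obtain ⟨hbc, hbn, hbe, -, -⟩ := hB (N 0) SJ_N0
  obtain ⟨hl01, hlc, hlp, -⟩ := hL (j, 0)
  refine ⟨fun x => SJ_map j (SJ_lam (j, 0) hlp) x.1,
    (SJ_map_cont j _ (SJ_lam_cont (j, 0) hlp hlc) hzc1 hzc2 hbc).comp continuous_subtype_val,
    ?_, ?_⟩
  · rintro ⟨⟨τ, v⟩, t, ht, hMR⟩ h0
    dsimp only at ht hMR h0
    have hlt : SJ_lam (j, 0) hlp τ = lam (j, 0) t := by rw [← ht, SJ_lam_coe]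
    have c0 : z1 (v (j, 0)) = 0 := congrFun h0 0
    have c1 : z2 (v (j, 0)) = 0 := congrFun h0 1
    have c2 : ((1 - SJ_lam (j, 0) hlp τ : ℝ) : ℂ) * z1 (bt (N 0) (v (j, 1))) = 0 := congrFun h0 2
    have c3 : ((1 - SJ_lam (j, 0) hlp τ : ℝ) : ℂ) * z2 (bt (N 0) (v (j, 1))) = 0 := congrFun h0 3
    obtain ⟨-, m2, m3, -⟩ := hM t v hMR
    have hl0 := m3 (j, 0) (SJ_zero hzn _ c0 c1)
    have hv := m2 (j, 0) (by rw [hl0]; norm_num)
    have hv' : 1 / 10 ≤ ‖v (j, 1)‖ := hv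
    rw [hlt, hl0] at c2 c3
    have hb0 : bt (N 0) (v (j, 1)) = 0 := by
      refine SJ_zero hzn _ ?_ ?_
      · simpa using c2
      · simpa using c3
    have hb1 := hbn (v (j, 1))
    rw [hb0, norm_zero, min_eq_left (by linarith)] at hb1
    exact one_ne_zero hb1.symm
  · rintro c ⟨⟨τ, v⟩, hx⟩ ⟨⟨τ', v'⟩, hx'⟩ h i
    dsimp only at h ⊢
    rw [Prod.mk.injEq] at h
    obtain ⟨rfl, rfl⟩ := h
    have a0 : actM j c v (j, 0) = ((c.1 0 : ℂ) : ℍ[ℝ]) * v (j, 0) := by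
      simp [actM]
    have a1 : actM j c v (j, 1) = ((c.1 1 : ℂ) : ℍ[ℝ]) * v (j, 1) := by
      simp [actM]
    have hc1 : c.1 1 ^ (N 0 ^ 2) = 1 := by
      rw [← SJ_N1]; exact c.2.1 1
    have hc0 : c.1 1 ^ N 0 = c.1 0 := c.2.2 0
    have hb := hbe (c.1 1) (v (j, 1)) hc1
    rw [hc0] at hb
    have k0 := hzc (c.1 0 : ℂ) (v (j, 0))
    have k1 := hzc (c.1 0 : ℂ) (bt (N 0) (v (j, 1)))
    fin_cases i
    · change z1 (actM j c v (j, 0)) = (c.1 0 : ℂ) * z1 (v (j, 0))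
      rw [a0, k0.1]
    · change z2 (actM j c v (j, 0)) = (c.1 0 : ℂ) * z2 (v (j, 0))
      rw [a0, k0.2]
    · change ((1 - SJ_lam (j, 0) hlp τ' : ℝ) : ℂ) * z1 (bt (N 0) (actM j c v (j, 1))) =
        (c.1 0 : ℂ) * (((1 - SJ_lam (j, 0) hlp τ' : ℝ) : ℂ) * z1 (bt (N 0) (v (j, 1))))
      rw [a1, hb, k1.1]
      ring
    · change ((1 - SJ_lam (j, 0) hlp τ' : ℝ) : ℂ) * z2 (bt (N 0) (actM j c v (j, 1))) =
        (c.1 0 : ℂ) * (((1 - SJ_lam (j, 0) hlp τ' : ℝ) : ℂ) * z2 (bt (N 0) (v (j, 1))))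
      rw [a1, hb, k1.2]
      ring

end

end INJ
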