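import Pool.Agent.INJ.FTargets

set_option maxHeartbeats 4000000

namespace INJ

theorem SLC_finrank (k : ℕ) :
    Module.finrank ℝ (EuclideanSpace ℂ (Fin k)) = 2 * k := by
  rw [finrank_real_of_complex, finrank_euclideanSpace_fin]

/-- the spheres are locally connected -/
theorem p_SLC : T_SLC := by
  intro k hk
  haveI : Fact (Module.finrank ℝ (EuclideanSpace ℂ (Fin k)) = (2 * k - 1) + 1) :=
    ⟨by rw [SLC_finrank]; omega⟩
  exact ChartedSpace.locallyConnectedSpace (EuclideanSpace ℝ (Fin (2 * k - 1)))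
    (Metric.sphere (0 : EuclideanSpace ℂ (Fin k)) 1)

end INJ
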