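import Pool.Agent.INJ.KTargets

set_option autoImplicit false

/-!
# INJ: uniform convergence of the smoothings
-/

namespace INJ

open MeasureTheory AddCircle

noncomputable section

/-- the smoothing kernel -/
def SMO_K (n : ℕ) (w : Circle) : ℝ := ‖(1 : ℂ) + w‖ ^ (2 * n) / (Nat.choose (2 * n) n : ℝ)

lemma SMO_K_nonneg (n : ℕ) (w : Circle) : 0 ≤ SMO_K n w := by
  unfold SMO_K; positivity

lemma SMO_K_cont (n : ℕ) : Continuous (SMO_K n) := by
  unfold SMO_K
  fun_prop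

lemma SMO_norm_sq (w : Circle) :
    ((‖(1 : ℂ) + w‖ ^ 2 : ℝ) : ℂ) = (1 + (w : ℂ)) ^ 2 * (w : ℂ)⁻¹ := by
  have h1 : ((‖(1 : ℂ) + w‖ ^ 2 : ℝ) : ℂ) = (1 + (w : ℂ)) * (starRingEnd ℂ) (1 + (w : ℂ)) := by
    rw [Complex.mul_conj, Complex.normSq_eq_norm_sq]
  have h0 : (w : ℂ) ≠ 0 := Circle.coe_ne_zero w
  have h2 : (starRingEnd ℂ) (w : ℂ) = (w : ℂ)⁻¹ := by
    rw [← Circle.coe_inv_eq_conj, Circle.coe_inv]
  rw [h1, map_add, map_one, h2]
  field_simp
  ring

lemma SMO_sum (n : ℕ) (w : Circle) :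
    ∑ l ∈ Finset.range (2 * n + 1), ((Nat.choose (2 * n) l : ℂ) / (Nat.choose (2 * n) n : ℂ)) *
      ((w ^ ((l : ℤ) - n) : Circle) : ℂ) = (SMO_K n w : ℂ) := by
  have h0 : (w : ℂ) ≠ 0 := Circle.coe_ne_zero w
  have h1 : (SMO_K n w : ℂ) = ((1 + (w : ℂ)) ^ (2 * n) * ((w : ℂ)⁻¹) ^ n) /
      (Nat.choose (2 * n) n : ℂ) := by
    unfold SMO_K
    push_cast
    rw [pow_mul, ← Complex.ofReal_pow, SMO_norm_sq, mul_pow, ← pow_mul]
  rw [h1, add_comm (1 : ℂ), add_pow, Finset.sum_mul, Finset.sum_div]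
  refine Finset.sum_congr rfl fun l hl => ?_
  rw [Circle.coe_zpow, zpow_sub₀ h0, zpow_natCast, zpow_natCast, inv_pow, one_pow, mul_one]
  field_simp

lemma SMO_norm_add_sub (w : Circle) : ‖(1 : ℂ) + w‖ ^ 2 = 4 - ‖(1 : ℂ) - w‖ ^ 2 := by
  have h := parallelogram_law_with_norm ℝ (1 : ℂ) (w : ℂ)
  rw [norm_one, Circle.norm_coe] at h
  nlinarith

lemma SMO_K_le (n : ℕ) (hn : 4 ≤ n) (w : Circle) (δ : ℝ) (hδ : 0 ≤ δ) (h : δ ≤ ‖(1 : ℂ) - w‖) :
    SMO_K n w ≤ n * (1 - δ ^ 2 / 4) ^ n := by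
  have h1 : ‖(1 : ℂ) + w‖ ^ 2 ≤ 4 * (1 - δ ^ 2 / 4) := by
    rw [SMO_norm_add_sub]
    nlinarith
  have h2 : ‖(1 : ℂ) + w‖ ^ (2 * n) ≤ (4 * (1 - δ ^ 2 / 4)) ^ n := by
    rw [pow_mul]
    exact pow_le_pow_left₀ (by positivity) h1 n
  have h3 : (4 : ℝ) ^ n ≤ n * (Nat.choose (2 * n) n : ℝ) := by
    have h := Nat.four_pow_lt_mul_centralBinom n hn
    rw [Nat.centralBinom_eq_two_mul_choose] at h
    exact_mod_cast h.le
  have hc : (0 : ℝ) < (Nat.choose (2 * n) n : ℝ) := by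
    exact_mod_cast Nat.choose_pos (by omega)
  have h4 : 0 ≤ (1 - δ ^ 2 / 4) := by
    have := sq_nonneg ‖(1 : ℂ) + w‖
    nlinarith
  unfold SMO_K
  rw [div_le_iff₀ hc]
  refine h2.trans ?_
  rw [mul_pow]
  have := mul_le_mul_of_nonneg_right h3 (pow_nonneg h4 n)
  linarith

lemma SMO_int {f : AddCircle (1 : ℝ) → ℂ} (hf : Continuous f) :
    Integrable f haarAddCircle :=
  hf.integrable_of_hasCompactSupport (HasCompactSupport.of_compactSpace _)

lemma SMO_intR {f : AddCircle (1 : ℝ) → ℝ} (hf : Continuous f) :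
    Integrable f haarAddCircle :=
  hf.integrable_of_hasCompactSupport (HasCompactSupport.of_compactSpace _)

lemma SMO_tc : Continuous (fun t : AddCircle (1 : ℝ) => t.toCircle) :=
  AddCircle.continuous_toCircle

lemma SMO_smo_eq {X : Type} [TopologicalSpace X] (F : Circle → X → ℂ)
    (hF : Continuous (fun p : Circle × X => F p.1 p.2)) (n : ℕ) (z : Circle) (x : X) :
    smo n F z x = ∫ t : AddCircle (1 : ℝ), (SMO_K n (z * t.toCircle⁻¹) : ℂ) * F t.toCircle x
      ∂haarAddCircle := by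
  have hFx : Continuous fun t : AddCircle (1 : ℝ) => F t.toCircle x :=
    hF.comp (SMO_tc.prodMk continuous_const)
  have h1 : ∀ t : AddCircle (1 : ℝ), (SMO_K n (z * t.toCircle⁻¹) : ℂ) * F t.toCircle x =
      ∑ l ∈ Finset.range (2 * n + 1), ((Nat.choose (2 * n) l : ℂ) / (Nat.choose (2 * n) n : ℂ)) *
    ((z ^ ((l : ℤ) - n) : Circle) : ℂ) *
      (fourier (-((l : ℤ) - n)) t • F t.toCircle x) := by
    intro t
    rw [← SMO_sum, Finset.sum_mul]
    refine Finset.sum_congr rfl fun l _ => ?_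
    rw [fourier_apply, AddCircle.toCircle_zsmul, mul_zpow, inv_zpow', Circle.coe_mul, smul_eq_mul]
    ring
  simp_rw [h1]
  rw [integral_finsetSum]
  · unfold smo fc fourierCoeff
    refine Finset.sum_congr rfl fun l _ => ?_
    rw [integral_const_mul]
  · intro l _
    exact ((SMO_int hFx).fourier_smul _).const_mul _

lemma SMO_mass (n : ℕ) (z : Circle) :
    ∫ t : AddCircle (1 : ℝ), (SMO_K n (z * t.toCircle⁻¹) : ℂ) ∂haarAddCircle = 1 := by
  have h := SMO_smo_eq (X := Unit) (fun _ _ => 1) continuous_const n z ()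
  simp only [mul_one] at h
  rw [← h]
  unfold smo fc
  have h2 : ∀ j : ℤ, fourierCoeff (fun _ : AddCircle (1 : ℝ) => (1 : ℂ)) j =
      if j = 0 then 1 else 0 := by
    intro j
    have h3 := congrFun (fourierCoeff_fourier (T := (1 : ℝ)) 0) j
    have h4 : (fun _ : AddCircle (1 : ℝ) => (1 : ℂ)) = (fourier 0 : AddCircle (1 : ℝ) → ℂ) := by
      funext t
      exact fourier_zero.symm
    rw [h4, h3, Pi.single_apply]
  simp_rw [h2]
  have hc : (Nat.choose (2 * n) n : ℂ) ≠ 0 := by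
    exact_mod_cast (Nat.choose_pos (by omega)).ne'
  rw [Finset.sum_eq_single n]
  · simp [hc]
  · intro l _ hl
    rw [if_neg (by omega), mul_zero]
  · intro h5
    exact absurd (Finset.mem_range.mpr (by omega)) h5

lemma SMO_massR (n : ℕ) (z : Circle) :
    ∫ t : AddCircle (1 : ℝ), SMO_K n (z * t.toCircle⁻¹) ∂haarAddCircle = 1 := by
  have h := SMO_mass n z
  rw [integral_complex_ofReal] at h
  exact_mod_cast h

lemma SMO_Kt_cont (n : ℕ) (z : Circle) :
    Continuous fun t : AddCircle (1 : ℝ) => SMO_K n (z * t.toCircle⁻¹) :=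
  (SMO_K_cont n).comp (continuous_const.mul SMO_tc.inv)

/-- uniform continuity in the circle variable -/
lemma SMO_unif {X : Type} [TopologicalSpace X] [CompactSpace X] (F : Circle → X → ℂ)
    (hF : Continuous (fun p : Circle × X => F p.1 p.2)) (ε : ℝ) (hε : 0 < ε) :
    ∃ δ : ℝ, 0 < δ ∧ ∀ z w : Circle, ∀ x : X, ‖(z : ℂ) - w‖ < δ → ‖F z x - F w x‖ < ε := by
  let G : Circle × Circle × X → ℝ := fun p => ‖F p.1 p.2.2 - F p.2.1 p.2.2‖
  have hG : Continuous G := by
    have h1 : Continuous fun p : Circle × Circle × X => F p.1 p.2.2 :=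
      hF.comp (continuous_fst.prodMk (continuous_snd.comp continuous_snd))
    have h2 : Continuous fun p : Circle × Circle × X => F p.2.1 p.2.2 :=
      hF.comp continuous_snd
    exact (h1.sub h2).norm
  let S : Set (Circle × Circle × X) := {p | ε ≤ G p}
  have hS : IsCompact S := (isClosed_le continuous_const hG).isCompact
  let d : Circle × Circle × X → ℝ := fun p => ‖(p.1 : ℂ) - p.2.1‖
  have hd : Continuous d := by
    have h1 : Continuous fun p : Circle × Circle × X => (p.1 : ℂ) :=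
      continuous_subtype_val.comp continuous_fst
    have h2 : Continuous fun p : Circle × Circle × X => (p.2.1 : ℂ) :=
      continuous_subtype_val.comp (continuous_fst.comp continuous_snd)
    exact (h1.sub h2).norm
  rcases S.eq_empty_or_nonempty with hE | hne
  · refine ⟨1, one_pos, fun z w x _ => ?_⟩
    by_contra hcon
    have : (z, w, x) ∈ S := not_lt.mp hcon
    rw [hE] at this
    exact this
  · obtain ⟨p, hp, hmin⟩ := hS.exists_isMinOn hne hd.continuousOn
    refine ⟨d p, ?_, fun z w x hzw => ?_⟩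
    · rcases (norm_nonneg ((p.1 : ℂ) - p.2.1)).lt_or_eq with h | h
      · exact h
      · exfalso
        have h1 : (p.1 : ℂ) = p.2.1 := sub_eq_zero.mp (norm_eq_zero.mp h.symm)
        have h2 : p.1 = p.2.1 := Circle.coe_injective h1
        have h3 : ε ≤ G p := hp
        simp only [G, h2, sub_self, norm_zero] at h3
        linarith
    · by_contra hcon
      have h1 : (z, w, x) ∈ S := not_lt.mp hcon
      have h2 : d p ≤ d (z, w, x) := hmin h1
      exact absurd hzw (not_lt.mpr h2)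

lemma SMO_norm_mul_inv (z w : Circle) :
    ‖(1 : ℂ) - ((z * w⁻¹ : Circle) : ℂ)‖ = ‖(w : ℂ) - z‖ := by
  have h0 : (w : ℂ) ≠ 0 := Circle.coe_ne_zero w
  have h1 : (1 : ℂ) - ((z * w⁻¹ : Circle) : ℂ) = ((w : ℂ) - z) * (w : ℂ)⁻¹ := by
    rw [Circle.coe_mul, Circle.coe_inv]
    field_simp
  rw [h1, norm_mul, norm_inv, Circle.norm_coe, inv_one, mul_one]

theorem p_SMO : T_SMO := by
  intro X _ _ F hF ε hε
  obtain ⟨δ₀, hδ₀, hunif⟩ := SMO_unif F hF (ε / 2) (half_pos hε)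
  obtain ⟨M, hM⟩ := isCompact_univ.exists_bound_of_continuousOn
    (f := fun p : Circle × X => F p.1 p.2) hF.continuousOn
  obtain ⟨δ, hδ, hδ1, hδ2⟩ : ∃ δ : ℝ, 0 < δ ∧ δ ≤ δ₀ ∧ δ ≤ 1 :=
    ⟨min δ₀ 1, lt_min hδ₀ one_pos, min_le_left _ _, min_le_right _ _⟩
  have hM' : ∀ z x, ‖F z x‖ ≤ max M 0 := fun z x =>
    (hM (z, x) (Set.mem_univ _)).trans (le_max_left _ _)
  set M' := max M 0 with hM'def
  have hM0 : 0 ≤ M' := le_max_right _ _
  have hρ0 : 0 ≤ 1 - δ ^ 2 / 4 := by nlinarith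
  have hρ1 : 1 - δ ^ 2 / 4 < 1 := by
    have := sq_pos_of_pos hδ
    linarith
  have hlim : Filter.Tendsto (fun n : ℕ => 2 * M' * ((n : ℝ) * (1 - δ ^ 2 / 4) ^ n))
      Filter.atTop (nhds 0) := by
    have := (tendsto_self_mul_const_pow_of_lt_one hρ0 hρ1).const_mul (2 * M')
    rwa [mul_zero] at this
  obtain ⟨n1, hn1⟩ := Filter.eventually_atTop.mp (hlim.eventually_lt_const (half_pos hε))
  refine ⟨max n1 4, fun n hn z x => ?_⟩
  have hn4 : 4 ≤ n := (le_max_right _ _).trans hn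
  have hn1' := hn1 n ((le_max_left _ _).trans hn)
  have hFx : Continuous fun t : AddCircle (1 : ℝ) => F t.toCircle x :=
    hF.comp (SMO_tc.prodMk continuous_const)
  have hKc : Continuous fun t : AddCircle (1 : ℝ) => (SMO_K n (z * t.toCircle⁻¹) : ℂ) :=
    Complex.continuous_ofReal.comp (SMO_Kt_cont n z)
  have h1 : smo n F z x - F z x = ∫ t : AddCircle (1 : ℝ),
      (SMO_K n (z * t.toCircle⁻¹) : ℂ) * (F t.toCircle x - F z x) ∂haarAddCircle := by
    simp_rw [mul_sub]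
    have hi1 : Integrable (fun t : AddCircle (1 : ℝ) =>
        (SMO_K n (z * t.toCircle⁻¹) : ℂ) * F t.toCircle x) haarAddCircle :=
      SMO_int (hKc.mul hFx)
    have hi2 : Integrable (fun t : AddCircle (1 : ℝ) =>
        (SMO_K n (z * t.toCircle⁻¹) : ℂ) * F z x) haarAddCircle :=
      SMO_int (hKc.mul continuous_const)
    rw [integral_sub hi1 hi2, integral_mul_const, SMO_mass, one_mul, ← SMO_smo_eq F hF]
  rw [h1]
  have hpt : ∀ t : AddCircle (1 : ℝ),
      ‖(SMO_K n (z * t.toCircle⁻¹) : ℂ) * (F t.toCircle x - F z x)‖ ≤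
        SMO_K n (z * t.toCircle⁻¹) * (ε / 2) + 2 * M' * ((n : ℝ) * (1 - δ ^ 2 / 4) ^ n) := by
    intro t
    have hK0 := SMO_K_nonneg n (z * t.toCircle⁻¹)
    rw [norm_mul, Complex.norm_real, Real.norm_of_nonneg hK0]
    by_cases hd : ‖(t.toCircle : ℂ) - z‖ < δ
    · have h2 := hunif t.toCircle z x (hd.trans_le hδ1)
      have h3 := mul_le_mul_of_nonneg_left h2.le hK0
      have h4 : 0 ≤ 2 * M' * ((n : ℝ) * (1 - δ ^ 2 / 4) ^ n) := by positivity
      linarith
    · have h2 : ‖F t.toCircle x - F z x‖ ≤ 2 * M' := by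
        have := norm_sub_le (F t.toCircle x) (F z x)
        have h5 := hM' t.toCircle x
        have h6 := hM' z x
        linarith
      have h3 : SMO_K n (z * t.toCircle⁻¹) ≤ n * (1 - δ ^ 2 / 4) ^ n := by
        refine SMO_K_le n hn4 _ δ hδ.le ?_
        rw [SMO_norm_mul_inv]
        exact not_lt.mp hd
      have h4 : SMO_K n (z * t.toCircle⁻¹) * ‖F t.toCircle x - F z x‖ ≤
          (n * (1 - δ ^ 2 / 4) ^ n) * (2 * M') :=
        mul_le_mul h3 h2 (norm_nonneg _) (by positivity)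
      have h7 : 0 ≤ SMO_K n (z * t.toCircle⁻¹) * (ε / 2) := by positivity
      linarith
  have hKi : Integrable (fun t : AddCircle (1 : ℝ) => SMO_K n (z * t.toCircle⁻¹) * (ε / 2))
      haarAddCircle := SMO_intR ((SMO_Kt_cont n z).mul continuous_const)
  calc ‖∫ t : AddCircle (1 : ℝ), (SMO_K n (z * t.toCircle⁻¹) : ℂ) * (F t.toCircle x - F z x)
        ∂haarAddCircle‖
      ≤ ∫ t : AddCircle (1 : ℝ), ‖(SMO_K n (z * t.toCircle⁻¹) : ℂ) * (F t.toCircle x - F z x)‖
        ∂haarAddCircle := norm_integral_le_integral_norm _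
    _ ≤ ∫ t : AddCircle (1 : ℝ), (SMO_K n (z * t.toCircle⁻¹) * (ε / 2) +
          2 * M' * ((n : ℝ) * (1 - δ ^ 2 / 4) ^ n)) ∂haarAddCircle := by
        refine integral_mono_of_nonneg (Filter.Eventually.of_forall fun t => norm_nonneg _)
          (hKi.add (integrable_const _)) (Filter.Eventually.of_forall hpt)
    _ = ε / 2 + 2 * M' * ((n : ℝ) * (1 - δ ^ 2 / 4) ^ n) := by
        rw [integral_add hKi (integrable_const _), integral_mul_const, SMO_massR, one_mul,
          integral_const]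
        simp
    _ < ε := by linarith

end

end INJ
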