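import Pool.Agent.INJ.K2Targets

set_option autoImplicit false

/-!
# INJ: adding a sphere
-/

namespace INJ

noncomputable section

/-- the map of adding a sphere -/
def SNOC_f (n : ℕ) (p : Sph (N n) × (PT n × MM)) : PT (n + 1) × MM :=
  (Fin.snoc (α := fun i : Fin (n + 1) => Sph (N i)) p.2.1 p.1, p.2.2)

lemma SNOC_cont (n : ℕ) : Continuous (SNOC_f n) := by
  unfold SNOC_f
  refine Continuous.prodMk ?_ (continuous_snd.comp continuous_snd)
  refine continuous_pi fun i => ?_
  refine Fin.lastCases ?_ (fun j => ?_) i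
  · simp only [Fin.snoc_last]
    exact continuous_fst
  · simp only [Fin.snoc_castSucc]
    exact (continuous_apply j).comp (continuous_fst.comp continuous_snd)

theorem p_SNOC : T_SNOC := by
  intro n
  refine ⟨⟨SNOC_f n, SNOC_cont n, fun p => ?_⟩, fun p => rfl⟩
  refine Prod.ext ?_ rfl
  funext i
  refine Fin.lastCases ?_ (fun j => ?_) i
  · simp only [SNOC_f, srot, Prod.map, sgm, Fin.snoc_last, zpow_one, Fin.val_last]
  · simp only [SNOC_f, srot, Prod.map, sgm, Fin.snoc_castSucc, Fin.val_castSucc]

end

end INJ
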