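import Pool.Agent.INJ.KTargets

set_option autoImplicit false

/-!
# INJ, part K: join coordinates on the sphere
-/

namespace INJ

open Matrix

noncomputable section

/-- the underlying vector of the join point -/
def SPH_v {k : ℕ} (u : EuclideanSpace ℂ (Fin k)) (z : ℂ) : EuclideanSpace ℂ (Fin (k + 1)) :=
  WithLp.toLp 2 (Fin.cons ((Real.sqrt (1 - ‖u‖ ^ 2) : ℂ) * z) u.ofLp)

lemma SPH_v_zero {k : ℕ} (u : EuclideanSpace ℂ (Fin k)) (z : ℂ) :
    SPH_v u z 0 = (Real.sqrt (1 - ‖u‖ ^ 2) : ℂ) * z := rfl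

lemma SPH_v_succ {k : ℕ} (u : EuclideanSpace ℂ (Fin k)) (z : ℂ) (i : Fin k) :
    SPH_v u z i.succ = u i := rfl

lemma SPH_norm {k : ℕ} (u : EuclideanSpace ℂ (Fin k)) (hu : ‖u‖ ≤ 1) (z : Circle) :
    ‖SPH_v u (z : ℂ)‖ = 1 := by
  have h0 : 0 ≤ 1 - ‖u‖ ^ 2 := by nlinarith [norm_nonneg u]
  have h1 : ‖SPH_v u (z : ℂ)‖ ^ 2 = 1 := by
    rw [EuclideanSpace.norm_sq_eq, Fin.sum_univ_succ, SPH_v_zero]
    have h2 : ∑ i : Fin k, ‖SPH_v u (z : ℂ) i.succ‖ ^ 2 = ‖u‖ ^ 2 := by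
      rw [EuclideanSpace.norm_sq_eq]
      rfl
    rw [h2, norm_mul, Circle.norm_coe, mul_one, Complex.norm_real, Real.norm_eq_abs, sq_abs,
      Real.sq_sqrt h0]
    ring
  have h2 : 0 ≤ ‖SPH_v u (z : ℂ)‖ := norm_nonneg _
  nlinarith

lemma SPH_cont {k : ℕ} : Continuous fun p : EuclideanSpace ℂ (Fin k) × ℂ => SPH_v p.1 p.2 := by
  unfold SPH_v
  refine (PiLp.continuous_toLp 2 _).comp (continuous_pi fun i => ?_)
  refine Fin.cases ?_ (fun i => ?_) i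
  · simp only [Fin.cons_zero]
    have h1 : Continuous fun p : EuclideanSpace ℂ (Fin k) × ℂ => Real.sqrt (1 - ‖p.1‖ ^ 2) := by
      fun_prop
    exact (Complex.continuous_ofReal.comp h1).mul continuous_snd
  · simp only [Fin.cons_succ]
    fun_prop

/-- the join map -/
def SPH_j {k : ℕ} (p : (Metric.closedBall (0 : EuclideanSpace ℂ (Fin k)) 1) × Circle) :
    Sph (k + 1) :=
  ⟨SPH_v p.1.1 (p.2 : ℂ),
    mem_sphere_zero_iff_norm.2 (SPH_norm _ (mem_closedBall_zero_iff.1 p.1.2) _)⟩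

lemma SPH_j_val {k : ℕ} (p : (Metric.closedBall (0 : EuclideanSpace ℂ (Fin k)) 1) × Circle) :
    (SPH_j p).1 = SPH_v p.1.1 (p.2 : ℂ) := rfl

lemma SPH_j_cont {k : ℕ} : Continuous (SPH_j (k := k)) := by
  have h1 : Continuous fun p : (Metric.closedBall (0 : EuclideanSpace ℂ (Fin k)) 1) × Circle =>
      ((p.1.1, (p.2 : ℂ)) : EuclideanSpace ℂ (Fin k) × ℂ) :=
    (continuous_subtype_val.comp continuous_fst).prodMk
      (continuous_subtype_val.comp continuous_snd)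
  exact Continuous.subtype_mk (SPH_cont.comp h1) _

lemma SPH_rot {k : ℕ} (u u' : EuclideanSpace ℂ (Fin k)) (z c : Circle)
    (h : u' = (c : ℂ) • u) :
    SPH_v u' ((c * z : Circle) : ℂ) = (c : ℂ) • SPH_v u (z : ℂ) := by
  have hn : ‖u'‖ = ‖u‖ := by rw [h, norm_smul, Circle.norm_coe, one_mul]
  ext i
  refine Fin.cases ?_ (fun i => ?_) i
  · rw [SPH_v_zero, PiLp.smul_apply, SPH_v_zero, hn, Circle.coe_mul, smul_eq_mul]
    ring
  · rw [SPH_v_succ, PiLp.smul_apply, SPH_v_succ, h, PiLp.smul_apply]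

lemma SPH_one {k : ℕ} (u : EuclideanSpace ℂ (Fin k)) (hu : ‖u‖ = 1) (z w : ℂ) :
    SPH_v u z = SPH_v u w := by
  have h0 : (Real.sqrt (1 - ‖u‖ ^ 2) : ℂ) = 0 := by rw [hu]; norm_num
  ext i
  refine Fin.cases ?_ (fun i => ?_) i
  · rw [SPH_v_zero, SPH_v_zero, h0, zero_mul, zero_mul]
  · rw [SPH_v_succ, SPH_v_succ]

theorem p_SPH : T_SPH := by
  intro k
  refine ⟨SPH_j, SPH_j_cont, ?_, ?_⟩
  · intro u u' z c h
    apply Subtype.ext
    have h1 := SPH_rot u.1 u'.1 z c h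
    exact h1
  · intro u hu z
    apply Subtype.ext
    have h1 := SPH_one u.1 hu (z : ℂ) ((1 : Circle) : ℂ)
    exact h1

end

end INJ
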