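import Pool.Agent.INJ.GTargets

set_option autoImplicit false

/-!
# INJ, part G: small moves which reach all nearby points (target SRJ)
-/

namespace INJ

open TopologicalSpace Filter Uniformity

noncomputable section

/-- the model space -/
abbrev SRJ_Z : Type := Circle × (ℕ → unitInterval)

/-- the size of the moves -/
def SRJ_eta (n : ℕ) : ℝ := 1 / (n + 1)

lemma SRJ_eta_pos (n : ℕ) : 0 < SRJ_eta n := by
  unfold SRJ_eta
  positivity

/-- the moves -/
def SRJ_F (φ : unitInterval → (ℕ → unitInterval)) (n : ℕ) (z : SRJ_Z × unitInterval) : SRJ_Z :=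
  (z.1.1 * Circle.exp (Real.pi * SRJ_eta n * (2 * (φ z.2 0 : ℝ) - 1)),
    fun k => if k < n then
      Set.projIcc (0 : ℝ) 1 zero_le_one ((z.1.2 k : ℝ) +
        SRJ_eta n * (2 * (φ z.2 (k + 1) : ℝ) - 1)) else φ z.2 (k + 1))

lemma SRJ_cont (φ : unitInterval → (ℕ → unitInterval)) (hφ : Continuous φ) (n : ℕ) :
    Continuous (SRJ_F φ n) := by
  unfold SRJ_F
  have h0 : ∀ k, Continuous fun z : SRJ_Z × unitInterval => ((φ z.2 k : unitInterval) : ℝ) := by
    intro k
    exact continuous_subtype_val.comp ((continuous_apply k).comp (hφ.comp continuous_snd))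
  have h0' : ∀ k, Continuous fun z : SRJ_Z × unitInterval => (φ z.2 k : unitInterval) := by
    intro k
    exact (continuous_apply k).comp (hφ.comp continuous_snd)
  have h1 : ∀ k, Continuous fun z : SRJ_Z × unitInterval => ((z.1.2 k : unitInterval) : ℝ) := by
    intro k
    exact continuous_subtype_val.comp ((continuous_apply k).comp
      (continuous_snd.comp continuous_fst))
  refine Continuous.prodMk ?_ ?_
  · refine (continuous_fst.comp continuous_fst).mul (Circle.exp.continuous.comp ?_)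
    exact continuous_const.mul ((continuous_const.mul (h0 0)).sub continuous_const)
  · refine continuous_pi fun k => ?_
    by_cases hk : k < n
    · simp only [hk, if_true]
      exact continuous_projIcc.comp ((h1 k).add (continuous_const.mul
        ((continuous_const.mul (h0 (k + 1))).sub continuous_const)))
    · simp only [hk, if_false]
      exact h0' (k + 1)

lemma SRJ_abs (t : unitInterval) : |2 * (t : ℝ) - 1| ≤ 1 := by
  rw [abs_le]
  constructor <;> linarith [t.2.1, t.2.2]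

set_option backward.isDefEq.respectTransparency false in
lemma SRJ_dist (c d : Circle) : dist c d = ‖(c : ℂ) - (d : ℂ)‖ := by
  have : dist c d = dist (c : ℂ) (d : ℂ) := rfl
  rw [this, dist_eq_norm]

lemma SRJ_basis : (@uniformity Circle Circle.instUniformSpace).HasBasis (fun ε : ℝ => 0 < ε)
    (fun ε => {p : Circle × Circle | dist p.1 p.2 < ε}) :=
  Metric.uniformity_basis_dist

lemma SRJ_circ (c : Circle) (θ : ℝ) : dist c (c * Circle.exp θ) ≤ |θ| := by
  rw [SRJ_dist]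
  have e : (c : ℂ) - ((c * Circle.exp θ : Circle) : ℂ) =
      -((c : ℂ) * (Complex.exp (Complex.I * θ) - 1)) := by
    rw [Circle.coe_mul, Circle.coe_exp, mul_comm (θ : ℂ) Complex.I]
    ring
  rw [e, norm_neg, norm_mul, Circle.norm_coe, one_mul]
  exact Real.norm_exp_I_mul_ofReal_sub_one_le

lemma SRJ_tend_eta : Tendsto SRJ_eta atTop (nhds 0) := tendsto_one_div_add_atTop_nhds_zero_nat

/-- the moves are uniformly small -/
lemma SRJ_small (φ : unitInterval → (ℕ → unitInterval)) :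
    Tendsto (fun p : ℕ × (SRJ_Z × unitInterval) => (SRJ_F φ p.1 p.2, p.2.1))
      (atTop ×ˢ ⊤) (𝓤 SRJ_Z) := by
  have key : ∀ (f : ℕ × (SRJ_Z × unitInterval) → ℝ) (C : ℝ) (N : ℕ),
      (∀ p, N < p.1 → f p ≤ C * SRJ_eta p.1) → ∀ ε > 0, ∀ᶠ p in (atTop ×ˢ ⊤), f p < ε := by
    intro f C N hf ε hε
    have h1 : Tendsto (fun p : ℕ × (SRJ_Z × unitInterval) => C * SRJ_eta p.1) (atTop ×ˢ ⊤)
        (nhds (C * 0)) := (SRJ_tend_eta.comp tendsto_fst).const_mul C
    rw [mul_zero] at h1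
    have h2 : ∀ᶠ p : ℕ × (SRJ_Z × unitInterval) in (atTop ×ˢ ⊤), N < p.1 :=
      tendsto_fst.eventually (eventually_gt_atTop N)
    filter_upwards [h2, h1.eventually (gt_mem_nhds hε)] with p hp hp2
    exact (hf p hp).trans_lt hp2
  rw [uniformity_prod, tendsto_inf, tendsto_comap_iff, tendsto_comap_iff]
  constructor
  · rw [SRJ_basis.tendsto_right_iff]
    intro ε hε
    refine key (fun p => dist ((SRJ_F φ p.1 p.2).1) p.2.1.1) Real.pi 0 (fun p _ => ?_) ε hε
    rw [dist_comm]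
    refine (SRJ_circ _ _).trans ?_
    rw [abs_mul, abs_of_pos (mul_pos Real.pi_pos (SRJ_eta_pos _))]
    have h := SRJ_abs (φ p.2.2 0)
    have h2 := mul_pos Real.pi_pos (SRJ_eta_pos p.1)
    nlinarith
  · rw [Pi.uniformity, tendsto_iInf]
    intro k
    rw [tendsto_comap_iff, Metric.uniformity_basis_dist.tendsto_right_iff]
    intro ε hε
    refine key (fun p => dist ((SRJ_F φ p.1 p.2).2 k) (p.2.1.2 k)) 1 k (fun p hp => ?_) ε hε
    have e : (SRJ_F φ p.1 p.2).2 k = Set.projIcc (0 : ℝ) 1 zero_le_one ((p.2.1.2 k : ℝ) +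
        SRJ_eta p.1 * (2 * (φ p.2.2 (k + 1) : ℝ) - 1)) := by
      simp only [SRJ_F, hp, if_true]
    have e2 : p.2.1.2 k = Set.projIcc (0 : ℝ) 1 zero_le_one (p.2.1.2 k : ℝ) :=
      (Set.projIcc_val zero_le_one (p.2.1.2 k)).symm
    have hl := (LipschitzWith.projIcc (zero_le_one (α := ℝ))).dist_le_mul
      ((p.2.1.2 k : ℝ) + SRJ_eta p.1 * (2 * (φ p.2.2 (k + 1) : ℝ) - 1)) (p.2.1.2 k : ℝ)
    rw [← e2, ← e] at hl
    refine hl.trans ?_
    rw [Real.dist_eq, add_sub_cancel_left, abs_mul, abs_of_pos (SRJ_eta_pos _)]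
    have h := SRJ_abs (φ p.2.2 (k + 1))
    have h2 := SRJ_eta_pos p.1
    simp only [NNReal.coe_one, one_mul]
    nlinarith

/-- the moves reach all nearby points -/
lemma SRJ_reach (φ : unitInterval → (ℕ → unitInterval)) (hφ : Function.Surjective φ) (n : ℕ) :
    {p : SRJ_Z × SRJ_Z | ∃ u, SRJ_F φ n (p.1, u) = p.2} ∈ 𝓤 SRJ_Z := by
  have hη := SRJ_eta_pos n
  have hπ := mul_pos Real.pi_pos hη
  -- the circle coordinate
  have hc : {p : SRJ_Z × SRJ_Z | ∃ s : ℝ, |s| ≤ 1 ∧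
      p.2.1 = p.1.1 * Circle.exp (Real.pi * SRJ_eta n * s)} ∈ 𝓤 SRJ_Z := by
    have hcont : ContinuousAt Complex.arg 1 := Complex.continuousAt_arg (by simp)
    rw [Metric.continuousAt_iff] at hcont
    obtain ⟨r, hr, hr2⟩ := hcont (Real.pi * SRJ_eta n) hπ
    have hV : {q : Circle × Circle | dist q.1 q.2 < r} ∈ 𝓤 Circle :=
      SRJ_basis.mem_of_mem hr
    have hU : {p : SRJ_Z × SRJ_Z | dist p.1.1 p.2.1 < r} ∈ 𝓤 SRJ_Z := uniformContinuous_fst hV
    refine mem_of_superset hU ?_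
    intro p hp
    have hp' : dist p.1.1 p.2.1 < r := hp
    set w : Circle := p.1.1⁻¹ * p.2.1 with hw
    have hd : dist (w : ℂ) 1 < r := by
      rw [SRJ_dist] at hp'
      rw [dist_comm, dist_eq_norm]
      have e1 : ((p.1.1 : Circle) : ℂ) - ((p.2.1 : Circle) : ℂ) =
          ((p.1.1 : Circle) : ℂ) * (1 - (w : ℂ)) := by
        rw [hw, Circle.coe_mul, mul_sub, mul_one, ← mul_assoc, Circle.coe_inv,
          mul_inv_cancel₀ (Circle.coe_ne_zero _), one_mul]
      rw [e1, norm_mul, Circle.norm_coe, one_mul] at hp'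
      exact hp'
    have ha := hr2 hd
    rw [Complex.arg_one, Real.dist_eq, sub_zero] at ha
    refine ⟨Complex.arg w / (Real.pi * SRJ_eta n), ?_, ?_⟩
    · rw [abs_div, abs_of_pos hπ, div_le_one hπ]
      exact ha.le
    · rw [mul_div_cancel₀ _ hπ.ne', Circle.exp_arg, hw, mul_inv_cancel_left]
  -- the other coordinates
  have hk : ∀ k, {p : SRJ_Z × SRJ_Z | |(p.2.2 k : ℝ) - p.1.2 k| ≤ SRJ_eta n} ∈ 𝓤 SRJ_Z := by
    intro k
    have hV : {q : unitInterval × unitInterval | dist q.1 q.2 < SRJ_eta n} ∈ 𝓤 unitInterval :=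
      Metric.dist_mem_uniformity hη
    have hu : UniformContinuous fun z : SRJ_Z => z.2 k :=
      (Pi.uniformContinuous_proj _ k).comp uniformContinuous_snd
    have hU : {p : SRJ_Z × SRJ_Z | dist (p.1.2 k) (p.2.2 k) < SRJ_eta n} ∈ 𝓤 SRJ_Z := hu hV
    refine mem_of_superset hU ?_
    intro p hp
    have hp' : dist (p.1.2 k) (p.2.2 k) < SRJ_eta n := hp
    rw [dist_comm, Subtype.dist_eq, Real.dist_eq] at hp'
    exact hp'.le
  have hall : {p : SRJ_Z × SRJ_Z | ∀ k < n, |(p.2.2 k : ℝ) - p.1.2 k| ≤ SRJ_eta n} ∈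
      𝓤 SRJ_Z := by
    have : {p : SRJ_Z × SRJ_Z | ∀ k < n, |(p.2.2 k : ℝ) - p.1.2 k| ≤ SRJ_eta n} =
        ⋂ k ∈ Finset.range n,
          {p : SRJ_Z × SRJ_Z | |(p.2.2 k : ℝ) - p.1.2 k| ≤ SRJ_eta n} := by
      ext p
      simp only [Set.mem_iInter, Finset.mem_range]
      exact Iff.rfl
    rw [this]
    exact (biInter_finset_mem _).2 fun k _ => hk k
  filter_upwards [hc, hall] with p hp1 hp2
  obtain ⟨s, hs, hs2⟩ := hp1
  rw [abs_le] at hs
  -- the target parameter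
  have hlast : ∀ k, ∃ y : unitInterval,
      (k < n → SRJ_eta n * (2 * (y : ℝ) - 1) = (p.2.2 k : ℝ) - p.1.2 k) ∧
      (n ≤ k → y = p.2.2 k) := by
    intro k
    by_cases h : k < n
    · have h2 := hp2 k h
      rw [abs_le] at h2
      have h3 : -1 ≤ ((p.2.2 k : ℝ) - p.1.2 k) / SRJ_eta n := by
        rw [le_div_iff₀ hη]
        linarith
      have h4 : ((p.2.2 k : ℝ) - p.1.2 k) / SRJ_eta n ≤ 1 := by
        rw [div_le_iff₀ hη]
        linarith
      refine ⟨⟨(((p.2.2 k : ℝ) - p.1.2 k) / SRJ_eta n + 1) / 2, ?_⟩, ?_, ?_⟩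
      · constructor <;> linarith
      · intro _
        simp only
        have := hη.ne'
        field_simp
        ring
      · intro h5
        exact absurd h (not_lt.2 h5)
    · exact ⟨p.2.2 k, fun h5 => absurd h5 h, fun _ => rfl⟩
  choose y hy1 hy2 using hlast
  have hex : ∃ v : ℕ → unitInterval, (2 * (v 0 : ℝ) - 1 = s) ∧
      (∀ k < n, SRJ_eta n * (2 * (v (k + 1) : ℝ) - 1) = (p.2.2 k : ℝ) - p.1.2 k) ∧
      ∀ k, n ≤ k → v (k + 1) = p.2.2 k := by
    refine ⟨fun m => Nat.casesOn m ⟨(s + 1) / 2, by constructor <;> linarith⟩ y, ?_,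
      fun k hk' => hy1 k hk', fun k hk' => hy2 k hk'⟩
    show 2 * ((s + 1) / 2) - 1 = s
    ring
  obtain ⟨v, hv0, hv1, hv2⟩ := hex
  obtain ⟨u, hu⟩ := hφ v
  refine ⟨u, ?_⟩
  refine Prod.ext ?_ ?_
  · show p.1.1 * Circle.exp (Real.pi * SRJ_eta n * (2 * (φ u 0 : ℝ) - 1)) = p.2.1
    rw [hu, hv0, hs2]
  · funext k
    show (if k < n then Set.projIcc (0 : ℝ) 1 zero_le_one ((p.1.2 k : ℝ) +
        SRJ_eta n * (2 * (φ u (k + 1) : ℝ) - 1)) else φ u (k + 1)) = p.2.2 k
    rw [hu]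
    by_cases hk' : k < n
    · rw [if_pos hk', hv1 k hk', add_sub_cancel, Set.projIcc_val]
    · rw [if_neg hk', hv2 k (not_lt.1 hk')]

theorem p_SRJ (hP : T_PEA) : T_SRJ := by
  obtain ⟨φ, hφ, hφs⟩ := hP
  intro X _ ⟨Φ⟩ ε hε
  have hXc : CompactSpace X := Φ.symm.compactSpace
  have hu1 : UniformContinuous Φ := CompactSpace.uniformContinuous_of_continuous Φ.continuous
  have hu2 : UniformContinuous Φ.symm :=
    CompactSpace.uniformContinuous_of_continuous Φ.symm.continuous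
  have hW : {p : SRJ_Z × SRJ_Z | dist (Φ.symm p.1) (Φ.symm p.2) < ε} ∈ 𝓤 SRJ_Z :=
    hu2 (Metric.dist_mem_uniformity hε)
  have hev := (SRJ_small φ).eventually hW
  rw [eventually_prod_iff] at hev
  obtain ⟨pa, hpa, pb, hpb, hab⟩ := hev
  obtain ⟨n, hn⟩ := hpa.exists
  have hpb' : ∀ z, pb z := by
    intro z
    rw [eventually_top] at hpb
    exact hpb z
  have hR := hu1 (SRJ_reach φ hφs n)
  obtain ⟨δ, hδ, hδ2⟩ := Metric.mem_uniformity_dist.1 hR
  refine ⟨δ, hδ, fun z => Φ.symm (SRJ_F φ n (Φ z.1, z.2)), ?_, ?_, ?_⟩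
  · refine Φ.symm.continuous.comp ((SRJ_cont φ hφ n).comp ?_)
    exact (Φ.continuous.comp continuous_fst).prodMk continuous_snd
  · intro x u
    have := hab hn (hpb' (Φ x, u))
    have h2 : dist (Φ.symm (SRJ_F φ n (Φ x, u))) (Φ.symm (Φ x)) < ε := this
    rw [Φ.symm_apply_apply] at h2
    exact h2
  · intro x x' hxx
    obtain ⟨u, hu⟩ := hδ2 hxx
    refine ⟨u, ?_⟩
    have hu' : SRJ_F φ n (Φ x, u) = Φ x' := hu
    show Φ.symm (SRJ_F φ n (Φ x, u)) = x'
    rw [hu', Φ.symm_apply_apply]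

end

end INJ
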