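import Pool.Agent.INJ.MTargets

set_option autoImplicit false
set_option maxHeartbeats 4000000

/-!
# INJ: one step of the time change
-/

namespace INJ

open Quaternion

noncomputable section

theorem ST1_nn_pos (a : ℕ × ℕ) : (0 : ℝ) < nn a := by
  unfold nn
  positivity

theorem ST1_max (d a b t : ℝ) : max (max d (a - t)) (max d (b - t)) = max d (max a b - t) := by
  rw [max_max_max_comm, max_self, max_sub_sub_right]

/-- the truncated maximum of the first thresholds, with a real number for all large times -/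
theorem ST1_S (F : ℕ → ℍ[ℝ]) (c : ℝ) : ∀ k : ℕ, ∃ a : ℝ,
    (∀ l < k, F l ≠ rho → (tt (kap (ak l)) (F l) - 1 / 2) / nn (ak l) ≤ a) ∧
    (∀ t, c ≤ t → GS k t F → a ≤ t) ∧
    (∀ t δ, c ≤ t - δ → Sk k t F δ = max (-δ) (a - t)) := by
  intro k
  induction k with
  | zero =>
    refine ⟨c, fun l hl => absurd hl (Nat.not_lt_zero l), fun t ht _ => ht, fun t δ h => ?_⟩
    change -δ = _
    rw [max_eq_left]
    linarith
  | succ k ih =>
    obtain ⟨a, h1, h2, h3⟩ := ih
    by_cases hk : F k = rho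
    · refine ⟨a, ?_, fun t ht hG => h2 t ht fun l hl => hG l (Nat.lt_succ_of_lt hl), ?_⟩
      · intro l hl hF
        rcases Nat.lt_succ_iff_lt_or_eq.1 hl with h | h
        · exact h1 l h hF
        · rw [h] at hF
          exact absurd hk hF
      · intro t δ h
        change max (Sk k t F δ) (yk k t (F k) δ) = _
        rw [h3 t δ h, yk, if_pos hk, max_eq_left (le_max_left _ _)]
    · refine ⟨max a ((tt (kap (ak k)) (F k) - 1 / 2) / nn (ak k)), ?_, ?_, ?_⟩
      · intro l hl hF
        rcases Nat.lt_succ_iff_lt_or_eq.1 hl with h | h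
        · exact (h1 l h hF).trans (le_max_left _ _)
        · rw [h]
          exact le_max_right _ _
      · intro t ht hG
        refine max_le (h2 t ht fun l hl => hG l (Nat.lt_succ_of_lt hl)) ?_
        rcases hG k (Nat.lt_succ_self k) with h | h
        · exact absurd h hk
        · unfold ss at h
          rw [div_le_iff₀ (ST1_nn_pos _)]
          linarith
      · intro t δ h
        change max (Sk k t F δ) (yk k t (F k) δ) = _
        rw [h3 t δ h, yk, if_neg hk, ST1_max]

/-- the thresholds of the current coordinate -/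
theorem ST1_XY (h4 : T_TT4) (hk : T_KAP) (F : ℕ → ℍ[ℝ]) (c : ℝ) (k : ℕ) : ∃ x y : ℝ,
    |y - x| ≤ 3 / nn (ak k) ∧ (F k ≠ rho → (tt (kap (ak k)) (F k) - 1 / 2) / nn (ak k) ≤ y) ∧
    (∀ t, c ≤ t → GB k t F → x ≤ t) ∧
    (∀ t δ, c ≤ t - δ → xk k t (F k) δ = max (-δ) (x - t) ∧
      yk k t (F k) δ = max (-δ) (y - t)) := by
  have hn := ST1_nn_pos (ak k)
  by_cases hF : F k = rho
  · refine ⟨c, c, ?_, fun h => absurd hF h, fun t ht _ => ht, fun t δ h => ?_⟩
    · rw [sub_self, abs_zero]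
      positivity
    · rw [xk, yk, if_pos hF, if_pos hF, max_eq_left (by linarith)]
      exact ⟨rfl, rfl⟩
  · have hκ := hk.1 (ak k)
    have h := h4 (kap (ak k)) hκ.1 (by linarith [hκ.2]) (F k) hF
    refine ⟨(ll (F k) - 1 / 2) / nn (ak k), (tt (kap (ak k)) (F k) - 1 / 2) / nn (ak k), ?_,
      fun _ => le_rfl, ?_, ?_⟩
    · rw [← sub_div, abs_div, abs_of_pos hn]
      refine div_le_div_of_nonneg_right ?_ hn.le
      have e : tt (kap (ak k)) (F k) - 1 / 2 - (ll (F k) - 1 / 2) =
          tt (kap (ak k)) (F k) - ll (F k) := by ring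
      rw [e]
      exact h
    · intro t _ hB
      have hpos : 0 < ‖F k - rho‖ := norm_pos_iff.2 (sub_ne_zero.2 hF)
      have hl : Real.log ‖F k - rho‖ ≤ ss (ak k) t * Real.log 10 := by
        have := Real.log_le_log hpos hB
        rwa [Real.log_rpow (by norm_num)] at this
      have hl' : ll (F k) ≤ ss (ak k) t := by
        unfold ll
        rw [div_le_iff₀ (Real.log_pos (by norm_num))]
        exact hl
      unfold ss at hl'
      rw [div_le_iff₀ hn]
      linarith
    · intro t δ _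
      rw [xk, yk, if_neg hF, if_neg hF]
      exact ⟨rfl, rfl⟩

/-- explicit form of one step -/
theorem ST1_form (n t m1 m2 : ℝ) (hn : 0 < n) (hm : |m2 - m1| ≤ 3 / n) :
    t + (max (-(9 / n)) (m2 - t) - max (-(9 / n)) (m1 - t)) *
      max 0 (1 + n / 6 * max (-(9 / n)) (m1 - t)) =
    t + (m2 - m1) * max 0 (1 - n / 6 * (t - m1)) := by
  congr 1
  have h9 : n / 6 * (9 / n) = 3 / 2 := by field_simp; norm_num
  have h3 : n * (3 / n) = 3 := by field_simp
  have h99 : n * (9 / n) = 9 := by field_simp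
  by_cases hu : 6 / n ≤ t - m1
  · have h6 : 1 ≤ n / 6 * (t - m1) := by
      have := mul_le_mul_of_nonneg_left hu (by positivity : (0 : ℝ) ≤ n / 6)
      have e : n / 6 * (6 / n) = 1 := by field_simp
      linarith
    have e1 : max 0 (1 + n / 6 * max (-(9 / n)) (m1 - t)) = 0 := by
      apply max_eq_left
      rcases max_cases (-(9 / n)) (m1 - t) with h | h
      · rw [h.1]
        linarith
      · rw [h.1]
        linarith
    have e2 : max 0 (1 - n / 6 * (t - m1)) = 0 := by
      apply max_eq_left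
      linarith
    rw [e1, e2, mul_zero, mul_zero]
  · have hu' : t - m1 < 6 / n := not_le.1 hu
    have h63 : 6 / n + 3 / n = 9 / n := by rw [← add_div]; norm_num
    have hp3 : 0 < 3 / n := by positivity
    have e1 : max (-(9 / n)) (m1 - t) = m1 - t := max_eq_right (by linarith)
    have e2 : max (-(9 / n)) (m2 - t) = m2 - t := by
      apply max_eq_right
      linarith [(abs_le.1 hm).1]
    rw [e1, e2]
    congr 1
    · ring
    · congr 1
      ring

theorem ST1_phi (n t m1 : ℝ) (hn : 0 < n) (h1 : m1 ≤ t) :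
    0 ≤ max 0 (1 - n / 6 * (t - m1)) ∧ max 0 (1 - n / 6 * (t - m1)) ≤ 1 ∧
    1 - max 0 (1 - n / 6 * (t - m1)) ≤ n / 6 * (t - m1) := by
  have h0 : 0 ≤ n / 6 * (t - m1) := mul_nonneg (by positivity) (by linarith)
  refine ⟨le_max_left _ _, max_le zero_le_one (by linarith), ?_⟩
  linarith [le_max_right 0 (1 - n / 6 * (t - m1))]

theorem ST1_lip (n t t' m1 : ℝ) (hn : 0 < n) (h : t ≤ t') :
    |max 0 (1 - n / 6 * (t' - m1)) - max 0 (1 - n / 6 * (t - m1))| ≤ n / 6 * (t' - t) := by
  have h1 := abs_max_sub_max_le_max 0 (1 - n / 6 * (t' - m1)) 0 (1 - n / 6 * (t - m1))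
  refine h1.trans ?_
  have e : 1 - n / 6 * (t' - m1) - (1 - n / 6 * (t - m1)) = -(n / 6 * (t' - t)) := by ring
  rw [sub_self, abs_zero, e, abs_neg, abs_of_nonneg (mul_nonneg (by positivity) (by linarith))]
  exact max_le (mul_nonneg (by positivity) (by linarith)) le_rfl

/-- everything at once, for all times at least `c` -/
theorem ST1_main (h4 : T_TT4) (hk : T_KAP) (k : ℕ) (F : ℕ → ℍ[ℝ]) (c : ℝ) : ∃ m1 m2 : ℝ,
    |m2 - m1| ≤ 3 / nn (ak k) ∧
    (∀ l < k + 1, F l ≠ rho → (tt (kap (ak l)) (F l) - 1 / 2) / nn (ak l) ≤ m2) ∧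
    ∀ t, c ≤ t - 9 / nn (ak k) → GS k t F → GB k t F → m1 ≤ t ∧
      stp k t F = t + (m2 - m1) * max 0 (1 - nn (ak k) / 6 * (t - m1)) := by
  have hn := ST1_nn_pos (ak k)
  obtain ⟨a, ha1, ha2, ha3⟩ := ST1_S F c k
  obtain ⟨x, y, hxy, hy, hx, hXY⟩ := ST1_XY h4 hk F c k
  refine ⟨max a x, max a y, ?_, ?_, ?_⟩
  · refine (abs_max_sub_max_le_max a y a x).trans ?_
    rw [sub_self, abs_zero]
    exact max_le (by positivity) hxy
  · intro l hl hF
    rcases Nat.lt_succ_iff_lt_or_eq.1 hl with h | h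
    · exact (ha1 l h hF).trans (le_max_left _ _)
    · subst h
      exact (hy hF).trans (le_max_right _ _)
  · intro t ht hS hB
    have h9 : 0 < 9 / (nn (ak k) : ℝ) := by positivity
    have hct : c ≤ t := by linarith
    have hm1 : max a x ≤ t := max_le (ha2 t hct hS) (hx t hct hB)
    refine ⟨hm1, ?_⟩
    have hm : |max a y - max a x| ≤ 3 / nn (ak k) := by
      refine (abs_max_sub_max_le_max a y a x).trans ?_
      rw [sub_self, abs_zero]
      exact max_le (by positivity) hxy
    rw [← ST1_form _ _ _ _ hn hm]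
    unfold stp
    rw [ha3 t _ ht, (hXY t _ ht).1, (hXY t _ ht).2, ST1_max, ST1_max]

/-- Target ST1. -/
theorem p_ST1 (h4 : T_TT4) (hk : T_KAP) : T_ST1 := by
  intro k F
  have hn := ST1_nn_pos (ak k)
  have h63 : (nn (ak k) : ℝ) / 6 * (3 / nn (ak k)) = 1 / 2 := by field_simp; norm_num
  refine ⟨?_, ?_, ?_⟩
  · intro t hS hB
    obtain ⟨m1, m2, hm, -, h⟩ := ST1_main h4 hk k F (t - 9 / nn (ak k))
    obtain ⟨h1, h2⟩ := h t le_rfl hS hB
    obtain ⟨p0, p1, -⟩ := ST1_phi _ t m1 hn h1
    rw [h2, add_sub_cancel_left, abs_mul, abs_of_nonneg p0]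
    calc |m2 - m1| * max 0 (1 - nn (ak k) / 6 * (t - m1)) ≤ |m2 - m1| * 1 :=
          mul_le_mul_of_nonneg_left p1 (abs_nonneg _)
      _ ≤ 3 / nn (ak k) := by rw [mul_one]; exact hm
  · intro t t' hS hB hS' hB' htt
    obtain ⟨m1, m2, hm, -, h⟩ := ST1_main h4 hk k F (t - 9 / nn (ak k))
    obtain ⟨h1, h2⟩ := h t le_rfl hS hB
    obtain ⟨h1', h2'⟩ := h t' (by linarith) hS' hB'
    rw [h2, h2']
    have hl := ST1_lip _ t t' m1 hn htt
    have hprod : |(m2 - m1) * (max 0 (1 - nn (ak k) / 6 * (t' - m1)) -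
        max 0 (1 - nn (ak k) / 6 * (t - m1)))| ≤ (t' - t) / 2 := by
      rw [abs_mul]
      calc |m2 - m1| * |max 0 (1 - nn (ak k) / 6 * (t' - m1)) -
            max 0 (1 - nn (ak k) / 6 * (t - m1))|
          ≤ (3 / nn (ak k)) * (nn (ak k) / 6 * (t' - t)) :=
            mul_le_mul hm hl (abs_nonneg _) (by positivity)
        _ = (nn (ak k) / 6 * (3 / nn (ak k))) * (t' - t) := by ring
        _ = (t' - t) / 2 := by rw [h63]; ring
    have := (abs_le.1 hprod).1
    nlinarith [this]
  · intro t hS hB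
    obtain ⟨m1, m2, hm, hy, h⟩ := ST1_main h4 hk k F (t - 9 / nn (ak k))
    obtain ⟨h1, h2⟩ := h t le_rfl hS hB
    obtain ⟨p0, p1, p2⟩ := ST1_phi _ t m1 hn h1
    have hge : m2 ≤ stp k t F := by
      rw [h2]
      have hprod : |(m2 - m1) * (1 - max 0 (1 - nn (ak k) / 6 * (t - m1)))| ≤ (t - m1) / 2 := by
        rw [abs_mul]
        have hq : |1 - max 0 (1 - nn (ak k) / 6 * (t - m1))| ≤ nn (ak k) / 6 * (t - m1) := by
          rw [abs_of_nonneg (by linarith)]
          exact p2
        calc |m2 - m1| * |1 - max 0 (1 - nn (ak k) / 6 * (t - m1))|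
            ≤ (3 / nn (ak k)) * (nn (ak k) / 6 * (t - m1)) :=
              mul_le_mul hm hq (abs_nonneg _) (by positivity)
          _ = (nn (ak k) / 6 * (3 / nn (ak k))) * (t - m1) := by ring
          _ = (t - m1) / 2 := by rw [h63]; ring
      have := (abs_le.1 hprod).2
      nlinarith [this]
    intro l hl
    by_cases hF : F l = rho
    · exact Or.inl hF
    · right
      have h5 := (hy l hl hF).trans hge
      unfold ss
      rw [div_le_iff₀ (ST1_nn_pos _)] at h5
      linarith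

end

end INJ
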