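import Pool.Agent.INJ.MTargets

set_option autoImplicit false
set_option maxHeartbeats 4000000

/-!
# INJ: target `ST2`
-/

namespace INJ

open Quaternion

noncomputable section

lemma ST2_nn (a : ℕ × ℕ) : (0 : ℝ) < nn a := by
  unfold nn
  positivity

lemma ST2_yk (k : ℕ) (t u : ℝ) (F : ℍ[ℝ]) (δ : ℝ) :
    yk k u F δ ≤ max (-δ) (yk k t F δ - (u - t)) := by
  unfold yk
  split_ifs with h
  · exact le_max_left _ _
  · refine max_le_max le_rfl ?_
    have := le_max_right (-δ) ((tt (kap (ak k)) F - 1 / 2) / nn (ak k) - t)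
    linarith

lemma ST2_xk (k : ℕ) (t u : ℝ) (F : ℍ[ℝ]) (δ : ℝ) :
    xk k u F δ ≤ max (-δ) (xk k t F δ - (u - t)) := by
  unfold xk
  split_ifs with h
  · exact le_max_left _ _
  · refine max_le_max le_rfl ?_
    have := le_max_right (-δ) ((ll F - 1 / 2) / nn (ak k) - t)
    linarith

lemma ST2_max {A B A' B' d r : ℝ} (h1 : A ≤ max d (A' - r)) (h2 : B ≤ max d (B' - r)) :
    max A B ≤ max d (max A' B' - r) := by
  refine max_le (h1.trans (max_le_max le_rfl ?_)) (h2.trans (max_le_max le_rfl ?_))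
  · linarith [le_max_left A' B']
  · linarith [le_max_right A' B']

lemma ST2_Sk (k : ℕ) (t u : ℝ) (F : ℕ → ℍ[ℝ]) (δ : ℝ) :
    Sk k u F δ ≤ max (-δ) (Sk k t F δ - (u - t)) := by
  induction k with
  | zero => exact le_max_left _ _
  | succ k ih =>
    change max (Sk k u F δ) (yk k u (F k) δ) ≤
      max (-δ) (max (Sk k t F δ) (yk k t (F k) δ) - (u - t))
    exact ST2_max ih (ST2_yk k t u (F k) δ)

lemma ST2_yk_le (k : ℕ) (t : ℝ) (F : ℍ[ℝ]) (δ : ℝ) (hδ : 0 < δ) :
    yk k t F δ ≤ 0 ↔ InU (kap (ak k)) (ss (ak k) t) F := by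
  have hn := ST2_nn (ak k)
  unfold yk InU ss
  split_ifs with h
  · exact ⟨fun _ => Or.inl h, fun _ => by linarith⟩
  · rw [max_le_iff]
    constructor
    · rintro ⟨_, h2⟩
      right
      have h3 : (tt (kap (ak k)) F - 1 / 2) / nn (ak k) ≤ t := by linarith
      rw [div_le_iff₀ hn] at h3
      linarith
    · rintro (h2 | h2)
      · exact absurd h2 h
      · refine ⟨by linarith, ?_⟩
        have h3 : (tt (kap (ak k)) F - 1 / 2) / nn (ak k) ≤ t := by
          rw [div_le_iff₀ hn]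
          linarith
        linarith

lemma ST2_xk_le (k : ℕ) (t : ℝ) (F : ℍ[ℝ]) (δ : ℝ) (h : xk k t F δ ≤ 0) :
    ‖F - rho‖ ≤ (10 : ℝ) ^ (ss (ak k) t) := by
  have hn := ST2_nn (ak k)
  unfold xk at h
  split_ifs at h with h0
  · rw [h0, sub_self, norm_zero]
    positivity
  · have h1 := le_of_max_le_right h
    have h2 : (ll F - 1 / 2) / nn (ak k) ≤ t := by linarith
    rw [div_le_iff₀ hn] at h2
    have h3 : ll F ≤ ss (ak k) t := by
      unfold ss
      linarith
    have h4 : 0 < ‖F - rho‖ := norm_pos_iff.2 (sub_ne_zero.2 h0)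
    have h5 : 0 < Real.log 10 := Real.log_pos (by norm_num)
    unfold ll at h3
    rw [div_le_iff₀ h5] at h3
    rw [← Real.exp_log h4, Real.rpow_def_of_pos (by norm_num), Real.exp_le_exp, mul_comm]
    exact h3

lemma ST2_Sk_le (k : ℕ) (t : ℝ) (F : ℕ → ℍ[ℝ]) (δ : ℝ) (hδ : 0 < δ) :
    Sk k t F δ ≤ 0 ↔ GS k t F := by
  induction k with
  | zero =>
    refine ⟨fun _ l hl => absurd hl (Nat.not_lt_zero l), fun _ => ?_⟩
    change -δ ≤ 0
    linarith
  | succ k ih =>
    change max (Sk k t F δ) (yk k t (F k) δ) ≤ 0 ↔ _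
    rw [max_le_iff, ih, ST2_yk_le k t (F k) δ hδ]
    constructor
    · rintro ⟨h1, h2⟩ l hl
      rcases Nat.lt_succ_iff_lt_or_eq.1 hl with h | h
      · exact h1 l h
      · rw [h]; exact h2
    · intro h
      exact ⟨fun l hl => h l (Nat.lt_succ_of_lt hl), h k (Nat.lt_succ_self k)⟩

lemma ST2_diff (hT : T_TT4) (hK : T_KAP) (k : ℕ) (t : ℝ) (F : ℕ → ℍ[ℝ]) (δ : ℝ) :
    |max (Sk k t F δ) (yk k t (F k) δ) - max (Sk k t F δ) (xk k t (F k) δ)| ≤
      3 / nn (ak k) := by
  have hn := ST2_nn (ak k)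
  have h1 : |yk k t (F k) δ - xk k t (F k) δ| ≤ 3 / nn (ak k) := by
    unfold yk xk
    split_ifs with h
    · rw [sub_self, abs_zero]
      positivity
    · have h2 := abs_max_sub_max_le_abs ((tt (kap (ak k)) (F k) - 1 / 2) / nn (ak k) - t)
        ((ll (F k) - 1 / 2) / nn (ak k) - t) (-δ)
      rw [max_comm _ (-δ), max_comm _ (-δ)] at h2
      refine h2.trans ?_
      have h3 := hT (kap (ak k)) (hK.1 (ak k)).1 (le_trans (hK.1 (ak k)).2 (by norm_num)) (F k) h
      have h4 : (tt (kap (ak k)) (F k) - 1 / 2) / nn (ak k) - t -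
          ((ll (F k) - 1 / 2) / nn (ak k) - t) =
          (tt (kap (ak k)) (F k) - ll (F k)) / nn (ak k) := by
        ring
      rw [h4, abs_div, abs_of_pos hn]
      exact div_le_div_of_nonneg_right h3 hn.le
  have h2 := abs_max_sub_max_le_abs (yk k t (F k) δ) (xk k t (F k) δ) (Sk k t F δ)
  rw [max_comm _ (Sk k t F δ), max_comm _ (Sk k t F δ)] at h2
  exact h2.trans h1

/-- the target `ST2` -/
theorem p_ST2 (hT : T_TT4) (hK : T_KAP) (hC : T_STC) : T_ST2 := by
  intro k F t' hG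
  have hn := ST2_nn (ak k)
  set n : ℝ := ((nn (ak k) : ℕ) : ℝ) with hnd
  have hδ : 0 < 9 / n := by positivity
  have h3 : 0 < 3 / n := by positivity
  have h39 : 3 / n ≤ 9 / n := div_le_div_of_nonneg_right (by norm_num) hn.le
  set M1 : ℝ → ℝ := fun t => max (Sk k t F (9 / n)) (xk k t (F k) (9 / n)) with hM1
  set M2 : ℝ → ℝ := fun t => max (Sk k t F (9 / n)) (yk k t (F k) (9 / n)) with hM2
  have hst : ∀ t, stp k t F = t + (M2 t - M1 t) * max 0 (1 + n / 6 * M1 t) := fun t => rfl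
  have hS1 : ∀ t u, M1 u ≤ max (-(9 / n)) (M1 t - (u - t)) := fun t u =>
    ST2_max (ST2_Sk k t u F _) (ST2_xk k t u (F k) _)
  have hS2 : ∀ t u, M2 u ≤ max (-(9 / n)) (M2 t - (u - t)) := fun t u =>
    ST2_max (ST2_Sk k t u F _) (ST2_yk k t u (F k) _)
  have hD : ∀ t, |M2 t - M1 t| ≤ 3 / n := fun t => ST2_diff hT hK k t F _
  have hgood : ∀ t, M1 t ≤ 0 → GS k t F ∧ GB k t F := by
    intro t ht
    have := max_le_iff.1 ht
    exact ⟨(ST2_Sk_le k t F _ hδ).1 this.1, ST2_xk_le k t (F k) _ this.2⟩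
  have hM2t : M2 t' ≤ 0 := by
    have := (ST2_Sk_le (k + 1) t' F _ hδ).2 hG
    exact this
  have hfac : ∀ t, M1 t ≤ 0 → 0 ≤ max 0 (1 + n / 6 * M1 t) ∧ max 0 (1 + n / 6 * M1 t) ≤ 1 := by
    intro t ht
    refine ⟨le_max_left _ _, max_le zero_le_one ?_⟩
    have : n / 6 * M1 t ≤ 0 := mul_nonpos_of_nonneg_of_nonpos (by positivity) ht
    linarith
  have hprod : ∀ t, M1 t ≤ 0 → |(M2 t - M1 t) * max 0 (1 + n / 6 * M1 t)| ≤ 3 / n := by
    intro t ht
    obtain ⟨f0, f1⟩ := hfac t ht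
    rw [abs_mul, abs_of_nonneg f0]
    calc |M2 t - M1 t| * max 0 (1 + n / 6 * M1 t) ≤ 3 / n * 1 :=
          mul_le_mul (hD t) f1 f0 h3.le
      _ = 3 / n := mul_one _
  have hM1t : M1 t' ≤ 3 / n := by
    have := (abs_le.1 (hD t')).1
    linarith
  set a : ℝ := t' + M1 t' with ha
  have haM : M1 a ≤ 0 := by
    refine (hS1 t' a).trans (max_le (by linarith) ?_)
    rw [ha]; linarith
  have hab : a ≤ t' + 3 / n := by rw [ha]; linarith
  have hbM : M1 (t' + 3 / n) ≤ 0 := by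
    refine (hS1 t' _).trans (max_le (by linarith) (by linarith))
  have hfb : t' ≤ stp k (t' + 3 / n) F := by
    rw [hst]
    have := (abs_le.1 (hprod _ hbM)).1
    linarith
  have hfa : stp k a F ≤ t' := by
    rcases lt_or_eq_of_le haM with h0 | h0
    · have h1 := hS1 a t'
      have h2 : M1 t' ≤ -(9 / n) := by
        rcases le_max_iff.1 h1 with h | h
        · exact h
        · exfalso
          rw [ha] at h h0
          linarith
      rw [hst]
      have := (abs_le.1 (hprod _ haM)).2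
      have h4 : a ≤ t' - 9 / n := by rw [ha]; linarith
      linarith
    · have h1 : M2 a ≤ t' - a := by
        refine (hS2 t' a).trans (max_le ?_ ?_)
        · rw [ha]; linarith
        · linarith
      rw [hst, h0, mul_zero, add_zero, max_eq_right zero_le_one, mul_one, sub_zero]
      linarith
  have hcont : Continuous fun t : ℝ => stp k t F :=
    (hC.1 k).comp (continuous_id.prodMk continuous_const)
  obtain ⟨t, ht, hte⟩ := intermediate_value_Icc hab hcont.continuousOn ⟨hfa, hfb⟩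
  have htM : M1 t ≤ 0 := by
    refine (hS1 a t).trans (max_le (by linarith) ?_)
    linarith [ht.1]
  exact ⟨t, (hgood t htM).1, (hgood t htM).2, hte⟩

end

end INJ
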