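import Pool.Agent.INJ.MTargets

set_option autoImplicit false

/-!
# INJ: ST3 (one step is equivariant)
-/

namespace INJ

open Quaternion

noncomputable section

lemma ST3_tt (hTHK : T_THK) (hTT1 : T_TT1) (κ : ℝ) (h0 : 0 < κ) (h1 : κ ≤ 1 / 8) (F : ℍ[ℝ])
    (hF : F ≠ rho) (n : ℕ) : tt κ (th (-(n : ℤ)) F) = tt κ F + n := by
  induction n with
  | zero =>
    rw [Nat.cast_zero, neg_zero, hTHK.1, Nat.cast_zero, add_zero]
  | succ n ih =>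
    have hne : th (-((n + 1 : ℕ) : ℤ)) F ≠ rho := fun h => hF ((hTHK.2.2.2.2.2.2.1 _ _).1 h)
    have h2 := hTT1 κ h0 h1 _ hne
    have h3 : th 1 (th (-((n + 1 : ℕ) : ℤ)) F) = th (-(n : ℤ)) F := by
      rw [hTHK.2.1]
      congr 1
      push_cast
      ring
    rw [h3, ih] at h2
    have h4 : ((n + 1 : ℕ) : ℝ) = (n : ℝ) + 1 := by push_cast; ring
    rw [h4]
    linarith

lemma ST3_ll (hTHK : T_THK) (F : ℍ[ℝ]) (hF : F ≠ rho) (n : ℕ) :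
    ll (th (-(n : ℤ)) F) = ll F + n := by
  unfold ll
  have hn : ‖F - rho‖ ≠ 0 := by
    rw [norm_ne_zero_iff]
    exact sub_ne_zero.2 hF
  have h10 : Real.log 10 ≠ 0 := (Real.log_pos (by norm_num)).ne'
  rw [hTHK.2.2.2.1, neg_neg, zpow_natCast, Real.log_mul (by positivity) hn, Real.log_pow]
  field_simp
  ring

lemma ST3_nn (a : ℕ × ℕ) : (nn a : ℝ) ≠ 0 := by
  unfold nn
  positivity

lemma ST3_yk (hKAP : T_KAP) (hTHK : T_THK) (hTT1 : T_TT1) (k : ℕ) (t : ℝ) (F : ℍ[ℝ]) (δ : ℝ) :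
    yk k (t + 1) (th (-(nn (ak k) : ℤ)) F) δ = yk k t F δ := by
  unfold yk
  by_cases hF : F = rho
  · rw [if_pos hF, if_pos ((hTHK.2.2.2.2.2.2.1 _ _).2 hF)]
  · rw [if_neg hF, if_neg (fun h => hF ((hTHK.2.2.2.2.2.2.1 _ _).1 h))]
    have hk := hKAP.1 (ak k)
    rw [ST3_tt hTHK hTT1 _ hk.1 (by linarith [hk.2]) F hF]
    congr 1
    have := ST3_nn (ak k)
    field_simp
    ring

lemma ST3_xk (hTHK : T_THK) (k : ℕ) (t : ℝ) (F : ℍ[ℝ]) (δ : ℝ) :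
    xk k (t + 1) (th (-(nn (ak k) : ℤ)) F) δ = xk k t F δ := by
  unfold xk
  by_cases hF : F = rho
  · rw [if_pos hF, if_pos ((hTHK.2.2.2.2.2.2.1 _ _).2 hF)]
  · rw [if_neg hF, if_neg (fun h => hF ((hTHK.2.2.2.2.2.2.1 _ _).1 h))]
    rw [ST3_ll hTHK F hF]
    congr 1
    have := ST3_nn (ak k)
    field_simp
    ring

lemma ST3_Sk (hKAP : T_KAP) (hTHK : T_THK) (hTT1 : T_TT1) (t : ℝ) (F : ℕ → ℍ[ℝ]) (δ : ℝ)
    (k : ℕ) : Sk k (t + 1) (fun l => th (-(nn (ak l) : ℤ)) (F l)) δ = Sk k t F δ := by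
  induction k with
  | zero => rfl
  | succ k ih =>
    change max (Sk k (t + 1) (fun l => th (-(nn (ak l) : ℤ)) (F l)) δ)
      (yk k (t + 1) (th (-(nn (ak k) : ℤ)) (F k)) δ) = max (Sk k t F δ) (yk k t (F k) δ)
    rw [ih, ST3_yk hKAP hTHK hTT1]

theorem p_ST3 (hKAP : T_KAP) (hTHK : T_THK) (hTT1 : T_TT1) : T_ST3 := by
  intro k F t
  unfold stp
  simp only [ST3_Sk hKAP hTHK hTT1, ST3_yk hKAP hTHK hTT1, ST3_xk hTHK]
  ring

end

end INJ
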