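import Pool.Agent.INJ.MTargets

set_option autoImplicit false

/-!
# INJ, target STC: continuity of one step of the time change
-/

namespace INJ

open Quaternion

noncomputable section

theorem STC_y (h : T_XYC) (k : ℕ) (δ : ℝ) (hδ : 0 < δ) :
    Continuous (fun p : ℝ × (ℕ → ℍ[ℝ]) => yk k p.1 (p.2 k) δ) := by
  have h1 := (h k δ hδ).1
  have h2 : Continuous (fun p : ℝ × (ℕ → ℍ[ℝ]) => ((p.1, p.2 k) : ℝ × ℍ[ℝ])) :=
    continuous_fst.prodMk ((continuous_apply k).comp continuous_snd)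
  exact h1.comp h2

theorem STC_x (h : T_XYC) (k : ℕ) (δ : ℝ) (hδ : 0 < δ) :
    Continuous (fun p : ℝ × (ℕ → ℍ[ℝ]) => xk k p.1 (p.2 k) δ) := by
  have h1 := (h k δ hδ).2
  have h2 : Continuous (fun p : ℝ × (ℕ → ℍ[ℝ]) => ((p.1, p.2 k) : ℝ × ℍ[ℝ])) :=
    continuous_fst.prodMk ((continuous_apply k).comp continuous_snd)
  exact h1.comp h2

theorem STC_S (h : T_XYC) (k : ℕ) (δ : ℝ) (hδ : 0 < δ) :
    Continuous (fun p : ℝ × (ℕ → ℍ[ℝ]) => Sk k p.1 p.2 δ) := by
  induction k with
  | zero => simpa only [Sk] using continuous_const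
  | succ k ih =>
    simp only [Sk]
    exact ih.max (STC_y h k δ hδ)

theorem STC_Scongr (k : ℕ) (t δ : ℝ) (F F' : ℕ → ℍ[ℝ]) (hF : ∀ l < k, F l = F' l) :
    Sk k t F δ = Sk k t F' δ := by
  induction k with
  | zero => simp only [Sk]
  | succ k ih =>
    simp only [Sk]
    rw [ih (fun l hl => hF l (by omega)), hF k (by omega)]

theorem STC_pos (k : ℕ) : (0 : ℝ) < 9 / nn (ak k) := by
  have h1 : (0 : ℝ) < (nn (ak k) : ℝ) := by
    unfold nn
    push_cast
    positivity
  positivity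

theorem p_STC (h : T_XYC) : T_STC := by
  refine ⟨fun k => ?_, fun k t F F' hF => ?_⟩
  · have hS := STC_S h k _ (STC_pos k)
    have hy := STC_y h k _ (STC_pos k)
    have hx := STC_x h k _ (STC_pos k)
    unfold stp
    exact continuous_fst.add (((hS.max hy).sub (hS.max hx)).mul
      (continuous_const.max (continuous_const.add (continuous_const.mul (hS.max hx)))))
  · unfold stp
    rw [STC_Scongr k t _ F F' (fun l hl => hF l hl.le), hF k le_rfl]

end

end INJ
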