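import Pool.Agent.INJ.K2Targets

set_option autoImplicit false

/-!
# INJ, part K: target STEP (the induction step of item K10)
-/

namespace INJ

open Matrix

noncomputable section

lemma STEP_mu {Z Y Y' : Type} [TopologicalSpace Z] [TopologicalSpace Y] [TopologicalSpace Y']
    {r : Z → Z} {s : Y → Y} {s' : Y' → Y'} (ζ : Circle) (f : EMap Z r (Y × MM) (Prod.map s id))
    (g : EMap Z r (Y' × MM) (Prod.map s' id)) (h : ∀ z, (f.f z).2 = (g.f z).2) :
    pull f (mu Y s ζ) = pull g (mu Y' s' ζ) := by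
  unfold mu
  rw [map_sub, map_sub, tr1_pull, tr1_pull, pull_cls, pull_cls]
  congr 1
  refine cls_of_MvN (MvN.of_reindex (Equiv.refl _) (fun i => rfl) (fun y i j => ?_))
  change eH (g.f y).2 i j = eH (f.f y).2 i j
  rw [h]

lemma STEP_res {Y Y' : Type} [TopologicalSpace Y] [TopologicalSpace Y'] {s : Y → Y}
    {s' : Y' → Y'} {ζ ζ' : Circle} (R : KG Y s ζ →+ KG Y' s' ζ') (a c : ℤ)
    (hR : ∀ x : KG Y s ζ, R (T a x) = T c (R x)) (k : ℕ) (x : KG Y s ζ) :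
    R (D a k x) = D c k (R x) := by
  induction k with
  | zero => rfl
  | succ k ih =>
    change R (D a k x - T a (D a k x)) = D c k (R x) - T c (D c k (R x))
    rw [map_sub, hR, ih]

lemma STEP_ne {k : ℕ} (p : Sph k) : (fun i => p.1 i : Fin k → ℂ) ≠ 0 := by
  intro h
  have h1 := p.2
  rw [mem_sphere_zero_iff_norm] at h1
  have h2 : p.1 = 0 := by
    ext i
    exact congrFun h i
  rw [h2, norm_zero] at h1
  exact zero_ne_one h1

theorem p_STEP (hDADD : T_DADD) (hFROB : T_FROB) (hLGI : T_LGI) (hEUL : T_EUL) (hM5 : T_M5)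
    (hRES : T_RES) (hMU0 : T_MU0) (hZET : T_ZET) (hSGM : T_SGM) (hSNOC : T_SNOC) : T_STEP := by
  intro n hn h0
  obtain ⟨z1, -, z3, z4, z5, -⟩ := hZET
  obtain ⟨-, g2, -⟩ := hSGM
  obtain ⟨f, hf⟩ := hSNOC (n + 1)
  obtain ⟨d1, -, -, -, -, d6⟩ := hDADD (PT (n + 1) × MM) (Prod.map (sgm (n + 1)) id)
    (zeta (n + 1)) ((N (n + 1) / 5 : ℕ) : ℤ) 4
  obtain ⟨-, -, -, -, -, d6'⟩ := hDADD (PT (n + 2) × MM) (Prod.map (sgm (n + 2)) id)
    (zeta (n + 1)) ((N (n + 1) / 5 : ℕ) : ℤ) 4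
  obtain ⟨x, hxd⟩ : ∃ x, x = D ((N (n + 1) / 5 : ℕ) : ℤ) 4
    (mu (PT (n + 1)) (sgm (n + 1)) (zeta (n + 1))) := ⟨_, rfl⟩
  -- `x` vanishes on the product with the sphere
  have hx : pull (prE (N (n + 1)) (zeta (n + 1) ^ (1 : ℤ)) (Prod.map (sgm (n + 1)) id)) x = 0 := by
    rw [hxd, d6, ← STEP_mu (zeta (n + 1)) f _ (fun z => hf z), ← d6']
    exact (congrArg (pull f) h0).trans (map_zero _)
  obtain ⟨y, hy⟩ := hLGI (PT (n + 1) × MM) (Prod.map (sgm (n + 1)) id) (zeta (n + 1)) 1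
    (N (n + 1)) x hx
  -- remove the part at the base point
  have hbx : pull (baseE (sgm (n + 1))) x = 0 := by
    rw [hxd, d6, hMU0]
    have := d1 0 0
    rw [sub_self, sub_self] at this
    exact this
  obtain ⟨y', hy'⟩ : ∃ y', y' = y - pull (baseE (sgm (n + 1))) y := ⟨_, rfl⟩
  have h5 : 5 • y' = 0 := by
    rw [hy', smul_sub, hM5, sub_self]
  obtain ⟨e1, -, -, -, -, e6⟩ := hDADD (PT (n + 1) × MM) (Prod.map (sgm (n + 1)) id)
    (zeta (n + 1)) 1 (N (n + 1))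
  have hxy : x = D 1 (N (n + 1)) y' := by
    rw [hy', e1, ← e6, ← hy, hbx, sub_zero]
  have hFr : D 1 (N (n + 1)) y' = D (N n : ℤ) (N n) y' := by
    have h1 := hFROB (PT (n + 1) × MM) (Prod.map (sgm (n + 1)) id) (zeta (n + 1)) 1 (2 ^ n)
      (N n) y' h5
    have e2 : N (n + 1) = 5 ^ 2 ^ n * N n := z4 n
    have e3 : (1 : ℤ) * 5 ^ 2 ^ n = (N n : ℤ) := by
      rw [one_mul, N, Nat.cast_pow]
      rfl
    rw [e3] at h1
    rw [e2]
    exact h1
  have hEu : D (N n : ℤ) (N n) y' = 0 := by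
    refine hEUL (PT (n + 1) × MM) (Prod.map (sgm (n + 1)) id) (zeta (n + 1)) (N n : ℤ) (N n)
      (fun p i => (p.1 (Fin.last n)).1 i) ?_ (fun p => STEP_ne (p.1 (Fin.last n))) ?_ y'
    · fun_prop
    · intro p i
      rw [zpow_natCast, z1 n]
      rfl
  have hx0 : x = 0 := by rw [hxy, hFr, hEu]
  -- residues
  have hNpos : 0 < N n := by unfold N; positivity
  obtain ⟨Res, r1, -, r3⟩ := hRES (PT (n + 1) × MM) (Prod.map (sgm (n + 1)) id) (zeta (n + 1))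
    (zeta n) (N n) (N n) (fun p => by
      rw [Prod.map_iterate, Function.iterate_id]
      exact Prod.ext (g2 n p.1) rfl) hNpos (fun d hd => by
      have h1 := (z3 (n + 1) _).1 hd
      rw [z4 n, Nat.cast_mul] at h1
      exact (mul_dvd_mul_iff_left (by exact_mod_cast hNpos.ne')).1 h1) (z1 n)
  have hRmu : Res (mu (PT (n + 1)) (sgm (n + 1)) (zeta (n + 1))) =
      mu (PT (n + 1)) (sgm (n + 1)) (zeta n) := by
    unfold mu
    rw [map_sub]
    congr 1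
    · exact r3 (Fin 2) _ _ (fun _ => rfl) (fun _ => rfl) rfl
    · exact r3 (Fin 1) _ _ (fun _ => rfl) (fun _ => rfl) rfl
  have hdiv : ((N (n + 1) / 5 : ℕ) : ℤ) = (N n : ℤ) * ((N n / 5 : ℕ) : ℤ) := by
    rw [z4 n, Nat.mul_div_assoc _ (z5 n), Nat.cast_mul]
  apply hn
  rw [← hRmu, ← STEP_res Res ((N (n + 1) / 5 : ℕ) : ℤ) ((N n / 5 : ℕ) : ℤ) (fun u => by
    rw [hdiv]; exact r1 _ _), ← hxd, hx0, map_zero]

end

end INJ
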