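import Pool.Agent.INJ.MTargets

set_option autoImplicit false
set_option maxHeartbeats 4000000

/-!
# INJ, target TEQ: equivariance of the time change (helper17)
-/

namespace INJ

open Quaternion

noncomputable section

lemma TEQ_th_rho (k : ℤ) : th k rho = rho := by
  unfold th
  rw [sub_self, smul_zero, add_zero]

lemma TEQ_Fnew (k : ℕ) (t : ℝ) (w : ℍ[ℝ]) :
    Fnew k (t + 1) w = th (-(nn (ak k) : ℤ)) (Fnew k t w) := by
  unfold Fnew th ss
  rw [add_sub_cancel_left, smul_smul, neg_neg]
  congr 2
  have h10 : (0 : ℝ) < 10 := by norm_num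
  rw [show (nn (ak k) : ℝ) * (t + 1) + 1 / 2 = (nn (ak k) : ℝ) + ((nn (ak k) : ℝ) * t + 1 / 2) by
    ring, Real.rpow_add h10, Real.rpow_natCast, zpow_natCast]

lemma TEQ_st (hST3 : T_ST3) (t : ℝ) (w : ℕ → ℍ[ℝ]) (k : ℕ) :
    (st (t + 1) w k).1 = (st t w k).1 + 1 ∧
      (st (t + 1) w k).2 = fun l => th (-(nn (ak l) : ℤ)) ((st t w k).2 l) := by
  induction k with
  | zero =>
    refine ⟨rfl, ?_⟩
    funext l
    exact (TEQ_th_rho _).symm
  | succ k ih =>
    obtain ⟨h1, h2⟩ := ih
    have hF : Function.update (st (t + 1) w k).2 k (Fnew k (st (t + 1) w k).1 (w k)) =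
        fun l => th (-(nn (ak l) : ℤ))
          (Function.update (st t w k).2 k (Fnew k (st t w k).1 (w k)) l) := by
      funext l
      rw [h1, h2]
      by_cases hl : l = k
      · subst hl
        rw [Function.update_self, Function.update_self, TEQ_Fnew]
      · rw [Function.update_of_ne hl, Function.update_of_ne hl]
    refine ⟨?_, ?_⟩
    · change stp k (st (t + 1) w k).1
          (Function.update (st (t + 1) w k).2 k (Fnew k (st (t + 1) w k).1 (w k))) =
        stp k (st t w k).1 (Function.update (st t w k).2 k (Fnew k (st t w k).1 (w k))) + 1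
      rw [hF, h1]
      exact hST3 k _ _
    · change Function.update (st (t + 1) w k).2 k (Fnew k (st (t + 1) w k).1 (w k)) =
        fun l => th (-(nn (ak l) : ℤ))
          (Function.update (st t w k).2 k (Fnew k (st t w k).1 (w k)) l)
      exact hF

theorem p_TEQ (hST3 : T_ST3) (hLIM : T_LIM) : T_TEQ := by
  intro t w hw
  refine ⟨?_, ?_⟩
  · have h := ((hLIM.1 t w hw).1).add_const 1
    have e : (fun k => (st (t + 1) w k).1) = fun k => (st t w k).1 + 1 := by
      funext k
      exact (TEQ_st hST3 t w k).1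
    unfold tinf
    rw [e]
    exact h.limUnder_eq
  · intro k
    unfold Finf
    rw [(TEQ_st hST3 t w (k + 1)).2]

end

end INJ
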