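import Pool.Agent.INJ.MTargets

set_option autoImplicit false

/-!
# INJ, target THK: powers of the contraction (helper93)
-/

namespace INJ

open Quaternion

theorem THK_pos (k : ℤ) : (0 : ℝ) < (10 : ℝ) ^ (-k) := zpow_pos (by norm_num) _

theorem THK_sub (k : ℤ) (f : ℍ[ℝ]) : th k f - rho = ((10 : ℝ) ^ (-k)) • (f - rho) := by
  unfold th; abel

theorem THK_norm (k : ℤ) (f : ℍ[ℝ]) : ‖th k f - rho‖ = (10 : ℝ) ^ (-k) * ‖f - rho‖ := by
  rw [THK_sub, norm_smul, Real.norm_of_nonneg (THK_pos k).le]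

theorem THK_rho : ‖rho‖ = 1 / 2 := by
  unfold rho
  rw [Quaternion.norm_coe, Real.norm_of_nonneg (by norm_num)]

theorem THK_conv (k : ℕ) (f : ℍ[ℝ]) : ‖th k f‖ ≤
    (1 - (10 : ℝ) ^ (-(k : ℤ))) * (1 / 2) + (10 : ℝ) ^ (-(k : ℤ)) * ‖f‖ := by
  set c : ℝ := (10 : ℝ) ^ (-(k : ℤ)) with hc
  have hc0 : 0 < c := THK_pos k
  have hc1 : c ≤ 1 := by
    rw [hc, zpow_neg, zpow_natCast]
    exact inv_le_one_of_one_le₀ (one_le_pow₀ (by norm_num))
  have e : th k f = (1 - c) • rho + c • f := by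
    unfold th
    rw [← hc, smul_sub, sub_smul, one_smul]
    abel
  rw [e]
  refine (norm_add_le _ _).trans ?_
  rw [norm_smul, norm_smul, THK_rho, Real.norm_of_nonneg hc0.le,
    Real.norm_of_nonneg (by linarith)]

theorem THK_le_one (k : ℕ) : (10 : ℝ) ^ (-(k : ℤ)) ≤ 1 := by
  rw [zpow_neg, zpow_natCast]
  exact inv_le_one_of_one_le₀ (one_le_pow₀ (by norm_num))

theorem THK_coe {a b c : ℝ} (h : c = a - b * a) :
    ((c : ℝ) : ℍ[ℝ]) = (a : ℍ[ℝ]) - b • (a : ℍ[ℝ]) := by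
  subst h
  ext <;> simp

theorem THK_one (f : ℍ[ℝ]) : th 1 f - ((9 / 20 : ℝ) : ℍ[ℝ]) = (1 / 10 : ℝ) • f := by
  unfold th rho
  have h10 : ((10 : ℝ) ^ (-1 : ℤ)) = 1 / 10 := by norm_num
  rw [h10, THK_coe (a := 1 / 2) (b := 1 / 10) (c := 9 / 20) (by norm_num), smul_sub]
  abel

theorem p_THK : T_THK := by
  refine ⟨fun f => ?_, fun j k f => ?_, fun k => ?_, THK_norm, fun f => ?_, fun k => ?_,
    fun k f => ?_, fun k f hf => ?_, fun k f hf => ?_⟩
  · unfold th; simp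
  · have h : th j (th k f) - rho = th (j + k) f - rho := by
      rw [THK_sub, THK_sub, THK_sub, smul_smul, ← zpow_add₀ (by norm_num : (10 : ℝ) ≠ 0)]
      congr 2
      ring
    exact sub_left_inj.1 h
  · unfold th; simp
  · rw [THK_one, norm_smul, Real.norm_of_nonneg (by norm_num)]
    ring
  · unfold th
    fun_prop
  · rw [← sub_eq_zero, ← norm_eq_zero, THK_norm, mul_eq_zero, norm_eq_zero, sub_eq_zero]
    exact ⟨fun h => h.resolve_left (THK_pos k).ne', Or.inr⟩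
  · have h1 := THK_conv k f
    have h2 := THK_pos k
    have h3 := THK_le_one k
    have h4 : (10 : ℝ) ^ (-(k : ℤ)) * ‖f‖ < (10 : ℝ) ^ (-(k : ℤ)) * 1 :=
      mul_lt_mul_of_pos_left hf h2
    linarith
  · have h1 := THK_conv k f
    have h2 := THK_pos k
    have h3 := THK_le_one k
    have h4 : (10 : ℝ) ^ (-(k : ℤ)) * ‖f‖ ≤ (10 : ℝ) ^ (-(k : ℤ)) * 1 :=
      mul_le_mul_of_nonneg_left hf h2.le
    linarith

end INJ
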