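import Pool.Agent.INJ.MTargets

set_option autoImplicit false

/-!
# INJ, part M: target `THT` (the isotopy)
-/

namespace INJ

open Quaternion

noncomputable section

lemma THT_pos (x : ℝ) : (0 : ℝ) < (10 : ℝ) ^ x := Real.rpow_pos_of_pos (by norm_num) x

lemma THT_smul (x y : ℝ) (v : ℍ[ℝ]) :
    ((10 : ℝ) ^ x) • (((10 : ℝ) ^ y) • v) = ((10 : ℝ) ^ (x + y)) • v := by
  rw [smul_smul, ← Real.rpow_add (by norm_num)]

lemma THT_Th_sub (κ s : ℝ) (F : ℍ[ℝ]) :
    Th κ s F - rho = ((10 : ℝ) ^ (-(la κ s))) • (F - rho) := by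
  rw [Th]; abel

lemma THT_Thi_sub (κ s : ℝ) (F : ℍ[ℝ]) :
    Thi κ s F - rho = ((10 : ℝ) ^ (la κ s)) • (F - rho) := by
  rw [Thi]; abel

lemma THT_th_sub (k : ℤ) (F : ℍ[ℝ]) :
    th k F - rho = ((10 : ℝ) ^ (-(k : ℝ))) • (F - rho) := by
  rw [th]
  have : ((10 : ℝ) ^ (-k) : ℝ) = (10 : ℝ) ^ (-(k : ℝ)) := by
    rw [← Real.rpow_intCast]; push_cast; rfl
  rw [this]; abel

lemma THT_left (κ s : ℝ) (F : ℍ[ℝ]) : Thi κ s (Th κ s F) = F := by
  have h : Thi κ s (Th κ s F) - rho = F - rho := by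
    rw [THT_Thi_sub, THT_Th_sub, THT_smul, add_neg_cancel, Real.rpow_zero, one_smul]
  exact sub_left_injective h

lemma THT_right (κ s : ℝ) (F : ℍ[ℝ]) : Th κ s (Thi κ s F) = F := by
  have h : Th κ s (Thi κ s F) - rho = F - rho := by
    rw [THT_Th_sub, THT_Thi_sub, THT_smul, neg_add_cancel, Real.rpow_zero, one_smul]
  exact sub_left_injective h

lemma THT_la (κ s : ℝ) (n : ℕ) : la κ (s + n) = la κ s + n := by
  rw [la, la, Int.floor_add_natCast, Int.fract_add_natCast]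
  push_cast
  ring

lemma THT_shift (κ s : ℝ) (n : ℕ) (F : ℍ[ℝ]) : Th κ (s + n) F = Th κ s (th (n : ℤ) F) := by
  have h : Th κ (s + n) F - rho = Th κ s (th (n : ℤ) F) - rho := by
    rw [THT_Th_sub, THT_Th_sub, THT_th_sub, THT_smul, THT_la]
    congr 2
    push_cast
    ring
  exact sub_left_injective h

lemma THT_shift' (κ s : ℝ) (n : ℕ) (F : ℍ[ℝ]) : Th κ (s + n) (th (-(n : ℤ)) F) = Th κ s F := by
  have h : Th κ (s + n) (th (-(n : ℤ)) F) - rho = Th κ s F - rho := by
    rw [THT_Th_sub, THT_Th_sub, THT_th_sub, THT_smul, THT_la]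
    congr 2
    push_cast
    ring
  exact sub_left_injective h

/-- the isotopy -/
theorem p_THT (hLA : T_LA) : T_THT := by
  refine ⟨THT_left, THT_right, fun κ h0 h1 => ⟨fun s F => ?_, fun s n F => THT_shift' κ s n F,
    ?_, ?_⟩, fun κ s => ⟨?_, ?_⟩⟩
  · have := THT_shift κ s 1 F
    simpa using this
  · have hc : Continuous (la κ) := (hLA κ h0 h1).1
    have h10 : Continuous fun p : ℝ × ℍ[ℝ] => (10 : ℝ) ^ (-(la κ p.1)) :=
      continuous_const.rpow (hc.comp continuous_fst).neg fun _ => Or.inl (by norm_num)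
    exact continuous_const.add (h10.smul (continuous_snd.sub continuous_const))
  · have hc : Continuous (la κ) := (hLA κ h0 h1).1
    have h10 : Continuous fun p : ℝ × ℍ[ℝ] => (10 : ℝ) ^ (la κ p.1) :=
      continuous_const.rpow (hc.comp continuous_fst) fun _ => Or.inl (by norm_num)
    exact continuous_const.add (h10.smul (continuous_snd.sub continuous_const))
  · rw [Th, sub_self, smul_zero, add_zero]
  · rw [Thi, sub_self, smul_zero, add_zero]

end

end INJ
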