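import Pool.Agent.INJ.MTargets

set_option autoImplicit false

/-!
# INJ: injectivity of the time change (target `T_TIN`)
-/

namespace INJ

open Quaternion

noncomputable section

/-- one step backwards -/
lemma TIN_step (hST1 : T_ST1) (hSEQ : T_SEQ) (t t' : ℝ) (w w' : ℕ → ℍ[ℝ])
    (hw : ∀ k, ‖w k‖ ≤ 1) (hw' : ∀ k, ‖w' k‖ ≤ 1) (hF : Finf t w = Finf t' w') (k : ℕ) :
    |(st t w k).1 - (st t' w' k).1| ≤ 2 * |(st t w (k + 1)).1 - (st t' w' (k + 1)).1| := by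
  obtain ⟨a1, a2, _, _⟩ := hSEQ t w hw
  obtain ⟨b1, b2, _, _⟩ := hSEQ t' w' hw'
  obtain ⟨_, c2, _⟩ := hST1 k (Finf t w)
  have g1 := a1 k
  have g2 := b1 k
  have e1 := a2 k
  have e2 := b2 k
  rw [← hF] at g2 e2
  rw [e1, e2]
  rcases le_total (st t w k).1 (st t' w' k).1 with h | h
  · have h1 := c2 _ _ g1.1 g1.2 g2.1 g2.2 h
    rw [abs_sub_comm, abs_of_nonneg (sub_nonneg.2 h), abs_sub_comm]
    have h2 := le_abs_self (stp k (st t' w' k).1 (Finf t w) - stp k (st t w k).1 (Finf t w))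
    linarith
  · have h1 := c2 _ _ g2.1 g2.2 g1.1 g1.2 h
    rw [abs_of_nonneg (sub_nonneg.2 h)]
    have h2 := le_abs_self (stp k (st t w k).1 (Finf t w) - stp k (st t' w' k).1 (Finf t w))
    linarith

/-- many steps backwards -/
lemma TIN_iter (hST1 : T_ST1) (hSEQ : T_SEQ) (t t' : ℝ) (w w' : ℕ → ℍ[ℝ])
    (hw : ∀ k, ‖w k‖ ≤ 1) (hw' : ∀ k, ‖w' k‖ ≤ 1) (hF : Finf t w = Finf t' w') (k j : ℕ) :
    |(st t w k).1 - (st t' w' k).1| ≤
      2 ^ j * |(st t w (k + j)).1 - (st t' w' (k + j)).1| := by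
  induction j with
  | zero => simp
  | succ j ih =>
    have h := TIN_step hST1 hSEQ t t' w w' hw hw' hF (k + j)
    have h2 : (0 : ℝ) ≤ 2 ^ j := by positivity
    calc |(st t w k).1 - (st t' w' k).1|
        ≤ 2 ^ j * |(st t w (k + j)).1 - (st t' w' (k + j)).1| := ih
      _ ≤ 2 ^ j * (2 * |(st t w (k + j + 1)).1 - (st t' w' (k + j + 1)).1|) :=
          mul_le_mul_of_nonneg_left h h2
      _ = 2 ^ (j + 1) * |(st t w (k + (j + 1))).1 - (st t' w' (k + (j + 1))).1| := by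
          rw [pow_succ, ← add_assoc]; ring

/-- all times agree -/
lemma TIN_times (hST1 : T_ST1) (hSEQ : T_SEQ) (hLIM : T_LIM) (hKAP : T_KAP) (t t' : ℝ)
    (w w' : ℕ → ℍ[ℝ]) (hw : ∀ k, ‖w k‖ ≤ 1) (hw' : ∀ k, ‖w' k‖ ≤ 1)
    (ht : tinf t w = tinf t' w') (hF : Finf t w = Finf t' w') (k : ℕ) :
    (st t w k).1 = (st t' w' k).1 := by
  have key : ∀ j : ℕ, |(st t w k).1 - (st t' w' k).1| ≤ 8 * (1 / 2 : ℝ) ^ j := by
    intro j
    have h1 := TIN_iter hST1 hSEQ t t' w w' hw hw' hF k j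
    have h2 := (hLIM.1 t w hw).2.1 (k + j)
    have h3 := (hLIM.1 t' w' hw').2.1 (k + j)
    have hn : (nn (ak (k + j)) : ℝ) = 16 ^ (k + j + 1) := by
      rw [hKAP.2.2.1 (k + j)]; push_cast; rfl
    rw [hn] at h2 h3
    rw [← ht] at h3
    have h4 : |(st t w (k + j)).1 - (st t' w' (k + j)).1| ≤ 8 / 16 ^ (k + j + 1) := by
      have e : (st t w (k + j)).1 - (st t' w' (k + j)).1 =
          (tinf t w - (st t' w' (k + j)).1) - (tinf t w - (st t w (k + j)).1) := by ring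
      rw [e]
      refine (abs_sub _ _).trans ?_
      have e2 : (8 : ℝ) / 16 ^ (k + j + 1) = 4 / 16 ^ (k + j + 1) + 4 / 16 ^ (k + j + 1) := by
        ring
      rw [e2]
      exact add_le_add h3 h2
    have h5 : (0 : ℝ) ≤ 2 ^ j := by positivity
    have h6 : (2 : ℝ) ^ j * (8 / 16 ^ (k + j + 1)) ≤ 8 * (1 / 2 : ℝ) ^ j := by
      have h7 : (4 : ℝ) ^ j ≤ 16 ^ (k + j + 1) := by
        calc (4 : ℝ) ^ j ≤ 16 ^ j := pow_le_pow_left₀ (by norm_num) (by norm_num) j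
          _ ≤ 16 ^ (k + j + 1) := pow_le_pow_right₀ (by norm_num) (by omega)
      have h8 : (0 : ℝ) < 16 ^ (k + j + 1) := by positivity
      have h9 : (2 : ℝ) ^ j * (8 / 16 ^ (k + j + 1)) = 8 * (2 ^ j / 16 ^ (k + j + 1)) := by
        ring
      rw [h9]
      refine mul_le_mul_of_nonneg_left ?_ (by norm_num)
      rw [div_le_iff₀ h8]
      calc (2 : ℝ) ^ j = (1 / 2 : ℝ) ^ j * 4 ^ j := by
            rw [← mul_pow]; norm_num
        _ ≤ (1 / 2 : ℝ) ^ j * 16 ^ (k + j + 1) :=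
            mul_le_mul_of_nonneg_left h7 (by positivity)
    exact (h1.trans (mul_le_mul_of_nonneg_left h4 h5)).trans h6
  have hlim : Filter.Tendsto (fun j : ℕ => 8 * (1 / 2 : ℝ) ^ j) Filter.atTop (nhds 0) := by
    have h := (tendsto_pow_atTop_nhds_zero_of_lt_one (r := (1 / 2 : ℝ)) (by norm_num)
      (by norm_num)).const_mul (8 : ℝ)
    simpa using h
  have h0 : |(st t w k).1 - (st t' w' k).1| ≤ 0 := ge_of_tendsto' hlim key
  have h1 := abs_nonpos_iff.1 h0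
  linarith

theorem p_TIN (hKAP : T_KAP) (hST1 : T_ST1) (hSEQ : T_SEQ) (hLIM : T_LIM) : T_TIN := by
  intro t t' w w' hw hw' ht hF
  have ht0 := TIN_times hST1 hSEQ hLIM hKAP t t' w w' hw hw' ht hF
  refine ⟨ht0 0, ?_⟩
  funext k
  have e1 := (hSEQ t w hw).2.2.1 k
  have e2 := (hSEQ t' w' hw').2.2.1 k
  rw [← hF, ← ht0 k] at e2
  rw [e1] at e2
  unfold Fnew at e2
  have h3 := add_left_cancel e2
  have h4 : ((10 : ℝ) ^ (ss (ak k) (st t w k).1)) ≠ 0 :=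
    (Real.rpow_pos_of_pos (by norm_num) _).ne'
  exact smul_right_injective _ h4 h3

end

end INJ
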