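import Pool.Agent.INJ.MTargets

set_option autoImplicit false

/-!
# INJ, part M: target TOP (parametrisation of the decoupled space)
-/

namespace INJ

open Quaternion

noncomputable section

/-- the underlying sequence of quaternions -/
def TOP_v (w : ℕ → HB) : ℕ → ℍ[ℝ] := fun k => (w k : ℍ[ℝ])

lemma TOP_v_le (w : ℕ → HB) (k : ℕ) : ‖TOP_v w k‖ ≤ 1 :=
  mem_closedBall_zero_iff.1 (w k).2

/-- the parametrisation on `ℝ` -/
def TOP_Phi (t : ℝ) (w : ℕ → HB) : AddCircle (1 : ℝ) × (ℕ × ℕ → ℍ[ℝ]) :=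
  ((tinf t (TOP_v w) : AddCircle (1 : ℝ)), fun a =>
    Th (kap a) (ss a (tinf t (TOP_v w))) (Finf t (TOP_v w) (Nat.pair a.1 a.2)))

lemma TOP_kap (hK : T_KAP) (a : ℕ × ℕ) : 0 < kap a ∧ kap a ≤ 1 / 8 :=
  ⟨(hK.1 a).1, (hK.1 a).2.trans (by norm_num)⟩

lemma TOP_ss (a : ℕ × ℕ) (t : ℝ) : ss a (t + 1) = ss a t + (nn a : ℝ) := by
  unfold ss; ring

lemma TOP_per (hTEQ : T_TEQ) (hTHT : T_THT) (hKAP : T_KAP) (w : ℕ → HB) :
    Function.Periodic (fun t => TOP_Phi t w) 1 := by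
  intro t
  obtain ⟨h1, h2⟩ := hTEQ t (TOP_v w) (TOP_v_le w)
  change TOP_Phi (t + 1) w = TOP_Phi t w
  unfold TOP_Phi
  refine Prod.ext ?_ ?_
  · change ((tinf (t + 1) (TOP_v w) : ℝ) : AddCircle (1 : ℝ)) = _
    rw [h1, AddCircle.coe_add, AddCircle.coe_period, add_zero]
  · funext a
    change Th (kap a) (ss a (tinf (t + 1) (TOP_v w)))
      (Finf (t + 1) (TOP_v w) (Nat.pair a.1 a.2)) = _
    rw [h1, TOP_ss, h2, hKAP.2.2.2.1 a]
    exact ((hTHT.2.2.1 (kap a) (TOP_kap hKAP a).1 (TOP_kap hKAP a).2).2.1 _ _ _)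

lemma TOP_cont (hLIM : T_LIM) (hTHT : T_THT) (hKAP : T_KAP) :
    Continuous (fun p : ℝ × (ℕ → HB) => TOP_Phi p.1 p.2) := by
  have hv : Continuous (fun p : ℝ × (ℕ → HB) => ((p.1, TOP_v p.2) : ℝ × (ℕ → ℍ[ℝ]))) := by
    refine continuous_fst.prodMk (continuous_pi fun k => ?_)
    exact continuous_subtype_val.comp ((continuous_apply k).comp continuous_snd)
  have ht : Continuous (fun p : ℝ × (ℕ → HB) => tinf p.1 (TOP_v p.2)) := by
    have h1 := hLIM.2.1.comp_continuous hv fun p k => TOP_v_le p.2 k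
    simp only [Function.comp_def] at h1
    exact h1
  have e : (fun p : ℝ × (ℕ → HB) => TOP_Phi p.1 p.2) = fun p : ℝ × (ℕ → HB) =>
      (((tinf p.1 (TOP_v p.2) : ℝ) : AddCircle (1 : ℝ)), fun a : ℕ × ℕ =>
        Th (kap a) (ss a (tinf p.1 (TOP_v p.2)))
          (Finf p.1 (TOP_v p.2) (Nat.pair a.1 a.2))) := rfl
  rw [e]
  refine Continuous.prodMk ?_ (continuous_pi fun a => ?_)
  · have h0 := (AddCircle.continuous_mk' (1 : ℝ)).comp ht
    simp only [Function.comp_def] at h0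
    exact h0
  · have hF : Continuous (fun p : ℝ × (ℕ → HB) => Finf p.1 (TOP_v p.2) (Nat.pair a.1 a.2)) := by
      have h1 := (hLIM.2.2 (Nat.pair a.1 a.2)).comp hv
      simp only [Function.comp_def] at h1
      exact h1
    have hs : Continuous (fun p : ℝ × (ℕ → HB) => ss a (tinf p.1 (TOP_v p.2))) := by
      unfold ss
      exact (continuous_const.mul ht).add continuous_const
    have hTh : Continuous (fun p : ℝ × ℍ[ℝ] => Th (kap a) p.1 p.2) :=
      (hTHT.2.2.1 (kap a) (TOP_kap hKAP a).1 (TOP_kap hKAP a).2).2.2.1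
    have h3 := hTh.comp (hs.prodMk hF)
    simp only [Function.comp_def] at h3
    exact h3

lemma TOP_tper (hTEQ : T_TEQ) (w : ℕ → HB) (t : ℝ) (m : ℤ) :
    tinf (t + m) (TOP_v w) = tinf t (TOP_v w) + m := by
  have hp : Function.Periodic (fun t => tinf t (TOP_v w) - t) 1 := by
    intro t
    have := (hTEQ t (TOP_v w) (TOP_v_le w)).1
    change tinf (t + 1) (TOP_v w) - (t + 1) = tinf t (TOP_v w) - t
    rw [this]; ring
  have h := hp.int_mul m t
  simp only [mul_one] at h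
  linarith

theorem p_TOP (hKAP : T_KAP) (hTHT : T_THT) (hTEQ : T_TEQ) (hLIM : T_LIM) (hTIN : T_TIN)
    (hTSU : T_TSU) : T_TOP := by
  have hper := TOP_per hTEQ hTHT hKAP
  refine ⟨fun p => (hper p.2).lift p.1, ?_, ?_, ?_⟩
  · -- continuity
    have hq : IsOpenQuotientMap (Prod.map ((↑) : ℝ → AddCircle (1 : ℝ)) (id : (ℕ → HB) → _)) :=
      QuotientAddGroup.isOpenQuotientMap_mk.prodMap IsOpenQuotientMap.id
    rw [← hq.continuous_comp_iff]
    exact TOP_cont hLIM hTHT hKAP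
  · -- injectivity
    rintro ⟨x, w⟩ ⟨x', w'⟩ h
    obtain ⟨t, rfl⟩ := QuotientAddGroup.mk_surjective x
    obtain ⟨t', rfl⟩ := QuotientAddGroup.mk_surjective x'
    change TOP_Phi t w = TOP_Phi t' w' at h
    have h1 : ((tinf t (TOP_v w) : ℝ) : AddCircle (1 : ℝ)) = (tinf t' (TOP_v w') : ℝ) :=
      congrArg Prod.fst h
    obtain ⟨m, hm⟩ := (QuotientAddGroup.eq_iff_sub_mem.1 h1)
    have hm' : tinf t (TOP_v w) = tinf (t' + m) (TOP_v w') := by
      rw [TOP_tper hTEQ]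
      have : (m : ℝ) = tinf t (TOP_v w) - tinf t' (TOP_v w') := by
        rw [← hm]
        simp
      linarith
    have hP : TOP_Phi (t' + m) w' = TOP_Phi t' w' := by
      have := (hper w').int_mul m t'
      simp only [mul_one] at this
      exact this
    rw [← hP] at h
    have h2 : ∀ a : ℕ × ℕ, Th (kap a) (ss a (tinf t (TOP_v w)))
        (Finf t (TOP_v w) (Nat.pair a.1 a.2)) = Th (kap a) (ss a (tinf (t' + m) (TOP_v w')))
        (Finf (t' + m) (TOP_v w') (Nat.pair a.1 a.2)) := fun a =>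
      congrFun (congrArg Prod.snd h) a
    have h3 : Finf t (TOP_v w) = Finf (t' + m) (TOP_v w') := by
      funext k
      have h4 := h2 (Nat.unpair k)
      rw [← hm', Nat.pair_unpair] at h4
      have h5 := congrArg (Thi (kap (Nat.unpair k)) (ss (Nat.unpair k) (tinf t (TOP_v w)))) h4
      rw [hTHT.1, hTHT.1] at h5
      exact h5
    obtain ⟨h6, h7⟩ := hTIN t (t' + m) (TOP_v w) (TOP_v w') (TOP_v_le w) (TOP_v_le w') hm' h3
    refine Prod.ext ?_ ?_
    · change ((t : ℝ) : AddCircle (1 : ℝ)) = ((t' : ℝ) : AddCircle (1 : ℝ))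
      rw [h6]
      refine QuotientAddGroup.eq_iff_sub_mem.2 ⟨m, ?_⟩
      simp
    · funext k
      exact Subtype.ext (congrFun h7 k)
  · -- range
    ext ⟨x, f⟩
    constructor
    · rintro ⟨⟨y, w⟩, hy⟩
      obtain ⟨t, rfl⟩ := QuotientAddGroup.mk_surjective y
      change TOP_Phi t w = (x, f) at hy
      refine ⟨tinf t (TOP_v w), congrArg Prod.fst hy, fun a => ?_⟩
      have h2 : f a = Th (kap a) (ss a (tinf t (TOP_v w)))
          (Finf t (TOP_v w) (Nat.pair a.1 a.2)) := (congrFun (congrArg Prod.snd hy) a).symm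
      change InY (kap a) (ss a (tinf t (TOP_v w))) (f a)
      rw [h2]
      unfold InY
      rw [hTHT.1]
      have h3 := (hLIM.1 t (TOP_v w) (TOP_v_le w)).2.2 (Nat.pair a.1 a.2)
      rw [hKAP.2.2.2.1 a] at h3
      exact h3
    · rintro ⟨t, ht, hD⟩
      obtain ⟨t0, w, hw, h1, h2⟩ := hTSU t
        (fun k => Thi (kap (ak k)) (ss (ak k) t) (f (ak k))) (fun k => hD (ak k))
      refine ⟨((t0 : ℝ), fun k => ⟨w k, mem_closedBall_zero_iff.2 (hw k)⟩), ?_⟩
      change TOP_Phi t0 _ = (x, f)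
      have hv : TOP_v (fun k => (⟨w k, mem_closedBall_zero_iff.2 (hw k)⟩ : HB)) = w := rfl
      unfold TOP_Phi
      rw [hv, h1, h2]
      refine Prod.ext ht ?_
      funext a
      change Th (kap a) (ss a t) (Thi (kap (ak (Nat.pair a.1 a.2)))
        (ss (ak (Nat.pair a.1 a.2)) t) (f (ak (Nat.pair a.1 a.2)))) = f a
      rw [hKAP.2.2.2.1 a, hTHT.2.1]

end

end INJ
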