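import Pool.Agent.INJ.MTargets

set_option autoImplicit false
set_option maxHeartbeats 1000000

/-!
# INJ, target TS: the profile function
-/

namespace INJ

open Quaternion

theorem TS_Rk_le {κ x s : ℝ} (hs : 0 ≤ s) : Rk κ x ≤ s ↔
    (1 - κ) * (7 / 20 - x) / (7 / 20) ≤ s ∧ (x - 11 / 20) / (9 / 20) ≤ s := by
  unfold Rk
  rw [max_le_iff, max_le_iff]
  exact ⟨fun h => h.2, fun h => ⟨hs, h⟩⟩

theorem TS_Rk_nonneg (κ x : ℝ) : 0 ≤ Rk κ x := le_max_left _ _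

theorem TS_Rk_zero {κ x : ℝ} (hκ : κ ≤ 1) (h1 : 7 / 20 ≤ x) (h2 : x ≤ 11 / 20) :
    Rk κ x = 0 := by
  apply le_antisymm _ (TS_Rk_nonneg κ x)
  rw [TS_Rk_le le_rfl]
  constructor
  · have : (1 - κ) * (7 / 20 - x) ≤ 0 :=
      mul_nonpos_of_nonneg_of_nonpos (by linarith) (by linarith)
    linarith
  · linarith

theorem TS_Rk_lt_one {κ x : ℝ} (hκ : 0 < κ) (hκ' : κ ≤ 1) (hx : 0 ≤ x) :
    Rk κ x < 1 ↔ x < 1 := by
  unfold Rk
  rw [max_lt_iff, max_lt_iff]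
  constructor
  · rintro ⟨-, -, h⟩
    linarith
  · intro h
    refine ⟨by norm_num, ?_, by linarith⟩
    have : (1 - κ) * (7 / 20 - x) ≤ (1 - κ) * (7 / 20) :=
      mul_le_mul_of_nonneg_left (by linarith) (by linarith)
    linarith

theorem TS_norm (f : ℍ[ℝ]) : |‖f‖ - 9 / 20| ≤ ‖f - ((9 / 20 : ℝ) : ℍ[ℝ])‖ := by
  have h := abs_norm_sub_norm_le f ((9 / 20 : ℝ) : ℍ[ℝ])
  have h2 : ‖((9 / 20 : ℝ) : ℍ[ℝ])‖ = 9 / 20 := by
    rw [Quaternion.norm_coe, Real.norm_eq_abs, abs_of_pos (by norm_num)]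
  rwa [h2] at h

theorem TS_cont (κ : ℝ) : Continuous (ts κ) := by
  unfold ts Rk
  fun_prop

theorem TS_nonneg {κ : ℝ} (f : ℍ[ℝ]) : 0 ≤ ts κ f :=
  le_min zero_le_one ((TS_Rk_nonneg κ _).trans (le_max_left _ _))

theorem TS_eq_zero {κ : ℝ} (hκ : 0 < κ) (hκ' : κ ≤ 1 / 8) (f : ℍ[ℝ]) :
    ts κ f = 0 ↔ ‖f - ((9 / 20 : ℝ) : ℍ[ℝ])‖ ≤ 1 / 10 := by
  constructor
  · intro h
    by_contra hc
    rw [not_le] at hc
    have h1 : 0 < min κ (‖f - ((9 / 20 : ℝ) : ℍ[ℝ])‖ - 1 / 10) := lt_min hκ (by linarith)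
    have h2 : 0 < ts κ f := lt_min one_pos (h1.trans_le (le_max_right _ _))
    linarith
  · intro h
    apply le_antisymm _ (TS_nonneg f)
    unfold ts
    apply min_le_of_right_le
    apply max_le
    · have h3 := (abs_le.1 ((TS_norm f).trans h))
      rw [TS_Rk_zero (by linarith) (by linarith) (by linarith)]
    · apply min_le_of_right_le
      linarith

theorem TS_le {κ s : ℝ} (f : ℍ[ℝ]) (h1 : κ ≤ s) (h2 : s < 1) :
    ts κ f ≤ s ↔ Rk κ ‖f‖ ≤ s := by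
  unfold ts
  rw [min_le_iff, max_le_iff]
  constructor
  · rintro (h | h)
    · linarith
    · exact h.1
  · intro h
    exact Or.inr ⟨h, min_le_of_left_le h1⟩

theorem TS_lt {κ : ℝ} (hκ : 0 < κ) (hκ' : κ ≤ 1 / 8) (f : ℍ[ℝ]) :
    ts κ f < 1 ↔ ‖f‖ < 1 := by
  rw [← TS_Rk_lt_one hκ (by linarith) (norm_nonneg f)]
  unfold ts
  rw [min_lt_iff, max_lt_iff]
  constructor
  · rintro (h | h)
    · exact absurd h (lt_irrefl _)
    · exact h.1
  · intro h
    exact Or.inr ⟨h, min_lt_of_left_lt (by linarith)⟩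

theorem p_TS : T_TS := by
  intro κ hκ hκ'
  refine ⟨TS_cont κ, fun f => ⟨TS_nonneg f, min_le_left _ _⟩, TS_eq_zero hκ hκ', TS_lt hκ hκ',
    fun s f => TS_le f, ?_, TS_Rk_zero (by linarith) (by norm_num) (by norm_num), ?_, ?_⟩
  · apply le_antisymm
    · rw [TS_Rk_le (by linarith)]
      constructor <;> linarith
    · unfold Rk
      apply le_max_of_le_right
      apply le_max_of_le_left
      linarith
  · intro x hx h
    rw [TS_Rk_le (by norm_num)] at h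
    by_contra hc
    rw [not_le] at hc
    have h1 := h.1
    have h2 : (7 / 8) * (7 / 20 - x) ≤ (1 - κ) * (7 / 20 - x) :=
      mul_le_mul_of_nonneg_right (by linarith) (by linarith)
    linarith
  · intro x hx
    unfold Rk
    apply lt_max_of_lt_right
    apply lt_max_of_lt_right
    linarith

end INJ
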