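import Pool.Agent.INJ.MTargets

set_option autoImplicit false

/-!
# INJ, part M: surjectivity of the time change (target TSU)
-/

namespace INJ

open Quaternion

noncomputable section

/-- the numbers `n_k` -/
theorem TSU_nn (k : ℕ) : ((nn (ak k) : ℕ) : ℝ) = 16 ^ (k + 1) := by
  unfold nn ak
  rw [Nat.pair_unpair]
  push_cast
  ring

open Classical in
/-- backward step -/
def TSU_inv (F : ℕ → ℍ[ℝ]) (k : ℕ) (t' : ℝ) : ℝ :=
  if h : ∃ t, GS k t F ∧ GB k t F ∧ stp k t F = t' then h.choose else 0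

theorem TSU_inv_spec (h2 : T_ST2) (F : ℕ → ℍ[ℝ]) (k : ℕ) (t' : ℝ) (h : GS (k + 1) t' F) :
    GS k (TSU_inv F k t') F ∧ GB k (TSU_inv F k t') F ∧ stp k (TSU_inv F k t') F = t' := by
  have he := h2 k F t' h
  unfold TSU_inv
  rw [dif_pos he]
  exact he.choose_spec

/-- the backward array -/
def TSU_D (F : ℕ → ℍ[ℝ]) (t : ℝ) : ℕ → ℕ → ℝ
  | 0, _ => t
  | d + 1, k => TSU_inv F k (TSU_D F t d (k + 1))

theorem TSU_GS (h2 : T_ST2) (F : ℕ → ℍ[ℝ]) (t : ℝ) (ht : ∀ k, GS k t F) :
    ∀ d k, GS k (TSU_D F t d k) F := by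
  intro d
  induction d with
  | zero => intro k; exact ht k
  | succ d ih => intro k; exact (TSU_inv_spec h2 F k _ (ih (k + 1))).1

theorem TSU_GB (h2 : T_ST2) (F : ℕ → ℍ[ℝ]) (t : ℝ) (ht : ∀ k, GS k t F) (d k : ℕ) :
    GB k (TSU_D F t (d + 1) k) F :=
  (TSU_inv_spec h2 F k _ (TSU_GS h2 F t ht d (k + 1))).2.1

theorem TSU_stp (h2 : T_ST2) (F : ℕ → ℍ[ℝ]) (t : ℝ) (ht : ∀ k, GS k t F) (d k : ℕ) :
    stp k (TSU_D F t (d + 1) k) F = TSU_D F t d (k + 1) :=
  (TSU_inv_spec h2 F k _ (TSU_GS h2 F t ht d (k + 1))).2.2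

/-- two-sided expansion bound -/
theorem TSU_exp (h1 : T_ST1) (k : ℕ) (F : ℕ → ℍ[ℝ]) (a b : ℝ) (ha : GS k a F) (ha' : GB k a F)
    (hb : GS k b F) (hb' : GB k b F) : |b - a| ≤ 2 * |stp k b F - stp k a F| := by
  rcases le_total a b with hab | hab
  · have h := (h1 k F).2.1 a b ha ha' hb hb' hab
    rw [abs_of_nonneg (by linarith : (0 : ℝ) ≤ b - a)]
    have := le_abs_self (stp k b F - stp k a F)
    linarith
  · have h := (h1 k F).2.1 b a hb hb' ha ha' hab
    rw [abs_of_nonpos (by linarith : b - a ≤ 0)]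
    have := neg_abs_le (stp k b F - stp k a F)
    linarith

theorem TSU_dist (h1 : T_ST1) (h2 : T_ST2) (F : ℕ → ℍ[ℝ]) (t : ℝ) (ht : ∀ k, GS k t F) :
    ∀ d k, |TSU_D F t (d + 1) k - TSU_D F t d k| ≤ 2 ^ d * (3 / 16 ^ (k + d + 1)) := by
  intro d
  induction d with
  | zero =>
    intro k
    have hs := TSU_stp h2 F t ht 0 k
    have hb := (h1 k F).1 _ (TSU_GS h2 F t ht 1 k) (TSU_GB h2 F t ht 0 k)
    rw [hs] at hb
    rw [TSU_nn] at hb
    rw [abs_sub_comm] at hb
    have e0 : TSU_D F t 0 k = t := rfl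
    have e1 : TSU_D F t 0 (k + 1) = t := rfl
    rw [e0]
    rw [e1] at hb
    simpa using hb
  | succ d ih =>
    intro k
    have hx := TSU_exp h1 k F (TSU_D F t (d + 1) k) (TSU_D F t (d + 2) k)
      (TSU_GS h2 F t ht _ k) (TSU_GB h2 F t ht _ k) (TSU_GS h2 F t ht _ k) (TSU_GB h2 F t ht _ k)
    rw [TSU_stp h2 F t ht (d + 1) k, TSU_stp h2 F t ht d k] at hx
    have hi := ih (k + 1)
    have e : k + 1 + d + 1 = k + (d + 1) + 1 := by ring
    rw [e] at hi
    calc |TSU_D F t (d + 1 + 1) k - TSU_D F t (d + 1) k|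
        ≤ 2 * |TSU_D F t (d + 1) (k + 1) - TSU_D F t d (k + 1)| := hx
      _ ≤ 2 * (2 ^ d * (3 / 16 ^ (k + (d + 1) + 1))) := by linarith
      _ = 2 ^ (d + 1) * (3 / 16 ^ (k + (d + 1) + 1)) := by ring

theorem TSU_dist' (h1 : T_ST1) (h2 : T_ST2) (F : ℕ → ℍ[ℝ]) (t : ℝ) (ht : ∀ k, GS k t F)
    (d k : ℕ) : dist (TSU_D F t d k) (TSU_D F t (d + 1) k) ≤ 3 / 16 ^ (k + 1) * (1 / 8) ^ d := by
  rw [dist_comm, Real.dist_eq]
  refine (TSU_dist h1 h2 F t ht d k).trans (le_of_eq ?_)
  have e : (16 : ℝ) ^ (k + d + 1) = 16 ^ (k + 1) * 16 ^ d := by ring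
  rw [e]
  have e2 : (16 : ℝ) ^ d = 2 ^ d * 8 ^ d := by rw [← mul_pow]; norm_num
  rw [e2, one_div, inv_pow]
  have h2' : (2 : ℝ) ^ d ≠ 0 := by positivity
  have h8 : (8 : ℝ) ^ d ≠ 0 := by positivity
  have h16 : (16 : ℝ) ^ (k + 1) ≠ 0 := by positivity
  field_simp

/-- existence of the limits -/
theorem TSU_lim (h1 : T_ST1) (h2 : T_ST2) (F : ℕ → ℍ[ℝ]) (t : ℝ) (ht : ∀ k, GS k t F) (k : ℕ) :
    ∃ u, Filter.Tendsto (fun d => TSU_D F t d k) Filter.atTop (nhds u) ∧
      |u - t| ≤ 3 / 16 ^ (k + 1) * 2 := by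
  have hc : CauchySeq (fun d => TSU_D F t d k) :=
    cauchySeq_of_le_geometric (1 / 8) (3 / 16 ^ (k + 1)) (by norm_num)
      (fun d => TSU_dist' h1 h2 F t ht d k)
  obtain ⟨u, hu⟩ := cauchySeq_tendsto_of_complete hc
  refine ⟨u, hu, ?_⟩
  have h := dist_le_of_le_geometric_of_tendsto₀ (1 / 8) (3 / 16 ^ (k + 1)) (by norm_num)
    (fun d => TSU_dist' h1 h2 F t ht d k) hu
  have e0 : TSU_D F t 0 k = t := rfl
  rw [e0, dist_comm, Real.dist_eq] at h
  refine h.trans ?_
  have hp : (0 : ℝ) < 3 / 16 ^ (k + 1) := by positivity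
  rw [div_le_iff₀ (by norm_num)]
  nlinarith

theorem TSU_GS_closed (F : ℕ → ℍ[ℝ]) (k : ℕ) : IsClosed {t | GS k t F} := by
  have e : {t | GS k t F} = ⋂ l, ⋂ (_ : l < k), {t : ℝ | F l = rho ∨
      tt (kap (ak l)) (F l) ≤ (nn (ak l) : ℝ) * t + 1 / 2} := by
    ext t
    simp only [Set.mem_iInter]
    exact Iff.rfl
  rw [e]
  refine isClosed_iInter fun l => isClosed_iInter fun _ => ?_
  by_cases hF : F l = rho
  · have : {t : ℝ | F l = rho ∨ tt (kap (ak l)) (F l) ≤ (nn (ak l) : ℝ) * t + 1 / 2} =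
        Set.univ := by
      ext t
      simp [hF]
    rw [this]
    exact isClosed_univ
  · have : {t : ℝ | F l = rho ∨ tt (kap (ak l)) (F l) ≤ (nn (ak l) : ℝ) * t + 1 / 2} =
        {t : ℝ | tt (kap (ak l)) (F l) ≤ (nn (ak l) : ℝ) * t + 1 / 2} := by
      ext t
      simp [hF]
    rw [this]
    exact isClosed_le continuous_const (by fun_prop)

theorem TSU_GB_closed (F : ℕ → ℍ[ℝ]) (k : ℕ) : IsClosed {t | GB k t F} := by
  have e : {t | GB k t F} = {t : ℝ | ‖F k - rho‖ ≤ (10 : ℝ) ^ ((nn (ak k) : ℝ) * t + 1 / 2)} := by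
    ext t
    exact Iff.rfl
  rw [e]
  refine isClosed_le continuous_const ?_
  exact Continuous.rpow continuous_const (by fun_prop) (fun _ => Or.inl (by norm_num))

theorem p_TSU (h1 : T_ST1) (h2 : T_ST2) (h3 : T_STC) : T_TSU := by
  intro t F hF
  have ht : ∀ k, GS k t F := fun k l _ => hF l
  choose u hu hut using fun k => TSU_lim h1 h2 F t ht k
  have hGB : ∀ k, GB k (u k) F := by
    intro k
    have := (TSU_GB_closed F k).mem_of_tendsto ((Filter.tendsto_add_atTop_iff_nat 1).2 (hu k))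
      (Filter.Eventually.of_forall fun d => TSU_GB h2 F t ht d k)
    exact this
  have hstp : ∀ k, stp k (u k) F = u (k + 1) := by
    intro k
    have hc : Continuous fun s : ℝ => stp k s F :=
      (h3.1 k).comp (continuous_id.prodMk continuous_const)
    have ha : Filter.Tendsto (fun d => stp k (TSU_D F t (d + 1) k) F) Filter.atTop
        (nhds (stp k (u k) F)) :=
      (hc.tendsto (u k)).comp ((Filter.tendsto_add_atTop_iff_nat 1).2 (hu k))
    have hb : (fun d => stp k (TSU_D F t (d + 1) k) F) = fun d => TSU_D F t d (k + 1) := by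
      funext d
      exact TSU_stp h2 F t ht d k
    rw [hb] at ha
    exact tendsto_nhds_unique ha (hu (k + 1))
  set w : ℕ → ℍ[ℝ] := fun k => ((10 : ℝ) ^ (-(ss (ak k) (u k)))) • (F k - rho) with hw
  have hnew : ∀ k, Fnew k (u k) (w k) = F k := by
    intro k
    unfold Fnew
    rw [hw]
    simp only
    rw [smul_smul, ← Real.rpow_add (by norm_num)]
    simp
  have hst : ∀ k, (st (u 0) w k).1 = u k ∧ ∀ l < k, (st (u 0) w k).2 l = F l := by
    intro k
    induction k with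
    | zero => exact ⟨rfl, fun l hl => absurd hl (Nat.not_lt_zero l)⟩
    | succ k ih =>
      have hupd : ∀ l ≤ k, Function.update (st (u 0) w k).2 k
          (Fnew k (st (u 0) w k).1 (w k)) l = F l := by
        intro l hl
        rcases Nat.lt_or_ge l k with h | h
        · rw [Function.update_of_ne (Nat.ne_of_lt h)]
          exact ih.2 l h
        · have : l = k := le_antisymm hl h
          subst this
          rw [Function.update_self, ih.1]
          exact hnew l
      refine ⟨?_, fun l hl => ?_⟩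
      · have e : (st (u 0) w (k + 1)).1 = stp k (st (u 0) w k).1
            (Function.update (st (u 0) w k).2 k (Fnew k (st (u 0) w k).1 (w k))) := rfl
        rw [e, h3.2 k _ _ F hupd, ih.1]
        exact hstp k
      · have e : (st (u 0) w (k + 1)).2 =
            Function.update (st (u 0) w k).2 k (Fnew k (st (u 0) w k).1 (w k)) := rfl
        rw [e]
        exact hupd l (Nat.lt_succ_iff.1 hl)
  refine ⟨u 0, w, ?_, ?_, ?_⟩
  · intro k
    have hg := hGB k
    unfold GB at hg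
    rw [hw]
    simp only
    rw [norm_smul, Real.norm_of_nonneg (by positivity), Real.rpow_neg (by norm_num)]
    rw [inv_mul_le_iff₀ (by positivity)]
    linarith
  · have htend : Filter.Tendsto (fun k => (st (u 0) w k).1) Filter.atTop (nhds t) := by
      have e : (fun k => (st (u 0) w k).1) = u := funext fun k => (hst k).1
      rw [e]
      rw [tendsto_iff_dist_tendsto_zero]
      have hz : Filter.Tendsto (fun k : ℕ => 3 / (16 : ℝ) ^ (k + 1) * 2) Filter.atTop (nhds 0) := by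
        have h0 : Filter.Tendsto (fun k : ℕ => (3 / 8 : ℝ) * (1 / 16) ^ k) Filter.atTop
            (nhds (3 / 8 * 0)) :=
          (tendsto_pow_atTop_nhds_zero_of_lt_one (by norm_num) (by norm_num)).const_mul _
        rw [mul_zero] at h0
        refine h0.congr fun k => ?_
        rw [pow_succ, one_div, inv_pow]
        have : (16 : ℝ) ^ k ≠ 0 := by positivity
        field_simp
        norm_num
      refine squeeze_zero (fun k => dist_nonneg) (fun k => ?_) hz
      rw [Real.dist_eq]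
      exact hut k
    exact htend.limUnder_eq
  · funext k
    exact (hst (k + 1)).2 k (Nat.lt_succ_self k)

end

end INJ
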