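import Pool.Agent.INJ.MTargets

set_option autoImplicit false

/-!
# INJ, part M: equivariance of the unrolled profile (helper91)
-/

namespace INJ

open Quaternion

lemma TT1_sum {f : ℕ → ℝ} (n : ℕ) (h : ∀ k, n ≤ k → f k = 0) : Summable f := by
  refine summable_of_ne_finset_zero (s := Finset.range n) fun k hk => ?_
  rw [Finset.mem_range, not_lt] at hk
  exact h k hk

theorem p_TT1 (hTHK : T_THK) (hTTF : T_TTF) : T_TT1 := by
  intro κ hκ hκ' F hF
  obtain ⟨h0, hadd, -⟩ := hTHK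
  obtain ⟨n, U, hU, hn⟩ := hTTF κ hκ hκ' F hF
  obtain ⟨hn1, hn2⟩ := hn F (mem_of_mem_nhds hU)
  let f : ℕ → ℝ := fun k => ts κ (th k F)
  let g : ℕ → ℝ := fun k => 1 - ts κ (th (-(k : ℤ)) F)
  have hf : Summable f := TT1_sum n hn1
  have hg : Summable g := by
    refine TT1_sum (n + 1) fun k hk => ?_
    obtain ⟨m, rfl⟩ : ∃ m, k = m + 1 := ⟨k - 1, by omega⟩
    have h := hn2 m (by omega)
    have e : (-((m + 1 : ℕ) : ℤ)) = -((m : ℤ) + 1) := by push_cast; ring
    simp only [g]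
    rw [e, h, sub_self]
  have e1 : ∑' k, f k = f 0 + ∑' k, f (k + 1) := hf.tsum_eq_zero_add
  have e2 : ∑' k, g k = g 0 + ∑' k, g (k + 1) := hg.tsum_eq_zero_add
  have ef0 : f 0 = ts κ F := by
    simp only [f]
    rw [Nat.cast_zero, h0]
  have eg0 : g 0 = 1 - ts κ F := by
    simp only [g]
    rw [Nat.cast_zero, neg_zero, h0]
  have a1 : ∀ k : ℕ, ts κ (th k (th 1 F)) = f (k + 1) := by
    intro k
    simp only [f]
    rw [hadd]
    push_cast
    rfl
  have a2 : ∀ k : ℕ, 1 - ts κ (th (-(k + 1)) (th 1 F)) = g k := by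
    intro k
    simp only [g]
    rw [hadd]
    congr 3
    ring
  have a3 : ∀ k : ℕ, 1 - ts κ (th (-(k + 1)) F) = g (k + 1) := by
    intro k
    simp only [g]
    push_cast
    rfl
  have b1 : tt κ (th 1 F) = (∑' k, f (k + 1)) - ∑' k, g k := by
    unfold tt
    rw [tsum_congr a1, tsum_congr a2]
  have b2 : tt κ F = (∑' k, f k) - ∑' k, g (k + 1) := by
    unfold tt
    rw [tsum_congr a3]
  rw [b1, b2, e1, e2, ef0, eg0]
  ring

end INJ
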