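import Pool.Agent.INJ.MTargets

set_option autoImplicit false
set_option maxHeartbeats 1000000

/-!
# INJ, target TT2: values of the unrolled profile in one period
-/

namespace INJ

open Quaternion

noncomputable section

/-- norm of the fixed point -/
theorem TT2_norm_rho : ‖rho‖ = 1 / 2 := by
  unfold rho
  rw [Quaternion.norm_coe]
  norm_num

/-- distance of the fixed point to the centre of the small ball -/
theorem TT2_rho_mem : ‖rho - ((9 / 20 : ℝ) : ℍ[ℝ])‖ ≤ 1 / 10 := by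
  unfold rho
  rw [← Quaternion.coe_sub, Quaternion.norm_coe]
  norm_num

/-- the small ball is inside the unit ball -/
theorem TT2_small {F : ℍ[ℝ]} (h : ‖F - ((9 / 20 : ℝ) : ℍ[ℝ])‖ ≤ 1 / 10) : ‖F‖ < 1 := by
  have e : ‖((9 / 20 : ℝ) : ℍ[ℝ])‖ = 9 / 20 := by
    rw [Quaternion.norm_coe]
    norm_num
  have := norm_sub_norm_le F ((9 / 20 : ℝ) : ℍ[ℝ])
  rw [e] at this
  linarith

/-- positive powers of the contraction map the unit ball into the small ball -/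
theorem TT2_pos (h2 : T_THK) {F : ℍ[ℝ]} (hF : ‖F‖ ≤ 1) (k : ℕ) :
    ‖th ((k + 1 : ℕ) : ℤ) F - ((9 / 20 : ℝ) : ℍ[ℝ])‖ ≤ 1 / 10 := by
  obtain ⟨-, a2, -, -, a5, -, -, -, a9⟩ := h2
  have e : th ((k + 1 : ℕ) : ℤ) F = th 1 (th (k : ℤ) F) := by
    rw [a2]
    congr 1
    push_cast
    ring
  rw [e, a5]
  have := a9 k F hF
  linarith

/-- negative powers of a point outside the small ball are not in the open unit ball -/
theorem TT2_neg (h2 : T_THK) {F : ℍ[ℝ]} (hF : 1 / 10 < ‖F - ((9 / 20 : ℝ) : ℍ[ℝ])‖) (k : ℕ) :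
    1 ≤ ‖th (-((k : ℤ) + 1)) F‖ := by
  obtain ⟨a1, a2, -, -, a5, -, -, a8, -⟩ := h2
  by_contra hc
  have hc : ‖th (-((k : ℤ) + 1)) F‖ < 1 := not_le.mp hc
  have h3 := a8 k _ hc
  rw [a2] at h3
  have e : (k : ℤ) + -((k : ℤ) + 1) = -1 := by ring
  rw [e] at h3
  have h4 := a5 (th (-1) F)
  rw [a2] at h4
  have e2 : (1 : ℤ) + -1 = 0 := by ring
  rw [e2, a1] at h4
  linarith

/-- negative powers of a point outside the open unit ball are not in the open unit ball -/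
theorem TT2_neg' (h2 : T_THK) {F : ℍ[ℝ]} (hF : 1 ≤ ‖F‖) (k : ℕ) :
    1 ≤ ‖th (-((k : ℤ) + 1)) F‖ := by
  obtain ⟨a1, a2, -, -, a5, -, -, a8, -⟩ := h2
  by_contra hc
  have hc : ‖th (-((k : ℤ) + 1)) F‖ < 1 := not_le.mp hc
  have h3 := a8 (k + 1) _ hc
  rw [a2] at h3
  have e : ((k + 1 : ℕ) : ℤ) + -((k : ℤ) + 1) = 0 := by
    push_cast
    ring
  rw [e, a1] at h3
  linarith

/-- the profile is one outside the open unit ball -/
theorem TT2_one (h1 : T_TS) {κ : ℝ} (k0 : 0 < κ) (k1 : κ ≤ 1 / 8) {F : ℍ[ℝ]} (hF : 1 ≤ ‖F‖) :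
    ts κ F = 1 := by
  obtain ⟨-, b2, -, b4, -⟩ := h1 κ k0 k1
  have : ¬ ts κ F < 1 := fun h => absurd ((b4 F).mp h) (not_lt.mpr hF)
  exact le_antisymm (b2 F).2 (not_lt.mp this)

theorem p_TT2 (h1 : T_TS) (h2 : T_THK) (h3 : T_TTF) : T_TT2 := by
  intro κ k0 k1
  have hTS := h1 κ k0 k1
  obtain ⟨-, b2, b3, b4, -⟩ := hTS
  have c1 : ∀ F : ℍ[ℝ], F ≠ rho → ‖F - ((9 / 20 : ℝ) : ℍ[ℝ])‖ ≤ 1 / 10 → tt κ F ≤ 0 := by
    intro F _ hF
    have z : ∀ k : ℕ, ts κ (th (k : ℤ) F) = 0 := by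
      intro k
      rw [b3]
      rcases k with _ | k
      · simpa [h2.1 F] using hF
      · exact TT2_pos h2 (TT2_small hF).le k
    unfold tt
    have s1 : (∑' k : ℕ, ts κ (th (k : ℤ) F)) = 0 := by
      rw [← tsum_zero (α := ℝ) (β := ℕ)]
      exact tsum_congr z
    have s2 : 0 ≤ ∑' k : ℕ, (1 - ts κ (th (-((k : ℤ) + 1)) F)) :=
      tsum_nonneg fun k => sub_nonneg.mpr (b2 _).2
    rw [s1]
    linarith
  have c2 : ∀ F : ℍ[ℝ], 1 / 10 < ‖F - ((9 / 20 : ℝ) : ℍ[ℝ])‖ → ‖F‖ < 1 → tt κ F = ts κ F := by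
    intro F hF hF1
    have s1 : (∑' k : ℕ, ts κ (th (k : ℤ) F)) = ts κ F := by
      rw [tsum_eq_single 0]
      · simp [h2.1 F]
      · intro k hk
        obtain ⟨m, rfl⟩ := Nat.exists_eq_succ_of_ne_zero hk
        rw [b3]
        exact TT2_pos h2 hF1.le m
    have s2 : ∑' k : ℕ, (1 - ts κ (th (-((k : ℤ) + 1)) F)) = 0 := by
      rw [← tsum_zero (α := ℝ) (β := ℕ)]
      refine tsum_congr fun k => ?_
      rw [TT2_one h1 k0 k1 (TT2_neg h2 hF k)]
      ring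
    unfold tt
    rw [s1, s2]
    ring
  have c3 : ∀ F : ℍ[ℝ], 1 ≤ ‖F‖ → 1 ≤ tt κ F := by
    intro F hF
    have hne : F ≠ rho := by
      rintro rfl
      rw [TT2_norm_rho] at hF
      norm_num at hF
    obtain ⟨n, U, hU, hn⟩ := h3 κ k0 k1 F hne
    have hn1 := (hn F (mem_of_mem_nhds hU)).1
    have sm : Summable fun k : ℕ => ts κ (th (k : ℤ) F) := by
      apply summable_of_ne_finset_zero (s := Finset.range n)
      intro k hk
      exact hn1 k (by simpa using hk)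
    have s1 : 1 ≤ ∑' k : ℕ, ts κ (th (k : ℤ) F) := by
      have := sm.le_tsum 0 (fun j _ => (b2 _).1)
      have e : ts κ (th ((0 : ℕ) : ℤ) F) = 1 := by
        simp [h2.1 F, TT2_one h1 k0 k1 hF]
      linarith
    have s2 : ∑' k : ℕ, (1 - ts κ (th (-((k : ℤ) + 1)) F)) = 0 := by
      rw [← tsum_zero (α := ℝ) (β := ℕ)]
      refine tsum_congr fun k => ?_
      rw [TT2_one h1 k0 k1 (TT2_neg' h2 hF k)]
      ring
    unfold tt
    rw [s2]
    linarith
  refine ⟨c1, c2, c3, ?_⟩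
  intro s F hs0 hs1
  unfold InU
  by_cases hr : F = rho
  · subst hr
    have : ts κ rho = 0 := (b3 rho).mpr TT2_rho_mem
    rw [this]
    exact ⟨fun _ => hs0, fun _ => Or.inl rfl⟩
  · by_cases hC : ‖F - ((9 / 20 : ℝ) : ℍ[ℝ])‖ ≤ 1 / 10
    · have e1 := c1 F hr hC
      have e2 : ts κ F = 0 := (b3 F).mpr hC
      rw [e2]
      exact ⟨fun _ => hs0, fun _ => Or.inr (e1.trans hs0)⟩
    · by_cases h1' : ‖F‖ < 1
      · rw [c2 F (not_le.mp hC) h1']
        simp [hr]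
      · have h1'' : 1 ≤ ‖F‖ := not_lt.mp h1'
        have e1 := c3 F h1''
        have e2 : ts κ F = 1 := TT2_one h1 k0 k1 h1''
        rw [e2]
        constructor
        · rintro (h | h)
          · exact absurd h hr
          · linarith
        · intro h
          linarith

end

end INJ
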