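import Pool.Agent.INJ.MTargets

set_option autoImplicit false

/-!
# INJ: continuity of the unrolled profile
-/

namespace INJ

open Quaternion

noncomputable section

theorem p_TT3 (h1 : T_TS) (h2 : T_THK) (h3 : T_TTF) : T_TT3 := by
  intro κ hκ hκ' F hF
  have hts : Continuous (ts κ) := (h1 κ hκ hκ').1
  have hth : ∀ k, Continuous (th k) := h2.2.2.2.2.2.1
  obtain ⟨n, U, hU, hn⟩ := h3 κ hκ hκ' F hF
  have hg : Continuous fun F' : ℍ[ℝ] => (∑ k ∈ Finset.range n, ts κ (th k F')) -
      ∑ k ∈ Finset.range n, (1 - ts κ (th (-((k : ℤ) + 1)) F')) := by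
    refine Continuous.sub ?_ ?_
    · exact continuous_finsetSum _ fun k _ => hts.comp (hth _)
    · exact continuous_finsetSum _ fun k _ => continuous_const.sub (hts.comp (hth _))
  refine ContinuousAt.continuousWithinAt (hg.continuousAt.congr ?_)
  filter_upwards [hU] with F' hF'
  obtain ⟨a1, a2⟩ := hn F' hF'
  unfold tt
  congr 1
  · refine (tsum_eq_sum fun k hk => ?_).symm
    exact a1 k (by simpa using hk)
  · refine (tsum_eq_sum fun k hk => ?_).symm
    rw [a2 k (by simpa using hk), sub_self]

end

end INJ
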