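import Pool.Agent.INJ.MTargets

set_option autoImplicit false
set_option maxHeartbeats 4000000

/-!
# INJ, part M: TT4, comparison of `tt` with the logarithmic size
-/

namespace INJ

open Quaternion

noncomputable section

/-- the difference `tt - ll` is invariant under one step of the contraction -/
lemma TT4_step (hK : T_THK) (h1 : T_TT1) {κ : ℝ} (h0 : 0 < κ) (h8 : κ ≤ 1 / 8) {G : ℍ[ℝ]}
    (hG : G ≠ rho) : tt κ (th 1 G) - ll (th 1 G) = tt κ G - ll G := by
  obtain ⟨-, -, -, hn, -⟩ := hK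
  have hpos : 0 < ‖G - rho‖ := norm_pos_iff.2 (sub_ne_zero.2 hG)
  have hl10 : Real.log 10 ≠ 0 := (Real.log_pos (by norm_num)).ne'
  have hll : ll (th 1 G) = ll G - 1 := by
    unfold ll
    rw [hn 1 G, Real.log_mul (by positivity) hpos.ne', zpow_neg, zpow_one, Real.log_inv]
    field_simp
    ring
  rw [h1 κ h0 h8 G hG, hll]
  ring

/-- the difference `tt - ll` is invariant under all powers of the contraction -/
lemma TT4_inv (hK : T_THK) (h1 : T_TT1) {κ : ℝ} (h0 : 0 < κ) (h8 : κ ≤ 1 / 8) {F : ℍ[ℝ]}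
    (hF : F ≠ rho) (k : ℤ) : tt κ (th k F) - ll (th k F) = tt κ F - ll F := by
  have hK' := hK
  obtain ⟨hth0, hadd, -, -, -, -, hne, -⟩ := hK
  induction k using Int.induction_on with
  | zero => rw [hth0]
  | succ i ih =>
    rw [← ih, ← TT4_step hK' h1 h0 h8 (G := th i F) (fun h => hF ((hne _ _).1 h)), hadd,
      add_comm (1 : ℤ)]
  | pred i ih =>
    rw [← ih, ← TT4_step hK' h1 h0 h8 (G := th (-i - 1) F) (fun h => hF ((hne _ _).1 h)),
      hadd, add_sub_cancel]

/-- **TT4** -/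
theorem p_TT4 (hS : T_TS) (hK : T_THK) (h1 : T_TT1) (h2 : T_TT2) : T_TT4 := by
  intro κ h0 h8 F hF
  have hpos : 0 < ‖F - rho‖ := norm_pos_iff.2 (sub_ne_zero.2 hF)
  obtain ⟨k, hk1, hk2⟩ := exists_mem_Ico_zpow (x := 20 / 3 * ‖F - rho‖) (y := (10 : ℝ))
    (by positivity) (by norm_num)
  rw [← TT4_inv hK h1 h0 h8 hF k]
  have hinvK := @TT4_inv hK h1 κ h0 h8
  obtain ⟨hth0, hadd, -, hn, -, -, hne, -⟩ := hK
  obtain ⟨-, hts, -⟩ := hS κ h0 h8
  obtain ⟨ha, hb, hc, -⟩ := h2 κ h0 h8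
  set G := th k F with hGdef
  have hG : G ≠ rho := fun h => hF ((hne _ _).1 h)
  have h10 : (0 : ℝ) < 10 ^ (-k) := by positivity
  have hmul : (10 : ℝ) ^ (-k) * 10 ^ k = 1 := by
    rw [← zpow_add₀ (by norm_num), neg_add_cancel, zpow_zero]
  have hr : ‖G - rho‖ = (10 : ℝ) ^ (-k) * ‖F - rho‖ := hn k F
  have hr1 : 3 / 20 ≤ ‖G - rho‖ := by
    have := mul_le_mul_of_nonneg_left hk1 h10.le
    rw [hmul] at this
    rw [hr]
    linarith
  have hr2 : ‖G - rho‖ < 3 / 2 := by
    have := mul_lt_mul_of_pos_left hk2 h10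
    rw [zpow_add₀ (by norm_num), zpow_one, ← mul_assoc ((10 : ℝ) ^ (-k)) (10 ^ k),
      hmul] at this
    rw [hr]
    linarith
  have hrho : ‖rho‖ = 1 / 2 := by
    unfold rho
    rw [Quaternion.norm_coe]
    norm_num
  -- lower bound
  have hlow : 0 ≤ tt κ G := by
    have hne' : th (-1) G ≠ rho := fun h => hG ((hne _ _).1 h)
    have e1 : th 1 (th (-1) G) = G := by rw [hadd, show (1 : ℤ) + -1 = 0 by norm_num, hth0]
    have e2 := h1 κ h0 h8 _ hne'
    rw [e1] at e2
    have e3 : ‖th (-1) G - rho‖ = 10 * ‖G - rho‖ := by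
      rw [hn]
      norm_num
    have e4 : 1 ≤ ‖th (-1) G‖ := by
      have := norm_sub_le (th (-1) G) rho
      rw [e3, hrho] at this
      linarith
    have e5 := hc _ e4
    linarith
  -- upper bound
  have hup : tt κ G ≤ 2 := by
    have hne' : th 1 G ≠ rho := fun h => hG ((hne _ _).1 h)
    have e2 := h1 κ h0 h8 G hG
    have e3 : ‖th 1 G - rho‖ = 1 / 10 * ‖G - rho‖ := by
      rw [hn]
      norm_num
    have e4 : ‖th 1 G‖ < 1 := by
      have := norm_add_le (th 1 G - rho) rho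
      rw [sub_add_cancel, e3, hrho] at this
      linarith
    have e5 : tt κ (th 1 G) ≤ 1 := by
      by_cases hC : ‖th 1 G - ((9 / 20 : ℝ) : ℍ[ℝ])‖ ≤ 1 / 10
      · exact (ha _ hne' hC).trans zero_le_one
      · rw [hb _ (not_le.1 hC) e4]
        exact (hts _).2
    linarith
  have hl10 : 0 < Real.log 10 := Real.log_pos (by norm_num)
  have hll1 : -1 ≤ ll G := by
    unfold ll
    rw [le_div_iff₀ hl10, neg_one_mul, ← Real.log_inv]
    exact Real.log_le_log (by norm_num) (by norm_num; linarith)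
  have hll2 : ll G ≤ 1 := by
    unfold ll
    rw [div_le_iff₀ hl10, one_mul]
    exact Real.log_le_log (by linarith) (by linarith)
  rw [abs_le]
  constructor <;> linarith

end

end INJ
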