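import Pool.Agent.INJ.MTargets

set_option autoImplicit false

/-!
# INJ: the two sums are locally finite (target TTF)
-/

namespace INJ

open Quaternion

noncomputable section

/-- the profile function vanishes on the small ball -/
lemma TTF_zero {κ : ℝ} (h0 : 0 < κ) (h1 : κ ≤ 1 / 8) {f : ℍ[ℝ]}
    (hf : ‖f - ((9 / 20 : ℝ) : ℍ[ℝ])‖ ≤ 1 / 10) : ts κ f = 0 := by
  have e : ‖((9 / 20 : ℝ) : ℍ[ℝ])‖ = 9 / 20 := by
    rw [Quaternion.norm_coe]; norm_num
  have l1 : ‖f‖ ≤ 11 / 20 := by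
    have := norm_sub_norm_le f ((9 / 20 : ℝ) : ℍ[ℝ])
    rw [e] at this; linarith
  have l2 : 7 / 20 ≤ ‖f‖ := by
    have := norm_sub_norm_le ((9 / 20 : ℝ) : ℍ[ℝ]) f
    rw [e, norm_sub_rev] at this; linarith
  have r1 : (1 - κ) * (7 / 20 - ‖f‖) / (7 / 20) ≤ 0 := by
    apply div_nonpos_of_nonpos_of_nonneg _ (by norm_num)
    apply mul_nonpos_of_nonneg_of_nonpos <;> linarith
  have r2 : (‖f‖ - 11 / 20) / (9 / 20) ≤ 0 := by
    apply div_nonpos_of_nonpos_of_nonneg _ (by norm_num)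
    linarith
  have r3 : Rk κ ‖f‖ = 0 := by
    unfold Rk
    exact max_eq_left (max_le r1 r2)
  have r4 : min κ (‖f - ((9 / 20 : ℝ) : ℍ[ℝ])‖ - 1 / 10) ≤ 0 :=
    (min_le_right _ _).trans (by linarith)
  unfold ts
  rw [r3, max_eq_left r4]
  exact min_eq_right zero_le_one

/-- the profile function is 1 outside the unit ball -/
lemma TTF_one {κ : ℝ} {f : ℍ[ℝ]} (hf : 1 ≤ ‖f‖) : ts κ f = 1 := by
  have r : 1 ≤ (‖f‖ - 11 / 20) / (9 / 20) := by
    rw [le_div_iff₀ (by norm_num)]; linarith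
  unfold ts Rk
  apply min_eq_left
  exact le_max_of_le_left (le_max_of_le_right (le_max_of_le_right r))

/-- target TTF -/
theorem p_TTF : T_TTF := by
  intro κ h0 h1 F hF
  have hd : 0 < ‖F - rho‖ := norm_pos_iff.2 (sub_ne_zero.2 hF)
  obtain ⟨n, hn⟩ := exists_nat_ge (max (30 * ‖F - rho‖) (3 / ‖F - rho‖))
  have hn1 : 30 * ‖F - rho‖ ≤ n := (le_max_left _ _).trans hn
  have hn2 : 3 / ‖F - rho‖ ≤ n := (le_max_right _ _).trans hn
  have hpow : ∀ k : ℕ, n ≤ k → (n : ℝ) ≤ 10 ^ k := by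
    intro k hk
    have : k < 10 ^ k := Nat.lt_pow_self (by norm_num)
    have h2 : n ≤ 10 ^ k := by omega
    exact_mod_cast h2
  refine ⟨n, Metric.ball F (‖F - rho‖ / 2), Metric.ball_mem_nhds _ (by linarith), ?_⟩
  intro F' hF'
  rw [Metric.mem_ball, dist_eq_norm] at hF'
  have u1 : ‖F' - rho‖ ≤ 3 / 2 * ‖F - rho‖ := by
    have := norm_add_le (F' - F) (F - rho)
    rw [sub_add_sub_cancel] at this
    linarith
  have u2 : ‖F - rho‖ / 2 ≤ ‖F' - rho‖ := by
    have := norm_add_le (F - F') (F' - rho)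
    rw [sub_add_sub_cancel, norm_sub_rev F F'] at this
    linarith
  constructor
  · intro k hk
    apply TTF_zero h0 h1
    have hp := hpow k hk
    have hpos : (0 : ℝ) < 10 ^ k := by positivity
    have e1 : th (k : ℤ) F' - ((9 / 20 : ℝ) : ℍ[ℝ]) =
        ((1 / 20 : ℝ) : ℍ[ℝ]) + ((10 : ℝ) ^ k)⁻¹ • (F' - rho) := by
      unfold th
      rw [zpow_neg, zpow_natCast]
      have : rho = ((1 / 20 : ℝ) : ℍ[ℝ]) + ((9 / 20 : ℝ) : ℍ[ℝ]) := by
        unfold rho
        rw [← Quaternion.coe_add]; norm_num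
      rw [eq_comm]
      nth_rewrite 2 [this]
      abel
    rw [e1]
    refine (norm_add_le _ _).trans ?_
    rw [Quaternion.norm_coe, norm_smul, norm_inv, Real.norm_of_nonneg hpos.le,
      Real.norm_of_nonneg (by norm_num : (0 : ℝ) ≤ 1 / 20)]
    have : (10 ^ k : ℝ)⁻¹ * ‖F' - rho‖ ≤ 1 / 20 := by
      rw [inv_mul_le_iff₀ hpos]
      linarith
    linarith
  · intro k hk
    apply TTF_one
    have hp := hpow k hk
    have hpos : (0 : ℝ) < 10 ^ k := by positivity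
    have e1 : th (-((k : ℤ) + 1)) F' = rho + ((10 : ℝ) ^ (k + 1)) • (F' - rho) := by
      unfold th
      rw [neg_neg]
      norm_cast
    rw [e1]
    have h3 : ‖rho‖ = 1 / 2 := by
      unfold rho
      rw [Quaternion.norm_coe]; norm_num
    have h4 : ‖((10 : ℝ) ^ (k + 1)) • (F' - rho)‖ ≤
        ‖rho + ((10 : ℝ) ^ (k + 1)) • (F' - rho)‖ + ‖rho‖ := by
      have := norm_sub_le (rho + ((10 : ℝ) ^ (k + 1)) • (F' - rho)) rho
      rwa [add_sub_cancel_left] at this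
    rw [norm_smul, norm_pow, Real.norm_of_nonneg (by norm_num : (0 : ℝ) ≤ 10), h3] at h4
    have h5 : 3 ≤ (10 : ℝ) ^ k * ‖F - rho‖ := by
      have := hn2.trans hp
      rwa [div_le_iff₀ hd] at this
    have h6 : 3 / 2 ≤ (10 : ℝ) ^ (k + 1) * ‖F' - rho‖ := by
      rw [pow_succ]
      nlinarith
    linarith

end

end INJ
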