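import Pool.Agent.INJ.MTargets

set_option autoImplicit false

/-!
# INJ: windows
-/

namespace INJ

noncomputable section

lemma WIN_nn (a : ℕ × ℕ) : ∃ m : ℕ, nn (suc a) = nn a * (2 * m) ∧ 1 ≤ m := by
  have h : Nat.pair a.1 a.2 < Nat.pair a.1 (a.2 + 1) :=
    Nat.pair_lt_pair_right a.1 (Nat.lt_succ_self _)
  obtain ⟨d, hd⟩ := Nat.exists_eq_add_of_le (Nat.succ_le_of_lt h)
  rw [Nat.succ_eq_add_one] at hd
  refine ⟨8 * 16 ^ d, ?_, ?_⟩
  · unfold nn suc
    simp only []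
    rw [hd]
    ring
  · have : 0 < 16 ^ d := by positivity
    omega

lemma WIN_dZ_le (x : ℝ) (k : ℤ) : dZ x ≤ |x - k| := by
  unfold dZ
  exact round_le x k

theorem p_WIN : T_WIN := by
  intro a t h
  obtain ⟨m, hm, hm1⟩ := WIN_nn a
  have hn : (0 : ℝ) < nn a := by
    have : 0 < nn a := by unfold nn; positivity
    exact_mod_cast this
  have hmR : (1 : ℝ) ≤ m := by exact_mod_cast hm1
  have hmc : ((nn (suc a) : ℕ) : ℝ) = nn a * (2 * m) := by rw [hm]; push_cast; ring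
  have hk : kap a = 1 / (32 * m) := by
    unfold kap
    rw [hmc]
    field_simp
    ring
  unfold dZ at h
  rw [hk] at h
  have h2 : 2 * (m : ℝ) * |ss a t - round (ss a t)| ≤ 1 / 8 := by
    calc 2 * (m : ℝ) * |ss a t - round (ss a t)| ≤ 2 * (m : ℝ) * (2 * (1 / (32 * m))) :=
          mul_le_mul_of_nonneg_left h (by positivity)
      _ = 1 / 8 := by field_simp; ring
  refine (WIN_dZ_le _ (2 * m * round (ss a t) - m)).trans ?_
  have h3 : ss (suc a) t - 1 / 2 - ((2 * m * round (ss a t) - m : ℤ) : ℝ) =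
      2 * (m : ℝ) * (ss a t - round (ss a t)) := by
    unfold ss
    rw [hmc]
    push_cast
    ring
  rw [h3, abs_mul, abs_of_nonneg (by positivity : (0 : ℝ) ≤ 2 * (m : ℝ))]
  exact h2

end

end INJ
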