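import Pool.Agent.INJ.KTargets

set_option autoImplicit false

/-!
# INJ: target WW, the matrix `W` of item K7 (helper49)
-/

namespace INJ

open Matrix

noncomputable section

/-- the primitive fifth root of unity -/
def WW_om : ℂ := ((zeta 0 : Circle) : ℂ)

lemma WW_prim : IsPrimitiveRoot WW_om 5 := by
  have h := Complex.isPrimitiveRoot_exp 5 (by norm_num)
  have e : WW_om = Complex.exp (2 * Real.pi * Complex.I / (5 : ℕ)) := by
    unfold WW_om zeta N
    rw [Circle.coe_exp]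
    congr 1
    push_cast
    ring
  rw [e]
  exact h

lemma WW_pow5 : WW_om ^ 5 = 1 := WW_prim.pow_eq_one

lemma WW_star : star WW_om = WW_om ^ 4 := by
  have h1 : star WW_om * WW_om = 1 := by
    unfold WW_om
    have h := Circle.coe_inv_eq_conj (zeta 0)
    have h2 : star ((zeta 0 : Circle) : ℂ) = (((zeta 0)⁻¹ : Circle) : ℂ) := h.symm
    rw [h2, ← Circle.coe_mul, inv_mul_cancel, Circle.coe_one]
  have h2 : WW_om ^ 4 * WW_om = 1 := by
    have := WW_pow5
    rw [← this]; ring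
  have h3 : WW_om ≠ 0 := WW_prim.ne_zero (by norm_num)
  exact mul_right_cancel₀ h3 (h1.trans h2.symm)

/-- Fourier matrix -/
def WW_F : Matrix (Fin 5) (Fin 5) ℂ := Matrix.of fun i k => WW_om ^ ((i : ℕ) * (k : ℕ))

/-- its inverse -/
def WW_G : Matrix (Fin 5) (Fin 5) ℂ :=
  Matrix.of fun k j => (1 / 5 : ℂ) * WW_om ^ (4 * ((j : ℕ) * (k : ℕ)))

lemma WW_geom (m : ℕ) : ∑ k ∈ Finset.range 5, (WW_om ^ m) ^ k = if 5 ∣ m then 5 else 0 := by
  by_cases h : 5 ∣ m
  · rw [if_pos h, (WW_prim.pow_eq_one_iff_dvd m).2 h]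
    simp
  · rw [if_neg h]
    have h1 : WW_om ^ m ≠ 1 := fun h' => h ((WW_prim.pow_eq_one_iff_dvd m).1 h')
    rw [geom_sum_eq h1, ← pow_mul, mul_comm m 5, pow_mul, WW_pow5, one_pow, sub_self, zero_div]

lemma WW_FG : WW_F * WW_G = 1 := by
  ext i j
  rw [Matrix.mul_apply]
  simp only [WW_F, WW_G, Matrix.of_apply]
  have h : ∀ k : Fin 5, WW_om ^ ((i : ℕ) * (k : ℕ)) * ((1 / 5 : ℂ) *
      WW_om ^ (4 * ((j : ℕ) * (k : ℕ)))) =
      (1 / 5 : ℂ) * (WW_om ^ ((i : ℕ) + 4 * (j : ℕ))) ^ (k : ℕ) := by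
    intro k
    rw [← pow_mul, add_mul, pow_add, mul_assoc 4]
    ring
  rw [Finset.sum_congr rfl fun k _ => h k, ← Finset.mul_sum,
    Fin.sum_univ_eq_sum_range (fun k => (WW_om ^ ((i : ℕ) + 4 * (j : ℕ))) ^ k) 5, WW_geom]
  by_cases hij : i = j
  · subst hij
    rw [if_pos (by omega), Matrix.one_apply_eq]
    norm_num
  · have h1 : (i : ℕ) ≠ j := fun h => hij (Fin.ext h)
    rw [if_neg (by omega), Matrix.one_apply_ne hij, mul_zero]

/-- the entry which makes the two by two blocks invertible -/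
def WW_r (h : ℂ) : ℂ := ((Real.sqrt (1 - ‖h‖ ^ 2) : ℝ) : ℂ)

/-- block matrix -/
def WW_D (g : ℂ) : Matrix (Fin 5) (Fin 5) ℂ :=
  !![1, 0, 0, 0, 0;
    0, g, 0, 0, -WW_r g;
    0, 0, g ^ 2, -WW_r (g ^ 2), 0;
    0, 0, WW_r (g ^ 2), star (g ^ 2), 0;
    0, WW_r g, 0, 0, star g]

/-- its inverse -/
def WW_E (g : ℂ) : Matrix (Fin 5) (Fin 5) ℂ :=
  !![1, 0, 0, 0, 0;
    0, star g, 0, 0, WW_r g;
    0, 0, star (g ^ 2), WW_r (g ^ 2), 0;
    0, 0, -WW_r (g ^ 2), g ^ 2, 0;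
    0, -WW_r g, 0, 0, g]

lemma WW_rr (h : ℂ) (hh : ‖h‖ ≤ 1) : h * star h + WW_r h * WW_r h = 1 := by
  have h1 : h * star h = ((‖h‖ ^ 2 : ℝ) : ℂ) := by
    have := Complex.mul_conj h
    rw [Complex.normSq_eq_norm_sq] at this
    exact this
  have h2 : WW_r h * WW_r h = ((1 - ‖h‖ ^ 2 : ℝ) : ℂ) := by
    unfold WW_r
    rw [← Complex.ofReal_mul, Real.mul_self_sqrt]
    nlinarith [norm_nonneg h]
  rw [h1, h2]
  push_cast
  ring

lemma WW_DE (g : ℂ) (hg : ‖g‖ ≤ 1) : WW_D g * WW_E g = 1 := by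
  have h1 := WW_rr g hg
  have h2 := WW_rr (g ^ 2) (by rw [norm_pow]; exact pow_le_one₀ (norm_nonneg _) hg)
  ext i j
  rw [Matrix.mul_apply, Fin.sum_univ_five]
  unfold WW_D WW_E
  fin_cases i <;> fin_cases j <;>
    simp only [Matrix.of_apply, Matrix.cons_val, Matrix.one_apply, Fin.isValue, Fin.mk_one,
      Fin.zero_eta, Fin.reduceFinMk] <;>
    first
    | (simp; done)
    | (simp only [Fin.reduceEq, if_true, if_false]
       first
       | linear_combination h1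
       | linear_combination h2
       | ring)

/-- radial normalisation -/
def WW_g (z : DD) : ℂ := (z : ℂ) / ((max ‖(z : ℂ)‖ (1 / 2) : ℝ) : ℂ)

lemma WW_g_cont : Continuous WW_g := by
  unfold WW_g
  refine Continuous.div (by fun_prop) (by fun_prop) ?_
  intro z h
  rw [Complex.ofReal_eq_zero] at h
  have := le_max_right ‖(z : ℂ)‖ (1 / 2 : ℝ)
  rw [h] at this
  norm_num at this

lemma WW_g_le (z : DD) : ‖WW_g z‖ ≤ 1 := by
  unfold WW_g
  have h0 : 0 < max ‖(z : ℂ)‖ (1 / 2 : ℝ) := lt_max_of_lt_right (by norm_num)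
  rw [norm_div, Complex.norm_real, Real.norm_of_nonneg h0.le, div_le_one h0]
  exact le_max_left _ _

lemma WW_g_eq (z : DD) (hz : 1 / 2 ≤ ‖(z : ℂ)‖) : ‖WW_g z‖ = 1 := by
  unfold WW_g
  rw [max_eq_left hz, norm_div, Complex.norm_real, norm_norm, div_self]
  intro h
  rw [h] at hz
  norm_num at hz

lemma WW_g_rot (z : DD) : WW_g (rotD (zeta 0) z) = WW_om * WW_g z := by
  unfold WW_g rotD WW_om
  dsimp only
  rw [norm_mul, Circle.norm_coe, one_mul, mul_div_assoc]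

lemma WW_r_zero (h : ℂ) (hh : ‖h‖ = 1) : WW_r h = 0 := by
  unfold WW_r
  rw [hh]
  simp

lemma WW_r_cont {X : Type} [TopologicalSpace X] (f : X → ℂ) (hf : Continuous f) :
    Continuous fun x => WW_r (f x) := by
  unfold WW_r
  fun_prop

lemma WW_D_cont {X : Type} [TopologicalSpace X] (f : X → ℂ) (hf : Continuous f) :
    Continuous fun x => WW_D (f x) := by
  have h1 := WW_r_cont f hf
  have h2 := WW_r_cont (fun x => f x ^ 2) (by fun_prop)
  refine continuous_matrix fun i j => ?_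
  unfold WW_D
  fin_cases i <;> fin_cases j <;> simp <;> fun_prop

lemma WW_E_cont {X : Type} [TopologicalSpace X] (f : X → ℂ) (hf : Continuous f) :
    Continuous fun x => WW_E (f x) := by
  have h1 := WW_r_cont f hf
  have h2 := WW_r_cont (fun x => f x ^ 2) (by fun_prop)
  refine continuous_matrix fun i j => ?_
  unfold WW_E
  fin_cases i <;> fin_cases j <;> simp <;> fun_prop

/-- the cyclic shift -/
def WW_S : Matrix (Fin 5) (Fin 5) ℂ :=
  Matrix.of fun i j : Fin 5 => if j = i + 1 then (1 : ℂ) else 0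

lemma WW_SF : WW_S * WW_F = WW_F * Matrix.diagonal fun k : Fin 5 => WW_om ^ (k : ℕ) := by
  ext i k
  rw [Matrix.mul_diagonal, Matrix.mul_apply]
  simp only [WW_S, WW_F, Matrix.of_apply, ite_mul, one_mul, zero_mul, Finset.sum_ite_eq',
    Finset.mem_univ, if_true]
  have h5 := WW_pow5
  have h : WW_om ^ (((i + 1 : Fin 5) : ℕ) * (k : ℕ)) = WW_om ^ (((i : ℕ) + 1) * (k : ℕ)) := by
    rw [pow_mul, pow_mul]
    congr 1
    fin_cases i
    · rfl
    · rfl
    · rfl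
    · rfl
    · change WW_om ^ 0 = WW_om ^ 5
      rw [h5, pow_zero]
  rw [h, add_mul, one_mul, pow_add]

lemma WW_D_rot (g : ℂ) (hg : ‖g‖ = 1) :
    WW_D (WW_om * g) = (Matrix.diagonal fun k : Fin 5 => WW_om ^ (k : ℕ)) * WW_D g := by
  have h5 := WW_pow5
  have hs := WW_star
  have ho : ‖WW_om‖ = 1 := by unfold WW_om; exact Circle.norm_coe _
  have r1 : WW_r g = 0 := WW_r_zero g hg
  have r2 : WW_r (g ^ 2) = 0 := WW_r_zero _ (by rw [norm_pow, hg, one_pow])
  have r3 : WW_r (WW_om * g) = 0 := WW_r_zero _ (by rw [norm_mul, ho, hg, one_mul])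
  have r4 : WW_r ((WW_om * g) ^ 2) = 0 :=
    WW_r_zero _ (by rw [norm_pow, norm_mul, ho, hg, one_mul, one_pow])
  have s1 : star (WW_om * g) = WW_om ^ 4 * star g := by
    rw [star_mul', hs]
  have s2 : star ((WW_om * g) ^ 2) = WW_om ^ 3 * star (g ^ 2) := by
    rw [star_pow, s1, star_pow]
    linear_combination (WW_om ^ 3 * star g ^ 2) * h5
  ext i j
  rw [Matrix.diagonal_mul]
  unfold WW_D
  rw [r1, r2, r3, r4, s1, s2]
  fin_cases i <;> fin_cases j <;> simp <;> ring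

theorem p_WW : T_WW := by
  refine ⟨fun z => WW_F * WW_D (WW_g z), fun z => WW_E (WW_g z) * WW_G, ?_, ?_, ?_, ?_⟩
  · exact continuous_const.matrix_mul (WW_D_cont _ WW_g_cont)
  · exact (WW_E_cont _ WW_g_cont).matrix_mul continuous_const
  · intro z
    have h1 : WW_F * WW_D (WW_g z) * (WW_E (WW_g z) * WW_G) = 1 := by
      calc WW_F * WW_D (WW_g z) * (WW_E (WW_g z) * WW_G)
          = WW_F * (WW_D (WW_g z) * WW_E (WW_g z)) * WW_G := by simp only [Matrix.mul_assoc]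
        _ = 1 := by rw [WW_DE _ (WW_g_le z), Matrix.mul_one, WW_FG]
    exact ⟨h1, mul_eq_one_comm.1 h1⟩
  · intro z hz
    change WW_F * WW_D (WW_g (rotD (zeta 0) z)) = WW_S * (WW_F * WW_D (WW_g z))
    rw [WW_g_rot, WW_D_rot _ (WW_g_eq z hz), ← Matrix.mul_assoc, ← Matrix.mul_assoc, WW_SF]

end

end INJ
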