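import Pool.Agent.INJ.K2Targets

set_option autoImplicit false

/-!
# INJ: the vectors `ξ_w` (target `T_XIV`)
-/

namespace INJ

noncomputable section

lemma XIV_pos {k : ℕ} (w : ℕ) (hk : 0 < k) (p : Sph k) :
    0 < ∑ j, ‖p.1 j‖ ^ (2 * w) := by
  by_cases hw : w = 0
  · subst hw
    simp only [Nat.mul_zero, pow_zero, Finset.sum_const, Finset.card_univ, Fintype.card_fin,
      nsmul_eq_mul, mul_one]
    exact_mod_cast hk
  · have hex : ∃ j, p.1 j ≠ 0 := by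
      by_contra hcon
      push Not at hcon
      have h0 : p.1 = 0 := by
        ext j
        exact hcon j
      have h1 := p.2
      rw [mem_sphere_zero_iff_norm, h0, norm_zero] at h1
      exact zero_ne_one h1
    obtain ⟨j, hj⟩ := hex
    refine Finset.sum_pos' (fun i _ => pow_nonneg (norm_nonneg _) _) ⟨j, Finset.mem_univ _, ?_⟩
    exact pow_pos (norm_pos_iff.2 hj) _

lemma XIV_coord {k : ℕ} (i : Fin k) : Continuous fun p : Sph k => p.1 i := by
  have h1 : Continuous fun v : EuclideanSpace ℂ (Fin k) => v i := by fun_prop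
  exact h1.comp continuous_subtype_val

lemma XIV_sqrt_ne {k : ℕ} (w : ℕ) (hk : 0 < k) (p : Sph k) :
    ((Real.sqrt (∑ j, ‖p.1 j‖ ^ (2 * w)) : ℝ) : ℂ) ≠ 0 := by
  have h := Real.sqrt_pos.2 (XIV_pos w hk p)
  exact_mod_cast h.ne'

lemma XIV_cont {k : ℕ} (w : ℕ) (hk : 0 < k) (i : Fin k) :
    Continuous fun p : Sph k => xiv w p i := by
  unfold xiv
  refine Continuous.div ?_ ?_ (XIV_sqrt_ne w hk)
  · exact (continuous_star.comp (XIV_coord i)).pow w
  · refine Complex.continuous_ofReal.comp (Real.continuous_sqrt.comp ?_)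
    exact continuous_finsetSum _ fun j _ => ((XIV_coord j).norm).pow _

lemma XIV_sum {k : ℕ} (w : ℕ) (hk : 0 < k) (p : Sph k) :
    ∑ i, star (xiv w p i) * xiv w p i = 1 := by
  have h0 := XIV_pos w hk p
  have h1 := XIV_sqrt_ne w hk p
  have h2 : (((∑ j, ‖p.1 j‖ ^ (2 * w) : ℝ)) : ℂ) ≠ 0 := by exact_mod_cast h0.ne'
  have h3 : ∀ i, star (xiv w p i) * xiv w p i =
      ((‖p.1 i‖ ^ (2 * w) : ℝ) : ℂ) / ((∑ j, ‖p.1 j‖ ^ (2 * w) : ℝ) : ℂ) := by
    intro i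
    unfold xiv
    set r : ℝ := ∑ j, ‖p.1 j‖ ^ (2 * w) with hr
    have e1 : star (star (p.1 i) ^ w / ((Real.sqrt r : ℝ) : ℂ)) =
        (p.1 i) ^ w / ((Real.sqrt r : ℝ) : ℂ) := by
      rw [Complex.star_def, map_div₀, map_pow, Complex.conj_ofReal, Complex.conj_conj]
    rw [e1, div_mul_div_comm, ← mul_pow]
    have e2 : (p.1 i) * star (p.1 i) = ((‖p.1 i‖ ^ 2 : ℝ) : ℂ) := by
      rw [Complex.star_def, Complex.mul_conj, Complex.normSq_eq_norm_sq]
    have e3 : ((Real.sqrt r : ℝ) : ℂ) * ((Real.sqrt r : ℝ) : ℂ) = (r : ℂ) := by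
      rw [← Complex.ofReal_mul, Real.mul_self_sqrt h0.le]
    rw [e2, e3, ← Complex.ofReal_pow, ← pow_mul]
  rw [Finset.sum_congr rfl fun i _ => h3 i, ← Finset.sum_div, ← Complex.ofReal_sum]
  exact div_self h2

lemma XIV_rot {k : ℕ} (w : ℕ) (c : Circle) (p : Sph k) (i : Fin k) :
    xiv w (rot c p) i = ((c ^ (-(w : ℤ)) : Circle) : ℂ) * xiv w p i := by
  have h1 : ∀ j, (rot c p).1 j = (c : ℂ) * p.1 j := fun j => rfl
  unfold xiv
  have h2 : ∀ j, ‖(rot c p).1 j‖ = ‖p.1 j‖ := by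
    intro j
    rw [h1, norm_mul, Circle.norm_coe, one_mul]
  have h3 : ∑ j, ‖(rot c p).1 j‖ ^ (2 * w) = ∑ j, ‖p.1 j‖ ^ (2 * w) :=
    Finset.sum_congr rfl fun j _ => by rw [h2]
  have h4 : ((c ^ (-(w : ℤ)) : Circle) : ℂ) = (star (c : ℂ)) ^ w := by
    rw [zpow_neg, zpow_natCast, ← inv_pow, Circle.coe_pow, Circle.coe_inv_eq_conj]
    rfl
  rw [h3, h1, h4, star_mul', mul_pow, mul_div_assoc]

theorem p_XIV : T_XIV := fun _ w hk =>
  ⟨fun i => XIV_cont w hk i, fun p => XIV_sum w hk p, fun c p i => XIV_rot w c p i⟩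

end

end INJ
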