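import Pool.Agent.INJ.MTargets

set_option autoImplicit false

/-!
# INJ, part M: target `T_XYC` (continuity of the truncated thresholds)
-/

namespace INJ

open Quaternion

/-- general statement: truncated affine images of functions tending to `-∞` at `rho` -/
lemma XYC_gen (g : ℍ[ℝ] → ℝ) (hg : ContinuousOn g {rho}ᶜ) (hl : ∀ F : ℍ[ℝ], F ≠ rho → g F ≤ ll F + 3)
    (n δ : ℝ) (hn : 0 < n) (φ : ℝ × ℍ[ℝ] → ℝ)
    (h1 : ∀ p : ℝ × ℍ[ℝ], p.2 = rho → φ p = -δ)
    (h2 : ∀ p : ℝ × ℍ[ℝ], p.2 ≠ rho → φ p = max (-δ) ((g p.2 - 1 / 2) / n - p.1)) :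
    Continuous φ := by
  rw [continuous_iff_continuousAt]
  rintro ⟨t0, F0⟩
  by_cases hF : F0 = rho
  · subst hF
    have hev : ∀ᶠ p : ℝ × ℍ[ℝ] in nhds (t0, rho), φ p = -δ := by
      have e1 : ∀ᶠ p : ℝ × ℍ[ℝ] in nhds (t0, rho), t0 - 1 < p.1 :=
        (continuous_fst.tendsto (t0, (rho : ℍ[ℝ]))).eventually (lt_mem_nhds (by simp))
      have e2 : ∀ᶠ p : ℝ × ℍ[ℝ] in nhds (t0, rho),
          ‖p.2 - rho‖ < (10 : ℝ) ^ (n * (t0 - 1 - δ) - 3) := by
        have hc : Continuous fun p : ℝ × ℍ[ℝ] => ‖p.2 - rho‖ := by fun_prop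
        refine (hc.tendsto (t0, rho)).eventually (gt_mem_nhds ?_)
        simp only [sub_self, norm_zero]
        positivity
      filter_upwards [e1, e2] with p hp1 hp2
      by_cases hp : p.2 = rho
      · exact h1 p hp
      · rw [h2 p hp]
        have hpos : 0 < ‖p.2 - rho‖ := norm_pos_iff.mpr (sub_ne_zero.mpr hp)
        have hlog : Real.log ‖p.2 - rho‖ < (n * (t0 - 1 - δ) - 3) * Real.log 10 := by
          have := Real.log_lt_log hpos hp2
          rwa [Real.log_rpow (by norm_num)] at this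
        have h10 : 0 < Real.log 10 := Real.log_pos (by norm_num)
        have hll : ll p.2 < n * (t0 - 1 - δ) - 3 := by
          unfold ll
          rwa [div_lt_iff₀ h10]
        have hg' := hl p.2 hp
        apply max_eq_left
        have : (g p.2 - 1 / 2) / n ≤ t0 - 1 - δ := by
          rw [div_le_iff₀ hn]
          nlinarith
        linarith
    have : φ =ᶠ[nhds (t0, rho)] fun _ => -δ := hev
    exact continuousAt_const.congr this.symm
  · have hev : ∀ᶠ p : ℝ × ℍ[ℝ] in nhds (t0, F0), p.2 ≠ rho := by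
      have : Filter.Tendsto (fun p : ℝ × ℍ[ℝ] => p.2) (nhds (t0, F0)) (nhds F0) :=
        continuous_snd.tendsto (t0, F0)
      exact this.eventually (isOpen_ne.mem_nhds hF)
    have he : φ =ᶠ[nhds (t0, F0)] fun p => max (-δ) ((g p.2 - 1 / 2) / n - p.1) := by
      filter_upwards [hev] with p hp
      exact h2 p hp
    refine ContinuousAt.congr ?_ he.symm
    have hgc : ContinuousAt g F0 := hg.continuousAt (isOpen_ne.mem_nhds hF)
    have hgc' : ContinuousAt (fun p : ℝ × ℍ[ℝ] => g p.2) (t0, F0) :=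
      ContinuousAt.comp (f := fun p : ℝ × ℍ[ℝ] => p.2) (x := (t0, F0)) hgc continuousAt_snd
    exact continuousAt_const.max (((hgc'.sub continuousAt_const).div_const n).sub continuousAt_fst)

lemma XYC_ll : ContinuousOn ll {rho}ᶜ := by
  intro F hF
  have hF' : F ≠ rho := hF
  apply ContinuousAt.continuousWithinAt
  unfold ll
  have hpos : ‖F - rho‖ ≠ 0 := norm_ne_zero_iff.mpr (sub_ne_zero.mpr hF')
  have hc : ContinuousAt (fun F : ℍ[ℝ] => ‖F - rho‖) F := by fun_prop
  exact (hc.log hpos).div_const _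

/-- target `T_XYC` -/
theorem p_XYC (h3 : T_TT3) (h4 : T_TT4) (hk : T_KAP) : T_XYC := by
  intro k δ hδ
  have hn : (0 : ℝ) < nn (ak k) := by
    rw [hk.2.2.1 k]
    positivity
  have hκ := hk.1 (ak k)
  have hκ' : kap (ak k) ≤ 1 / 8 := by linarith [hκ.2]
  constructor
  · refine XYC_gen (tt (kap (ak k))) (h3 _ hκ.1 hκ') (fun F hF => ?_) (nn (ak k)) δ hn _ ?_ ?_
    · have := abs_le.mp (h4 _ hκ.1 hκ' F hF)
      linarith [this.2]
    · intro p hp
      simp only [yk, if_pos hp]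
    · intro p hp
      simp only [yk, if_neg hp]
  · refine XYC_gen ll XYC_ll (fun F hF => by linarith) (nn (ak k)) δ hn _ ?_ ?_
    · intro p hp
      simp only [xk, if_pos hp]
    · intro p hp
      simp only [xk, if_neg hp]

end INJ
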