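import Pool.Agent.INJ.MTargets

set_option autoImplicit false

/-!
# INJ: target Z12, complex coordinates of quaternions
-/

namespace INJ

open Quaternion

theorem Z12_z1 : Continuous z1 := by
  have h : z1 = fun q : ℍ[ℝ] => (q.re : ℂ) + (q.imI : ℂ) * Complex.I := by
    funext q
    apply Complex.ext <;> simp [z1]
  rw [h]
  exact (Complex.continuous_ofReal.comp Quaternion.continuous_re).add
    ((Complex.continuous_ofReal.comp Quaternion.continuous_imI).mul continuous_const)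

theorem Z12_z2 : Continuous z2 := by
  have h : z2 = fun q : ℍ[ℝ] => (q.imJ : ℂ) + (q.imK : ℂ) * Complex.I := by
    funext q
    apply Complex.ext <;> simp [z2]
  rw [h]
  exact (Complex.continuous_ofReal.comp Quaternion.continuous_imJ).add
    ((Complex.continuous_ofReal.comp Quaternion.continuous_imK).mul continuous_const)

/-- the quaternion `i` -/
def Z12_eI : ℍ[ℝ] := mkH Complex.I 0
/-- the quaternion `j` -/
def Z12_eJ : ℍ[ℝ] := mkH 0 1
/-- the quaternion `k` -/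
def Z12_eK : ℍ[ℝ] := mkH 0 Complex.I

theorem Z12_mk : Continuous (fun p : ℂ × ℂ => mkH p.1 p.2) := by
  have h : (fun p : ℂ × ℂ => mkH p.1 p.2) = fun p : ℂ × ℂ =>
      p.1.re • (1 : ℍ[ℝ]) + p.1.im • Z12_eI + p.2.re • Z12_eJ + p.2.im • Z12_eK := by
    funext p
    apply Quaternion.ext
    · simp only [Quaternion.re_add, Quaternion.re_smul, Quaternion.re_one]
      simp [mkH, Z12_eI, Z12_eJ, Z12_eK]
    · simp only [Quaternion.imI_add, Quaternion.imI_smul, Quaternion.imI_one]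
      simp [mkH, Z12_eI, Z12_eJ, Z12_eK]
    · simp only [Quaternion.imJ_add, Quaternion.imJ_smul, Quaternion.imJ_one]
      simp [mkH, Z12_eI, Z12_eJ, Z12_eK]
    · simp only [Quaternion.imK_add, Quaternion.imK_smul, Quaternion.imK_one]
      simp [mkH, Z12_eI, Z12_eJ, Z12_eK]
  rw [h]
  have c1 : Continuous (fun p : ℂ × ℂ => p.1.re) := Complex.continuous_re.comp continuous_fst
  have c2 : Continuous (fun p : ℂ × ℂ => p.1.im) := Complex.continuous_im.comp continuous_fst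
  have c3 : Continuous (fun p : ℂ × ℂ => p.2.re) := Complex.continuous_re.comp continuous_snd
  have c4 : Continuous (fun p : ℂ × ℂ => p.2.im) := Complex.continuous_im.comp continuous_snd
  exact (((c1.smul continuous_const).add (c2.smul continuous_const)).add
    (c3.smul continuous_const)).add (c4.smul continuous_const)

theorem Z12_norm (q : ℍ[ℝ]) : ‖q‖ ^ 2 = ‖z1 q‖ ^ 2 + ‖z2 q‖ ^ 2 := by
  rw [pow_two ‖q‖, ← Quaternion.normSq_eq_norm_mul_self, Quaternion.normSq_def',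
    ← Complex.normSq_eq_norm_sq, ← Complex.normSq_eq_norm_sq, Complex.normSq_apply,
    Complex.normSq_apply]
  simp only [z1, z2]
  ring

theorem Z12_coe (c : ℂ) : ‖(c : ℍ[ℝ])‖ = ‖c‖ := by
  have h : ‖(c : ℍ[ℝ])‖ ^ 2 = ‖c‖ ^ 2 := by
    rw [Z12_norm]
    have h1 : z1 (c : ℍ[ℝ]) = c := by apply Complex.ext <;> simp [z1]
    have h2 : z2 (c : ℍ[ℝ]) = 0 := by apply Complex.ext <;> simp [z2]
    rw [h1, h2]
    simp
  exact (pow_left_inj₀ (norm_nonneg _) (norm_nonneg _) two_ne_zero).1 h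

theorem Z12_mul (c : ℂ) (q : ℍ[ℝ]) :
    z1 ((c : ℍ[ℝ]) * q) = c * z1 q ∧ z2 ((c : ℍ[ℝ]) * q) = c * z2 q := by
  constructor
  · apply Complex.ext <;> simp [z1]
  · apply Complex.ext <;> simp [z2]

theorem Z12_cmk (c a b : ℂ) : (c : ℍ[ℝ]) * mkH a b = mkH (c * a) (c * b) := by
  have h1 : mkH (z1 ((c : ℍ[ℝ]) * mkH a b)) (z2 ((c : ℍ[ℝ]) * mkH a b)) =
      (c : ℍ[ℝ]) * mkH a b := rfl
  rw [← h1, (Z12_mul c (mkH a b)).1, (Z12_mul c (mkH a b)).2]
  rfl

theorem p_Z12 : T_Z12 := by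
  refine ⟨fun q => rfl, fun a b => ⟨rfl, rfl⟩, Z12_norm, Z12_mul, ?_, Z12_z1, Z12_z2, Z12_mk,
    Z12_cmk, Z12_coe, ?_, ?_, ?_, ?_⟩
  · intro r q
    constructor
    · apply Complex.ext <;> simp [z1]
    · apply Complex.ext <;> simp [z2]
  · rfl
  · rfl
  · have h : ‖eJ‖ ^ 2 = 1 ^ 2 := by
      rw [Z12_norm]
      have h1 : z1 eJ = 0 := rfl
      have h2 : z2 eJ = 1 := rfl
      rw [h1, h2]
      simp
    exact (pow_left_inj₀ (norm_nonneg _) zero_le_one two_ne_zero).1 h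
  · unfold rho
    rw [Quaternion.norm_coe]
    norm_num

end INJ
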