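import Pool.Agent.INJ.K2Targets

set_option autoImplicit false

/-!
# INJ: ZET (the circle elements)
-/

namespace INJ

open Matrix

noncomputable section

lemma ZET_pos (n : ℕ) : 0 < N n := by unfold N; positivity

lemma ZET_div {m n : ℕ} (h : N m ∣ N n) : zeta n ^ (N n / N m) = zeta m := by
  have hn : (N n : ℝ) ≠ 0 := by exact_mod_cast (ZET_pos n).ne'
  have hm : (N m : ℝ) ≠ 0 := by exact_mod_cast (ZET_pos m).ne'
  unfold zeta
  rw [← Circle.exp_natCast_mul, Nat.cast_div h hm]
  congr 1
  field_simp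

lemma ZET_succ (i : ℕ) : N (i + 1) = N i * N i := by
  unfold N
  rw [← pow_add, pow_succ]
  congr 1
  ring

lemma ZET_dvd {i n : ℕ} (h : i ≤ n) : N i ∣ N n := by
  unfold N
  exact pow_dvd_pow 5 (Nat.pow_le_pow_right (by norm_num) h)

lemma ZET_zero : N 0 = 5 := by
  unfold N
  norm_num

theorem p_ZET : T_ZET := by
  refine ⟨?_, ?_, ?_, ZET_succ, ?_, ?_⟩
  · intro i
    have h := ZET_div (ZET_dvd (Nat.le_succ i))
    have e : N (i + 1) / N i = N i := by
      rw [ZET_succ, Nat.mul_div_cancel _ (ZET_pos i)]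
    rw [Nat.succ_eq_add_one, e] at h
    exact h
  · intro n
    have h := ZET_div (ZET_dvd (Nat.zero_le n))
    rw [ZET_zero] at h
    exact h
  · intro n d
    have hn : (N n : ℝ) ≠ 0 := by exact_mod_cast (ZET_pos n).ne'
    have hpi : Real.pi ≠ 0 := Real.pi_ne_zero
    unfold zeta
    rw [← Circle.exp_intCast_mul, Circle.exp_eq_one]
    constructor
    · rintro ⟨k, hk⟩
      refine ⟨k, ?_⟩
      have h1 : (d : ℝ) = N n * k := by
        field_simp at hk
        linarith
      exact_mod_cast h1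
    · rintro ⟨k, hk⟩
      refine ⟨k, ?_⟩
      rw [hk]
      push_cast
      field_simp
  · intro i
    have h := ZET_dvd (Nat.zero_le i)
    rwa [ZET_zero] at h
  · intro i n h
    exact ZET_div (ZET_dvd h)

end

end INJ
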