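import Pool.Agent.INJ.P_ACT
import Pool.Agent.INJ.P_APX
import Pool.Agent.INJ.P_ASM
import Pool.Agent.INJ.P_BAS
import Pool.Agent.INJ.P_BASE
import Pool.Agent.INJ.P_BQ
import Pool.Agent.INJ.P_BT
import Pool.Agent.INJ.P_CFI
import Pool.Agent.INJ.P_CG
import Pool.Agent.INJ.P_CLF
import Pool.Agent.INJ.P_CLI
import Pool.Agent.INJ.P_COV
import Pool.Agent.INJ.P_CUB
import Pool.Agent.INJ.P_DADD
import Pool.Agent.INJ.P_DCL
import Pool.Agent.INJ.P_DEC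
import Pool.Agent.INJ.P_DET
import Pool.Agent.INJ.P_EBC
import Pool.Agent.INJ.P_EPC
import Pool.Agent.INJ.P_EPI
import Pool.Agent.INJ.P_EPM
import Pool.Agent.INJ.P_EUL
import Pool.Agent.INJ.P_EV
import Pool.Agent.INJ.P_FAB
import Pool.Agent.INJ.P_FAC
import Pool.Agent.INJ.P_FCA
import Pool.Agent.INJ.P_FCM
import Pool.Agent.INJ.P_FCR
import Pool.Agent.INJ.P_FIB
import Pool.Agent.INJ.P_FROB
import Pool.Agent.INJ.P_GAC
import Pool.Agent.INJ.P_GAM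
import Pool.Agent.INJ.P_GFX
import Pool.Agent.INJ.P_GG
import Pool.Agent.INJ.P_GHF
import Pool.Agent.INJ.P_GI
import Pool.Agent.INJ.P_GSM
import Pool.Agent.INJ.P_GSX
import Pool.Agent.INJ.P_HM
import Pool.Agent.INJ.P_HOM
import Pool.Agent.INJ.P_HUR
import Pool.Agent.INJ.P_IND
import Pool.Agent.INJ.P_INY
import Pool.Agent.INJ.P_KAP
import Pool.Agent.INJ.P_LA
import Pool.Agent.INJ.P_LAM
import Pool.Agent.INJ.P_LF1
import Pool.Agent.INJ.P_LF2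
import Pool.Agent.INJ.P_LFP
import Pool.Agent.INJ.P_LG
import Pool.Agent.INJ.P_LGI
import Pool.Agent.INJ.P_LIM
import Pool.Agent.INJ.P_LIN
import Pool.Agent.INJ.P_LVL
import Pool.Agent.INJ.P_M5
import Pool.Agent.INJ.P_MH
import Pool.Agent.INJ.P_MQ
import Pool.Agent.INJ.P_MRP
import Pool.Agent.INJ.P_MU0
import Pool.Agent.INJ.P_MUN
import Pool.Agent.INJ.P_MUZ
import Pool.Agent.INJ.P_NEAR
import Pool.Agent.INJ.P_NOS
import Pool.Agent.INJ.P_OC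
import Pool.Agent.INJ.P_OD
import Pool.Agent.INJ.P_OLC
import Pool.Agent.INJ.P_ONT
import Pool.Agent.INJ.P_OQ
import Pool.Agent.INJ.P_PEA
import Pool.Agent.INJ.P_PEN
import Pool.Agent.INJ.P_PEQ
import Pool.Agent.INJ.P_PER
import Pool.Agent.INJ.P_PERT
import Pool.Agent.INJ.P_PLC
import Pool.Agent.INJ.P_PM
import Pool.Agent.INJ.P_POL
import Pool.Agent.INJ.P_QSH
import Pool.Agent.INJ.P_REP
import Pool.Agent.INJ.P_RES
import Pool.Agent.INJ.P_RIX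
import Pool.Agent.INJ.P_ROT
import Pool.Agent.INJ.P_SCN
import Pool.Agent.INJ.P_SEQ
import Pool.Agent.INJ.P_SGM
import Pool.Agent.INJ.P_SJ
import Pool.Agent.INJ.P_SLC
import Pool.Agent.INJ.P_SMO
import Pool.Agent.INJ.P_SNOC
import Pool.Agent.INJ.P_SPH
import Pool.Agent.INJ.P_SRJ
import Pool.Agent.INJ.P_ST1
import Pool.Agent.INJ.P_ST2
import Pool.Agent.INJ.P_ST3
import Pool.Agent.INJ.P_STC
import Pool.Agent.INJ.P_STEP
import Pool.Agent.INJ.P_TENS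
import Pool.Agent.INJ.P_TEQ
import Pool.Agent.INJ.P_THK
import Pool.Agent.INJ.P_THT
import Pool.Agent.INJ.P_TIN
import Pool.Agent.INJ.P_TOP
import Pool.Agent.INJ.P_TS
import Pool.Agent.INJ.P_TSU
import Pool.Agent.INJ.P_TT1
import Pool.Agent.INJ.P_TT2
import Pool.Agent.INJ.P_TT3
import Pool.Agent.INJ.P_TT4
import Pool.Agent.INJ.P_TTF
import Pool.Agent.INJ.P_WIN
import Pool.Agent.INJ.P_WW
import Pool.Agent.INJ.P_XIV
import Pool.Agent.INJ.P_XQ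
import Pool.Agent.INJ.P_XYC
import Pool.Agent.INJ.P_Z12
import Pool.Agent.INJ.P_ZET
import Pool.Agent.INJ.P_KB
import Pool.Agent.INJ.Main

set_option autoImplicit false

/-!
# INJ: final assembly
-/

namespace INJ

theorem main_all : Main := by
  have hTHK : T_THK := p_THK
  have hTTF : T_TTF := p_TTF
  have hTT1 : T_TT1 := p_TT1 hTHK hTTF
  have hLA : T_LA := p_LA
  have hTS : T_TS := p_TS
  have hTT2 : T_TT2 := p_TT2 hTS hTHK hTTF
  have hTHT : T_THT := p_THT hLA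
  have hINY : T_INY := p_INY hTHK hTT1 hLA hTS hTT2 hTHT
  have hZ12 : T_Z12 := p_Z12
  have hBQ : T_BQ := p_BQ hZ12
  have hBT : T_BT := p_BT hZ12 hBQ
  have hKAP : T_KAP := p_KAP
  have hWIN : T_WIN := p_WIN
  have hLAM : T_LAM := p_LAM hKAP hWIN
  have hGG : T_GG := p_GG hKAP hLAM hBT
  have hMRP : T_MRP := p_MRP hKAP hINY hLAM hGG
  have hACT : T_ACT := p_ACT hINY hZ12 hBT hKAP hLAM hGG hMRP
  have hST3 : T_ST3 := p_ST3 hKAP hTHK hTT1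
  have hTT3 : T_TT3 := p_TT3 hTS hTHK hTTF
  have hTT4 : T_TT4 := p_TT4 hTS hTHK hTT1 hTT2
  have hXYC : T_XYC := p_XYC hTT3 hTT4 hKAP
  have hSTC : T_STC := p_STC hXYC
  have hST1 : T_ST1 := p_ST1 hTT4 hKAP
  have hSEQ : T_SEQ := p_SEQ hSTC hST1
  have hLIM : T_LIM := p_LIM hKAP hSTC hSEQ
  have hTEQ : T_TEQ := p_TEQ hST3 hLIM
  have hTIN : T_TIN := p_TIN hKAP hST1 hSEQ hLIM
  have hST2 : T_ST2 := p_ST2 hTT4 hKAP hSTC
  have hTSU : T_TSU := p_TSU hST1 hST2 hSTC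
  have hTOP : T_TOP := p_TOP hKAP hTHT hTEQ hLIM hTIN hTSU
  have hPER : T_PER := p_PER hINY hKAP
  have hGAM : T_GAM := p_GAM hGG hLAM hINY hKAP
  have hGAC : T_GAC := p_GAC hGG hLAM hINY hKAP
  have hDEC : T_DEC := p_DEC hPER hGAM hGAC
  have hCUB : T_CUB := p_CUB
  have hMH : T_MH := p_MH hTOP hDEC hCUB
  have hGHF : T_GHF := p_GHF
  have hGSM : T_GSM := p_GSM hMRP
  have hSJ : T_SJ := p_SJ hZ12 hBT hLAM hMRP
  have hGSX : T_GSX := p_GSX hSJ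
  have hREP : T_REP := p_REP hTS hINY hZ12 hBT hKAP hLAM hGG
  have hGFX : T_GFX := p_GFX
  have hPEA : T_PEA := p_PEA
  have hSRJ : T_SRJ := p_SRJ hPEA
  have hQSH : T_QSH := p_QSH
  have hONT : T_ONT := p_ONT hMH hREP hGFX hSRJ hQSH
  have hOQ : T_OQ := p_OQ
  have hOD : T_OD := p_OD
  have hOC : T_OC := p_OC hOD hOQ
  have hXIV : T_XIV := p_XIV
  have hEPM : T_EPM := p_EPM hXIV
  have hEBC : T_EBC := p_EBC hOQ hOC hEPM
  have hSCN : T_SCN := p_SCN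
  have hSLC : T_SLC := p_SLC
  have hPLC : T_PLC := p_PLC
  have hOLC : T_OLC := p_OLC
  have hBAS : T_BAS := p_BAS hOC hSCN hSLC hPLC hOLC
  have hRIX : T_RIX := p_RIX
  have hFAC : T_FAC := p_FAC hOQ hOC
  have hEPI : T_EPI := p_EPI hOQ hOC hFAC
  have hFIB : T_FIB := p_FIB hOD hOQ hEPI
  have hHM : T_HM := p_HM hOD hFIB
  have hXQ : T_XQ := p_XQ hOC
  have hHUR : T_HUR := p_HUR hOQ hOC hEPI hFIB hHM hXQ
  have hCOV : T_COV := p_COV hOQ hOC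
  have hCLI : T_CLI := p_CLI
  have hCFI : T_CFI := p_CFI
  have hCG : T_CG := p_CG
  have hGI : T_GI := p_GI hCFI
  have hLF1 : T_LF1 := p_LF1 hOQ hCG hGI
  have hLF2 : T_LF2 := p_LF2 hOQ hOC hCG hGI
  have hLFP : T_LFP := p_LFP hOQ hOC hFAC hCOV hCLI hCFI hLF1 hLF2
  have hFAB : T_FAB := p_FAB hOC hEPI hFIB hHUR hLFP
  have hCLF : T_CLF := p_CLF
  have hEVp : T_EV' := p_EV hCLF hXIV hEBC hFAC
  have hASM : T_ASM := p_ASM hFAB hEVp hFAC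
  have hSNOC : T_SNOC := p_SNOC
  have hDADD : T_DADD := p_DADD
  have hSPH : T_SPH := p_SPH
  have hLIN : T_LIN := p_LIN
  have hFCA : T_FCA := p_FCA
  have hFCM : T_FCM := p_FCM
  have hFCR : T_FCR := p_FCR
  have hPM : T_PM := p_PM hFCA hFCR hFCM
  have hPEQ : T_PEQ := p_PEQ
  have hPEN : T_PEN := p_PEN hFCA hFCM hPM hPEQ
  have hTENS : T_TENS := p_TENS
  have hPOL : T_POL := p_POL hLIN hPEN hTENS hFCA hFCM
  have hSMO : T_SMO := p_SMO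
  have hDET : T_DET := p_DET
  have hIND : T_IND := p_IND hPOL hSMO hDET hFCA hFCM
  have hNEAR : T_NEAR := p_NEAR
  have hHOM : T_HOM := p_HOM hNEAR
  have hLG : T_LG := p_LG hSPH hIND hHOM hTENS
  have hLGI : T_LGI := p_LGI hLG
  have hMU0 : T_MU0 := p_MU0
  have hMQ : T_MQ := p_MQ
  have hWW : T_WW := p_WW
  have hROT : T_ROT := p_ROT hHOM hMQ
  have hM5 : T_M5 := p_M5 hHOM hMQ hWW hTENS hROT
  have hFROB : T_FROB := p_FROB
  have hRES : T_RES := p_RES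
  have hZET : T_ZET := p_ZET
  have hSGM : T_SGM := p_SGM
  have hNOS : T_NOS := p_NOS
  have hMUN : T_MUN := p_MUN hNOS
  have hBASE : T_BASE := p_BASE hSNOC hDADD hLGI hMU0 hM5 hFROB hRES hZET hSGM hMUN
  have hDCL : T_DCL := p_DCL
  have hEUL : T_EUL := p_EUL hCLF hDCL hTENS
  have hSTEP : T_STEP := p_STEP hDADD hFROB hLGI hEUL hM5 hRES hMU0 hZET hSGM hSNOC
  have hMUZ : T_MUZ := p_MUZ
  have hAPX : T_APX := p_APX
  have hPERT : T_PERT := p_PERT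
  have hEPC : T_EPC := p_EPC hXIV hTENS hDCL
  have hLVL : T_LVL := p_LVL hAPX hPERT hEPC hZET hEPM
  have hKFIN : T_KFIN := kfin hBASE hSTEP hMUZ hLVL
  have hKB : T_KB := p_KB hKFIN hEBC hZET hOC hOQ
  exact main hACT hMH hGHF hGSM hGSX hONT hEBC hKB hBAS hRIX hASM

end INJ
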