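import Pool.Agent.INJ.CDefs
import Pool.Agent.INJ.K2Targets

set_option autoImplicit false

/-!
# INJ, part C: targets (statements only; proofs in `CBlueprint.md`)
-/

namespace INJ

open Matrix

/-- Newton iteration: near idempotent matrices can be corrected continuously -/
def T_CNW : Prop := ∀ (ι : Type) [Fintype ι] [DecidableEq ι] (C η : ℝ), 0 < η → ∃ δ > 0,
  ∃ r : Matrix ι ι ℂ → Matrix ι ι ℂ,
  ContinuousOn r {g | ∃ e : Matrix ι ι ℂ, e * e = e ∧ (∀ i j, ‖e i j‖ ≤ C) ∧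
    ∀ i j, ‖g i j - e i j‖ < δ} ∧
  ∀ g e : Matrix ι ι ℂ, e * e = e → (∀ i j, ‖e i j‖ ≤ C) → (∀ i j, ‖g i j - e i j‖ < δ) →
    r g * r g = r g ∧ ∀ i j, ‖r g i j - e i j‖ < η

/-- close idempotents have the same class -/
def T_CNE : Prop := ∀ (ι : Type) [Fintype ι] [DecidableEq ι] (C : ℝ), ∃ η > 0,
  ∀ (X : Type) [TopologicalSpace X] (e f : X → Matrix ι ι ℂ), Continuous e → Continuous f →
  (∀ x, e x * e x = e x) → (∀ x, f x * f x = f x) → (∀ x i j, ‖e x i j‖ ≤ C) →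
  (∀ x i j, ‖e x i j - f x i j‖ < η) → K0Eq e f

/-- `K0Eq` is symmetric, transitive and compatible with pull back -/
def T_CTR : Prop := ∀ (X ι κ μ : Type) [TopologicalSpace X] [Fintype ι] [Fintype κ] [Fintype μ]
  (e : X → Matrix ι ι ℂ) (f : X → Matrix κ κ ℂ) (g : X → Matrix μ μ ℂ),
  (∀ x, e x * e x = e x) → (∀ x, f x * f x = f x) → (∀ x, g x * g x = g x) →
  (K0Eq e f → K0Eq f e) ∧ (K0Eq e f → K0Eq f g → K0Eq e g) ∧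
  ∀ (Y : Type) [TopologicalSpace Y] (h : Y → X), Continuous h → K0Eq e f →
    K0Eq (fun y => e (h y)) (fun y => f (h y))

/-- fine covers with base points -/
def T_CFN : Prop := ∀ (X T : Type) [MetricSpace X] [CompactSpace X] [MetricSpace T] (F : X → T),
  Continuous F → ∀ (n : ℕ) (U : Fin n → Set X), IsCov U → ∀ δ > 0,
  ∃ (m : ℕ) (W : Fin m → Set X) (w : Fin m → X) (ρ : Fin m → Fin n), IsCov W ∧
    (∀ i, w i ∈ W i) ∧ (∀ i, W i ⊆ U (ρ i)) ∧ ∀ i, ∀ x ∈ W i, dist (F x) (F (w i)) < δ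

/-- averages over the nerve -/
def T_CAV : Prop := ∀ (X : Type) (m : ℕ) (W : Fin m → Set X) (w : Fin m → X) (F : X → ℂ) (δ : ℝ),
  (∀ i, ∀ x ∈ W i, ‖F x - F (w i)‖ < δ) → ∀ z ∈ Nerve W, ∀ b, (∀ i, z i ≠ 0 → b ∈ W i) →
  ‖(∑ i, (z i : ℂ) * F (w i)) - F b‖ < δ

/-- partitions of unity -/
def T_CPU : Prop := ∀ (X : Type) [MetricSpace X] [CompactSpace X] (m : ℕ) (V : Fin m → Set X),
  IsCov V → ∃ φ : X → Fin m → ℝ, Continuous φ ∧ (∀ b, φ b ∈ Nerve V) ∧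
    ∀ b i, φ b i ≠ 0 → b ∈ V i

/-- simplicial maps -/
def T_CPS : Prop := ∀ (m n : ℕ) (ρ : Fin m → Fin n), Continuous (pushN ρ) ∧
  (∀ x : Fin m → ℝ, (∀ i, 0 ≤ x i) → ∀ j, pushN ρ x j ≠ 0 → ∃ i, ρ i = j ∧ x i ≠ 0) ∧
  ∀ (E B : Type) (p : E → B) (W : Fin m → Set E) (U : Fin n → Set B),
    (∀ i, W i ⊆ p ⁻¹' U (ρ i)) → ∀ x ∈ Nerve W, pushN ρ x ∈ Nerve U

/-- idempotents on the nerve -/
def T_CCV : Prop := ∀ (ι : Type) [Fintype ι] [DecidableEq ι] (C η : ℝ), 0 < η → ∃ δ > 0,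
  ∀ (X : Type) (m : ℕ) (W : Fin m → Set X) (w : Fin m → X) (e : X → Matrix ι ι ℂ),
  (∀ x, e x * e x = e x) → (∀ x i j, ‖e x i j‖ ≤ C) →
  (∀ i, ∀ x ∈ W i, ∀ s t, ‖e x s t - e (w i) s t‖ < δ) →
  ∃ a : (Fin m → ℝ) → Matrix ι ι ℂ, ContinuousOn a (Nerve W) ∧
    (∀ z ∈ Nerve W, a z * a z = a z) ∧
    ∀ z ∈ Nerve W, ∀ b, (∀ i, z i ≠ 0 → b ∈ W i) → ∀ s t, ‖a z s t - e b s t‖ < η

/-- approximate equivalence implies equality of classes -/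
def T_CPE : Prop := ∀ (ι κ : Type) [Fintype ι] [Fintype κ] [DecidableEq ι] [DecidableEq κ]
  (k : ℕ) (C : ℝ), ∃ δ > 0, ∀ (X : Type) [TopologicalSpace X] (e : X → Matrix ι ι ℂ)
  (f : X → Matrix κ κ ℂ) (x : X → Matrix (ι ⊕ Fin k) (κ ⊕ Fin k) ℂ)
  (y : X → Matrix (κ ⊕ Fin k) (ι ⊕ Fin k) ℂ), Continuous e → Continuous f → Continuous x →
  Continuous y → (∀ b, e b * e b = e b) → (∀ b, f b * f b = f b) →
  (∀ b i j, ‖e b i j‖ ≤ C) → (∀ b i j, ‖f b i j‖ ≤ C) → (∀ b i j, ‖x b i j‖ ≤ C) →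
  (∀ b i j, ‖y b i j‖ ≤ C) →
  (∀ b i j, ‖(x b * y b) i j - Matrix.fromBlocks (e b) 0 0 1 i j‖ < δ) →
  (∀ b i j, ‖(y b * x b) i j - Matrix.fromBlocks (f b) 0 0 1 i j‖ < δ) → K0Eq e f

/-- non-vanishing over all refinements -/
def T_CNV : Prop := ∀ (ι : Type) [Fintype ι] [DecidableEq ι] (C : ℝ), ∃ η > 0,
  ∀ (B : Type) [MetricSpace B] [CompactSpace B] (e e' : B → Matrix ι ι ℂ), Continuous e →
  Continuous e' → (∀ b, e b * e b = e b) → (∀ b, e' b * e' b = e' b) →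
  (∀ b i j, ‖e b i j‖ ≤ C) → (∀ b i j, ‖e' b i j‖ ≤ C) → ¬ K0Eq e e' →
  ∀ (n : ℕ) (U : Fin n → Set B) (a a' : (Fin n → ℝ) → Matrix ι ι ℂ), IsCov U →
  ContinuousOn a (Nerve U) → ContinuousOn a' (Nerve U) →
  (∀ x ∈ Nerve U, a x * a x = a x) → (∀ x ∈ Nerve U, a' x * a' x = a' x) →
  (∀ x ∈ Nerve U, ∀ b, (∀ i, x i ≠ 0 → b ∈ U i) → ∀ s t, ‖a x s t - e b s t‖ < η) →
  (∀ x ∈ Nerve U, ∀ b, (∀ i, x i ≠ 0 → b ∈ U i) → ∀ s t, ‖a' x s t - e' b s t‖ < η) →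
  ∀ (m : ℕ) (V : Fin m → Set B) (ρ : Fin m → Fin n), IsCov V → (∀ i, V i ⊆ U (ρ i)) →
  ¬ K0Eq (fun x : Nerve V => a (pushN ρ x.1)) (fun x : Nerve V => a' (pushN ρ x.1))

/-- vanishing over some refinement of the pulled back cover -/
def T_CVN : Prop := ∀ (ι : Type) [Fintype ι] [DecidableEq ι] (C : ℝ), ∃ η > 0,
  ∀ (B : Type) [MetricSpace B] [CompactSpace B] (e e' : B → Matrix ι ι ℂ), Continuous e →
  Continuous e' → (∀ b, e b * e b = e b) → (∀ b, e' b * e' b = e' b) →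
  (∀ b i j, ‖e b i j‖ ≤ C) → (∀ b i j, ‖e' b i j‖ ≤ C) →
  ∀ (n : ℕ) (U : Fin n → Set B) (a a' : (Fin n → ℝ) → Matrix ι ι ℂ), IsCov U →
  ContinuousOn a (Nerve U) → ContinuousOn a' (Nerve U) →
  (∀ x ∈ Nerve U, a x * a x = a x) → (∀ x ∈ Nerve U, a' x * a' x = a' x) →
  (∀ x ∈ Nerve U, ∀ b, (∀ i, x i ≠ 0 → b ∈ U i) → ∀ s t, ‖a x s t - e b s t‖ < η) →
  (∀ x ∈ Nerve U, ∀ b, (∀ i, x i ≠ 0 → b ∈ U i) → ∀ s t, ‖a' x s t - e' b s t‖ < η) →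
  ∀ (E : Type) [MetricSpace E] [CompactSpace E] (p : E → B), Continuous p →
  K0Eq (fun x => e (p x)) (fun x => e' (p x)) →
  ∃ (m : ℕ) (W : Fin m → Set E) (ρ : Fin m → Fin n), IsCov W ∧ (∀ i, W i ⊆ p ⁻¹' U (ρ i)) ∧
    K0Eq (fun x : Nerve W => a (pushN ρ x.1)) (fun x : Nerve W => a' (pushN ρ x.1))

/-- the Cech version of the two statements -/
def T_CEC : Prop := ∀ (B : Type) [MetricSpace B] [CompactSpace B] (d : ℕ)
  (e e' : B → Matrix (Fin d) (Fin d) ℂ), Continuous e →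
  Continuous e' → (∀ b, e b * e b = e b) → (∀ b, e' b * e' b = e' b) → ¬ K0Eq e e' →
  ∃ (n : ℕ) (U : Fin n → Set B) (a a' : (Fin n → ℝ) → Matrix (Fin d) (Fin d) ℂ), IsCov U ∧
    ContinuousOn a (Nerve U) ∧ ContinuousOn a' (Nerve U) ∧
    (∀ x ∈ Nerve U, a x * a x = a x) ∧ (∀ x ∈ Nerve U, a' x * a' x = a' x) ∧
    (∀ (m : ℕ) (V : Fin m → Set B) (ρ : Fin m → Fin n), IsCov V → (∀ i, V i ⊆ U (ρ i)) →
      ¬ K0Eq (fun x : Nerve V => a (pushN ρ x.1)) (fun x : Nerve V => a' (pushN ρ x.1))) ∧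
    ∀ (E : Type) [MetricSpace E] [CompactSpace E] (p : E → B), Continuous p →
      K0Eq (fun x => e (p x)) (fun x => e' (p x)) →
      ∃ (m : ℕ) (W : Fin m → Set E) (ρ : Fin m → Fin n), IsCov W ∧
        (∀ i, W i ⊆ p ⁻¹' U (ρ i)) ∧
        K0Eq (fun x : Nerve W => a (pushN ρ x.1)) (fun x : Nerve W => a' (pushN ρ x.1))

end INJ
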