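import Pool.Agent.INJ.Main
import Pool.Agent.INJ.CTargets

set_option autoImplicit false

/-!
# INJ: the final statement with the Cech extension of K-theory
-/

namespace INJ

/-- final statement, Cech version -/
def MainC : Prop :=
  ∃ (M : Type) (_ : MetricSpace M) (B : Type) (_ : MetricSpace B) (d n : ℕ)
    (U : Fin n → Set B) (a a' : (Fin n → ℝ) → Matrix (Fin d) (Fin d) ℂ),
    Nonempty (M ≃ₜ Circle × (ℕ → unitInterval)) ∧
    CompactSpace B ∧ ConnectedSpace B ∧ LocallyConnectedSpace B ∧ IsCov U ∧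
    ContinuousOn a (Nerve U) ∧ ContinuousOn a' (Nerve U) ∧
    (∀ x ∈ Nerve U, a x * a x = a x) ∧ (∀ x ∈ Nerve U, a' x * a' x = a' x) ∧
    (∀ (m : ℕ) (V : Fin m → Set B) (ρ : Fin m → Fin n), IsCov V → (∀ i, V i ⊆ U (ρ i)) →
      ¬ K0Eq (fun x : Nerve V => a (pushN ρ x.1)) (fun x : Nerve V => a' (pushN ρ x.1))) ∧
    ∀ ε : ℝ, 0 < ε → ∃ (E : Type) (_ : MetricSpace E) (p : E → B) (f : E → M × B),
      CompactSpace E ∧ Continuous p ∧ IsHurewicz p ∧ Continuous f ∧ (∀ x, (f x).2 = p x) ∧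
      (∀ b, ∃ i : M → E, Isometry i ∧ Set.range i = p ⁻¹' {b} ∧ ∀ m, dist (f (i m)).1 m < ε) ∧
      Function.Surjective f ∧ (∀ z, Metric.diam (f ⁻¹' {z}) < ε) ∧
      ∃ (m : ℕ) (W : Fin m → Set E) (ρ : Fin m → Fin n), IsCov W ∧
        (∀ i, ∀ x ∈ W i, (f x).2 ∈ U (ρ i)) ∧
        K0Eq (fun x : Nerve W => a (pushN ρ x.1)) (fun x : Nerve W => a' (pushN ρ x.1))

theorem mainC (h : Main) (hC : T_CEC) : MainC := by
  obtain ⟨M, iM, B, iB, d, e, e', hM, c1, c2, c3, he, he', ie, ie', hne, hε⟩ := h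
  have c1' : CompactSpace B := c1
  obtain ⟨n, U, a, a', hU, ha, ha', ia, ia', hV, hE⟩ := hC B d e e' he he' ie ie' hne
  refine ⟨M, iM, B, iB, d, n, U, a, a', hM, c1, c2, c3, hU, ha, ha', ia, ia', hV,
    fun ε hε0 => ?_⟩
  obtain ⟨E, iE, p, f, d1, d2, d3, d4, d5, d6, d7, d8, d9⟩ := hε ε hε0
  have d1' : CompactSpace E := d1
  obtain ⟨m, W, ρ, hW, hWU, hK⟩ := hE E p d2 d9
  refine ⟨E, iE, p, f, d1, d2, d3, d4, d5, d6, d7, d8, m, W, ρ, hW, fun i x hx => ?_, hK⟩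
  rw [d5]
  exact hWU i hx

end INJ
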