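import Pool.Agent.INJ.CTargets

set_option autoImplicit false

/-!
# INJ, part C: idempotents on the nerve
-/

namespace INJ

open Matrix

/-- the average of the values at the base points -/
def CCV_g {ι X : Type} {m : ℕ} (w : Fin m → X) (e : X → Matrix ι ι ℂ)
    (z : Fin m → ℝ) : Matrix ι ι ℂ :=
  fun s t => ∑ i, (z i : ℂ) * e (w i) s t

theorem CCV_cont {ι X : Type} {m : ℕ} (w : Fin m → X) (e : X → Matrix ι ι ℂ) :
    Continuous (CCV_g w e) := by
  unfold CCV_g
  refine continuous_matrix fun s t => ?_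
  refine continuous_finsetSum _ fun i _ => ?_
  exact (Complex.continuous_ofReal.comp (continuous_apply i)).mul continuous_const

theorem CCV_close (hAV : T_CAV) {ι X : Type} {m : ℕ} {W : Fin m → Set X} {w : Fin m → X}
    {e : X → Matrix ι ι ℂ} {δ : ℝ}
    (h : ∀ i, ∀ x ∈ W i, ∀ s t, ‖e x s t - e (w i) s t‖ < δ)
    {z : Fin m → ℝ} (hz : z ∈ Nerve W) {b : X} (hb : ∀ i, z i ≠ 0 → b ∈ W i) (s t : ι) :
    ‖CCV_g w e z s t - e b s t‖ < δ :=
  hAV X m W w (fun x => e x s t) δ (fun i x hx => h i x hx s t) z hz b hb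

theorem p_CCV (hNW : T_CNW) (hAV : T_CAV) : T_CCV := by
  intro ι _ _ C η hη
  obtain ⟨δ, hδ, r, hrc, hr⟩ := hNW ι C η hη
  refine ⟨δ, hδ, ?_⟩
  intro X m W w e hid hC hcl
  refine ⟨fun z => r (CCV_g w e z), ?_, ?_, ?_⟩
  · refine ContinuousOn.comp hrc (CCV_cont w e).continuousOn ?_
    intro z hz
    obtain ⟨b, hb⟩ := hz.2.2
    exact ⟨e b, hid b, hC b, fun i j => CCV_close hAV hcl hz hb i j⟩
  · intro z hz
    obtain ⟨b, hb⟩ := hz.2.2
    exact (hr (CCV_g w e z) (e b) (hid b) (hC b)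
      (fun i j => CCV_close hAV hcl hz hb i j)).1
  · intro z hz b hb s t
    exact (hr (CCV_g w e z) (e b) (hid b) (hC b)
      (fun i j => CCV_close hAV hcl hz hb i j)).2 s t

end INJ
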