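import Pool.Agent.INJ.CTargets

set_option autoImplicit false

/-!
# INJ, part C: target CEC
-/

namespace INJ

open Matrix

/-- the entries of a continuous matrix valued function on a compact space are bounded -/
lemma CEC_bound (B : Type) [MetricSpace B] [CompactSpace B] (d : ℕ)
    (e : B → Matrix (Fin d) (Fin d) ℂ) (he : Continuous e) :
    ∃ C : ℝ, ∀ b i j, ‖e b i j‖ ≤ C := by
  have h : ∀ i j, ∃ C : ℝ, ∀ b, ‖e b i j‖ ≤ C := by
    intro i j
    have hc : Continuous fun b => e b i j := he.matrix_elem i j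
    obtain ⟨C, hC⟩ := isCompact_univ.exists_bound_of_continuousOn (f := fun b => e b i j)
      hc.continuousOn
    exact ⟨C, fun b => hC b (Set.mem_univ b)⟩
  choose C hC using h
  refine ⟨∑ i, ∑ j, |C i j|, fun b i j => ?_⟩
  calc ‖e b i j‖ ≤ C i j := hC i j b
    _ ≤ |C i j| := le_abs_self _
    _ ≤ ∑ j, |C i j| :=
        Finset.single_le_sum (f := fun j => |C i j|) (fun _ _ => abs_nonneg _) (Finset.mem_univ j)
    _ ≤ ∑ i, ∑ j, |C i j| :=
        Finset.single_le_sum (f := fun i => ∑ j, |C i j|)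
          (fun _ _ => Finset.sum_nonneg fun _ _ => abs_nonneg _) (Finset.mem_univ i)

theorem p_CEC (hNV : T_CNV) (hVN : T_CVN) (hCV : T_CCV) (hFN : T_CFN) : T_CEC := by
  intro B _ _ d e e' he he' hi hi' hne
  obtain ⟨C1, hC1⟩ := CEC_bound B d e he
  obtain ⟨C2, hC2⟩ := CEC_bound B d e' he'
  obtain ⟨C, hC, hC'⟩ : ∃ C : ℝ, (∀ b i j, ‖e b i j‖ ≤ C) ∧ (∀ b i j, ‖e' b i j‖ ≤ C) :=
    ⟨max C1 C2, fun b i j => (hC1 b i j).trans (le_max_left _ _),
      fun b i j => (hC2 b i j).trans (le_max_right _ _)⟩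
  obtain ⟨η1, hη1, H1⟩ := hNV (Fin d) C
  obtain ⟨η2, hη2, H2⟩ := hVN (Fin d) C
  obtain ⟨δ, hδ, H3⟩ := hCV (Fin d) C (min η1 η2) (lt_min hη1 hη2)
  let F : B → (Fin d → Fin d → ℂ) × (Fin d → Fin d → ℂ) :=
    fun b => (fun s t => e b s t, fun s t => e' b s t)
  have hF : Continuous F := by
    refine Continuous.prodMk ?_ ?_
    · exact continuous_pi fun s => continuous_pi fun t => he.matrix_elem s t
    · exact continuous_pi fun s => continuous_pi fun t => he'.matrix_elem s t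
  obtain ⟨m, W, w, ρ, hW, -, -, hd⟩ := hFN B _ F hF 1 (fun _ => Set.univ)
    ⟨fun _ => isOpen_univ, fun _ => ⟨0, Set.mem_univ _⟩⟩ δ hδ
  have hd1 : ∀ i, ∀ x ∈ W i, ∀ s t, ‖e x s t - e (w i) s t‖ < δ := by
    intro i x hx s t
    have h := hd i x hx
    rw [Prod.dist_eq, max_lt_iff] at h
    have h1 := (dist_pi_lt_iff hδ).mp h.1 s
    have h2 := (dist_pi_lt_iff hδ).mp h1 t
    rwa [dist_eq_norm] at h2
  have hd2 : ∀ i, ∀ x ∈ W i, ∀ s t, ‖e' x s t - e' (w i) s t‖ < δ := by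
    intro i x hx s t
    have h := hd i x hx
    rw [Prod.dist_eq, max_lt_iff] at h
    have h1 := (dist_pi_lt_iff hδ).mp h.2 s
    have h2 := (dist_pi_lt_iff hδ).mp h1 t
    rwa [dist_eq_norm] at h2
  obtain ⟨a, ha1, ha2, ha3⟩ := H3 B m W w e hi hC hd1
  obtain ⟨a', ha1', ha2', ha3'⟩ := H3 B m W w e' hi' hC' hd2
  refine ⟨m, W, a, a', hW, ha1, ha1', ha2, ha2', ?_, ?_⟩
  · exact H1 B e e' he he' hi hi' hC hC' hne m W a a' hW ha1 ha1' ha2 ha2'
      (fun x hx b hb s t => (ha3 x hx b hb s t).trans_le (min_le_left _ _))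
      (fun x hx b hb s t => (ha3' x hx b hb s t).trans_le (min_le_left _ _))
  · exact H2 B e e' he he' hi hi' hC hC' m W a a' hW ha1 ha1' ha2 ha2'
      (fun x hx b hb s t => (ha3 x hx b hb s t).trans_le (min_le_right _ _))
      (fun x hx b hb s t => (ha3' x hx b hb s t).trans_le (min_le_right _ _))

end INJ
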