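import Pool.Agent.INJ.CTargets

set_option autoImplicit false

/-!
# INJ, part C: fine covers with base points (CFN)
-/

namespace INJ

theorem p_CFN : T_CFN := by
  classical
  intro X T _ _ _ F hF n U hU δ hδ
  choose c hc using hU.2
  let V : X → Set X := fun x => U (c x) ∩ F ⁻¹' Metric.ball (F x) δ
  have hV : ∀ x, IsOpen (V x) := fun x =>
    (hU.1 (c x)).inter (Metric.isOpen_ball.preimage hF)
  have hxV : ∀ x, x ∈ V x := fun x => ⟨hc x, Metric.mem_ball_self hδ⟩
  obtain ⟨t, ht⟩ := isCompact_univ.elim_finite_subcover V hV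
    (fun x _ => Set.mem_iUnion.2 ⟨x, hxV x⟩)
  let e := t.equivFin
  refine ⟨t.card, fun i => V (e.symm i).1, fun i => (e.symm i).1, fun i => c (e.symm i).1,
    ⟨fun i => hV _, ?_⟩, fun i => hxV _, fun i => Set.inter_subset_left, ?_⟩
  · intro b
    obtain ⟨x, hx, hb⟩ := Set.mem_iUnion₂.1 (ht (Set.mem_univ b))
    refine ⟨e ⟨x, hx⟩, ?_⟩
    simp only [Equiv.symm_apply_apply]
    exact hb
  · intro i x hx
    exact hx.2

end INJ
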