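import Pool.Agent.INJ.CTargets
import Pool.Agent.INJ.P_NEAR
import Pool.Agent.INJ.P_DET

set_option autoImplicit false

/-!
# INJ, part C: close idempotents have the same class
-/

namespace INJ

open Matrix

noncomputable section

lemma CNE_entry {ι : Type} [Fintype ι] [DecidableEq ι] (C η : ℝ) (e f : Matrix ι ι ℂ)
    (hC : ∀ i j, ‖e i j‖ ≤ C) (hη : ∀ i j, ‖e i j - f i j‖ < η) (i j : ι) :
    ‖((2 • e - 1) * (e - f) : Matrix ι ι ℂ) i j‖ ≤ (Fintype.card ι : ℝ) * ((2 * C + 1) * η) := by
  rw [Matrix.mul_apply]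
  refine (norm_sum_le _ _).trans ?_
  have h1 : ∀ k ∈ (Finset.univ : Finset ι),
      ‖(2 • e - 1 : Matrix ι ι ℂ) i k * (e - f) k j‖ ≤ (2 * C + 1) * η := by
    intro k _
    have hC0 : 0 ≤ C := (norm_nonneg _).trans (hC i k)
    rw [norm_mul]
    have h2 : ‖(2 • e - 1 : Matrix ι ι ℂ) i k‖ ≤ 2 * C + 1 := by
      have h3 : (2 • e - 1 : Matrix ι ι ℂ) i k = 2 * e i k - (1 : Matrix ι ι ℂ) i k := by
        rw [Matrix.sub_apply, two_nsmul, Matrix.add_apply, two_mul]
      rw [h3]
      refine (norm_sub_le _ _).trans ?_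
      have h4 : ‖(2 : ℂ) * e i k‖ ≤ 2 * C := by
        rw [norm_mul]
        have h5 : ‖(2 : ℂ)‖ = 2 := by simp
        rw [h5]
        exact mul_le_mul_of_nonneg_left (hC i k) (by norm_num)
      have h6 : ‖(1 : Matrix ι ι ℂ) i k‖ ≤ 1 := by
        rw [Matrix.one_apply]
        split_ifs
        · simp
        · simp
      exact add_le_add h4 h6
    have h7 : ‖(e - f) k j‖ ≤ η := by
      rw [Matrix.sub_apply]
      exact (hη k j).le
    exact mul_le_mul h2 h7 (norm_nonneg _) (by linarith)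
  refine (Finset.sum_le_sum h1).trans ?_
  rw [Finset.sum_const, nsmul_eq_mul, Finset.card_univ]

theorem p_CNE : T_CNE := by
  intro ι _ _ C
  obtain ⟨ε, hε, hdet⟩ := p_DET ι
  have hM : 0 < (Fintype.card ι : ℝ) * (2 * |C| + 1) + 1 := by
    have h1 : 0 ≤ |C| := abs_nonneg C
    have h2 : (0 : ℝ) ≤ Fintype.card ι := Nat.cast_nonneg _
    have h3 := mul_nonneg h2 (show 0 ≤ 2 * |C| + 1 by linarith)
    linarith
  refine ⟨ε / ((Fintype.card ι : ℝ) * (2 * |C| + 1) + 1), div_pos hε hM, ?_⟩
  intro X _ e f he hf hee hff hC hη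
  obtain ⟨z, hz⟩ : ∃ z : X → Matrix ι ι ℂ,
      z = fun y => e y * f y + (1 - e y) * (1 - f y) := ⟨_, rfl⟩
  have hzd : ∀ y, (z y).det ≠ 0 := by
    intro y
    have h1 : z y = 1 - (2 • e y - 1) * (e y - f y) := by
      rw [hz]
      dsimp only
      have h2 := hee y
      have h3 : (2 • e y - 1) * (e y - f y) = 2 • (e y * e y) - 2 • (e y * f y) - e y + f y := by
        rw [sub_mul, mul_sub, smul_mul_assoc, smul_mul_assoc, one_mul]
        abel
      rw [h3, h2, sub_mul, one_mul, mul_sub, mul_one]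
      abel
    rw [h1]
    refine hdet _ fun i j => ?_
    have h4 := CNE_entry |C| _ (e y) (f y) (fun i j => (hC y i j).trans (le_abs_self C))
      (fun i j => hη y i j) i j
    refine h4.trans_lt ?_
    have h5 : (Fintype.card ι : ℝ) * ((2 * |C| + 1) *
        (ε / ((Fintype.card ι : ℝ) * (2 * |C| + 1) + 1))) =
        ε * (((Fintype.card ι : ℝ) * (2 * |C| + 1)) /
          ((Fintype.card ι : ℝ) * (2 * |C| + 1) + 1)) := by
      ring
    rw [h5]
    have h6 : ((Fintype.card ι : ℝ) * (2 * |C| + 1)) /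
          ((Fintype.card ι : ℝ) * (2 * |C| + 1) + 1) < 1 := by
      rw [div_lt_one hM]
      linarith
    calc ε * _ < ε * 1 := mul_lt_mul_of_pos_left h6 hε
      _ = ε := mul_one ε
  have hzc : Continuous z := by
    rw [hz]
    exact (he.matrix_mul hf).add
      ((continuous_const.sub he).matrix_mul (continuous_const.sub hf))
  have hez : ∀ y, e y * z y = z y * f y := by
    intro y
    have h1 := hee y
    have h2 := hff y
    rw [hz]
    dsimp only
    have e1 : e y * (e y * f y + (1 - e y) * (1 - f y)) = e y * f y := by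
      have h3 : e y * (1 - e y) = 0 := by rw [mul_sub, mul_one, h1, sub_self]
      rw [mul_add, ← mul_assoc, ← mul_assoc, h1, h3, zero_mul, add_zero]
    have e2 : (e y * f y + (1 - e y) * (1 - f y)) * f y = e y * f y := by
      have h3 : (1 - f y) * f y = 0 := by rw [sub_mul, one_mul, h2, sub_self]
      rw [add_mul, mul_assoc, h2, mul_assoc, h3, mul_zero, add_zero]
    rw [e1, e2]
  have hzi : Continuous fun y => (z y)⁻¹ := NEAR_cinv hzc hzd
  refine ⟨0, fun y => Matrix.fromBlocks (e y * z y) 0 0 1,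
    fun y => Matrix.fromBlocks ((z y)⁻¹ * e y) 0 0 1, ?_, ?_, fun b => ⟨?_, ?_⟩⟩
  · exact (he.matrix_mul hzc).matrix_fromBlocks continuous_const continuous_const
      continuous_const
  · exact (hzi.matrix_mul he).matrix_fromBlocks continuous_const continuous_const
      continuous_const
  · rw [Matrix.fromBlocks_multiply]
    have h1 : z b * (z b)⁻¹ = 1 := Matrix.mul_nonsing_inv _ (isUnit_iff_ne_zero.2 (hzd b))
    have h2 : e b * z b * ((z b)⁻¹ * e b) = e b := by
      calc e b * z b * ((z b)⁻¹ * e b) = e b * (z b * (z b)⁻¹) * e b := by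
            simp only [Matrix.mul_assoc]
        _ = e b := by rw [h1, mul_one, hee b]
    rw [h2]
    simp
  · rw [Matrix.fromBlocks_multiply]
    have h1 : (z b)⁻¹ * z b = 1 := Matrix.nonsing_inv_mul _ (isUnit_iff_ne_zero.2 (hzd b))
    have h2 : (z b)⁻¹ * e b * (e b * z b) = f b := by
      calc (z b)⁻¹ * e b * (e b * z b) = (z b)⁻¹ * ((e b * e b) * z b) := by
            simp only [Matrix.mul_assoc]
        _ = ((z b)⁻¹ * z b) * f b := by rw [hee b, hez, Matrix.mul_assoc]
        _ = f b := by rw [h1, one_mul]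
    rw [h2]
    simp

end

end INJ
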