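import Pool.Agent.INJ.CTargets

set_option autoImplicit false

/-!
# INJ, part C: proof of CNV
-/

namespace INJ

open Matrix

theorem p_CNV (hCNE : T_CNE) (hCTR : T_CTR) (hCPU : T_CPU) (hCPS : T_CPS) : T_CNV := by
  intro ι _ _ C
  obtain ⟨η, hη, hne⟩ := hCNE ι C
  refine ⟨η, hη, ?_⟩
  intro B _ _ e e' he he' ide ide' hC hC' hK n U a a' hU ha ha' ida ida' hae hae' m V ρ hV hVU
    hcon
  apply hK
  obtain ⟨φ, hφc, hφN, hφs⟩ := hCPU B m V hV
  obtain ⟨hpc, hps, hpn⟩ := hCPS m n ρ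
  have hpN : ∀ x ∈ Nerve V, pushN ρ x ∈ Nerve U := hpn B B id V U hVU
  let Φ : B → Nerve V := fun b => ⟨φ b, hφN b⟩
  have hΦ : Continuous Φ := hφc.subtype_mk _
  have hsup : ∀ b : B, ∀ j, pushN ρ (φ b) j ≠ 0 → b ∈ U j := by
    intro b j hj
    obtain ⟨i, hi, hx⟩ := hps (φ b) (hφN b).1 j hj
    rw [← hi]
    exact hVU i (hφs b i hx)
  have hpush : Continuous fun x : Nerve V => pushN ρ x.1 := hpc.comp continuous_subtype_val
  have hA : ∀ g : (Fin n → ℝ) → Matrix ι ι ℂ, ContinuousOn g (Nerve U) →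
      Continuous fun x : Nerve V => g (pushN ρ x.1) := fun g hg =>
    hg.comp_continuous hpush fun x => hpN x.1 x.2
  have key : ∀ (f : B → Matrix ι ι ℂ) (g : (Fin n → ℝ) → Matrix ι ι ℂ), Continuous f →
      (∀ b, f b * f b = f b) → (∀ b i j, ‖f b i j‖ ≤ C) → ContinuousOn g (Nerve U) →
      (∀ x ∈ Nerve U, g x * g x = g x) →
      (∀ x ∈ Nerve U, ∀ b, (∀ i, x i ≠ 0 → b ∈ U i) → ∀ s t, ‖g x s t - f b s t‖ < η) →
      K0Eq f (fun b => g (pushN ρ (Φ b).1)) := by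
    intro f g hf idf hfC hg idg hgf
    refine hne B f (fun b => g (pushN ρ (Φ b).1)) hf ((hA g hg).comp hΦ) idf
      (fun b => idg _ (hpN _ (hφN b))) hfC fun b i j => ?_
    rw [norm_sub_rev]
    exact hgf _ (hpN _ (hφN b)) b (hsup b) i j
  have h1 := key e a he ide hC ha ida hae
  have h2 := key e' a' he' ide' hC' ha' ida' hae'
  have hid : ∀ b : B, (fun b => a (pushN ρ (Φ b).1)) b * (fun b => a (pushN ρ (Φ b).1)) b =
      (fun b => a (pushN ρ (Φ b).1)) b := fun b => ida _ (hpN _ (hφN b))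
  have hid' : ∀ b : B, (fun b => a' (pushN ρ (Φ b).1)) b * (fun b => a' (pushN ρ (Φ b).1)) b =
      (fun b => a' (pushN ρ (Φ b).1)) b := fun b => ida' _ (hpN _ (hφN b))
  have hN : ∀ x : Nerve V, a (pushN ρ x.1) * a (pushN ρ x.1) = a (pushN ρ x.1) :=
    fun x => ida _ (hpN _ x.2)
  have hN' : ∀ x : Nerve V, a' (pushN ρ x.1) * a' (pushN ρ x.1) = a' (pushN ρ x.1) :=
    fun x => ida' _ (hpN _ x.2)
  have h3 : K0Eq (fun b => a (pushN ρ (Φ b).1)) (fun b => a' (pushN ρ (Φ b).1)) :=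
    (hCTR (Nerve V) ι ι ι (fun x => a (pushN ρ x.1)) (fun x => a' (pushN ρ x.1))
      (fun x => a (pushN ρ x.1)) hN hN' hN).2.2 B Φ hΦ hcon
  have h4 : K0Eq e (fun b => a' (pushN ρ (Φ b).1)) :=
    (hCTR B ι ι ι e _ _ ide hid hid').2.1 h1 h3
  have h5 : K0Eq (fun b => a' (pushN ρ (Φ b).1)) e' :=
    (hCTR B ι ι ι e' _ e' ide' hid' ide').1 h2
  exact (hCTR B ι ι ι e _ e' ide hid' ide').2.1 h4 h5

end INJ
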