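import Pool.Agent.INJ.CTargets

set_option autoImplicit false

/-!
# INJ, part C: Newton iteration for idempotents
-/

namespace INJ

open Matrix Filter Topology

noncomputable section

section abstract_part

variable {A : Type} [NormedRing A]

/-- Newton step -/
def CNW_T (g : A) : A := 3 • (g * g) - 2 • (g * g * g)

lemma CNW_sub (g : A) : CNW_T g - g = -((g * g - g) * (2 • g - 1)) := by
  unfold CNW_T
  noncomm_ring

lemma CNW_def (g : A) : CNW_T g * CNW_T g - CNW_T g =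
    (g * g - g) * (g * g - g) * (4 • (g * g - g) - 3 • 1) := by
  unfold CNW_T
  noncomm_ring

lemma CNW_cont : Continuous (CNW_T : A → A) := by
  unfold CNW_T
  fun_prop

lemma CNW_b1 {g : A} {R q : ℝ} (hg : ‖g‖ ≤ R) (hq : ‖g * g - g‖ ≤ q) :
    ‖CNW_T g - g‖ ≤ q * (2 * R + ‖(1 : A)‖) := by
  rw [CNW_sub, norm_neg]
  refine (norm_mul_le _ _).trans ?_
  have h1 : ‖(2 • g - 1 : A)‖ ≤ 2 * R + ‖(1 : A)‖ := by
    refine (norm_sub_le _ _).trans ?_
    have h2 : ‖(2 • g : A)‖ ≤ 2 * R := by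
      rw [two_nsmul]
      refine (norm_add_le _ _).trans ?_
      linarith
    linarith
  exact mul_le_mul hq h1 (norm_nonneg _) ((norm_nonneg _).trans hq)

lemma CNW_b2 {g : A} {q0 q : ℝ} (h1 : q0 ≤ 1) (h2 : q0 * (4 + 3 * ‖(1 : A)‖) ≤ 1 / 2)
    (hq0 : q ≤ q0) (hq : ‖g * g - g‖ ≤ q) :
    ‖CNW_T g * CNW_T g - CNW_T g‖ ≤ q / 2 := by
  rw [CNW_def]
  obtain ⟨h, hh⟩ : ∃ h : A, h = g * g - g := ⟨_, rfl⟩
  rw [← hh] at hq ⊢
  have hN : 0 ≤ ‖(1 : A)‖ := norm_nonneg _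
  have hn : 0 ≤ ‖h‖ := norm_nonneg _
  have hqn : 0 ≤ q := hn.trans hq
  have h3 : ‖(4 • h - 3 • 1 : A)‖ ≤ 4 + 3 * ‖(1 : A)‖ := by
    refine (norm_sub_le _ _).trans ?_
    have h4 : ‖(4 • h : A)‖ ≤ 4 := by
      refine (norm_nsmul_le).trans ?_
      push_cast
      have : ‖h‖ ≤ 1 := hq.trans (hq0.trans h1)
      linarith
    have h5 : ‖(3 • 1 : A)‖ ≤ 3 * ‖(1 : A)‖ := by
      refine (norm_nsmul_le).trans ?_
      push_cast
      exact le_rfl
    linarith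
  have h6 : ‖h * h * (4 • h - 3 • 1)‖ ≤ (q * q0) * (4 + 3 * ‖(1 : A)‖) := by
    refine (norm_mul_le _ _).trans ?_
    refine mul_le_mul ?_ h3 (norm_nonneg _) (mul_nonneg hqn (hqn.trans hq0))
    refine (norm_mul_le _ _).trans ?_
    exact mul_le_mul hq (hq.trans hq0) hn hqn
  refine h6.trans ?_
  have h7 : q * q0 * (4 + 3 * ‖(1 : A)‖) = q * (q0 * (4 + 3 * ‖(1 : A)‖)) := by ring
  rw [h7]
  calc q * (q0 * (4 + 3 * ‖(1 : A)‖)) ≤ q * (1 / 2) := mul_le_mul_of_nonneg_left h2 hqn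
    _ = q / 2 := by ring

lemma CNW_seq {g : A} {R q0 : ℝ} (h1 : q0 ≤ 1) (h2 : q0 * (4 + 3 * ‖(1 : A)‖) ≤ 1 / 2)
    (hq : ‖g * g - g‖ ≤ q0) (hg : ‖g‖ ≤ R - 1) (h3 : 2 * q0 * (2 * R + ‖(1 : A)‖) ≤ 1) (n : ℕ) :
    ‖CNW_T^[n] g‖ ≤ R ∧ ‖CNW_T^[n] g * CNW_T^[n] g - CNW_T^[n] g‖ ≤ q0 / 2 ^ n ∧
    ‖CNW_T^[n] g - g‖ ≤ 2 * q0 * (2 * R + ‖(1 : A)‖) * (1 - 1 / 2 ^ n) := by
  have hq0 : 0 ≤ q0 := (norm_nonneg _).trans hq
  induction n with
  | zero =>
    refine ⟨?_, ?_, ?_⟩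
    · simp only [Function.iterate_zero, id_eq]
      linarith
    · simpa using hq
    · simp
  | succ n ih =>
    obtain ⟨i1, i2, i3⟩ := ih
    rw [Function.iterate_succ_apply']
    obtain ⟨s, hs⟩ : ∃ s : A, s = CNW_T^[n] g := ⟨_, rfl⟩
    rw [← hs] at i1 i2 i3 ⊢
    have hp : (0 : ℝ) < 2 ^ n := by positivity
    have hle : q0 / 2 ^ n ≤ q0 := by
      rw [div_le_iff₀ hp]
      have : (1 : ℝ) ≤ 2 ^ n := one_le_pow₀ (by norm_num)
      nlinarith
    have j2 := CNW_b2 h1 h2 hle i2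
    have j1 := CNW_b1 i1 i2
    have hR : 0 ≤ 2 * R + ‖(1 : A)‖ := by
      have := (norm_nonneg s).trans i1
      have := norm_nonneg (1 : A)
      linarith
    have j3 : ‖CNW_T s - g‖ ≤ 2 * q0 * (2 * R + ‖(1 : A)‖) * (1 - 1 / 2 ^ (n + 1)) := by
      have e1 : CNW_T s - g = (CNW_T s - s) + (s - g) := by abel
      rw [e1]
      refine (norm_add_le _ _).trans ?_
      refine (add_le_add j1 i3).trans (le_of_eq ?_)
      rw [pow_succ]
      field_simp
      ring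
    refine ⟨?_, ?_, j3⟩
    · have e2 : CNW_T s = (CNW_T s - g) + g := by abel
      rw [e2]
      refine (norm_add_le _ _).trans ?_
      have h5 : 2 * q0 * (2 * R + ‖(1 : A)‖) * (1 - 1 / 2 ^ (n + 1)) ≤ 1 := by
        have h6 : (1 : ℝ) - 1 / 2 ^ (n + 1) ≤ 1 := by
          have : (0 : ℝ) < 1 / 2 ^ (n + 1) := by positivity
          linarith
        have h7 : 0 ≤ 2 * q0 * (2 * R + ‖(1 : A)‖) := by positivity
        calc _ ≤ 2 * q0 * (2 * R + ‖(1 : A)‖) * 1 := mul_le_mul_of_nonneg_left h6 h7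
          _ ≤ 1 := by rw [mul_one]; exact h3
      linarith
    · refine j2.trans (le_of_eq ?_)
      rw [pow_succ]
      field_simp

variable [CompleteSpace A]

theorem CNW_abs (C η : ℝ) (hη : 0 < η) : ∃ δ > 0, ∃ r : A → A,
    ContinuousOn r {g | ∃ e : A, e * e = e ∧ ‖e‖ ≤ C ∧ ‖g - e‖ < δ} ∧
    ∀ g e : A, e * e = e → ‖e‖ ≤ C → ‖g - e‖ < δ → r g * r g = r g ∧ ‖r g - e‖ < η := by
  obtain ⟨R, hR⟩ : ∃ R : ℝ, R = |C| + 2 := ⟨_, rfl⟩
  obtain ⟨N, hN⟩ : ∃ N : ℝ, N = ‖(1 : A)‖ := ⟨_, rfl⟩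
  have hN0 : 0 ≤ N := by rw [hN]; exact norm_nonneg _
  have hC0 : 0 ≤ |C| := abs_nonneg C
  have hK : 0 < 2 * R + N := by linarith
  obtain ⟨q0, hq0p, hq1, hq2, hq3, hq4⟩ : ∃ q0 : ℝ, 0 < q0 ∧ q0 ≤ 1 ∧
      q0 * (4 + 3 * N) ≤ 1 / 2 ∧ 2 * q0 * (2 * R + N) ≤ 1 ∧ 2 * q0 * (2 * R + N) ≤ η / 4 := by
    have h1 : 0 < 1 / (2 * (4 + 3 * N)) := by positivity
    have h2 : 0 < 1 / (2 * (2 * R + N)) := by positivity
    have h3 : 0 < η / 4 / (2 * (2 * R + N)) := by positivity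
    refine ⟨min 1 (min (1 / (2 * (4 + 3 * N))) (min (1 / (2 * (2 * R + N)))
      (η / 4 / (2 * (2 * R + N))))), lt_min one_pos (lt_min h1 (lt_min h2 h3)),
      min_le_left _ _, ?_, ?_, ?_⟩
    · have h4 : min 1 (min (1 / (2 * (4 + 3 * N))) (min (1 / (2 * (2 * R + N)))
          (η / 4 / (2 * (2 * R + N))))) ≤ 1 / (2 * (4 + 3 * N)) :=
        (min_le_right _ _).trans (min_le_left _ _)
      calc _ ≤ 1 / (2 * (4 + 3 * N)) * (4 + 3 * N) :=
            mul_le_mul_of_nonneg_right h4 (by linarith)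
        _ = 1 / 2 := by
          have : (4 + 3 * N) ≠ 0 := by positivity
          field_simp
    · have h4 : min 1 (min (1 / (2 * (4 + 3 * N))) (min (1 / (2 * (2 * R + N)))
          (η / 4 / (2 * (2 * R + N))))) ≤ 1 / (2 * (2 * R + N)) :=
        (min_le_right _ _).trans ((min_le_right _ _).trans (min_le_left _ _))
      calc _ ≤ 2 * (1 / (2 * (2 * R + N))) * (2 * R + N) :=
            mul_le_mul_of_nonneg_right (mul_le_mul_of_nonneg_left h4 (by norm_num)) hK.le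
        _ = 1 := by
          field_simp
    · have h4 : min 1 (min (1 / (2 * (4 + 3 * N))) (min (1 / (2 * (2 * R + N)))
          (η / 4 / (2 * (2 * R + N))))) ≤ η / 4 / (2 * (2 * R + N)) :=
        (min_le_right _ _).trans ((min_le_right _ _).trans (min_le_right _ _))
      calc _ ≤ 2 * (η / 4 / (2 * (2 * R + N))) * (2 * R + N) :=
            mul_le_mul_of_nonneg_right (mul_le_mul_of_nonneg_left h4 (by norm_num)) hK.le
        _ = η / 4 := by
          field_simp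
  obtain ⟨δ, hδp, hδ1, hδ2, hδ3⟩ : ∃ δ : ℝ, 0 < δ ∧ δ ≤ 1 ∧ δ * (2 * R + 1) ≤ q0 ∧
      δ ≤ η / 4 := by
    have hR1 : 0 < 2 * R + 1 := by linarith
    refine ⟨min 1 (min (q0 / (2 * R + 1)) (η / 4)), lt_min one_pos
      (lt_min (div_pos hq0p hR1) (by linarith)), min_le_left _ _, ?_,
      (min_le_right _ _).trans (min_le_right _ _)⟩
    have h4 : min 1 (min (q0 / (2 * R + 1)) (η / 4)) ≤ q0 / (2 * R + 1) :=
      (min_le_right _ _).trans (min_le_left _ _)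
    calc _ ≤ q0 / (2 * R + 1) * (2 * R + 1) := mul_le_mul_of_nonneg_right h4 hR1.le
      _ = q0 := by field_simp
  -- good starts
  have hstart : ∀ g e : A, e * e = e → ‖e‖ ≤ C → ‖g - e‖ < δ →
      ‖g * g - g‖ ≤ q0 ∧ ‖g‖ ≤ R - 1 := by
    intro g e he heC hge
    have hCa : C ≤ |C| := le_abs_self C
    have h1 : ‖g‖ ≤ R - 1 := by
      have e1 : g = (g - e) + e := by abel
      rw [e1]
      refine (norm_add_le _ _).trans ?_
      linarith
    refine ⟨?_, h1⟩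
    have e2 : g * g - g = (g - e) * g + e * (g - e) - (g - e) + (e * e - e) := by noncomm_ring
    rw [he, sub_self, add_zero] at e2
    rw [e2]
    refine (norm_sub_le _ _).trans ?_
    have h2 : ‖(g - e) * g + e * (g - e)‖ ≤ δ * (R - 1) + |C| * δ := by
      refine (norm_add_le _ _).trans ?_
      refine add_le_add ?_ ?_
      · exact (norm_mul_le _ _).trans (mul_le_mul hge.le h1 (norm_nonneg _) hδp.le)
      · exact (norm_mul_le _ _).trans
          (mul_le_mul (heC.trans hCa) hge.le (norm_nonneg _) hC0)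
    have h3 : δ * (R - 1) + |C| * δ + δ ≤ δ * (2 * R + 1) := by
      rw [hR]
      nlinarith
    linarith
  let r : A → A := fun g => limUnder atTop fun n : ℕ => CNW_T^[n] g
  have hlim : ∀ g : A, ‖g * g - g‖ ≤ q0 → ‖g‖ ≤ R - 1 →
      Tendsto (fun n : ℕ => CNW_T^[n] g) atTop (𝓝 (r g)) ∧
      (∀ n : ℕ, dist (CNW_T^[n] g) (r g) ≤ 2 * q0 * (2 * R + N) / 2 ^ n) := by
    intro g hg1 hg2
    rw [hN] at hq2 hq3
    have hs := CNW_seq (A := A) (g := g) (R := R) (q0 := q0) hq1 hq2 hg1 hg2 hq3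
    have hd : ∀ n : ℕ, dist (CNW_T^[n] g) (CNW_T^[n + 1] g) ≤
        2 * q0 * (2 * R + N) / 2 / 2 ^ n := by
      intro n
      have h1 := CNW_b1 (hs n).1 (hs n).2.1
      rw [Function.iterate_succ_apply', dist_comm, dist_eq_norm]
      refine h1.trans (le_of_eq ?_)
      rw [← hN]
      field_simp
    have hc : CauchySeq fun n : ℕ => CNW_T^[n] g := cauchySeq_of_le_geometric_two hd
    have ht := hc.tendsto_limUnder
    exact ⟨ht, fun n => dist_le_of_le_geometric_two_of_tendsto hd ht n⟩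
  refine ⟨δ, hδp, r, ?_, ?_⟩
  · have hu : TendstoUniformlyOn (fun (n : ℕ) (g : A) => CNW_T^[n] g) r atTop
        {g | ∃ e : A, e * e = e ∧ ‖e‖ ≤ C ∧ ‖g - e‖ < δ} := by
      rw [Metric.tendstoUniformlyOn_iff]
      intro ε hε
      have h1 : Tendsto (fun n : ℕ => 2 * q0 * (2 * R + N) / 2 ^ n) atTop (𝓝 0) := by
        have h2 : Tendsto (fun n : ℕ => (2 * q0 * (2 * R + N)) * ((1 / 2 : ℝ)) ^ n) atTop
            (𝓝 ((2 * q0 * (2 * R + N)) * 0)) :=
          (tendsto_pow_atTop_nhds_zero_of_lt_one (by norm_num) (by norm_num)).const_mul _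
        rw [mul_zero] at h2
        refine h2.congr fun n => ?_
        rw [one_div, inv_pow]
        rfl
      filter_upwards [h1.eventually (gt_mem_nhds hε)] with n hn g hg
      obtain ⟨e, he1, he2, he3⟩ := hg
      have h3 := hstart g e he1 he2 he3
      rw [dist_comm]
      exact ((hlim g h3.1 h3.2).2 n).trans_lt hn
    exact hu.continuousOn (Frequently.of_forall fun n =>
      (CNW_cont.iterate n).continuousOn)
  · intro g e he heC hge
    have h3 := hstart g e he heC hge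
    obtain ⟨ht, hdist⟩ := hlim g h3.1 h3.2
    rw [hN] at hq2 hq3
    have hs := CNW_seq (A := A) (g := g) (R := R) (q0 := q0) hq1 hq2 h3.1 h3.2 hq3
    constructor
    · have h4 : Tendsto (fun n : ℕ => CNW_T^[n] g * CNW_T^[n] g - CNW_T^[n] g) atTop
          (𝓝 (r g * r g - r g)) := (ht.mul ht).sub ht
      have h5 : Tendsto (fun n : ℕ => CNW_T^[n] g * CNW_T^[n] g - CNW_T^[n] g) atTop
          (𝓝 0) := by
        refine squeeze_zero_norm (fun n => (hs n).2.1) ?_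
        have h2 : Tendsto (fun n : ℕ => q0 * ((1 / 2 : ℝ)) ^ n) atTop
            (𝓝 (q0 * 0)) :=
          (tendsto_pow_atTop_nhds_zero_of_lt_one (by norm_num) (by norm_num)).const_mul _
        rw [mul_zero] at h2
        refine h2.congr fun n => ?_
        rw [one_div, inv_pow]
        rfl
      exact sub_eq_zero.1 (tendsto_nhds_unique h4 h5)
    · have h6 := hdist 0
      simp only [Function.iterate_zero, id_eq, pow_zero, div_one] at h6
      have h7 : ‖r g - g‖ ≤ η / 4 := by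
        rw [← dist_eq_norm, dist_comm]
        exact h6.trans hq4
      have e3 : r g - e = (r g - g) + (g - e) := by abel
      rw [e3]
      refine (norm_add_le _ _).trans_lt ?_
      linarith

end abstract_part

section matrix_part

attribute [local instance] Matrix.linftyOpNormedRing

variable {ι : Type} [Fintype ι] [DecidableEq ι]

lemma CNW_entry_le (M : Matrix ι ι ℂ) (i j : ι) : ‖M i j‖ ≤ ‖M‖ := by
  rw [Matrix.linfty_opNorm_def]
  have h1 : ‖M i j‖₊ ≤ ∑ j : ι, ‖M i j‖₊ :=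
    Finset.single_le_sum (f := fun j => ‖M i j‖₊) (fun _ _ => zero_le) (Finset.mem_univ j)
  have h2 : (∑ j : ι, ‖M i j‖₊) ≤ (Finset.univ : Finset ι).sup fun i : ι => ∑ j : ι, ‖M i j‖₊ :=
    Finset.le_sup (f := fun i : ι => ∑ j : ι, ‖M i j‖₊) (Finset.mem_univ i)
  exact_mod_cast h1.trans h2

lemma CNW_norm_le (M : Matrix ι ι ℂ) (c : ℝ) (hc : 0 ≤ c) (h : ∀ i j, ‖M i j‖ ≤ c) :
    ‖M‖ ≤ (Fintype.card ι : ℝ) * c := by
  rw [Matrix.linfty_opNorm_def]
  have h1 : ((Finset.univ : Finset ι).sup fun i : ι => ∑ j : ι, ‖M i j‖₊) ≤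
      (⟨(Fintype.card ι : ℝ) * c, by positivity⟩ : NNReal) := by
    refine Finset.sup_le fun i _ => ?_
    have h2 : ((∑ j : ι, ‖M i j‖₊ : NNReal) : ℝ) ≤ (Fintype.card ι : ℝ) * c := by
      rw [NNReal.coe_sum]
      refine (Finset.sum_le_sum fun j _ => h i j).trans ?_
      rw [Finset.sum_const, nsmul_eq_mul, Finset.card_univ]
    exact h2
  exact_mod_cast h1

omit [Fintype ι] [DecidableEq ι] in
lemma CNW_complete : CompleteSpace (Matrix ι ι ℂ) := by
  have h : CompleteSpace (ι → ι → ℂ) := inferInstance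
  exact h

theorem p_CNW : T_CNW := by
  intro ι _ _ C η hη
  obtain ⟨δ, hδ, r, hr1, hr2⟩ := @CNW_abs (Matrix ι ι ℂ) _ CNW_complete
    ((Fintype.card ι : ℝ) * |C|) η hη
  have hc : (0 : ℝ) < (Fintype.card ι : ℝ) + 1 := by positivity
  have key : ∀ g e : Matrix ι ι ℂ, (∀ i j, ‖e i j‖ ≤ C) →
      (∀ i j, ‖g i j - e i j‖ < δ / ((Fintype.card ι : ℝ) + 1)) →
      ‖e‖ ≤ (Fintype.card ι : ℝ) * |C| ∧ ‖g - e‖ < δ := by
    intro g e he hge
    refine ⟨CNW_norm_le e |C| (abs_nonneg C) fun i j => (he i j).trans (le_abs_self C), ?_⟩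
    refine (CNW_norm_le (g - e) (δ / ((Fintype.card ι : ℝ) + 1)) (div_pos hδ hc).le
      fun i j => ?_).trans_lt ?_
    · rw [Matrix.sub_apply]
      exact (hge i j).le
    · rw [← mul_div_assoc, div_lt_iff₀ hc]
      nlinarith
  refine ⟨δ / ((Fintype.card ι : ℝ) + 1), div_pos hδ hc, r, ?_, ?_⟩
  · refine ContinuousOn.mono hr1 ?_
    rintro g ⟨e, he1, he2, he3⟩
    exact ⟨e, he1, (key g e he2 he3).1, (key g e he2 he3).2⟩
  · intro g e he1 he2 he3
    obtain ⟨k1, k2⟩ := key g e he2 he3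
    obtain ⟨m1, m2⟩ := hr2 g e he1 k1 k2
    refine ⟨m1, fun i j => ?_⟩
    have h1 := CNW_entry_le (r g - e) i j
    rw [Matrix.sub_apply] at h1
    exact h1.trans_lt m2

end matrix_part

end

end INJ
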