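import Pool.Agent.INJ.CTargets
import Pool.Agent.INJ.P_PERT
import Pool.Agent.INJ.P_DET

set_option autoImplicit false

/-!
# INJ: approximate equivalence implies equality of classes (CPE)
-/

namespace INJ

open Matrix

lemma CPE_mul {ι κ μ : Type} [Fintype κ] (A : Matrix ι κ ℂ) (B : Matrix κ μ ℂ) (n a b : ℝ)
    (hn : (Fintype.card κ : ℝ) ≤ n) (ha : 0 ≤ a) (hb : 0 ≤ b)
    (hA : ∀ i j, ‖A i j‖ ≤ a) (hB : ∀ i j, ‖B i j‖ ≤ b) (i : ι) (j : μ) :
    ‖(A * B) i j‖ ≤ n * (a * b) := by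
  rw [Matrix.mul_apply]
  refine (norm_sum_le _ _).trans ?_
  have h1 : ∀ k ∈ (Finset.univ : Finset κ), ‖A i k * B k j‖ ≤ a * b := by
    intro k _
    rw [norm_mul]
    exact mul_le_mul (hA i k) (hB k j) (norm_nonneg _) ha
  refine (Finset.sum_le_sum h1).trans ?_
  rw [Finset.sum_const, nsmul_eq_mul, Finset.card_univ]
  exact mul_le_mul_of_nonneg_right hn (mul_nonneg ha hb)

/-- the estimate for `E - E x F y E` -/
lemma CPE_est {ι κ : Type} [Fintype ι] [Fintype κ] (E : Matrix ι ι ℂ) (F : Matrix κ κ ℂ)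
    (x : Matrix ι κ ℂ) (y : Matrix κ ι ℂ) (n c δ : ℝ) (hι : (Fintype.card ι : ℝ) ≤ n)
    (hκ : (Fintype.card κ : ℝ) ≤ n) (hc : 0 ≤ c) (hδ : 0 ≤ δ) (hδ1 : δ ≤ 1)
    (hEE : E * E = E) (hE : ∀ i j, ‖E i j‖ ≤ c) (hx : ∀ i j, ‖x i j‖ ≤ c)
    (hy : ∀ i j, ‖y i j‖ ≤ c) (h1 : ∀ i j, ‖(x * y) i j - E i j‖ ≤ δ)
    (h2 : ∀ i j, ‖(y * x) i j - F i j‖ ≤ δ) (i j : ι) :
    ‖(E - E * x * F * y * E) i j‖ ≤ (n ^ 4 * c ^ 4 + 2 * (n ^ 2 * c ^ 2) + n ^ 3 * c ^ 2) * δ := by
  have hn : 0 ≤ n := (Nat.cast_nonneg _).trans hι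
  set R : Matrix ι ι ℂ := x * y - E with hR
  set S : Matrix κ κ ℂ := y * x - F with hS
  have hRb : ∀ i j, ‖R i j‖ ≤ δ := fun i j => h1 i j
  have hSb : ∀ i j, ‖S i j‖ ≤ δ := fun i j => h2 i j
  have key : E - E * x * F * y * E =
      E * x * S * y * E - (E * R * E + E * R * E + E * R * R * E) := by
    have e1 : x * y = R + E := by rw [hR]; abel
    have e2 : E * x * S * y * E = E * (x * y) * (x * y) * E - E * x * F * y * E := by
      rw [hS]
      simp only [Matrix.mul_sub, Matrix.sub_mul, Matrix.mul_assoc]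
    rw [e2, e1]
    have e3 : E * (R + E) * (R + E) * E = E + (E * R * E + E * R * E + E * R * R * E) := by
      have a1 : E * (R + E) * (R + E) * E =
          E * R * R * E + E * R * (E * E) + E * E * R * E + E * E * (E * E) := by
        simp only [Matrix.mul_add, Matrix.add_mul, Matrix.mul_assoc]
        abel
      rw [a1]
      simp only [hEE]
      abel
    rw [e3]
    abel
  rw [key]
  have b1 := CPE_mul E x n c c hι hc hc hE hx
  have b2 := CPE_mul (E * x) S n _ δ hκ (by positivity) hδ b1 hSb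
  have b3 := CPE_mul (E * x * S) y n _ c hκ (by positivity) hc b2 hy
  have b4 := CPE_mul (E * x * S * y) E n _ c hι (by positivity) hc b3 hE i j
  have d1 := CPE_mul E R n c δ hι hc hδ hE hRb
  have d2 := CPE_mul (E * R) E n _ c hι (by positivity) hc d1 hE i j
  have d3 := CPE_mul (E * R) R n _ δ hι (by positivity) hδ d1 hRb
  have d4 := CPE_mul (E * R * R) E n _ c hι (by positivity) hc d3 hE i j
  have t1 : ‖(E * x * S * y * E - (E * R * E + E * R * E + E * R * R * E)) i j‖ ≤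
      ‖(E * x * S * y * E) i j‖ + (‖(E * R * E) i j‖ + ‖(E * R * E) i j‖ +
        ‖(E * R * R * E) i j‖) := by
    simp only [Matrix.sub_apply, Matrix.add_apply]
    refine (norm_sub_le _ _).trans ?_
    gcongr
    refine (norm_add_le _ _).trans ?_
    gcongr
    exact norm_add_le _ _
  refine t1.trans ?_
  have s1 : n * (n * (n * (c * δ) * δ) * c) ≤ n ^ 3 * c ^ 2 * δ := by
    have : n * (n * (n * (c * δ) * δ) * c) = n ^ 3 * c ^ 2 * (δ * δ) := by ring
    rw [this]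
    have h3 : δ * δ ≤ δ := by nlinarith
    gcongr
  have s2 : n * (n * (n * (n * (c * c) * δ) * c) * c) = n ^ 4 * c ^ 4 * δ := by ring
  have s3 : n * (n * (c * δ) * c) = n ^ 2 * c ^ 2 * δ := by ring
  calc ‖(E * x * S * y * E) i j‖ + (‖(E * R * E) i j‖ + ‖(E * R * E) i j‖ +
        ‖(E * R * R * E) i j‖) ≤ n ^ 4 * c ^ 4 * δ + (n ^ 2 * c ^ 2 * δ + n ^ 2 * c ^ 2 * δ +
        n ^ 3 * c ^ 2 * δ) := by
        gcongr
        · rw [← s2]; exact b4
        · rw [← s3]; exact d2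
        · rw [← s3]; exact d2
        · exact d4.trans s1
    _ = _ := by ring

/-- CPE. -/
theorem p_CPE : T_CPE := by
  intro ι κ _ _ _ _ k C
  obtain ⟨ε1, hε1, hd1⟩ := p_DET (ι ⊕ Fin k)
  obtain ⟨ε2, hε2, hd2⟩ := p_DET (κ ⊕ Fin k)
  set n : ℝ := (Fintype.card (ι ⊕ Fin k) : ℝ) + (Fintype.card (κ ⊕ Fin k) : ℝ) with hn
  set c : ℝ := max C 1 with hc
  have hc0 : 0 ≤ c := le_trans zero_le_one (le_max_right _ _)
  set K : ℝ := n ^ 4 * c ^ 4 + 2 * (n ^ 2 * c ^ 2) + n ^ 3 * c ^ 2 with hK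
  have hn0 : 0 ≤ n := by positivity
  have hK0 : 0 ≤ K := by positivity
  set ε : ℝ := min ε1 ε2 with hε
  have hε0 : 0 < ε := lt_min hε1 hε2
  set δ : ℝ := min 1 (ε / (K + 1)) with hδ
  have hδ0 : 0 < δ := lt_min one_pos (by positivity)
  have hKδ : K * δ < ε := by
    have h1 : δ ≤ ε / (K + 1) := min_le_right _ _
    have h2 : K * δ ≤ K * (ε / (K + 1)) := mul_le_mul_of_nonneg_left h1 hK0
    have h3 : K * (ε / (K + 1)) < ε := by
      rw [← mul_div_assoc, div_lt_iff₀ (by positivity)]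
      nlinarith
    exact lt_of_le_of_lt h2 h3
  refine ⟨δ, hδ0, ?_⟩
  intro X _ e f x y he hf hx hy hee hff hbe hbf hbx hby hxy hyx
  have bl : ∀ (α : Type) [Fintype α] [DecidableEq α] (g : Matrix α α ℂ),
      (∀ i j, ‖g i j‖ ≤ C) → ∀ i j,
      ‖(Matrix.fromBlocks g 0 0 (1 : Matrix (Fin k) (Fin k) ℂ)) i j‖ ≤ c := by
    intro α _ _ g hg i j
    rcases i with i | i <;> rcases j with j | j
    · rw [Matrix.fromBlocks_apply₁₁]
      exact (hg i j).trans (le_max_left _ _)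
    · simpa using hc0
    · simpa using hc0
    · simp only [Matrix.fromBlocks_apply₂₂, Matrix.one_apply]
      split_ifs
      · rw [norm_one]
        exact le_max_right _ _
      · simpa using hc0
  have idm : ∀ (α : Type) [Fintype α] [DecidableEq α] (g : Matrix α α ℂ), g * g = g →
      (Matrix.fromBlocks g 0 0 (1 : Matrix (Fin k) (Fin k) ℂ)) *
        Matrix.fromBlocks g 0 0 1 = Matrix.fromBlocks g 0 0 1 := by
    intro α _ _ g hg
    rw [Matrix.fromBlocks_multiply]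
    simp [hg]
  let E : Idf X id 1 (ι ⊕ Fin k) :=
    { w := fun _ => 0
      e := fun b => Matrix.fromBlocks (e b) 0 0 1
      cont := he.matrix_fromBlocks continuous_const continuous_const continuous_const
      idem := fun b => idm ι (e b) (hee b)
      eqv := fun b i j => by simp }
  let F : Idf X id 1 (κ ⊕ Fin k) :=
    { w := fun _ => 0
      e := fun b => Matrix.fromBlocks (f b) 0 0 1
      cont := hf.matrix_fromBlocks continuous_const continuous_const continuous_const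
      idem := fun b => idm κ (f b) (hff b)
      eqv := fun b i j => by simp }
  have hcx : ∀ b i j, ‖x b i j‖ ≤ c := fun b i j => (hbx b i j).trans (le_max_left _ _)
  have hcy : ∀ b i j, ‖y b i j‖ ≤ c := fun b i j => (hby b i j).trans (le_max_left _ _)
  have hn1 : (Fintype.card (ι ⊕ Fin k) : ℝ) ≤ n := by
    rw [hn]
    have : (0 : ℝ) ≤ (Fintype.card (κ ⊕ Fin k) : ℝ) := Nat.cast_nonneg _
    linarith
  have hn2 : (Fintype.card (κ ⊕ Fin k) : ℝ) ≤ n := by
    rw [hn]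
    have : (0 : ℝ) ≤ (Fintype.card (ι ⊕ Fin k) : ℝ) := Nat.cast_nonneg _
    linarith
  have hM : MvN E F := by
    refine p_PERT X id 1 (ι ⊕ Fin k) (κ ⊕ Fin k) E F x y hx hy ?_ ?_ ?_ ?_
    · intro b i j
      simp
    · intro b i j
      simp
    · intro b
      apply hd1
      intro i j
      refine lt_of_le_of_lt ?_ (lt_of_lt_of_le hKδ (min_le_left _ _))
      exact CPE_est (E.e b) (F.e b) (x b) (y b) n c δ hn1 hn2 hc0 hδ0.le (min_le_left _ _)
        (E.idem b) (bl ι (e b) (hbe b)) (hcx b) (hcy b) (fun i j => (hxy b i j).le)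
        (fun i j => (hyx b i j).le) i j
    · intro b
      apply hd2
      intro i j
      refine lt_of_le_of_lt ?_ (lt_of_lt_of_le hKδ (min_le_right _ _))
      exact CPE_est (F.e b) (E.e b) (y b) (x b) n c δ hn2 hn1 hc0 hδ0.le (min_le_left _ _)
        (F.idem b) (bl κ (f b) (hbf b)) (hcy b) (hcx b) (fun i j => (hyx b i j).le)
        (fun i j => (hxy b i j).le) i j
  obtain ⟨x', y', hx', hy', _, _, h⟩ := hM
  exact ⟨k, x', y', hx', hy', h⟩

end INJ
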