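import Pool.Agent.INJ.CTargets

set_option autoImplicit false

/-!
# INJ, part C: simplicial maps between nerves
-/

namespace INJ

theorem CPS_cont (m n : ℕ) (ρ : Fin m → Fin n) : Continuous (pushN ρ) := by
  unfold pushN
  refine continuous_pi fun j => continuous_finsetSum _ fun i _ => ?_
  by_cases h : ρ i = j
  · simp only [h, if_true]
    exact continuous_apply i
  · simp only [h, if_false]
    exact continuous_const

theorem CPS_supp (m n : ℕ) (ρ : Fin m → Fin n) (x : Fin m → ℝ) (j : Fin n)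
    (h : pushN ρ x j ≠ 0) : ∃ i, ρ i = j ∧ x i ≠ 0 := by
  obtain ⟨i, -, hi⟩ := Finset.exists_ne_zero_of_sum_ne_zero h
  by_cases hij : ρ i = j
  · refine ⟨i, hij, ?_⟩
    rwa [if_pos hij] at hi
  · rw [if_neg hij] at hi
    exact absurd rfl hi

theorem CPS_sum (m n : ℕ) (ρ : Fin m → Fin n) (x : Fin m → ℝ) :
    ∑ j, pushN ρ x j = ∑ i, x i := by
  unfold pushN
  rw [Finset.sum_comm]
  refine Finset.sum_congr rfl fun i _ => ?_
  simp

theorem p_CPS : T_CPS := by
  intro m n ρ
  refine ⟨CPS_cont m n ρ, fun x _ j h => CPS_supp m n ρ x j h, ?_⟩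
  intro E B p W U hWU x hx
  obtain ⟨h0, h1, e, he⟩ := hx
  refine ⟨fun j => ?_, ?_, p e, fun j hj => ?_⟩
  · refine Finset.sum_nonneg fun i _ => ?_
    split_ifs
    · exact h0 i
    · exact le_refl 0
  · rw [CPS_sum]
    exact h1
  · obtain ⟨i, hi, hxi⟩ := CPS_supp m n ρ x j hj
    have := hWU i (he i hxi)
    rw [hi] at this
    exact this

end INJ
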