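import Pool.Agent.INJ.CTargets

set_option autoImplicit false

/-!
# INJ, part C, item CPU: partitions of unity (helper50)
-/

namespace INJ

theorem p_CPU : T_CPU := by
  intro X _ _ m V hV
  obtain ⟨f, hf⟩ := PartitionOfUnity.exists_isSubordinate_of_locallyFinite
    (s := (Set.univ : Set X)) isClosed_univ V hV.1 (locallyFinite_of_finite V)
    (fun b _ => Set.mem_iUnion.2 (hV.2 b))
  have hsub : ∀ b i, f i b ≠ 0 → b ∈ V i := fun b i hb =>
    hf i (subset_tsupport _ (Function.mem_support.2 hb))
  refine ⟨fun b i => f i b, continuous_pi fun i => (f i).continuous, fun b => ?_, hsub⟩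
  refine ⟨fun i => f.nonneg i b, ?_, b, fun i hi => hsub b i hi⟩
  have h1 := f.sum_eq_one (Set.mem_univ b)
  rw [finsum_eq_sum_of_fintype] at h1
  exact h1

end INJ
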