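import Pool.Agent.INJ.CTargets

set_option autoImplicit false

/-!
# INJ, part C: `K0Eq` is an equivalence relation on idempotents
-/

namespace INJ

open Matrix

/-- `K0Eq` with an arbitrary finite index type -/
def CTR_W {X ι κ : Type} (τ : Type) [TopologicalSpace X] [Fintype ι] [Fintype κ] [Fintype τ]
    [DecidableEq τ] (e : X → Matrix ι ι ℂ) (f : X → Matrix κ κ ℂ) : Prop :=
  ∃ (x : X → Matrix (ι ⊕ τ) (κ ⊕ τ) ℂ) (y : X → Matrix (κ ⊕ τ) (ι ⊕ τ) ℂ),
    Continuous x ∧ Continuous y ∧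
    ∀ b, x b * y b = Matrix.fromBlocks (e b) 0 0 1 ∧ y b * x b = Matrix.fromBlocks (f b) 0 0 1

lemma CTR_reindex {X ι κ τ τ' : Type} [TopologicalSpace X] [Fintype ι] [Fintype κ] [Fintype τ]
    [DecidableEq τ] [Fintype τ'] [DecidableEq τ'] {e : X → Matrix ι ι ℂ} {f : X → Matrix κ κ ℂ}
    (u : τ' ≃ τ) (h : CTR_W τ e f) : CTR_W τ' e f := by
  obtain ⟨x, y, hx, hy, hb⟩ := h
  refine ⟨fun b => (x b).submatrix (Sum.map id u) (Sum.map id u),
    fun b => (y b).submatrix (Sum.map id u) (Sum.map id u),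
    hx.matrix_submatrix _ _, hy.matrix_submatrix _ _, fun b => ?_⟩
  have key : ∀ (μ : Type) [Fintype μ] (g : Matrix μ μ ℂ),
      (Matrix.fromBlocks g 0 0 (1 : Matrix τ τ ℂ)).submatrix (Sum.map id u) (Sum.map id u)
        = Matrix.fromBlocks g 0 0 (1 : Matrix τ' τ' ℂ) := by
    intro μ _ g
    ext i j
    rcases i with i | i <;> rcases j with j | j
    · rfl
    · rfl
    · rfl
    · simp [Matrix.one_apply]
  constructor
  · have h1 : (x b).submatrix (Sum.map id u) (Sum.map id u) *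
        (y b).submatrix (Sum.map id u) (Sum.map id u) =
        (x b * y b).submatrix (Sum.map id u) (Sum.map id u) := by
      have h2 := Matrix.submatrix_mul_equiv (x b) (y b) (Sum.map id u : ι ⊕ τ' → ι ⊕ τ)
        (Equiv.sumCongr (Equiv.refl κ) u) (Sum.map id u : ι ⊕ τ' → ι ⊕ τ)
      exact h2
    rw [h1, (hb b).1, key]
  · have h1 : (y b).submatrix (Sum.map id u) (Sum.map id u) *
        (x b).submatrix (Sum.map id u) (Sum.map id u) =
        (y b * x b).submatrix (Sum.map id u) (Sum.map id u) := by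
      have h2 := Matrix.submatrix_mul_equiv (y b) (x b) (Sum.map id u : κ ⊕ τ' → κ ⊕ τ)
        (Equiv.sumCongr (Equiv.refl ι) u) (Sum.map id u : κ ⊕ τ' → κ ⊕ τ)
      exact h2
    rw [h1, (hb b).2, key]

lemma CTR_enlarge {X ι κ τ : Type} (σ : Type) [TopologicalSpace X] [Fintype ι] [Fintype κ]
    [Fintype τ] [DecidableEq τ] [Fintype σ] [DecidableEq σ] {e : X → Matrix ι ι ℂ}
    {f : X → Matrix κ κ ℂ} (h : CTR_W τ e f) : CTR_W (τ ⊕ σ) e f := by
  obtain ⟨x, y, hx, hy, hb⟩ := h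
  refine ⟨fun b => (Matrix.fromBlocks (x b) 0 0 (1 : Matrix σ σ ℂ)).submatrix
      (Equiv.sumAssoc ι τ σ).symm (Equiv.sumAssoc κ τ σ).symm,
    fun b => (Matrix.fromBlocks (y b) 0 0 (1 : Matrix σ σ ℂ)).submatrix
      (Equiv.sumAssoc κ τ σ).symm (Equiv.sumAssoc ι τ σ).symm,
    (hx.matrix_fromBlocks continuous_const continuous_const continuous_const).matrix_submatrix _ _,
    (hy.matrix_fromBlocks continuous_const continuous_const continuous_const).matrix_submatrix _ _,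
    fun b => ?_⟩
  have key : ∀ (μ : Type) [Fintype μ] (g : Matrix μ μ ℂ),
      (Matrix.fromBlocks (Matrix.fromBlocks g 0 0 (1 : Matrix τ τ ℂ)) 0 0
        (1 : Matrix σ σ ℂ)).submatrix (Equiv.sumAssoc μ τ σ).symm (Equiv.sumAssoc μ τ σ).symm
        = Matrix.fromBlocks g 0 0 (1 : Matrix (τ ⊕ σ) (τ ⊕ σ) ℂ) := by
    intro μ _ g
    ext i j
    rcases i with i | i | i <;> rcases j with j | j | j <;> simp [Matrix.one_apply]
  constructor
  · rw [Matrix.submatrix_mul_equiv, Matrix.fromBlocks_multiply]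
    simp only [Matrix.mul_zero, Matrix.zero_mul, add_zero, zero_add, Matrix.mul_one]
    rw [(hb b).1, key]
  · rw [Matrix.submatrix_mul_equiv, Matrix.fromBlocks_multiply]
    simp only [Matrix.mul_zero, Matrix.zero_mul, add_zero, zero_add, Matrix.mul_one]
    rw [(hb b).2, key]

lemma CTR_trans {X ι κ μ τ : Type} [TopologicalSpace X] [Fintype ι] [Fintype κ] [Fintype μ]
    [Fintype τ] [DecidableEq τ] {e : X → Matrix ι ι ℂ} {f : X → Matrix κ κ ℂ}
    {g : X → Matrix μ μ ℂ} (he : ∀ x, e x * e x = e x) (hg : ∀ x, g x * g x = g x)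
    (h : CTR_W τ e f) (h' : CTR_W τ f g) : CTR_W τ e g := by
  obtain ⟨x, y, hx, hy, hb⟩ := h
  obtain ⟨x', y', hx', hy', hb'⟩ := h'
  refine ⟨fun b => x b * x' b, fun b => y' b * y b, hx.matrix_mul hx', hy'.matrix_mul hy,
    fun b => ⟨?_, ?_⟩⟩
  · have h1 : x b * x' b * (y' b * y b) = x b * (x' b * y' b) * y b := by
      simp only [Matrix.mul_assoc]
    have h2 : x b * (y b * x b) * y b = (x b * y b) * (x b * y b) := by
      simp only [Matrix.mul_assoc]
    rw [h1, (hb' b).1, ← (hb b).2, h2, (hb b).1, Matrix.fromBlocks_multiply]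
    simp [he b]
  · have h1 : y' b * y b * (x b * x' b) = y' b * (y b * x b) * x' b := by
      simp only [Matrix.mul_assoc]
    have h2 : y' b * (x' b * y' b) * x' b = (y' b * x' b) * (y' b * x' b) := by
      simp only [Matrix.mul_assoc]
    rw [h1, (hb b).2, ← (hb' b).1, h2, (hb' b).2, Matrix.fromBlocks_multiply]
    simp [hg b]

theorem p_CTR : T_CTR := by
  intro X ι κ μ _ _ _ _ e f g he hf hg
  refine ⟨?_, ?_, ?_⟩
  · rintro ⟨k, x, y, hx, hy, hb⟩
    exact ⟨k, y, x, hy, hx, fun b => ⟨(hb b).2, (hb b).1⟩⟩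
  · rintro ⟨k, hk⟩ ⟨l, hl⟩
    have h1 : CTR_W (Fin k) e f := hk
    have h2 : CTR_W (Fin l) f g := hl
    have h3 : CTR_W (Fin k ⊕ Fin l) e f := CTR_enlarge (Fin l) h1
    have h4 : CTR_W (Fin l ⊕ Fin k) f g := CTR_enlarge (Fin k) h2
    have h5 : CTR_W (Fin k ⊕ Fin l) f g := CTR_reindex (Equiv.sumComm _ _) h4
    have h6 : CTR_W (Fin k ⊕ Fin l) e g := CTR_trans he hg h3 h5
    have h7 : CTR_W (Fin (k + l)) e g := CTR_reindex finSumFinEquiv.symm h6
    exact ⟨k + l, h7⟩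
  · rintro Y _ h hc ⟨k, x, y, hx, hy, hb⟩
    exact ⟨k, fun z => x (h z), fun z => y (h z), hx.comp hc, hy.comp hc, fun z => hb (h z)⟩

end INJ
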