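import Pool.Agent.INJ.CTargets

set_option autoImplicit false
set_option maxHeartbeats 4000000

/-!
# INJ, part C: vanishing over some refinement of the pulled back cover (CVN)
-/

namespace INJ

open Matrix

lemma CVN_bd {X ι κ : Type} [TopologicalSpace X] [CompactSpace X] [Fintype ι] [Fintype κ]
    (x : X → Matrix ι κ ℂ) (hx : Continuous x) : ∃ C : ℝ, ∀ t i j, ‖x t i j‖ ≤ C := by
  have h1 : Continuous fun t => ∑ i, ∑ j, ‖x t i j‖ := by
    refine continuous_finsetSum _ fun i _ => continuous_finsetSum _ fun j _ => ?_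
    exact (hx.matrix_elem i j).norm
  obtain ⟨C, hC⟩ := (isCompact_univ.image h1).bddAbove
  refine ⟨C, fun t i j => ?_⟩
  refine le_trans ?_ (hC ⟨t, Set.mem_univ t, rfl⟩)
  refine (Finset.single_le_sum (f := fun j => ‖x t i j‖) (fun _ _ => norm_nonneg _)
    (Finset.mem_univ j)).trans ?_
  exact Finset.single_le_sum (f := fun i => ∑ j, ‖x t i j‖)
    (fun _ _ => Finset.sum_nonneg fun _ _ => norm_nonneg _) (Finset.mem_univ i)

lemma CVN_mul {α β γ : Type} [Fintype β] (X x : Matrix α β ℂ) (Y y : Matrix β γ ℂ) (C δ : ℝ)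
    (hC : 0 ≤ C) (hδ : 0 ≤ δ) (hX : ∀ i j, ‖X i j‖ ≤ C) (hy : ∀ i j, ‖y i j‖ ≤ C)
    (h1 : ∀ i j, ‖X i j - x i j‖ ≤ δ) (h2 : ∀ i j, ‖Y i j - y i j‖ ≤ δ) (i : α) (j : γ) :
    ‖(X * Y) i j - (x * y) i j‖ ≤ Fintype.card β * (2 * C * δ) := by
  rw [Matrix.mul_apply, Matrix.mul_apply, ← Finset.sum_sub_distrib]
  refine (norm_sum_le _ _).trans ?_
  have h3 : ∑ l, ‖X i l * Y l j - x i l * y l j‖ ≤ ∑ _l : β, 2 * C * δ := by
    refine Finset.sum_le_sum fun l _ => ?_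
    have h : X i l * Y l j - x i l * y l j =
        X i l * (Y l j - y l j) + (X i l - x i l) * y l j := by ring
    rw [h]
    refine (norm_add_le _ _).trans ?_
    rw [norm_mul, norm_mul]
    have a1 := mul_le_mul (hX i l) (h2 l j) (norm_nonneg _) hC
    have a2 := mul_le_mul (h1 i l) (hy l j) (norm_nonneg _) hδ
    linarith
  refine h3.trans (le_of_eq ?_)
  rw [Finset.sum_const, Finset.card_univ, nsmul_eq_mul]

lemma CVN_blk {ι κ : Type} [DecidableEq κ] (A B : Matrix ι ι ℂ) (η : ℝ) (hη : 0 < η)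
    (h : ∀ i j, ‖A i j - B i j‖ < η) (i j : ι ⊕ κ) :
    ‖Matrix.fromBlocks A 0 0 (1 : Matrix κ κ ℂ) i j - Matrix.fromBlocks B 0 0 1 i j‖ < η := by
  rcases i with i | i <;> rcases j with j | j
  · exact h i j
  all_goals simpa using hη

/-- averages of matrices -/
noncomputable def CVN_av {X α β : Type} {m : ℕ} (w : Fin m → X) (x : X → Matrix α β ℂ)
    (z : Fin m → ℝ) : Matrix α β ℂ := Matrix.of fun s t => ∑ i, (z i : ℂ) * x (w i) s t

lemma CVN_avc {X α β : Type} {m : ℕ} (w : Fin m → X) (x : X → Matrix α β ℂ) :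
    Continuous (CVN_av w x) := by
  refine continuous_matrix fun s t => ?_
  change Continuous fun z : Fin m → ℝ => ∑ i, (z i : ℂ) * x (w i) s t
  refine continuous_finsetSum _ fun i _ => ?_
  exact (Complex.continuous_ofReal.comp (continuous_apply i)).mul continuous_const

/-- one of the two idempotents -/
lemma CVN_one (hCPS : T_CPS) (ι : Type) [Fintype ι] [DecidableEq ι] (C η0 η1 : ℝ)
    (hη1 : η1 ≤ η0 / 2) (hη11 : η1 ≤ 1)
    (H0 : ∀ (X : Type) [TopologicalSpace X] (e f : X → Matrix ι ι ℂ), Continuous e →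
      Continuous f → (∀ x, e x * e x = e x) → (∀ x, f x * f x = f x) →
      (∀ x i j, ‖e x i j‖ ≤ C + 1) → (∀ x i j, ‖e x i j - f x i j‖ < η0) → K0Eq e f)
    (B : Type) (e : B → Matrix ι ι ℂ) (hC : ∀ b i j, ‖e b i j‖ ≤ C) (n : ℕ)
    (U : Fin n → Set B) (a : (Fin n → ℝ) → Matrix ι ι ℂ) (ha : ContinuousOn a (Nerve U))
    (haa : ∀ x ∈ Nerve U, a x * a x = a x)
    (hae : ∀ x ∈ Nerve U, ∀ b, (∀ i, x i ≠ 0 → b ∈ U i) → ∀ s t, ‖a x s t - e b s t‖ < η0 / 2)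
    (E : Type) (p : E → B) (m : ℕ) (W : Fin m → Set E) (ρ : Fin m → Fin n)
    (hWU : ∀ i, W i ⊆ p ⁻¹' U (ρ i)) (b1 : (Fin m → ℝ) → Matrix ι ι ℂ)
    (hb1 : ContinuousOn b1 (Nerve W)) (hbb : ∀ z ∈ Nerve W, b1 z * b1 z = b1 z)
    (hbe : ∀ z ∈ Nerve W, ∀ b, (∀ i, z i ≠ 0 → b ∈ W i) → ∀ s t,
      ‖b1 z s t - e (p b) s t‖ < η1) :
    K0Eq (fun z : Nerve W => b1 z.1) (fun z : Nerve W => a (pushN ρ z.1)) ∧
      ∀ z : Nerve W, a (pushN ρ z.1) * a (pushN ρ z.1) = a (pushN ρ z.1) := by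
  obtain ⟨hc, hs, hN⟩ := hCPS m n ρ
  have hN' : ∀ z ∈ Nerve W, pushN ρ z ∈ Nerve U := hN E B p W U hWU
  refine ⟨H0 _ _ _ ?_ ?_ ?_ ?_ ?_ ?_, fun z => haa _ (hN' z.1 z.2)⟩
  · exact continuousOn_iff_continuous_domRestrict.1 hb1
  · exact ha.comp_continuous (hc.comp continuous_subtype_val) fun z => hN' z.1 z.2
  · exact fun z => hbb z.1 z.2
  · exact fun z => haa _ (hN' z.1 z.2)
  · intro z i j
    obtain ⟨b, hb⟩ := z.2.2.2
    have h1 := hbe z.1 z.2 b hb i j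
    have h2 := hC (p b) i j
    have h3 : b1 z.1 i j = (b1 z.1 i j - e (p b) i j) + e (p b) i j := by ring
    rw [h3]
    refine (norm_add_le _ _).trans ?_
    linarith
  · intro z i j
    obtain ⟨b, hb⟩ := z.2.2.2
    have h1 := hbe z.1 z.2 b hb i j
    have h2 := hae _ (hN' z.1 z.2) (p b) (fun l hl => by
      obtain ⟨i', hi', hz⟩ := hs z.1 z.2.1 l hl
      rw [← hi']
      exact hWU i' (hb i' hz)) i j
    have h3 : b1 z.1 i j - a (pushN ρ z.1) i j =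
        (b1 z.1 i j - e (p b) i j) - (a (pushN ρ z.1) i j - e (p b) i j) := by ring
    rw [h3]
    refine (norm_sub_le _ _).trans_lt ?_
    linarith

/-- vanishing over some refinement of the pulled back cover -/
theorem p_CVN (hCNE : T_CNE) (hCTR : T_CTR) (hCPS : T_CPS) (hCFN : T_CFN) (hCAV : T_CAV)
    (hCCV : T_CCV) (hCPE : T_CPE) : T_CVN := by
  intro ι _ _ C
  obtain ⟨η0, hη0, H0⟩ := hCNE ι (C + 1)
  refine ⟨η0 / 2, by positivity, ?_⟩
  intro B _ _ e e' he he' hee hee' hCe hCe' n U a a' hU ha ha' haa haa' hae hae' E _ _ p hp hK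
  obtain ⟨k, x, y, hx, hy, hxy⟩ := hK
  obtain ⟨Cx, hCx⟩ := CVN_bd x hx
  obtain ⟨Cy, hCy⟩ := CVN_bd y hy
  set C1 : ℝ := max 1 (max C (max Cx Cy)) with hC1
  have hC1a : 1 ≤ C1 := le_max_left _ _
  have hC1b : C ≤ C1 := (le_max_left _ _).trans (le_max_right _ _)
  have hC1x : Cx ≤ C1 := (le_max_left _ _).trans ((le_max_right _ _).trans (le_max_right _ _))
  have hC1y : Cy ≤ C1 := (le_max_right _ _).trans ((le_max_right _ _).trans (le_max_right _ _))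
  obtain ⟨δ1, hδ1, H1⟩ := hCPE ι ι k (C1 + 1)
  set η1 : ℝ := min (η0 / 2) (min 1 (δ1 / 2)) with hη1
  have hη1p : 0 < η1 := by
    rw [hη1]
    positivity
  have hη1a : η1 ≤ η0 / 2 := min_le_left _ _
  have hη1b : η1 ≤ 1 := (min_le_right _ _).trans (min_le_left _ _)
  have hη1c : η1 ≤ δ1 / 2 := (min_le_right _ _).trans (min_le_right _ _)
  obtain ⟨δ2, hδ2, H2⟩ := hCCV ι C η1 hη1p
  set N : ℝ := (Fintype.card (ι ⊕ Fin k) : ℝ) + 1 with hN
  have hNp : 0 < N := by positivity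
  have hC1p : 0 < C1 + 1 := by linarith
  set δ3 : ℝ := min δ2 (min 1 (δ1 / (4 * N * (C1 + 1)))) with hδ3
  have hδ3p : 0 < δ3 := by
    rw [hδ3]
    positivity
  have hδ3a : δ3 ≤ δ2 := min_le_left _ _
  have hδ3b : δ3 ≤ 1 := (min_le_right _ _).trans (min_le_left _ _)
  have hδ3c : N * (2 * (C1 + 1) * δ3) ≤ δ1 / 2 := by
    have h1 : δ3 ≤ δ1 / (4 * N * (C1 + 1)) := (min_le_right _ _).trans (min_le_right _ _)
    rw [le_div_iff₀ (by positivity)] at h1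
    linarith
  let T : Type := (ι → ι → ℂ) × (ι → ι → ℂ) × (ι ⊕ Fin k → ι ⊕ Fin k → ℂ) ×
    (ι ⊕ Fin k → ι ⊕ Fin k → ℂ)
  let F : E → T := fun t =>
    (fun i j => e (p t) i j, fun i j => e' (p t) i j, fun i j => x t i j, fun i j => y t i j)
  have hF : Continuous F := by
    refine Continuous.prodMk ?_ (Continuous.prodMk ?_ (Continuous.prodMk ?_ ?_))
    · exact continuous_pi fun i => continuous_pi fun j => (he.comp hp).matrix_elem i j
    · exact continuous_pi fun i => continuous_pi fun j => (he'.comp hp).matrix_elem i j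
    · exact continuous_pi fun i => continuous_pi fun j => hx.matrix_elem i j
    · exact continuous_pi fun i => continuous_pi fun j => hy.matrix_elem i j
  have hcov : IsCov fun j => p ⁻¹' U j :=
    ⟨fun i => (hU.1 i).preimage hp, fun b => hU.2 (p b)⟩
  obtain ⟨m, W, w, ρ, hW, -, hWU, hWd⟩ := hCFN E T F hF n (fun j => p ⁻¹' U j) hcov δ3 hδ3p
  have hd1 : ∀ i, ∀ t ∈ W i, ∀ s u, ‖e (p t) s u - e (p (w i)) s u‖ < δ3 := by
    intro i t ht s u
    have h1 := hWd i t ht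
    rw [← dist_eq_norm]
    refine lt_of_le_of_lt ?_ h1
    refine le_trans ?_ (le_max_left _ _)
    exact (dist_le_pi_dist ((F t).1 s) ((F (w i)).1 s) u).trans
      (dist_le_pi_dist (F t).1 (F (w i)).1 s)
  have hd2 : ∀ i, ∀ t ∈ W i, ∀ s u, ‖e' (p t) s u - e' (p (w i)) s u‖ < δ3 := by
    intro i t ht s u
    have h1 := hWd i t ht
    rw [← dist_eq_norm]
    refine lt_of_le_of_lt ?_ h1
    refine le_trans ?_ (le_max_right _ _)
    refine le_trans ?_ (le_max_left _ _)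
    exact (dist_le_pi_dist ((F t).2.1 s) ((F (w i)).2.1 s) u).trans
      (dist_le_pi_dist (F t).2.1 (F (w i)).2.1 s)
  have hd3 : ∀ i, ∀ t ∈ W i, ∀ s u, ‖x t s u - x (w i) s u‖ < δ3 := by
    intro i t ht s u
    have h1 := hWd i t ht
    rw [← dist_eq_norm]
    refine lt_of_le_of_lt ?_ h1
    refine le_trans ?_ (le_max_right _ _)
    refine le_trans ?_ (le_max_right _ _)
    refine le_trans ?_ (le_max_left _ _)
    exact (dist_le_pi_dist ((F t).2.2.1 s) ((F (w i)).2.2.1 s) u).trans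
      (dist_le_pi_dist (F t).2.2.1 (F (w i)).2.2.1 s)
  have hd4 : ∀ i, ∀ t ∈ W i, ∀ s u, ‖y t s u - y (w i) s u‖ < δ3 := by
    intro i t ht s u
    have h1 := hWd i t ht
    rw [← dist_eq_norm]
    refine lt_of_le_of_lt ?_ h1
    refine le_trans ?_ (le_max_right _ _)
    refine le_trans ?_ (le_max_right _ _)
    refine le_trans ?_ (le_max_right _ _)
    exact (dist_le_pi_dist ((F t).2.2.2 s) ((F (w i)).2.2.2 s) u).trans
      (dist_le_pi_dist (F t).2.2.2 (F (w i)).2.2.2 s)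
  obtain ⟨b1, hb1, hbb1, hbe1⟩ := H2 E m W w (fun t => e (p t)) (fun t => hee (p t))
    (fun t => hCe (p t)) (fun i t ht s u => (hd1 i t ht s u).trans_le hδ3a)
  obtain ⟨b2, hb2, hbb2, hbe2⟩ := H2 E m W w (fun t => e' (p t)) (fun t => hee' (p t))
    (fun t => hCe' (p t)) (fun i t ht s u => (hd2 i t ht s u).trans_le hδ3a)
  obtain ⟨K1, I1⟩ := CVN_one hCPS ι C η0 η1 hη1a hη1b H0 B e hCe n U a ha haa hae E p m W ρ hWU
    b1 hb1 hbb1 hbe1
  obtain ⟨K2, I2⟩ := CVN_one hCPS ι C η0 η1 hη1a hη1b H0 B e' hCe' n U a' ha' haa' hae' E p m W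
    ρ hWU b2 hb2 hbb2 hbe2
  have hXx : ∀ z ∈ Nerve W, ∀ b, (∀ i, z i ≠ 0 → b ∈ W i) → ∀ s u,
      ‖CVN_av w x z s u - x b s u‖ ≤ δ3 := fun z hz b hb s u =>
    (hCAV E m W w (fun t => x t s u) δ3 (fun i t ht => hd3 i t ht s u) z hz b hb).le
  have hYy : ∀ z ∈ Nerve W, ∀ b, (∀ i, z i ≠ 0 → b ∈ W i) → ∀ s u,
      ‖CVN_av w y z s u - y b s u‖ ≤ δ3 := fun z hz b hb s u =>
    (hCAV E m W w (fun t => y t s u) δ3 (fun i t ht => hd4 i t ht s u) z hz b hb).le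
  have hXb : ∀ z ∈ Nerve W, ∀ s u, ‖CVN_av w x z s u‖ ≤ C1 + 1 := by
    intro z hz s u
    obtain ⟨b, hb⟩ := hz.2.2
    have h1 := hXx z hz b hb s u
    have h2 := hCx b s u
    have h3 : CVN_av w x z s u = (CVN_av w x z s u - x b s u) + x b s u := by ring
    rw [h3]
    refine (norm_add_le _ _).trans ?_
    linarith
  have hYb : ∀ z ∈ Nerve W, ∀ s u, ‖CVN_av w y z s u‖ ≤ C1 + 1 := by
    intro z hz s u
    obtain ⟨b, hb⟩ := hz.2.2
    have h1 := hYy z hz b hb s u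
    have h2 := hCy b s u
    have h3 : CVN_av w y z s u = (CVN_av w y z s u - y b s u) + y b s u := by ring
    rw [h3]
    refine (norm_add_le _ _).trans ?_
    linarith
  have hbb : ∀ (e0 : B → Matrix ι ι ℂ) (c : (Fin m → ℝ) → Matrix ι ι ℂ),
      (∀ b i j, ‖e0 b i j‖ ≤ C) → (∀ z ∈ Nerve W, ∀ b, (∀ i, z i ≠ 0 → b ∈ W i) → ∀ s t,
      ‖c z s t - e0 (p b) s t‖ < η1) → ∀ z : Nerve W, ∀ i j, ‖c z.1 i j‖ ≤ C1 + 1 := by
    intro e0 c h0 h z i j
    obtain ⟨b, hb⟩ := z.2.2.2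
    have h1 := h z.1 z.2 b hb i j
    have h2 := h0 (p b) i j
    have h3 : c z.1 i j = (c z.1 i j - e0 (p b) i j) + e0 (p b) i j := by ring
    rw [h3]
    refine (norm_add_le _ _).trans ?_
    linarith
  have hcl : ∀ (M M' A A' : Matrix (ι ⊕ Fin k) (ι ⊕ Fin k) ℂ) (c d : Matrix ι ι ℂ),
      (∀ i j, ‖M i j‖ ≤ C1 + 1) → (∀ i j, ‖A' i j‖ ≤ C1 + 1) →
      (∀ i j, ‖M i j - A i j‖ ≤ δ3) → (∀ i j, ‖M' i j - A' i j‖ ≤ δ3) →
      A * A' = Matrix.fromBlocks c 0 0 1 → (∀ i j, ‖d i j - c i j‖ < η1) →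
      ∀ i j, ‖(M * M') i j - Matrix.fromBlocks d 0 0 1 i j‖ < δ1 := by
    intro M M' A A' c d h1 h2 h3 h4 h5 h6 i j
    have g1 := CVN_mul M A M' A' (C1 + 1) δ3 hC1p.le hδ3p.le h1 h2 h3 h4 i j
    have g2 := CVN_blk (κ := Fin k) c d η1 hη1p (fun i j => by
      rw [norm_sub_rev]
      exact h6 i j) i j
    rw [h5] at g1
    have g3 : (Fintype.card (ι ⊕ Fin k) : ℝ) * (2 * (C1 + 1) * δ3) ≤ N * (2 * (C1 + 1) * δ3) := by
      refine mul_le_mul_of_nonneg_right ?_ (by positivity)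
      rw [hN]
      linarith
    have g4 : (M * M') i j - Matrix.fromBlocks d 0 0 1 i j =
        ((M * M') i j - Matrix.fromBlocks c 0 0 1 i j) +
        (Matrix.fromBlocks c 0 0 1 i j - Matrix.fromBlocks d 0 0 1 i j) := by ring
    rw [g4]
    refine (norm_add_le _ _).trans_lt ?_
    linarith
  have hK12 : K0Eq (fun z : Nerve W => b1 z.1) (fun z : Nerve W => b2 z.1) := by
    refine H1 _ _ _ (fun z : Nerve W => CVN_av w x z.1) (fun z : Nerve W => CVN_av w y z.1)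
      (continuousOn_iff_continuous_domRestrict.1 hb1)
      (continuousOn_iff_continuous_domRestrict.1 hb2)
      ((CVN_avc w x).comp continuous_subtype_val) ((CVN_avc w y).comp continuous_subtype_val)
      (fun z => hbb1 z.1 z.2) (fun z => hbb2 z.1 z.2) (hbb e b1 hCe hbe1) (hbb e' b2 hCe' hbe2)
      (fun z => hXb z.1 z.2) (fun z => hYb z.1 z.2) ?_ ?_
    · intro z i j
      obtain ⟨b, hb⟩ := z.2.2.2
      exact hcl _ _ (x b) (y b) (e (p b)) (b1 z.1) (hXb z.1 z.2)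
        (fun i j => ((hCy b i j).trans hC1y).trans (by linarith)) (hXx z.1 z.2 b hb)
        (hYy z.1 z.2 b hb) (hxy b).1 (hbe1 z.1 z.2 b hb) i j
    · intro z i j
      obtain ⟨b, hb⟩ := z.2.2.2
      exact hcl _ _ (y b) (x b) (e' (p b)) (b2 z.1) (hYb z.1 z.2)
        (fun i j => ((hCx b i j).trans hC1x).trans (by linarith)) (hYy z.1 z.2 b hb)
        (hXx z.1 z.2 b hb) (hxy b).2 (hbe2 z.1 z.2 b hb) i j
  have J1 : ∀ z : Nerve W, b1 z.1 * b1 z.1 = b1 z.1 := fun z => hbb1 z.1 z.2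
  have J2 : ∀ z : Nerve W, b2 z.1 * b2 z.1 = b2 z.1 := fun z => hbb2 z.1 z.2
  have K3 := (hCTR (Nerve W) ι ι ι (fun z => b1 z.1) (fun z => a (pushN ρ z.1))
    (fun z => b1 z.1) J1 I1 J1).1 K1
  have K4 := (hCTR (Nerve W) ι ι ι (fun z => a (pushN ρ z.1)) (fun z => b1 z.1)
    (fun z => b2 z.1) I1 J1 J2).2.1 K3 hK12
  have K5 := (hCTR (Nerve W) ι ι ι (fun z => a (pushN ρ z.1)) (fun z => b2 z.1)
    (fun z => a' (pushN ρ z.1)) I1 J2 I2).2.1 K4 K2
  exact ⟨m, W, ρ, hW, hWU, K5⟩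

end INJ
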