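import Pool.Agent.INJ.P_CAV
import Pool.Agent.INJ.P_CCV
import Pool.Agent.INJ.P_CEC
import Pool.Agent.INJ.P_CFN
import Pool.Agent.INJ.P_CNE
import Pool.Agent.INJ.P_CNV
import Pool.Agent.INJ.P_CNW
import Pool.Agent.INJ.P_CPE
import Pool.Agent.INJ.P_CPS
import Pool.Agent.INJ.P_CPU
import Pool.Agent.INJ.P_CTR
import Pool.Agent.INJ.P_CVN
import Pool.Agent.INJ.All
import Pool.Agent.INJ.MainC

set_option autoImplicit false

/-!
# INJ: final assembly, Cech version
-/

namespace INJ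

theorem mainC_all : MainC := by
  have hCNE : T_CNE := p_CNE
  have hCTR : T_CTR := p_CTR
  have hCPU : T_CPU := p_CPU
  have hCPS : T_CPS := p_CPS
  have hCNV : T_CNV := p_CNV hCNE hCTR hCPU hCPS
  have hCFN : T_CFN := p_CFN
  have hCAV : T_CAV := p_CAV
  have hCNW : T_CNW := p_CNW
  have hCCV : T_CCV := p_CCV hCNW hCAV
  have hCPE : T_CPE := p_CPE
  have hCVN : T_CVN := p_CVN hCNE hCTR hCPS hCFN hCAV hCCV hCPE
  have hCEC : T_CEC := p_CEC hCNV hCVN hCCV hCFN
  exact mainC main_all hCEC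

end INJ
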