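import Pool.Agent.INJ.Defs

set_option autoImplicit false

/-!
# INJ, part C: nerves of finite covers (Cech extension)
-/

namespace INJ

/-- geometric realisation of the nerve of a finite family of sets, in barycentric coordinates:
the sets `U i` with `x i ≠ 0` have a common point -/
def Nerve {X : Type} {n : ℕ} (U : Fin n → Set X) : Set (Fin n → ℝ) :=
  {x | (∀ i, 0 ≤ x i) ∧ ∑ i, x i = 1 ∧ ∃ b, ∀ i, x i ≠ 0 → b ∈ U i}

/-- finite open covers -/
def IsCov {X : Type} [TopologicalSpace X] {n : ℕ} (U : Fin n → Set X) : Prop :=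
  (∀ i, IsOpen (U i)) ∧ ∀ b, ∃ i, b ∈ U i

/-- the simplicial map induced by a map of vertices -/
def pushN {m n : ℕ} (ρ : Fin m → Fin n) (x : Fin m → ℝ) : Fin n → ℝ :=
  fun j => ∑ i, if ρ i = j then x i else 0

end INJ
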