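import Mathlib

set_option autoImplicit false

/-!
# INJ: notions used in the final statement (MP_dda0f0_gt)
-/

namespace INJ

/-- `p : E → B` is a Hurewicz fibration: homotopy lifting property for all spaces `X`. -/
def IsHurewicz {E B : Type} [TopologicalSpace E] [TopologicalSpace B] (p : E → B) : Prop :=
  ∀ (X : Type) [TopologicalSpace X] (H : C(X × unitInterval, B)) (h : C(X, E)),
    (∀ x, p (h x) = H (x, 0)) →
    ∃ K : C(X × unitInterval, E), (∀ x, K (x, 0) = h x) ∧ ∀ z, p (K z) = H z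

/-- Idempotent matrices `e`, `e'` of continuous functions on `X` have the same class in
`K⁰(X)` (Grothendieck group of idempotent matrices over `C(X, ℂ)`): for some `k` the idempotents
`e ⊕ 1_k` and `e' ⊕ 1_k` are of the form `x y` and `y x`. -/
def K0Eq {X ι κ : Type} [TopologicalSpace X] [Fintype ι] [Fintype κ] (e : X → Matrix ι ι ℂ)
    (e' : X → Matrix κ κ ℂ) : Prop :=
  ∃ (k : ℕ) (x : X → Matrix (ι ⊕ Fin k) (κ ⊕ Fin k) ℂ)
    (y : X → Matrix (κ ⊕ Fin k) (ι ⊕ Fin k) ℂ), Continuous x ∧ Continuous y ∧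
    ∀ b, x b * y b = Matrix.fromBlocks (e b) 0 0 1 ∧ y b * x b = Matrix.fromBlocks (e' b) 0 0 1

end INJ
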