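import Pool.Agent.INJ.FTargets

set_option autoImplicit false
set_option maxHeartbeats 4000000

/-!
# INJ, part F: compatibility of the coordinates of the lift of a path
-/

namespace INJ

open TopologicalSpace

noncomputable section

lemma LF2_rot_inj {k : ℕ} (c d : Circle) (v : Sph k) (h : rot c v = rot d v) : c = d := by
  have h1 : rot (d⁻¹ * c) v = v := by
    rw [← rot_rot, h, rot_rot, inv_mul_cancel, rot_one]
  have h2 := dist_self_rot (d⁻¹ * c) v
  rw [h1, dist_self] at h2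
  have h3 : (1 : ℂ) - ((d⁻¹ * c : Circle) : ℂ) = 0 := norm_eq_zero.1 h2.symm
  have h4 : ((d⁻¹ * c : Circle) : ℂ) = ((1 : Circle) : ℂ) := by
    rw [Circle.coe_one]
    exact (sub_eq_zero.1 h3).symm
  have h5 : d⁻¹ * c = 1 := Circle.coe_injective h4
  exact (inv_mul_eq_one.1 h5).symm

/-- the relation used to define the comparison function -/
def LF2_R (b : unitInterval → OrbSp GG PX) (k : (i : ℕ) → unitInterval → Sph (N i)) (i : ℕ) :
    Set (unitInterval × (PX × Circle × Circle)) :=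
  {z | omk GG PX z.2.1 = b z.1 ∧ z.2.2.1 ^ N i = 1 ∧ z.2.2.2 ^ N (i + 1) = 1 ∧
    k i z.1 = rot z.2.2.1 (z.2.1.val i) ∧ k (i + 1) z.1 = rot z.2.2.2 (z.2.1.val (i + 1))}

/-- the comparison value -/
def LF2_v (i : ℕ) (z : unitInterval × (PX × Circle × Circle)) : Circle :=
  z.2.2.2 ^ N i * (z.2.2.1)⁻¹

lemma LF2_N (i : ℕ) : N (i + 1) = N i * N i := by
  unfold N
  rw [← pow_add, pow_succ, mul_two]

lemma LF2_N_pos (i : ℕ) : 0 < N i := by unfold N; positivity

lemma LF2_closed (hOC : T_OC) (b : unitInterval → OrbSp GG PX)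
    (k : (i : ℕ) → unitInterval → Sph (N i)) (hb : Continuous b) (hk : ∀ i, Continuous (k i))
    (i : ℕ) : IsClosed (LF2_R b k i) := by
  have ho : Continuous (omk GG PX) := (hOC GG PX).1
  have hq : Continuous fun z : unitInterval × (PX × Circle × Circle) => z.2.1 := by fun_prop
  have hc : Continuous fun z : unitInterval × (PX × Circle × Circle) => z.2.2.1 := by fun_prop
  have hc' : Continuous fun z : unitInterval × (PX × Circle × Circle) => z.2.2.2 := by fun_prop
  have hv : ∀ j, Continuous fun z : unitInterval × (PX × Circle × Circle) => z.2.1.val j :=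
    fun j => (continuous_apply j).comp (PX_continuous_val.comp hq)
  have e : LF2_R b k i = {z | omk GG PX z.2.1 = b z.1} ∩ ({z | z.2.2.1 ^ N i = 1} ∩
      ({z | z.2.2.2 ^ N (i + 1) = 1} ∩ ({z | k i z.1 = rot z.2.2.1 (z.2.1.val i)} ∩
      {z | k (i + 1) z.1 = rot z.2.2.2 (z.2.1.val (i + 1))}))) := rfl
  rw [e]
  refine IsClosed.inter (isClosed_eq (ho.comp hq) (hb.comp continuous_fst))
    (IsClosed.inter (isClosed_eq (hc.pow _) continuous_const)
    (IsClosed.inter (isClosed_eq (hc'.pow _) continuous_const)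
    (IsClosed.inter (isClosed_eq ((hk i).comp continuous_fst)
      (continuous_rot2.comp (hc.prodMk (hv i))))
    (isClosed_eq ((hk (i + 1)).comp continuous_fst)
      (continuous_rot2.comp (hc'.prodMk (hv (i + 1))))))))

lemma LF2_uniq (hOQ : T_OQ) (b : unitInterval → OrbSp GG PX)
    (k : (i : ℕ) → unitInterval → Sph (N i)) (i : ℕ) (t : unitInterval) (q q' : PX)
    (c c' d d' : Circle) (h1 : (t, (q, c, c')) ∈ LF2_R b k i)
    (h2 : (t, (q', d, d')) ∈ LF2_R b k i) :
    c' ^ N i * c⁻¹ = d' ^ N i * d⁻¹ := by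
  obtain ⟨a1, a2, a3, a4, a5⟩ := h1
  obtain ⟨b1, b2, b3, b4, b5⟩ := h2
  dsimp only at a1 a2 a3 a4 a5 b1 b2 b3 b4 b5
  obtain ⟨g, hg⟩ := (hOQ GG PX q q').1 (a1.trans b1.symm)
  have e1 : q.val = fun i => rot (g.1 i) (q'.val i) := by rw [hg, smul_val]
  have e2 : rot d (q'.val i) = rot (c * g.1 i) (q'.val i) := by
    rw [← b4, a4, e1, rot_rot]
  have e3 : rot d' (q'.val (i + 1)) = rot (c' * g.1 (i + 1)) (q'.val (i + 1)) := by
    rw [← b5, a5, e1, rot_rot]
  have e4 := LF2_rot_inj _ _ _ e2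
  have e5 := LF2_rot_inj _ _ _ e3
  have e6 : g.1 (i + 1) ^ N i = g.1 i := g.2.2 i
  rw [e4, e5, mul_pow, e6, mul_inv]
  calc c' ^ N i * c⁻¹ = c' ^ N i * c⁻¹ * (g.1 i * (g.1 i)⁻¹) := by
        rw [mul_inv_cancel, mul_one]
    _ = c' ^ N i * g.1 i * (c⁻¹ * (g.1 i)⁻¹) := by
        rw [mul_assoc, mul_assoc, mul_left_comm c⁻¹]

theorem p_LF2 (hOQ : T_OQ) (hOC : T_OC) (hCG : T_CG) (hGI : T_GI) : T_LF2 := by
  intro b k p0 hb hk hp0 hk0 hex t
  have hsurj : ∀ t, ∃ q : PX, omk GG PX q = b t := fun t => (hOC GG PX).2.2 (b t)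
  have key : ∀ (i : ℕ) (t : unitInterval) (q : PX) (c c' : Circle),
      (t, (q, c, c')) ∈ LF2_R b k i → c' ^ N i * c⁻¹ = 1 := by
    intro i t q c c' hR
    have hR' : ∀ t, ∃ z : PX × Circle × Circle, (t, z) ∈ LF2_R b k i := by
      intro t
      obtain ⟨q, hq⟩ := hsurj t
      obtain ⟨c, hc1, hc2⟩ := hex i t q hq
      obtain ⟨c', hc1', hc2'⟩ := hex (i + 1) t q hq
      exact ⟨(q, c, c'), hq, hc1, hc1', hc2, hc2'⟩
    choose z hz using hR'
    have hcont : Continuous fun t => LF2_v i (t, z t) := by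
      refine hCG unitInterval (PX × Circle × Circle) Circle (LF2_R b k i) (LF2_v i) _
        (LF2_closed hOC b k hb hk i) ?_ (fun t => ⟨z t, hz t⟩) ?_
      · unfold LF2_v
        fun_prop
      · intro t y hy
        exact LF2_uniq hOQ b k i t _ _ _ _ _ _ hy (hz t)
    have hpow : ∀ t, LF2_v i (t, z t) ^ N i = 1 := by
      intro t
      obtain ⟨a1, a2, a3, a4, a5⟩ := hz t
      dsimp only at a2 a3
      unfold LF2_v
      dsimp only
      rw [mul_pow, ← pow_mul, ← LF2_N, a3, inv_pow, a2, inv_one, one_mul]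
    have hconst := hGI (N i) (LF2_N_pos i) _ hcont hpow t
    have h0 : LF2_v i (0, z 0) = 1 := by
      have hR0 : (0, (p0, 1, 1)) ∈ LF2_R b k i := by
        refine ⟨hp0, one_pow _, one_pow _, ?_, ?_⟩
        · dsimp only
          rw [rot_one, hk0]
        · dsimp only
          rw [rot_one, hk0]
      have := LF2_uniq hOQ b k i 0 _ _ _ _ _ _ (hz 0) hR0
      rw [one_pow, inv_one, one_mul] at this
      exact this
    have h1 := LF2_uniq hOQ b k i t _ _ _ _ _ _ hR (hz t)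
    rw [h1]
    exact hconst.trans h0
  obtain ⟨q, hq⟩ := hsurj t
  choose c hc1 hc2 using fun i => hex i t q hq
  have hc3 : ∀ i, c (i + 1) ^ N i = c i := by
    intro i
    have := key i t q (c i) (c (i + 1)) ⟨hq, hc1 i, hc1 (i + 1), hc2 i, hc2 (i + 1)⟩
    exact mul_inv_eq_one.1 this
  rw [← hq]
  refine (hOQ GG PX _ _).2 ⟨⟨c, hc1, hc3⟩, ?_⟩
  have : (fun i => k i t) = fun i => rot (c i) (q.val i) := funext hc2
  rw [this]
  rfl

end

end INJ
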