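import Pool.Agent.INJ.FTargets

set_option autoImplicit false

/-!
# INJ, part F: the orbit map is a continuous open surjection
-/

namespace INJ

open TopologicalSpace

noncomputable section

theorem p_OC (hOD : T_OD) (hOQ : T_OQ) : T_OC := by
  intro G X _ _ _ _ _ _ _
  refine ⟨?_, ?_, ?_⟩
  · refine Metric.continuous_iff.2 fun y ε hε => ⟨ε, hε, fun x hx => ?_⟩
    have h := (hOD G X x y).2 1
    rw [one_smul] at h
    exact h.trans_lt hx
  · intro U hU
    rw [Metric.isOpen_iff]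
    rintro _ ⟨x, hx, rfl⟩
    obtain ⟨r, hr, hb⟩ := Metric.isOpen_iff.1 hU x hx
    refine ⟨r, hr, ?_⟩
    rintro ⟨_, y, rfl⟩ ha
    have ha' : dist (omk G X x) (omk G X y) < r := by
      rw [dist_comm]
      exact ha
    obtain ⟨g, hg⟩ := (hOD G X x y).1
    refine ⟨g • y, hb ?_, ?_⟩
    · rw [Metric.mem_ball, dist_comm, ← hg]
      exact ha'
    · exact (hOQ G X _ _).2 ⟨g, rfl⟩
  · rintro ⟨_, x, rfl⟩
    exact ⟨x, rfl⟩

end

end INJ
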