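import Pool.Agent.INJ.FTargets

set_option autoImplicit false

/-!
# INJ, target XQ: the pull back of the orbit map is an open surjection
-/

namespace INJ

open TopologicalSpace Topology

theorem p_XQ (hOC : T_OC) : T_XQ := by
  intro G P _ _ _ _ _ _ _ X _ f hf
  obtain ⟨-, hopen, hsurj⟩ := hOC G P
  have hq : IsOpenMap fun z : {z : X × P // omk G P z.2 = f z.1} => z.1.1 := by
    refine IsOpenMap.of_nhds_le ?_
    rintro ⟨⟨x, p⟩, h⟩ S hS
    obtain ⟨T, hT, hTS⟩ := (mem_nhds_induced _ _ _).1 (Filter.mem_map.1 hS)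
    obtain ⟨U, hU, V, hV, hUV⟩ := mem_nhds_prod_iff.1 hT
    have h1 : f ⁻¹' (omk G P '' V) ∈ 𝓝 x := by
      refine hf.continuousAt.preimage_mem_nhds ?_
      have h2 : omk G P p = f x := h
      rw [← h2]
      exact hopen.image_mem_nhds hV
    filter_upwards [hU, h1] with x' hx' hx2
    obtain ⟨p', hp', hp2⟩ := hx2
    have h3 : (⟨(x', p'), hp2⟩ : {z : X × P // omk G P z.2 = f z.1}) ∈
        (fun z : {z : X × P // omk G P z.2 = f z.1} => z.1.1) ⁻¹' S :=
      hTS (hUV ⟨hx', hp'⟩)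
    exact h3
  have hcont : Continuous fun z : {z : X × P // omk G P z.2 = f z.1} => z.1.1 :=
    continuous_fst.comp continuous_subtype_val
  refine (hq.prodMap IsOpenMap.id).isQuotientMap (hcont.prodMap continuous_id) ?_
  rintro ⟨x, t⟩
  obtain ⟨p, hp⟩ := hsurj (f x)
  exact ⟨(⟨(x, p), hp⟩, t), rfl⟩

end INJ
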