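import Pool.Agent.INJ.P_HUR
import Pool.Agent.INJ.P_LF2
import Pool.Agent.INJ.P_FIB
import Pool.Agent.INJ.P_HM
import Pool.Agent.INJ.P_LFP
import Pool.Agent.INJ.P_LF1
import Pool.Agent.INJ.P_OD
import Pool.Agent.INJ.P_OC
import Pool.Agent.INJ.P_XQ
import Pool.Agent.INJ.P_COV
import Pool.Agent.INJ.P_SLC
import Pool.Agent.INJ.P_CLI
import Pool.Agent.INJ.P_PLC
import Pool.Agent.INJ.P_FAC
import Pool.Agent.INJ.P_EPI
import Pool.Agent.INJ.P_BAS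
import Pool.Agent.INJ.P_FAB
import Pool.Agent.INJ.P_OQ
import Pool.Agent.INJ.P_CG
import Pool.Agent.INJ.P_CFI
import Pool.Agent.INJ.P_GI
import Pool.Agent.INJ.P_SCN
import Pool.Agent.INJ.P_OLC

set_option autoImplicit false

/-!
# INJ, part F: all targets without hypotheses
-/

namespace INJ

theorem f_OQ : T_OQ := p_OQ
theorem f_OD : T_OD := p_OD
theorem f_CG : T_CG := p_CG
theorem f_CFI : T_CFI := p_CFI
theorem f_GI : T_GI := p_GI f_CFI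
theorem f_OC : T_OC := p_OC f_OD f_OQ
theorem f_FAC : T_FAC := p_FAC f_OQ f_OC
theorem f_EPI : T_EPI := p_EPI f_OQ f_OC f_FAC
theorem f_FIB : T_FIB := p_FIB f_OD f_OQ f_EPI
theorem f_HM : T_HM := p_HM f_OD f_FIB
theorem f_XQ : T_XQ := p_XQ f_OC
theorem f_HUR : T_HUR := p_HUR f_OQ f_OC f_EPI f_FIB f_HM f_XQ
theorem f_COV : T_COV := p_COV f_OQ f_OC
theorem f_CLI : T_CLI := p_CLI
theorem f_LF1 : T_LF1 := p_LF1 f_OQ f_CG f_GI
theorem f_LF2 : T_LF2 := p_LF2 f_OQ f_OC f_CG f_GI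
theorem f_LFP : T_LFP := p_LFP f_OQ f_OC f_FAC f_COV f_CLI f_CFI f_LF1 f_LF2
theorem f_SCN : T_SCN := p_SCN
theorem f_SLC : T_SLC := p_SLC
theorem f_PLC : T_PLC := p_PLC
theorem f_OLC : T_OLC := p_OLC
theorem f_BAS : T_BAS := p_BAS f_OC f_SCN f_SLC f_PLC f_OLC
theorem f_FAB : T_FAB := p_FAB f_OC f_EPI f_FIB f_HUR f_LFP

end INJ
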