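import Pool.Agent.INJ.FInst

set_option autoImplicit false

/-!
# INJ, part F: sum spaces (instances), descent of invariant maps, finite cyclic groups
-/

namespace INJ

open TopologicalSpace

noncomputable section

/-! ### Sum spaces -/

section sum

variable {P M : Type}

lemma SumSp.ext' {x y : SumSp P M} (h1 : x.fst = y.fst) (h2 : x.snd = y.snd) : x = y := by
  cases x; cases y; simp only at h1 h2; rw [h1, h2]

lemma SumSp.dist_eq [MetricSpace P] [MetricSpace M] (x y : SumSp P M) :
    dist x y = dist x.fst y.fst + dist x.snd y.snd := by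
  have h := WithLp.prod_dist_eq_add (p := 1) (by simp) x.toL y.toL
  have h0 : dist x y = dist x.toL y.toL := rfl
  rw [h0, h]
  simp only [ENNReal.toReal_one, Real.rpow_one, div_one]
  rfl

lemma SumSp.continuous_toL [MetricSpace P] [MetricSpace M] :
    Continuous (SumSp.toL (P := P) (M := M)) := continuous_induced_dom

lemma SumSp.continuous_fst [MetricSpace P] [MetricSpace M] :
    Continuous (SumSp.fst (P := P) (M := M)) := by
  have h : Continuous fun x : SumSp P M => (WithLp.ofLp x.toL).1 :=
    _root_.continuous_fst.comp ((WithLp.prod_continuous_ofLp 1 P M).comp SumSp.continuous_toL)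
  exact h

lemma SumSp.continuous_snd [MetricSpace P] [MetricSpace M] :
    Continuous (SumSp.snd (P := P) (M := M)) := by
  have h : Continuous fun x : SumSp P M => (WithLp.ofLp x.toL).2 :=
    _root_.continuous_snd.comp ((WithLp.prod_continuous_ofLp 1 P M).comp SumSp.continuous_toL)
  exact h

lemma SumSp.continuous_mk [MetricSpace P] [MetricSpace M] :
    Continuous fun z : P × M => (⟨z.1, z.2⟩ : SumSp P M) := by
  refine continuous_induced_rng.2 ?_
  exact WithLp.prod_continuous_toLp 1 P M

/-- the sum space is homeomorphic to the product -/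
def homeoSum (P M : Type) [MetricSpace P] [MetricSpace M] : P × M ≃ₜ SumSp P M where
  toFun := fun z => ⟨z.1, z.2⟩
  invFun := fun x => (x.fst, x.snd)
  left_inv := fun _ => rfl
  right_inv := fun _ => rfl
  continuous_toFun := SumSp.continuous_mk
  continuous_invFun := SumSp.continuous_fst.prodMk SumSp.continuous_snd

instance [MetricSpace P] [MetricSpace M] [CompactSpace P] [CompactSpace M] :
    CompactSpace (SumSp P M) := (homeoSum P M).compactSpace

lemma SumSp.smul_fst {G : Type} [Group G] [MulAction G P] [MulAction G M] (g : G)
    (x : SumSp P M) : (g • x).fst = g • x.fst := rfl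

lemma SumSp.smul_snd {G : Type} [Group G] [MulAction G P] [MulAction G M] (g : G)
    (x : SumSp P M) : (g • x).snd = g • x.snd := rfl

instance {G : Type} [Group G] [TopologicalSpace G] [MetricSpace P] [MetricSpace M]
    [MulAction G P] [MulAction G M] [ContinuousSMul G P] [ContinuousSMul G M] :
    ContinuousSMul G (SumSp P M) where
  continuous_smul := by
    have h1 : Continuous fun z : G × SumSp P M => z.1 • z.2.fst :=
      _root_.continuous_fst.smul (SumSp.continuous_fst.comp _root_.continuous_snd)
    have h2 : Continuous fun z : G × SumSp P M => z.1 • z.2.snd :=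
      _root_.continuous_fst.smul (SumSp.continuous_snd.comp _root_.continuous_snd)
    exact SumSp.continuous_mk.comp (h1.prodMk h2)

instance {G : Type} [Group G] [MetricSpace P] [MetricSpace M]
    [MulAction G P] [MulAction G M] [IsIsometricSMul G P] [IsIsometricSMul G M] :
    IsIsometricSMul G (SumSp P M) where
  isometry_smul g := by
    refine Isometry.of_dist_eq fun x y => ?_
    rw [SumSp.dist_eq, SumSp.dist_eq, SumSp.smul_fst, SumSp.smul_fst, SumSp.smul_snd,
      SumSp.smul_snd, dist_smul, dist_smul]

end sum

/-! ### Descent of invariant maps -/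

section descent

variable (G X : Type) [Group G] [TopologicalSpace G] [CompactSpace G] [MetricSpace X]
  [MulAction G X] [ContinuousSMul G X]

/-- the function on the orbit space defined by an invariant function -/
def fac {Y : Type} (f : X → Y) (a : OrbSp G X) : Y := f (Classical.choose a.2)

variable (P M : Type) [MetricSpace P] [MetricSpace M] [MulAction G P] [MulAction G M]
  [ContinuousSMul G P] [ContinuousSMul G M]

/-- the projection `(P × M)/G → P/G` -/
def epi : OrbSp G (SumSp P M) → OrbSp G P :=
  fac G (SumSp P M) fun y => omk G P y.fst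

/-- homotopies lift along the orbit map, and lifts of paths are unique -/
def HasLift : Prop :=
  (∀ (Z : Type) [TopologicalSpace Z] (H : C(Z × unitInterval, OrbSp G P)) (h : C(Z, P)),
    (∀ z, omk G P (h z) = H (z, 0)) →
    ∃ K : C(Z × unitInterval, P), (∀ z, K (z, 0) = h z) ∧ ∀ y, omk G P (K y) = H y) ∧
  ∀ a b : C(unitInterval, P), (∀ t, omk G P (a t) = omk G P (b t)) → a 0 = b 0 → a = b

end descent

/-! ### Finite cyclic groups acting on spheres -/

/-- the group of roots of unity of order `n` -/
def CC (n : ℕ) : Subgroup Circle where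
  carrier := {c | c ^ n = 1}
  mul_mem' := by
    intro a b ha hb
    change (a * b) ^ n = 1
    rw [mul_pow, show a ^ n = 1 from ha, show b ^ n = 1 from hb, one_mul]
  one_mem' := one_pow _
  inv_mem' := by
    intro a ha
    change a⁻¹ ^ n = 1
    rw [inv_pow, show a ^ n = 1 from ha, inv_one]

lemma isClosed_CC (n : ℕ) : IsClosed (CC n : Set Circle) := by
  have h : (CC n : Set Circle) = {c | c ^ n = 1} := rfl
  rw [h]
  exact isClosed_eq (continuous_id.pow _) continuous_const

instance (n : ℕ) : CompactSpace (CC n) := isCompact_iff_compactSpace.1 (isClosed_CC n).isCompact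

instance (n k : ℕ) : MulAction (CC n) (Sph k) where
  smul c v := rot c.1 v
  one_smul v := rot_one v
  mul_smul c d v := (rot_rot c.1 d.1 v).symm

lemma CC_smul {n k : ℕ} (c : CC n) (v : Sph k) : c • v = rot c.1 v := rfl

instance (n k : ℕ) : ContinuousSMul (CC n) (Sph k) where
  continuous_smul := by
    have h1 : Continuous fun z : CC n × Sph k => z.1.1 :=
      continuous_subtype_val.comp continuous_fst
    exact continuous_rot2.comp (h1.prodMk continuous_snd)

instance (n k : ℕ) : IsIsometricSMul (CC n) (Sph k) where
  isometry_smul c := Isometry.of_dist_eq fun v w => dist_rot c.1 v w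

/-- the rotation action on a sphere is free -/
lemma CC_free {n k : ℕ} (c : CC n) (v : Sph k) (h : c • v = v) : c = 1 := by
  have h2 := dist_self_rot c.1 v
  rw [show rot c.1 v = v from h, dist_self] at h2
  have h3 : (1 : ℂ) - (c.1 : ℂ) = 0 := norm_eq_zero.1 h2.symm
  have h4 : ((c.1 : Circle) : ℂ) = ((1 : Circle) : ℂ) := by
    rw [Circle.coe_one]
    exact (sub_eq_zero.1 h3).symm
  exact Subtype.ext (Circle.coe_injective h4)

end

end INJ
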