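import Pool.Agent.INJ.KSp

set_option autoImplicit false

/-!
# INJ: the class `μ` on the Moore space, external products
-/

namespace INJ

open Matrix

noncomputable section

lemma radM_qq (z : Metric.closedBall (0 : ℂ) 1) : radM (qq z) = ‖(z : ℂ)‖ := by
  change ‖(z : ℂ) ^ 5‖ ^ (1 / 5 : ℝ) = _
  rw [norm_pow, ← Real.rpow_natCast, ← Real.rpow_mul (norm_nonneg _)]
  norm_num

lemma continuous_radM : Continuous radM := by
  have h : Continuous fun m : MM => ‖m.1.1‖ := by
    have : Continuous fun m : MM => m.1 := continuous_subtype_val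
    exact (continuous_fst.comp this).norm
  exact h.rpow_const fun _ => Or.inr (by norm_num)

lemma radM_pos (m : MM) : ((radM m ^ 2 + (1 - radM m) ^ 2 : ℝ) : ℂ) ≠ 0 := by
  have : 0 < radM m ^ 2 + (1 - radM m) ^ 2 := by
    nlinarith [sq_nonneg (radM m - (1 - radM m))]
  exact_mod_cast this.ne'

lemma continuous_eH : Continuous eH := by
  have h1 : Continuous fun m : MM => m.1.2 := by
    have : Continuous fun m : MM => m.1 := continuous_subtype_val
    exact continuous_snd.comp this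
  have h2 := continuous_radM
  have hA : Continuous fun m : MM => (((radM m) ^ 2 + (1 - radM m) ^ 2 : ℝ) : ℂ)⁻¹ := by
    refine Continuous.inv₀ ?_ radM_pos
    exact Complex.continuous_ofReal.comp (by fun_prop)
  have hB : Continuous fun m : MM => (!![((radM m ^ 2 : ℝ) : ℂ), m.1.2; star m.1.2,
      (((1 - radM m) ^ 2 : ℝ) : ℂ)] : Matrix (Fin 2) (Fin 2) ℂ) := by
    refine continuous_matrix fun i j => ?_
    fin_cases i <;> fin_cases j
    · exact Complex.continuous_ofReal.comp (h2.pow 2)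
    · exact h1
    · exact continuous_star.comp h1
    · exact Complex.continuous_ofReal.comp ((continuous_const.sub h2).pow 2)
  exact hA.smul hB

lemma eH_idem (m : MM) : eH m * eH m = eH m := by
  obtain ⟨z, rfl⟩ := qq_surj m
  have h0 := radM_pos (qq z)
  unfold eH
  rw [radM_qq] at h0 ⊢
  have hb : (qq z).1.2 = ((1 - ‖(z : ℂ)‖ : ℝ) : ℂ) * z := rfl
  have hz : (z : ℂ) * star (z : ℂ) = ((‖(z : ℂ)‖ ^ 2 : ℝ) : ℂ) := by
    rw [Complex.star_def, Complex.mul_conj, Complex.normSq_eq_norm_sq]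
  rw [hb, Matrix.smul_mul, Matrix.mul_smul, smul_smul]
  set r : ℝ := ‖(z : ℂ)‖ with hr
  set c : ℂ := ((r ^ 2 + (1 - r) ^ 2 : ℝ) : ℂ) with hc
  have key : (!![((r ^ 2 : ℝ) : ℂ), ((1 - r : ℝ) : ℂ) * z; star (((1 - r : ℝ) : ℂ) * z),
      (((1 - r) ^ 2 : ℝ) : ℂ)] : Matrix (Fin 2) (Fin 2) ℂ) *
      !![((r ^ 2 : ℝ) : ℂ), ((1 - r : ℝ) : ℂ) * z; star (((1 - r : ℝ) : ℂ) * z),
      (((1 - r) ^ 2 : ℝ) : ℂ)] = c • !![((r ^ 2 : ℝ) : ℂ), ((1 - r : ℝ) : ℂ) * z;
      star (((1 - r : ℝ) : ℂ) * z), (((1 - r) ^ 2 : ℝ) : ℂ)] := by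
    have e1 : star (((1 - r : ℝ) : ℂ) * z) = ((1 - r : ℝ) : ℂ) * star (z : ℂ) := by
      rw [star_mul', Complex.star_def, Complex.conj_ofReal]
    rw [e1]
    ext i j
    fin_cases i <;> fin_cases j
    · simp only [Matrix.mul_apply, Fin.sum_univ_two, Matrix.smul_apply, Fin.zero_eta,
        Matrix.of_apply, Matrix.cons_val', Matrix.cons_val_zero, Matrix.cons_val_one,
        Matrix.cons_val_fin_one, smul_eq_mul]
      calc _ = ((r ^ 2 : ℝ) : ℂ) ^ 2 + ((1 - r : ℝ) : ℂ) ^ 2 * ((z : ℂ) * star (z : ℂ)) := by ring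
        _ = _ := by rw [hz, hc]; push_cast; ring
    · simp only [Matrix.mul_apply, Fin.sum_univ_two, Matrix.smul_apply, Fin.zero_eta, Fin.mk_one,
        Matrix.of_apply, Matrix.cons_val', Matrix.cons_val_zero, Matrix.cons_val_one,
        Matrix.cons_val_fin_one, smul_eq_mul]
      rw [hc]; push_cast; ring
    · simp only [Matrix.mul_apply, Fin.sum_univ_two, Matrix.smul_apply, Fin.zero_eta, Fin.mk_one,
        Matrix.of_apply, Matrix.cons_val', Matrix.cons_val_zero, Matrix.cons_val_one,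
        Matrix.cons_val_fin_one, smul_eq_mul]
      rw [hc]; push_cast; ring
    · simp only [Matrix.mul_apply, Fin.sum_univ_two, Matrix.smul_apply, Fin.mk_one,
        Matrix.of_apply, Matrix.cons_val', Matrix.cons_val_zero, Matrix.cons_val_one,
        Matrix.cons_val_fin_one, smul_eq_mul]
      calc _ = ((1 - r : ℝ) : ℂ) ^ 2 * ((z : ℂ) * star (z : ℂ)) +
            (((1 - r) ^ 2 : ℝ) : ℂ) ^ 2 := by ring
        _ = _ := by rw [hz, hc]; push_cast; ring
  rw [key, smul_smul]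
  congr 1
  field_simp

/-- the tautological line bundle on the Moore space, weights 0 -/
def EH (Y : Type) [TopologicalSpace Y] (s : Y → Y) (ζ : Circle) :
    Idf (Y × MM) (Prod.map s id) ζ (Fin 2) where
  w := fun _ => 0
  e := fun p => eH p.2
  cont := continuous_eH.comp continuous_snd
  idem := fun p => eH_idem p.2
  eqv := fun p i j => by simp [Prod.map]

/-- the trivial line bundle, weight 0 -/
def tr1 (Y : Type) [TopologicalSpace Y] (s : Y → Y) (ζ : Circle) : Idf Y s ζ (Fin 1) :=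
  Idf.triv fun _ => 0

/-- the class `μ` -/
def mu (Y : Type) [TopologicalSpace Y] (s : Y → Y) (ζ : Circle) :
    KG (Y × MM) (Prod.map s id) ζ := (EH Y s ζ).cls - (tr1 (Y × MM) (Prod.map s id) ζ).cls

/-- product of an equivariant map with the Moore space -/
def EMap.prodM {Y' : Type} [TopologicalSpace Y'] {s' : Y' → Y'} {Y : Type} [TopologicalSpace Y]
    {s : Y → Y} (f : EMap Y' s' Y s) : EMap (Y' × MM) (Prod.map s' id) (Y × MM) (Prod.map s id) where
  f := fun p => (f.f p.1, p.2)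
  cont := (f.cont.comp continuous_fst).prodMk continuous_snd
  eqv := fun p => by simp [Prod.map, f.eqv]

lemma tr1_pull {Y' : Type} [TopologicalSpace Y'] {s' : Y' → Y'} {Y : Type} [TopologicalSpace Y]
    {s : Y → Y} (ζ : Circle) (f : EMap Y' s' Y s) :
    pull f (tr1 Y s ζ).cls = (tr1 Y' s' ζ).cls := by
  rw [pull_cls]; rfl

/-- `μ` is natural -/
lemma mu_pull {Y' : Type} [TopologicalSpace Y'] {s' : Y' → Y'} {Y : Type} [TopologicalSpace Y]
    {s : Y → Y} (ζ : Circle) (f : EMap (Y' × MM) (Prod.map s' id) (Y × MM) (Prod.map s id))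
    (hf : ∀ p, (f.f p).2 = p.2) : pull f (mu Y s ζ) = mu Y' s' ζ := by
  unfold mu
  rw [map_sub, tr1_pull, pull_cls]
  congr 1
  refine cls_of_MvN (MvN.of_reindex (Equiv.refl _) (fun i => rfl) (fun y i j => ?_))
  change eH y.2 i j = eH (f.f y).2 i j
  rw [hf]

/-! ### Line bundles on the sphere -/

/-- normalised conjugate powers of the coordinates -/
def xiv {k : ℕ} (w : ℕ) (p : Sph k) (i : Fin k) : ℂ :=
  (star (p.1 i)) ^ w / ((Real.sqrt (∑ j, ‖p.1 j‖ ^ (2 * w)) : ℝ) : ℂ)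

/-- even part of the exterior algebra of `4 L` -/
def eP (p : Sph (N 0)) : Matrix (CP 4 × Fin (N 0)) (CP 4 × Fin (N 0)) ℂ :=
  Matrix.of fun a b => if a.1 = b.1 then xiv (cwP 4 a.1) p a.2 * star (xiv (cwP 4 a.1) p b.2) else 0

/-- odd part of the exterior algebra of `4 L` -/
def eM (p : Sph (N 0)) : Matrix (CM 4 × Fin (N 0)) (CM 4 × Fin (N 0)) ℂ :=
  Matrix.of fun a b => if a.1 = b.1 then xiv (cwM 4 a.1) p a.2 * star (xiv (cwM 4 a.1) p b.2) else 0

/-- restriction to the first `n` coordinates -/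
def resP (n : ℕ) (p : PP) : PT n := fun i => p i

end

end INJ
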