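import Pool.Agent.INJ.Defs
import Pool.Agent.INJ.KMu

set_option autoImplicit false

/-!
# INJ, part F: orbit spaces, sum metrics, the group `G` (definitions)
-/

namespace INJ

open TopologicalSpace

noncomputable section

/-! ### Orbit spaces of compact groups of isometries -/

section orbit

variable (G X : Type) [Group G] [TopologicalSpace G] [CompactSpace G] [MetricSpace X]
  [MulAction G X] [ContinuousSMul G X]

/-- the orbit of a point as a nonempty compact set -/
def orb (x : X) : NonemptyCompacts X where
  carrier := Set.range fun g : G => g • x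
  isCompact' := isCompact_range (by fun_prop)
  nonempty' := Set.range_nonempty _

/-- the orbit space, with the Hausdorff distance of orbits -/
def OrbSp : Type := Set.range (orb G X)

instance : MetricSpace (OrbSp G X) := inferInstanceAs (MetricSpace (Set.range (orb G X)))

/-- the orbit map -/
def omk (x : X) : OrbSp G X := ⟨orb G X x, x, rfl⟩

end orbit

/-! ### Sum metric -/

/-- product of two spaces, with the sum metric -/
structure SumSp (P M : Type) where
  /-- first coordinate -/
  fst : P
  /-- second coordinate -/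
  snd : M

variable {P M : Type}

/-- embedding in the `ℓ¹` product -/
def SumSp.toL (x : SumSp P M) : WithLp 1 (P × M) := WithLp.toLp 1 (x.fst, x.snd)

lemma SumSp.toL_inj : Function.Injective (SumSp.toL (P := P) (M := M)) := by
  rintro ⟨a, b⟩ ⟨c, d⟩ h
  have := congrArg WithLp.ofLp h
  simp only [SumSp.toL, Prod.mk.injEq] at this
  obtain ⟨rfl, rfl⟩ := this
  rfl

instance [MetricSpace P] [MetricSpace M] : MetricSpace (SumSp P M) :=
  MetricSpace.induced SumSp.toL SumSp.toL_inj inferInstance

instance {G : Type} [Group G] [MulAction G P] [MulAction G M] : MulAction G (SumSp P M) where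
  smul g x := ⟨g • x.fst, g • x.snd⟩
  one_smul x := by
    change (⟨(1 : G) • x.fst, (1 : G) • x.snd⟩ : SumSp P M) = x
    rw [one_smul, one_smul]
  mul_smul g h x := by
    change (⟨(g * h) • x.fst, (g * h) • x.snd⟩ : SumSp P M) = ⟨g • h • x.fst, g • h • x.snd⟩
    rw [mul_smul, mul_smul]

/-! ### The group `G` -/

/-- the group of all `c` with `c_i ^ N_i = 1`, `c_(i+1) ^ N_i = c_i` (5-adic integers) -/
def GG : Subgroup (ℕ → Circle) where
  carrier := {c | (∀ i, c i ^ N i = 1) ∧ ∀ i, c (i + 1) ^ N i = c i}
  mul_mem' := by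
    rintro a b ⟨ha, ha'⟩ ⟨hb, hb'⟩
    refine ⟨fun i => ?_, fun i => ?_⟩
    · rw [Pi.mul_apply, mul_pow, ha, hb, one_mul]
    · rw [Pi.mul_apply, Pi.mul_apply, mul_pow, ha', hb']
  one_mem' := ⟨fun i => one_pow _, fun i => one_pow _⟩
  inv_mem' := by
    rintro a ⟨ha, ha'⟩
    refine ⟨fun i => ?_, fun i => ?_⟩
    · rw [Pi.inv_apply, inv_pow, ha, inv_one]
    · rw [Pi.inv_apply, Pi.inv_apply, inv_pow, ha']

lemma rot_rot {k : ℕ} (c d : Circle) (v : Sph k) : rot c (rot d v) = rot (c * d) v := by
  apply Subtype.ext
  simp [rot, smul_smul]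

lemma rot_one {k : ℕ} (v : Sph k) : rot 1 v = v := by
  apply Subtype.ext
  simp [rot]

/-- `P` with its metric -/
structure PX where
  /-- underlying point -/
  val : PP

/-- metric of `P` -/
instance : MetricSpace PX :=
  letI : MetricSpace PP := PiCountable.metricSpace
  MetricSpace.induced PX.val (by rintro ⟨a⟩ ⟨b⟩ h; congr) inferInstance

instance : MulAction GG PX where
  smul c p := ⟨fun i => rot (c.1 i) (p.val i)⟩
  one_smul p := by
    change (⟨fun i => rot 1 (p.val i)⟩ : PX) = p
    simp only [rot_one]
  mul_smul c d p := by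
    change (⟨fun i => rot (c.1 i * d.1 i) (p.val i)⟩ : PX) =
      ⟨fun i => rot (c.1 i) (rot (d.1 i) (p.val i))⟩
    simp only [rot_rot]

end

end INJ
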