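import Pool.Agent.INJ.FDefs

set_option autoImplicit false

/-!
# INJ, part F: compactness and continuity of the action (instances)
-/

namespace INJ

open TopologicalSpace

noncomputable section

lemma isClosed_GG : IsClosed (GG : Set (ℕ → Circle)) := by
  have h : (GG : Set (ℕ → Circle)) =
      (⋂ i, {c | c i ^ N i = 1}) ∩ ⋂ i, {c | c (i + 1) ^ N i = c i} := by
    ext c
    simp only [Set.mem_inter_iff, Set.mem_iInter, Set.mem_ofPred_eq]
    exact Iff.rfl
  rw [h]
  refine IsClosed.inter (isClosed_iInter fun i => ?_) (isClosed_iInter fun i => ?_)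
  · exact isClosed_eq ((continuous_apply i).pow _) continuous_const
  · exact isClosed_eq ((continuous_apply (i + 1)).pow _) (continuous_apply i)

instance : CompactSpace GG := isCompact_iff_compactSpace.1 isClosed_GG.isCompact

lemma PX_continuous_val : Continuous PX.val := by
  let _ : MetricSpace PP := PiCountable.metricSpace
  exact continuous_induced_dom

lemma PX_continuous_mk : Continuous PX.mk := by
  let _ : MetricSpace PP := PiCountable.metricSpace
  exact continuous_induced_rng.2 continuous_id

/-- `P` with its metric is homeomorphic to the product of the spheres -/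
def homeoPX : PX ≃ₜ PP where
  toFun := PX.val
  invFun := PX.mk
  left_inv := fun _ => rfl
  right_inv := fun _ => rfl
  continuous_toFun := PX_continuous_val
  continuous_invFun := PX_continuous_mk

instance : CompactSpace PX := homeoPX.symm.compactSpace

lemma PX_dist (p q : PX) :
    dist p q = ∑' i, min (2⁻¹ ^ Encodable.encode i) (dist (p.val i) (q.val i)) := rfl

lemma continuous_rot2 {k : ℕ} : Continuous fun z : Circle × Sph k => rot z.1 z.2 := by
  have h : Continuous fun z : Circle × Sph k => (z.1 : ℂ) • z.2.1 := by
    have h0 : Continuous fun z : Circle × Sph k => (z.1 : ℂ) := by fun_prop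
    exact h0.smul
      (continuous_subtype_val.comp continuous_snd)
  exact h.subtype_mk _

lemma smul_val (c : GG) (p : PX) : (c • p).val = fun i => rot (c.1 i) (p.val i) := rfl

instance : ContinuousSMul GG PX where
  continuous_smul := by
    refine PX_continuous_mk.comp (continuous_pi fun i => ?_)
    have h1 : Continuous fun z : GG × PX => z.1.1 i :=
      (continuous_apply i).comp (continuous_subtype_val.comp continuous_fst)
    have h2 : Continuous fun z : GG × PX => z.2.val i :=
      (continuous_apply i).comp (PX_continuous_val.comp continuous_snd)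
    exact continuous_rot2.comp (h1.prodMk h2)

lemma dist_rot {k : ℕ} (c : Circle) (u v : Sph k) : dist (rot c u) (rot c v) = dist u v := by
  rw [Subtype.dist_eq, Subtype.dist_eq, dist_eq_norm, dist_eq_norm]
  change ‖(c : ℂ) • u.1 - (c : ℂ) • v.1‖ = _
  rw [← smul_sub, norm_smul, Circle.norm_coe, one_mul]

instance : IsIsometricSMul GG PX where
  isometry_smul c := by
    refine Isometry.of_dist_eq fun p q => ?_
    rw [PX_dist, PX_dist]
    refine tsum_congr fun i => ?_
    rw [smul_val, smul_val]
    dsimp only
    rw [dist_rot]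

lemma norm_sph {k : ℕ} (v : Sph k) : ‖v.1‖ = 1 := mem_sphere_zero_iff_norm.1 v.2

lemma dist_self_rot {k : ℕ} (c : Circle) (v : Sph k) : dist v (rot c v) = ‖1 - (c : ℂ)‖ := by
  rw [Subtype.dist_eq, dist_eq_norm]
  change ‖v.1 - (c : ℂ) • v.1‖ = _
  have : v.1 - (c : ℂ) • v.1 = (1 - (c : ℂ)) • v.1 := by rw [sub_smul, one_smul]
  rw [this, norm_smul, norm_sph, mul_one]

/-- displacement of points of `P` -/
lemma PX_disp (c : GG) (p : PX) :
    dist p (c • p) = ∑' i : ℕ, min (2⁻¹ ^ i) ‖1 - (c.1 i : ℂ)‖ := by
  rw [PX_dist]
  refine tsum_congr fun i => ?_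
  rw [smul_val]
  dsimp only
  rw [dist_self_rot]
  rfl

/-- the action on `P` is free -/
lemma PX_free (c : GG) (p : PX) (h : c • p = p) : c = 1 := by
  apply Subtype.ext
  funext i
  have h1 : rot (c.1 i) (p.val i) = p.val i := by
    have := congrArg PX.val h
    exact congrFun this i
  have h2 := dist_self_rot (c.1 i) (p.val i)
  rw [h1, dist_self] at h2
  have h3 : (1 : ℂ) - (c.1 i : ℂ) = 0 := norm_eq_zero.1 h2.symm
  have h4 : ((c.1 i : Circle) : ℂ) = ((1 : Circle) : ℂ) := by
    rw [Circle.coe_one]
    exact (sub_eq_zero.1 h3).symm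
  exact Circle.coe_injective h4

end

end INJ
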