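import Pool.Agent.INJ.MDefs

set_option autoImplicit false

/-!
# INJ, part M: targets (statements only; proofs in `MBlueprint.md`)
-/

namespace INJ

open Quaternion

noncomputable section

/-! ### A. Shapes -/

/-- profile function -/
def T_TS : Prop := ∀ κ : ℝ, 0 < κ → κ ≤ 1 / 8 →
  Continuous (ts κ) ∧ (∀ f, 0 ≤ ts κ f ∧ ts κ f ≤ 1) ∧
  (∀ f, ts κ f = 0 ↔ ‖f - ((9 / 20 : ℝ) : ℍ[ℝ])‖ ≤ 1 / 10) ∧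
  (∀ f, ts κ f < 1 ↔ ‖f‖ < 1) ∧
  (∀ s f, κ ≤ s → s < 1 → (ts κ f ≤ s ↔ Rk κ ‖f‖ ≤ s)) ∧
  Rk κ 0 = 1 - κ ∧ Rk κ (1 / 2) = 0 ∧ (∀ x, 0 ≤ x → Rk κ x ≤ 5 / 8 → 1 / 10 ≤ x) ∧
  (∀ x, 1 < x → 1 < Rk κ x)

/-- powers of the contraction -/
def T_THK : Prop := (∀ f, th 0 f = f) ∧ (∀ j k f, th j (th k f) = th (j + k) f) ∧
  (∀ k, th k rho = rho) ∧ (∀ k f, ‖th k f - rho‖ = (10 : ℝ) ^ (-k) * ‖f - rho‖) ∧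
  (∀ f, ‖th 1 f - ((9 / 20 : ℝ) : ℍ[ℝ])‖ = ‖f‖ / 10) ∧ (∀ k, Continuous (th k)) ∧
  (∀ k f, th k f = rho ↔ f = rho) ∧ (∀ (k : ℕ) f, ‖f‖ < 1 → ‖th k f‖ < 1) ∧
  (∀ (k : ℕ) f, ‖f‖ ≤ 1 → ‖th k f‖ ≤ 1)

/-- the two sums are locally finite -/
def T_TTF : Prop := ∀ κ : ℝ, 0 < κ → κ ≤ 1 / 8 → ∀ F : ℍ[ℝ], F ≠ rho → ∃ (n : ℕ),
  ∃ U ∈ nhds F, ∀ F' ∈ U, (∀ k : ℕ, n ≤ k → ts κ (th k F') = 0) ∧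
    ∀ k : ℕ, n ≤ k → ts κ (th (-(k + 1)) F') = 1

/-- unrolled profile: equivariance -/
def T_TT1 : Prop := ∀ κ : ℝ, 0 < κ → κ ≤ 1 / 8 → ∀ F : ℍ[ℝ], F ≠ rho →
  tt κ (th 1 F) = tt κ F - 1

/-- unrolled profile: values in one period -/
def T_TT2 : Prop := ∀ κ : ℝ, 0 < κ → κ ≤ 1 / 8 →
  (∀ F : ℍ[ℝ], F ≠ rho → ‖F - ((9 / 20 : ℝ) : ℍ[ℝ])‖ ≤ 1 / 10 → tt κ F ≤ 0) ∧
  (∀ F : ℍ[ℝ], 1 / 10 < ‖F - ((9 / 20 : ℝ) : ℍ[ℝ])‖ → ‖F‖ < 1 → tt κ F = ts κ F) ∧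
  (∀ F : ℍ[ℝ], 1 ≤ ‖F‖ → 1 ≤ tt κ F) ∧
  (∀ (s : ℝ) (F : ℍ[ℝ]), 0 ≤ s → s < 1 → (InU κ s F ↔ ts κ F ≤ s))

/-- unrolled profile: continuity -/
def T_TT3 : Prop := ∀ κ : ℝ, 0 < κ → κ ≤ 1 / 8 → ContinuousOn (tt κ) {rho}ᶜ

/-- unrolled profile: comparison with the logarithmic size -/
def T_TT4 : Prop := ∀ κ : ℝ, 0 < κ → κ ≤ 1 / 8 → ∀ F : ℍ[ℝ], F ≠ rho → |tt κ F - ll F| ≤ 3

/-- time change of the isotopy -/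
def T_LA : Prop := ∀ κ : ℝ, 0 < κ → κ ≤ 1 / 8 →
  Continuous (la κ) ∧ (∀ s, la κ (s + 1) = la κ s + 1) ∧
  (∀ s, 0 ≤ s → s ≤ 1 - κ → la κ s = 0) ∧ (∀ s, 0 ≤ s → 0 ≤ la κ s)

/-- the isotopy -/
def T_THT : Prop := (∀ κ s F, Thi κ s (Th κ s F) = F) ∧ (∀ κ s f, Th κ s (Thi κ s f) = f) ∧
  (∀ κ : ℝ, 0 < κ → κ ≤ 1 / 8 → (∀ s F, Th κ (s + 1) F = Th κ s (th 1 F)) ∧
    (∀ (s : ℝ) (n : ℕ) (F : ℍ[ℝ]), Th κ (s + n) (th (-(n : ℤ)) F) = Th κ s F) ∧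
    Continuous (fun p : ℝ × ℍ[ℝ] => Th κ p.1 p.2) ∧
    Continuous (fun p : ℝ × ℍ[ℝ] => Thi κ p.1 p.2)) ∧
  (∀ κ s, Th κ s rho = rho ∧ Thi κ s rho = rho)

/-- the sets `Y(s)` -/
def T_INY : Prop := ∀ κ : ℝ, 0 < κ → κ ≤ 1 / 8 →
  (∀ s F, InU κ (s + 1) F ↔ InU κ s (th 1 F)) ∧
  (∀ s f, InY κ (s + 1) f ↔ InY κ s f) ∧ (∀ (s : ℝ) (n : ℕ) f, InY κ (s + n) f ↔ InY κ s f) ∧
  (∀ s f, InY κ s f → ‖f‖ ≤ 1) ∧ (∀ s, InY κ s rho) ∧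
  (∀ s f, κ ≤ dZ s → (InY κ s f ↔ Rk κ ‖f‖ ≤ Int.fract s)) ∧
  (∀ s, κ < dZ s → ¬ InY κ s 0) ∧
  (∀ s f, dZ (s - 1 / 2) ≤ 1 / 8 → InY κ s f → 1 / 10 ≤ ‖f‖)

/-! ### B. Bonding maps -/

/-- complex coordinates of quaternions -/
def T_Z12 : Prop := (∀ q, mkH (z1 q) (z2 q) = q) ∧ (∀ a b, z1 (mkH a b) = a ∧ z2 (mkH a b) = b) ∧
  (∀ q, ‖q‖ ^ 2 = ‖z1 q‖ ^ 2 + ‖z2 q‖ ^ 2) ∧
  (∀ (c : ℂ) q, z1 ((c : ℍ[ℝ]) * q) = c * z1 q ∧ z2 ((c : ℍ[ℝ]) * q) = c * z2 q) ∧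
  (∀ (r : ℝ) q, z1 (r • q) = r * z1 q ∧ z2 (r • q) = r * z2 q) ∧
  Continuous z1 ∧ Continuous z2 ∧ Continuous (fun p : ℂ × ℂ => mkH p.1 p.2) ∧
  (∀ (c : ℂ) a b, (c : ℍ[ℝ]) * mkH a b = mkH (c * a) (c * b)) ∧
  (∀ c : ℂ, ‖(c : ℍ[ℝ])‖ = ‖c‖) ∧ z1 eJ = 0 ∧ z2 eJ = 1 ∧ ‖eJ‖ = 1 ∧ ‖rho‖ = 1 / 2

/-- the polynomial map -/
def T_BQ : Prop := ∀ q : ℕ, 2 ≤ q → Continuous (Bq q) ∧ (∀ x, x ≠ 0 → Bq q x ≠ 0) ∧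
  (∀ (ζ : Circle) (x : ℍ[ℝ]), ζ ^ (q ^ 2) = 1 →
    Bq q (((ζ : ℂ) : ℍ[ℝ]) * x) = (((ζ ^ q : Circle) : ℂ) : ℍ[ℝ]) * Bq q x) ∧
  Bq q eJ = eJ ∧ (∀ (r : ℝ) (x : ℍ[ℝ]), x ≠ 0 → 0 ≤ r → Bq q x ≠ (r : ℍ[ℝ]))

/-- the bonding map -/
def T_BT : Prop := ∀ q : ℕ, 2 ≤ q → Continuous (bt q) ∧
  (∀ v, ‖bt q v‖ = min 1 (10 * ‖v‖)) ∧
  (∀ (ζ : Circle) (v : ℍ[ℝ]), ζ ^ (q ^ 2) = 1 →
    bt q (((ζ : ℂ) : ℍ[ℝ]) * v) = (((ζ ^ q : Circle) : ℂ) : ℍ[ℝ]) * bt q v) ∧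
  bt q (rho * eJ) = eJ ∧
  (∀ (l : ℝ) (v : ℍ[ℝ]), 0 ≤ l → l ≤ 1 → (1 / 10 ≤ ‖v‖ ∨ l = 1) →
    (1 - l) • bt q v - ((l : ℝ) : ℍ[ℝ]) ≠ 0)

/-! ### C. Times -/

/-- cycle numbers -/
def T_KAP : Prop := (∀ a, 0 < kap a ∧ kap a ≤ 1 / 256) ∧
  (∀ a, ∃ m : ℕ, nn (suc a) = nn a * (2 * m) ∧ 1 ≤ m) ∧
  (∀ k, nn (ak k) = 16 ^ (k + 1)) ∧ (∀ a : ℕ × ℕ, ak (Nat.pair a.1 a.2) = a) ∧
  (∀ a : ℕ × ℕ, 2 ≤ N a.2)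

/-- windows -/
def T_WIN : Prop := ∀ (a : ℕ × ℕ) (t : ℝ), dZ (ss a t) ≤ 2 * kap a →
  dZ (ss (suc a) t - 1 / 2) ≤ 1 / 8

/-- window parameters -/
def T_LAM : Prop := ∀ a : ℕ × ℕ, (∀ t, 0 ≤ lam a t ∧ lam a t ≤ 1) ∧ Continuous (lam a) ∧
  (∀ t, lam a (t + 1) = lam a t) ∧ (∀ t, lam a t < 1 ↔ dZ (ss a t) < 2 * kap a) ∧
  (∀ t, lam a t = 0 ↔ dZ (ss a t) ≤ kap a) ∧ (∀ t, lam a t < 1 → lam (suc a) t = 1) ∧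
  (∀ t, lam a t < 1 → dZ (ss (suc a) t - 1 / 2) ≤ 1 / 8)

/-- periodicity -/
def T_PER : Prop := (∀ t v, MR (t + 1) v ↔ MR t v) ∧ (∀ t v, MD (t + 1) v ↔ MD t v) ∧
  (∀ a t v, gg a (t + 1) v = gg a t v)

/-! ### D. Structure of `M` -/

/-- the gluing elements -/
def T_GG : Prop := (∀ a t v, (1 / 10 ≤ ‖v‖ ∨ lam a t = 1) → ‖gg a t v‖ = 1) ∧
  (∀ a t v, lam a t = 1 → gg a t v = -1) ∧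
  (∀ a t v, lam a t = 0 → 1 / 10 ≤ ‖v‖ → gg a t v = bt (N a.2) v) ∧
  (∀ a t v, gg a t v = 0 ∨ ‖gg a t v‖ = 1) ∧
  (∀ a, ContinuousOn (fun p : ℝ × ℍ[ℝ] => gg a p.1 p.2)
    {p | lam a p.1 < 1 → 1 / 10 ≤ ‖p.2‖})

/-- properties of points of `M` -/
def T_MRP : Prop := ∀ t v, MR t v → (∀ a, ‖v a‖ ≤ 1) ∧
  (∀ a, lam a t < 1 → 1 / 10 ≤ ‖v (suc a)‖) ∧ (∀ a, v a = 0 → lam a t = 0) ∧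
  (∀ a, ‖gg a t (v (suc a))‖ = 1)

/-- decoupling -/
def T_GAM : Prop := (∀ t f, MD t f → MR t (fun a => gg a t (-f (suc a)) * f a)) ∧
  (∀ t f, MD t f → ∀ a, (gg a t (gg (suc a) t (-f (suc (suc a))) * f (suc a)))⁻¹ *
    (gg a t (-f (suc a)) * f a) = f a) ∧
  (∀ t v, MR t v → ∃ f, MD t f ∧ v = fun a => gg a t (-f (suc a)) * f a)

/-- continuity of the decoupling map -/
def T_GAC : Prop := ContinuousOn (fun p : ℝ × (ℕ × ℕ → ℍ[ℝ]) => fun a : ℕ × ℕ =>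
  gg a p.1 (-p.2 (suc a)) * p.2 a) {p | MD p.1 p.2}

/-- from a parametrisation of the decoupled space to one of `M` -/
def T_DEC : Prop := ∀ (Z : Type) [TopologicalSpace Z] (Ψ : AddCircle (1 : ℝ) × Z →
  AddCircle (1 : ℝ) × (ℕ × ℕ → ℍ[ℝ])), Continuous Ψ → Function.Injective Ψ →
  Set.range Ψ = MSD → ∃ Ψ' : AddCircle (1 : ℝ) × Z → AddCircle (1 : ℝ) × (ℕ × ℕ → ℍ[ℝ]),
  Continuous Ψ' ∧ Function.Injective Ψ' ∧ Set.range Ψ' = MS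

/-! ### E. The time change -/

/-- continuity of the truncated thresholds -/
def T_XYC : Prop := ∀ (k : ℕ) (δ : ℝ), 0 < δ →
  Continuous (fun p : ℝ × ℍ[ℝ] => yk k p.1 p.2 δ) ∧ Continuous (fun p : ℝ × ℍ[ℝ] => xk k p.1 p.2 δ)

/-- continuity of one step; dependence on the first coordinates only -/
def T_STC : Prop := (∀ k : ℕ, Continuous (fun p : ℝ × (ℕ → ℍ[ℝ]) => stp k p.1 p.2)) ∧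
  (∀ (k : ℕ) (t : ℝ) (F F' : ℕ → ℍ[ℝ]), (∀ l ≤ k, F l = F' l) → stp k t F = stp k t F')

/-- one step: small displacement, Lipschitz bounds, thresholds -/
def T_ST1 : Prop := ∀ (k : ℕ) (F : ℕ → ℍ[ℝ]),
  (∀ t, GS k t F → GB k t F → |stp k t F - t| ≤ 3 / nn (ak k)) ∧
  (∀ t t', GS k t F → GB k t F → GS k t' F → GB k t' F → t ≤ t' →
    (t' - t) / 2 ≤ stp k t' F - stp k t F) ∧
  (∀ t, GS k t F → GB k t F → GS (k + 1) (stp k t F) F)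

/-- one step is onto -/
def T_ST2 : Prop := ∀ (k : ℕ) (F : ℕ → ℍ[ℝ]) (t' : ℝ), GS (k + 1) t' F →
  ∃ t, GS k t F ∧ GB k t F ∧ stp k t F = t'

/-- one step is equivariant -/
def T_ST3 : Prop := ∀ (k : ℕ) (F : ℕ → ℍ[ℝ]) (t : ℝ),
  stp k (t + 1) (fun l => th (-(nn (ak l) : ℤ)) (F l)) = stp k t F + 1

/-- invariants of the recursion -/
def T_SEQ : Prop := ∀ (t : ℝ) (w : ℕ → ℍ[ℝ]), (∀ k, ‖w k‖ ≤ 1) →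
  (∀ k, GS k (st t w k).1 (Finf t w) ∧ GB k (st t w k).1 (Finf t w)) ∧
  (∀ k, (st t w (k + 1)).1 = stp k (st t w k).1 (Finf t w)) ∧
  (∀ k, Finf t w k = Fnew k (st t w k).1 (w k)) ∧
  (∀ k, |(st t w (k + 1)).1 - (st t w k).1| ≤ 3 / nn (ak k))

/-- limits: convergence, continuity, membership -/
def T_LIM : Prop := (∀ (t : ℝ) (w : ℕ → ℍ[ℝ]), (∀ k, ‖w k‖ ≤ 1) →
    Filter.Tendsto (fun k => (st t w k).1) Filter.atTop (nhds (tinf t w)) ∧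
    (∀ k, |tinf t w - (st t w k).1| ≤ 4 / nn (ak k)) ∧
    ∀ k, InU (kap (ak k)) (ss (ak k) (tinf t w)) (Finf t w k)) ∧
  ContinuousOn (fun p : ℝ × (ℕ → ℍ[ℝ]) => tinf p.1 p.2) {p | ∀ k, ‖p.2 k‖ ≤ 1} ∧
  (∀ k, Continuous (fun p : ℝ × (ℕ → ℍ[ℝ]) => Finf p.1 p.2 k))

/-- injectivity -/
def T_TIN : Prop := ∀ (t t' : ℝ) (w w' : ℕ → ℍ[ℝ]), (∀ k, ‖w k‖ ≤ 1) → (∀ k, ‖w' k‖ ≤ 1) →
  tinf t w = tinf t' w' → Finf t w = Finf t' w' → t = t' ∧ w = w'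

/-- surjectivity -/
def T_TSU : Prop := ∀ (t : ℝ) (F : ℕ → ℍ[ℝ]), (∀ k, InU (kap (ak k)) (ss (ak k) t) (F k)) →
  ∃ (t0 : ℝ) (w : ℕ → ℍ[ℝ]), (∀ k, ‖w k‖ ≤ 1) ∧ tinf t0 w = t ∧ Finf t0 w = F

/-- equivariance -/
def T_TEQ : Prop := ∀ (t : ℝ) (w : ℕ → ℍ[ℝ]), (∀ k, ‖w k‖ ≤ 1) → tinf (t + 1) w = tinf t w + 1 ∧
  ∀ k, Finf (t + 1) w k = th (-(nn (ak k) : ℤ)) (Finf t w k)

/-- the closed unit ball of the quaternions -/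
abbrev HB : Type := Metric.closedBall (0 : ℍ[ℝ]) 1

/-- parametrisation of the decoupled space -/
def T_TOP : Prop := ∃ Ψ : AddCircle (1 : ℝ) × (ℕ → HB) → AddCircle (1 : ℝ) × (ℕ × ℕ → ℍ[ℝ]),
  Continuous Ψ ∧ Function.Injective Ψ ∧ Set.range Ψ = MSD

/-- the Hilbert cube -/
def T_CUB : Prop := Nonempty (AddCircle (1 : ℝ) × (ℕ → HB) ≃ₜ Circle × (ℕ → unitInterval))

/-- `M` is homeomorphic to `S^1 × Q` -/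
def T_MH : Prop := Nonempty (MS ≃ₜ Circle × (ℕ → unitInterval))

/-! ### F. Maps on `M` -/

/-- invariance under the group -/
def T_ACT : Prop := ∀ (j : ℕ) (c : GG) (t : ℝ) (v : ℕ × ℕ → ℍ[ℝ]), MR t v → MR t (actM j c v)

/-- the section can be inserted in chain `j` -/
def T_REP : Prop := ∀ (j : ℕ) (t : ℝ) (v : ℕ × ℕ → ℍ[ℝ]), MR t v → MR t (repM j v)

/-- the nowhere zero equivariant map -/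
def T_SJ : Prop := ∀ j : ℕ, ∃ S : MS → Fin 4 → ℂ, Continuous S ∧ (∀ x, S x ≠ 0) ∧
  ∀ (c : GG) (x x' : MS), x'.1 = (x.1.1, actM j c x.1.2) → ∀ i, S x' i = (c.1 0 : ℂ) * S x i

end

end INJ
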