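import Pool.Agent.INJ.FInst
import Pool.Agent.INJ.MTargets

set_option autoImplicit false

/-!
# INJ, part G: the fibre as a metric space, actions, bundles on `B` (definitions)
-/

namespace INJ

open TopologicalSpace Quaternion

noncomputable section

/-! ### The fibre with its metric -/

/-- the space `M` with its metric -/
structure MX where
  /-- underlying point -/
  val : MS

/-- metric of the fibre -/
instance : MetricSpace MX :=
  letI : MetricSpace (ℕ × ℕ → ℍ[ℝ]) := PiCountable.metricSpace
  MetricSpace.induced MX.val (by rintro ⟨a⟩ ⟨b⟩ h; congr) (inferInstanceAs (MetricSpace MS))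

/-- the Hilbert cube with its metric -/
structure QX where
  /-- underlying point -/
  val : ℕ → unitInterval

/-- metric of the Hilbert cube -/
instance : MetricSpace QX :=
  letI : MetricSpace (ℕ → unitInterval) := PiCountable.metricSpace
  MetricSpace.induced QX.val (by rintro ⟨a⟩ ⟨b⟩ h; congr) inferInstance

/-- the final fibre, with the maximum metric -/
abbrev MF : Type := MX × QX

lemma MX_dist (x y : MX) : dist x y = max (dist x.val.1.1 y.val.1.1)
    (∑' a, min (2⁻¹ ^ Encodable.encode a) (dist (x.val.1.2 a) (y.val.1.2 a))) := rfl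

lemma QX_dist (x y : QX) : dist x y =
    ∑' i, min (2⁻¹ ^ Encodable.encode i) (dist (x.val i) (y.val i)) := rfl

lemma MX_continuous_val : Continuous MX.val := by
  let _ : MetricSpace (ℕ × ℕ → ℍ[ℝ]) := PiCountable.metricSpace
  exact continuous_induced_dom

lemma MX_continuous_mk : Continuous MX.mk := by
  let _ : MetricSpace (ℕ × ℕ → ℍ[ℝ]) := PiCountable.metricSpace
  exact continuous_induced_rng.2 continuous_id

/-- `M` with its metric is homeomorphic to `M` -/
def homeoMX : MX ≃ₜ MS where
  toFun := MX.val
  invFun := MX.mk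
  left_inv := fun _ => rfl
  right_inv := fun _ => rfl
  continuous_toFun := MX_continuous_val
  continuous_invFun := MX_continuous_mk

lemma QX_continuous_val : Continuous QX.val := by
  let _ : MetricSpace (ℕ → unitInterval) := PiCountable.metricSpace
  exact continuous_induced_dom

lemma QX_continuous_mk : Continuous QX.mk := by
  let _ : MetricSpace (ℕ → unitInterval) := PiCountable.metricSpace
  exact continuous_induced_rng.2 continuous_id

/-- the Hilbert cube with its metric -/
def homeoQX : QX ≃ₜ (ℕ → unitInterval) where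
  toFun := QX.val
  invFun := QX.mk
  left_inv := fun _ => rfl
  right_inv := fun _ => rfl
  continuous_toFun := QX_continuous_val
  continuous_invFun := QX_continuous_mk

/-! ### Action and retraction -/

/-- the action of `c` through chain `j` -/
def smX (h : T_ACT) (j : ℕ) (c : GG) (m : MX) : MX :=
  ⟨⟨(m.val.1.1, actM j c m.val.1.2), by
    obtain ⟨t, ht, hm⟩ := m.val.2
    exact ⟨t, ht, h j c t _ hm⟩⟩⟩

/-- replace chain `j` by the section -/
def fX (h : T_REP) (j : ℕ) (m : MX) : MX :=
  ⟨⟨(m.val.1.1, repM j m.val.1.2), by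
    obtain ⟨t, ht, hm⟩ := m.val.2
    exact ⟨t, ht, h j t _ hm⟩⟩⟩

lemma smX_one (h : T_ACT) (j : ℕ) (m : MX) : smX h j 1 m = m := by
  unfold smX actM
  congr 2
  refine Prod.ext rfl ?_
  funext a
  dsimp only
  split_ifs with ha
  · have : ((1 : GG) : ℕ → Circle) a.2 = 1 := rfl
    rw [this]
    simp
  · rfl

lemma smX_mul (h : T_ACT) (j : ℕ) (c d : GG) (m : MX) :
    smX h j (c * d) m = smX h j c (smX h j d m) := by
  unfold smX actM
  congr 2
  refine Prod.ext rfl ?_
  funext a
  dsimp only
  split_ifs with ha
  · have : ((c * d : GG) : ℕ → Circle) a.2 = c.1 a.2 * d.1 a.2 := rfl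
    rw [this, ← mul_assoc]
    simp
  · rfl

/-- the action on the final fibre through chain `j` -/
abbrev actF (h : T_ACT) (j : ℕ) : MulAction GG MF where
  smul c m := (smX h j c m.1, m.2)
  one_smul m := Prod.ext (smX_one h j m.1) rfl
  mul_smul c d m := Prod.ext (smX_mul h j c d m.1) rfl

/-! ### The base -/

/-- the base space -/
abbrev BX : Type := OrbSp GG PX

/-- a point over a point of the base -/
def repB (b : BX) : PX := b.2.choose

lemma omk_repB (b : BX) : omk GG PX (repB b) = b := Subtype.ext b.2.choose_spec

/-- the bundle `e^+` on the base -/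
def eBP (b : BX) : Matrix (CP 4 × Fin (N 0)) (CP 4 × Fin (N 0)) ℂ := eP ((repB b).val 0)

/-- the bundle `e^-` on the base -/
def eBM (b : BX) : Matrix (CM 4 × Fin (N 0)) (CM 4 × Fin (N 0)) ℂ := eM ((repB b).val 0)

end

end INJ
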