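import Pool.Agent.INJ.KTargets

set_option autoImplicit false

/-!
# INJ: class of a tensor product with weights (TENS)
-/

namespace INJ

open Matrix

noncomputable section

/-- splitting off the first copy -/
def TENS_equiv (n : ℕ) (ι : Type) : ι ⊕ (Fin n × ι) ≃ Fin (n + 1) × ι where
  toFun := Sum.elim (fun i => (0, i)) (fun p => (p.1.succ, p.2))
  invFun := fun q => Fin.cases (motive := fun _ => ι ⊕ (Fin n × ι)) (Sum.inl q.2)
    (fun k => Sum.inr (k, q.2)) q.1
  left_inv := by
    rintro (i | ⟨k, i⟩)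
    · rfl
    · simp
  right_inv := by
    rintro ⟨k, i⟩
    induction k using Fin.cases with
    | zero => rfl
    | succ k => simp

theorem TENS_fin {Y : Type} [TopologicalSpace Y] (s : Y → Y) (ζ : Circle) {ι : Type} [Fintype ι]
    (E : Idf Y s ζ ι) (n : ℕ) (u : Fin n → ℤ) : (E.tens u).cls = ∑ k, T (u k) E.cls := by
  induction n with
  | zero =>
    rw [Fin.sum_univ_zero]
    have h : MvN (E.tens u) (Idf.triv (fun _ : Empty => (0 : ℤ)) : Idf Y s ζ Empty) := by
      refine MvN.of_reindex (Equiv.equivOfIsEmpty _ _) (fun i => i.elim) (fun y i => i.elim)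
    rw [cls_of_MvN h]
    unfold Idf.cls
    rw [← zero_def, map_zero]
  | succ n ih =>
    have h : MvN (E.tens u) ((E.shift (u 0)).sum (E.tens (fun k : Fin n => u k.succ))) := by
      refine MvN.of_reindex (TENS_equiv n ι) ?_ ?_
      · rintro (i | ⟨k, i⟩)
        · rfl
        · rfl
      · rintro y (i | ⟨k, i⟩) (j | ⟨l, j⟩)
        · simp [Idf.sum, Idf.shift, Idf.tens, TENS_equiv]
        · simp [Idf.sum, Idf.tens, TENS_equiv, (Fin.succ_ne_zero l).symm]
        · simp [Idf.sum, Idf.tens, TENS_equiv]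
        · simp [Idf.sum, Idf.tens, TENS_equiv]
    rw [cls_of_MvN h, cls_sum, ih, Fin.sum_univ_succ, T_cls]

theorem p_TENS : T_TENS := by
  intro Y _ s ζ ι κ _ _ _ E u
  have h : MvN (E.tens u) (E.tens (fun k => u ((Fintype.equivFin κ).symm k))) := by
    refine MvN.of_reindex ((Fintype.equivFin κ).symm.prodCongr (Equiv.refl ι)) ?_ ?_
    · rintro ⟨k, i⟩
      rfl
    · rintro y ⟨k, i⟩ ⟨l, j⟩
      simp [Idf.tens]
  rw [cls_of_MvN h, TENS_fin]
  exact Equiv.sum_comp (Fintype.equivFin κ).symm (fun k => T (u k) E.cls)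

end

end INJ
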