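import Pool.Agent.INJ.P_APX
import Pool.Agent.INJ.P_BASE
import Pool.Agent.INJ.P_CLF
import Pool.Agent.INJ.P_DADD
import Pool.Agent.INJ.P_DCL
import Pool.Agent.INJ.P_DET
import Pool.Agent.INJ.P_EPC
import Pool.Agent.INJ.P_EPM
import Pool.Agent.INJ.P_EUL
import Pool.Agent.INJ.P_FCA
import Pool.Agent.INJ.P_FCM
import Pool.Agent.INJ.P_FCR
import Pool.Agent.INJ.P_FROB
import Pool.Agent.INJ.P_HOM
import Pool.Agent.INJ.P_IND
import Pool.Agent.INJ.P_LG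
import Pool.Agent.INJ.P_LGI
import Pool.Agent.INJ.P_LIN
import Pool.Agent.INJ.P_LVL
import Pool.Agent.INJ.P_M5
import Pool.Agent.INJ.P_MQ
import Pool.Agent.INJ.P_MU0
import Pool.Agent.INJ.P_MUN
import Pool.Agent.INJ.P_MUZ
import Pool.Agent.INJ.P_NEAR
import Pool.Agent.INJ.P_NOS
import Pool.Agent.INJ.P_PEN
import Pool.Agent.INJ.P_PERT
import Pool.Agent.INJ.P_PM
import Pool.Agent.INJ.P_POL
import Pool.Agent.INJ.P_RES
import Pool.Agent.INJ.P_ROT
import Pool.Agent.INJ.P_SGM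
import Pool.Agent.INJ.P_SMO
import Pool.Agent.INJ.P_SNOC
import Pool.Agent.INJ.P_SPH
import Pool.Agent.INJ.P_STEP
import Pool.Agent.INJ.P_TENS
import Pool.Agent.INJ.P_WW
import Pool.Agent.INJ.P_XIV
import Pool.Agent.INJ.P_ZET

set_option autoImplicit false

namespace INJ

/-- final statement of part K, from one remaining target -/
theorem kall (hPEQ : T_PEQ) : T_KFIN := by
  have hPM : T_PM := p_PM p_FCA p_FCR p_FCM
  have hPEN : T_PEN := p_PEN p_FCA p_FCM hPM hPEQ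
  have hPOL : T_POL := p_POL p_LIN hPEN p_TENS p_FCA p_FCM
  have hIND : T_IND := p_IND hPOL p_SMO p_DET p_FCA p_FCM
  have hHOM : T_HOM := p_HOM p_NEAR
  have hLG : T_LG := p_LG p_SPH hIND hHOM p_TENS
  have hLGI : T_LGI := p_LGI hLG
  have hROT : T_ROT := p_ROT hHOM p_MQ
  have hM5 : T_M5 := p_M5 hHOM p_MQ p_WW p_TENS hROT
  have hMUN : T_MUN := p_MUN p_NOS
  have hBASE : T_BASE := p_BASE p_SNOC p_DADD hLGI p_MU0 hM5 p_FROB p_RES p_ZET p_SGM hMUN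
  have hEUL : T_EUL := p_EUL p_CLF p_DCL p_TENS
  have hSTEP : T_STEP := p_STEP p_DADD p_FROB hLGI hEUL hM5 p_RES p_MU0 p_ZET p_SGM p_SNOC
  have hEPM : T_EPM := p_EPM p_XIV
  have hEPC : T_EPC := p_EPC p_XIV p_TENS p_DCL
  have hLVL : T_LVL := p_LVL p_APX p_PERT hEPC p_ZET hEPM
  exact kfin hBASE hSTEP p_MUZ hLVL

end INJ
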