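import Pool.Agent.INJ.KDefs

set_option autoImplicit false

/-!
# INJ: shift, pull back, stabilisation
-/

namespace INJ

open Matrix

noncomputable section

variable {Y : Type} [TopologicalSpace Y] {s : Y → Y} {ζ : Circle}
  {ι κ μ ν : Type} [Fintype ι] [Fintype κ] [Fintype μ] [Fintype ν]

/-- shift of all weights by `c` -/
def T (c : ℤ) : KG Y s ζ →+ KG Y s ζ :=
  liftHom (fun _ E => (E.shift c).cls) (fun _ _ _ _ h => cls_of_MvN (h.shift c))
    (by
      intro n m k E F H h
      rw [← cls_sum]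
      refine (cls_of_MvN ?_).symm
      refine MvN.trans ?_ (h.shift c)
      refine MvN.of_reindex (Equiv.refl _) ?_ (fun y i j => rfl)
      rintro (i | i) <;> rfl)

lemma T_cls (c : ℤ) (E : Idf Y s ζ ι) : T c E.cls = (E.shift c).cls := by
  rw [T, liftHom_cls]
  exact cls_of_MvN ((MvN.reindex E (Fintype.equivFin ι).symm).shift c)

lemma T_add (c d : ℤ) (x : KG Y s ζ) : T (c + d) x = T c (T d x) := by
  suffices h : (T (c + d) : KG Y s ζ →+ KG Y s ζ) = (T c).comp (T d) by
    rw [h]; rfl
  refine hom_ext fun n E => ?_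
  rw [AddMonoidHom.comp_apply, T_cls, T_cls, T_cls]
  refine cls_of_MvN (MvN.of_reindex (Equiv.refl _) (fun i => ?_) (fun y i j => rfl))
  simp only [Idf.shift, Equiv.refl_apply]; ring

lemma T_eq_of_zpow (c : ℤ) (h : ζ ^ c = 1) (x : KG Y s ζ) : T c x = x := by
  suffices h' : (T c : KG Y s ζ →+ KG Y s ζ) = AddMonoidHom.id _ by
    rw [h']; rfl
  refine hom_ext fun n E => ?_
  rw [T_cls]
  refine cls_of_MvN ⟨E.e, E.e, E.cont, E.cont, ?_, ?_, fun b => ⟨E.idem b, E.idem b⟩⟩
  · intro y i j
    rw [E.eqv y i j]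
    have : (ζ ^ ((E.shift c).w i - E.w j) : Circle) = ζ ^ (E.w i - E.w j) := by
      simp only [Idf.shift]
      rw [show E.w i + c - E.w j = (E.w i - E.w j) + c by ring, _root_.zpow_add, h, mul_one]
    rw [this]
  · intro y i j
    rw [E.eqv y i j]
    have : (ζ ^ (E.w i - (E.shift c).w j) : Circle) = ζ ^ (E.w i - E.w j) := by
      simp only [Idf.shift]
      rw [show E.w i - (E.w j + c) = (E.w i - E.w j) - c by ring, _root_.zpow_sub, h, inv_one,
        mul_one]
    rw [this]

lemma T_zero (x : KG Y s ζ) : T 0 x = x := T_eq_of_zpow 0 (by simp) x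

section pull

variable {Y' : Type} [TopologicalSpace Y'] {s' : Y' → Y'} {Y'' : Type} [TopologicalSpace Y'']
  {s'' : Y'' → Y''}

/-- pull back -/
def pull (f : EMap Y' s' Y s) : KG Y s ζ →+ KG Y' s' ζ :=
  liftHom (fun _ E => (E.pull f).cls) (fun _ _ _ _ h => cls_of_MvN (h.pull f))
    (by
      intro n m k E F H h
      rw [← cls_sum]
      refine (cls_of_MvN ?_).symm
      refine MvN.trans ?_ (h.pull f)
      refine MvN.of_reindex (Equiv.refl _) ?_ (fun y i j => rfl)
      rintro (i | i) <;> rfl)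

lemma pull_cls (f : EMap Y' s' Y s) (E : Idf Y s ζ ι) : pull f E.cls = (E.pull f).cls := by
  rw [INJ.pull, liftHom_cls]
  exact cls_of_MvN ((MvN.reindex E (Fintype.equivFin ι).symm).pull f)

lemma pull_T (f : EMap Y' s' Y s) (c : ℤ) (x : KG Y s ζ) : pull f (T c x) = T c (pull f x) := by
  suffices h : (pull f).comp (T c : KG Y s ζ →+ KG Y s ζ) = (T c).comp (pull f) from
    DFunLike.congr_fun h x
  refine hom_ext fun n E => ?_
  rw [AddMonoidHom.comp_apply, AddMonoidHom.comp_apply, T_cls, pull_cls, pull_cls, T_cls]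
  rfl

/-- composition of equivariant maps -/
def EMap.comp (f : EMap Y' s' Y s) (g : EMap Y'' s'' Y' s') : EMap Y'' s'' Y s where
  f := fun y => f.f (g.f y)
  cont := f.cont.comp g.cont
  eqv := fun y => by rw [g.eqv, f.eqv]

lemma pull_pull (f : EMap Y' s' Y s) (g : EMap Y'' s'' Y' s') (x : KG Y s ζ) :
    pull g (pull f x) = pull (f.comp g) x := by
  suffices h : (pull g).comp (pull f : KG Y s ζ →+ KG Y' s' ζ) = pull (f.comp g) from
    DFunLike.congr_fun h x
  refine hom_ext fun n E => ?_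
  rw [AddMonoidHom.comp_apply, pull_cls, pull_cls, pull_cls]
  rfl

end pull

/-- `(1 - T_c)^k` -/
def D (c : ℤ) : ℕ → KG Y s ζ → KG Y s ζ
  | 0, x => x
  | k + 1, x => D c k x - T c (D c k x)

/-! ### Stabilisation -/

lemma compl_spec [DecidableEq ι] (E : Idf Y s ζ ι) :
    MvN (E.sum E.compl) (Idf.triv E.w) := by
  refine ⟨fun y => Matrix.fromRows (E.e y) (1 - E.e y),
    fun y => Matrix.fromCols (E.e y) (1 - E.e y), ?_, ?_, ?_, ?_, fun b => ⟨?_, ?_⟩⟩
  · refine continuous_matrix ?_
    rintro (i | i) j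
    · exact E.cont.matrix_elem i j
    · exact E.compl.cont.matrix_elem i j
  · refine continuous_matrix ?_
    rintro i (j | j)
    · exact E.cont.matrix_elem i j
    · exact E.compl.cont.matrix_elem i j
  · rintro y (i | i) j
    · exact E.eqv y i j
    · exact E.compl.eqv y i j
  · rintro y i (j | j)
    · exact E.eqv y i j
    · exact E.compl.eqv y i j
  · rw [Matrix.fromRows_mul_fromCols]
    simp only [Idf.sum, Idf.compl]
    congr 1
    · exact E.idem b
    · simp [mul_sub, E.idem b]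
    · simp [sub_mul, E.idem b]
    · exact E.compl.idem b
  · rw [Matrix.fromCols_mul_fromRows, E.idem b]
    have := E.compl.idem b
    simp only [Idf.compl] at this
    rw [this]
    simp [Idf.triv]

lemma of_eq_iff {M : Type} [AddCommMonoid M] (a b : M) :
    (Algebra.GrothendieckAddGroup.of a : Algebra.GrothendieckAddGroup M) =
      Algebra.GrothendieckAddGroup.of b ↔ ∃ c, a + c = b + c := by
  constructor
  · intro h
    obtain ⟨c, hc⟩ := ((AddLocalization.addMonoidOf ⊤).eq_iff_exists (x := a) (y := b)).1 h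
    exact ⟨c.1, by rw [add_comm a, add_comm b]; exact hc⟩
  · rintro ⟨c, hc⟩
    have := congrArg (Algebra.GrothendieckAddGroup.of) hc
    rw [map_add, map_add] at this
    exact add_right_cancel this

/-- equality of classes is stable equivalence -/
theorem cls_eq_iff (E : Idf Y s ζ ι) (F : Idf Y s ζ κ) :
    E.cls = F.cls ↔ ∃ (n : ℕ) (w : Fin n → ℤ), MvN (E.sum (Idf.triv w)) (F.sum (Idf.triv w)) := by
  constructor
  · intro h
    obtain ⟨c, hc⟩ := (of_eq_iff _ _).1 h
    obtain ⟨n, H, rfl⟩ := c.exists_rep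
    refine ⟨n, H.w, ?_⟩
    have h1 : (E.sum (H.sum H.compl)).mk' = (F.sum (H.sum H.compl)).mk' := by
      rw [mk'_sum, mk'_sum, mk'_sum, mk'_sum, ← add_assoc, ← add_assoc, hc]
    rw [mk'_eq_iff] at h1
    exact ((MvN.sum (MvN.refl E) (compl_spec H)).symm.trans h1).trans
      (MvN.sum (MvN.refl F) (compl_spec H))
  · rintro ⟨n, w, h⟩
    have := cls_of_MvN h
    rw [cls_sum, cls_sum] at this
    exact add_right_cancel this

/-- every element of `K` is a difference of two classes -/
theorem exists_sub (x : KG Y s ζ) :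
    ∃ (n m : ℕ) (E : Idf Y s ζ (Fin n)) (F : Idf Y s ζ (Fin m)), x = E.cls - F.cls := by
  induction x using AddLocalization.ind with
  | H p =>
    obtain ⟨a, b⟩ := p
    obtain ⟨n, E, hE⟩ := a.exists_rep
    obtain ⟨m, F, hF⟩ := b.1.exists_rep
    refine ⟨n, m, E, F, ?_⟩
    rw [AddLocalization.mk_eq_addMonoidOf_mk', eq_sub_iff_add_eq]
    unfold Idf.cls
    rw [← hE, ← hF]
    exact (AddLocalization.addMonoidOf ⊤).mk'_spec a b

end

end INJ
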