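import Mathlib

set_option autoImplicit false

/-!
# INJ: equivariant K-groups (definitions and first facts)

`Y` is a topological space with a self map `s`, `ζ` a point of the unit circle.
-/

namespace INJ

open Matrix

noncomputable section

/-- equivariance of a matrix valued function from weights `w'` to weights `w` -/
def Eqv {Y ι κ : Type} (s : Y → Y) (ζ : Circle) (w : ι → ℤ) (w' : κ → ℤ)
    (A : Y → Matrix ι κ ℂ) : Prop :=
  ∀ y i j, A (s y) i j = ((ζ ^ (w i - w' j) : Circle) : ℂ) * A y i j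

/-- an equivariant family of idempotent matrices with weights -/
structure Idf (Y : Type) [TopologicalSpace Y] (s : Y → Y) (ζ : Circle) (ι : Type) [Fintype ι] where
  /-- weights -/
  w : ι → ℤ
  /-- the family -/
  e : Y → Matrix ι ι ℂ
  cont : Continuous e
  idem : ∀ y, e y * e y = e y
  eqv : Eqv s ζ w w e

section basic

variable {Y ι κ μ : Type} {s : Y → Y} {ζ : Circle}

lemma Eqv.mul [Fintype κ] {w : ι → ℤ} {w' : κ → ℤ} {w'' : μ → ℤ} {A : Y → Matrix ι κ ℂ}
    {B : Y → Matrix κ μ ℂ} (hA : Eqv s ζ w w' A) (hB : Eqv s ζ w' w'' B) :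
    Eqv s ζ w w'' (fun y => A y * B y) := by
  intro y i j
  simp only [Matrix.mul_apply, Finset.mul_sum]
  refine Finset.sum_congr rfl fun k _ => ?_
  rw [hA y i k, hB y k j]
  have : (ζ ^ (w i - w'' j) : Circle) = ζ ^ (w i - w' k) * ζ ^ (w' k - w'' j) := by
    rw [← _root_.zpow_add]; congr 1; ring
  rw [this, Circle.coe_mul]; ring

lemma Eqv.shift {w : ι → ℤ} {w' : κ → ℤ} {A : Y → Matrix ι κ ℂ} (hA : Eqv s ζ w w' A) (c : ℤ) :
    Eqv s ζ (fun i => w i + c) (fun j => w' j + c) A := by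
  intro y i j
  rw [hA y i j]; congr 3; ring

end basic

section equivalence

variable {Y : Type} [TopologicalSpace Y] {s : Y → Y} {ζ : Circle}
  {ι κ μ ν : Type} [Fintype ι] [Fintype κ] [Fintype μ] [Fintype ν]

/-- (Murray-von Neumann) equivalence of equivariant idempotent families -/
def MvN (E : Idf Y s ζ ι) (F : Idf Y s ζ κ) : Prop :=
  ∃ (x : Y → Matrix ι κ ℂ) (y : Y → Matrix κ ι ℂ), Continuous x ∧ Continuous y ∧
    Eqv s ζ E.w F.w x ∧ Eqv s ζ F.w E.w y ∧ ∀ b, x b * y b = E.e b ∧ y b * x b = F.e b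

lemma MvN.refl (E : Idf Y s ζ ι) : MvN E E :=
  ⟨E.e, E.e, E.cont, E.cont, E.eqv, E.eqv, fun b => ⟨E.idem b, E.idem b⟩⟩

lemma MvN.symm {E : Idf Y s ζ ι} {F : Idf Y s ζ κ} (h : MvN E F) : MvN F E := by
  obtain ⟨x, y, hx, hy, ex, ey, h⟩ := h
  exact ⟨y, x, hy, hx, ey, ex, fun b => ⟨(h b).2, (h b).1⟩⟩

lemma MvN.trans {E : Idf Y s ζ ι} {F : Idf Y s ζ κ} {H : Idf Y s ζ μ} (h : MvN E F)
    (h' : MvN F H) : MvN E H := by
  obtain ⟨x, y, hx, hy, ex, ey, h⟩ := h
  obtain ⟨x', y', hx', hy', ex', ey', h'⟩ := h'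
  refine ⟨fun b => x b * x' b, fun b => y' b * y b, hx.matrix_mul hx', hy'.matrix_mul hy,
    ex.mul ex', ey'.mul ey, fun b => ⟨?_, ?_⟩⟩
  · calc x b * x' b * (y' b * y b) = x b * (x' b * y' b) * y b := by
          simp only [Matrix.mul_assoc]
      _ = x b * (y b * x b) * y b := by rw [(h' b).1, (h b).2]
      _ = (x b * y b) * (x b * y b) := by simp only [Matrix.mul_assoc]
      _ = E.e b := by rw [(h b).1, E.idem b]
  · calc y' b * y b * (x b * x' b) = y' b * (y b * x b) * x' b := by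
          simp only [Matrix.mul_assoc]
      _ = y' b * (x' b * y' b) * x' b := by rw [(h' b).1, (h b).2]
      _ = (y' b * x' b) * (y' b * x' b) := by simp only [Matrix.mul_assoc]
      _ = H.e b := by rw [(h' b).2, H.idem b]

/-- change of the index set -/
def Idf.reindex (E : Idf Y s ζ ι) (f : κ ≃ ι) : Idf Y s ζ κ where
  w := fun i => E.w (f i)
  e := fun y => (E.e y).submatrix f f
  cont := E.cont.matrix_submatrix f f
  idem := fun y => by rw [Matrix.submatrix_mul_equiv, E.idem y]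
  eqv := fun y i j => E.eqv y (f i) (f j)

lemma MvN.reindex (E : Idf Y s ζ ι) (f : κ ≃ ι) : MvN (E.reindex f) E := by
  refine ⟨fun b => (E.e b).submatrix f id, fun b => (E.e b).submatrix id f,
    E.cont.matrix_submatrix f id, E.cont.matrix_submatrix id f,
    fun y i j => E.eqv y (f i) j, fun y i j => E.eqv y i (f j), fun b => ⟨?_, ?_⟩⟩
  · have := Matrix.submatrix_mul_equiv (E.e b) (E.e b) f (Equiv.refl ι) f
    simp only [Equiv.coe_refl] at this
    rw [this, E.idem b]; rfl
  · have := Matrix.submatrix_mul_equiv (E.e b) (E.e b) id f id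
    rw [this, E.idem b]; simp

/-- direct sum -/
def Idf.sum (E : Idf Y s ζ ι) (F : Idf Y s ζ κ) : Idf Y s ζ (ι ⊕ κ) where
  w := Sum.elim E.w F.w
  e := fun y => Matrix.fromBlocks (E.e y) 0 0 (F.e y)
  cont := Continuous.matrix_fromBlocks E.cont continuous_const continuous_const F.cont
  idem := fun y => by simp [Matrix.fromBlocks_multiply, E.idem y, F.idem y]
  eqv := by
    rintro y (i | i) (j | j)
    · simpa using E.eqv y i j
    · simp
    · simp
    · simpa using F.eqv y i j

/-- the trivial family with given weights -/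
def Idf.triv [DecidableEq ι] (w : ι → ℤ) : Idf Y s ζ ι where
  w := w
  e := fun _ => 1
  cont := continuous_const
  idem := fun _ => by simp
  eqv := fun y i j => by
    by_cases h : i = j
    · subst h; simp
    · simp [Matrix.one_apply_ne h]

/-- shift of the weights -/
def Idf.shift (E : Idf Y s ζ ι) (c : ℤ) : Idf Y s ζ ι where
  w := fun i => E.w i + c
  e := E.e
  cont := E.cont
  idem := E.idem
  eqv := E.eqv.shift c

/-- the complement -/
def Idf.compl [DecidableEq ι] (E : Idf Y s ζ ι) : Idf Y s ζ ι where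
  w := E.w
  e := fun y => 1 - E.e y
  cont := continuous_const.sub E.cont
  idem := fun y => by simp [mul_sub, sub_mul, E.idem y]
  eqv := fun y i j => by
    have h1 := (Idf.triv (Y := Y) (s := s) (ζ := ζ) E.w).eqv y i j
    simp only [Idf.triv] at h1
    dsimp only
    rw [Matrix.sub_apply, Matrix.sub_apply, E.eqv y i j, mul_sub, ← h1]

lemma MvN.sum {E : Idf Y s ζ ι} {F : Idf Y s ζ κ} {E' : Idf Y s ζ μ} {F' : Idf Y s ζ ν}
    (h : MvN E E') (h' : MvN F F') : MvN (E.sum F) (E'.sum F') := by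
  obtain ⟨x, y, hx, hy, ex, ey, h⟩ := h
  obtain ⟨x', y', hx', hy', ex', ey', h'⟩ := h'
  refine ⟨fun b => Matrix.fromBlocks (x b) 0 0 (x' b), fun b => Matrix.fromBlocks (y b) 0 0 (y' b),
    hx.matrix_fromBlocks continuous_const continuous_const hx',
    hy.matrix_fromBlocks continuous_const continuous_const hy', ?_, ?_, fun b => ⟨?_, ?_⟩⟩
  · rintro b (i | i) (j | j)
    · exact ex b i j
    · simp
    · simp
    · exact ex' b i j
  · rintro b (i | i) (j | j)
    · exact ey b i j
    · simp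
    · simp
    · exact ey' b i j
  · simp [Matrix.fromBlocks_multiply, (h b).1, (h' b).1, Idf.sum]
  · simp [Matrix.fromBlocks_multiply, (h b).2, (h' b).2, Idf.sum]

/-- two families on index sets in bijection with the same weights and matrices -/
lemma MvN.of_reindex {E : Idf Y s ζ ι} {F : Idf Y s ζ κ} (f : κ ≃ ι)
    (hw : ∀ i, F.w i = E.w (f i)) (he : ∀ y i j, F.e y i j = E.e y (f i) (f j)) : MvN E F := by
  have : E.reindex f = F := by
    obtain ⟨w, e, h1, h2, h3⟩ := F
    have e1 : (fun i => E.w (f i)) = w := funext fun i => (hw i).symm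
    have e2 : (fun y => (E.e y).submatrix f f) = e := by
      funext y
      ext i j
      exact (he y i j).symm
    subst e1
    subst e2
    rfl
  rw [← this]
  exact (MvN.reindex E f).symm

lemma MvN.shift {E : Idf Y s ζ ι} {F : Idf Y s ζ κ} (h : MvN E F) (c : ℤ) :
    MvN (E.shift c) (F.shift c) := by
  obtain ⟨x, y, hx, hy, ex, ey, h⟩ := h
  exact ⟨x, y, hx, hy, ex.shift c, ey.shift c, h⟩

end equivalence

/-! ### Pull back -/

/-- equivariant continuous maps -/
structure EMap (Y' : Type) [TopologicalSpace Y'] (s' : Y' → Y') (Y : Type) [TopologicalSpace Y]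
    (s : Y → Y) where
  /-- the map -/
  f : Y' → Y
  cont : Continuous f
  eqv : ∀ y, f (s' y) = s (f y)

section pull

variable {Y' : Type} [TopologicalSpace Y'] {s' : Y' → Y'} {Y : Type} [TopologicalSpace Y]
  {s : Y → Y} {ζ : Circle} {ι κ : Type} [Fintype ι] [Fintype κ]

/-- pull back of a family -/
def Idf.pull (E : Idf Y s ζ ι) (f : EMap Y' s' Y s) : Idf Y' s' ζ ι where
  w := E.w
  e := fun y => E.e (f.f y)
  cont := E.cont.comp f.cont
  idem := fun y => E.idem _
  eqv := fun y i j => by dsimp only; rw [f.eqv]; exact E.eqv _ i j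

lemma MvN.pull {E : Idf Y s ζ ι} {F : Idf Y s ζ κ} (h : MvN E F) (f : EMap Y' s' Y s) :
    MvN (E.pull f) (F.pull f) := by
  obtain ⟨x, y, hx, hy, ex, ey, h⟩ := h
  refine ⟨fun b => x (f.f b), fun b => y (f.f b), hx.comp f.cont, hy.comp f.cont, ?_, ?_,
    fun b => h _⟩
  · intro b i j; dsimp only; rw [f.eqv]; exact ex _ i j
  · intro b i j; dsimp only; rw [f.eqv]; exact ey _ i j

end pull

/-! ### The monoid of classes and the group `K` -/

section classes

variable (Y : Type) [TopologicalSpace Y] (s : Y → Y) (ζ : Circle)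

/-- the setoid of equivariant idempotent families -/
def idfSetoid : Setoid (Σ n : ℕ, Idf Y s ζ (Fin n)) where
  r := fun E F => MvN E.2 F.2
  iseqv := ⟨fun E => MvN.refl E.2, fun h => h.symm, fun h h' => h.trans h'⟩

/-- classes of families -/
def Cls : Type := Quotient (idfSetoid Y s ζ)

variable {Y s ζ} {ι κ μ : Type} [Fintype ι] [Fintype κ] [Fintype μ]

/-- the class of a family -/
def Idf.mk' (E : Idf Y s ζ ι) : Cls Y s ζ :=
  Quotient.mk (idfSetoid Y s ζ) ⟨Fintype.card ι, E.reindex (Fintype.equivFin ι).symm⟩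

lemma mk'_eq_iff (E : Idf Y s ζ ι) (F : Idf Y s ζ κ) : E.mk' = F.mk' ↔ MvN E F := by
  refine Iff.trans (@Quotient.eq _ (idfSetoid Y s ζ) _ _) ?_
  constructor
  · intro h
    exact ((MvN.reindex E _).symm.trans h).trans (MvN.reindex F _)
  · intro h
    exact ((MvN.reindex E _).trans h).trans (MvN.reindex F _).symm

lemma Cls.exists_rep (x : Cls Y s ζ) : ∃ (n : ℕ) (E : Idf Y s ζ (Fin n)), x = E.mk' := by
  induction x using Quotient.inductionOn with
  | h E =>
    refine ⟨E.1, E.2, ?_⟩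
    exact (@Quotient.eq _ (idfSetoid Y s ζ) _ _).2 (MvN.reindex E.2 _).symm

instance : Add (Cls Y s ζ) where
  add := Quotient.lift₂ (fun E F => (E.2.sum F.2).mk') (by
    intro E F E' F' h h'
    rw [mk'_eq_iff]
    exact MvN.sum h h')

lemma mk'_sum (E : Idf Y s ζ ι) (F : Idf Y s ζ κ) : (E.sum F).mk' = E.mk' + F.mk' := by
  change _ = ((E.reindex _).sum (F.reindex _)).mk'
  rw [mk'_eq_iff]
  exact MvN.sum (MvN.reindex E _).symm (MvN.reindex F _).symm

instance : Zero (Cls Y s ζ) where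
  zero := (Idf.triv (fun _ : Empty => (0 : ℤ)) : Idf Y s ζ Empty).mk'

lemma zero_def : (0 : Cls Y s ζ) = (Idf.triv (fun _ : Empty => (0 : ℤ)) : Idf Y s ζ Empty).mk' :=
  rfl

instance : AddCommMonoid (Cls Y s ζ) where
  add_assoc := by
    intro x y z
    obtain ⟨_, E, rfl⟩ := x.exists_rep
    obtain ⟨_, F, rfl⟩ := y.exists_rep
    obtain ⟨_, H, rfl⟩ := z.exists_rep
    rw [← mk'_sum, ← mk'_sum, ← mk'_sum, ← mk'_sum, mk'_eq_iff]
    refine MvN.of_reindex (Equiv.sumAssoc _ _ _).symm ?_ ?_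
    · rintro (i | i | i) <;> rfl
    · rintro y (i | i | i) (j | j | j) <;> rfl
  zero_add := by
    intro x
    obtain ⟨_, E, rfl⟩ := x.exists_rep
    rw [zero_def, ← mk'_sum, mk'_eq_iff]
    exact MvN.of_reindex (Equiv.emptySum Empty _).symm (fun i => rfl) (fun y i j => rfl)
  add_zero := by
    intro x
    obtain ⟨_, E, rfl⟩ := x.exists_rep
    rw [zero_def, ← mk'_sum, mk'_eq_iff]
    exact MvN.of_reindex (Equiv.sumEmpty _ Empty).symm (fun i => rfl) (fun y i j => rfl)
  add_comm := by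
    intro x y
    obtain ⟨_, E, rfl⟩ := x.exists_rep
    obtain ⟨_, F, rfl⟩ := y.exists_rep
    rw [← mk'_sum, ← mk'_sum, mk'_eq_iff]
    refine MvN.of_reindex (Equiv.sumComm _ _) ?_ ?_
    · rintro (i | i) <;> rfl
    · rintro y (i | i) (j | j) <;> rfl
  nsmul := nsmulRec

/-- the group `K(Y, s, ζ)` -/
abbrev KG (Y : Type) [TopologicalSpace Y] (s : Y → Y) (ζ : Circle) : Type :=
  Algebra.GrothendieckAddGroup (Cls Y s ζ)

/-- class in the group -/
def Idf.cls (E : Idf Y s ζ ι) : KG Y s ζ := Algebra.GrothendieckAddGroup.of E.mk'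

lemma cls_of_MvN {E : Idf Y s ζ ι} {F : Idf Y s ζ κ} (h : MvN E F) : E.cls = F.cls := by
  unfold Idf.cls
  rw [(mk'_eq_iff E F).2 h]

lemma cls_sum (E : Idf Y s ζ ι) (F : Idf Y s ζ κ) : (E.sum F).cls = E.cls + F.cls := by
  unfold Idf.cls
  rw [mk'_sum, map_add]

/-- two homomorphisms which agree on classes are equal -/
lemma hom_ext {A : Type} [AddCommGroup A] {f g : KG Y s ζ →+ A}
    (h : ∀ (n : ℕ) (E : Idf Y s ζ (Fin n)), f E.cls = g E.cls) : f = g := by
  apply Algebra.GrothendieckAddGroup.lift.symm.injective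
  ext x
  obtain ⟨n, E, rfl⟩ := x.exists_rep
  exact h n E

/-- homomorphisms out of `K` from functions on families -/
def liftHom {A : Type} [AddCommGroup A] (φ : ∀ n : ℕ, Idf Y s ζ (Fin n) → A)
    (h1 : ∀ n m (E : Idf Y s ζ (Fin n)) (F : Idf Y s ζ (Fin m)), MvN E F → φ n E = φ m F)
    (h2 : ∀ n m k (E : Idf Y s ζ (Fin n)) (F : Idf Y s ζ (Fin m)) (H : Idf Y s ζ (Fin k)),
      MvN (E.sum F) H → φ k H = φ n E + φ m F) : KG Y s ζ →+ A :=
  Algebra.GrothendieckAddGroup.lift
    { toFun := Quotient.lift (fun E => φ E.1 E.2) (fun E F h => h1 _ _ _ _ h)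
      map_zero' := by
        have h0 := h2 0 0 0 (Idf.triv (fun i => (0 : ℤ))) (Idf.triv (fun i => (0 : ℤ)))
          (Idf.triv (fun i => (0 : ℤ))) (MvN.of_reindex (Equiv.equivOfIsEmpty _ _)
            (fun i => i.elim0) (fun y i => i.elim0))
        have h3 : φ 0 (Idf.triv (fun i => (0 : ℤ))) = 0 := by
          simpa using h0
        have h4 := h1 (Fintype.card Empty) 0
          ((Idf.triv (fun _ : Empty => (0 : ℤ)) : Idf Y s ζ Empty).reindex
            (Fintype.equivFin Empty).symm) (Idf.triv (fun i => (0 : ℤ)))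
          ((MvN.reindex _ _).trans (MvN.of_reindex (Equiv.equivOfIsEmpty _ _)
            (fun i => i.elim0) (fun y i => i.elim0)))
        exact h4.trans h3
      map_add' := by
        intro x y
        induction x using Quotient.inductionOn with
        | h E =>
          induction y using Quotient.inductionOn with
          | h F =>
            exact h2 _ _ _ E.2 F.2 _ (MvN.reindex _ _).symm }

lemma liftHom_cls {A : Type} [AddCommGroup A] (φ : ∀ n : ℕ, Idf Y s ζ (Fin n) → A)
    (h1 : ∀ n m (E : Idf Y s ζ (Fin n)) (F : Idf Y s ζ (Fin m)), MvN E F → φ n E = φ m F)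
    (h2 : ∀ n m k (E : Idf Y s ζ (Fin n)) (F : Idf Y s ζ (Fin m)) (H : Idf Y s ζ (Fin k)),
      MvN (E.sum F) H → φ k H = φ n E + φ m F) (E : Idf Y s ζ ι) :
    liftHom φ h1 h2 E.cls = φ (Fintype.card ι) (E.reindex (Fintype.equivFin ι).symm) :=
  DFunLike.congr_fun (Algebra.GrothendieckAddGroup.lift.symm_apply_apply _) E.mk'

end classes

end

end INJ
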