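import Pool.Agent.INJ.KBase

set_option autoImplicit false

/-!
# INJ: tensor with weights, Fourier coefficients, spheres, the Moore space, Clifford matrices
-/

namespace INJ

open Matrix

noncomputable section

/-! ### Tensor product with a list of weights -/

/-- copies of `E` with shifted weights -/
def Idf.tens {Y : Type} [TopologicalSpace Y] {s : Y → Y} {ζ : Circle} {ι κ : Type} [Fintype ι]
    [Fintype κ] [DecidableEq κ] (E : Idf Y s ζ ι) (u : κ → ℤ) : Idf Y s ζ (κ × ι) where
  w := fun p => E.w p.2 + u p.1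
  e := fun y => Matrix.of fun p q => if p.1 = q.1 then E.e y p.2 q.2 else 0
  cont := by
    refine continuous_matrix fun p q => ?_
    by_cases h : p.1 = q.1
    · simpa [h] using E.cont.matrix_elem p.2 q.2
    · simpa [h] using continuous_const
  idem := by
    intro y
    ext p q
    rw [Matrix.mul_apply, Fintype.sum_prod_type]
    simp only [Matrix.of_apply]
    by_cases h : p.1 = q.1
    · rw [Finset.sum_eq_single p.1]
      · simp only [h, if_true]
        rw [← Matrix.mul_apply, E.idem y]
      · intro k _ hk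
        exact Finset.sum_eq_zero fun i _ => by rw [if_neg (Ne.symm hk), zero_mul]
      · intro h'; exact absurd (Finset.mem_univ _) h'
    · rw [if_neg h]
      refine Finset.sum_eq_zero fun k _ => Finset.sum_eq_zero fun i _ => ?_
      by_cases h1 : p.1 = k
      · rw [if_neg (fun h2 => h (h1.trans h2)), mul_zero]
      · rw [if_neg h1, zero_mul]
  eqv := by
    intro y p q
    simp only [Matrix.of_apply]
    by_cases h : p.1 = q.1
    · rw [if_pos h, if_pos h, E.eqv y, h]
      congr 3; ring
    · rw [if_neg h, if_neg h, mul_zero]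

/-! ### Fourier coefficients on the circle -/

/-- Fourier coefficient of a function on the circle -/
def fc (f : Circle → ℂ) (j : ℤ) : ℂ :=
  fourierCoeff (fun t : AddCircle (1 : ℝ) => f t.toCircle) j

/-- Fourier coefficients of matrix valued functions -/
def FC {X ι κ : Type} (R : Circle → X → Matrix ι κ ℂ) (j : ℤ) : X → Matrix ι κ ℂ :=
  fun x => Matrix.of fun a b => fc (fun z => R z x a b) j

/-! ### Spheres -/

/-- unit sphere of `ℂ^k` -/
abbrev Sph (k : ℕ) : Type := Metric.sphere (0 : EuclideanSpace ℂ (Fin k)) 1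

/-- rotation -/
def rot {k : ℕ} (c : Circle) (v : Sph k) : Sph k :=
  ⟨(c : ℂ) • v.1, by
    have := v.2
    rw [mem_sphere_zero_iff_norm] at this ⊢
    rw [norm_smul, this, Circle.norm_coe, mul_one]⟩

lemma continuous_rot {k : ℕ} (c : Circle) : Continuous (rot (k := k) c) := by
  have h : Continuous fun v : Sph k => (c : ℂ) • v.1 := by fun_prop
  exact h.subtype_mk _

/-- the self map of `Sph k × Y` -/
def srot {Y : Type} (k : ℕ) (c : Circle) (s : Y → Y) : Sph k × Y → Sph k × Y :=
  fun p => (rot c p.1, s p.2)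

/-- the projection `Sph k × Y → Y` -/
def prE {Y : Type} [TopologicalSpace Y] (k : ℕ) (c : Circle) (s : Y → Y) :
    EMap (Sph k × Y) (srot k c s) Y s where
  f := Prod.snd
  cont := continuous_snd
  eqv := fun _ => rfl

/-! ### Levels -/

/-- `N_i = 5^(2^i)` -/
def N (i : ℕ) : ℕ := 5 ^ 2 ^ i

/-- primitive root of unity of order `N_i` -/
def zeta (i : ℕ) : Circle := Circle.exp (2 * Real.pi / N i)

/-- the infinite product `P` -/
abbrev PP : Type := (i : ℕ) → Sph (N i)

/-- generator acting on `P` -/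
def gam : PP → PP := fun p i => rot (zeta i) (p i)

/-- finite product -/
abbrev PT (n : ℕ) : Type := (i : Fin n) → Sph (N i)

/-- generator acting on `P_n` -/
def sgm (n : ℕ) : PT n → PT n := fun p i => rot (zeta i) (p i)

/-! ### The Moore space -/

/-- the map from the closed disc onto the Moore space -/
def qM (z : Metric.closedBall (0 : ℂ) 1) : ℂ × ℂ :=
  ((z : ℂ) ^ 5, ((1 - ‖(z : ℂ)‖ : ℝ) : ℂ) * z)

/-- the Moore space `S^1 ∪_5 D^2` -/
def MM : Type := Set.range qM

instance : TopologicalSpace MM := inferInstanceAs (TopologicalSpace (Set.range qM))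

instance : T2Space MM := inferInstanceAs (T2Space (Set.range qM))

/-- the projection of the disc onto the Moore space -/
def qq (z : Metric.closedBall (0 : ℂ) 1) : MM := ⟨qM z, z, rfl⟩

lemma continuous_qM : Continuous qM := by
  unfold qM
  fun_prop

lemma continuous_qq : Continuous qq := Continuous.subtype_mk continuous_qM _

lemma qq_surj : Function.Surjective qq := by
  rintro ⟨_, z, rfl⟩
  exact ⟨z, rfl⟩

instance : CompactSpace (Metric.closedBall (0 : ℂ) 1) :=
  isCompact_iff_compactSpace.1 (isCompact_closedBall _ _)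

instance : CompactSpace MM := by
  have := isCompact_range continuous_qM
  exact isCompact_iff_compactSpace.1 this

/-- rotation of the disc -/
def rotD (c : Circle) (z : Metric.closedBall (0 : ℂ) 1) : Metric.closedBall (0 : ℂ) 1 :=
  ⟨(c : ℂ) * z, by
    have := z.2
    rw [mem_closedBall_zero_iff] at this ⊢
    rw [norm_mul, Circle.norm_coe, one_mul]; exact this⟩

/-- base point -/
def m0 : MM := qq ⟨0, by simp⟩

/-- base point as a map of `Y × MM` -/
def baseE {Y : Type} [TopologicalSpace Y] (s : Y → Y) :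
    EMap (Y × MM) (Prod.map s id) (Y × MM) (Prod.map s id) where
  f := fun p => (p.1, m0)
  cont := by fun_prop
  eqv := fun _ => rfl

/-- radius on the Moore space -/
def radM (m : MM) : ℝ := ‖m.1.1‖ ^ (1 / 5 : ℝ)

/-- the tautological projection on the Moore space -/
def eH (m : MM) : Matrix (Fin 2) (Fin 2) ℂ :=
  (((radM m) ^ 2 + (1 - radM m) ^ 2 : ℝ) : ℂ)⁻¹ •
    !![((radM m ^ 2 : ℝ) : ℂ), m.1.2; star m.1.2, (((1 - radM m) ^ 2 : ℝ) : ℂ)]

/-! ### Clifford matrices -/

/-- index sets of even and odd exterior powers -/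
def CPM : ℕ → Type × Type
  | 0 => (Unit, Empty)
  | k + 1 => ((CPM k).1 ⊕ (CPM k).2, (CPM k).2 ⊕ (CPM k).1)

/-- even part -/
def CP (k : ℕ) : Type := (CPM k).1

/-- odd part -/
def CM (k : ℕ) : Type := (CPM k).2

/-- finiteness -/
def finCPM : ∀ k : ℕ, Fintype (CP k) × Fintype (CM k)
  | 0 => (inferInstanceAs (Fintype Unit), inferInstanceAs (Fintype Empty))
  | k + 1 =>
    have _h1 : Fintype (CP k) := (finCPM k).1
    have _h2 : Fintype (CM k) := (finCPM k).2
    (inferInstanceAs (Fintype (CP k ⊕ CM k)), inferInstanceAs (Fintype (CM k ⊕ CP k)))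

/-- decidable equality -/
def decCPM : ∀ k : ℕ, DecidableEq (CP k) × DecidableEq (CM k)
  | 0 => (inferInstanceAs (DecidableEq Unit), inferInstanceAs (DecidableEq Empty))
  | k + 1 =>
    have _h1 : DecidableEq (CP k) := (decCPM k).1
    have _h2 : DecidableEq (CM k) := (decCPM k).2
    (inferInstanceAs (DecidableEq (CP k ⊕ CM k)), inferInstanceAs (DecidableEq (CM k ⊕ CP k)))

instance (k : ℕ) : Fintype (CP k) := (finCPM k).1
instance (k : ℕ) : Fintype (CM k) := (finCPM k).2
instance (k : ℕ) : DecidableEq (CP k) := (decCPM k).1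
instance (k : ℕ) : DecidableEq (CM k) := (decCPM k).2

/-- degrees -/
def cwtPM : ∀ k : ℕ, (CP k → ℕ) × (CM k → ℕ)
  | 0 => (fun _ => 0, fun _ => 0)
  | k + 1 => (fun i : CP k ⊕ CM k => Sum.elim (cwtPM k).1 (fun j => (cwtPM k).2 j + 1) i,
      fun i : CM k ⊕ CP k => Sum.elim (cwtPM k).2 (fun j => (cwtPM k).1 j + 1) i)

/-- degree on the even part -/
def cwP (k : ℕ) : CP k → ℕ := (cwtPM k).1

/-- degree on the odd part -/
def cwM (k : ℕ) : CM k → ℕ := (cwtPM k).2

/-- the two Clifford matrices -/
def clf : ∀ (k : ℕ), (Fin k → ℂ) → Matrix (CM k) (CP k) ℂ × Matrix (CP k) (CM k) ℂ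
  | 0, _ => (0, 0)
  | k + 1, v =>
    ((Matrix.fromBlocks (clf k (fun i => v i.castSucc)).1 (-(star (v (Fin.last k))) • 1)
      (v (Fin.last k) • 1) (clf k (fun i => v i.castSucc)).2 :
        Matrix (CM k ⊕ CP k) (CP k ⊕ CM k) ℂ),
     (Matrix.fromBlocks (clf k (fun i => v i.castSucc)).2 (star (v (Fin.last k)) • 1)
      (-(v (Fin.last k)) • 1) (clf k (fun i => v i.castSucc)).1 :
        Matrix (CP k ⊕ CM k) (CM k ⊕ CP k) ℂ))

end

end INJ
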