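import Pool.Agent.INJ.KMu

set_option autoImplicit false

/-!
# INJ, part K: targets (statements only; proofs in `Blueprint.md`)
-/

namespace INJ

open Matrix

noncomputable section

/-! ### A. Homotopy invariance -/

/-- idempotent families with invertible comparison matrix are equivalent -/
def T_NEAR : Prop := ∀ (Y : Type) [TopologicalSpace Y] (s : Y → Y) (ζ : Circle) (n : ℕ)
  (E F : Idf Y s ζ (Fin n)), E.w = F.w →
  (∀ y, (E.e y * F.e y + (1 - E.e y) * (1 - F.e y)).det ≠ 0) → MvN E F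

/-- homotopy invariance -/
def T_HOM : Prop := ∀ (Y' : Type) [TopologicalSpace Y'] [CompactSpace Y'] (s' : Y' → Y')
  (Y : Type) [TopologicalSpace Y] (s : Y → Y) (ζ : Circle) (h : Y' × unitInterval → Y),
  Continuous h → (∀ y r, h (s' y, r) = s (h (y, r))) → ∀ (f g : EMap Y' s' Y s),
  (∀ y, f.f y = h (y, 0)) → (∀ y, g.f y = h (y, 1)) → ∀ x : KG Y s ζ, pull f x = pull g x

/-! ### B. Algebra in `K` -/

/-- class of a tensor product with weights -/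
def T_TENS : Prop := ∀ (Y : Type) [TopologicalSpace Y] (s : Y → Y) (ζ : Circle) (ι κ : Type)
  [Fintype ι] [Fintype κ] [DecidableEq κ] (E : Idf Y s ζ ι) (u : κ → ℤ),
  (E.tens u).cls = ∑ k, T (u k) E.cls

/-- `D c k` is additive, commutes with `T` and with pull back; `D c (k+l) = D c k ∘ D c l` -/
def T_DADD : Prop := ∀ (Y : Type) [TopologicalSpace Y] (s : Y → Y) (ζ : Circle) (c : ℤ) (k : ℕ),
  (∀ x y : KG Y s ζ, D c k (x - y) = D c k x - D c k y) ∧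
  (∀ x y : KG Y s ζ, D c k (x + y) = D c k x + D c k y) ∧
  (∀ (d : ℤ) (x : KG Y s ζ), D c k (T d x) = T d (D c k x)) ∧
  (∀ (l : ℕ) (x : KG Y s ζ), D c (k + l) x = D c k (D c l x)) ∧
  (∀ (d : ℤ) (l : ℕ) (x : KG Y s ζ), D c k (D d l x) = D d l (D c k x)) ∧
  (∀ (Y' : Type) [TopologicalSpace Y'] (s' : Y' → Y') (f : EMap Y' s' Y s) (x : KG Y s ζ),
    pull f (D c k x) = D c k (pull f x))

/-- Frobenius: `(1 - T_c)^(5^j k) = (1 - T_(5^j c))^k` on elements killed by 5 -/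
def T_FROB : Prop := ∀ (Y : Type) [TopologicalSpace Y] (s : Y → Y) (ζ : Circle) (c : ℤ) (j k : ℕ)
  (x : KG Y s ζ), 5 • x = 0 → D c (5 ^ j * k) x = D (c * 5 ^ j) k x

/-- Clifford decomposition of `(1 - T_c)^k` -/
def T_DCL : Prop := ∀ (Y : Type) [TopologicalSpace Y] (s : Y → Y) (ζ : Circle) (c : ℤ) (k : ℕ)
  (x : KG Y s ζ), D c k x = (∑ i : CP k, T (c * cwP k i) x) - ∑ i : CM k, T (c * cwM k i) x

/-! ### C. Fourier coefficients -/

/-- Fourier coefficients: constants, multiplication by `z^m`, rotation, linearity -/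
def T_FCA : Prop := (∀ (a : ℂ) (j : ℤ), fc (fun _ => a) j = if j = 0 then a else 0) ∧
  (∀ (f : Circle → ℂ) (m j : ℤ), fc (fun z => ((z ^ m : Circle) : ℂ) * f z) j = fc f (j - m)) ∧
  (∀ (f : Circle → ℂ) (u : Circle) (j : ℤ),
    fc (fun z => f (u * z)) j = ((u ^ j : Circle) : ℂ) * fc f j) ∧
  (∀ (f g : Circle → ℂ) (j : ℤ), Continuous f → Continuous g →
    fc (fun z => f z + g z) j = fc f j + fc g j) ∧
  (∀ (f : Circle → ℂ) (a : ℂ) (j : ℤ), fc (fun z => a * f z) j = a * fc f j)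

/-- Riemann-Lebesgue -/
def T_FCR : Prop := ∀ f : Circle → ℂ, Continuous f →
  Filter.Tendsto (fun m : ℕ => fc f m) Filter.atTop (nhds 0) ∧
  Filter.Tendsto (fun m : ℕ => fc f (-(m : ℤ))) Filter.atTop (nhds 0)

/-- Fourier coefficients of matrix valued functions: continuity, constant factors, sums -/
def T_FCM : Prop := (∀ (X ι κ : Type) [TopologicalSpace X] (R : Circle → X → Matrix ι κ ℂ),
    Continuous (fun p : Circle × X => R p.1 p.2) → ∀ j, Continuous (FC R j)) ∧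
  (∀ (X ι κ μ : Type) [TopologicalSpace X] [Fintype κ] (R : Circle → X → Matrix ι κ ℂ)
    (B : X → Matrix κ μ ℂ), Continuous (fun p : Circle × X => R p.1 p.2) → ∀ j x,
    FC (fun z x => R z x * B x) j x = FC R j x * B x) ∧
  (∀ (X ι κ μ : Type) [TopologicalSpace X] [Fintype κ] (R : Circle → X → Matrix κ μ ℂ)
    (A : X → Matrix ι κ ℂ), Continuous (fun p : Circle × X => R p.1 p.2) → ∀ j x,
    FC (fun z x => A x * R z x) j x = A x * FC R j x)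

/-! ### D. Linear pencils -/

/-- pure matrix statement: Fourier coefficients of the inverse of a linear pencil -/
def T_PM : Prop := ∀ (ι κ : Type) [Fintype ι] [Fintype κ] (e0 : Matrix ι ι ℂ) (e1 : Matrix κ κ ℂ)
  (A B : Matrix κ ι ℂ) (R : Circle → Unit → Matrix ι κ ℂ),
  Continuous (fun p : Circle × Unit => R p.1 p.2) →
  (∀ z : Circle, R z () * ((z : ℂ) • A + B) = e0) →
  (∀ z : Circle, ((z : ℂ) • A + B) * R z () = e1) → (∀ z, R z () * e1 = R z ()) →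
  FC R (-1) () * A + FC R 0 () * B = e0 ∧ A * FC R (-1) () + B * FC R 0 () = e1 ∧
  FC R (-1) () * A * FC R (-1) () = FC R (-1) ()

/-- equivariance of the inverse of a pencil -/
def T_PEQ : Prop := ∀ (X : Type) [TopologicalSpace X] (s : X → X) (ζ : Circle) (ι κ : Type)
  [Fintype ι] [Fintype κ] (E0 : Idf X s ζ ι) (E1 : Idf X s ζ κ) (c : ℤ)
  (A B : X → Matrix κ ι ℂ) (R : Circle → X → Matrix ι κ ℂ),
  Eqv s ζ (fun k => E1.w k - c) E0.w A → Eqv s ζ E1.w E0.w B →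
  (∀ z x, R z x * ((z : ℂ) • A x + B x) = E0.e x ∧ ((z : ℂ) • A x + B x) * R z x = E1.e x ∧
    R z x * E1.e x = R z x) →
  ∀ z x i j, R (ζ ^ c * z) (s x) i j = ((ζ ^ (E0.w i - E1.w j) : Circle) : ℂ) * R z x i j

/-- the pencil theorem -/
def T_PEN : Prop := ∀ (X : Type) [TopologicalSpace X] (s : X → X) (ζ : Circle) (ι κ : Type)
  [Fintype ι] [Fintype κ] (E0 : Idf X s ζ ι) (E1 : Idf X s ζ κ) (c : ℤ)
  (A B : X → Matrix κ ι ℂ) (R : Circle → X → Matrix ι κ ℂ),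
  Continuous A → Continuous B → Continuous (fun p : Circle × X => R p.1 p.2) →
  Eqv s ζ (fun k => E1.w k - c) E0.w A → Eqv s ζ E1.w E0.w B →
  (∀ x, E1.e x * A x = A x ∧ A x * E0.e x = A x ∧ E1.e x * B x = B x ∧ B x * E0.e x = B x) →
  (∀ z x, R z x * ((z : ℂ) • A x + B x) = E0.e x ∧ ((z : ℂ) • A x + B x) * R z x = E1.e x ∧
    R z x * E1.e x = R z x) →
  ∃ Q : Idf X s ζ ι, Q.w = E0.w ∧ (∀ x, Q.e x = FC R (-1) x * A x) ∧
    E0.cls - E1.cls = Q.cls - T c Q.cls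

/-! ### E. Linearisation of polynomials -/

/-- the linearised pencil and its inverse, for polynomials of degree at most `m` -/
def T_LIN : Prop := ∀ (ι κ : Type) [Fintype ι] [Fintype κ] [DecidableEq ι] (m : ℕ)
  (e0 : Matrix ι ι ℂ) (e1 : Matrix κ κ ℂ) (a : ℕ → Matrix κ ι ℂ) (P : Matrix ι κ ℂ) (z : ℂ),
  z ≠ 0 → e0 * e0 = e0 → e1 * e1 = e1 → (∀ l, e1 * a l = a l ∧ a l * e0 = a l) →
  P * (∑ l ∈ Finset.range (m + 1), z ^ l • a l) = e0 →
  (∑ l ∈ Finset.range (m + 1), z ^ l • a l) * P = e1 → P * e1 = P →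
  let A : Matrix (κ ⊕ Fin m × ι) (Fin (m + 1) × ι) ℂ := Matrix.of fun r q =>
    Sum.elim (fun _ => 0) (fun t : Fin m × ι => if q.1 = t.1.castSucc then -e0 t.2 q.2 else 0) r
  let B : Matrix (κ ⊕ Fin m × ι) (Fin (m + 1) × ι) ℂ := Matrix.of fun r q =>
    Sum.elim (fun g => a q.1 g q.2)
      (fun t : Fin m × ι => if q.1 = t.1.succ then e0 t.2 q.2 else 0) r
  let R : Matrix (Fin (m + 1) × ι) (κ ⊕ Fin m × ι) ℂ := Matrix.of fun q r =>
    Sum.elim (fun g => z ^ (q.1 : ℕ) * P q.2 g)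
      (fun t : Fin m × ι =>
        (if (t.1 : ℕ) < q.1 then z ^ ((q.1 : ℕ) - (t.1 + 1)) * e0 q.2 t.2 else 0) -
        z ^ (q.1 : ℕ) * ∑ l ∈ Finset.range (m + 1), if (t.1 : ℕ) < l then
          z ^ (l - (t.1 + 1)) * (P * a l) q.2 t.2 else 0) r
  let F0 : Matrix (Fin (m + 1) × ι) (Fin (m + 1) × ι) ℂ := Matrix.of fun p q =>
    if p.1 = q.1 then e0 p.2 q.2 else 0
  let F1 : Matrix (κ ⊕ Fin m × ι) (κ ⊕ Fin m × ι) ℂ := Matrix.fromBlocks e1 0 0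
    (Matrix.of fun p q => if p.1 = q.1 then e0 p.2 q.2 else 0)
  R * (z • A + B) = F0 ∧ (z • A + B) * R = F1 ∧ R * F1 = R

/-- the polynomial theorem -/
def T_POL : Prop := ∀ (X : Type) [TopologicalSpace X] (s : X → X) (ζ : Circle) (ι κ : Type)
  [Fintype ι] [Fintype κ] [DecidableEq ι] (E0 : Idf X s ζ ι) (E1 : Idf X s ζ κ) (c : ℤ) (m : ℕ)
  (a : ℕ → X → Matrix κ ι ℂ) (P : Circle → X → Matrix ι κ ℂ),
  (∀ l, Continuous (a l)) → Continuous (fun p : Circle × X => P p.1 p.2) →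
  (∀ l : ℕ, Eqv s ζ E1.w (fun i => E0.w i + c * (l : ℤ)) (a l)) →
  (∀ l x, E1.e x * a l x = a l x ∧ a l x * E0.e x = a l x) →
  (∀ z x, P z x * (∑ l ∈ Finset.range (m + 1), (z : ℂ) ^ l • a l x) = E0.e x ∧
    (∑ l ∈ Finset.range (m + 1), (z : ℂ) ^ l • a l x) * P z x = E1.e x ∧
    P z x * E1.e x = P z x) →
  ∃ Q : Idf X s ζ (Fin (m + 1) × ι), (∀ q, Q.w q = E0.w q.2 + c * (q.1 : ℕ)) ∧
    (∀ x p q, Q.e x p q = ∑ l ∈ Finset.range (m + 1), if (q.1 : ℕ) < l then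
      (FC P ((q.1 : ℕ) - (p.1 : ℕ) - l : ℤ) x * a l x) p.2 q.2 else 0) ∧
    E0.cls - E1.cls = Q.cls - T c Q.cls

/-! ### F. Approximation and the index lemma -/

/-- smoothing by the kernel `|1+w|^(2N)/C(2N,N)` -/
def smo {X : Type} (n : ℕ) (F : Circle → X → ℂ) (z : Circle) (x : X) : ℂ :=
  ∑ l ∈ Finset.range (2 * n + 1), ((Nat.choose (2 * n) l : ℂ) / (Nat.choose (2 * n) n : ℂ)) *
    ((z ^ ((l : ℤ) - n) : Circle) : ℂ) * fc (fun w => F w x) ((l : ℤ) - n)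

/-- uniform convergence of the smoothings -/
def T_SMO : Prop := ∀ (X : Type) [TopologicalSpace X] [CompactSpace X] (F : Circle → X → ℂ),
  Continuous (fun p : Circle × X => F p.1 p.2) → ∀ ε > 0, ∃ n0 : ℕ, ∀ n ≥ n0, ∀ z x,
  ‖smo n F z x - F z x‖ < ε

/-- the index lemma -/
def T_IND : Prop := ∀ (X : Type) [TopologicalSpace X] [CompactSpace X] (s : X → X) (ζ : Circle)
  (n0 n1 : ℕ) (E0 : Idf X s ζ (Fin n0)) (E1 : Idf X s ζ (Fin n1)) (c : ℤ)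
  (Φ : Circle → X → Matrix (Fin n1) (Fin n0) ℂ) (Ψ : Circle → X → Matrix (Fin n0) (Fin n1) ℂ)
  (X0 : Set X),
  Continuous (fun p : Circle × X => Φ p.1 p.2) → Continuous (fun p : Circle × X => Ψ p.1 p.2) →
  (∀ z x, Ψ z x * Φ z x = E0.e x ∧ Φ z x * Ψ z x = E1.e x) →
  (∀ z x, E1.e x * Φ z x = Φ z x ∧ Φ z x * E0.e x = Φ z x ∧ E0.e x * Ψ z x = Ψ z x ∧
    Ψ z x * E1.e x = Ψ z x) →
  (∀ z x i j, Φ (ζ ^ c * z) (s x) i j = ((ζ ^ (E1.w i - E0.w j) : Circle) : ℂ) * Φ z x i j) →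
  (∀ x ∈ X0, ∀ z, Φ z x = Φ 1 x) →
  ∃ (n : ℕ) (Q : Idf X s ζ (Fin (2 * n + 1) × Fin n0)),
    (∀ q, Q.w q = E0.w q.2 + c * (q.1 : ℕ)) ∧
    E0.cls - T (c * n) E1.cls = Q.cls - T c Q.cls ∧
    ∀ x ∈ X0, ∀ p q, Q.e x p q = if p.1 = q.1 ∧ (p.1 : ℕ) < n then E0.e x p.2 q.2 else 0

/-! ### G. Spheres -/

/-- join coordinates on the sphere -/
def T_SPH : Prop := ∀ k : ℕ, ∃ j : (Metric.closedBall (0 : EuclideanSpace ℂ (Fin k)) 1) × Circle →
  Sph (k + 1), Continuous j ∧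
  (∀ (u : Metric.closedBall (0 : EuclideanSpace ℂ (Fin k)) 1)
    (u' : Metric.closedBall (0 : EuclideanSpace ℂ (Fin k)) 1) (z c : Circle),
    u'.1 = (c : ℂ) • u.1 → j (u', c * z) = rot c (j (u, z))) ∧
  (∀ u : Metric.closedBall (0 : EuclideanSpace ℂ (Fin k)) 1, ‖u.1‖ = 1 →
    ∀ z, j (u, z) = j (u, 1))

/-- Lemma G -/
def T_LG : Prop := ∀ (Y : Type) [TopologicalSpace Y] [CompactSpace Y] (s : Y → Y) (ζ : Circle)
  (c : ℤ) (k : ℕ) (x : KG Y s ζ), pull (prE (k + 1) (ζ ^ c) s) x = 0 →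
  ∃ y : KG Y s ζ, x = y - T c y ∧ pull (prE k (ζ ^ c) s) y = 0

/-- Lemma G iterated -/
def T_LGI : Prop := ∀ (Y : Type) [TopologicalSpace Y] [CompactSpace Y] (s : Y → Y) (ζ : Circle)
  (c : ℤ) (k : ℕ) (x : KG Y s ζ), pull (prE k (ζ ^ c) s) x = 0 → ∃ y : KG Y s ζ, x = D c k y

/-! ### H. Euler classes -/

/-- Clifford relations -/
def T_CLF : Prop := ∀ (k : ℕ), Continuous (clf k) ∧
  (∀ v, (clf k v).1 * (clf k v).2 = ((∑ i, ‖v i‖ ^ 2 : ℝ) : ℂ) • 1 ∧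
    (clf k v).2 * (clf k v).1 = ((∑ i, ‖v i‖ ^ 2 : ℝ) : ℂ) • 1) ∧
  (∀ (v : Fin k → ℂ) (u : Circle),
    (∀ i j, (clf k (fun t => (u : ℂ) * v t)).1 i j =
      ((u ^ ((cwM k i : ℤ) - cwP k j) : Circle) : ℂ) * (clf k v).1 i j) ∧
    (∀ i j, (clf k (fun t => (u : ℂ) * v t)).2 i j =
      ((u ^ ((cwP k i : ℤ) - cwM k j) : Circle) : ℂ) * (clf k v).2 i j))

/-- Euler classes act as zero on spheres -/
def T_EUL : Prop := ∀ (Y : Type) [TopologicalSpace Y] (s : Y → Y) (ζ : Circle) (c : ℤ) (k : ℕ)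
  (v : Y → Fin k → ℂ), Continuous v → (∀ y, v y ≠ 0) →
  (∀ y i, v (s y) i = ((ζ ^ c : Circle) : ℂ) * v y i) → ∀ x : KG Y s ζ, D c k x = 0

/-! ### I. The Moore space -/

/-- the closed unit disc -/
abbrev DD : Type := Metric.closedBall (0 : ℂ) 1

/-- maps out of `Y × MM` -/
def T_MQ : Prop := ∀ (Y Z : Type) [TopologicalSpace Y] [TopologicalSpace Z]
  (g : Y × DD → Z), Continuous g →
  (∀ (y : Y) (z : DD), ‖(z : ℂ)‖ = 1 → g (y, rotD (zeta 0) z) = g (y, z)) →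
  ∃ g' : Y × MM → Z, Continuous g' ∧ ∀ y z, g' (y, qq z) = g (y, z)

/-- the matrix `W` of item K7; `S` is the cyclic shift -/
def T_WW : Prop := ∃ W V : DD → Matrix (Fin 5) (Fin 5) ℂ,
  Continuous W ∧ Continuous V ∧ (∀ z, W z * V z = 1 ∧ V z * W z = 1) ∧
  ∀ z : DD, 1 / 2 ≤ ‖(z : ℂ)‖ →
    W (rotD (zeta 0) z) = (Matrix.of fun i j : Fin 5 => if j = i + 1 then (1 : ℂ) else 0) * W z

/-- rotations and the collapse of the centre act as the identity -/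
def T_ROT : Prop := ∀ (Y : Type) [TopologicalSpace Y] [CompactSpace Y] (s : Y → Y) (ζ : Circle),
  (∀ (u : Circle) (f : EMap (Y × MM) (Prod.map s id) (Y × MM) (Prod.map s id)),
    (∀ y z, f.f (y, qq z) = (y, qq (rotD u z))) → ∀ x : KG (Y × MM) (Prod.map s id) ζ,
    pull f x = x) ∧
  (∀ (u : Circle), ∃ f : EMap (Y × MM) (Prod.map s id) (Y × MM) (Prod.map s id),
    ∀ y z, f.f (y, qq z) = (y, qq (rotD u z))) ∧
  (∃ f : EMap (Y × MM) (Prod.map s id) (Y × MM) (Prod.map s id),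
    (∀ (y : Y) (z : DD), ‖(z : ℂ)‖ ≤ 1 / 2 → f.f (y, qq z) = (y, m0)) ∧
    (∀ x : KG (Y × MM) (Prod.map s id) ζ, pull f x = x))

/-- multiplication by 5 -/
def T_M5 : Prop := ∀ (Y : Type) [TopologicalSpace Y] [CompactSpace Y] (s : Y → Y) (ζ : Circle)
  (x : KG (Y × MM) (Prod.map s id) ζ), 5 • x = 5 • pull (baseE s) x

/-! ### J. Residues -/

/-- the residue homomorphism -/
def T_RES : Prop := ∀ (Y : Type) [TopologicalSpace Y] (s : Y → Y) (ζ ζ' : Circle) (m q : ℕ),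
  (∀ y, s^[m] y = y) → 0 < q → (∀ d : ℤ, ζ ^ ((m : ℤ) * d) = 1 → (q : ℤ) ∣ d) → ζ ^ q = ζ' →
  ∃ Res : KG Y s ζ →+ KG Y s ζ',
    (∀ (c : ℤ) (x : KG Y s ζ), Res (T (q * c) x) = T c (Res x)) ∧
    (∀ (ι : Type) [Fintype ι] (E : Idf Y s ζ ι) (c : ℤ), (∀ i, E.w i = 0) → ¬ (q : ℤ) ∣ c →
      Res (T c E.cls) = 0) ∧
    (∀ (ι : Type) [Fintype ι] (E : Idf Y s ζ ι) (E' : Idf Y s ζ' ι), (∀ i, E.w i = 0) →
      (∀ i, E'.w i = 0) → E'.e = E.e → Res E.cls = E'.cls)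

/-! ### K. The class `μ` -/

/-- no nowhere zero function with this boundary behaviour -/
def T_NOS : Prop := ∀ f : DD → ℂ, Continuous f → (∀ z, f z ≠ 0) →
  ¬ ∀ z : DD, ‖(z : ℂ)‖ = 1 → f (rotD (zeta 0) z) = star ((zeta 0 : Circle) : ℂ) * f z

end

end INJ
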