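import Pool.Agent.INJ.FDefs

set_option autoImplicit false

/-!
# INJ, part M: the fibre (definitions)
-/

namespace INJ

open Quaternion

noncomputable section

/-! ### Quaternions as pairs of complex numbers -/

/-- first complex coordinate -/
def z1 (q : ℍ[ℝ]) : ℂ := ⟨q.re, q.imI⟩

/-- second complex coordinate: `q = z1 + z2 j` -/
def z2 (q : ℍ[ℝ]) : ℂ := ⟨q.imJ, q.imK⟩

/-- quaternion with given complex coordinates -/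
def mkH (a b : ℂ) : ℍ[ℝ] := ⟨a.re, a.im, b.re, b.im⟩

/-! ### Shapes -/

/-- the fixed point `1/2` -/
def rho : ℍ[ℝ] := ((1 / 2 : ℝ) : ℍ[ℝ])

/-- powers of the contraction `f ↦ ρ + (f - ρ)/10` -/
def th (k : ℤ) (f : ℍ[ℝ]) : ℍ[ℝ] := rho + ((10 : ℝ) ^ (-k)) • (f - rho)

/-- radial profile -/
def Rk (κ x : ℝ) : ℝ := max 0 (max ((1 - κ) * (7 / 20 - x) / (7 / 20)) ((x - 11 / 20) / (9 / 20)))

/-- profile function with values in `[0,1]` -/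
def ts (κ : ℝ) (f : ℍ[ℝ]) : ℝ :=
  min 1 (max (Rk κ ‖f‖) (min κ (‖f - ((9 / 20 : ℝ) : ℍ[ℝ])‖ - 1 / 10)))

/-- unrolled profile function -/
def tt (κ : ℝ) (F : ℍ[ℝ]) : ℝ :=
  (∑' k : ℕ, ts κ (th k F)) - ∑' k : ℕ, (1 - ts κ (th (-(k + 1)) F))

/-- logarithmic size -/
def ll (F : ℍ[ℝ]) : ℝ := Real.log ‖F - rho‖ / Real.log 10

/-- time change of the isotopy -/
def la (κ s : ℝ) : ℝ := ⌊s⌋ + max 0 (1 - (1 - Int.fract s) / κ)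

/-- the isotopy -/
def Th (κ s : ℝ) (F : ℍ[ℝ]) : ℍ[ℝ] := rho + ((10 : ℝ) ^ (-(la κ s))) • (F - rho)

/-- inverse of the isotopy -/
def Thi (κ s : ℝ) (f : ℍ[ℝ]) : ℍ[ℝ] := rho + ((10 : ℝ) ^ (la κ s)) • (f - rho)

/-- `F ∈ U(s)`: `F = ρ` or `tt F ≤ s` -/
def InU (κ s : ℝ) (F : ℍ[ℝ]) : Prop := F = rho ∨ tt κ F ≤ s

/-- `f ∈ Y(s)` -/
def InY (κ s : ℝ) (f : ℍ[ℝ]) : Prop := InU κ s (Thi κ s f)

/-! ### Bonding maps -/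

/-- the polynomial map `B_q` -/
def Bq (q : ℕ) (x : ℍ[ℝ]) : ℍ[ℝ] :=
  mkH (z1 x ^ (q - 1) * z2 x) (z2 x ^ q + star (z1 x) ^ (q ^ 2 - q))

/-- normalisation -/
def nrm (x : ℍ[ℝ]) : ℍ[ℝ] := ‖x‖⁻¹ • x

/-- the bonding map, extended to all quaternions by a radial cut-off -/
def bt (q : ℕ) (v : ℍ[ℝ]) : ℍ[ℝ] := min 1 (10 * ‖v‖) • nrm (Bq q (nrm v))

/-! ### Coordinates and times -/

/-- cycle number -/
def nn (a : ℕ × ℕ) : ℕ := 16 ^ (Nat.pair a.1 a.2 + 1)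

/-- successor in the chain -/
def suc (a : ℕ × ℕ) : ℕ × ℕ := (a.1, a.2 + 1)

/-- critical half width -/
def kap (a : ℕ × ℕ) : ℝ := nn a / (16 * nn (suc a))

/-- local time -/
def ss (a : ℕ × ℕ) (t : ℝ) : ℝ := nn a * t + 1 / 2

/-- distance to the nearest integer -/
def dZ (s : ℝ) : ℝ := |s - round s|

/-- window parameter -/
def lam (a : ℕ × ℕ) (t : ℝ) : ℝ := min 1 (max 0 (dZ (ss a t) / kap a - 1))

/-- numerator of the gluing element -/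
def num (a : ℕ × ℕ) (t : ℝ) (v : ℍ[ℝ]) : ℍ[ℝ] :=
  (1 - lam a t) • bt (N a.2) v - ((lam a t : ℝ) : ℍ[ℝ])

/-- gluing element -/
def gg (a : ℕ × ℕ) (t : ℝ) (v : ℍ[ℝ]) : ℍ[ℝ] := nrm (num a t v)

/-! ### The fibre -/

/-- the condition defining the fibre at time `t` -/
def MR (t : ℝ) (v : ℕ × ℕ → ℍ[ℝ]) : Prop :=
  ∀ a, InY (kap a) (ss a t) ((gg a t (v (suc a)))⁻¹ * v a)

/-- the decoupled condition -/
def MD (t : ℝ) (f : ℕ × ℕ → ℍ[ℝ]) : Prop := ∀ a, InY (kap a) (ss a t) (f a)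

/-- the space `M` -/
def MS : Set (AddCircle (1 : ℝ) × (ℕ × ℕ → ℍ[ℝ])) :=
  {x | ∃ t : ℝ, (t : AddCircle (1 : ℝ)) = x.1 ∧ MR t x.2}

/-- the decoupled space -/
def MSD : Set (AddCircle (1 : ℝ) × (ℕ × ℕ → ℍ[ℝ])) :=
  {x | ∃ t : ℝ, (t : AddCircle (1 : ℝ)) = x.1 ∧ MD t x.2}

/-- action of the group on the chain `j` -/
def actM (j : ℕ) (c : GG) (v : ℕ × ℕ → ℍ[ℝ]) : ℕ × ℕ → ℍ[ℝ] :=
  fun a => if a.1 = j then ((c.1 a.2 : ℂ) : ℍ[ℝ]) * v a else v a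

/-- the unit quaternion `j = (0, 1)` -/
def eJ : ℍ[ℝ] := ⟨0, 0, 1, 0⟩

/-- replace chain `j` by the constant section -/
def repM (j : ℕ) (v : ℕ × ℕ → ℍ[ℝ]) : ℕ × ℕ → ℍ[ℝ] :=
  fun a => if a.1 = j then rho * eJ else v a

/-! ### The time change -/

/-- `k`-th coordinate -/
def ak (k : ℕ) : ℕ × ℕ := Nat.unpair k

open Classical in
/-- `max (y_k - t) (-δ)`, `y_k = (tt F - 1/2)/n_k` (`-∞` at `ρ`) -/
def yk (k : ℕ) (t : ℝ) (F : ℍ[ℝ]) (δ : ℝ) : ℝ :=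
  if F = rho then -δ else max (-δ) ((tt (kap (ak k)) F - 1 / 2) / nn (ak k) - t)

open Classical in
/-- `max (x_k - t) (-δ)`, `x_k = (ll F - 1/2)/n_k` (`-∞` at `ρ`) -/
def xk (k : ℕ) (t : ℝ) (F : ℍ[ℝ]) (δ : ℝ) : ℝ :=
  if F = rho then -δ else max (-δ) ((ll F - 1 / 2) / nn (ak k) - t)

/-- truncated running maximum `max (-δ) (max_{l<k} (y_l - t))` -/
def Sk : ℕ → ℝ → (ℕ → ℍ[ℝ]) → ℝ → ℝ
  | 0, _, _, δ => -δ
  | k + 1, t, F, δ => max (Sk k t F δ) (yk k t (F k) δ)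

/-- one step of the time change -/
def stp (k : ℕ) (t : ℝ) (F : ℕ → ℍ[ℝ]) : ℝ :=
  t + (max (Sk k t F (9 / nn (ak k))) (yk k t (F k) (9 / nn (ak k))) -
      max (Sk k t F (9 / nn (ak k))) (xk k t (F k) (9 / nn (ak k)))) *
    max 0 (1 + nn (ak k) / 6 * max (Sk k t F (9 / nn (ak k))) (xk k t (F k) (9 / nn (ak k))))

/-- new coordinate -/
def Fnew (k : ℕ) (t : ℝ) (w : ℍ[ℝ]) : ℍ[ℝ] := rho + ((10 : ℝ) ^ (ss (ak k) t)) • w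

/-- the recursion: times and coordinates -/
def st (t : ℝ) (w : ℕ → ℍ[ℝ]) : ℕ → ℝ × (ℕ → ℍ[ℝ])
  | 0 => (t, fun _ => rho)
  | k + 1 =>
    let p := st t w k
    let F := Function.update p.2 k (Fnew k p.1 (w k))
    (stp k p.1 F, F)

/-- final coordinates -/
def Finf (t : ℝ) (w : ℕ → ℍ[ℝ]) (k : ℕ) : ℍ[ℝ] := (st t w (k + 1)).2 k

/-- final time -/
def tinf (t : ℝ) (w : ℕ → ℍ[ℝ]) : ℝ := Filter.limUnder Filter.atTop fun k => (st t w k).1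

/-- `t ≥ y_l` for all `l < k` -/
def GS (k : ℕ) (t : ℝ) (F : ℕ → ℍ[ℝ]) : Prop :=
  ∀ l < k, InU (kap (ak l)) (ss (ak l) t) (F l)

/-- `t ≥ x_k` -/
def GB (k : ℕ) (t : ℝ) (F : ℕ → ℍ[ℝ]) : Prop := ‖F k - rho‖ ≤ (10 : ℝ) ^ (ss (ak k) t)

end

end INJ
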