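import Pool.Agent.INJ.MTargets

set_option autoImplicit false

/-!
# INJ: target ACT
-/

namespace INJ

open Quaternion

/-- complex numbers of modulus one have norm one as quaternions -/
lemma ACT_norm (hZ : T_Z12) (z : Circle) : ‖((z : ℂ) : ℍ[ℝ])‖ = 1 := by
  obtain ⟨-, -, -, -, -, -, -, -, -, hn, -⟩ := hZ
  rw [hn, Circle.norm_coe]

/-- the equivariance of the gluing elements in the window -/
lemma ACT_gg (hZ : T_Z12) (hBT : T_BT) (hKAP : T_KAP) (hGG : T_GG) (c : GG) (a : ℕ × ℕ) (t : ℝ)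
    (v : ℍ[ℝ]) (h0 : lam a t = 0) (hv : 1 / 10 ≤ ‖v‖) :
    gg a t (((c.1 (a.2 + 1) : ℂ) : ℍ[ℝ]) * v) = ((c.1 a.2 : ℂ) : ℍ[ℝ]) * gg a t v := by
  obtain ⟨-, -, hg, -, -⟩ := hGG
  obtain ⟨-, -, -, -, hN⟩ := hKAP
  obtain ⟨-, -, hb, -, -⟩ := hBT (N a.2) (hN a)
  obtain ⟨hc1, hc2⟩ := c.2
  have hz : c.1 (a.2 + 1) ^ (N a.2 ^ 2) = 1 := by
    rw [pow_two, pow_mul, hc2, hc1]
  rw [hg a t _ h0 (by rw [norm_mul, ACT_norm hZ, one_mul]; exact hv), hb _ _ hz, hc2,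
    hg a t _ h0 hv]

theorem p_ACT (hINY : T_INY) (hZ : T_Z12) (hBT : T_BT) (hKAP : T_KAP) (hLAM : T_LAM)
    (hGG : T_GG) (hMRP : T_MRP) : T_ACT := by
  intro j c t v hM a
  have hMa := hM a
  obtain ⟨-, hm2, -, hm4⟩ := hMRP t v hM
  by_cases hj : a.1 = j
  swap
  · have hs : (suc a).1 ≠ j := hj
    simp only [actM, if_neg hj, if_neg hs]
    exact hMa
  have hs : (suc a).1 = j := hj
  simp only [actM, if_pos hj, if_pos hs]
  change InY (kap a) (ss a t) ((gg a t (((c.1 (a.2 + 1) : ℂ) : ℍ[ℝ]) * v (suc a)))⁻¹ *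
    (((c.1 a.2 : ℂ) : ℍ[ℝ]) * v a))
  obtain ⟨hl01, -, -, -, hl0, -, -⟩ := hLAM a
  by_cases h0 : lam a t = 0
  · rw [ACT_gg hZ hBT hKAP hGG c a t _ h0 (hm2 a (by rw [h0]; exact one_pos))]
    have hne : ((c.1 a.2 : ℂ) : ℍ[ℝ]) ≠ 0 := by
      intro h
      have h1 := ACT_norm hZ (c.1 a.2)
      rw [h, norm_zero] at h1
      exact zero_ne_one h1
    rw [mul_inv_rev, mul_assoc, inv_mul_cancel_left₀ hne]
    exact hMa
  · have hd : kap a ≤ dZ (ss a t) := by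
      by_contra hlt
      exact h0 ((hl0 t).2 (le_of_lt (not_le.1 hlt)))
    obtain ⟨-, -, -, -, -, hn, -, -⟩ := hINY (kap a) (hKAP.1 a).1
      (le_trans (hKAP.1 a).2 (by norm_num))
    rw [hn _ _ hd] at hMa ⊢
    have h1 : ‖gg a t (((c.1 (a.2 + 1) : ℂ) : ℍ[ℝ]) * v (suc a))‖ = 1 := by
      apply hGG.1
      rcases eq_or_lt_of_le (hl01 t).2 with h | h
      · exact Or.inr h
      · left
        rw [norm_mul, ACT_norm hZ, one_mul]
        exact hm2 a h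
    rw [norm_mul, norm_inv, hm4, inv_one, one_mul] at hMa
    rw [norm_mul, norm_inv, h1, inv_one, one_mul, norm_mul, ACT_norm hZ, one_mul]
    exact hMa

end INJ
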