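import Pool.Agent.INJ.CTargets

set_option autoImplicit false

/-!
# INJ, part C: averages over the nerve
-/

namespace INJ

lemma CAV_sum {m : ℕ} (z : Fin m → ℝ) (G : Fin m → ℝ) (δ : ℝ) (h0 : ∀ i, 0 ≤ z i)
    (h1 : ∑ i, z i = 1) (hG : ∀ i, z i ≠ 0 → G i < δ) : ∑ i, z i * G i < δ := by
  have h2 : ∑ i, z i * δ = δ := by rw [← Finset.sum_mul, h1, one_mul]
  have h3 : ∃ i, z i ≠ 0 := by
    by_contra h
    push Not at h
    rw [Finset.sum_eq_zero fun i _ => h i] at h1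
    exact zero_ne_one h1
  obtain ⟨i₀, hi₀⟩ := h3
  have h4 : ∑ i, z i * G i < ∑ i, z i * δ := by
    refine Finset.sum_lt_sum (fun i _ => ?_) ⟨i₀, Finset.mem_univ _, ?_⟩
    · rcases eq_or_ne (z i) 0 with h | h
      · rw [h, zero_mul, zero_mul]
      · exact mul_le_mul_of_nonneg_left (hG i h).le (h0 i)
    · exact mul_lt_mul_of_pos_left (hG i₀ hi₀) (lt_of_le_of_ne (h0 i₀) (Ne.symm hi₀))
  rw [h2] at h4
  exact h4

theorem p_CAV : T_CAV := by
  intro X m W w F δ hF z hz b hb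
  obtain ⟨h0, h1, -⟩ := hz
  have h2 : (∑ i, (z i : ℂ) * F (w i)) - F b = ∑ i, (z i : ℂ) * (F (w i) - F b) := by
    have h3 : ∑ i, (z i : ℂ) * F b = F b := by
      rw [← Finset.sum_mul, ← Complex.ofReal_sum, h1, Complex.ofReal_one, one_mul]
    simp only [mul_sub]
    rw [Finset.sum_sub_distrib, h3]
  rw [h2]
  refine lt_of_le_of_lt (norm_sum_le _ _) ?_
  have h4 : ∀ i, ‖(z i : ℂ) * (F (w i) - F b)‖ = z i * ‖F b - F (w i)‖ := by
    intro i
    rw [norm_mul, Complex.norm_real, Real.norm_of_nonneg (h0 i), norm_sub_rev]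
  simp only [h4]
  exact CAV_sum z _ δ h0 h1 fun i hi => hF i b (hb i hi)

end INJ
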