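import Pool.Agent.INJ.MTargets

set_option autoImplicit false

/-!
# INJ: DEC, from the decoupled space to `M`
-/

namespace INJ

open Quaternion

noncomputable section

lemma DEC_int {P : ℝ → Prop} (h : ∀ t, P (t + 1) ↔ P t) (t : ℝ) (n : ℤ) : P (t + n) ↔ P t := by
  induction n using Int.induction_on with
  | zero => simp
  | succ k ih =>
    rw [← ih, ← h (t + (k : ℤ))]
    push_cast
    rw [add_assoc]
  | pred k ih =>
    rw [← ih, ← h (t + ((-(k : ℤ) - 1 : ℤ) : ℝ))]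
    push_cast
    rw [show t + (-(k : ℝ) - 1) + 1 = t + -(k : ℝ) by ring]

/-- the decoupling map -/
def DEC_G (t : ℝ) (f : ℕ × ℕ → ℍ[ℝ]) : ℕ × ℕ → ℍ[ℝ] :=
  fun a => gg a t (-f (suc a)) * f a

lemma DEC_G_per (hP : T_PER) {t t' : ℝ} (h : (t : AddCircle (1 : ℝ)) = t')
    (f : ℕ × ℕ → ℍ[ℝ]) : DEC_G t f = DEC_G t' f := by
  have h1 : ((t - t' : ℝ) : AddCircle (1 : ℝ)) = 0 := by
    rw [AddCircle.coe_sub, h, sub_self]
  obtain ⟨n, hn⟩ := (AddCircle.coe_eq_zero_iff (1 : ℝ)).1 h1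
  have h2 : t = t' + n := by
    simp at hn
    linarith
  have h3 := (DEC_int (P := fun s => DEC_G s f = DEC_G t' f) (fun s => by
    have : DEC_G (s + 1) f = DEC_G s f := by
      funext a
      simp only [DEC_G, hP.2.2]
    rw [this]) t' n).2 rfl
  rw [h2]
  exact h3

lemma DEC_rep {P : ℝ → Prop} (h : ∀ t, P (t + 1) ↔ P t) {t t' : ℝ}
    (e : (t : AddCircle (1 : ℝ)) = t') : P t ↔ P t' := by
  have h1 : ((t - t' : ℝ) : AddCircle (1 : ℝ)) = 0 := by
    rw [AddCircle.coe_sub, e, sub_self]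
  obtain ⟨n, hn⟩ := (AddCircle.coe_eq_zero_iff (1 : ℝ)).1 h1
  have h2 : t = t' + n := by
    simp at hn
    linarith
  rw [h2]
  exact DEC_int h t' n

/-- a real representative -/
def DEC_out (c : AddCircle (1 : ℝ)) : ℝ := Classical.choose (QuotientAddGroup.mk_surjective c)

lemma DEC_out_spec (c : AddCircle (1 : ℝ)) : (DEC_out c : AddCircle (1 : ℝ)) = c :=
  Classical.choose_spec (QuotientAddGroup.mk_surjective c)

/-- the covering map -/
def DEC_pi (p : ℝ × (ℕ × ℕ → ℍ[ℝ])) : AddCircle (1 : ℝ) × (ℕ × ℕ → ℍ[ℝ]) := (p.1, p.2)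

lemma DEC_pi_quot : IsOpenQuotientMap DEC_pi := by
  have h1 : IsOpenQuotientMap (fun t : ℝ => (t : AddCircle (1 : ℝ))) :=
    QuotientAddGroup.isOpenQuotientMap_mk
  exact h1.prodMap IsOpenQuotientMap.id

lemma DEC_cont (hP : T_PER) (hC : T_GAC) :
    ContinuousOn (fun x : AddCircle (1 : ℝ) × (ℕ × ℕ → ℍ[ℝ]) => DEC_G (DEC_out x.1) x.2) MSD := by
  rw [continuousOn_iff_continuous_domRestrict]
  have h1 : IsOpenQuotientMap (MSD.restrictPreimage DEC_pi) :=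
    ⟨(Set.restrictPreimage_surjective _ DEC_pi_quot.surjective),
      DEC_pi_quot.continuous.restrictPreimage, DEC_pi_quot.isOpenMap.restrictPreimage _⟩
  rw [h1.isQuotientMap.continuous_iff]
  have h2 : Set.domRestrict MSD (fun x : AddCircle (1 : ℝ) × (ℕ × ℕ → ℍ[ℝ]) =>
      DEC_G (DEC_out x.1) x.2) ∘ MSD.restrictPreimage DEC_pi =
      fun p : DEC_pi ⁻¹' MSD => DEC_G p.1.1 p.1.2 := by
    funext p
    exact DEC_G_per hP (DEC_out_spec _) p.1.2
  rw [h2]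
  refine (continuousOn_iff_continuous_domRestrict.1 (ContinuousOn.mono hC ?_) :)
  rintro ⟨t, f⟩ ⟨t', ht', h⟩
  exact (DEC_rep (P := fun s => MD s f) (fun s => hP.2.1 s f) ht').1 h

/-- from a parametrisation of the decoupled space to one of `M` -/
theorem p_DEC (hP : T_PER) (hG : T_GAM) (hC : T_GAC) : T_DEC := by
  intro Z _ Ψ hc hi hr
  have hm : ∀ x, Ψ x ∈ MSD := fun x => by
    rw [← hr]
    exact Set.mem_range_self x
  have hMD : ∀ c f, (c, f) ∈ MSD → MD (DEC_out c) f := by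
    rintro c f ⟨t, ht, h⟩
    exact (DEC_rep (P := fun s => MD s f) (fun s => hP.2.1 s f)
      (ht.trans (DEC_out_spec c).symm)).1 h
  refine ⟨fun x => ((Ψ x).1, DEC_G (DEC_out (Ψ x).1) (Ψ x).2), ?_, ?_, ?_⟩
  · exact (continuous_fst.comp hc).prodMk ((DEC_cont hP hC).comp_continuous hc hm)
  · intro x y hxy
    simp only [Prod.mk.injEq] at hxy
    obtain ⟨h1, h2⟩ := hxy
    have hx := hMD _ _ (hm x)
    have hy := hMD _ _ (hm y)
    rw [← h1] at h2 hy
    refine hi (Prod.ext h1 (funext fun a => ?_))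
    rw [← hG.2.1 _ _ hx a, ← hG.2.1 _ _ hy a]
    have e1 : ∀ b, gg b (DEC_out (Ψ x).1) (-(Ψ x).2 (suc b)) * (Ψ x).2 b =
        gg b (DEC_out (Ψ x).1) (-(Ψ y).2 (suc b)) * (Ψ y).2 b := fun b => congrFun h2 b
    rw [e1 a, e1 (suc a)]
  · ext ⟨c, v⟩
    constructor
    · rintro ⟨x, hx⟩
      simp only [Prod.mk.injEq] at hx
      obtain ⟨rfl, rfl⟩ := hx
      exact ⟨DEC_out (Ψ x).1, DEC_out_spec _, hG.1 _ _ (hMD _ _ (hm x))⟩
    · rintro ⟨t, ht, h⟩
      have h1 : MR (DEC_out c) v := (DEC_rep (P := fun s => MR s v) (fun s => hP.1 s v)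
        (ht.trans (DEC_out_spec c).symm)).1 h
      obtain ⟨f, hf, hv⟩ := hG.2.2 _ _ h1
      have h2 : (c, f) ∈ MSD := ⟨DEC_out c, DEC_out_spec c, hf⟩
      rw [← hr] at h2
      obtain ⟨x, hx⟩ := h2
      refine ⟨x, ?_⟩
      simp only [hx]
      rw [hv]
      rfl

end

end INJ
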