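import Pool.Agent.INJ.MTargets

set_option autoImplicit false

/-!
# INJ: proof of `T_GAM`
-/

namespace INJ

open Quaternion

noncomputable section

/-- lower bound in the windows -/
lemma GAM_low (hLAM : T_LAM) (hINY : T_INY) (hKAP : T_KAP) {t : ℝ} {f : ℕ × ℕ → ℍ[ℝ]}
    (hf : MD t f) (a : ℕ × ℕ) (ha : lam a t < 1) : 1 / 10 ≤ ‖f (suc a)‖ := by
  have hk := hKAP.1 (suc a)
  obtain ⟨-, -, -, -, -, -, -, h8⟩ := hINY (kap (suc a)) hk.1 (hk.2.trans (by norm_num))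
  obtain ⟨-, -, -, -, -, -, h7⟩ := hLAM a
  exact h8 _ _ (h7 t ha) (hf (suc a))

lemma GAM_lam (hLAM : T_LAM) (a : ℕ × ℕ) (t : ℝ) :
    lam a t = 1 ∨ (lam a t < 1 ∧ lam (suc a) t = 1) := by
  obtain ⟨h1, -, -, -, -, h6, -⟩ := hLAM a
  rcases (h1 t).2.lt_or_eq with h | h
  · exact Or.inr ⟨h, h6 t h⟩
  · exact Or.inl h

/-- the gluing elements are unit quaternions along decoupled points -/
lemma GAM_norm (hGG : T_GG) (hLAM : T_LAM) (hINY : T_INY) (hKAP : T_KAP) {t : ℝ}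
    {f : ℕ × ℕ → ℍ[ℝ]} (hf : MD t f) (a : ℕ × ℕ) : ‖gg a t (-f (suc a))‖ = 1 := by
  apply hGG.1
  rcases GAM_lam hLAM a t with h | h
  · exact Or.inr h
  · left
    rw [norm_neg]
    exact GAM_low hLAM hINY hKAP hf a h.1

/-- the gluing elements of the two sides agree -/
lemma GAM_eq (hGG : T_GG) (hLAM : T_LAM) (t : ℝ) (f : ℕ × ℕ → ℍ[ℝ]) (a : ℕ × ℕ) :
    gg a t (gg (suc a) t (-f (suc (suc a))) * f (suc a)) = gg a t (-f (suc a)) := by
  rcases GAM_lam hLAM a t with h | h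
  · rw [hGG.2.1 a t _ h, hGG.2.1 a t _ h]
  · rw [hGG.2.1 (suc a) t _ h.2, neg_one_mul]

/-- decoupling is inverse to coupling -/
lemma GAM_inv (hGG : T_GG) (hLAM : T_LAM) (hINY : T_INY) (hKAP : T_KAP) {t : ℝ}
    {f : ℕ × ℕ → ℍ[ℝ]} (hf : MD t f) (a : ℕ × ℕ) :
    (gg a t (gg (suc a) t (-f (suc (suc a))) * f (suc a)))⁻¹ *
      (gg a t (-f (suc a)) * f a) = f a := by
  have h0 : gg a t (-f (suc a)) ≠ 0 := by
    intro h
    have := GAM_norm hGG hLAM hINY hKAP hf a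
    rw [h, norm_zero] at this
    exact zero_ne_one this
  rw [GAM_eq hGG hLAM, ← mul_assoc, inv_mul_cancel₀ h0, one_mul]

theorem p_GAM (hGG : T_GG) (hLAM : T_LAM) (hINY : T_INY) (hKAP : T_KAP) : T_GAM := by
  refine ⟨fun t f hf a => ?_, fun t f hf a => GAM_inv hGG hLAM hINY hKAP hf a,
    fun t v hv => ?_⟩
  · have h := GAM_inv hGG hLAM hINY hKAP hf a
    change InY (kap a) (ss a t) ((gg a t (gg (suc a) t (-f (suc (suc a))) * f (suc a)))⁻¹ *
      (gg a t (-f (suc a)) * f a))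
    rw [h]
    exact hf a
  · have hf : MD t (fun a => (gg a t (v (suc a)))⁻¹ * v a) := hv
    refine ⟨fun a => (gg a t (v (suc a)))⁻¹ * v a, hf, ?_⟩
    funext a
    have hn := GAM_norm hGG hLAM hINY hKAP hf a
    have he : gg a t (-((gg (suc a) t (v (suc (suc a))))⁻¹ * v (suc a))) =
        gg a t (v (suc a)) := by
      rcases GAM_lam hLAM a t with h | h
      · rw [hGG.2.1 a t _ h, hGG.2.1 a t _ h]
      · rw [hGG.2.1 (suc a) t _ h.2, inv_neg, inv_one, neg_one_mul, neg_neg]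
    rw [he] at hn
    have h0 : gg a t (v (suc a)) ≠ 0 := by
      intro h
      rw [h, norm_zero] at hn
      exact zero_ne_one hn
    change v a = gg a t (-((gg (suc a) t (v (suc (suc a))))⁻¹ * v (suc a))) *
      ((gg a t (v (suc a)))⁻¹ * v a)
    rw [he, ← mul_assoc, mul_inv_cancel₀ h0, one_mul]

end

end INJ
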