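import Pool.Agent.INJ.GTargets

set_option autoImplicit false
set_option maxHeartbeats 4000000

/-!
# INJ: change of index types in `K0Eq` (helper97)
-/

namespace INJ

noncomputable section

lemma RIX_blocks {ι ι' : Type} {k : ℕ} (f : ι' ≃ ι) (A : Matrix ι ι ℂ) :
    (Matrix.fromBlocks A 0 0 (1 : Matrix (Fin k) (Fin k) ℂ)).submatrix
      (Equiv.sumCongr f (Equiv.refl (Fin k))) (Equiv.sumCongr f (Equiv.refl (Fin k))) =
      Matrix.fromBlocks (A.submatrix f f) 0 0 1 := by
  ext i j
  rcases i with i | i <;> rcases j with j | j <;> rfl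

lemma RIX_aux {X ι κ ι' κ' : Type} [TopologicalSpace X] [Fintype ι] [Fintype κ]
    [Fintype ι'] [Fintype κ'] (f : ι' ≃ ι) (g : κ' ≃ κ) (e : X → Matrix ι ι ℂ)
    (e' : X → Matrix κ κ ℂ) (h : K0Eq e e') :
    K0Eq (fun b => (e b).submatrix f f) (fun b => (e' b).submatrix g g) := by
  obtain ⟨k, x, y, hx, hy, h⟩ := h
  refine ⟨k, fun b => (x b).submatrix (Equiv.sumCongr f (Equiv.refl (Fin k)))
      (Equiv.sumCongr g (Equiv.refl (Fin k))),
    fun b => (y b).submatrix (Equiv.sumCongr g (Equiv.refl (Fin k)))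
      (Equiv.sumCongr f (Equiv.refl (Fin k))),
    hx.matrix_submatrix _ _, hy.matrix_submatrix _ _, fun b => ⟨?_, ?_⟩⟩
  · rw [Matrix.submatrix_mul_equiv, (h b).1, RIX_blocks]
  · rw [Matrix.submatrix_mul_equiv, (h b).2, RIX_blocks]

theorem p_RIX : T_RIX := by
  intro X ι κ ι' κ' _ _ _ _ _ f g e e'
  constructor
  · intro h
    have h1 := RIX_aux f g _ _ h
    have e1 : (fun b => (Matrix.reindex f f (e b)).submatrix f f) = e := by
      funext b
      ext i j
      simp
    have e2 : (fun b => (Matrix.reindex g g (e' b)).submatrix g g) = e' := by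
      funext b
      ext i j
      simp
    rwa [e1, e2] at h1
  · intro h
    exact RIX_aux f.symm g.symm e e' h

end

end INJ
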